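import Mathlib

/-! Noetherianity passes from a subring to its extension by a virtually nilpotent group of
normalising units. -/

namespace Pool.Agent.Lib.MP_ff61db_al.Pt.B9

open Submodule
open scoped commutatorElement

variable {S : Type} [Ring S]

section unit

variable (R : Subring S) (u : S)

/-- `∑_{i < n} R uⁱ`. -/
def upTo (n : ℕ) : Submodule R S := span R ((fun i => u ^ i) '' {i | i < n})

variable {R u}

theorem upTo_mono {n m : ℕ} (h : n ≤ m) : upTo R u n ≤ upTo R u m :=
  span_mono (Set.image_mono fun _ hi => lt_of_lt_of_le hi h)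

theorem upTo_fg (n : ℕ) : (upTo R u n).FG :=
  fg_span ((Set.finite_lt_nat n).image _)

theorem conj_pow {u v : S} (h : ∀ r ∈ R, u * r * v ∈ R) (n : ℕ) :
    ∀ r ∈ R, u ^ n * r * v ^ n ∈ R := by
  induction n with
  | zero => simp
  | succ n ih =>
    intro r hr
    have := h _ (ih r hr)
    rw [pow_succ' u, pow_succ v]
    simpa only [mul_assoc] using this

theorem pow_inv {u v : S} (h : v * u = 1) (n : ℕ) : v ^ n * u ^ n = 1 := by
  induction n with
  | zero => simp
  | succ n ih => rw [pow_succ v, pow_succ' u, mul_assoc, ← mul_assoc v, h, one_mul, ih]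

theorem mul_upTo {v : S} (hvu : v * u = 1) (h : ∀ r ∈ R, u * r * v ∈ R) {n : ℕ} {x : S}
    (hx : x ∈ upTo R u n) : u * x ∈ upTo R u (n + 1) := by
  induction hx using span_induction with
  | mem x hx =>
    obtain ⟨i, hi, rfl⟩ := hx
    exact subset_span ⟨i + 1, Nat.succ_lt_succ hi, pow_succ' u i⟩
  | zero => simp
  | add x y _ _ hx hy => rw [mul_add]; exact add_mem hx hy
  | smul r x _ hx =>
    have e : u * (r • x) = (⟨u * r * v, h _ r.2⟩ : R) • (u * x) := by
      show u * (r * x) = u * r * v * (u * x)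
      rw [mul_assoc (u * r), ← mul_assoc v, hvu, one_mul, mul_assoc]
    rw [e]
    exact smul_mem _ _ hx

theorem upTo_succ {v : S} (huv : u * v = 1) (h' : ∀ r ∈ R, v * r * u ∈ R) {n : ℕ} {x : S}
    (hx : x ∈ upTo R u (n + 1)) : ∃ r ∈ R, x - u ^ n * r ∈ upTo R u n := by
  have e : (fun i => u ^ i) '' {i | i < n + 1} = insert (u ^ n) ((fun i => u ^ i) '' {i | i < n}) := by
    rw [← Set.image_insert_eq (f := fun i => u ^ i)]
    congr 1
    ext i
    simp only [Set.mem_ofPred_eq, Set.mem_insert_iff]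
    omega
  rw [upTo, e, mem_span_insert] at hx
  obtain ⟨a, z, hz, rfl⟩ := hx
  refine ⟨v ^ n * a * u ^ n, conj_pow h' n _ a.2, ?_⟩
  have : u ^ n * (v ^ n * a * u ^ n) = a • u ^ n := by
    rw [← mul_assoc, ← mul_assoc, pow_inv huv, one_mul]; rfl
  rw [this, add_sub_cancel_left]
  exact hz

theorem noeth_unit {v : S} (huv : u * v = 1) (hvu : v * u = 1) (h : ∀ r ∈ R, u * r * v ∈ R)
    (h' : ∀ r ∈ R, v * r * u ∈ R) [IsNoetherianRing R]
    (htop : ∀ x : S, ∃ a n, u ^ a * x ∈ upTo R u n) : IsNoetherianRing S := by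
  refine (isNoetherianRing_iff_ideal_fg S).2 fun I => ?_
  let L : ℕ → Ideal R := fun n =>
    { carrier := {r | ∃ y ∈ I, u ^ n * r - y ∈ upTo R u n}
      add_mem' := by
        rintro a b ⟨y, hy, ha⟩ ⟨z, hz, hb⟩
        refine ⟨y + z, add_mem hy hz, ?_⟩
        convert add_mem ha hb using 1
        simp only [Subring.coe_add, mul_add]
        abel
      zero_mem' := ⟨0, zero_mem _, by simp⟩
      smul_mem' := by
        rintro c a ⟨y, hy, ha⟩
        refine ⟨u ^ n * c * v ^ n * y, I.mul_mem_left _ hy, ?_⟩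
        convert smul_mem _ (⟨u ^ n * c * v ^ n, conj_pow h n _ c.2⟩ : R) ha using 1
        show u ^ n * (c * a) - _ = u ^ n * c * v ^ n * (u ^ n * a - y)
        rw [mul_sub, mul_assoc (u ^ n * c) (v ^ n) (u ^ n * a), ← mul_assoc (v ^ n), pow_inv hvu,
          one_mul, mul_assoc (u ^ n) (c : S) (a : S)] }
  have hL : Monotone L := by
    refine monotone_nat_of_le_succ fun n => ?_
    rintro a ⟨y, hy, ha⟩
    refine ⟨u * y, I.mul_mem_left _ hy, ?_⟩
    convert mul_upTo hvu h ha using 1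
    rw [mul_sub, pow_succ', mul_assoc]
  obtain ⟨N, hN⟩ := monotone_stabilizes_iff_noetherian.2
    (inferInstance : IsNoetherian R R) ⟨L, hL⟩
  have hfg : (I.restrictScalars R ⊓ upTo R u (N + 1)).FG := by
    have : IsNoetherian R (upTo R u (N + 1)) := isNoetherian_of_fg_of_noetherian _ (upTo_fg _)
    exact (isNoetherian_submodule.1 this) _ inf_le_right
  obtain ⟨t, ht⟩ := hfg
  have hJ : ∀ x ∈ I, x ∈ upTo R u (N + 1) → x ∈ span S (t : Set S) := by
    intro x h1 h2
    have : x ∈ span R (t : Set S) := ht ▸ ⟨h1, h2⟩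
    exact span_le_restrictScalars R S _ this
  have key : ∀ m, ∀ x ∈ I, x ∈ upTo R u (N + 1 + m) → x ∈ span S (t : Set S) := by
    intro m
    induction m with
    | zero => exact hJ
    | succ m ih =>
      intro x h1 h2
      obtain ⟨r, hr, h3⟩ := upTo_succ huv h' (n := N + 1 + m) h2
      have h4 : (⟨r, hr⟩ : R) ∈ L (N + 1 + m) :=
        ⟨x, h1, by simpa using neg_mem h3⟩
      have e : L (N + 1 + m) = L (N + m) :=
        (hN _ (by omega)).symm.trans (hN _ (by omega))
      rw [e] at h4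
      obtain ⟨y, hy, h5⟩ := h4
      have h6 : u ^ (N + m) * r ∈ upTo R u (N + 1 + m) := by
        have : u ^ (N + m) * r = (⟨_, conj_pow h (N + m) r hr⟩ : R) • u ^ (N + m) := by
          show _ = u ^ (N + m) * r * v ^ (N + m) * u ^ (N + m)
          rw [mul_assoc _ (v ^ _), pow_inv hvu, mul_one]
        rw [this]
        exact smul_mem _ _ (subset_span ⟨N + m, by simp only [Set.mem_ofPred_eq]; omega, rfl⟩)
      have h7 : y ∈ upTo R u (N + 1 + m) := by
        have := sub_mem h6 (upTo_mono (by omega) h5)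
        simpa using this
      have h8 : x - u * y ∈ upTo R u (N + 1 + m) := by
        have h9 := mul_upTo hvu h h5
        rw [show N + m + 1 = N + 1 + m by omega] at h9
        convert add_mem h3 h9 using 1
        rw [mul_sub, ← mul_assoc, ← pow_succ', show N + m + 1 = N + 1 + m by omega]
        simp
      have h10 := ih _ (sub_mem h1 (I.mul_mem_left _ hy)) h8
      have h11 : u * y ∈ span S (t : Set S) := smul_mem _ u (ih y hy h7)
      simpa using add_mem h10 h11
  refine ⟨t, le_antisymm (span_le.2 fun x hx => ?_) fun x hx => ?_⟩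
  · have : x ∈ span R (t : Set S) := subset_span hx
    rw [ht] at this
    exact this.1
  · obtain ⟨a, n, hn⟩ := htop x
    have h1 := key n _ (I.mul_mem_left _ hx) (upTo_mono (by omega) hn)
    have h2 : v ^ a * (u ^ a * x) ∈ span S (t : Set S) := smul_mem _ _ h1
    rwa [← mul_assoc, pow_inv hvu, one_mul] at h2

theorem span_sub {A B : Subring S} {s : Set B} {x : B} (hAB : A ≤ B)
    (hx : (x : S) ∈ span A (Subtype.val '' s)) : x ∈ span (A.comap B.subtype) s := by
  have : ∀ y ∈ span A (Subtype.val '' s), ∃ z ∈ span (A.comap B.subtype) s, (z : S) = y := by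
    intro y hy
    induction hy using span_induction with
    | mem y hy =>
      obtain ⟨z, hz, rfl⟩ := hy
      exact ⟨z, subset_span hz, rfl⟩
    | zero => exact ⟨0, zero_mem _, rfl⟩
    | add _ _ _ _ h1 h2 =>
      obtain ⟨z, hz, rfl⟩ := h1
      obtain ⟨w, hw, rfl⟩ := h2
      exact ⟨z + w, add_mem hz hw, rfl⟩
    | smul r _ _ h1 =>
      obtain ⟨z, hz, rfl⟩ := h1
      exact ⟨_, smul_mem _ (⟨⟨r, hAB r.2⟩, r.2⟩ : A.comap B.subtype) hz, rfl⟩
  obtain ⟨z, hz, e⟩ := this _ hx
  rwa [← Subtype.ext e]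

theorem noeth_comap {A B : Subring S} (hAB : A ≤ B) [IsNoetherianRing A] :
    IsNoetherianRing (A.comap B.subtype) :=
  isNoetherianRing_of_surjective A _
    ((Subring.inclusion hAB).codRestrict (A.comap B.subtype) fun r => r.2)
    fun r => ⟨⟨r.1.1, r.2⟩, rfl⟩

theorem noeth_unit' {A B : Subring S} (hAB : A ≤ B) {u v : S} (hu : u ∈ B) (hv : v ∈ B)
    (huv : u * v = 1) (hvu : v * u = 1) (h : ∀ r ∈ A, u * r * v ∈ A)
    (h' : ∀ r ∈ A, v * r * u ∈ A) [IsNoetherianRing A]
    (htop : ∀ x ∈ B, ∃ a n, u ^ a * x ∈ upTo A u n) : IsNoetherianRing B := by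
  have := noeth_comap hAB
  refine noeth_unit (R := A.comap B.subtype) (u := ⟨u, hu⟩) (v := ⟨v, hv⟩) (Subtype.ext huv)
    (Subtype.ext hvu) (fun r hr => h r hr) (fun r hr => h' r hr) fun x => ?_
  obtain ⟨a, n, hn⟩ := htop x x.2
  refine ⟨a, n, span_sub hAB ?_⟩
  rw [Set.image_image]
  simpa [upTo] using hn

theorem noeth_fin {A B : Subring S} (hAB : A ≤ B) [IsNoetherianRing A] {t : Set B}
    (ht : t.Finite) (htop : ∀ x ∈ B, x ∈ span A (Subtype.val '' t)) : IsNoetherianRing B := by
  have := noeth_comap hAB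
  have : Module.Finite (A.comap B.subtype) B :=
    ⟨fg_def.2 ⟨t, ht, eq_top_iff.2 fun x _ => span_sub hAB (htop x x.2)⟩⟩
  exact isNoetherian_of_tower (A.comap B.subtype) inferInstance

end unit

section group

variable {G : Type} [Group G] (R : Subring S) (φ : G →* S)

/-- The subring generated by `R` and the image of `K`. -/
def RG (K : Subgroup G) : Subring S := Subring.closure (R ∪ φ '' K)

variable {R φ}

theorem le_RG (K : Subgroup G) : R ≤ RG R φ K := fun _ h => Subring.subset_closure (Or.inl h)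

theorem mem_RG {K : Subgroup G} {g : G} (h : g ∈ K) : φ g ∈ RG R φ K :=
  Subring.subset_closure (Or.inr ⟨g, h, rfl⟩)

theorem RG_mono {K L : Subgroup G} (h : K ≤ L) : RG R φ K ≤ RG R φ L :=
  Subring.closure_mono (Set.union_subset_union_right _ (Set.image_mono h))

theorem RG_bot : RG R φ ⊥ = R := by
  refine le_antisymm (Subring.closure_le.2 ?_) (le_RG _)
  rintro _ (h | ⟨g, hg, rfl⟩)
  · exact h
  · rw [Subgroup.mem_bot.1 hg, map_one]; exact R.one_mem

theorem phi_inv (g : G) : φ g * φ g⁻¹ = 1 := by rw [← map_mul, mul_inv_cancel, map_one]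

theorem phi_inv' (g : G) : φ g⁻¹ * φ g = 1 := by rw [← map_mul, inv_mul_cancel, map_one]

theorem RG_conj (hc : ∀ g, ∀ r ∈ R, φ g * r * φ g⁻¹ ∈ R) {K : Subgroup G} {g : G}
    (hg : ∀ a ∈ K, g * a * g⁻¹ ∈ K) : ∀ r ∈ RG R φ K, φ g * r * φ g⁻¹ ∈ RG R φ K := by
  intro r hr
  induction hr using Subring.closure_induction with
  | mem x hx =>
    rcases hx with h | ⟨a, ha, rfl⟩
    · exact le_RG _ (hc g x h)
    · rw [← map_mul, ← map_mul]; exact mem_RG (hg a ha)
  | zero => simp
  | one => rw [mul_one, phi_inv]; exact one_mem _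
  | add x y _ _ hx hy => rw [mul_add, add_mul]; exact add_mem hx hy
  | neg x _ hx => rw [mul_neg, neg_mul]; exact neg_mem hx
  | mul x y _ _ hx hy =>
    convert mul_mem hx hy using 1
    simp only [mul_assoc]
    rw [← mul_assoc (φ g⁻¹), phi_inv', one_mul]

/-- Every element of `RG K` is a combination of group elements with coefficients in `R`. -/
theorem RG_span (hc : ∀ g, ∀ r ∈ R, φ g * r * φ g⁻¹ ∈ R) {K : Subgroup G} {x : S}
    (hx : x ∈ RG R φ K) : x ∈ span R (φ '' K) := by
  have h1 : ∀ g ∈ K, ∀ y ∈ span R (φ '' K), φ g * y ∈ span R (φ '' K) := by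
    intro g hg y hy
    induction hy using span_induction with
    | mem x hx =>
      obtain ⟨a, ha, rfl⟩ := hx
      exact subset_span ⟨g * a, mul_mem hg ha, map_mul _ _ _⟩
    | zero => simp
    | add x y _ _ hx hy => rw [mul_add]; exact add_mem hx hy
    | smul r x _ hx =>
      convert smul_mem _ (⟨_, hc g r r.2⟩ : R) hx using 1
      show φ g * (r * x) = φ g * r * φ g⁻¹ * (φ g * x)
      simp only [mul_assoc]
      rw [← mul_assoc (φ g⁻¹), phi_inv', one_mul]
  have key : ∀ y ∈ span R (φ '' K), x * y ∈ span R (φ '' K) := by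
    induction hx using Subring.closure_induction with
    | mem x hx =>
      rcases hx with h | ⟨a, ha, rfl⟩
      · exact fun y hy => smul_mem _ (⟨x, h⟩ : R) hy
      · exact h1 a ha
    | zero => simp
    | one => simp
    | add x y _ _ hx hy => intro z hz; rw [add_mul]; exact add_mem (hx z hz) (hy z hz)
    | neg x _ hx => intro z hz; rw [neg_mul]; exact neg_mem (hx z hz)
    | mul x y _ _ hx hy => intro z hz; rw [mul_assoc]; exact hx _ (hy z hz)
  simpa using key 1 (subset_span ⟨1, K.one_mem, map_one φ⟩)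

theorem RG_step (hc : ∀ g, ∀ r ∈ R, φ g * r * φ g⁻¹ ∈ R) {K : Subgroup G} {g : G}
    (hg : ∀ a ∈ K, g * a * g⁻¹ ∈ K) (hg' : ∀ a ∈ K, g⁻¹ * a * g ∈ K)
    (hK : IsNoetherianRing (RG R φ K)) : IsNoetherianRing (RG R φ (K ⊔ Subgroup.zpowers g)) := by
  have hm : g ∈ K ⊔ Subgroup.zpowers g := Subgroup.mem_sup_right (Subgroup.mem_zpowers g)
  have h1 := RG_conj hc hg
  have h2 := RG_conj hc (g := g⁻¹) (by simpa using hg')
  rw [inv_inv] at h2
  refine noeth_unit' (RG_mono le_sup_left) (mem_RG hm) (mem_RG (inv_mem hm)) (phi_inv g)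
    (phi_inv' g) h1 h2 fun x hx => ?_
  have hz : ∀ (n : ℤ), ∀ a ∈ K, g ^ n * a * g ^ (-n) ∈ K := by
    intro n
    induction n using Int.induction_on with
    | zero => simp
    | succ n ih => intro a ha; convert hg _ (ih a ha) using 1; group
    | pred n ih => intro a ha; convert hg' _ (ih a ha) using 1; group
  have hdec : ∀ b ∈ K ⊔ Subgroup.zpowers g, ∃ a ∈ K, ∃ n : ℤ, b = a * g ^ n := by
    let L : Subgroup G :=
      { carrier := {b | ∃ a ∈ K, ∃ n : ℤ, b = a * g ^ n}
        one_mem' := ⟨1, K.one_mem, 0, by simp⟩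
        mul_mem' := by
          rintro _ _ ⟨a, ha, n, rfl⟩ ⟨b, hb, m, rfl⟩
          exact ⟨_, mul_mem ha (hz n b hb), n + m, by group⟩
        inv_mem' := by
          rintro _ ⟨a, ha, n, rfl⟩
          exact ⟨_, hz (-n) _ (inv_mem ha), -n, by group⟩ }
    have : K ⊔ Subgroup.zpowers g ≤ L :=
      sup_le (fun a ha => ⟨a, ha, 0, by simp⟩) (by rintro _ ⟨n, rfl⟩; exact ⟨1, K.one_mem, n, by simp⟩)
    exact this
  have hup : ∀ (m : ℕ) {n : ℕ} {y : S}, y ∈ upTo (RG R φ K) (φ g) n →
      φ g ^ m * y ∈ upTo (RG R φ K) (φ g) (n + m) := by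
    intro m n y hy
    induction m with
    | zero => simpa using hy
    | succ m ih => rw [pow_succ', mul_assoc]; exact mul_upTo (phi_inv' g) h1 ih
  have hx' := RG_span hc hx
  clear hx
  induction hx' using span_induction with
  | mem y hy =>
    obtain ⟨b, hb, rfl⟩ := hy
    obtain ⟨a, ha, n, rfl⟩ := hdec b hb
    refine ⟨n.natAbs, (n.natAbs + n).toNat + 1, ?_⟩
    have e : φ g ^ n.natAbs * φ (a * g ^ n) =
        (⟨_, mem_RG (hz n.natAbs a ha)⟩ : RG R φ K) • φ g ^ (n.natAbs + n).toNat := by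
      show _ = φ _ * _
      rw [← map_pow, ← map_pow, ← map_mul, ← map_mul, ← zpow_natCast, ← zpow_natCast,
        Int.toNat_of_nonneg (by omega)]
      congr 1
      group
    rw [e]
    exact smul_mem _ _ (subset_span ⟨_, Nat.lt_succ_self _, rfl⟩)
  | zero => exact ⟨0, 0, by simp⟩
  | add y z _ _ hy hz =>
    obtain ⟨a, n, hy⟩ := hy
    obtain ⟨b, m, hz⟩ := hz
    refine ⟨a + b, n + b + (m + a), ?_⟩
    rw [mul_add]
    refine add_mem (upTo_mono (Nat.le_add_right _ _) ?_) (upTo_mono (Nat.le_add_left _ _) ?_)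
    · rw [add_comm a, pow_add, mul_assoc]; exact hup b hy
    · rw [pow_add, mul_assoc]; exact hup a hz
  | smul r y _ hy =>
    obtain ⟨a, n, hy⟩ := hy
    refine ⟨a, n, ?_⟩
    convert smul_mem _ (⟨_, conj_pow h1 a r (le_RG _ r.2)⟩ : RG R φ K) hy using 1
    show φ g ^ a * (r * y) = φ g ^ a * r * φ g⁻¹ ^ a * (φ g ^ a * y)
    simp only [mul_assoc]
    rw [← mul_assoc (φ g⁻¹ ^ a), pow_inv (phi_inv' g), one_mul]

theorem RG_index (hc : ∀ g, ∀ r ∈ R, φ g * r * φ g⁻¹ ∈ R) {K : Subgroup G} [K.FiniteIndex]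
    (hK : IsNoetherianRing (RG R φ K)) : IsNoetherianRing (RG R φ ⊤) := by
  refine noeth_fin (RG_mono (K := K) le_top)
    (t := Set.range fun c : G ⧸ K => (⟨φ c.out⁻¹, mem_RG trivial⟩ : RG R φ ⊤))
    (Set.finite_range _) fun x hx => ?_
  have hx' := RG_span hc hx
  clear hx
  induction hx' using span_induction with
  | mem y hy =>
    obtain ⟨b, -, rfl⟩ := hy
    obtain ⟨a, ha⟩ := QuotientGroup.mk_out_eq_mul K b⁻¹
    have e : φ b = (⟨_, mem_RG a.2⟩ : RG R φ K) • φ ((b⁻¹ : G) : G ⧸ K).out⁻¹ := by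
      show _ = φ _ * _
      rw [ha, ← map_mul]
      congr 1
      group
    rw [e]
    exact smul_mem _ _ (subset_span ⟨_, ⟨_, rfl⟩, rfl⟩)
  | zero => exact zero_mem _
  | add _ _ _ _ hy hz => exact add_mem hy hz
  | smul r y _ hy => exact smul_mem _ (⟨r, le_RG _ r.2⟩ : RG R φ K) hy

theorem normal_between {i : ℕ} {K : Subgroup G}
    (h1 : (⊤ : Subgroup G).lowerCentralSeries (i + 1) ≤ K)
    (h2 : K ≤ (⊤ : Subgroup G).lowerCentralSeries i) : K.Normal := by
  refine ⟨fun a ha g => ?_⟩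
  have := mul_mem ha (h1 (Subgroup.commutator_mem_commutator (inv_mem (h2 ha)) (Subgroup.mem_top g)))
  convert this using 1
  rw [commutatorElement_def]
  group

theorem lcs_gen [hG : Group.FG G] (i : ℕ) : ∃ C : Set G, C.Finite ∧
    C ⊆ (⊤ : Subgroup G).lowerCentralSeries i ∧ (⊤ : Subgroup G).lowerCentralSeries i ≤
      (⊤ : Subgroup G).lowerCentralSeries (i + 1) ⊔ Subgroup.closure C := by
  obtain ⟨X, hX, hfin⟩ := Group.fg_iff.1 hG
  induction i with
  | zero => exact ⟨X, hfin, fun _ _ => trivial, hX ▸ le_sup_right⟩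
  | succ i ih =>
    obtain ⟨C, h1, h2, h3⟩ := ih
    have hs : Set.image2 (fun c x => ⁅c, x⁆) C X ⊆ (⊤ : Subgroup G).lowerCentralSeries (i + 1) := by
      rintro _ ⟨c, hc, x, -, rfl⟩
      exact Subgroup.commutator_mem_commutator (h2 hc) (Subgroup.mem_top x)
    refine ⟨_, h1.image2 _ hfin, hs, ?_⟩
    set K := (⊤ : Subgroup G).lowerCentralSeries (i + 1 + 1) ⊔
      Subgroup.closure (Set.image2 (fun c x => ⁅c, x⁆) C X)
    have : K.Normal := normal_between le_sup_left (sup_le
      (Subgroup.lowerCentralSeries_antitone _ (Nat.le_succ _)) ((Subgroup.closure_le _).2 hs))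
    have hcom : ∀ a b : G, ⁅a, b⁆ ∈ K ↔ Commute (a : G ⧸ K) b := by
      intro a b
      rw [← QuotientGroup.eq_one_iff, ← commutatorElement_eq_one_iff_commute]
      rfl
    have hZ : (⊤ : Subgroup G).lowerCentralSeries (i + 1) ⊔ Subgroup.closure C ≤
        (Subgroup.center (G ⧸ K)).comap (QuotientGroup.mk' K) := by
      refine sup_le (fun a ha => ?_) ((Subgroup.closure_le _).2 fun a ha => ?_)
      · refine Subgroup.mem_center_iff.2 fun b => ?_
        obtain ⟨b, rfl⟩ := QuotientGroup.mk_surjective b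
        exact ((hcom a b).1 (Subgroup.mem_sup_left
          (Subgroup.commutator_mem_commutator ha (Subgroup.mem_top b)))).symm
      · refine Subgroup.mem_center_iff.2 fun b => ?_
        obtain ⟨b, rfl⟩ := QuotientGroup.mk_surjective b
        have hb : b ∈ Subgroup.closure X := hX ▸ trivial
        refine Commute.symm (a := (a : G ⧸ K)) ?_
        induction hb using Subgroup.closure_induction with
        | mem x hx =>
          exact (hcom a x).1 (Subgroup.mem_sup_right (Subgroup.subset_closure ⟨a, ha, x, hx, rfl⟩))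
        | one => exact Commute.one_right _
        | mul x y _ _ hx hy => exact hx.mul_right hy
        | inv x _ hx => exact hx.inv_right
    exact Subgroup.commutator_le.2 fun a ha b _ =>
      (hcom a b).2 (Commute.symm (Subgroup.mem_center_iff.1 (hZ (h3 ha)) b))

theorem RG_nil (hc : ∀ g, ∀ r ∈ R, φ g * r * φ g⁻¹ ∈ R) [Group.FG G] [Group.IsNilpotent G]
    (hR : IsNoetherianRing R) : IsNoetherianRing (RG R φ ⊤) := by
  have step : ∀ i, IsNoetherianRing (RG R φ ((⊤ : Subgroup G).lowerCentralSeries (i + 1))) →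
      IsNoetherianRing (RG R φ ((⊤ : Subgroup G).lowerCentralSeries i)) := by
    intro i hi
    obtain ⟨C, h1, h2, h3⟩ := lcs_gen (G := G) i
    have hle := Subgroup.lowerCentralSeries_antitone (⊤ : Subgroup G) (Nat.le_succ i)
    rw [le_antisymm h3 (sup_le hle ((Subgroup.closure_le _).2 h2))]
    clear h3
    induction C, h1 using Set.Finite.induction_on with
    | empty => rwa [Subgroup.closure_empty, sup_bot_eq]
    | @insert g C _ _ ih =>
      have h4 : C ⊆ _ := (Set.subset_insert g C).trans h2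
      have := normal_between le_sup_left (sup_le hle ((Subgroup.closure_le _).2 h4))
      rw [Set.insert_eq, Subgroup.closure_union, sup_comm (Subgroup.closure {g}), ← sup_assoc,
        ← Subgroup.zpowers_eq_closure]
      exact RG_step hc (fun a ha => this.conj_mem a ha g) (fun a ha => this.conj_mem' a ha g) (ih h4)
  obtain ⟨n, hn⟩ := Subgroup.nilpotent_iff_lowerCentralSeries.1 (inferInstance : Group.IsNilpotent G)
  have : IsNoetherianRing (RG R φ ((⊤ : Subgroup G).lowerCentralSeries n)) := by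
    rwa [hn, RG_bot]
  clear hn
  induction n with
  | zero => exact this
  | succ n ih => exact ih (step n this)

/-- Skew lemma. -/
theorem skew (R : Subring S) (φ : G →* S) (hc : ∀ g, ∀ r ∈ R, φ g * r * φ g⁻¹ ∈ R) [Group.FG G]
    (hG : ∃ H : Subgroup G, H.FiniteIndex ∧ Group.IsNilpotent H) (hR : IsNoetherianRing R)
    (htop : Subring.closure (R ∪ Set.range φ) = ⊤) : IsNoetherianRing S := by
  obtain ⟨H, h1, h2⟩ := hG
  have : Group.FG H := Subgroup.fg_of_index_ne_zero H
  have h3 := RG_nil (φ := φ.comp H.subtype) (fun g => hc g) hR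
  have e : RG R (φ.comp H.subtype) ⊤ = RG R φ H := by
    unfold RG
    congr 2
    ext x
    simp
  rw [e] at h3
  have h4 := RG_index hc h3
  have e' : RG R φ ⊤ = ⊤ := by rw [← htop, RG, Subgroup.coe_top, Set.image_univ]
  rw [e'] at h4
  exact isNoetherianRing_of_ringEquiv _ Subring.topEquiv

end group

end Pool.Agent.Lib.MP_ff61db_al.Pt.B9

namespace Pool.Agent.Lib.MP_ff61db_al.Pt

theorem skew_noeth {S G : Type} [Ring S] [Group G] [Group.FG G] (R : Subring S) (u : G →* Sˣ)
    (hn : ∀ g, ∀ r ∈ R, (u g : S) * r * ((u g)⁻¹ : Sˣ) ∈ R)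
    (hs : AddSubgroup.closure {s : S | ∃ r ∈ R, ∃ g, s = r * u g} = ⊤)
    (hv : ∃ N : Subgroup G, N.FiniteIndex ∧ Group.IsNilpotent N) :
    (IsNoetherianRing R → IsNoetherianRing S) ∧
      (IsNoetherianRing Rᵐᵒᵖ → IsNoetherianRing Sᵐᵒᵖ) := by
  have key : ∀ T : Subring S, R ≤ T → (∀ g, (u g : S) ∈ T) → T = ⊤ := by
    intro T h1 h2
    have : AddSubgroup.closure {s : S | ∃ r ∈ R, ∃ g, s = r * u g} ≤ T.toAddSubgroup :=
      (AddSubgroup.closure_le _).2 (by rintro _ ⟨r, hr, g, rfl⟩; exact T.mul_mem (h1 hr) (h2 g))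
    rw [hs] at this
    exact eq_top_iff.2 fun x _ => this trivial
  refine ⟨fun h => B9.skew R ((Units.coeHom S).comp u) (fun g r hr => by simpa using hn g r hr) hv h
    (key _ (fun _ h => Subring.subset_closure (Or.inl h))
      fun g => Subring.subset_closure (Or.inr ⟨g, rfl⟩)), fun h => ?_⟩
  let φ : G →* Sᵐᵒᵖ :=
    { toFun := fun g => MulOpposite.op ((u g⁻¹ : Sˣ) : S)
      map_one' := by simp
      map_mul' := fun a b => by simp }
  refine B9.skew R.op φ (fun g r hr => ?_) hv
    (isNoetherianRing_of_ringEquiv _ R.mopRingEquivOp) ?_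
  · have := hn g r.unop hr
    rw [Subring.mem_op]
    simpa [φ, mul_assoc] using this
  · have := key (Subring.closure (R.op ∪ Set.range φ)).unop
      (fun r hr => Subring.subset_closure (Or.inl hr))
      fun g => Subring.subset_closure (Or.inr ⟨g⁻¹, by simp [φ]⟩)
    exact eq_top_iff.2 fun x _ => (this.ge (Subring.mem_top x.unop) :)

end Pool.Agent.Lib.MP_ff61db_al.Pt
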