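import Pool.Agent.Lib.MP_ff61db_al.Defs

/-! Grouplike elements that carry a skew primitive element. -/

namespace Pool.Agent.Lib.MP_ff61db_al.Pt

open TensorProduct

/-- The grouplike elements which carry a nontrivial skew primitive element. -/
def skewSupp (k H : Type) [Field k] [Ring H] [HopfAlgebra k H] : Set (GroupLike k H) :=
  {g | ∃ v : H, Coalgebra.comul (R := k) v = v ⊗ₜ 1 + (g : H) ⊗ₜ v ∧
    v ∉ Submodule.span k {(1 : H), (g : H)}}

end Pool.Agent.Lib.MP_ff61db_al.Pt
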