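import Pool.Agent.Lib.MP_ff61db_al.Coalg
import Pool.Agent.Lib.MP_ff61db_al.Pt.SDef

/-! Extension of the base field. -/

set_option autoImplicit false

namespace Pool.Agent.Lib.MP_ff61db_al.Pt

open Submodule TensorProduct WithConv

namespace BC

theorem noeth_down {R S : Type} [Ring R] [Ring S] (f : R →+* S) (r : S →+ R) (h1 : ∀ u, r (f u) = u)
    (h2 : ∀ c v, r (c * f v) = r c * v) (h : IsNoetherianRing S) : IsNoetherianRing R := by
  have key : ∀ (I : Ideal R) (u : R), f u ∈ I.map f → u ∈ I := fun I u hu => by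
    let J : Ideal S :=
      { carrier := {s | ∀ c, r (c * s) ∈ I}
        add_mem' := fun ha hb c => by rw [mul_add, map_add]; exact I.add_mem (ha c) (hb c)
        zero_mem' := fun c => by simp
        smul_mem' := fun a s hs c => by rw [smul_eq_mul, ← mul_assoc]; exact hs _ }
    have hle : I.map f ≤ J :=
      Ideal.map_le_iff_le_comap.2 fun v hv c => (h2 c v).symm ▸ I.mul_mem_left _ hv
    simpa [h1] using hle hu 1
  have hmono : StrictMono fun I : Ideal R => I.map f := fun I J hIJ =>
    lt_of_le_of_ne (Ideal.map_mono hIJ.le) fun e => hIJ.ne (le_antisymm hIJ.le fun u hu =>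
      key I u ((show I.map f = J.map f from e) ▸ Ideal.mem_map_of_mem f hu))
  have : WellFoundedGT (Ideal S) := isNoetherian_iff'.1 h
  exact isNoetherian_iff'.2 hmono.wellFoundedGT

section
variable {k H : Type} [Field k] [Ring H] [Bialgebra k H]

theorem cl_span {S : Set H} (h : ∀ g ∈ S, IsGroupLikeElem k g) : Cl (span k S) :=
  ⟨fun φ _ hx => (span_le (p := (span k S).comap (lact φ))).2 (fun g hg => by
      simpa [lact, (h g hg).2] using smul_mem _ _ (subset_span hg)) hx,
    fun φ _ hx => (span_le (p := (span k S).comap (ract φ))).2 (fun g hg => by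
      simpa [ract, (h g hg).2] using smul_mem _ _ (subset_span hg)) hx⟩

theorem mem_corad {g : H} (h : IsGroupLikeElem k g) : g ∈ coradical k H :=
  (le_sSup (s := {C | IsSimpleSubcoalgebra k C}) ⟨(cl_span (S := {g}) (by simpa using h)).isSub,
    by simpa using h.ne_zero, fun _ _ hD => (nonzero_span_atom g h.ne_zero).le_iff.1 hD⟩)
    (mem_span_singleton_self g)

theorem inf_Uw {C W : Submodule k H} (hC : Cl C) (h : C ⊓ W = ⊥) (a : ℕ) {x : H} (hx : x ∈ C)
    (ha : x ∈ Uw W a) : x = 0 := by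
  induction a with
  | zero => rwa [Uw_zero] at ha
  | succ a ih =>
    refine ih (mem_Uw.2 fun θ hθ => ?_)
    have : ract θ x ∈ C ⊓ W := ⟨hC.r θ x hx, mem_of_du fun φ hφ => by
      rw [du_ract]; exact mem_Uw.1 ha _ ⟨θ, hθ, φ, hφ, rfl⟩⟩
    rw [h, mem_bot] at this
    rw [← mul_one θ, ← du_ract, this, map_zero]

theorem ex_Uw (x : H) : ∃ a, x ∈ Uw (coradical k H) a := by
  obtain ⟨C, h1, h2, h3, -⟩ := exists_fd (span k {x}) (fg_span_singleton x)
  obtain ⟨a, ha⟩ := Uw_top coradical_cl h2 h1 fun D hD hle => coradical_meets hD (h1.of_le hle)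
  exact ⟨a, ha (h3 (mem_span_singleton_self x))⟩

end

variable {k : Type} [Field k] {K : Type} [Field K] [Algebra k K]

section
variable {M N : Type} [AddCommGroup M] [Module k M] [AddCommGroup N] [Module k N]

/-- Contraction with a functional on the larger field. -/
noncomputable def ct (l : K →ₗ[k] k) : K ⊗[k] M →ₗ[k] M :=
  (TensorProduct.lid k M).toLinearMap ∘ₗ l.rTensor M

theorem ct_tmul (l : K →ₗ[k] k) (a : K) (m : M) : ct l (a ⊗ₜ[k] m) = l a • m := by simp [ct]

theorem ct_bc (l : K →ₗ[k] k) (f : M →ₗ[k] N) (t : K ⊗[k] M) :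
    ct l (f.baseChange K t) = f (ct l t) := by
  induction t with
  | zero => simp
  | tmul a m => simp [ct_tmul]
  | add s t hs ht => simp only [map_add, hs, ht]

theorem mem_bc {W : Submodule k M} {t : K ⊗[k] M} (h : ∀ l, ct l t ∈ W) : t ∈ W.baseChange K := by
  classical
  let b := Module.Basis.ofVectorSpace k K
  obtain ⟨c, rfl⟩ := TensorProduct.eq_repr_basis_left b t
  refine sum_mem fun i hi => tmul_mem_baseChange_of_mem _ ?_
  have := h (b.coord i)
  rw [Finsupp.sum, map_sum, Finset.sum_eq_single_of_mem i hi fun j _ hj => by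
    simp [ct_tmul, hj]] at this
  simpa [ct_tmul] using this

end

theorem mv {M N : Type} [AddCommGroup M] [Module k M] [AddCommGroup N] [Module k N] (a : K) (x : M)
    (y : N) : ((1 : K) ⊗ₜ[k] x) ⊗ₜ[K] (a ⊗ₜ[k] y) = (a ⊗ₜ[k] x) ⊗ₜ[K] ((1 : K) ⊗ₜ[k] y) := by
  have h1 : a ⊗ₜ[k] y = a • ((1 : K) ⊗ₜ[k] y) := by simp [smul_tmul']
  have h2 : a ⊗ₜ[k] x = a • ((1 : K) ⊗ₜ[k] x) := by simp [smul_tmul']
  rw [h1, h2, smul_tmul]

variable {H : Type} [Ring H] [HopfAlgebra k H]

theorem comul_bc (t : K ⊗[k] H) : Coalgebra.comul (R := K) t =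
    AlgebraTensorModule.distribBaseChange k K H H
      ((Coalgebra.comul (R := k) (A := H)).baseChange K t) := by
  induction t with
  | zero => simp
  | add s t hs ht => simp only [map_add, hs, ht]
  | tmul a h =>
    rw [comul_tmul, LinearMap.baseChange_tmul]
    induction (Coalgebra.comul h : H ⊗[k] H) with
    | zero => simp
    | add s t hs ht => simp only [tmul_add, map_add, hs, ht]
    | tmul x y => simpa using mv a x y

theorem gl_bc {g : H} (h : IsGroupLikeElem k g) : IsGroupLikeElem K ((1 : K) ⊗ₜ[k] g) :=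
  ⟨by simp [h.1], by simp [h.2]⟩

theorem Uw_bc (W : Submodule k H) (a : ℕ) : (Uw W a).baseChange K ≤ Uw (W.baseChange K) a := by
  induction a with
  | zero => simp [Uw_zero]
  | succ a ih =>
    rw [baseChange_eq_span, span_le]
    rintro _ ⟨x, hx, rfl⟩
    refine mem_Uw.2 ?_
    rintro _ ⟨θ, hθ, φ, hφ, rfl⟩
    rw [← du_lact]
    refine mem_Uw.1 (ih (mem_bc fun l => ?_)) θ hθ
    have : ct l (lact φ (mk k K H 1 x)) =
        lact (toConv (l ∘ₗ φ.ofConv.restrictScalars k ∘ₗ mk k K H 1)) x := by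
      simp only [lact, LinearMap.comp_apply, comul_bc, mk_apply, LinearMap.baseChange_tmul]
      induction (Coalgebra.comul x : H ⊗[k] H) with
      | zero => simp
      | add s t hs ht => simp only [tmul_add, map_add, hs, ht]
      | tmul y z => simp [smul_tmul', ct_tmul]
    rw [this]
    exact mem_Uw.2 fun θ' hθ' => by
      rw [du_lact]
      exact mem_Uw.1 hx _ ⟨θ', hθ', _, fun y hy => by
        simp [hφ _ (tmul_mem_baseChange_of_mem 1 hy)], rfl⟩

theorem corad_le (hpt : coradical k H = span k {g : H | IsGroupLikeElem k g}) :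
    coradical K (K ⊗[k] H) ≤ span K (mk k K H 1 '' {g : H | IsGroupLikeElem k g}) := by
  refine sSup_le fun C hC => ?_
  have h1 : Cl (span K (mk k K H 1 '' {g : H | IsGroupLikeElem k g})) :=
    cl_span (by rintro _ ⟨g, hg, rfl⟩; exact gl_bc hg)
  refine inf_eq_left.1 ((hC.2.2 _ (hC.1.cl.inf h1).isSub inf_le_left).resolve_left fun e => ?_)
  refine hC.2.1 (eq_bot_iff.2 fun t ht => ?_)
  obtain ⟨a, ha⟩ : ∃ a, t ∈ (Uw (coradical k H) a).baseChange K := by
    clear ht
    induction t with
    | zero => exact ⟨0, zero_mem _⟩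
    | tmul c x => exact (ex_Uw x).imp fun a ha => tmul_mem_baseChange_of_mem c ha
    | add s t hs ht =>
      obtain ⟨a, ha⟩ := hs
      obtain ⟨b, hb⟩ := ht
      exact ⟨a + b, add_mem (baseChange_mono K (Uw_mono coradical_cl le_self_add) ha)
        (baseChange_mono K (Uw_mono coradical_cl le_add_self) hb)⟩
  have := Uw_bc _ a ha
  rw [hpt, baseChange_span] at this
  exact inf_Uw hC.1.cl e a ht this

theorem gl_down (hpt : coradical k H = span k {g : H | IsGroupLikeElem k g}) {t : K ⊗[k] H}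
    (h : IsGroupLikeElem K t) : t ∈ mk k K H 1 '' {g : H | IsGroupLikeElem k g} := by
  by_contra e
  refine (linearIndepOn_isGroupLikeElem.mono (Set.insert_subset h ?_)).notMem_span_of_insert e
    (by simpa using corad_le hpt (mem_corad h))
  rintro _ ⟨g, hg, rfl⟩
  exact gl_bc hg

theorem pt_bc (hpt : coradical k H = span k {g : H | IsGroupLikeElem k g}) :
    coradical K (K ⊗[k] H) = span K {g | IsGroupLikeElem K g} :=
  le_antisymm ((corad_le hpt).trans (span_mono (by rintro _ ⟨g, hg, rfl⟩; exact gl_bc hg)))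
    (span_le.2 fun _ => mem_corad)

variable (K H) in
/-- Grouplike elements stay grouplike. -/
noncomputable def γ : GroupLike k H →* GroupLike K (K ⊗[k] H) where
  toFun g := ⟨1 ⊗ₜ g.1, gl_bc g.2⟩
  map_one' := rfl
  map_mul' _ _ := GroupLike.ext (by simp)

theorem skew_down (hpt : coradical k H = span k {g : H | IsGroupLikeElem k g}) :
    skewSupp K (K ⊗[k] H) ⊆ γ K H '' skewSupp k H := by
  rintro ⟨t, ht⟩ ⟨v, h1, h2⟩
  obtain ⟨g, hg, rfl⟩ := gl_down hpt ht
  refine ⟨⟨g, hg⟩, ?_, rfl⟩
  by_contra e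
  refine h2 ?_
  have h3 : (Coalgebra.comul (R := k) (A := H)).baseChange K v =
      ((mk k H H).flip 1 + mk k H H g).baseChange K v := by
    apply (AlgebraTensorModule.distribBaseChange k K H H).injective
    rw [← comul_bc, h1]
    clear h1 h2
    induction v with
    | zero => simp
    | add s t hs ht => rw [map_add, map_add, ← hs, ← ht, add_tmul, tmul_add]; abel
    | tmul a y => simpa [Algebra.TensorProduct.one_def] using mv a g y
  have := mem_bc (W := span k {1, g}) (t := v) fun l => by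
    by_contra h4
    exact e ⟨ct l v, (ct_bc l _ v).symm.trans ((congrArg (ct l) h3).trans (ct_bc l _ v)), h4⟩
  rwa [baseChange_span, Set.image_pair] at this

theorem pow_bc (V : Submodule k H) (n : ℕ) : V.baseChange K ^ n ≤ (V ^ n).baseChange K := by
  induction n with
  | zero =>
    rw [Submodule.pow_zero, Submodule.pow_zero]
    exact Submodule.one_le.2 (tmul_mem_baseChange_of_mem (1 : K) (Submodule.one_le.1 le_rfl))
  | succ n ih =>
    rw [Submodule.pow_succ, Submodule.pow_succ]
    refine (mul_le_mul_left ih _).trans ?_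
    rw [baseChange_eq_span, baseChange_eq_span, span_mul_span, span_le]
    rintro _ ⟨_, ⟨x, hx, rfl⟩, _, ⟨y, hy, rfl⟩, rfl⟩
    simpa using tmul_mem_baseChange_of_mem (1 : K) (mul_mem_mul hx hy)

theorem adj_bc {V : Submodule k H} (h : Algebra.adjoin k (V : Set H) = ⊤) :
    Algebra.adjoin K (V.baseChange K : Set (K ⊗[k] H)) = ⊤ := by
  have h1 : Algebra.adjoin k (V : Set H) ≤
      ((Algebra.adjoin K (V.baseChange K : Set (K ⊗[k] H))).restrictScalars k).comap
        (Algebra.TensorProduct.includeRight : H →ₐ[k] K ⊗[k] H) :=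
    Algebra.adjoin_le fun x hx => Algebra.subset_adjoin (tmul_mem_baseChange_of_mem 1 hx)
  refine eq_top_iff.2 fun t ht => ?_
  clear ht
  induction t with
  | zero => exact zero_mem _
  | add s t hs ht => exact add_mem hs ht
  | tmul a x =>
    simpa [smul_tmul'] using (Algebra.adjoin K (V.baseChange K : Set (K ⊗[k] H))).smul_mem
      (x := 1 ⊗ₜ x) (h1 (h ▸ Algebra.mem_top)) a

end BC

open BC in
/-- The theorem over a field follows from the theorem over an extension field. -/
theorem of_baseChange (k K H : Type) [Field k] [Field K] [Algebra k K] [Ring H] [HopfAlgebra k H]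
    (main : (∃ V : Submodule K (K ⊗[k] H), FiniteDimensional K V ∧ 1 ∈ V ∧
        Algebra.adjoin K (V : Set (K ⊗[k] H)) = ⊤ ∧ ∃ C d : ℕ, ∀ n : ℕ,
          Module.finrank K (V ^ n : Submodule K (K ⊗[k] H)) ≤ C * (n + 1) ^ d) →
      coradical K (K ⊗[k] H) = span K {g | IsGroupLikeElem K g} →
      (∀ g ∈ ⁅Subgroup.closure (skewSupp K (K ⊗[k] H)), Subgroup.closure (skewSupp K (K ⊗[k] H))⁆,
        IsOfFinOrder g → ∃ n : ℕ, g ^ ringExpChar K ^ n = 1) →
      IsNoetherianRing (K ⊗[k] H) ∧ IsNoetherianRing (K ⊗[k] H)ᵐᵒᵖ)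
    (hgk : ∃ V : Submodule k H, FiniteDimensional k V ∧ (1 : H) ∈ V ∧
      Algebra.adjoin k (V : Set H) = ⊤ ∧
      ∃ C d : ℕ, ∀ n : ℕ, Module.finrank k (V ^ n : Submodule k H) ≤ C * (n + 1) ^ d)
    (hpt : coradical k H = Submodule.span k {g : H | IsGroupLikeElem k g})
    (hyp : ∀ g ∈ ⁅Subgroup.closure (skewSupp k H), Subgroup.closure (skewSupp k H)⁆,
      IsOfFinOrder g → ∃ n : ℕ, g ^ ringExpChar k ^ n = 1) :
    IsNoetherianRing H ∧ IsNoetherianRing Hᵐᵒᵖ := by
  obtain ⟨l, hl⟩ := Module.Projective.exists_dual_eq_one k (one_ne_zero : (1 : K) ≠ 0)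
  have h1 : ∀ u : H, ct l ((1 : K) ⊗ₜ[k] u) = u := fun u => by rw [ct_tmul, hl, one_smul]
  obtain ⟨V, v1, v2, v3, C, d, v4⟩ := hgk
  have fin : ∀ W : Submodule k H, Module.Finite k W → Module.Finite K (W.baseChange K) :=
    fun W _ => Module.Finite.range _
  obtain ⟨n1, n2⟩ := main ⟨V.baseChange K, fin V v1, tmul_mem_baseChange_of_mem 1 v2, adj_bc v3,
    C, d, fun n => by
      have : Module.Finite k (V ^ n : Submodule k H) :=
        Module.Finite.iff_fg.2 ((Module.Finite.iff_fg.1 v1).pow n)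
      have := fin _ this
      exact (finrank_mono (pow_bc V n)).trans (((LinearMap.finrank_range_le _).trans_eq
        Module.finrank_baseChange).trans (v4 n))⟩ (pt_bc hpt) fun g hg ho => by
    have h2 : Subgroup.closure (skewSupp K (K ⊗[k] H)) ≤
        (Subgroup.closure (skewSupp k H)).map (γ K H) := by
      rw [MonoidHom.map_closure]; exact Subgroup.closure_mono (skew_down hpt)
    have h3 := Subgroup.commutator_mono h2 h2 hg
    rw [← Subgroup.map_commutator] at h3
    obtain ⟨g, hg', rfl⟩ := h3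
    have hi : Function.Injective (γ K H : GroupLike k H → _) := fun a b e => GroupLike.ext (by
      rw [← h1 a.1, ← h1 b.1]; exact congrArg (fun t => ct l t.1) e)
    obtain ⟨n, hn⟩ := hyp g hg' (hi.isOfFinOrder_iff.1 ho)
    have := expChar_of_injective_algebraMap (algebraMap k K).injective (ringExpChar k)
    exact ⟨n, by rw [ringExpChar.eq K (ringExpChar k), ← map_pow, hn, map_one]⟩
  let f : H →+* K ⊗[k] H := (Algebra.TensorProduct.includeRight : H →ₐ[k] K ⊗[k] H)
  refine ⟨noeth_down f (ct l).toAddMonoidHom h1 (fun c v => ?_) n1,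
    noeth_down f.op (AddMonoidHom.mulOp (ct l).toAddMonoidHom) (fun u => congrArg _ (h1 _))
      (fun c v => congrArg MulOpposite.op (?_ : ct l (f v.unop * c.unop) = v.unop * ct l c.unop)) n2⟩
  · induction c with
    | zero => simp
    | add s t hs ht => simp only [add_mul, map_add, hs, ht]
    | tmul a x => simp [f, ct_tmul]
  · induction c.unop with
    | zero => simp
    | add s t hs ht => simp only [mul_add, map_add, hs, ht]
    | tmul a x => simp [f, ct_tmul]

end Pool.Agent.Lib.MP_ff61db_al.Pt
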