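import Pool.Agent.Lib.MP_ff61db_al.Pt.Basic

/-! The braided coproduct of a pre-Nichols algebra. -/

namespace Pool.Agent.Lib.MP_ff61db_al.Pt

open TensorProduct

namespace PN
variable {k : Type} [Field k] {I : Type} [Fintype I] [DecidableEq I]
variable {q : I → I → kˣ} {R : Type} [Ring R] [Algebra k R] (P : PN k q R)

/-- The action of a degree: `a ↦ χ(μ, deg a) a`. -/
noncomputable def gl (μ : I → ℤ) : R →ₗ[k] R :=
  P.glueMap fun ν => ((chi q μ ν : kˣ) : k) • LinearMap.id

/-- The action of a degree on the other side: `a ↦ χ(deg a, μ) a`. -/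
noncomputable def gr (μ : I → ℤ) : R →ₗ[k] R :=
  P.glueMap fun ν => ((chi q ν μ : kˣ) : k) • LinearMap.id

theorem gl_of_mem (μ : I → ℤ) {ν : I → ℤ} {a : R} (h : a ∈ P.piece ν) :
    P.gl μ a = ((chi q μ ν : kˣ) : k) • a := P.glue_of_mem _ h

theorem gr_of_mem (μ : I → ℤ) {ν : I → ℤ} {a : R} (h : a ∈ P.piece ν) :
    P.gr μ a = ((chi q ν μ : kˣ) : k) • a := P.glue_of_mem _ h

theorem gl_zero (a : R) : P.gl 0 a = a :=
  P.ind_piece (p := fun a => P.gl 0 a = a) (fun _ _ h => by simp [P.gl_of_mem 0 h])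
    (fun a b h h' => by rw [map_add, h, h']) a

theorem eps_gl (μ : I → ℤ) (a : R) : P.eps (P.gl μ a) = P.eps a := by
  refine P.ind_piece (p := fun a => P.eps (P.gl μ a) = P.eps a) (fun ν a h => ?_)
    (fun a b h h' => by simp only [map_add, h, h']) a
  rw [P.gl_of_mem μ h]
  by_cases h0 : ν = 0
  · simp [h0]
  · simp [P.eps_piece h h0]

/-- Induction over tensors of homogeneous elements. -/
theorem ind_tmul {p : R ⊗[k] R → Prop}
    (hw : ∀ μ ν a b, a ∈ P.piece μ → b ∈ P.piece ν → p (a ⊗ₜ b))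
    (ha : ∀ s t, p s → p t → p (s + t)) (t : R ⊗[k] R) : p t := by
  induction t using TensorProduct.induction_on with
  | zero => simpa using hw 0 0 0 0 (zero_mem _) (zero_mem _)
  | add s t hs ht => exact ha s t hs ht
  | tmul a b =>
    refine P.ind_piece (p := fun a => p (a ⊗ₜ b)) (fun μ a h => ?_)
      (fun a a' h h' => by rw [add_tmul]; exact ha _ _ h h') a
    exact P.ind_piece (p := fun b => p (a ⊗ₜ b)) (fun ν b h' => hw μ ν a b h h')
      (fun b b' h h' => by rw [tmul_add]; exact ha _ _ h h') b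

/-- The braided product by a tensor whose second factor has degree `ν`. -/
noncomputable def bmAux (ν : I → ℤ) : R →ₗ[k] R →ₗ[k] R ⊗[k] R →ₗ[k] R ⊗[k] R :=
  LinearMap.mk₂ k
    (fun b a => TensorProduct.map (LinearMap.mulLeft k a ∘ₗ P.gl ν) (LinearMap.mulLeft k b))
    (fun _ _ _ => TensorProduct.ext' fun _ _ => by simp [add_mul, tmul_add])
    (fun _ _ _ => TensorProduct.ext' fun _ _ => by simp)
    (fun _ _ _ => TensorProduct.ext' fun _ _ => by simp [add_mul, add_tmul])
    (fun _ _ _ => TensorProduct.ext' fun _ _ => by simp [smul_tmul'])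

/-- The braided product on the tensor square. -/
noncomputable def bm : R ⊗[k] R →ₗ[k] R ⊗[k] R →ₗ[k] R ⊗[k] R :=
  TensorProduct.lift (LinearMap.flip
    (P.glueMap (M := R →ₗ[k] R ⊗[k] R →ₗ[k] R ⊗[k] R) P.bmAux))

theorem bm_tmul' (a : R) {b : R} {ν : I → ℤ} (hb : b ∈ P.piece ν) (c d : R) :
    P.bm (a ⊗ₜ b) (c ⊗ₜ d) = (a * P.gl ν c) ⊗ₜ (b * d) := by
  simp [bm, bmAux, P.glue_of_mem _ hb]

theorem bm_tmul (a : R) {b c : R} (d : R) {ν μ : I → ℤ} (hb : b ∈ P.piece ν)
    (hc : c ∈ P.piece μ) :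
    P.bm (a ⊗ₜ b) (c ⊗ₜ d) = ((chi q ν μ : kˣ) : k) • ((a * c) ⊗ₜ (b * d)) := by
  rw [P.bm_tmul' a hb, P.gl_of_mem ν hc, mul_smul_comm, smul_tmul']

theorem bm_one_left (t : R ⊗[k] R) : P.bm (1 ⊗ₜ 1) t = t := by
  induction t using TensorProduct.induction_on with
  | zero => simp
  | add s t hs ht => rw [map_add, hs, ht]
  | tmul a b => simp [P.bm_tmul' 1 P.one_mem, P.gl_zero]

theorem bm_one_right (t : R ⊗[k] R) : P.bm t (1 ⊗ₜ 1) = t :=
  P.ind_tmul (p := fun t => P.bm t (1 ⊗ₜ 1) = t)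
    (fun _ _ a b _ hb => by simp [P.bm_tmul a 1 hb P.one_mem])
    (fun s t hs ht => by rw [map_add, LinearMap.add_apply, hs, ht]) t

theorem bm_assoc (r s t : R ⊗[k] R) : P.bm (P.bm r s) t = P.bm r (P.bm s t) := by
  induction r using P.ind_tmul with
  | ha _ _ h h' => simp only [map_add, LinearMap.add_apply, h, h']
  | hw _ _ a b _ hb =>
  induction s using P.ind_tmul with
  | ha _ _ h h' => simp only [map_add, LinearMap.add_apply, h, h']
  | hw _ _ c d hc hd =>
  induction t using P.ind_tmul with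
  | ha _ _ h h' => simp only [map_add, h, h']
  | hw _ _ f g hf _ =>
  rw [P.bm_tmul a d hb hc, P.bm_tmul c g hd hf, map_smul, map_smul, LinearMap.smul_apply,
    P.bm_tmul _ g (P.piece_mul hb hd) hf, P.bm_tmul a _ hb (P.piece_mul hc hf), smul_smul,
    smul_smul, chi_add_left, chi_add_right, mul_assoc, mul_assoc]
  congr 1
  push_cast
  ring

theorem copw_cons {A : Type} [Fintype A] [DecidableEq A] (Q : A → A → kˣ) (y : A → R)
    {μ : I → ℤ} {a : A} (ha : y a ∈ P.piece μ) (g : List A → I → ℤ)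
    (hg : ∀ l, wd y l ∈ P.piece (g l)) (hQ : ∀ l, chi Q (e a) (deg l) = chi q μ (g l))
    (l : List A) : copw Q y (a :: l) = P.bm (y a ⊗ₜ 1 + 1 ⊗ₜ y a) (copw Q y l) := by
  simp only [copw, sh, List.map_append, List.sum_append, List.map_map, map_list_sum]
  rw [← List.sum_map_add]
  congr 2
  funext p
  simp [P.bm_tmul _ _ P.one_mem (hg _), P.bm_tmul _ _ ha (hg _), hQ, smul_smul, mul_comm]

theorem D_one : P.D 1 = 1 ⊗ₜ 1 := by simpa [copw, sh] using P.D_wd []

theorem D_x (i : I) : P.D (P.x i) = P.x i ⊗ₜ 1 + 1 ⊗ₜ P.x i := by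
  simpa [copw, sh] using P.D_wd [i]

theorem D_x_mul (i : I) (b : R) :
    P.D (P.x i * b) = P.bm (P.x i ⊗ₜ 1 + 1 ⊗ₜ P.x i) (P.D b) := by
  generalize ht : P.x i ⊗ₜ[k] 1 + 1 ⊗ₜ[k] P.x i = t
  refine LinearMap.congr_fun (P.hom_ext (f := P.D ∘ₗ LinearMap.mulLeft k (P.x i))
    (g := P.bm t ∘ₗ P.D) fun l => ?_) b
  simp only [LinearMap.comp_apply, LinearMap.mulLeft_apply, ← wd_cons, P.D_wd, ← ht]
  exact P.copw_cons q P.x (P.x_mem i) deg P.wd_mem (fun _ => rfl) l

theorem D_mul (a b : R) : P.D (a * b) = P.bm (P.D a) (P.D b) := by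
  refine LinearMap.congr_fun (P.hom_ext (f := P.D ∘ₗ LinearMap.mulRight k b)
    (g := P.bm.flip (P.D b) ∘ₗ P.D) fun l => ?_) a
  simp only [LinearMap.comp_apply, LinearMap.mulRight_apply, LinearMap.flip_apply]
  induction l with
  | nil => rw [wd_nil, one_mul, P.D_one, P.bm_one_left]
  | cons i l ih => rw [wd_cons, mul_assoc, P.D_x_mul, P.D_x_mul, ih, P.bm_assoc]

theorem exists_bm : ∃ bm : R ⊗[k] R →ₗ[k] R ⊗[k] R →ₗ[k] R ⊗[k] R,
    (∀ (a b c d : R) (ν μ : I → ℤ), b ∈ P.piece ν → c ∈ P.piece μ →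
      bm (a ⊗ₜ b) (c ⊗ₜ d) = ((chi q ν μ : kˣ) : k) • ((a * c) ⊗ₜ (b * d))) ∧
    ∀ a b, P.D (a * b) = bm (P.D a) (P.D b) :=
  ⟨P.bm, fun a _ _ d _ _ hb hc => P.bm_tmul a d hb hc, P.D_mul⟩

theorem D_mem {μ : I → ℤ} {a : R} (h : a ∈ P.piece μ) :
    P.D a ∈ Submodule.span k
      {t : R ⊗[k] R | ∃ ν b c, b ∈ P.piece ν ∧ c ∈ P.piece (μ - ν) ∧ t = b ⊗ₜ c} := by
  refine P.map_mem (fun l hl => ?_) h
  rw [P.D_wd]
  refine list_sum_mem fun t ht => ?_
  obtain ⟨p, hp, rfl⟩ := List.mem_map.1 ht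
  exact Submodule.smul_mem _ _ (Submodule.subset_span ⟨_, _, _, P.wd_mem _,
    P.wd_mem' (by rw [← hl, ← sh_deg q hp, add_sub_cancel_left]), rfl⟩)

/-- A linear map on the tensor square is controlled on `D a` by its homogeneous values. -/
theorem map_D_mem {M : Type} [AddCommGroup M] [Module k M] {μ : I → ℤ} (f : R ⊗[k] R →ₗ[k] M)
    {N : Submodule k M}
    (hf : ∀ ν b c, b ∈ P.piece ν → c ∈ P.piece (μ - ν) → f (b ⊗ₜ c) ∈ N) {a : R}
    (h : a ∈ P.piece μ) : f (P.D a) ∈ N := by
  refine (Submodule.span_le.2 ?_ : _ ≤ N.comap f) (P.D_mem h)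
  rintro _ ⟨ν, b, c, hb, hc, rfl⟩
  exact hf ν b c hb hc

theorem D_gl (μ : I → ℤ) (a : R) :
    P.D (P.gl μ a) = TensorProduct.map (P.gl μ) (P.gl μ) (P.D a) := by
  refine P.ind_piece (p := fun a => P.D (P.gl μ a) = TensorProduct.map (P.gl μ) (P.gl μ) (P.D a))
    (fun ν a h => ?_) (fun a b h h' => by simp only [map_add, h, h']) a
  rw [P.gl_of_mem μ h, map_smul, ← sub_eq_zero]
  refine P.map_D_mem (((chi q μ ν : kˣ) : k) • LinearMap.id - TensorProduct.map (P.gl μ) (P.gl μ))
    (N := ⊥) (fun τ b c hb hc => ?_) h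
  have : chi q μ ν = chi q μ (ν - τ) * chi q μ τ := by rw [← chi_add_right, sub_add_cancel]
  simp [P.gl_of_mem μ hb, P.gl_of_mem μ hc, ← smul_tmul', smul_smul, this]

/-- Left multiplication by the coproduct of a letter. -/
noncomputable def T (i : I) : R ⊗[k] R →ₗ[k] R ⊗[k] R :=
  (LinearMap.mulLeft k (P.x i)).rTensor R +
    TensorProduct.map (P.gl (e i)) (LinearMap.mulLeft k (P.x i))

theorem D_cons (i : I) (b : R) : P.D (P.x i * b) = P.T i (P.D b) := by
  rw [P.D_x_mul]
  refine LinearMap.congr_fun (f := P.bm _) (g := P.T i) (TensorProduct.ext' fun c d => ?_) _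
  simp [T, P.bm_tmul' _ P.one_mem, P.bm_tmul' _ (P.x_mem i), P.gl_zero]

theorem coassoc (a : R) :
    TensorProduct.assoc k R R R (P.D.rTensor R (P.D a)) = P.D.lTensor R (P.D a) := by
  refine LinearMap.congr_fun (P.hom_ext
    (f := (TensorProduct.assoc k R R R).toLinearMap ∘ₗ P.D.rTensor R ∘ₗ P.D)
    (g := P.D.lTensor R ∘ₗ P.D) fun l => ?_) a
  simp only [LinearMap.comp_apply, LinearEquiv.coe_coe]
  induction l with
  | nil => simp [P.D_one]
  | cons i l ih =>
    let T3 : R ⊗[k] (R ⊗[k] R) →ₗ[k] R ⊗[k] (R ⊗[k] R) :=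
      (LinearMap.mulLeft k (P.x i)).rTensor _ + TensorProduct.map (P.gl (e i)) (P.T i)
    have h1 : P.D.lTensor R ∘ₗ P.T i = T3 ∘ₗ P.D.lTensor R :=
      TensorProduct.ext' fun c d => by simp [T3, T, P.D_cons i d]
    have h2 : ∀ s d, TensorProduct.assoc k R R R (P.T i s ⊗ₜ d +
        TensorProduct.map (P.gl (e i)) (P.gl (e i)) s ⊗ₜ (P.x i * d)) =
        T3 (TensorProduct.assoc k R R R (s ⊗ₜ d)) := fun s d => by
      induction s using TensorProduct.induction_on with
      | zero => simp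
      | add s t hs ht =>
        simp only [map_add, add_tmul] at hs ht ⊢
        rw [← hs, ← ht]; abel
      | tmul u v => simp [T3, T, add_tmul, tmul_add, add_assoc]
    have h3 : (TensorProduct.assoc k R R R).toLinearMap ∘ₗ P.D.rTensor R ∘ₗ P.T i =
        T3 ∘ₗ (TensorProduct.assoc k R R R).toLinearMap ∘ₗ P.D.rTensor R :=
      TensorProduct.ext' fun c d => by
        simpa [T, P.D_cons, P.D_gl] using h2 (P.D c) d
    rw [wd_cons, P.D_cons]
    exact (LinearMap.congr_fun h3 _).trans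
      ((congrArg T3 ih).trans (LinearMap.congr_fun h1 _).symm)

theorem counit_left (a : R) : TensorProduct.lid k R (P.eps.rTensor R (P.D a)) = a := by
  refine LinearMap.congr_fun (P.hom_ext
    (f := (TensorProduct.lid k R).toLinearMap ∘ₗ P.eps.rTensor R ∘ₗ P.D)
    (g := LinearMap.id) fun l => ?_) a
  induction l with
  | nil => simp [P.D_one, P.eps_one]
  | cons i l ih =>
    have h : (TensorProduct.lid k R).toLinearMap ∘ₗ P.eps.rTensor R ∘ₗ P.T i =
        LinearMap.mulLeft k (P.x i) ∘ₗ (TensorProduct.lid k R).toLinearMap ∘ₗ P.eps.rTensor R :=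
      TensorProduct.ext' fun c d => by simp [T, P.eps_mul, P.eps_x, P.eps_gl]
    simp only [LinearMap.comp_apply, wd_cons, P.D_cons]
    exact (LinearMap.congr_fun h _).trans (congrArg (P.x i * ·) ih)

theorem counit_right (a : R) : TensorProduct.rid k R (P.eps.lTensor R (P.D a)) = a := by
  refine LinearMap.congr_fun (P.hom_ext
    (f := (TensorProduct.rid k R).toLinearMap ∘ₗ P.eps.lTensor R ∘ₗ P.D)
    (g := LinearMap.id) fun l => ?_) a
  induction l with
  | nil => simp [P.D_one, P.eps_one]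
  | cons i l ih =>
    have h : (TensorProduct.rid k R).toLinearMap ∘ₗ P.eps.lTensor R ∘ₗ P.T i =
        LinearMap.mulLeft k (P.x i) ∘ₗ (TensorProduct.rid k R).toLinearMap ∘ₗ P.eps.lTensor R :=
      TensorProduct.ext' fun c d => by simp [T, P.eps_mul, P.eps_x]
    simp only [LinearMap.comp_apply, wd_cons, P.D_cons]
    exact (LinearMap.congr_fun h _).trans (congrArg (P.x i * ·) ih)

/-- The reduced coproduct has both factors of nonzero degree. -/
theorem D_red {μ : I → ℤ} {a : R} (h : a ∈ P.piece μ) (hμ : μ ≠ 0) :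
    P.D a - a ⊗ₜ 1 - 1 ⊗ₜ a ∈ Submodule.span k {t : R ⊗[k] R |
      ∃ ν b c, ν ≠ 0 ∧ ν ≠ μ ∧ b ∈ P.piece ν ∧ c ∈ P.piece (μ - ν) ∧ t = b ⊗ₜ c} := by
  have := P.map_D_mem (LinearMap.id -
      (TensorProduct.mk k R R).flip 1 ∘ₗ (TensorProduct.rid k R).toLinearMap ∘ₗ P.eps.lTensor R -
      TensorProduct.mk k R R 1 ∘ₗ (TensorProduct.lid k R).toLinearMap ∘ₗ P.eps.rTensor R)
    (N := Submodule.span k {t : R ⊗[k] R |
      ∃ ν b c, ν ≠ 0 ∧ ν ≠ μ ∧ b ∈ P.piece ν ∧ c ∈ P.piece (μ - ν) ∧ t = b ⊗ₜ c})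
    (fun ν b c hb hc => ?_) h
  · simpa [P.counit_left, P.counit_right] using this
  by_cases h0 : ν = 0
  · subst h0
    rw [P.eq_of_mem_zero hb]
    simp [P.eps_piece hc (by simpa using hμ), P.eps_one, ← smul_tmul']
  by_cases h1 : ν = μ
  · subst h1
    rw [sub_self] at hc
    rw [P.eq_of_mem_zero hc]
    simp [P.eps_piece hb hμ, P.eps_one]
  refine Submodule.subset_span ⟨ν, b, c, h0, h1, hb, hc, ?_⟩
  simp [P.eps_piece hb h0, P.eps_piece hc (sub_ne_zero.2 (Ne.symm h1))]

theorem wd_mem_push {A : Type} [Fintype A] [DecidableEq A] {y : A → R} {dg : A → I → ℤ}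
    (hy : ∀ a, y a ∈ P.piece (dg a)) (l : List A) : wd y l ∈ P.piece (push dg (deg l)) := by
  induction l with
  | nil => simpa using P.one_mem
  | cons a l ih => simpa using P.piece_mul (hy a) ih

/-- Words in homogeneous primitive elements. -/
theorem D_wd_prim {A : Type} [Fintype A] [DecidableEq A] (y : A → R) (dg : A → I → ℤ)
    (hy : ∀ a, y a ∈ P.piece (dg a)) (hp : ∀ a, P.D (y a) = y a ⊗ₜ 1 + 1 ⊗ₜ y a) (l : List A) :
    P.D (wd y l) = copw (fun a b => chi q (dg a) (dg b)) y l := by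
  induction l with
  | nil => simp [P.D_one, copw, sh]
  | cons a l ih =>
    rw [wd_cons, P.D_mul, hp, ih, P.copw_cons _ y (hy a) _ (P.wd_mem_push hy)
      fun l => by rw [chi_push, push_e]]

theorem co_wd {i : I} (h : P.x i ≠ 0) (l : List I) :
    P.co i (wd P.x l) = if l = [i] then 1 else 0 := by
  have : ∃ f : R →ₗ[k] k, ∀ l, f (wd P.x l) = if l = [i] then 1 else 0 := by
    obtain ⟨φ, hφ⟩ := Module.Projective.exists_dual_eq_one k h
    refine ⟨φ ∘ₗ P.pr (e i), fun l => ?_⟩
    simp only [LinearMap.comp_apply, P.pr_wd, deg_eq_e]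
    split_ifs with hl <;> simp [hl, hφ]
  rw [co, dif_pos this]
  exact this.choose_spec l

theorem co_of_zero {i : I} (h : P.x i = 0) : P.co i = 0 :=
  dif_neg fun ⟨f, hf⟩ => by simpa [h] using hf [i]

theorem co_piece {i : I} {μ : I → ℤ} {a : R} (h : a ∈ P.piece μ) (hne : μ ≠ e i) :
    P.co i a = 0 := by
  by_cases h0 : P.x i = 0
  · simp [P.co_of_zero h0]
  · exact P.eq_on_piece (g := 0) (fun l hl => by
      rw [P.co_wd h0, if_neg fun h' => hne (by rw [← hl, deg_eq_e.2 h'])]; rfl) h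

theorem co_one (i : I) : P.co i 1 = 0 := P.co_piece P.one_mem (B1.e_ne_zero i).symm

theorem co_x (h : P.Alive) (i j : I) : P.co i (P.x j) = if j = i then 1 else 0 := by
  simpa using P.co_wd (h i) [j]

theorem co_mul (i : I) (a b : R) :
    P.co i (a * b) = P.co i a * P.eps b + P.eps a * P.co i b := by
  by_cases h0 : P.x i = 0
  · simp [P.co_of_zero h0]
  have := P.hom_ext₂ (f := (LinearMap.mul k R).compr₂ (P.co i))
    (g := (LinearMap.mul k k).compl₁₂ (P.co i) P.eps + (LinearMap.mul k k).compl₁₂ P.eps (P.co i))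
    fun l l' => by
      simp only [LinearMap.compr₂_apply, LinearMap.mul_apply', LinearMap.compl₁₂_apply,
        LinearMap.add_apply, ← wd_append, P.eps_wd, P.co_wd h0]
      rcases l with _ | ⟨j, l⟩
      · simp
      · by_cases h : l' = [] <;> simp [h]
  exact LinearMap.congr_fun (LinearMap.congr_fun this a) b

theorem del_apply (i : I) (a : R) :
    P.del i a = TensorProduct.rid k R ((P.co i).lTensor R (P.D a)) := rfl

theorem dl_apply (i : I) (a : R) :
    P.dl i a = TensorProduct.lid k R ((P.co i).rTensor R (P.D a)) := rfl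

theorem del_mem (i : I) {μ : I → ℤ} {a : R} (h : a ∈ P.piece μ) :
    P.del i a ∈ P.piece (μ - e i) := by
  refine P.map_D_mem ((TensorProduct.rid k R).toLinearMap ∘ₗ (P.co i).lTensor R)
    (fun ν b c hb hc => ?_) h
  by_cases h' : μ - ν = e i
  · simpa [← h'] using Submodule.smul_mem _ _ hb
  · simp [P.co_piece hc h']

theorem dl_mem (i : I) {μ : I → ℤ} {a : R} (h : a ∈ P.piece μ) :
    P.dl i a ∈ P.piece (μ - e i) := by
  refine P.map_D_mem ((TensorProduct.lid k R).toLinearMap ∘ₗ (P.co i).rTensor R)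
    (fun ν b c hb hc => ?_) h
  by_cases h' : ν = e i
  · simpa [← h'] using Submodule.smul_mem _ _ hc
  · simp [P.co_piece hb h']

theorem del_pr (i : I) (μ : I → ℤ) (a : R) :
    P.del i (P.pr μ a) = P.pr (μ - e i) (P.del i a) := by
  rw [sub_eq_add_neg, P.pr_shift fun l => by
    simpa only [sub_eq_add_neg] using P.del_mem i (P.wd_mem l)]

theorem dl_pr (i : I) (μ : I → ℤ) (a : R) :
    P.dl i (P.pr μ a) = P.pr (μ - e i) (P.dl i a) := by
  rw [sub_eq_add_neg, P.pr_shift fun l => by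
    simpa only [sub_eq_add_neg] using P.dl_mem i (P.wd_mem l)]

theorem del_one (i : I) : P.del i 1 = 0 := by simp [del_apply, P.D_one, P.co_one]

theorem dl_one (i : I) : P.dl i 1 = 0 := by simp [dl_apply, P.D_one, P.co_one]

theorem del_x (h : P.Alive) (i j : I) : P.del i (P.x j) = if j = i then 1 else 0 := by
  simp [del_apply, P.D_x, P.co_one, P.co_x h]

theorem dl_x (h : P.Alive) (i j : I) : P.dl i (P.x j) = if j = i then 1 else 0 := by
  simp [dl_apply, P.D_x, P.co_one, P.co_x h]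

theorem del_mul' (i : I) (a b : R) :
    P.del i (a * b) = a * P.del i b + P.del i a * P.gl (e i) b := by
  have key : ∀ s t, TensorProduct.rid k R ((P.co i).lTensor R (P.bm s t)) =
      TensorProduct.rid k R (P.eps.lTensor R s) * TensorProduct.rid k R ((P.co i).lTensor R t) +
      TensorProduct.rid k R ((P.co i).lTensor R s) *
        P.gl (e i) (TensorProduct.rid k R (P.eps.lTensor R t)) := fun s t => by
    induction s using P.ind_tmul with
    | ha _ _ h h' => simp only [map_add, LinearMap.add_apply, h, h', add_mul]; abel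
    | hw _ ν a b _ hb =>
    induction t using TensorProduct.induction_on with
    | zero => simp
    | add _ _ h h' => simp only [map_add, h, h', mul_add]; abel
    | tmul c d =>
    simp only [P.bm_tmul' a hb, LinearMap.lTensor_tmul, rid_tmul, P.co_mul, add_smul, map_smul,
      smul_mul_smul_comm]
    rw [add_comm]
    congr 1
    · by_cases h : ν = 0
      · rw [h, P.gl_zero]
      · simp [P.eps_piece hb h]
    · by_cases h : ν = e i
      · rw [h]
      · simp [P.co_piece hb h]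
  rw [del_apply, P.D_mul, key, P.counit_right, P.counit_right, del_apply, del_apply]

theorem dl_mul' (i : I) (a b : R) :
    P.dl i (a * b) = P.dl i a * b + P.gr (e i) a * P.dl i b := by
  have key : ∀ s t, TensorProduct.lid k R ((P.co i).rTensor R (P.bm s t)) =
      TensorProduct.lid k R ((P.co i).rTensor R s) * TensorProduct.lid k R (P.eps.rTensor R t) +
      P.gr (e i) (TensorProduct.lid k R (P.eps.rTensor R s)) *
        TensorProduct.lid k R ((P.co i).rTensor R t) := fun s t => by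
    induction s using P.ind_tmul with
    | ha _ _ h h' => simp only [map_add, LinearMap.add_apply, h, h', add_mul]; abel
    | hw _ ν a b _ hb =>
    induction t using P.ind_tmul with
    | ha _ _ h h' => simp only [map_add, h, h', mul_add]; abel
    | hw μ _ c d hc _ =>
    simp only [P.bm_tmul a d hb hc, LinearMap.rTensor_tmul, lid_tmul, P.co_mul, add_smul, map_smul,
      P.gr_of_mem _ hb, smul_add, smul_mul_assoc, mul_smul_comm, smul_smul]
    congr 2
    · by_cases h : μ = 0
      · simp [h, mul_comm]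
      · simp [P.eps_piece hc h]
    · by_cases h : μ = e i
      · rw [h]; ring
      · simp [P.co_piece hc h]
  rw [dl_apply, P.D_mul, key, P.counit_left, P.counit_left, dl_apply, dl_apply]

theorem del_mul (h : P.Alive) (i : I) (a : R) {b : R} {ν : I → ℤ} (hb : b ∈ P.piece ν) :
    P.del i (a * b) = a * P.del i b + ((chi q (e i) ν : kˣ) : k) • (P.del i a * b) := by
  have _ := h
  rw [P.del_mul', P.gl_of_mem _ hb, mul_smul_comm]

theorem dl_mul (h : P.Alive) (i : I) {a : R} {μ : I → ℤ} (ha : a ∈ P.piece μ) (b : R) :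
    P.dl i (a * b) = P.dl i a * b + ((chi q μ (e i) : kˣ) : k) • (a * P.dl i b) := by
  have _ := h
  rw [P.dl_mul', P.gr_of_mem _ ha, smul_mul_assoc]

theorem eps_del (i : I) (a : R) : P.eps (P.del i a) = P.co i a := by
  conv_rhs => rw [← P.counit_left a]
  rw [del_apply]
  induction P.D a using TensorProduct.induction_on with
  | zero => simp
  | add _ _ h h' => simp only [map_add, h, h']
  | tmul b c => simp [mul_comm]

theorem eps_dl (i : I) (a : R) : P.eps (P.dl i a) = P.co i a := by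
  conv_rhs => rw [← P.counit_right a]
  rw [dl_apply]
  induction P.D a using TensorProduct.induction_on with
  | zero => simp
  | add _ _ h h' => simp only [map_add, h, h']
  | tmul b c => simp [mul_comm]

theorem D_del (i : I) (a : R) : P.D (P.del i a) = (P.del i).lTensor R (P.D a) := by
  let f := (TensorProduct.rid k R).toLinearMap ∘ₗ (P.co i).lTensor R
  have h1 : ∀ s c, f.lTensor R (TensorProduct.assoc k R R R (s ⊗ₜ c)) = P.co i c • s :=
    fun s c => by
    induction s using TensorProduct.induction_on with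
    | zero => simp
    | add _ _ h h' => simp only [add_tmul, map_add, h, h', smul_add]
    | tmul u v => simp [f]
  have h2 : P.D ∘ₗ f = f.lTensor R ∘ₗ (TensorProduct.assoc k R R R).toLinearMap ∘ₗ P.D.rTensor R :=
    TensorProduct.ext' fun b c => by
      simp only [LinearMap.comp_apply, LinearMap.rTensor_tmul, LinearEquiv.coe_coe, h1]; simp [f]
  refine (LinearMap.congr_fun h2 (P.D a)).trans ?_
  simp only [LinearMap.comp_apply, LinearEquiv.coe_coe, P.coassoc]
  rw [← LinearMap.lTensor_comp_apply]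
  rfl

theorem D_dl (i : I) (a : R) : P.D (P.dl i a) = (P.dl i).rTensor R (P.D a) := by
  let f := (TensorProduct.lid k R).toLinearMap ∘ₗ (P.co i).rTensor R
  let g := (TensorProduct.lid k (R ⊗[k] R)).toLinearMap ∘ₗ (P.co i).rTensor (R ⊗[k] R)
  have h1 : f.rTensor R = g ∘ₗ (TensorProduct.assoc k R R R).toLinearMap :=
    TensorProduct.ext_threefold fun u v c => by simp [f, g, smul_tmul']
  have h2 : P.D ∘ₗ f = g ∘ₗ P.D.lTensor R := TensorProduct.ext' fun b c => by simp [f, g]
  refine (LinearMap.congr_fun h2 (P.D a)).trans ?_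
  rw [LinearMap.comp_apply, ← P.coassoc]
  refine (LinearMap.congr_fun h1 _).symm.trans ?_
  rw [← LinearMap.rTensor_comp_apply]
  rfl

theorem del_D_dl (i : I) (a : R) :
    (P.del i).rTensor R (P.D a) = (P.dl i).lTensor R (P.D a) := by
  let f := (TensorProduct.rid k R).toLinearMap ∘ₗ (P.co i).lTensor R
  let g := (TensorProduct.lid k R).toLinearMap ∘ₗ (P.co i).rTensor R
  have h1 : f.rTensor R = g.lTensor R ∘ₗ (TensorProduct.assoc k R R R).toLinearMap :=
    TensorProduct.ext_threefold fun u v c => by simp [f, g, smul_tmul']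
  change (f ∘ₗ P.D).rTensor R _ = (g ∘ₗ P.D).lTensor R _
  rw [LinearMap.rTensor_comp_apply, LinearMap.lTensor_comp_apply, ← P.coassoc, h1]
  rfl

theorem del_dl (i j : I) (a : R) : P.del i (P.dl j a) = P.dl j (P.del i a) := by
  rw [del_apply, P.D_dl, del_apply]
  induction P.D a using TensorProduct.induction_on with
  | zero => simp
  | add _ _ h h' => simp only [map_add, h, h']
  | tmul b c => simp

theorem D_reverse (l : List I) : P.D (wd P.x l.reverse) = ((sh (fun i j => q j i) l).map fun p =>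
    (p.1 : k) • (wd P.x p.2.2.reverse ⊗ₜ[k] wd P.x p.2.1.reverse)).sum := by
  induction l with
  | nil => simp [sh, P.D_one]
  | cons i l ih =>
    rw [List.reverse_cons, wd_append, P.D_mul, ih, wd_cons, wd_nil, mul_one, P.D_x,
      ← LinearMap.flip_apply P.bm]
    simp only [sh, List.map_append, List.sum_append, List.map_map, map_list_sum]
    rw [← List.sum_map_add]
    congr 2
    funext p
    simp [P.bm_tmul _ _ (P.wd_mem _) P.one_mem, P.bm_tmul _ _ (P.wd_mem _) (P.x_mem i),
      wd_append, B1.chi_tr q, B1.deg_reverse, smul_smul, mul_comm, add_comm]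

theorem exists_op : ∃ P' : PN k (fun i j => q j i) Rᵐᵒᵖ,
    (∀ i, P'.x i = MulOpposite.op (P.x i)) ∧ P'.hil = P.hil := by
  let E := MulOpposite.opLinearEquiv (M := R) k
  have hw : ∀ l, wd (fun i => MulOpposite.op (P.x i)) l = E (wd P.x l.reverse) := fun l => by
    induction l with
    | nil => rfl
    | cons i l ih => simp [ih, wd_append, E]
  have hs : ∀ S : Set (List I), (∀ l, l ∈ S → l.reverse ∈ S) →
      wsp k (fun i => MulOpposite.op (P.x i)) S = (wsp k P.x S).map E.toLinearMap := fun S hS => by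
    rw [wsp, wsp, Submodule.map_span, Set.image_image]
    congr 1
    ext a
    exact ⟨fun ⟨l, hl, h⟩ => ⟨l.reverse, hS l hl, by rw [← h, hw]; rfl⟩,
      fun ⟨l, hl, h⟩ => ⟨l.reverse, hS l hl, by rw [← h, hw, List.reverse_reverse]; rfl⟩⟩
  refine ⟨⟨fun i => MulOpposite.op (P.x i), ?_, fun μ => E.toLinearMap ∘ₗ P.pr μ ∘ₗ E.symm,
    fun μ l => ?_, P.eps ∘ₗ E.symm, fun l => ?_,
    TensorProduct.map E.toLinearMap E.toLinearMap ∘ₗ (TensorProduct.comm k R R).toLinearMap ∘ₗ
      P.D ∘ₗ E.symm, fun l => ?_⟩, fun _ => rfl, funext fun μ => ?_⟩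
  · rw [hs _ fun _ h => h, P.span, Submodule.map_top, LinearEquiv.range]
  · simp only [hw, LinearMap.comp_apply, LinearEquiv.coe_coe, LinearEquiv.symm_apply_apply,
      P.pr_wd, B1.deg_reverse]
    split_ifs <;> simp
  · simp [hw, P.eps_wd]
  · simp only [hw, LinearMap.comp_apply, LinearEquiv.coe_coe, LinearEquiv.symm_apply_apply,
      P.D_reverse, copw, map_list_sum, List.map_map]
    congr 2
    funext p
    simp
  · exact (congrArg (fun K : Submodule k Rᵐᵒᵖ => Module.finrank k K) (hs {l | deg l = μ}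
      fun l hl => (B1.deg_reverse l).trans hl)).trans (LinearEquiv.finrank_map_eq E _)

end PN

end Pool.Agent.Lib.MP_ff61db_al.Pt
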