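import Pool.Agent.Lib.MP_ff61db_al.Pt.C2

/-! Constructions of algebras and of pre-Nichols algebras from relations. -/

namespace Pool.Agent.Lib.MP_ff61db_al.Pt

open TensorProduct

variable {k : Type} [Field k] {I : Type} [Fintype I] [DecidableEq I]

theorem exists_ring_of_rel {A : Type} (W : Submodule k (List A →₀ k))
    (hl : ∀ a, ∀ c ∈ W, Finsupp.mapDomain (fun l => a :: l) c ∈ W)
    (hr : ∀ a, ∀ c ∈ W, Finsupp.mapDomain (fun l => l ++ [a]) c ∈ W) :
    ∃ (S : Type) (_ : Ring S) (_ : Algebra k S) (z : A → S),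
      wsp k z Set.univ = ⊤ ∧ LinearMap.ker (lc k z) = W := by
  have hL : ∀ (u : List A) (c : List A →₀ k), c ∈ W → c.mapDomain (u ++ ·) ∈ W := by
    intro u
    induction u with
    | nil =>
      intro c hc
      have : (fun l : List A => [] ++ l) = id := rfl
      rwa [this, Finsupp.mapDomain_id]
    | cons a u ih =>
      intro c hc
      have := hl a _ (ih c hc)
      rwa [← Finsupp.mapDomain_comp] at this
  have hR : ∀ (u : List A) (c : List A →₀ k), c ∈ W → c.mapDomain (· ++ u) ∈ W := by
    intro u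
    induction u with
    | nil =>
      intro c hc
      have : (fun l : List A => l ++ []) = id := funext fun l => List.append_nil l
      rwa [this, Finsupp.mapDomain_id]
    | cons a u ih =>
      intro c hc
      have := ih _ (hr a c hc)
      rw [← Finsupp.mapDomain_comp] at this
      have e : (fun l : List A => l ++ a :: u) = (fun l => l ++ u) ∘ fun l => l ++ [a] := by
        funext l; simp
      rwa [e]
  obtain ⟨S, _, _, z, hz, h⟩ := C0.exists_ring W hL hR
  refine ⟨S, inferInstance, inferInstance, z, ?_, ?_⟩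
  · rw [wsp, Set.image_univ]; exact hz
  · ext c; exact h c

theorem exists_lift {A S M : Type} [Ring S] [Algebra k S] [AddCommGroup M] [Module k M]
    (z : A → S) (f : List A → M)
    (h : ∀ c, lc k z c = 0 → Finsupp.linearCombination k f c = 0) :
    ∃ g : S →ₗ[k] M, ∀ l, g (wd z l) = f l := by
  have hm : ∀ l, wd z l ∈ LinearMap.range (lc k z) := fun l =>
    ⟨Finsupp.single l 1, by rw [C1.lc_single, one_smul]⟩
  have he : ∀ c, Finsupp.linearCombination k
      (fun l => (⟨wd z l, hm l⟩ : LinearMap.range (lc k z))) c = ⟨lc k z c, c, rfl⟩ := by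
    intro c
    apply Subtype.ext
    have := Finsupp.apply_linearCombination k (LinearMap.range (lc k z)).subtype
      (fun l => (⟨wd z l, hm l⟩ : LinearMap.range (lc k z))) c
    exact this
  obtain ⟨g, hg⟩ := C0.exists_lin (k := k)
    (fun l => (⟨wd z l, hm l⟩ : LinearMap.range (lc k z))) f (by
      rw [← Finsupp.range_linearCombination, LinearMap.range_eq_top]
      rintro ⟨_, c, rfl⟩
      exact ⟨c, he c⟩) (fun c hc => h c (by
      rw [he] at hc
      exact congrArg Subtype.val hc))
  obtain ⟨g', hg'⟩ := LinearMap.exists_extend g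
  refine ⟨g', fun l => ?_⟩
  rw [← hg l, ← hg']; rfl

theorem exists_algHom {A S S' : Type} [Ring S] [Algebra k S] [Ring S'] [Algebra k S']
    (z : A → S) (hz : wsp k z Set.univ = ⊤) (z' : A → S')
    (h : ∀ c, lc k z c = 0 → lc k z' c = 0) : ∃ g : S →ₐ[k] S', ∀ a, g (z a) = z' a :=
  C0.exists_alg z z' (C1.span_range hz) h

theorem mkPN (q : I → I → kˣ) {R : Type} [Ring R] [Algebra k R] (x : I → R)
    (hs : wsp k x Set.univ = ⊤)
    (hg : ∀ c, lc k x c = 0 → ∀ μ, lc k x (c.filter fun l => deg l = μ) = 0)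
    (he : ∀ c, lc k x c = 0 → c [] = 0)
    (hD : ∀ c, lc k x c = 0 → Finsupp.linearCombination k (copw q x) c = 0) :
    ∃ P : PN k q R, P.x = x :=
  C1.pn_of_rel x hs (fun μ c hc => hg c hc μ) he hD

theorem exists_free (q : I → I → kˣ) : ∃ (R : Type) (_ : Ring R) (_ : Algebra k R)
    (P : PN k q R), Function.Injective (lc k P.x) := by
  obtain ⟨S, _, _, z, hz, h⟩ := exists_ring_of_rel (⊥ : Submodule k (List I →₀ k))
    (fun a c hc => by rw [(Submodule.mem_bot k).1 hc]; simp)
    (fun a c hc => by rw [(Submodule.mem_bot k).1 hc]; simp)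
  have hi : Function.Injective (lc k z) := LinearMap.ker_eq_bot.1 h
  have h0 : ∀ c, lc k z c = 0 → c = 0 := fun c hc => hi (by rw [hc, map_zero])
  obtain ⟨P, hP⟩ := mkPN q z hz
    (fun c hc μ => by rw [h0 c hc, Finsupp.filter_zero, map_zero])
    (fun c hc => by rw [h0 c hc]; rfl) (fun c hc => by rw [h0 c hc, map_zero])
  exact ⟨S, inferInstance, inferInstance, P, hP ▸ hi⟩

namespace C3

theorem finrank_map_le {V W W' : Type*} [AddCommGroup V] [Module k V] [AddCommGroup W]
    [Module k W] [AddCommGroup W'] [Module k W'] (U : Submodule k V) [FiniteDimensional k U]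
    (f : V →ₗ[k] W) (g : V →ₗ[k] W') (h : ∀ a ∈ U, g a = 0 → f a = 0) :
    Module.finrank k (U.map f) ≤ Module.finrank k (U.map g) := by
  have h1 := LinearMap.finrank_range_add_finrank_ker (f ∘ₗ U.subtype)
  have h2 := LinearMap.finrank_range_add_finrank_ker (g ∘ₗ U.subtype)
  have h3 : LinearMap.ker (g ∘ₗ U.subtype) ≤ LinearMap.ker (f ∘ₗ U.subtype) :=
    fun a ha => h a a.2 ha
  have h4 := Submodule.finrank_mono h3
  rw [LinearMap.range_comp, Submodule.range_subtype] at h1 h2
  omega

theorem finrank_map_eq {V W W' : Type*} [AddCommGroup V] [Module k V] [AddCommGroup W]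
    [Module k W] [AddCommGroup W'] [Module k W'] (U : Submodule k V) [FiniteDimensional k U]
    (f : V →ₗ[k] W) (g : V →ₗ[k] W') (h : ∀ a ∈ U, g a = 0 ↔ f a = 0) :
    Module.finrank k (U.map f) = Module.finrank k (U.map g) :=
  le_antisymm (finrank_map_le U f g fun a ha => (h a ha).1)
    (finrank_map_le U g f fun a ha => (h a ha).2)

variable {q : I → I → kˣ} {R : Type} [Ring R] [Algebra k R] (P : PN k q R)

theorem piece_fd (μ : I → ℤ) : FiniteDimensional k (P.piece μ) :=
  FiniteDimensional.span_of_finite k ((C1.finite_deg μ).image _)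

theorem map_wsp {A S S' : Type} [Ring S] [Algebra k S] [Ring S'] [Algebra k S']
    (π : S →ₐ[k] S') (z : A → S) (T : Set (List A)) :
    (wsp k z T).map π.toLinearMap = wsp k (fun a => π (z a)) T := by
  rw [wsp, wsp, Submodule.map_span, Set.image_image]
  congr 2
  funext l
  exact C1.map_wd π z l

theorem map_lc_alg {A S S' : Type} [Ring S] [Algebra k S] [Ring S'] [Algebra k S']
    (π : S →ₐ[k] S') (z : A → S) (c : List A →₀ k) :
    π (lc k z c) = lc k (fun a => π (z a)) c := by
  have := C1.map_lc z π.toLinearMap c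
  simp only [AlgHom.toLinearMap_apply, C1.map_wd] at this
  exact this

theorem eps_lc (c : List I →₀ k) : P.eps (lc k P.x c) = c [] := by
  induction c using Finsupp.induction_linear with
  | zero => simp
  | add a b ha hb => simp only [map_add, ha, hb, Finsupp.add_apply]
  | single l c => simp [C1.lc_single, P.eps_wd, Finsupp.single_apply]

theorem D_lc (c : List I →₀ k) :
    P.D (lc k P.x c) = Finsupp.linearCombination k (copw q P.x) c := by
  rw [C1.map_lc]; simp only [P.D_wd]

end C3

namespace PN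
variable {q : I → I → kˣ} {R : Type} [Ring R] [Algebra k R] (P : PN k q R)

theorem exists_quot {N : Submodule k R} (h : P.RCo N) (hl : ∀ a ∈ N, ∀ b, b * a ∈ N) :
    ∃ (R' : Type) (_ : Ring R') (_ : Algebra k R') (P' : PN k q R') (π : R →ₐ[k] R'),
      Function.Surjective π ∧ (∀ a, π a = 0 ↔ a ∈ N) ∧ (∀ i, P'.x i = π (P.x i)) ∧
      P'.hil = P.hilQ N := by
  let J : Ideal R :=
    { carrier := N
      zero_mem' := N.zero_mem
      add_mem' := fun ha hb => N.add_mem ha hb
      smul_mem' := fun b a ha => hl a ha b }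
  have : J.IsTwoSided := ⟨fun b ha => h.right _ ha b⟩
  let π : R →ₐ[k] R ⧸ J := Ideal.Quotient.mkₐ k J
  have hπ : ∀ a, π a = 0 ↔ a ∈ N := fun a => Ideal.Quotient.eq_zero_iff_mem
  have hs : Function.Surjective π := Ideal.Quotient.mkₐ_surjective k J
  obtain ⟨P', hP'⟩ := mkPN q (fun i => π (P.x i))
    (by rw [← C3.map_wsp, P.span, Submodule.map_top, LinearMap.range_eq_top]; exact hs)
    (fun c hc μ => by
      rw [← C3.map_lc_alg, hπ] at hc ⊢
      rw [← C2.pr_lc]; exact h.graded μ _ hc)
    (fun c hc => by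
      rw [← C3.map_lc_alg, hπ] at hc
      rw [← C3.eps_lc P]; exact h.eps _ hc)
    (fun c hc => by
      rw [← C3.map_lc_alg, hπ] at hc
      have h1 := h.coid _ hc
      let ι : (R ⧸ N) →ₗ[k] R ⧸ J := N.liftQ π.toLinearMap fun a ha => (hπ a).2 ha
      have h2 : π.toLinearMap = ι ∘ₗ N.mkQ := (N.liftQ_mkQ _ _).symm
      have h3 : TensorProduct.map π.toLinearMap π.toLinearMap (P.D (lc k P.x c)) = 0 := by
        rw [h2, TensorProduct.map_comp, LinearMap.comp_apply, h1, map_zero]
      rw [C3.D_lc, Finsupp.apply_linearCombination] at h3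
      have h4 : (TensorProduct.map π.toLinearMap π.toLinearMap ∘ copw q P.x) =
          copw q fun i => π (P.x i) := funext fun l => C1.map_copw π P.x l
      rwa [h4] at h3)
  refine ⟨R ⧸ J, inferInstance, inferInstance, P', π, hs, hπ, fun i => by rw [hP'], ?_⟩
  funext μ
  have := C3.piece_fd P μ
  rw [hil, hilQ, piece, hP', ← C3.map_wsp]
  exact C3.finrank_map_eq (P.piece μ) _ _ fun a _ => by
    rw [AlgHom.toLinearMap_apply, hπ, Submodule.mkQ_apply, Submodule.Quotient.mk_eq_zero]

end PN

namespace C3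
variable {J : Type} [Fintype J] [DecidableEq J]

omit [Fintype I] in
theorem push_deg (f : J → I) (l : List J) :
    push (fun j => e (f j)) (deg l) = deg (l.map f) := by
  induction l with
  | nil => simp [C1.deg_nil]
  | cons j l ih =>
    rw [C1.deg_cons, map_add, ih, List.map_cons, C1.deg_cons]
    congr 1
    show ∑ i, e j i • e (f i) = e (f j)
    rw [Finset.sum_eq_single j]
    · simp [e]
    · intro b _ hb; simp [e, hb]
    · simp

omit [Fintype I] [DecidableEq J] in
theorem push_apply (f : J → I) (hf : Function.Injective f) (μ : J → ℤ) (j : J) :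
    push (fun j => e (f j)) μ (f j) = μ j := by
  show (∑ i, μ i • e (f i)) (f j) = μ j
  rw [Finset.sum_apply, Finset.sum_eq_single j]
  · simp [e]
  · intro b _ hb; simp [e, hf.ne (Ne.symm hb)]
  · simp

omit [Fintype I] [DecidableEq J] in
theorem push_apply_of_ne (f : J → I) (μ : J → ℤ) (i : I) (hi : ∀ j, f j ≠ i) :
    push (fun j => e (f j)) μ i = 0 := by
  show (∑ j, μ j • e (f j)) i = 0
  rw [Finset.sum_apply]
  exact Finset.sum_eq_zero fun j _ => by simp [e, (hi j).symm]

omit [Fintype I] [DecidableEq J] in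
theorem push_inj (f : J → I) (hf : Function.Injective f) :
    Function.Injective (push (fun j => (e (f j) : I → ℤ))) := fun μ ν h =>
  funext fun j => by rw [← push_apply f hf μ j, h, push_apply f hf]

omit [DecidableEq J] in
theorem ht_push (f : J → I) (μ : J → ℤ) : ht (push (fun j => (e (f j) : I → ℤ)) μ) = ht μ := by
  show ∑ i, (∑ j, μ j • e (f j)) i = ∑ j, μ j
  simp only [Finset.sum_apply]
  rw [Finset.sum_comm]
  refine Finset.sum_congr rfl fun j _ => ?_
  simp [e, Pi.single_apply]

omit [Fintype I] [DecidableEq I] [Fintype J] [DecidableEq J] in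
theorem exists_map (f : J → I) (l : List I) (h : ∀ i ∈ l, ∃ j, f j = i) :
    ∃ l' : List J, l'.map f = l := by
  induction l with
  | nil => exact ⟨[], rfl⟩
  | cons i l ih =>
    obtain ⟨j, rfl⟩ := h i List.mem_cons_self
    obtain ⟨l', rfl⟩ := ih fun i hi => h i (List.mem_cons_of_mem _ hi)
    exact ⟨j :: l', rfl⟩

omit [Fintype I] in
theorem deg_words (f : J → I) (hf : Function.Injective f) (μ : J → ℤ) :
    {l : List I | deg l = push (fun j => e (f j)) μ} = List.map f '' {l | deg l = μ} := by
  ext l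
  constructor
  · intro hl
    obtain ⟨l', rfl⟩ := exists_map f l fun i hi => by
      by_contra hn
      have h1 := push_apply_of_ne f μ i fun j hj => hn ⟨j, hj⟩
      rw [← (show deg l = _ from hl), C1.deg_apply] at h1
      exact absurd (List.count_pos_iff.2 hi) (by omega)
    refine ⟨l', push_inj f hf ?_, rfl⟩
    rw [push_deg]; exact hl
  · rintro ⟨l', rfl, rfl⟩
    exact (push_deg f l').symm

omit [Fintype I] in
theorem wsp_push {R : Type} [Ring R] [Algebra k R] (x : I → R) (f : J → I)
    (hf : Function.Injective f) (μ : J → ℤ) :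
    wsp k x {l | deg l = push (fun j => e (f j)) μ} =
      wsp k (fun j => x (f j)) {l | deg l = μ} := by
  rw [deg_words f hf, wsp, wsp, Set.image_image]
  simp only [C1.wd_map]

variable {q : I → I → kˣ} {R : Type} [Ring R] [Algebra k R] (P : PN k q R)

/-- Letters which are zero can be dropped. -/
theorem restrict (f : J → I) (hf : Function.Injective f) (h0 : ∀ i, (∀ j, f j ≠ i) → P.x i = 0) :
    ∃ P' : PN k (fun a b => q (f a) (f b)) R, (∀ j, P'.x j = P.x (f j)) ∧ P'.eps = P.eps ∧
      P'.D = P.D ∧ ∀ μ, P'.piece μ = P.piece (push (fun j => e (f j)) μ) := by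
  refine ⟨⟨fun j => P.x (f j), ?_, fun μ => P.pr (push (fun j => e (f j)) μ), ?_, P.eps, ?_,
    P.D, ?_⟩, fun j => rfl, rfl, rfl, fun μ => (wsp_push P.x f hf μ).symm⟩
  · rw [eq_top_iff, ← P.span, wsp, Submodule.span_le]
    rintro _ ⟨l, -, rfl⟩
    by_cases h : ∀ i ∈ l, ∃ j, f j = i
    · obtain ⟨l', rfl⟩ := exists_map f l h
      rw [C1.wd_map]
      exact Submodule.subset_span ⟨l', trivial, rfl⟩
    · simp only [not_forall, not_exists] at h
      obtain ⟨i, hi, hn⟩ := h
      rw [C1.wd_eq_zero P.x l i hi (h0 i hn)]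
      exact Submodule.zero_mem _
  · intro μ l
    rw [← C1.wd_map, P.pr_wd, ← push_deg]
    simp only [(push_inj f hf).eq_iff]
  · intro l
    rw [← C1.wd_map, P.eps_wd]
    simp
  · intro l
    rw [← C1.wd_map, P.D_wd, C1.copw_map]

end C3

namespace PN
variable {q : I → I → kˣ} {R : Type} [Ring R] [Algebra k R] (P : PN k q R)

theorem exists_restrict : ∃ (I' : Type) (_ : Fintype I') (_ : DecidableEq I')
    (q' : I' → I' → kˣ) (P' : PN k q' R), P'.Alive ∧ (PG P.hil → PG P'.hil) := by
  classical
  obtain ⟨P', hx, -, -, hp⟩ := C3.restrict P (Subtype.val : {i // P.x i ≠ 0} → I)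
    Subtype.val_injective fun i hi => by
      by_contra h
      exact hi ⟨i, h⟩ rfl
  refine ⟨{i // P.x i ≠ 0}, inferInstance, inferInstance, _, P', fun j => hx j ▸ j.2, ?_⟩
  rintro ⟨C, d, h⟩
  refine ⟨C, d, fun n S hS => ?_⟩
  have hi := C3.push_inj (Subtype.val : {i // P.x i ≠ 0} → I) Subtype.val_injective
  have h1 := h n (S.image (push fun j : {i // P.x i ≠ 0} => e j.1)) fun μ hμ => by
    obtain ⟨ν, hν, rfl⟩ := Finset.mem_image.1 hμ
    rw [C3.ht_push]; exact hS ν hν
  rw [Finset.sum_image fun a _ b _ hab => hi hab] at h1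
  refine le_trans (le_of_eq ?_) h1
  exact Finset.sum_congr rfl fun μ _ => by rw [hil, hil, hp]

end PN

end Pool.Agent.Lib.MP_ff61db_al.Pt
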