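import Pool.Agent.Lib.MP_ff61db_al.Pt.MM

/-! The Hilbert series of a pre-Nichols algebra splits along every cut of the degrees. -/

namespace Pool.Agent.Lib.MP_ff61db_al.Pt

variable {k : Type} [Field k] {I : Type} [Fintype I] [DecidableEq I]

namespace PN
variable {q : I → I → kˣ} {R : Type} [Ring R] [Algebra k R] (P : PN k q R)

/-- The cut along a set of degrees. -/
theorem b5_cut (S : Set (I → ℤ)) (h0 : 0 ∉ S) (hadd : ∀ a ∈ S, ∀ b ∈ S, a + b ∈ S)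
    (hcut : ∀ a b, 0 ≤ a → 0 ≤ b → a + b ∈ S → a ≠ 0 → b ≠ 0 → a ∈ S ∨ b ∈ S) :
    ∃ κ u : (I → ℤ) → ℕ, κ 0 = 1 ∧ u 0 = 1 ∧ Cone u ∧ (∀ μ, κ μ ≠ 0 → μ = 0 ∨ μ ∈ S) ∧
      (∀ μ ∈ S, u μ = 0) ∧ P.hil = cv κ u := by
  have h := GB.coid_cut (B := P.toGB) h0 hcut
  exact ⟨_, _, GC.hK_zero, h.hQ_zero, fun _ => GC.hQ_nonneg,
    fun _ hμ => GC.hK_cut h h0 hadd hcut hμ, fun _ => GC.hQ_cut, P.b5_hil_cv h⟩

theorem hn_cut : HNcut P.hil := by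
  intro Λ _ _ _ f
  obtain ⟨κ, u, h1, h2, h3, h4, h5, h6⟩ := P.b5_cut {μ | 0 ≤ μ ∧ μ ≠ 0 ∧ 0 ≤ f μ}
    (fun h => h.2.1 rfl)
    (fun a ha b hb => ⟨add_nonneg ha.1 hb.1,
      fun h => ha.2.1 ((add_eq_zero_iff_of_nonneg ha.1 hb.1).1 h).1,
      by rw [map_add]; exact add_nonneg ha.2.2 hb.2.2⟩)
    (fun a b ha hb h ha0 hb0 => by
      by_contra hc
      have h1 : f a < 0 := not_le.1 fun h1 => hc (Or.inl ⟨ha, ha0, h1⟩)
      have h2 : f b < 0 := not_le.1 fun h2 => hc (Or.inr ⟨hb, hb0, h2⟩)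
      have h3 := h.2.2
      rw [map_add] at h3
      exact absurd (add_neg h1 h2) (not_lt.2 h3))
  refine ⟨κ, u, h1, h2, fun μ hμ => ?_, h3, fun μ hμ => ?_, fun μ hμ => ?_, h6⟩
  · exact (h4 μ hμ).elim (fun h => h.ge) fun h => h.1
  · exact (h4 μ hμ).elim (fun h => by rw [h, map_zero]) fun h => h.2.2
  · by_contra hc
    rw [not_or, not_lt] at hc
    exact hμ (h5 μ ⟨h3 μ hμ, hc.1, hc.2⟩)

end PN

end Pool.Agent.Lib.MP_ff61db_al.Pt
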