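import Pool.Agent.Lib.MP_ff61db_al.Pt.C4

/-! The Nichols algebra: existence, uniqueness of the Hilbert function, subalphabets. -/

namespace Pool.Agent.Lib.MP_ff61db_al.Pt

open TensorProduct

variable {k : Type} [Field k] {I : Type} [Fintype I] [DecidableEq I]

namespace PN
variable {q : I → I → kˣ} {R : Type} [Ring R] [Algebra k R] (P : PN k q R)

theorem JS_rco (h : P.Alive) (A : Set I) : P.RCo (P.JS A) where
  graded μ a ha := by
    rw [C4.mem_JS] at ha ⊢
    intro w hw
    rw [C4.ph_pr P h, ha w hw, ite_self]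
  right _ ha b := C4.right_of_x P (fun j _ ha => C4.JS_mul_x P h j ha) ha b
  eps _ ha := (C4.mem_JS P).1 ha [] (by simp)
  coid a ha := by
    refine C0.sep (C4.phq P A) (C4.phq P A) (C4.phq_sep P A) (C4.phq_sep P A) _ fun u w => ?_
    have e1 : ∀ t : R ⊗[k] R, C0.pr2 (C4.phq P A u) (C4.phq P A w)
        (TensorProduct.map (P.JS A).mkQ (P.JS A).mkQ t) =
        C0.pr2 (C4.ph P u.1) (C4.ph P w.1) t := by
      intro t
      induction t with
      | zero => simp
      | tmul a b => rw [TensorProduct.map_tmul, C0.pr2_tmul, C0.pr2_tmul, C4.phq_mk, C4.phq_mk]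
      | add s t hs ht => simp only [map_add, hs, ht]
    rw [e1]
    refine (C2.pr2_D P h u.1 w.1 a).trans ((C4.mem_JS P).1 ha _ fun i hi => ?_)
    rcases List.mem_append.1 hi with h | h
    · exact u.2 i h
    · exact w.2 i h

theorem JS_left (h : P.Alive) (A : Set I) : ∀ a ∈ P.JS A, ∀ b, b * a ∈ P.JS A :=
  fun _ ha b => C4.left_of_x P (fun j _ ha => C4.JS_x_mul P h j ha) ha b

theorem JS_hilQ_zero (h : P.Alive) (A : Set I) (μ : I → ℤ) {i : I} (hi : μ i ≠ 0) (hA : i ∉ A) :
    P.hilQ (P.JS A) μ = 0 := by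
  have : (P.piece μ).map (P.JS A).mkQ = ⊥ := by
    rw [← le_bot_iff, Submodule.map_le_iff_le_comap, Submodule.comap_bot, Submodule.ker_mkQ]
    exact C4.piece_le_JS P h hi hA
  rw [hilQ, this, finrank_bot]

theorem mem_coinv_JS (h : P.Alive) (A : Set I) (a : R) :
    a ∈ P.coinv (P.JS A) ↔ ∀ j ∈ A, P.del j a = 0 := by
  have e0 : a ∈ P.coinv (P.JS A) ↔
      (P.JS A).mkQ.lTensor R (P.D a) - a ⊗ₜ (P.JS A).mkQ 1 = 0 := by
    rw [sub_eq_zero]; rfl
  have e1 : ∀ w, TensorProduct.rid k R ((C4.phq P A w).lTensor R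
      ((P.JS A).mkQ.lTensor R (P.D a) - a ⊗ₜ (P.JS A).mkQ 1)) =
      P.dels w.1 a - C4.ph P w.1 1 • a := by
    intro w
    rw [map_sub, map_sub, ← LinearMap.lTensor_comp_apply, LinearMap.lTensor_tmul,
      TensorProduct.rid_tmul, C4.phq_mk, ← C4.rid_ph P h]
    rfl
  rw [e0]
  constructor
  · intro h0 j hj
    have := e1 ⟨[j], by simpa using hj⟩
    rw [h0, map_zero, map_zero] at this
    have h1 : C4.ph P [j] 1 = 0 := C4.ph_one P h [] j
    simpa [h1, C2.dels_single] using this.symm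
  · intro h0
    refine C0.sep_right (C4.phq P A) (C4.phq_sep P A) _ fun w => ?_
    rw [e1]
    obtain ⟨w, hw⟩ := w
    induction w using List.reverseRecOn with
    | nil => simp [C2.dels_nil, C4.ph_nil, C2.eps_one]
    | append_singleton w j _ =>
      simp only
      rw [C2.dels_concat, h0 j (hw j (by simp)), C4.ph_one P h]; simp

theorem Nich.JS_univ {P : PN k q R} (h : P.Nich) : P.JS Set.univ = ⊥ := by
  have key : ∀ n : ℕ, ∀ a ∈ wsp k P.x {l | l.length < n}, a ∈ P.JS Set.univ → a = 0 := by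
    intro n
    induction n with
    | zero => intro a ha _; simpa [wsp] using ha
    | succ n ih =>
      intro a ha hJ
      refine h.2 a ((C4.mem_JS P).1 hJ [] (by simp)) fun j => ih _ ?_ (C4.JS_del P hJ trivial)
      have : wsp k P.x {l | l.length < n + 1} ≤
          (wsp k P.x {l | l.length < n}).comap (P.del j) := by
        rw [wsp, Submodule.span_le]
        rintro _ ⟨l, hl, rfl⟩
        have h1 := C4.del_mem P h.1 j (C4.wd_mem P l)
        refine Submodule.span_mono (Set.image_mono fun l' hl' => ?_) h1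
        have h2 : deg (j :: l') = deg l := by
          rw [C1.deg_cons, show deg l' = deg l - e j from hl']; abel
        have h3 := (C1.perm_of_deg h2).length_eq
        simp only [List.length_cons, Set.mem_ofPred_eq] at h3 hl ⊢
        omega
      exact this ha
  rw [eq_bot_iff]
  intro a ha
  obtain ⟨c, rfl⟩ := C1.lc_surj P.span a
  refine key (c.support.sup List.length + 1) _ ?_ ha
  rw [lc, Finsupp.linearCombination_apply, Finsupp.sum]
  refine Submodule.sum_mem _ fun l hl => Submodule.smul_mem _ _ (Submodule.subset_span ?_)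
  exact ⟨l, Nat.lt_succ_of_le (Finset.le_sup (f := List.length) hl), rfl⟩

/-- The mirror form of the Nichols property. -/
theorem Nich.dl {P : PN k q R} (h : P.Nich) (a : R) (h0 : P.eps a = 0)
    (hd : ∀ j, P.dl j a = 0) : a = 0 := by
  rw [← Submodule.mem_bot k, ← h.JS_univ, C4.mem_JS]
  intro w _
  cases w with
  | nil => exact h0
  | cons j u =>
    have e1 : C4.ph P [j] = P.co j := by
      apply C2.ind_left P
      · rw [C2.co_one P h.1]; exact C4.ph_one P h.1 [] j
      · intro i l _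
        have := C4.ph_concat P [] j (P.x i * wd P.x l)
        rw [List.nil_append] at this
        rw [this, C2.del_left P h.1, C2.co_left P h.1, map_add, C4.ph_nil, C2.eps_left, zero_add]
        split_ifs
        · rw [C4.ph_gl P h.1, C1.deg_nil, C1.chi_zero_right, Units.val_one, one_mul, C4.ph_nil]
        · exact map_zero _
    have e2 : ∀ t : R ⊗[k] R, C0.pr2 (P.co j) (C4.ph P u) t =
        C4.ph P u (TensorProduct.lid k R ((P.co j).rTensor R t)) := by
      intro t
      induction t with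
      | zero => simp
      | tmul a b => simp
      | add s t hs ht => simp only [map_add, hs, ht]
    have e3 : C0.pr2 (C4.ph P [j]) (C4.ph P u) (P.D a) = C4.ph P (j :: u) a :=
      C2.pr2_D P h.1 [j] u a
    rw [← e3, e1, e2]
    exact (congrArg (C4.ph P u) (hd j)).trans (map_zero _)

end PN

namespace C5
variable {q : I → I → kˣ} {R : Type} [Ring R] [Algebra k R] {R' : Type} [Ring R'] [Algebra k R']

theorem alive_of_inj (P : PN k q R) (h : Function.Injective (lc k P.x)) : P.Alive := by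
  intro i hi
  have : lc k P.x (Finsupp.single [i] 1) = lc k P.x 0 := by
    rw [C1.lc_single, C1.wd_single, hi]; simp
  simpa using h this

theorem ph_lc (P : PN k q R) (P' : PN k q R') (hP : P.Alive) (hP' : P'.Alive) (w : List I)
    (c : List I →₀ k) : C4.ph P w (lc k P.x c) = C4.ph P' w (lc k P'.x c) := by
  obtain ⟨F, _, _, Q, hQ⟩ := exists_free q
  have hQa := alive_of_inj Q hQ
  have key : ∀ {S : Type} [Ring S] [Algebra k S] (T : PN k q S), T.Alive →
      C4.ph T w (lc k T.x c) = C4.ph Q w (lc k Q.x c) := by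
    intro S _ _ T hT
    obtain ⟨π, hπ⟩ := exists_algHom Q.x Q.span T.x fun c hc => by
      rw [hQ (hc.trans (map_zero _).symm), map_zero]
    have h1 := C4.hom_ph Q T π id (fun _ _ => rfl) hπ (fun i hi => absurd rfl (hi i))
      Function.injective_id hQa hT w (lc k Q.x c)
    rw [List.map_id, C3.map_lc_alg, funext hπ] at h1
    exact h1
  rw [key P hP, key P' hP']

/-- The map onto the Nichols algebra. -/
theorem to_nich (P : PN k q R) (P' : PN k q R') (hP : P.Alive) (hP' : P'.Nich) :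
    ∃ π : R →ₐ[k] R', (∀ i, π (P.x i) = P'.x i) ∧ Function.Surjective π ∧
      ∀ a, π a = 0 ↔ a ∈ P.JS Set.univ := by
  have h1 : ∀ c, lc k P'.x c = 0 ↔ lc k P.x c ∈ P.JS Set.univ := by
    intro c
    rw [← Submodule.mem_bot k, ← hP'.JS_univ, C4.mem_JS, C4.mem_JS]
    simp only [ph_lc P P' hP hP'.1]
  obtain ⟨π, hπ⟩ := exists_algHom P.x P.span P'.x fun c hc => by
    rw [h1, hc]; exact Submodule.zero_mem _
  refine ⟨π, hπ, fun b => ?_, fun a => ?_⟩
  · obtain ⟨c, rfl⟩ := C1.lc_surj P'.span b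
    exact ⟨lc k P.x c, by rw [C3.map_lc_alg, funext hπ]⟩
  · obtain ⟨c, rfl⟩ := C1.lc_surj P.span a
    rw [C3.map_lc_alg, funext hπ, h1]

theorem hilQ_univ (P : PN k q R) (P' : PN k q R') (hP : P.Alive) (hP' : P'.Nich) (μ : I → ℤ) :
    P.hilQ (P.JS Set.univ) μ = P'.hil μ := by
  obtain ⟨π, h1, -, h2⟩ := to_nich P P' hP hP'
  have := C3.piece_fd P μ
  rw [PN.hil, PN.hilQ, PN.piece, PN.piece, ← funext h1, ← C3.map_wsp]
  exact C3.finrank_map_eq (P.piece μ) _ _ fun a _ => by
    rw [AlgHom.toLinearMap_apply, h2, Submodule.mkQ_apply, Submodule.Quotient.mk_eq_zero]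

/-- The Nichols quotient for a subalphabet. -/
theorem exists_nich_quot {J : Type} [Fintype J] [DecidableEq J] (P : PN k q R) (hP : P.Alive)
    (f : J → I) (hf : Function.Injective f) :
    ∃ (S : Type) (_ : Ring S) (_ : Algebra k S) (P' : PN k (fun a b => q (f a) (f b)) S)
      (π : R →ₐ[k] S), P'.Nich ∧ Function.Surjective π ∧ (∀ j, π (P.x (f j)) = P'.x j) ∧
      (∀ i, (∀ j, f j ≠ i) → π (P.x i) = 0) ∧ (∀ a, π a = 0 ↔ a ∈ P.JS (Set.range f)) ∧
      ∀ μ, P'.hil μ = P.hilQ (P.JS (Set.range f)) (push (fun j => e (f j)) μ) := by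
  obtain ⟨S, _, _, Q, π, hs, hk, hx, hh⟩ :=
    P.exists_quot (P.JS_rco hP (Set.range f)) (P.JS_left hP _)
  have h0 : ∀ i, (∀ j, f j ≠ i) → π (P.x i) = 0 := by
    intro i hi
    rw [hk]
    refine C4.piece_le_JS P hP (μ := deg [i]) (i := i) (by simp [C1.deg_apply]) ?_ ?_
    · rintro ⟨j, hj⟩; exact hi j hj
    · rw [← C1.wd_single P.x i]; exact C4.wd_mem P _
  obtain ⟨P', hx', -, -, hp⟩ := C3.restrict Q f hf fun i hi => by rw [hx, h0 i hi]
  have h1 : ∀ j, π (P.x (f j)) = P'.x j := fun j => by rw [hx', hx]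
  refine ⟨S, inferInstance, inferInstance, P', π,
    C4.nich_of P P' π f (fun _ _ => rfl) h1 h0 hf hP hs hk, hs, h1, h0, hk, fun μ => ?_⟩
  rw [← hh, PN.hil, PN.hil, hp]

end C5

theorem exists_NP (q : I → I → kˣ) : Nonempty (NP k q) := by
  obtain ⟨F, _, _, Q, hQ⟩ := exists_free q
  obtain ⟨S, _, _, P', -, h, -⟩ :=
    C5.exists_nich_quot Q (C5.alive_of_inj Q hQ) id Function.injective_id
  exact ⟨⟨S, P', h⟩⟩

namespace C5

theorem exists_hN (q : I → I → kˣ) : ∃ B : NP k q, ∀ μ, hN q μ = B.P.hil μ :=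
  ⟨Classical.choice (exists_NP q), fun μ => by rw [hN, dif_pos (exists_NP q)]⟩

variable {q : I → I → kˣ} {R : Type} [Ring R] [Algebra k R]

theorem hilQ_hN (P : PN k q R) (hP : P.Alive) (μ : I → ℤ) :
    P.hilQ (P.JS Set.univ) μ = hN q μ := by
  obtain ⟨B, hB⟩ := exists_hN q
  rw [hB, hilQ_univ P B.P hP B.nich]

end C5

namespace PN
variable {q : I → I → kˣ} {R : Type} [Ring R] [Algebra k R] (P : PN k q R)

theorem JS_hilQ (h : P.Alive) (A : Set I) (μ : I → ℤ) (hμ : ∀ i, μ i ≠ 0 → i ∈ A) :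
    P.hilQ (P.JS A) μ = hN q μ := by
  have := C3.piece_fd P μ
  rw [← C5.hilQ_hN P h, hilQ, hilQ]
  refine C3.finrank_map_eq (P.piece μ) _ _ fun a ha => ?_
  simp only [Submodule.mkQ_apply, Submodule.Quotient.mk_eq_zero, C4.mem_JS]
  refine ⟨fun h1 w _ => h1 w fun _ _ => trivial, fun h1 w _ => ?_⟩
  by_cases hw : deg w = μ
  · refine h1 w fun i hi => hμ i ?_
    rw [← hw, C1.deg_apply]
    exact_mod_cast (List.count_pos_iff.2 hi).ne'
  · exact C4.ph_piece P h w ha hw

theorem Nich.hil_eq {P : PN k q R} (h : P.Nich) : P.hil = hN q :=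
  funext fun μ => by rw [← C5.hilQ_hN P h.1, C5.hilQ_univ P P h.1 h]

theorem hN_le (h : P.Alive) (μ : I → ℤ) : hN q μ ≤ P.hil μ := by
  have := C3.piece_fd P μ
  rw [← C5.hilQ_hN P h]
  exact Submodule.finrank_map_le _ _

end PN

theorem hN_e (q : I → I → kˣ) (i : I) : hN q (e i) = 1 := by
  obtain ⟨B, hB⟩ := C5.exists_hN q
  have : {l : List I | deg l = e i} = {[i]} := by
    ext l; exact C1.deg_eq_e
  rw [hB, PN.hil, PN.piece, this, wsp, Set.image_singleton, C1.wd_single]
  exact finrank_span_singleton (B.nich.1 i)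

theorem hN_emb {I' : Type} [Fintype I'] [DecidableEq I'] (f : I ↪ I') (q' : I' → I' → kˣ)
    (μ : I → ℤ) (h : 0 ≤ μ) :
    hN q' (push (fun i => e (f i)) μ) = hN (fun a b => q' (f a) (f b)) μ := by
  have _ := h
  obtain ⟨B⟩ := exists_NP q'
  obtain ⟨S, _, _, P', π, hn, -, -, -, -, hh⟩ :=
    C5.exists_nich_quot B.P B.nich.1 f f.injective
  rw [← hn.hil_eq, hh, B.P.JS_hilQ B.nich.1]
  intro i hi
  by_contra hn
  exact hi (C3.push_apply_of_ne f μ i fun j hj => hn ⟨j, hj⟩)

/-- Upper bound for the Nichols algebra from a graded module with skew derivations: `M` is graded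
by `gr`, the letters act by `X`, and `v` of degree zero is killed by the derivations. -/
theorem hN_le_of_module (q : I → I → kˣ) {M : Type} [AddCommGroup M] [Module k M]
    (gr : (I → ℤ) → Submodule k M) (hfd : ∀ μ, FiniteDimensional k (gr μ))
    (X Y : I → Module.End k M) (v : M) (hv : v ∈ gr 0) (hv0 : v ≠ 0)
    (hX : ∀ i μ, ∀ m ∈ gr μ, X i m ∈ gr (e i + μ)) (hY0 : ∀ j, Y j v = 0)
    (hY : ∀ j l μ, ∀ m ∈ gr μ,
      Y j (X l m) = X l (Y j m) + if l = j then ((chi q (e j) μ : kˣ) : k) • m else 0) (μ : I → ℤ) :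
    hN q μ ≤ Module.finrank k (gr μ) := by
  obtain ⟨F, _, _, Q, hQ⟩ := exists_free q
  have hQa := C5.alive_of_inj Q hQ
  obtain ⟨ρ, hρ⟩ := exists_algHom Q.x Q.span X fun c hc => by
    rw [hQ (hc.trans (map_zero _).symm), map_zero]
  let Φ : F →ₗ[k] M := LinearMap.applyₗ v ∘ₗ ρ.toLinearMap
  have hΦ1 : Φ 1 = v := by simp [Φ]
  have hΦx : ∀ i a, Φ (Q.x i * a) = X i (Φ a) := by
    intro i a; simp [Φ, hρ]
  have hw : ∀ l, Φ (wd Q.x l) ∈ gr (deg l) := by
    intro l
    induction l with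
    | nil => rw [C1.wd_nil, hΦ1]; exact hv
    | cons i l ih => rw [C1.wd_cons, hΦx, C1.deg_cons]; exact hX i _ _ ih
  have hd : ∀ j a, Φ (Q.del j a) = Y j (Φ a) := by
    intro j a
    have : Φ ∘ₗ Q.del j = Y j ∘ₗ Φ := by
      apply C2.ind_left Q
      · simp only [LinearMap.comp_apply, C2.del_one Q hQa, map_zero, hΦ1, hY0]
      · intro i l ih
        simp only [LinearMap.comp_apply] at ih ⊢
        rw [C2.del_left Q hQa, map_add, hΦx, hΦx, ih, hY j i _ _ (hw l)]
        by_cases h : j = i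
        · subst h
          rw [if_pos rfl, if_pos rfl, C2.gl_wd, map_smul]
        · rw [if_neg h, if_neg (Ne.symm h), map_zero]
    exact congr($this a)
  have hds : ∀ (w : List I) a, Φ a = 0 → Φ (Q.dels w a) = 0 := by
    intro w a ha
    induction w with
    | nil => exact ha
    | cons j w ih => rw [C2.dels_cons, hd, ih, map_zero]
  have := C3.piece_fd Q μ
  have := hfd μ
  rw [← C5.hilQ_hN Q hQa, PN.hilQ]
  refine le_trans (C3.finrank_map_le (Q.piece μ) _ Φ fun a ha h0 => ?_) ?_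
  · rw [Submodule.mkQ_apply, Submodule.Quotient.mk_eq_zero, C4.mem_JS]
    intro w _
    by_cases hw : deg w = μ
    · have h1 := C4.dels_mem Q hQa w ha
      rw [hw, sub_self] at h1
      have h2 := hds w a h0
      rw [C4.eq_smul_one Q h1, map_smul, hΦ1] at h2
      exact (smul_eq_zero.1 h2).resolve_right hv0
    · exact C4.ph_piece Q hQa w ha hw
  · apply Submodule.finrank_mono
    rintro _ ⟨a, ha, rfl⟩
    exact C4.map_piece Q Φ _ (fun l hl => hl ▸ hw l) ha

end Pool.Agent.Lib.MP_ff61db_al.Pt
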