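import Pool.Agent.Lib.MP_ff61db_al.Pt.Deg

/-! Specialisation of a pre-Nichols algebra to roots of unity in positive characteristic. -/

namespace Pool.Agent.Lib.MP_ff61db_al.Pt

open Submodule Module TensorProduct IsLocalRing

namespace B7

theorem jacobson_int : IsJacobsonRing ℤ := by
  refine isJacobsonRing_iff_prime_eq.2 fun P hP => ?_
  by_cases h : P = ⊥
  · subst h
    refine eq_bot_iff.2 fun x hx => ?_
    rcases Int.isUnit_iff.1 (Ideal.mem_jacobson_bot.1 hx x) with h | h
    · exact mul_self_eq_zero.1 (by omega)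
    · nlinarith [mul_self_nonneg x]
  · have := hP.isMaximal h
    exact Ideal.jacobson_eq_self_of_isMaximal

theorem finite_of_finiteType (F : Type) [Field F] [i : Algebra ℤ F] [Algebra.FiniteType ℤ F] :
    Finite F := by
  obtain rfl : i = Ring.toIntAlgebra F := Subsingleton.elim _ _
  have := jacobson_int
  have := finite_of_finite_type_of_isJacobsonRing ℤ F
  obtain ⟨p, hp⟩ := CharP.exists F
  rcases CharP.char_is_prime_or_zero F p with h | rfl
  · refine Module.finite_of_fg_torsion F fun x => ⟨⟨p, mem_nonZeroDivisors_of_ne_zero ?_⟩, ?_⟩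
    · exact_mod_cast h.ne_zero
    · simp [Submonoid.smul_def]
  · have := CharP.charP_to_charZero F
    exact absurd (isField_of_isIntegral_of_isField (R := ℤ) (S := F)
      (algebraMap ℤ F).injective_int (Field.toIsField F)) Int.not_isField

variable {k X : Type} [Field k]

theorem exists_place {J : Type} [Finite J] (a : J → kˣ) :
    ∃ (O : ValuationSubring k) (p : ℕ) (_ : Fact p.Prime) (_ : CharP (ResidueField O) p) (N : ℕ)
      (h : ∀ j, (a j : k) ∈ O), 0 < N ∧ ∀ j, residue O ⟨a j, h j⟩ ^ N = 1 := by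
  let s : Set k := Set.range (fun j => (a j : k)) ∪ Set.range fun j => ((a j)⁻¹ : kˣ)
  let L := Algebra.adjoin ℤ s
  have : Algebra.FiniteType ℤ L :=
    .adjoin_of_finite ((Set.finite_range _).union (Set.finite_range _))
  obtain ⟨m, hm⟩ := Ideal.exists_maximal L
  let _ := Ideal.Quotient.field m
  have : Algebra.FiniteType ℤ (L ⧸ m) :=
    .of_surjective (Ideal.Quotient.mkₐ ℤ m) (Ideal.Quotient.mkₐ_surjective ℤ m)
  have := finite_of_finiteType (L ⧸ m)
  let _ := Fintype.ofFinite (L ⧸ m)
  obtain ⟨O, h1, h2⟩ := Ideal.image_subset_nonunits_valuationSubring (A := L.toSubring) m hm.ne_top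
  let f : L →+* ResidueField O := (residue O).comp (Subring.inclusion h1)
  have hf : ∀ x ∈ m, f x = 0 := fun x hx =>
    (residue_eq_zero_iff _).2 (O.coe_mem_nonunits_iff.1 (h2 ⟨x, hx, rfl⟩))
  let g : L ⧸ m →+* ResidueField O := Ideal.Quotient.lift m f hf
  obtain ⟨p, hp⟩ := CharP.exists (L ⧸ m)
  have ha : ∀ j, (a j : k) ∈ L := fun j => Algebra.subset_adjoin (Or.inl ⟨j, rfl⟩)
  have hb : ∀ j, ((a j)⁻¹ : kˣ).val ∈ L := fun j => Algebra.subset_adjoin (Or.inr ⟨j, rfl⟩)
  refine ⟨O, p, ⟨CharP.char_is_prime (L ⧸ m) p⟩, (g.charP_iff_charP p).1 hp,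
    Fintype.card (L ⧸ m) - 1, fun j => h1 (ha j), Nat.sub_pos_of_lt Fintype.one_lt_card,
    fun j => ?_⟩
  have h3 : Ideal.Quotient.mk m ⟨a j, ha j⟩ ≠ 0 := left_ne_zero_of_mul_eq_one
    (b := Ideal.Quotient.mk m ⟨_, hb j⟩) (by
      rw [← map_mul, ← map_one (Ideal.Quotient.mk m)]
      exact congrArg _ (Subtype.ext (a j).mul_inv))
  have h4 := congrArg g (FiniteField.pow_card_sub_one_eq_one _ h3)
  rwa [map_pow, map_one] at h4

variable (O : ValuationSubring k)

open Classical in
/-- Reduction to the residue field, extended by zero. -/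
noncomputable def red (a : k) : ResidueField O := if h : a ∈ O then residue O ⟨a, h⟩ else 0

variable {O}

theorem red_coe (a : O) : red O a = residue O a := dif_pos a.2

theorem red_zero : red O 0 = 0 := (red_coe 0).trans (map_zero _)

theorem red_one : red O 1 = 1 := (red_coe 1).trans (map_one _)

theorem red_mul {a b : k} (ha : a ∈ O) (hb : b ∈ O) : red O (a * b) = red O a * red O b := by
  lift a to O using ha
  lift b to O using hb
  rw [red_coe, red_coe, ← map_mul, ← red_coe]
  rfl

theorem red_add {a b : k} (ha : a ∈ O) (hb : b ∈ O) : red O (a + b) = red O a + red O b := by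
  lift a to O using ha
  lift b to O using hb
  rw [red_coe, red_coe, ← map_add, ← red_coe]
  rfl

theorem red_sum {ι : Type} (s : Finset ι) {f : ι → k} (h : ∀ i, f i ∈ O) :
    red O (∑ i ∈ s, f i) = ∑ i ∈ s, red O (f i) := by
  classical
  induction s using Finset.induction_on with
  | empty => simpa using red_zero
  | insert i s hi ih =>
    rw [Finset.sum_insert hi, Finset.sum_insert hi, red_add (h i) (sum_mem fun j _ => h j), ih]

variable (O)

/-- Reduction of a vector. -/
def redR (v : X →₀ k) (v' : X →₀ ResidueField O) : Prop :=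
  (∀ x, v x ∈ O) ∧ ∀ x, v' x = red O (v x)

/-- Reduction of a functional. -/
def redQ (φ : Dual k (X →₀ k)) (φ' : Dual (ResidueField O) (X →₀ ResidueField O)) : Prop :=
  (∀ x, φ (Finsupp.single x 1) ∈ O) ∧
    ∀ x, φ' (Finsupp.single x 1) = red O (φ (Finsupp.single x 1))

theorem exists_scale (f : X → k) (hf : {x | f x ≠ 0}.Finite) (h0 : ∃ x, f x ≠ 0) :
    ∃ c x, c * f x = 1 ∧ ∀ y, c * f y ∈ O := by
  obtain ⟨x, h1, h2⟩ := hf.toFinset.exists_max_image (fun x => O.valuation (f x))
    (h0.imp fun x hx => by simpa using hx)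
  have hx : f x ≠ 0 := by simpa using h1
  refine ⟨(f x)⁻¹, x, inv_mul_cancel₀ hx, fun y => ?_⟩
  by_cases hy : f y = 0
  · simp [hy]
  · rw [← O.valuation_le_one_iff, map_mul, map_inv₀, inv_mul_le_one₀ (by simpa [pos_iff_ne_zero])]
    exact h2 y (by simpa using hy)

variable {O}

theorem lin_eq_sum {K : Type} [Field K] (φ : Dual K (X →₀ K)) (v : X →₀ K) {s : Finset X}
    (hs : v.support ⊆ s) : φ v = ∑ x ∈ s, v x * φ (Finsupp.single x 1) := by
  conv_lhs => rw [← Finsupp.sum_single v, map_finsuppSum, Finsupp.sum_of_support_subset _ hs _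
    (by simp)]
  refine Finset.sum_congr rfl fun x _ => ?_
  rw [← smul_eq_mul, ← map_smul, Finsupp.smul_single, smul_eq_mul, mul_one]

theorem red_pair {v : X →₀ k} {v' φ φ'} (h : redR O v v') (h' : redQ O φ φ') :
    φ v ∈ O ∧ φ' v' = red O (φ v) := by
  have hs : v'.support ⊆ v.support := fun x hx => by
    rw [Finsupp.mem_support_iff] at hx ⊢
    exact fun e => hx (by rw [h.2, e, red_zero])
  rw [lin_eq_sum φ v subset_rfl, lin_eq_sum φ' v' hs, red_sum _ fun x => mul_mem (h.1 x) (h'.1 x)]
  refine ⟨sum_mem fun x _ => mul_mem (h.1 x) (h'.1 x), Finset.sum_congr rfl fun x _ => ?_⟩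
  rw [red_mul (h.1 x) (h'.1 x), h.2, h'.2]

theorem spec_red : Spec (sb k X) (sb (ResidueField O) X) (redR O) (redQ O) where
  R0 v v' x h hx := (h.2 x).trans ((congrArg _ hx).trans red_zero)
  R1 v hv := by
    obtain ⟨c, x, h1, h2⟩ := exists_scale O v v.hasFiniteSupport (by
      by_contra h
      exact hv (Finsupp.ext fun x => not_not.1 fun h' => h ⟨x, h'⟩))
    refine ⟨c, (c • v).mapRange (red O) red_zero, ⟨h2, fun x => rfl⟩, fun e => ?_⟩
    simpa [h1, red_one] using DFunLike.congr_fun e x
  Rp v v' s h := by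
    refine ⟨fun x => ?_, fun x => ?_⟩
    · change pt k s v x ∈ O
      by_cases hx : x ∈ s <;> simp [pt_apply, hx, h.1]
    · change pt _ s v' x = red O (pt k s v x)
      by_cases hx : x ∈ s <;> simp [pt_apply, hx, h.2, red_zero]
  Q0 φ φ' x h hx := (h.2 x).trans ((congrArg _ hx).trans red_zero)
  Q1 φ hφ hf := by
    obtain ⟨c, x, h1, h2⟩ := exists_scale O _ hf (by
      by_contra h
      exact hφ ((sb k X).ext fun x => not_not.1 fun h' => h ⟨x, h'⟩))
    refine ⟨c, Finsupp.linearCombination _ fun x => red O (c * φ (Finsupp.single x 1)),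
      ⟨h2, fun x => by simp⟩, fun e => ?_⟩
    have := LinearMap.congr_fun e (Finsupp.single x 1)
    rw [Finsupp.linearCombination_single, one_smul,
      show c * φ (Finsupp.single x 1) = 1 from h1, red_one] at this
    exact one_ne_zero this
  orth v v' φ φ' h h' e := (red_pair h h').2.trans ((congrArg _ e).trans red_zero)

theorem redR_map {Y : Type} {F : (X →₀ k) →ₗ[k] (Y →₀ k)}
    {F' : (X →₀ ResidueField O) →ₗ[ResidueField O] (Y →₀ ResidueField O)}
    (hF : ∀ x, redR O (F (Finsupp.single x 1)) (F' (Finsupp.single x 1))) {v v'}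
    (h : redR O v v') : redR O (F v) (F' v') :=
  have := fun y => red_pair (φ := (Finsupp.lapply y).comp F) (φ' := (Finsupp.lapply y).comp F') h
    ⟨fun x => (hF x).1 y, fun x => (hF x).2 y⟩
  ⟨fun y => (this y).1, fun y => (this y).2⟩

theorem redR_single (x : X) {a : k} (h : a ∈ O) :
    redR O (Finsupp.single x a) (Finsupp.single x (red O a)) := by
  classical
  constructor <;> intro y <;> by_cases e : x = y <;> simp [e, h, red_zero]

theorem redR_add {v w : X →₀ k} {v' w'} (h : redR O v v') (h' : redR O w w') :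
    redR O (v + w) (v' + w') :=
  ⟨fun x => add_mem (h.1 x) (h'.1 x), fun x => by
    rw [Finsupp.add_apply, Finsupp.add_apply, red_add (h.1 x) (h'.1 x), h.2, h'.2]⟩

theorem sp_map {F : (X →₀ k) →ₗ[k] (X →₀ k)}
    {F' : (X →₀ ResidueField O) →ₗ[ResidueField O] (X →₀ ResidueField O)}
    (hF : ∀ x, redR O (F (Finsupp.single x 1)) (F' (Finsupp.single x 1)))
    {N : Submodule k (X →₀ k)} (hN : ∀ c ∈ N, F c ∈ N) :
    ∀ c ∈ sp (ResidueField O) (redR O) N, F' c ∈ sp (ResidueField O) (redR O) N :=
  fun _ hc => (span_le (p := (sp _ (redR O) N).comap F')).2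
    (fun _ h => h.elim fun v h => mem_sp (hN v h.1) (redR_map hF h.2)) hc

theorem redR_one (x : X) : redR O (Finsupp.single x 1) (Finsupp.single x 1) :=
  red_one (O := O) ▸ redR_single x O.one_mem

variable {A H S : Type} [Ring H] [Algebra k H] [Ring S] [Algebra (ResidueField O) S]

theorem LI.sp {N : Submodule k (List A →₀ k)} (h : LI N) :
    LI (sp (ResidueField O) (redR O) N) := fun a =>
  sp_map (fun l => by simpa only [lmul_single] using redR_one _) (h a)

theorem RI.sp {N : Submodule k (List A →₀ k)} (h : RI N) :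
    RI (sp (ResidueField O) (redR O) N) := fun a =>
  sp_map (fun l => by simpa only [rmul_single] using redR_one _) (h a)

theorem tensor_sp [Finite A] {z : A → H} {y : A → S}
    (hz : Grd List.length (LinearMap.ker (lc k z)))
    (hy : ∀ c ∈ sp (ResidueField O) (redR O) (LinearMap.ker (lc k z)), lc _ y c = 0)
    {t : List A × List A →₀ k} {t'} (ht : redR O t t')
    (h : Finsupp.linearCombination k (wd2 k z) t = 0) :
    Finsupp.linearCombination (ResidueField O) (wd2 (ResidueField O) y) t' = 0 := by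
  refine C0.sep_dual _ fun φ ψ => ?_
  let n := t'.support.sup fun p => p.1.length + p.2.length
  let s := (List.finite_length_le A n).toFinset
  have hs : ∀ v ∈ LinearMap.ker (lc k z), proj (sb k (List A)) s v ∈ LinearMap.ker (lc k z) :=
    fun v hv => hz.pt_mem (fun l l' e hl => by simpa [s, ← e] using hl) hv
  let B : Dual _ _ →ₗ[ResidueField O] Dual _ _ →ₗ[ResidueField O] ResidueField O :=
    LinearMap.mk₂ _ (fun φ ψ : Dual (ResidueField O) (List A →₀ ResidueField O) =>
      ∑ p ∈ t'.support, t' p * (φ (Finsupp.single p.1 1) * ψ (Finsupp.single p.2 1)))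
      (fun _ _ _ => by simp [add_mul, mul_add, Finset.sum_add_distrib])
      (fun _ _ _ => by simp [Finset.mul_sum, mul_assoc, mul_left_comm])
      (fun _ _ _ => by simp [mul_add, Finset.sum_add_distrib])
      (fun _ _ _ => by simp [Finset.mul_sum, mul_left_comm])
  have hB : ∀ φ' ∈ spD (redQ O) (LinearMap.ker (lc k z)),
      ∀ ψ' ∈ spD (redQ O) (LinearMap.ker (lc k z)), B φ' ψ' = 0 := by
    intro φ' h1 ψ' h2
    refine (span_le (p := LinearMap.ker (B.flip ψ'))).2 (fun φ' h => ?_) h1
    obtain ⟨φ₀, h3, h4⟩ := h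
    refine (span_le (p := LinearMap.ker (B φ'))).2 (fun ψ' h => ?_) h2
    obtain ⟨ψ₀, h5, h6⟩ := h
    obtain ⟨f, hf⟩ := exists_factor (lc k z) φ₀ h3
    obtain ⟨g, hg⟩ := exists_factor (lc k z) ψ₀ h5
    have e : ∀ p : List A × List A, (C0.pr2 f g).comp (Finsupp.linearCombination k (wd2 k z))
        (Finsupp.single p 1) = φ₀ (Finsupp.single p.1 1) * ψ₀ (Finsupp.single p.2 1) := fun p => by
      simp [wd2, ← hf, ← hg, lc_single]
    have := (red_pair (φ := (C0.pr2 f g).comp (Finsupp.linearCombination k (wd2 k z)))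
      (φ' := Finsupp.linearCombination _ fun p : List A × List A =>
        φ' (Finsupp.single p.1 1) * ψ' (Finsupp.single p.2 1)) ht
      ⟨fun p => e p ▸ mul_mem (h4.1 _) (h6.1 _), fun p => by
        rw [e, red_mul (h4.1 _) (h6.1 _), ← h4.2, ← h6.2, Finsupp.linearCombination_single,
          one_smul]⟩).2
    rw [LinearMap.comp_apply, h, map_zero, red_zero] at this
    exact this
  refine Eq.trans ?_ (hB _ (spec_red.comp_proj_mem s hs (ψ := φ.comp (lc _ y))
    fun c hc => by simp [hy c hc]) _ (spec_red.comp_proj_mem s hs (ψ := ψ.comp (lc _ y))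
    fun c hc => by simp [hy c hc]))
  refine (lin_eq_sum ((C0.pr2 φ ψ).comp (Finsupp.linearCombination _ (wd2 _ y))) t'
    subset_rfl).trans (Finset.sum_congr rfl fun p hp => ?_)
  have h1 : p.1.length + p.2.length ≤ n :=
    Finset.le_sup (f := fun p : List A × List A => p.1.length + p.2.length) hp
  have e : ∀ l : List A, l.length ≤ n → proj (sb (ResidueField O) (List A)) s
      (Finsupp.single l 1) = Finsupp.single l 1 := fun l hl =>
    (pt_single _ l 1).trans (if_pos (by simpa [s] using hl))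
  simp [wd2, e p.1 (by omega), e p.2 (by omega), lc_single]

variable {I : Type} [Fintype I] [DecidableEq I]

theorem sh_map {M M' : Type} [CommGroup M] [CommGroup M'] (f : M →* M') (q : I → I → M)
    (l : List I) : sh (fun i j => f (q i j)) l = (sh q l).map fun p => (f p.1, p.2) := by
  have e : ∀ μ ν, chi (fun i j => f (q i j)) μ ν = f (chi q μ ν) := fun μ ν => by
    simp [chi, map_prod]
  induction l with
  | nil => simp [sh]
  | cons i l ih => simp [sh, ih, e, Function.comp_def]

theorem redR_cop (q : I → I → Oˣ) {v v'} (h : redR O v v') :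
    redR O (cop (fun i j => Units.map O.subtype.toMonoidHom (q i j)) v)
      (cop (fun i j => Units.map (residue O).toMonoidHom (q i j)) v') := by
  refine redR_map (fun l => ?_) h
  simp only [cop, Finsupp.linearCombination_single, one_smul, sh_map, List.map_map]
  induction sh q l with
  | nil => exact ⟨fun _ => O.zero_mem, fun _ => red_zero.symm⟩
  | cons p L ih =>
    refine redR_add ?_ ih
    exact (red_coe (p.1 : O) ▸ redR_single p.2 (p.1 : O).2 :)

theorem wl_one (l : List A) : wl (fun _ => 1) l = l.length := by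
  simp [wl]

theorem length_eq_of_deg {l l' : List I} (h : deg l = deg l') : l.length = l'.length := by
  have := congrArg (wtH 1) h
  rw [← map_deg, ← map_deg] at this
  simpa [wtH_e, wl] using this

end B7

open B7

variable {k : Type} [Field k] {I : Type} [Fintype I] [DecidableEq I]

theorem PN.spec {q : I → I → kˣ} {R : Type} [Ring R] [Algebra k R] (P : PN k q R) :
    ∃ (κ : Type) (_ : Field κ) (p : ℕ) (_ : Fact p.Prime) (_ : CharP κ p) (N : ℕ)
      (q' : I → I → κˣ) (R' : Type) (_ : Ring R') (_ : Algebra κ R') (P' : PN κ q' R'),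
      0 < N ∧ (∀ i j, q' i j ^ N = 1) ∧ P'.hil = P.hil ∧
      (IsNoetherianRing R' → IsNoetherianRing R) := by
  obtain ⟨O, p, hp, hc, N, h1, hN, h2⟩ := exists_place fun t : I × I => q t.1 t.2
  have hu : ∀ i j, IsUnit (⟨q i j, h1 (i, j)⟩ : O) := fun i j => by
    rw [← residue_ne_zero_iff_isUnit]
    intro e
    have := h2 (i, j)
    rw [e, zero_pow hN.ne'] at this
    exact zero_ne_one this
  choose q₀ hq using hu
  obtain rfl : q = fun i j => Units.map O.subtype.toMonoidHom (q₀ i j) :=
    funext₂ fun i j => Units.ext (congrArg Subtype.val (hq i j)).symm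
  have g1 : Grd deg (LinearMap.ker (lc k P.x)) := grd_of_proj P.pr_wd
  have g2 : Grd List.length (LinearMap.ker (lc k P.x)) := fun n c hc =>
    g1.pt_mem (fun l l' e hl => (length_eq_of_deg e).symm.trans hl) hc
  obtain ⟨S, _, _, y, h3, h4⟩ := exists_ring_of
    (N := sp (ResidueField O) (redR O) (LinearMap.ker (lc k P.x)))
    (LI.sp fun a c hc => by rw [LinearMap.mem_ker, lc_lmul, LinearMap.mem_ker.1 hc, mul_zero])
    (RI.sp fun a c hc => by rw [LinearMap.mem_ker, lc_rmul, LinearMap.mem_ker.1 hc, zero_mul])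
  have h5 : LinearMap.ker (lc _ y) = _ := Submodule.ext h4
  obtain ⟨P', rfl⟩ := pn_of_rel (fun i j => Units.map (residue O).toMonoidHom (q₀ i j)) h3
    (h5 ▸ spec_red.grd g1)
    (fun c hc => (span_le (p := LinearMap.ker (Finsupp.lapply []))).2 (fun v' h => by
      obtain ⟨v, h6, h7⟩ := h
      change v' [] = 0
      rw [h7.2, ← eps_lc P, LinearMap.mem_ker.1 h6, map_zero, red_zero]) ((h4 c).1 hc))
    (fun c hc => (span_le (p := LinearMap.ker ((Finsupp.linearCombination _ (wd2 _ y)).comp
      (cop _)))).2 (fun v' h => h.elim fun v h => tensor_sp g2 (fun c hc => (h4 c).2 hc)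
        (redR_cop q₀ h.2) (by rw [← D_lc, LinearMap.mem_ker.1 h.1, map_zero])) ((h4 c).1 hc))
  refine ⟨ResidueField O, _, p, hp, hc, N, _, S, _, _, P', hN, fun i j => Units.ext ?_,
    funext fun μ => spec_red.rank_eq h5 (by simpa using fin_deg {μ}) (g1 μ), fun _ => ?_⟩
  · rw [Units.val_pow_eq_pow_val, Units.val_one, ← h2 (i, j), ← hq]
    rfl
  · have e : wl (fun _ : I => 1) = List.length := funext wl_one
    refine noeth_of_noChain (ω := fun _ => 1) (.of _ (InvImage.wf _ Nat.lt_wfRel.wf)) P.span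
      fun f hf h => noChain_of_noeth P'.x h3 (fun n => sp _ (redR O) (f n))
        (strictMono_nat_of_lt_succ fun n => ?_) fun n => ⟨(h n).1.sp, h5 ▸ sp_mono
          (le_trans (fun c hc => mem_InL.2 fun μ => ?_) (h n).2.2)⟩
    · have h6 := hf (Nat.lt_succ_self n)
      exact lt_of_le_of_ne (sp_mono h6.le) fun e' => h6.not_ge (spec_red.le_of_sp_le
        (List.finite_length_eq I) (e ▸ (h n).2.1) (e ▸ (h (n + 1)).2.1) h6.le e'.ge)
    · rw [e, LinearMap.mem_ker.1 (g2 μ c hc)]
      exact zero_mem _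

end Pool.Agent.Lib.MP_ff61db_al.Pt
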