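import Pool.Agent.Lib.MP_ff61db_al.Pt.Num
import Pool.Agent.Lib.MP_ff61db_al.Pt.Basic2
import Pool.Agent.Lib.MP_ff61db_al.Pt.Constr
import Pool.Agent.Lib.MP_ff61db_al.Pt.Nich
import Pool.Agent.Lib.MP_ff61db_al.Pt.HN
import Pool.Agent.Lib.MP_ff61db_al.Pt.Sp

/-! The algebraic blocks, collected. -/
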