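import Pool.Agent.Lib.MP_ff61db_al.Pt.Num

/-! The grading of a pre-Nichols algebra. -/

namespace Pool.Agent.Lib.MP_ff61db_al.Pt

open TensorProduct

namespace B1
variable {I : Type} [DecidableEq I]

theorem e_apply (i j : I) : e i j = if j = i then 1 else 0 := Pi.single_apply _ _ _

theorem e_ne_zero (i : I) : e i ≠ 0 := fun h => by simpa [e_apply] using congrFun h i

theorem deg_reverse (l : List I) : deg l.reverse = deg l := by simp [deg]

omit [DecidableEq I] in
theorem chi_tr [Fintype I] {M : Type} [CommGroup M] (q : I → I → M) (μ ν : I → ℤ) :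
    chi (fun i j => q j i) μ ν = chi q ν μ := by
  unfold chi
  rw [Finset.prod_comm]
  simp only [mul_comm]

end B1

namespace PN
variable {k : Type} [Field k] {I : Type} [Fintype I] [DecidableEq I]
variable {q : I → I → kˣ} {R : Type} [Ring R] [Algebra k R] (P : PN k q R)

theorem span_range : Submodule.span k (Set.range (wd P.x)) = ⊤ := by
  rw [← Set.image_univ]; exact P.span

/-- Induction on linear combinations of words. -/
theorem ind {p : R → Prop} (hw : ∀ l, p (wd P.x l)) (h0 : p 0) (ha : ∀ a b, p a → p b → p (a + b))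
    (hs : ∀ (c : k) a, p a → p (c • a)) (a : R) : p a := by
  have : a ∈ Submodule.span k (Set.range (wd P.x)) := P.span_range ▸ Submodule.mem_top
  induction this using Submodule.span_induction with
  | mem x hx => obtain ⟨l, rfl⟩ := hx; exact hw l
  | zero => exact h0
  | add x y _ _ hx hy => exact ha _ _ hx hy
  | smul c x _ hx => exact hs _ _ hx

theorem hom_ext {M : Type} [AddCommGroup M] [Module k M] {f g : R →ₗ[k] M}
    (h : ∀ l, f (wd P.x l) = g (wd P.x l)) : f = g :=
  LinearMap.ext_on_range P.span_range h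

theorem hom_ext₂ {M : Type} [AddCommGroup M] [Module k M] {f g : R →ₗ[k] R →ₗ[k] M}
    (h : ∀ l l', f (wd P.x l) (wd P.x l') = g (wd P.x l) (wd P.x l')) : f = g :=
  P.hom_ext fun l => P.hom_ext fun l' => h l l'

theorem ext_tmul {M : Type} [AddCommGroup M] [Module k M] {f g : R ⊗[k] R →ₗ[k] M}
    (h : ∀ l l', f (wd P.x l ⊗ₜ wd P.x l') = g (wd P.x l ⊗ₜ wd P.x l')) : f = g :=
  TensorProduct.ext (P.hom_ext₂ h)

theorem wd_mem (l : List I) : wd P.x l ∈ P.piece (deg l) := Submodule.subset_span ⟨l, rfl, rfl⟩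

theorem wd_mem' {l : List I} {μ : I → ℤ} (h : deg l = μ) : wd P.x l ∈ P.piece μ := h ▸ P.wd_mem l

theorem one_mem : (1 : R) ∈ P.piece 0 := P.wd_mem []

theorem x_mem (i : I) : P.x i ∈ P.piece (e i) := by simpa using P.wd_mem [i]

/-- Induction in a homogeneous component. -/
theorem piece_ind {μ : I → ℤ} {p : R → Prop} (hw : ∀ l, deg l = μ → p (wd P.x l)) (h0 : p 0)
    (ha : ∀ a b, p a → p b → p (a + b)) (hs : ∀ (c : k) a, p a → p (c • a)) {a : R}
    (h : a ∈ P.piece μ) : p a := by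
  induction h using Submodule.span_induction with
  | mem x hx => obtain ⟨l, hl, rfl⟩ := hx; exact hw l hl
  | zero => exact h0
  | add x y _ _ hx hy => exact ha _ _ hx hy
  | smul c x _ hx => exact hs _ _ hx

theorem eq_on_piece {M : Type} [AddCommGroup M] [Module k M] {μ : I → ℤ} {f g : R →ₗ[k] M}
    (h : ∀ l, deg l = μ → f (wd P.x l) = g (wd P.x l)) {a : R} (ha : a ∈ P.piece μ) : f a = g a :=
  P.piece_ind (p := fun a => f a = g a) h (by simp) (fun a b h h' => by simp [h, h'])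
    (fun c a h => by simp [h]) ha

theorem map_mem {M : Type} [AddCommGroup M] [Module k M] {μ : I → ℤ} {f : R →ₗ[k] M}
    {N : Submodule k M} (h : ∀ l, deg l = μ → f (wd P.x l) ∈ N) {a : R} (ha : a ∈ P.piece μ) :
    f a ∈ N :=
  P.piece_ind (p := fun a => f a ∈ N) h (by simp) (fun a b h h' => by simpa using N.add_mem h h')
    (fun c a h => by simpa using N.smul_mem c h) ha

theorem pr_mem (μ : I → ℤ) (a : R) : P.pr μ a ∈ P.piece μ := by
  refine P.ind (p := fun a => P.pr μ a ∈ P.piece μ) (fun l => ?_) (by simp)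
    (fun a b h h' => by simpa using add_mem h h')
    (fun c a h => by simpa using Submodule.smul_mem _ c h) a
  rw [P.pr_wd]
  split_ifs with h
  exacts [P.wd_mem' h, zero_mem _]

theorem pr_of_mem {μ : I → ℤ} {a : R} (h : a ∈ P.piece μ) (ν : I → ℤ) :
    P.pr ν a = if μ = ν then a else 0 := by
  split_ifs with h'
  · exact P.eq_on_piece (g := LinearMap.id) (fun l hl => by simp [P.pr_wd, hl, h']) h
  · exact P.eq_on_piece (g := 0) (fun l hl => by simp [P.pr_wd, hl, h']) h

theorem pr_self {μ : I → ℤ} {a : R} (h : a ∈ P.piece μ) : P.pr μ a = a := by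
  rw [P.pr_of_mem h, if_pos rfl]

theorem pr_of_ne {μ ν : I → ℤ} {a : R} (h : a ∈ P.piece ν) (hne : ν ≠ μ) : P.pr μ a = 0 := by
  rw [P.pr_of_mem h, if_neg hne]

theorem mem_piece {μ : I → ℤ} {a : R} : a ∈ P.piece μ ↔ P.pr μ a = a :=
  ⟨P.pr_self, fun h => h ▸ P.pr_mem μ a⟩

theorem pr_pr (μ ν : I → ℤ) (a : R) : P.pr ν (P.pr μ a) = if μ = ν then P.pr μ a else 0 :=
  P.pr_of_mem (P.pr_mem μ a) ν

theorem piece_mul {μ ν : I → ℤ} {a b : R} (ha : a ∈ P.piece μ) (hb : b ∈ P.piece ν) :
    a * b ∈ P.piece (μ + ν) :=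
  P.map_mem (f := LinearMap.mulRight k b) (fun l hl => P.map_mem (f := LinearMap.mulLeft k _)
    (fun l' hl' => by
      simpa [wd_append] using P.wd_mem' (l := l ++ l') (by rw [deg_append, hl, hl'])) hb) ha

theorem pow_mem {μ : I → ℤ} {a : R} (ha : a ∈ P.piece μ) (n : ℕ) :
    a ^ n ∈ P.piece ((n : ℤ) • μ) := by
  induction n with
  | zero => simpa using P.one_mem
  | succ n ih => simpa [pow_succ, add_smul] using P.piece_mul ih ha

theorem piece_bot {μ : I → ℤ} (h : ¬ 0 ≤ μ) : P.piece μ = ⊥ :=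
  eq_bot_iff.2 fun _ ha =>
    P.map_mem (f := LinearMap.id) (fun l hl => absurd (hl ▸ deg_nonneg l) h) ha

theorem nonneg_of_mem {μ : I → ℤ} {a : R} (h : a ∈ P.piece μ) (h0 : a ≠ 0) : 0 ≤ μ := by
  by_contra hn
  rw [P.piece_bot hn] at h
  exact h0 h

theorem pr_eq_zero {μ : I → ℤ} (h : ¬ 0 ≤ μ) (a : R) : P.pr μ a = 0 := by
  have := P.pr_mem μ a
  rwa [P.piece_bot h] at this

instance piece_fd (μ : I → ℤ) : FiniteDimensional k (P.piece μ) :=
  FiniteDimensional.span_of_finite k ((finite_deg μ).image _)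

theorem finite_pr (a : R) : (Function.support fun μ => P.pr μ a).Finite := by
  refine P.ind (p := fun a => (Function.support fun μ => P.pr μ a).Finite) (fun l => ?_) (by simp)
    (fun a b h h' => (h.union h').subset fun μ hμ => ?_) (fun c a h => h.subset fun μ hμ => ?_) a
  · refine (Set.finite_singleton (deg l)).subset fun μ hμ => ?_
    by_contra hne
    exact hμ (by simp only [P.pr_wd]; exact if_neg (Ne.symm hne))
  · by_contra hn
    simp only [Set.mem_union, Function.mem_support, not_or, not_not] at hn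
    exact hμ (by simp [hn.1, hn.2])
  · exact fun h0 => hμ (by simp [show P.pr μ a = 0 from h0])

/-- The linear map which is `f μ` on the component of degree `μ`. -/
noncomputable def glueMap {M : Type} [AddCommGroup M] [Module k M] (f : (I → ℤ) → R →ₗ[k] M) :
    R →ₗ[k] M where
  toFun a := ∑ᶠ μ, f μ (P.pr μ a)
  map_add' a b := by
    have h : ∀ a, (Function.support fun μ => f μ (P.pr μ a)).Finite := fun a =>
      (P.finite_pr a).subset fun μ hμ h0 => hμ (by simp [show P.pr μ a = 0 from h0])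
    simp only [map_add]
    exact finsum_add_distrib (h a) (h b)
  map_smul' c a := by
    have h : (Function.support fun μ => f μ (P.pr μ a)).Finite :=
      (P.finite_pr a).subset fun μ hμ h0 => hμ (by simp [show P.pr μ a = 0 from h0])
    simp only [map_smul, RingHom.id_apply]
    exact (smul_finsum' c h).symm

theorem glue_of_mem {M : Type} [AddCommGroup M] [Module k M] (f : (I → ℤ) → R →ₗ[k] M)
    {μ : I → ℤ} {a : R} (h : a ∈ P.piece μ) : P.glueMap f a = f μ a := by
  change ∑ᶠ ν, f ν (P.pr ν a) = _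
  rw [finsum_eq_single _ μ fun ν hν => by rw [P.pr_of_ne h (Ne.symm hν), map_zero], P.pr_self h]

theorem glue_wd {M : Type} [AddCommGroup M] [Module k M] (f : (I → ℤ) → R →ₗ[k] M) (l : List I) :
    P.glueMap f (wd P.x l) = f (deg l) (wd P.x l) := P.glue_of_mem f (P.wd_mem l)

theorem finsum_pr (a : R) : ∑ᶠ μ, P.pr μ a = a :=
  LinearMap.congr_fun (P.hom_ext (f := P.glueMap fun _ => LinearMap.id) (g := LinearMap.id)
    fun l => P.glue_wd _ l) a

theorem sum_pr (a : R) {S : Finset (I → ℤ)} (h : ∀ μ, P.pr μ a ≠ 0 → μ ∈ S) :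
    ∑ μ ∈ S, P.pr μ a = a := by
  rw [← finsum_eq_sum_of_support_subset _ (s := S) fun μ hμ => h μ hμ, P.finsum_pr]

theorem exists_sum_pr' (a : R) :
    ∃ S : Finset (I → ℤ), (∀ μ, μ ∈ S ↔ P.pr μ a ≠ 0) ∧ ∑ μ ∈ S, P.pr μ a = a :=
  ⟨(P.finite_pr a).toFinset, fun _ => by simp, P.sum_pr a fun _ h => by simpa using h⟩

theorem eq_zero_of_pr {a : R} (h : ∀ μ, P.pr μ a = 0) : a = 0 := by
  rw [← P.finsum_pr a]; simp [h]

theorem mem_of_pr {K : Submodule k R} {a : R} (h : ∀ μ, P.pr μ a ∈ K) : a ∈ K := by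
  obtain ⟨S, -, hS⟩ := P.exists_sum_pr' a
  exact hS ▸ K.sum_mem fun μ _ => h μ

/-- Induction on sums of homogeneous elements of a graded subspace. -/
theorem graded_ind {K : Submodule k R} (hK : P.Graded K) {p : R → Prop}
    (hh : ∀ μ, ∀ a ∈ K, a ∈ P.piece μ → p a) (ha : ∀ a b, p a → p b → p (a + b)) {a : R}
    (h : a ∈ K) : p a := by
  obtain ⟨S, -, hS⟩ := P.exists_sum_pr' a
  rw [← hS]
  exact Finset.sum_induction _ p ha (hh 0 0 K.zero_mem (zero_mem _))
    fun μ _ => hh μ _ (hK μ a h) (P.pr_mem μ a)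

/-- Induction on sums of homogeneous elements. -/
theorem ind_piece {p : R → Prop} (hw : ∀ μ, ∀ a ∈ P.piece μ, p a)
    (ha : ∀ a b, p a → p b → p (a + b)) (a : R) : p a :=
  P.graded_ind (K := ⊤) (fun _ _ _ => trivial) (fun μ a _ => hw μ a) ha trivial

theorem pr_mul_left {μ : I → ℤ} {a : R} (ha : a ∈ P.piece μ) (ν : I → ℤ) (b : R) :
    P.pr (μ + ν) (a * b) = a * P.pr ν b := by
  refine P.ind_piece (p := fun b => P.pr (μ + ν) (a * b) = a * P.pr ν b) (fun τ b hb => ?_)
    (fun b b' h h' => by simp [mul_add, h, h']) b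
  rw [P.pr_of_mem (P.piece_mul ha hb), P.pr_of_mem hb]
  simp

theorem pr_mul_right {ν : I → ℤ} {b : R} (hb : b ∈ P.piece ν) (μ : I → ℤ) (a : R) :
    P.pr (μ + ν) (a * b) = P.pr μ a * b := by
  refine P.ind_piece (p := fun a => P.pr (μ + ν) (a * b) = P.pr μ a * b) (fun τ a ha => ?_)
    (fun b b' h h' => by simp [add_mul, h, h']) a
  rw [P.pr_of_mem (P.piece_mul ha hb), P.pr_of_mem ha]
  simp

/-- A linear map which shifts degrees commutes with the projections. -/
theorem pr_shift {f : R →ₗ[k] R} {δ : I → ℤ} (hf : ∀ l, f (wd P.x l) ∈ P.piece (deg l + δ))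
    (μ : I → ℤ) (a : R) : P.pr (μ + δ) (f a) = f (P.pr μ a) :=
  LinearMap.congr_fun (P.hom_ext (f := P.pr (μ + δ) ∘ₗ f) (g := f ∘ₗ P.pr μ) fun l => by
    simp only [LinearMap.comp_apply, P.pr_of_mem (hf l), P.pr_wd, add_left_inj]
    split_ifs <;> simp) a

theorem eps_one : P.eps 1 = 1 := by simpa using P.eps_wd []

theorem eps_x (i : I) : P.eps (P.x i) = 0 := by simpa using P.eps_wd [i]

theorem eps_mul (a b : R) : P.eps (a * b) = P.eps a * P.eps b := by
  have := P.hom_ext₂ (f := (LinearMap.mul k R).compr₂ P.eps)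
    (g := (LinearMap.mul k k).compl₁₂ P.eps P.eps) fun l l' => by
      simp only [LinearMap.compr₂_apply, LinearMap.mul_apply', LinearMap.compl₁₂_apply,
        ← wd_append, P.eps_wd]
      by_cases h : l = [] <;> simp [h]
  exact LinearMap.congr_fun (LinearMap.congr_fun this a) b

theorem pr_zero (a : R) : P.pr 0 a = P.eps a • (1 : R) :=
  LinearMap.congr_fun (P.hom_ext (f := P.pr 0) (g := P.eps.smulRight (1 : R)) fun l => by
    simp only [P.pr_wd, deg_eq_zero, LinearMap.smulRight_apply, P.eps_wd]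
    split_ifs with h <;> simp [h]) a

theorem eq_of_mem_zero {a : R} (h : a ∈ P.piece 0) : a = P.eps a • (1 : R) := by
  rw [← P.pr_zero, P.pr_self h]

theorem eps_piece {μ : I → ℤ} {a : R} (h : a ∈ P.piece μ) (hne : μ ≠ 0) : P.eps a = 0 :=
  P.eq_on_piece (g := 0) (fun l hl => by
    rw [P.eps_wd, if_neg fun h' => hne (by rw [← hl, h', deg_nil])]; rfl) h

theorem eps_pr (μ : I → ℤ) (a : R) : P.eps (P.pr μ a) = if μ = 0 then P.eps a else 0 := by
  split_ifs with h
  · rw [h, P.pr_zero]; simp [P.eps_one]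
  · exact P.eps_piece (P.pr_mem μ a) h

include P in
theorem one_ne_zero' : (1 : R) ≠ 0 := fun h => by simpa [h] using P.eps_one

theorem mem_piece_e {i : I} {a : R} (h : a ∈ P.piece (e i)) : ∃ c : k, a = c • P.x i := by
  obtain ⟨c, hc⟩ := Submodule.mem_span_singleton.1 (P.map_mem (f := LinearMap.id)
    (N := k ∙ P.x i) (fun l hl => by
      simp [deg_eq_e.1 hl]) h)
  exact ⟨c, hc.symm⟩

theorem exists_sum_pr (a : R) :
    ∃ S : Finset (I → ℤ), ∑ μ ∈ S, P.pr μ a = a ∧ ∀ μ, μ ∉ S → P.pr μ a = 0 := by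
  obtain ⟨S, h, hS⟩ := P.exists_sum_pr' a
  exact ⟨S, hS, fun μ hμ => by simpa [h] using hμ⟩

theorem glue {M : Type} [AddCommGroup M] [Module k M] (F : (I → ℤ) → R →ₗ[k] M) :
    ∃ g : R →ₗ[k] M, ∀ μ, ∀ a ∈ P.piece μ, g a = F μ a :=
  ⟨P.glueMap F, fun _ _ h => P.glue_of_mem F h⟩

theorem hil_cone : Cone P.hil := fun μ h => by
  by_contra hn
  exact h (by rw [hil, P.piece_bot hn, finrank_bot])

theorem piece_zero : P.piece 0 = k ∙ (1 : R) :=
  le_antisymm (fun _ h => Submodule.mem_span_singleton.2 ⟨_, (P.eq_of_mem_zero h).symm⟩)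
    ((Submodule.span_singleton_le_iff_mem _ _).2 P.one_mem)

theorem hil_zero : P.hil 0 = 1 := by
  rw [hil, P.piece_zero, finrank_span_singleton P.one_ne_zero']

theorem hilS_add_hilQ {N : Submodule k R} (μ : I → ℤ) :
    P.hilS N μ + P.hilQ N μ = P.hil μ := by
  have h := LinearMap.finrank_range_add_finrank_ker (N.mkQ ∘ₗ (P.piece μ).subtype)
  rw [LinearMap.range_comp, Submodule.range_subtype, LinearMap.ker_comp, Submodule.ker_mkQ,
    ← Submodule.finrank_map_subtype_eq, Submodule.map_comap_subtype, inf_comm, add_comm] at h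
  exact h

theorem exists_compl {N : Submodule k R} (h : P.Graded N) :
    ∃ U : Submodule k R, P.Graded U ∧ IsCompl N U := by
  choose U hd hs using fun μ =>
    IsModularLattice.exists_disjoint_and_sup_eq (inf_le_right : N ⊓ P.piece μ ≤ P.piece μ)
  have hle : ∀ μ, U μ ≤ ⨅ ν, (U ν).comap (P.pr ν) := fun μ a ha => by
    simp only [Submodule.mem_iInf, Submodule.mem_comap]
    intro ν
    rw [P.pr_of_mem ((hs μ) ▸ Submodule.mem_sup_right ha : a ∈ P.piece μ)]
    split_ifs with h'
    exacts [h' ▸ ha, zero_mem _]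
  refine ⟨⨅ ν, (U ν).comap (P.pr ν), fun μ a ha => hle μ ((Submodule.mem_iInf _).1 ha μ),
    Submodule.disjoint_def.2 fun a ha ha' => P.eq_zero_of_pr fun μ =>
      Submodule.disjoint_def.1 (hd μ) _ ⟨h μ a ha, P.pr_mem μ a⟩ ((Submodule.mem_iInf _).1 ha' μ),
    codisjoint_iff.2 (eq_top_iff.2 fun a _ => P.mem_of_pr fun μ => ?_)⟩
  exact sup_le_sup inf_le_left (hle μ) ((hs μ).symm ▸ P.pr_mem μ a)

theorem hilS_compl {N U : Submodule k R} (h : P.Graded N) (hU : P.Graded U) (hc : IsCompl N U) :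
    P.hilS U = P.hilQ N := by
  funext μ
  have h1 := P.hilS_add_hilQ (N := N) μ
  have : FiniteDimensional k (N ⊓ P.piece μ : Submodule k R) :=
    Submodule.finiteDimensional_of_le inf_le_right
  have : FiniteDimensional k (U ⊓ P.piece μ : Submodule k R) :=
    Submodule.finiteDimensional_of_le inf_le_right
  have h2 := Submodule.finrank_sup_add_finrank_inf_eq (N ⊓ P.piece μ) (U ⊓ P.piece μ)
  have h3 : (N ⊓ P.piece μ) ⊓ (U ⊓ P.piece μ) = ⊥ :=
    disjoint_iff.1 (hc.disjoint.mono inf_le_left inf_le_left)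
  have h4 : (N ⊓ P.piece μ) ⊔ (U ⊓ P.piece μ) = P.piece μ := by
    refine le_antisymm (sup_le inf_le_right inf_le_right) fun a ha => ?_
    obtain ⟨b, hb, c, hc', rfl⟩ := Submodule.mem_sup.1
      (show a ∈ N ⊔ U from hc.sup_eq_top ▸ Submodule.mem_top)
    rw [← P.pr_self ha, map_add]
    exact add_mem (Submodule.mem_sup_left ⟨h μ b hb, P.pr_mem μ b⟩)
      (Submodule.mem_sup_right ⟨hU μ c hc', P.pr_mem μ c⟩)
  rw [h3, h4, finrank_bot] at h2
  unfold hilS hil at *
  omega

theorem cgr {J : Type} [Fintype J] [DecidableEq J] (dg : I → J → ℤ) : CGr k dg P.x :=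
  ⟨fun ν => P.glueMap fun μ => if push dg μ = ν then LinearMap.id else 0, fun ν l => by
    rw [P.glue_wd]
    split_ifs <;> rfl⟩

theorem wsp_fd (S : Finset (I → ℤ)) : FiniteDimensional k (wsp k P.x {l | deg l ∈ S}) :=
  FiniteDimensional.span_of_finite k
    (((S.finite_toSet.biUnion fun μ _ => finite_deg μ).subset fun l hl => by simpa using hl).image _)

theorem finrank_wsp (S : Finset (I → ℤ)) :
    Module.finrank k (wsp k P.x {l | deg l ∈ S}) = ∑ μ ∈ S, P.hil μ := by
  induction S using Finset.induction_on with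
  | empty =>
    have : wsp k P.x {l | deg l ∈ (∅ : Finset (I → ℤ))} = ⊥ := by simp [wsp]
    rw [this, finrank_bot, Finset.sum_empty]
  | insert μ S hμ ih =>
    have := P.wsp_fd S
    have h2 := Submodule.finrank_sup_add_finrank_inf_eq (P.piece μ) (wsp k P.x {l | deg l ∈ S})
    have h3 : P.piece μ ⊓ wsp k P.x {l | deg l ∈ S} = ⊥ := by
      refine eq_bot_iff.2 fun a ha => ?_
      have h0 : wsp k P.x {l | deg l ∈ S} ≤ LinearMap.ker (P.pr μ) := Submodule.span_le.2 <| by
        rintro _ ⟨l, hl, rfl⟩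
        exact P.pr_of_ne (P.wd_mem l) fun h => hμ (h ▸ hl)
      exact (P.pr_self ha.1).symm.trans (h0 ha.2)
    have h4 : P.piece μ ⊔ wsp k P.x {l | deg l ∈ S} = wsp k P.x {l | deg l ∈ insert μ S} := by
      unfold piece wsp
      rw [← Submodule.span_union, ← Set.image_union]
      congr 2
      ext l
      simp
    rw [h3, h4, finrank_bot, ih] at h2
    rw [Finset.sum_insert hμ]
    exact h2

theorem chil_eq {J : Type} [Fintype J] [DecidableEq J] {dg : I → J → ℤ} (h0 : ∀ i, 0 ≤ dg i)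
    (h1 : ∀ i, dg i ≠ 0) : chil k dg P.x = psh dg P.hil := by
  funext ν
  have hf := finite_fibre h0 h1 ν
  rw [psh, finsum_mem_eq_finite_toFinset_sum _ hf, ← P.finrank_wsp, chil]
  have : {l : List I | push dg (deg l) = ν} = {l | deg l ∈ hf.toFinset} := by
    ext l
    simp [deg_nonneg]
  rw [this]

/-- Polynomial growth bounds every independent family of words of bounded length. -/
theorem finrank_le (h : PG P.hil) : ∃ C d : ℕ, ∀ n : ℕ,
    Module.finrank k (wsp k P.x {l | l.length ≤ n}) ≤ C * (n + 1) ^ d := by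
  obtain ⟨C, d, h⟩ := h
  refine ⟨C, d, fun n => ?_⟩
  have hf := (List.finite_length_le I n).image (deg (I := I))
  have := P.wsp_fd hf.toFinset
  refine (Submodule.finrank_mono (t := wsp k P.x {l | deg l ∈ hf.toFinset})
    (Submodule.span_mono (Set.image_mono fun l hl => ?_))).trans ?_
  · exact hf.mem_toFinset.2 ⟨l, hl, rfl⟩
  · rw [P.finrank_wsp]
    refine h n _ fun μ hμ => ?_
    obtain ⟨l, hl, rfl⟩ := hf.mem_toFinset.1 hμ
    rw [ht_deg]
    exact_mod_cast hl

end PN

end Pool.Agent.Lib.MP_ff61db_al.Pt
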