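import Mathlib

/-! Generic linear algebra for the constructions: separation in tensor products, rings from
relations between words, lifting maps along relations. -/

namespace Pool.Agent.Lib.MP_ff61db_al.Pt.C0

open TensorProduct

section Sep
variable {k V W : Type*} [Field k] [AddCommGroup V] [Module k V] [AddCommGroup W] [Module k W]

/-- Pairing of two functionals with a tensor. -/
noncomputable def pr2 (φ : V →ₗ[k] k) (ψ : W →ₗ[k] k) : V ⊗[k] W →ₗ[k] k :=
  (TensorProduct.lid k k).toLinearMap ∘ₗ TensorProduct.map φ ψ

@[simp] theorem pr2_tmul (φ : V →ₗ[k] k) (ψ : W →ₗ[k] k) (v : V) (w : W) :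
    pr2 φ ψ (v ⊗ₜ w) = φ v * ψ w := by
  simp [pr2]

theorem sep_right {β : Type*} (ψ : β → W →ₗ[k] k) (hψ : ∀ w, (∀ b, ψ b w = 0) → w = 0)
    (t : V ⊗[k] W) (h : ∀ b, TensorProduct.rid k V ((ψ b).lTensor V t) = 0) : t = 0 := by
  classical
  let B := Module.Basis.ofVectorSpace k V
  apply (TensorProduct.equivFinsuppOfBasisLeft B).injective
  ext i
  rw [TensorProduct.equivFinsuppOfBasisLeft_apply]
  simp only [map_zero, Finsupp.coe_zero, Pi.zero_apply]
  apply hψ
  intro b
  have e : ∀ s : V ⊗[k] W, ψ b (TensorProduct.lid k W ((B.coord i).rTensor W s)) =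
      B.coord i (TensorProduct.rid k V ((ψ b).lTensor V s)) := by
    intro s
    induction s with
    | zero => simp
    | tmul v w => simp [mul_comm]
    | add s t hs ht => simp only [map_add, hs, ht]
  rw [e, h b, map_zero]

theorem sep {α β : Type*} (φ : α → V →ₗ[k] k) (ψ : β → W →ₗ[k] k)
    (hφ : ∀ v, (∀ a, φ a v = 0) → v = 0) (hψ : ∀ w, (∀ b, ψ b w = 0) → w = 0)
    (t : V ⊗[k] W) (h : ∀ a b, pr2 (φ a) (ψ b) t = 0) : t = 0 := by
  apply sep_right ψ hψ
  intro b
  apply hφ
  intro a
  have e : ∀ s : V ⊗[k] W, φ a (TensorProduct.rid k V ((ψ b).lTensor V s)) =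
      pr2 (φ a) (ψ b) s := by
    intro s
    induction s with
    | zero => simp
    | tmul v w => simp [mul_comm]
    | add s t hs ht => simp only [map_add, hs, ht]
  rw [e, h]

theorem sep_dual (t : V ⊗[k] W)
    (h : ∀ (φ : V →ₗ[k] k) (ψ : W →ₗ[k] k), pr2 φ ψ t = 0) : t = 0 :=
  sep (fun φ : V →ₗ[k] k => φ) (fun ψ : W →ₗ[k] k => ψ)
    (fun v hv => (Module.forall_dual_apply_eq_zero_iff k v).1 hv)
    (fun w hw => (Module.forall_dual_apply_eq_zero_iff k w).1 hw) t h

end Sep

section Lift
variable {k α V W : Type*} [Field k] [AddCommGroup V] [Module k V] [AddCommGroup W] [Module k W]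

/-- A family that spans and whose relations hold for a second family gives a linear map. -/
theorem exists_lin (v : α → V) (w : α → W) (hv : Submodule.span k (Set.range v) = ⊤)
    (h : ∀ c : α →₀ k, Finsupp.linearCombination k v c = 0 →
      Finsupp.linearCombination k w c = 0) :
    ∃ f : V →ₗ[k] W, ∀ a, f (v a) = w a := by
  have hs : Function.Surjective (Finsupp.linearCombination k v) := by
    rw [← LinearMap.range_eq_top, Finsupp.range_linearCombination, hv]
  refine ⟨((LinearMap.ker (Finsupp.linearCombination k v)).liftQ
    (Finsupp.linearCombination k w) (fun c hc => h c hc)) ∘ₗ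
      ((Finsupp.linearCombination k v).quotKerEquivOfSurjective hs).symm.toLinearMap, ?_⟩
  intro a
  have e : ((Finsupp.linearCombination k v).quotKerEquivOfSurjective hs).symm (v a) =
      Submodule.Quotient.mk (Finsupp.single a 1) := by
    rw [LinearEquiv.symm_apply_eq]
    simp [LinearMap.quotKerEquivOfSurjective]
  simp [e]

theorem ext_span {v : α → V} (hv : Submodule.span k (Set.range v) = ⊤) {f g : V →ₗ[k] W}
    (h : ∀ a, f (v a) = g (v a)) : f = g :=
  LinearMap.ext_on_range hv h

end Lift

section Rel
variable {k I : Type*} [Field k]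

/-- The free algebra on `I`, as the monoid algebra of words. -/
abbrev FA (k I : Type*) [Field k] := MonoidAlgebra k (FreeMonoid I)

/-- A word as an element of the free algebra. -/
noncomputable def fw (k : Type*) [Field k] (l : List I) : FA k I :=
  MonoidAlgebra.single (FreeMonoid.ofList l) 1

theorem fw_append (l l' : List I) : fw k (l ++ l') = fw k l * fw k l' := by
  simp [fw, MonoidAlgebra.single_mul_single, FreeMonoid.ofList_append]

theorem fw_nil : fw k ([] : List I) = 1 := rfl

/-- Coefficient vectors as elements of the free algebra. -/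
noncomputable def toFA (k I : Type*) [Field k] : (List I →₀ k) ≃ₗ[k] FA k I :=
  (Finsupp.domLCongr FreeMonoid.ofList).trans (MonoidAlgebra.coeffLinearEquiv k).symm

theorem toFA_single (l : List I) (c : k) : toFA k I (Finsupp.single l c) = c • fw k l := by
  simp [toFA, fw, MonoidAlgebra.coeffLinearEquiv]

theorem toFA_eq (c : List I →₀ k) : toFA k I c = Finsupp.linearCombination k (fw k) c := by
  induction c using Finsupp.induction_linear with
  | zero => simp
  | add a b ha hb => simp only [map_add, ha, hb]
  | single l c => rw [toFA_single]; simp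

theorem span_fw : Submodule.span k (Set.range (fw k : List I → FA k I)) = ⊤ := by
  rw [← Finsupp.range_linearCombination, LinearMap.range_eq_top]
  intro f
  exact ⟨(toFA k I).symm f, by rw [← toFA_eq]; simp⟩

theorem prod_fw (l : List I) : (l.map fun i => fw k [i]).prod = fw k l := by
  induction l with
  | nil => rfl
  | cons i l ih => rw [List.map_cons, List.prod_cons, ih, ← fw_append]; rfl

theorem fw_mul_toFA (u : List I) (c : List I →₀ k) :
    fw k u * toFA k I c = toFA k I (c.mapDomain (u ++ ·)) := by
  induction c using Finsupp.induction_linear with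
  | zero => simp
  | add a b ha hb => simp only [map_add, mul_add, ha, hb, Finsupp.mapDomain_add]
  | single l c => simp [Finsupp.mapDomain_single, toFA_single, fw_append]

theorem toFA_mul_fw (u : List I) (c : List I →₀ k) :
    toFA k I c * fw k u = toFA k I (c.mapDomain (· ++ u)) := by
  induction c using Finsupp.induction_linear with
  | zero => simp
  | add a b ha hb => simp only [map_add, add_mul, ha, hb, Finsupp.mapDomain_add]
  | single l c => simp [Finsupp.mapDomain_single, toFA_single, fw_append]

variable (A : Submodule k (List I →₀ k))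
  (hL : ∀ (u : List I) (c : List I →₀ k), c ∈ A → c.mapDomain (u ++ ·) ∈ A)
  (hR : ∀ (u : List I) (c : List I →₀ k), c ∈ A → c.mapDomain (· ++ u) ∈ A)

/-- The left ideal of the free algebra given by a space of relations. -/
noncomputable def relId : Ideal (FA k I) where
  carrier := {f | (toFA k I).symm f ∈ A}
  zero_mem' := by simp
  add_mem' := by
    intro a b ha hb
    simp only [Set.mem_ofPred_eq, map_add] at *
    exact A.add_mem ha hb
  smul_mem' := by
    intro r f hf
    simp only [Set.mem_ofPred_eq, smul_eq_mul] at *
    have hr : r ∈ Submodule.span k (Set.range (fw k : List I → FA k I)) := by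
      rw [span_fw]; trivial
    induction hr using Submodule.span_induction with
    | mem x hx =>
      obtain ⟨u, rfl⟩ := hx
      have := fw_mul_toFA u ((toFA k I).symm f)
      rw [LinearEquiv.apply_symm_apply] at this
      rw [this, LinearEquiv.symm_apply_apply]
      exact hL u _ hf
    | zero => simp
    | add x y _ _ hx hy => rw [add_mul, map_add]; exact A.add_mem hx hy
    | smul a x _ hx => rw [smul_mul_assoc, map_smul]; exact A.smul_mem a hx

theorem mem_relId (f : FA k I) : f ∈ relId A hL ↔ (toFA k I).symm f ∈ A := Iff.rfl

include hR in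
theorem relId_two : (relId A hL).IsTwoSided := by
  constructor
  intro f r hf
  rw [mem_relId] at *
  have hr : r ∈ Submodule.span k (Set.range (fw k : List I → FA k I)) := by
    rw [span_fw]; trivial
  induction hr using Submodule.span_induction with
  | mem x hx =>
    obtain ⟨u, rfl⟩ := hx
    have := toFA_mul_fw u ((toFA k I).symm f)
    rw [LinearEquiv.apply_symm_apply] at this
    rw [this, LinearEquiv.symm_apply_apply]
    exact hR u _ hf
  | zero => simp
  | add x y _ _ hx hy => rw [mul_add, map_add]; exact A.add_mem hx hy
  | smul a x _ hx => rw [mul_smul_comm, map_smul]; exact A.smul_mem a hx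

end Rel

universe u

/-- A ring generated by letters with prescribed relations between the words. -/
theorem exists_ring {k I : Type u} [Field k] (A : Submodule k (List I →₀ k))
    (hL : ∀ (u : List I) (c : List I →₀ k), c ∈ A → c.mapDomain (u ++ ·) ∈ A)
    (hR : ∀ (u : List I) (c : List I →₀ k), c ∈ A → c.mapDomain (· ++ u) ∈ A) :
    ∃ (R : Type u) (_ : Ring R) (_ : Algebra k R) (x : I → R),
      Submodule.span k (Set.range fun l : List I => (l.map x).prod) = ⊤ ∧
      ∀ c : List I →₀ k,
        Finsupp.linearCombination k (fun l : List I => (l.map x).prod) c = 0 ↔ c ∈ A := by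
  have := relId_two A hL hR
  have hw : ∀ l : List I, (l.map fun i => Ideal.Quotient.mkₐ k (relId A hL) (fw k [i])).prod =
      Ideal.Quotient.mkₐ k (relId A hL) (fw k l) := by
    intro l
    rw [← prod_fw, map_list_prod, List.map_map]; rfl
  have hc : ∀ c : List I →₀ k, Finsupp.linearCombination k
      (fun l : List I => (l.map fun i => Ideal.Quotient.mkₐ k (relId A hL) (fw k [i])).prod) c =
      Ideal.Quotient.mkₐ k (relId A hL) (toFA k I c) := by
    intro c
    induction c using Finsupp.induction_linear with
    | zero => simp
    | add a b ha hb => simp only [map_add, ha, hb]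
    | single l c => rw [toFA_single, Finsupp.linearCombination_single, hw, map_smul]
  refine ⟨FA k I ⧸ relId A hL, inferInstance, inferInstance,
    fun i => Ideal.Quotient.mkₐ k (relId A hL) (fw k [i]), ?_, ?_⟩
  · rw [← Finsupp.range_linearCombination, LinearMap.range_eq_top]
    intro r
    obtain ⟨f, rfl⟩ := Ideal.Quotient.mkₐ_surjective k (relId A hL) r
    exact ⟨(toFA k I).symm f, by rw [hc]; simp⟩
  · intro c
    rw [hc, Ideal.Quotient.mkₐ_eq_mk, Ideal.Quotient.eq_zero_iff_mem, mem_relId,
      LinearEquiv.symm_apply_apply]

/-- An algebra map from letters that respect the relations. -/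
theorem exists_alg {k I R S : Type*} [Field k] [Ring R] [Algebra k R] [Ring S] [Algebra k S]
    (x : I → R) (y : I → S)
    (hx : Submodule.span k (Set.range fun l : List I => (l.map x).prod) = ⊤)
    (h : ∀ c : List I →₀ k,
      Finsupp.linearCombination k (fun l : List I => (l.map x).prod) c = 0 →
      Finsupp.linearCombination k (fun l : List I => (l.map y).prod) c = 0) :
    ∃ f : R →ₐ[k] S, ∀ i, f (x i) = y i := by
  obtain ⟨f, hf⟩ := exists_lin _ _ hx h
  have h1 : f 1 = 1 := by simpa using hf []
  have hm : ∀ a b, f (a * b) = f a * f b := by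
    have e : (LinearMap.mul k R).compr₂ f = (LinearMap.mul k S).compl₁₂ f f := by
      apply ext_span hx
      intro u
      apply ext_span hx
      intro w
      have := hf (u ++ w)
      simp only [List.map_append, List.prod_append] at this
      simp [this, hf]
    intro a b
    exact congr($e a b)
  refine ⟨AlgHom.ofLinearMap f h1 hm, fun i => ?_⟩
  simpa using hf [i]

end Pool.Agent.Lib.MP_ff61db_al.Pt.C0
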