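import Pool.Agent.Lib.MP_ff61db_al.Pt.Defs
import Pool.Agent.Lib.MP_ff61db_al.Pt.C0
import Pool.Agent.Lib.MP_ff61db_al.Pt.DefsEq

/-! Words, degrees, and pre-Nichols structures from relations. -/

namespace Pool.Agent.Lib.MP_ff61db_al.Pt.C1

open TensorProduct C0

section Words
variable {I : Type}

theorem wd_nil {R : Type} [Monoid R] (x : I → R) : wd x [] = 1 := rfl

theorem wd_cons {R : Type} [Monoid R] (x : I → R) (i : I) (l : List I) :
    wd x (i :: l) = x i * wd x l := by simp [wd]

theorem wd_append {R : Type} [Monoid R] (x : I → R) (l l' : List I) :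
    wd x (l ++ l') = wd x l * wd x l' := by simp [wd]

theorem wd_single {R : Type} [Monoid R] (x : I → R) (i : I) : wd x [i] = x i := by simp [wd]

theorem wd_map {J R : Type} [Monoid R] (x : I → R) (f : J → I) (l : List J) :
    wd x (l.map f) = wd (fun j => x (f j)) l := by
  simp only [wd, List.map_map]; rfl

theorem map_wd {k R S : Type} [Field k] [Ring R] [Algebra k R] [Ring S] [Algebra k S]
    (f : R →ₐ[k] S) (x : I → R) (l : List I) : f (wd x l) = wd (fun i => f (x i)) l := by
  rw [wd, map_list_prod, List.map_map]; rfl

theorem wd_eq_zero {R : Type} [MonoidWithZero R] (x : I → R) (l : List I) (i : I) (hi : i ∈ l)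
    (hx : x i = 0) : wd x l = 0 := by
  induction l with
  | nil => simp at hi
  | cons j l ih =>
    rw [wd_cons]
    rcases List.mem_cons.1 hi with rfl | h
    · rw [hx, zero_mul]
    · rw [ih h, mul_zero]

variable {k : Type} [Field k] {R : Type} [Ring R] [Algebra k R]

theorem lc_single (x : I → R) (l : List I) (c : k) :
    lc k x (Finsupp.single l c) = c • wd x l := by simp [lc]

theorem span_range {x : I → R} (h : wsp k x Set.univ = ⊤) :
    Submodule.span k (Set.range (wd x)) = ⊤ := by
  rw [← Set.image_univ]; exact h

theorem lc_surj {x : I → R} (h : wsp k x Set.univ = ⊤) (a : R) : ∃ c, lc k x c = a := by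
  have : a ∈ LinearMap.range (lc k x) := by
    rw [lc, Finsupp.range_linearCombination, span_range h]; trivial
  exact this

theorem ext_wd {W : Type*} [AddCommGroup W] [Module k W] {x : I → R} (h : wsp k x Set.univ = ⊤)
    {f g : R →ₗ[k] W} (hfg : ∀ l, f (wd x l) = g (wd x l)) : f = g :=
  ext_span (span_range h) hfg

theorem map_lc {W : Type*} [AddCommGroup W] [Module k W] (x : I → R) (f : R →ₗ[k] W)
    (c : List I →₀ k) :
    f (lc k x c) = Finsupp.linearCombination k (fun l => f (wd x l)) c := by
  rw [lc, Finsupp.apply_linearCombination]; rfl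

variable [DecidableEq I]

theorem deg_nil : deg ([] : List I) = 0 := rfl

theorem deg_cons (i : I) (l : List I) : deg (i :: l) = e i + deg l := by simp [deg]

theorem deg_append (l l' : List I) : deg (l ++ l') = deg l + deg l' := by simp [deg]

theorem deg_apply (l : List I) (i : I) : deg l i = (l.count i : ℤ) := by
  induction l with
  | nil => rfl
  | cons j l ih =>
    rw [deg_cons, Pi.add_apply, ih, List.count_cons]
    by_cases h : j = i
    · subst h; simp [e, add_comm]
    · simp [e, h, Ne.symm h]

theorem deg_nonneg (l : List I) : 0 ≤ deg l := fun i => by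
  rw [deg_apply]; exact Int.natCast_nonneg _

theorem deg_eq_zero {l : List I} : deg l = 0 ↔ l = [] := by
  refine ⟨fun h => ?_, fun h => h ▸ rfl⟩
  cases l with
  | nil => rfl
  | cons j l =>
    have := congrFun h j
    rw [deg_apply] at this
    simp at this
    omega

theorem perm_of_deg {l l' : List I} (h : deg l = deg l') : l.Perm l' := by
  rw [List.perm_iff_count]
  intro i
  have := congrFun h i
  rw [deg_apply, deg_apply] at this
  exact_mod_cast this

theorem deg_single (i : I) : deg [i] = e i := by simp [deg]

theorem deg_eq_e {l : List I} {i : I} : deg l = e i ↔ l = [i] := by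
  refine ⟨fun h => ?_, fun h => h ▸ deg_single i⟩
  rw [← deg_single] at h
  exact List.perm_singleton.1 (perm_of_deg h)

theorem finite_deg (μ : I → ℤ) : {l : List I | deg l = μ}.Finite := by
  by_cases h : ∃ l₀ : List I, deg l₀ = μ
  · obtain ⟨l₀, rfl⟩ := h
    refine (l₀.permutations.finite_toSet).subset fun l hl => ?_
    exact List.mem_permutations.2 (perm_of_deg hl)
  · have : {l : List I | deg l = μ} = ∅ := by
      ext l; simpa using fun hl => h ⟨l, hl⟩
    rw [this]; exact Set.finite_empty

omit [DecidableEq I] in
theorem lc_filter (x : I → R) (p : List I → Prop) [DecidablePred p] (c : List I →₀ k) :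
    lc k x (c.filter p) =
      Finsupp.linearCombination k (fun l => if p l then wd x l else 0) c := by
  induction c using Finsupp.induction_linear with
  | zero => simp [Finsupp.filter_zero]
  | add a b ha hb => simp only [Finsupp.filter_add, map_add, ha, hb]
  | single l c =>
    by_cases h : p l
    · simp [Finsupp.filter_single_of_pos _ h, lc_single, h]
    · simp [Finsupp.filter_single_of_neg _ h, h]

end Words

section Sh
variable {I : Type} [Fintype I] [DecidableEq I] {M : Type} [CommGroup M]

omit [DecidableEq I] in
theorem chi_add_right (q : I → I → M) (μ ν ρ : I → ℤ) :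
    chi q μ (ν + ρ) = chi q μ ν * chi q μ ρ := by
  simp only [chi, Pi.add_apply, mul_add, zpow_add, Finset.prod_mul_distrib]

omit [DecidableEq I] in
theorem chi_add_left (q : I → I → M) (μ ν ρ : I → ℤ) :
    chi q (μ + ν) ρ = chi q μ ρ * chi q ν ρ := by
  simp only [chi, Pi.add_apply, add_mul, zpow_add, Finset.prod_mul_distrib]

omit [DecidableEq I] in
theorem chi_zero_right (q : I → I → M) (μ : I → ℤ) : chi q μ 0 = 1 := by simp [chi]

omit [DecidableEq I] in
theorem chi_zero_left (q : I → I → M) (μ : I → ℤ) : chi q 0 μ = 1 := by simp [chi]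

theorem chi_e_e (q : I → I → M) (i j : I) : chi q (e i) (e j) = q i j := by
  unfold chi
  rw [Finset.prod_eq_single i, Finset.prod_eq_single j]
  · simp [e]
  · intro b _ hb; simp [e, hb]
  · simp
  · intro a _ ha; simp [e, ha]
  · simp

theorem chi_e_deg (q : I → I → M) (i : I) (l : List I) :
    chi q (e i) (deg l) = (l.map (q i)).prod := by
  induction l with
  | nil => simp [deg_nil, chi_zero_right]
  | cons j l ih => rw [deg_cons, chi_add_right, chi_e_e, ih]; simp

theorem sh_map {J : Type} [Fintype J] [DecidableEq J] (q : I → I → M) (f : J → I) (l : List J) :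
    sh q (l.map f) =
      (sh (fun a b => q (f a) (f b)) l).map fun p => (p.1, p.2.1.map f, p.2.2.map f) := by
  induction l with
  | nil => rfl
  | cons j l ih =>
    simp only [List.map_cons, sh, ih, List.map_append, List.map_map]
    congr 1
    apply List.map_congr_left
    intro p _
    simp only [Function.comp, List.map_cons, chi_e_deg, List.map_map]
    rfl

end Sh

section Of
variable {k : Type} [Field k] {I : Type} [Fintype I] [DecidableEq I] {q : I → I → kˣ}
  {R : Type} [Ring R] [Algebra k R]

theorem copw_map {J : Type} [Fintype J] [DecidableEq J] (x : I → R) (f : J → I) (l : List J) :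
    copw q x (l.map f) = copw (fun a b => q (f a) (f b)) (fun a => x (f a)) l := by
  simp only [copw, sh_map, List.map_map]
  congr 1
  apply List.map_congr_left
  intro p _
  simp only [Function.comp, wd_map]

theorem map_copw {S : Type} [Ring S] [Algebra k S] (f : R →ₐ[k] S) (x : I → R) (l : List I) :
    TensorProduct.map f.toLinearMap f.toLinearMap (copw q x l) = copw q (fun i => f (x i)) l := by
  simp only [copw, map_list_sum, List.map_map]
  congr 1
  apply List.map_congr_left
  intro p _
  simp [map_wd]

/-- A pre-Nichols structure from properties of the relations. -/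
theorem pn_of_rel (x : I → R) (hs : wsp k x Set.univ = ⊤)
    (hg : ∀ μ c, lc k x c = 0 → lc k x (c.filter fun l => deg l = μ) = 0)
    (he : ∀ c, lc k x c = 0 → c [] = 0)
    (hD : ∀ c, lc k x c = 0 → Finsupp.linearCombination k (copw q x) c = 0) :
    ∃ P : PN k q R, P.x = x := by
  have h1 : ∀ μ, ∃ f : R →ₗ[k] R, ∀ l, f (wd x l) = if deg l = μ then wd x l else 0 := by
    intro μ
    refine exists_lin _ _ (span_range hs) fun c hc => ?_
    rw [← lc_filter]; exact hg μ c hc
  choose pr hpr using h1
  obtain ⟨eps, heps⟩ : ∃ f : R →ₗ[k] k, ∀ l, f (wd x l) = if l = [] then 1 else 0 := by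
    refine exists_lin _ _ (span_range hs) fun c hc => ?_
    have : Finsupp.linearCombination k (fun l : List I => if l = [] then (1 : k) else 0) c
        = c [] := by
      clear hc
      induction c using Finsupp.induction_linear with
      | zero => simp
      | add a b ha hb => simp only [map_add, ha, hb, Finsupp.add_apply]
      | single l c => simp [Finsupp.single_apply]
    rw [this]; exact he c hc
  obtain ⟨D, hD'⟩ := exists_lin _ _ (span_range hs) hD
  exact ⟨⟨x, hs, pr, hpr, eps, heps, D, hD'⟩, rfl⟩

/-- The convolution of two functions on words. -/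
def cw (q : I → I → kˣ) (φ ψ : List I → k) (l : List I) : k :=
  ((sh q l).map fun p => (p.1 : k) * (φ p.2.1 * ψ p.2.2)).sum

theorem pr2_copw (x : I → R) (φ ψ : R →ₗ[k] k) (l : List I) :
    pr2 φ ψ (copw q x l) = cw q (fun l => φ (wd x l)) (fun l => ψ (wd x l)) l := by
  simp only [copw, cw, map_list_sum, List.map_map]
  congr 1
  apply List.map_congr_left
  intro p _
  simp

/-- The coideal property follows from closure of the annihilator under convolution. -/
theorem coid_of_dual (x : I → R)
    (h : ∀ φ ψ : List I → k, (∀ c, lc k x c = 0 → Finsupp.linearCombination k φ c = 0) →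
      (∀ c, lc k x c = 0 → Finsupp.linearCombination k ψ c = 0) →
      ∀ c, lc k x c = 0 → Finsupp.linearCombination k (cw q φ ψ) c = 0) :
    ∀ c, lc k x c = 0 → Finsupp.linearCombination k (copw q x) c = 0 := by
  intro c hc
  apply sep_dual
  intro φ ψ
  rw [Finsupp.apply_linearCombination]
  have : (pr2 φ ψ ∘ copw q x) = cw q (fun l => φ (wd x l)) (fun l => ψ (wd x l)) := by
    funext l; exact pr2_copw x φ ψ l
  rw [this]
  apply h _ _ _ _ c hc
  · intro c hc; rw [← map_lc, hc, map_zero]
  · intro c hc; rw [← map_lc, hc, map_zero]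

end Of

end Pool.Agent.Lib.MP_ff61db_al.Pt.C1
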