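import Pool.Agent.Lib.MP_ff61db_al.Pt.C1

/-! Calculus of skew derivations in a pre-Nichols algebra, as needed for the constructions. -/

namespace Pool.Agent.Lib.MP_ff61db_al.Pt.C2

open TensorProduct C0 C1

variable {k : Type} [Field k] {I : Type} [Fintype I] [DecidableEq I] {q : I → I → kˣ}
  {R : Type} [Ring R] [Algebra k R] (P : PN k q R)

theorem ext_P {W : Type*} [AddCommGroup W] [Module k W] {f g : R →ₗ[k] W}
    (h : ∀ l, f (wd P.x l) = g (wd P.x l)) : f = g := ext_wd P.span h

/-- Induction over the letters from the left. -/
theorem ind_left {W : Type*} [AddCommGroup W] [Module k W] {f g : R →ₗ[k] W} (h1 : f 1 = g 1)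
    (h : ∀ i l, f (wd P.x l) = g (wd P.x l) → f (P.x i * wd P.x l) = g (P.x i * wd P.x l)) :
    f = g := by
  apply ext_P P
  intro l
  induction l with
  | nil => exact h1
  | cons i l ih => rw [wd_cons]; exact h i l ih

theorem pr_lc (μ : I → ℤ) (c : List I →₀ k) :
    P.pr μ (lc k P.x c) = lc k P.x (c.filter fun l => deg l = μ) := by
  rw [map_lc, lc_filter]; simp only [P.pr_wd]

theorem exists_sc (f : (I → ℤ) → k) :
    ∃ g : R →ₗ[k] R, ∀ l, g (wd P.x l) = f (deg l) • wd P.x l := by
  classical
  refine exists_lin _ _ (span_range P.span) fun c hc => ?_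
  have key : ∀ (S : Finset (I → ℤ)) (c : List I →₀ k), (∀ l ∈ c.support, deg l ∈ S) →
      Finsupp.linearCombination k (fun l => f (deg l) • wd P.x l) c =
        ∑ μ ∈ S, f μ • P.pr μ (lc k P.x c) := by
    intro S c hS
    simp only [map_lc, Finsupp.linearCombination_apply, Finsupp.sum, Finset.smul_sum]
    rw [Finset.sum_comm]
    refine Finset.sum_congr rfl fun l hl => ?_
    rw [Finset.sum_eq_single (deg l)]
    · rw [P.pr_wd, if_pos rfl, smul_comm]
    · intro μ _ hμ; rw [P.pr_wd, if_neg (Ne.symm hμ)]; simp
    · intro h; exact absurd (hS l hl) h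
  rw [key (c.support.image deg) c fun l hl => Finset.mem_image_of_mem _ hl]
  have : lc k P.x c = 0 := hc
  simp [this]

/-- Scaling of the homogeneous components. -/
noncomputable def sc (f : (I → ℤ) → k) : R →ₗ[k] R := (exists_sc P f).choose

theorem sc_wd (f : (I → ℤ) → k) (l : List I) : sc P f (wd P.x l) = f (deg l) • wd P.x l :=
  (exists_sc P f).choose_spec l

/-- Scaling by the character of a letter. -/
noncomputable def gl (i : I) : R →ₗ[k] R := sc P fun μ => ((chi q (e i) μ : kˣ) : k)

theorem gl_wd (i : I) (l : List I) :
    gl P i (wd P.x l) = ((chi q (e i) (deg l) : kˣ) : k) • wd P.x l := sc_wd P _ l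

theorem gl_one (i : I) : gl P i 1 = 1 := by
  have := gl_wd P i []
  rwa [deg_nil, chi_zero_right, Units.val_one, one_smul] at this

theorem gl_left (i j : I) (a : R) : gl P i (P.x j * a) = (q i j : k) • (P.x j * gl P i a) := by
  have : gl P i ∘ₗ LinearMap.mulLeft k (P.x j) =
      (q i j : k) • (LinearMap.mulLeft k (P.x j) ∘ₗ gl P i) := by
    apply ext_P P
    intro l
    simp only [LinearMap.comp_apply, LinearMap.mulLeft_apply, LinearMap.smul_apply, ← wd_cons,
      gl_wd, mul_smul_comm, deg_cons, chi_add_right, chi_e_e, smul_smul, Units.val_mul]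
  exact congr($this a)

theorem gl_right (i j : I) (a : R) : gl P i (a * P.x j) = (q i j : k) • (gl P i a * P.x j) := by
  have : gl P i ∘ₗ LinearMap.mulRight k (P.x j) =
      (q i j : k) • (LinearMap.mulRight k (P.x j) ∘ₗ gl P i) := by
    apply ext_P P
    intro l
    have h : wd P.x l * P.x j = wd P.x (l ++ [j]) := by rw [wd_append, wd_single]
    simp only [LinearMap.comp_apply, LinearMap.mulRight_apply, LinearMap.smul_apply, h,
      gl_wd, smul_mul_assoc, deg_append, deg_single, chi_add_right, chi_e_e, smul_smul,
      Units.val_mul, mul_comm]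
  exact congr($this a)

theorem eps_one : P.eps 1 = 1 := by simpa [wd_nil] using P.eps_wd []

theorem eps_left (j : I) (a : R) : P.eps (P.x j * a) = 0 := by
  have : P.eps ∘ₗ LinearMap.mulLeft k (P.x j) = 0 := by
    apply ext_P P
    intro l
    simp [← wd_cons, P.eps_wd]
  exact congr($this a)

theorem eps_right (j : I) (a : R) : P.eps (a * P.x j) = 0 := by
  have : P.eps ∘ₗ LinearMap.mulRight k (P.x j) = 0 := by
    apply ext_P P
    intro l
    have h : wd P.x l * P.x j = wd P.x (l ++ [j]) := by rw [wd_append, wd_single]
    simp [h, P.eps_wd]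
  exact congr($this a)

theorem D_one : P.D 1 = 1 ⊗ₜ 1 := by
  have := P.D_wd []
  simpa [copw, sh, wd_nil] using this

theorem D_left (j : I) (a : R) : P.D (P.x j * a) =
    (LinearMap.mulLeft k (P.x j)).rTensor R (P.D a) +
      TensorProduct.map (gl P j) (LinearMap.mulLeft k (P.x j)) (P.D a) := by
  have : P.D ∘ₗ LinearMap.mulLeft k (P.x j) = (LinearMap.mulLeft k (P.x j)).rTensor R ∘ₗ P.D +
      TensorProduct.map (gl P j) (LinearMap.mulLeft k (P.x j)) ∘ₗ P.D := by
    apply ext_P P
    intro l
    simp only [LinearMap.comp_apply, LinearMap.mulLeft_apply, LinearMap.add_apply, ← wd_cons,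
      P.D_wd, copw, sh, List.map_append, List.sum_append, List.map_map, map_list_sum]
    congr 2
    · apply List.map_congr_left
      intro p _
      simp [wd_cons]
    · apply List.map_congr_left
      intro p _
      simp [wd_cons, gl_wd, smul_smul, TensorProduct.smul_tmul', mul_comm]
  exact congr($this a)

theorem counit_right (a : R) : TensorProduct.rid k R (P.eps.lTensor R (P.D a)) = a := by
  have : (TensorProduct.rid k R).toLinearMap ∘ₗ P.eps.lTensor R ∘ₗ P.D = LinearMap.id := by
    apply ind_left P
    · simp [D_one, eps_one]
    · intro i l ih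
      simp only [LinearMap.comp_apply, LinearEquiv.coe_coe, LinearMap.id_apply] at ih ⊢
      have e1 : ∀ t : R ⊗[k] R, TensorProduct.rid k R (P.eps.lTensor R
          ((LinearMap.mulLeft k (P.x i)).rTensor R t +
            TensorProduct.map (gl P i) (LinearMap.mulLeft k (P.x i)) t)) =
          P.x i * TensorProduct.rid k R (P.eps.lTensor R t) := by
        intro t
        induction t with
        | zero => simp
        | tmul a b => simp [eps_left]
        | add s t hs ht =>
          simp only [map_add, mul_add] at hs ht ⊢
          rw [← hs, ← ht]; abel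
      rw [D_left, e1, ih]
  exact congr($this a)

theorem co_wd (hP : P.Alive) (i : I) (l : List I) :
    P.co i (wd P.x l) = if l = [i] then 1 else 0 := by
  have h : ∃ f : R →ₗ[k] k, ∀ l, f (wd P.x l) = if l = [i] then 1 else 0 := by
    refine exists_lin _ _ (span_range P.span) fun c hc => ?_
    have h0 : lc k P.x c = 0 := hc
    have h1 := pr_lc P (e i) c
    have h2 : (c.filter fun l => deg l = e i) = Finsupp.single [i] (c [i]) := by
      ext l
      by_cases hl : l = [i]
      · subst hl; simp [deg_single]
      · simp [deg_eq_e, hl]
    rw [h0, map_zero, h2, lc_single, wd_single] at h1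
    have h3 : c [i] = 0 := (smul_eq_zero.1 h1.symm).resolve_right (hP i)
    have : Finsupp.linearCombination k (fun l : List I => if l = [i] then (1 : k) else 0) c
        = c [i] := by
      clear hc h0 h1 h2 h3
      induction c using Finsupp.induction_linear with
      | zero => simp
      | add a b ha hb => simp only [map_add, ha, hb, Finsupp.add_apply]
      | single l c => simp [Finsupp.single_apply]
    rw [this, h3]
  have h' : P.co i = h.choose := by
    unfold PN.co
    rw [dif_pos (by convert h)]
  rw [h']; exact h.choose_spec l

theorem co_one (hP : P.Alive) (i : I) : P.co i 1 = 0 := by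
  simpa [wd_nil] using co_wd P hP i []

theorem co_left (hP : P.Alive) (i j : I) (a : R) :
    P.co i (P.x j * a) = if i = j then P.eps a else 0 := by
  have : P.co i ∘ₗ LinearMap.mulLeft k (P.x j) = if i = j then P.eps else 0 := by
    apply ext_P P
    intro l
    simp only [LinearMap.comp_apply, LinearMap.mulLeft_apply, ← wd_cons, co_wd P hP]
    by_cases h : i = j
    · subst h; simp [P.eps_wd]
    · simp [h, Ne.symm h]
  have h2 := congr($this a)
  by_cases h : i = j
  · simpa [h] using h2
  · simpa [h] using h2

theorem del_apply (i : I) (a : R) :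
    P.del i a = TensorProduct.rid k R ((P.co i).lTensor R (P.D a)) := rfl

theorem del_one (hP : P.Alive) (i : I) : P.del i 1 = 0 := by
  simp [del_apply, D_one, co_one P hP]

theorem del_left (hP : P.Alive) (i j : I) (a : R) :
    P.del i (P.x j * a) = P.x j * P.del i a + if i = j then gl P j a else 0 := by
  have e1 : ∀ t : R ⊗[k] R, TensorProduct.rid k R ((P.co i).lTensor R
      ((LinearMap.mulLeft k (P.x j)).rTensor R t +
        TensorProduct.map (gl P j) (LinearMap.mulLeft k (P.x j)) t)) =
      P.x j * TensorProduct.rid k R ((P.co i).lTensor R t) +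
        if i = j then gl P j (TensorProduct.rid k R (P.eps.lTensor R t)) else 0 := by
    intro t
    induction t with
    | zero => simp
    | tmul a b => by_cases h : i = j <;> simp [co_left P hP, h]
    | add s t hs ht =>
      simp only [map_add, mul_add] at hs ht ⊢
      rw [add_add_add_comm, hs, ht]
      split_ifs <;> abel
  rw [del_apply, D_left, e1, counit_right, ← del_apply]

theorem del_right (hP : P.Alive) (i j : I) (a : R) :
    P.del i (a * P.x j) = (q i j : k) • (P.del i a * P.x j) + if i = j then a else 0 := by
  have : P.del i ∘ₗ LinearMap.mulRight k (P.x j) =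
      (q i j : k) • (LinearMap.mulRight k (P.x j) ∘ₗ P.del i) +
        if i = j then LinearMap.id else 0 := by
    apply ind_left P
    · have := del_left P hP i j 1
      by_cases h : i = j <;> simpa [h, del_one P hP, gl_one] using this
    · intro m l ih
      by_cases h : i = j
      · subst h
        simp only [if_true, LinearMap.comp_apply, LinearMap.mulRight_apply, LinearMap.add_apply,
          LinearMap.smul_apply, LinearMap.id_apply] at ih ⊢
        rw [mul_assoc, del_left P hP, ih, del_left P hP]
        by_cases hm : i = m
        · subst hm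
          simp only [if_true, gl_right, mul_add, add_mul, smul_add, mul_smul_comm, mul_assoc]
          abel
        · simp only [if_neg hm, mul_add, add_zero, mul_smul_comm, mul_assoc]
      · simp only [if_neg h, LinearMap.comp_apply, LinearMap.mulRight_apply, add_zero,
          LinearMap.smul_apply] at ih ⊢
        rw [mul_assoc, del_left P hP, ih, del_left P hP]
        by_cases hm : i = m
        · subst hm
          simp only [if_true, gl_right, add_mul, smul_add, mul_smul_comm, mul_assoc]
        · simp only [if_neg hm, add_zero, mul_smul_comm, mul_assoc]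
  have h2 := congr($this a)
  by_cases h : i = j
  · simpa [h] using h2
  · simpa [h] using h2

theorem D_gl (j : I) (a : R) :
    P.D (gl P j a) = TensorProduct.map (gl P j) (gl P j) (P.D a) := by
  have : P.D ∘ₗ gl P j = TensorProduct.map (gl P j) (gl P j) ∘ₗ P.D := by
    apply ind_left P
    · simp [gl_one, D_one]
    · intro i l ih
      simp only [LinearMap.comp_apply] at ih ⊢
      rw [gl_left, map_smul, D_left, D_left, ih]
      generalize P.D (wd P.x l) = t
      have hc : ∀ a, gl P i (gl P j a) = gl P j (gl P i a) := by
        have : gl P i ∘ₗ gl P j = gl P j ∘ₗ gl P i := by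
          apply ext_P P
          intro l
          simp [gl_wd, smul_smul, mul_comm]
        intro a; exact congr($this a)
      induction t with
      | zero => simp
      | tmul a b => simp [gl_left, hc, TensorProduct.smul_tmul']
      | add s t hs ht =>
        simp only [map_add, smul_add] at hs ht ⊢
        rw [add_add_add_comm, hs, ht]; abel
  exact congr($this a)

theorem D_del (hP : P.Alive) (j : I) (a : R) :
    P.D (P.del j a) = (P.del j).lTensor R (P.D a) := by
  have : P.D ∘ₗ P.del j = (P.del j).lTensor R ∘ₗ P.D := by
    apply ind_left P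
    · simp [del_one P hP, D_one]
    · intro i l ih
      simp only [LinearMap.comp_apply] at ih ⊢
      rw [del_left P hP, map_add, D_left, D_left, ih]
      have h0 : P.D (if j = i then gl P i (wd P.x l) else 0) =
          if j = i then TensorProduct.map (gl P i) (gl P i) (P.D (wd P.x l)) else 0 := by
        split_ifs
        · exact D_gl P i _
        · exact map_zero _
      rw [h0]
      generalize P.D (wd P.x l) = t
      induction t with
      | zero => simp
      | tmul a b =>
        by_cases h : j = i <;> simp [del_left P hP, h, TensorProduct.tmul_add, add_assoc]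
      | add s t hs ht =>
        simp only [map_add] at hs ht ⊢
        rw [add_add_add_comm ((P.del j).lTensor R _), ← hs, ← ht]
        split_ifs <;> abel
  exact congr($this a)

theorem dels_nil : P.dels [] = LinearMap.id := rfl

theorem dels_append (u w : List I) (a : R) : P.dels (u ++ w) a = P.dels u (P.dels w a) := by
  simp [PN.dels]

theorem dels_single (j : I) : P.dels [j] = P.del j := by simp [PN.dels]

theorem dels_concat (u : List I) (j : I) (a : R) :
    P.dels (u ++ [j]) a = P.dels u (P.del j a) := by rw [dels_append, dels_single]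

theorem dels_cons (u : List I) (j : I) (a : R) :
    P.dels (j :: u) a = P.del j (P.dels u a) := by simp [PN.dels]

theorem D_dels (hP : P.Alive) (w : List I) (a : R) :
    P.D (P.dels w a) = (P.dels w).lTensor R (P.D a) := by
  induction w with
  | nil => simp [dels_nil]
  | cons j w ih =>
    rw [dels_cons, D_del P hP, ih, ← LinearMap.lTensor_comp_apply]
    congr 2

theorem pr2_D (hP : P.Alive) (u w : List I) (a : R) :
    pr2 (P.eps ∘ₗ P.dels u) (P.eps ∘ₗ P.dels w) (P.D a) = P.eps (P.dels (u ++ w) a) := by
  have e1 : ∀ t : R ⊗[k] R, pr2 (P.eps ∘ₗ P.dels u) (P.eps ∘ₗ P.dels w) t =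
      P.eps (P.dels u (TensorProduct.rid k R (P.eps.lTensor R ((P.dels w).lTensor R t)))) := by
    intro t
    induction t with
    | zero => simp
    | tmul a b => simp [mul_comm]
    | add s t hs ht => simp only [map_add, hs, ht]
  rw [e1, ← D_dels P hP, counit_right, dels_append]

end Pool.Agent.Lib.MP_ff61db_al.Pt.C2
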