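import Pool.Agent.Lib.MP_ff61db_al.Pt.Constr

/-! The functionals defining the Nichols quotient. -/

namespace Pool.Agent.Lib.MP_ff61db_al.Pt.C4

open TensorProduct

variable {k : Type} [Field k] {I : Type} [Fintype I] [DecidableEq I] {q : I → I → kˣ}
  {R : Type} [Ring R] [Algebra k R] (P : PN k q R)

theorem wd_mem (l : List I) : wd P.x l ∈ P.piece (deg l) := Submodule.subset_span ⟨l, rfl, rfl⟩

theorem map_piece {W : Type*} [AddCommGroup W] [Module k W] (f : R →ₗ[k] W) (U : Submodule k W)
    {μ : I → ℤ} (h : ∀ l, deg l = μ → f (wd P.x l) ∈ U) {a : R} (ha : a ∈ P.piece μ) :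
    f a ∈ U := by
  have : P.piece μ ≤ U.comap f := by
    rw [PN.piece, wsp, Submodule.span_le]
    rintro _ ⟨l, hl, rfl⟩
    exact h l hl
  exact this ha

theorem x_mul_mem (j : I) {μ : I → ℤ} {a : R} (ha : a ∈ P.piece μ) :
    P.x j * a ∈ P.piece (e j + μ) :=
  map_piece P (LinearMap.mulLeft k (P.x j)) _ (fun l hl => by
    rw [LinearMap.mulLeft_apply, ← C1.wd_cons, ← hl, ← C1.deg_cons]; exact wd_mem P _) ha

theorem del_mem (hP : P.Alive) (i : I) {μ : I → ℤ} {a : R} (ha : a ∈ P.piece μ) :
    P.del i a ∈ P.piece (μ - e i) := by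
  refine map_piece P _ _ (fun l hl => ?_) ha
  subst hl
  clear ha
  induction l with
  | nil => rw [C1.wd_nil, C2.del_one P hP]; exact Submodule.zero_mem _
  | cons j l ih =>
    rw [C1.wd_cons, C2.del_left P hP, C1.deg_cons]
    refine Submodule.add_mem _ ?_ ?_
    · rw [add_sub_assoc]; exact x_mul_mem P j ih
    · split_ifs with h
      · subst h
        rw [C2.gl_wd, add_sub_cancel_left]
        exact Submodule.smul_mem _ _ (wd_mem P l)
      · exact Submodule.zero_mem _

theorem dels_mem (hP : P.Alive) (w : List I) {μ : I → ℤ} {a : R} (ha : a ∈ P.piece μ) :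
    P.dels w a ∈ P.piece (μ - deg w) := by
  induction w with
  | nil => simpa [C2.dels_nil, C1.deg_nil] using ha
  | cons j w ih =>
    rw [C2.dels_cons, C1.deg_cons, add_comm, ← sub_sub]
    exact del_mem P hP j ih

theorem eps_piece {μ : I → ℤ} {a : R} (ha : a ∈ P.piece μ) (hμ : μ ≠ 0) : P.eps a = 0 :=
  (Submodule.mem_bot k).1 <| map_piece P P.eps ⊥ (fun l hl => by
    rw [P.eps_wd, if_neg]
    · exact Submodule.zero_mem _
    · rintro rfl; exact hμ hl.symm) ha

theorem eq_smul_one {a : R} (ha : a ∈ P.piece 0) : a = P.eps a • (1 : R) := by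
  have := map_piece P (LinearMap.id - P.eps.smulRight (1 : R)) ⊥ (fun l hl => by
    rw [C1.deg_eq_zero.1 hl]
    simp [C1.wd_nil, C2.eps_one]) ha
  simpa [sub_eq_zero] using this

/-- The functional attached to a word. -/
noncomputable def ph (w : List I) : R →ₗ[k] k := P.eps ∘ₗ P.dels w

theorem ph_apply (w : List I) (a : R) : ph P w a = P.eps (P.dels w a) := rfl

theorem ph_nil (a : R) : ph P [] a = P.eps a := rfl

theorem ph_concat (w : List I) (j : I) (a : R) : ph P (w ++ [j]) a = ph P w (P.del j a) := by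
  rw [ph_apply, C2.dels_concat]; rfl

theorem ph_piece (hP : P.Alive) (w : List I) {μ : I → ℤ} {a : R} (ha : a ∈ P.piece μ)
    (h : deg w ≠ μ) : ph P w a = 0 :=
  eps_piece P (dels_mem P hP w ha) (sub_ne_zero.2 (Ne.symm h))

theorem ph_pr (hP : P.Alive) (w : List I) (μ : I → ℤ) (a : R) :
    ph P w (P.pr μ a) = if deg w = μ then ph P w a else 0 := by
  have : ph P w ∘ₗ P.pr μ = if deg w = μ then ph P w else 0 := by
    apply C2.ext_P P
    intro l
    rw [LinearMap.comp_apply, P.pr_wd]
    by_cases h1 : deg w = μ <;> by_cases h2 : deg l = μ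
    · simp [h1, h2]
    · simp only [if_pos h1, if_neg h2, map_zero]
      exact (ph_piece P hP w (wd_mem P l) fun h => h2 (h ▸ h1)).symm
    · simp only [if_neg h1, if_pos h2, LinearMap.zero_apply]
      exact ph_piece P hP w (wd_mem P l) fun h => h1 (h ▸ h2)
    · simp [h1, h2]
  have h2 := congr($this a)
  split_ifs at h2 ⊢ <;> exact h2

theorem ph_gl (hP : P.Alive) (w : List I) (i : I) (a : R) :
    ph P w (C2.gl P i a) = ((chi q (e i) (deg w) : kˣ) : k) * ph P w a := by
  have : ph P w ∘ₗ C2.gl P i = ((chi q (e i) (deg w) : kˣ) : k) • ph P w := by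
    apply C2.ext_P P
    intro l
    rw [LinearMap.comp_apply, C2.gl_wd, map_smul, LinearMap.smul_apply]
    by_cases h : deg w = deg l
    · rw [h]
    · rw [ph_piece P hP w (wd_mem P l) h]; simp
  exact congr($this a)

theorem mem_JS {A : Set I} {a : R} :
    a ∈ P.JS A ↔ ∀ w : List I, (∀ i ∈ w, i ∈ A) → ph P w a = 0 := by
  simp only [PN.JS, Submodule.mem_iInf, LinearMap.mem_ker]
  rfl

theorem JS_del {A : Set I} {a : R} (ha : a ∈ P.JS A) {j : I} (hj : j ∈ A) :
    P.del j a ∈ P.JS A := by
  rw [mem_JS] at ha ⊢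
  intro w hw
  rw [← ph_concat]
  refine ha _ fun i hi => ?_
  rcases List.mem_append.1 hi with h | h
  · exact hw i h
  · rw [List.mem_singleton.1 h]; exact hj

theorem JS_gl (hP : P.Alive) {A : Set I} {a : R} (ha : a ∈ P.JS A) (j : I) :
    C2.gl P j a ∈ P.JS A := by
  rw [mem_JS] at ha ⊢
  intro w hw
  rw [ph_gl P hP, ha w hw, mul_zero]

theorem mem_JS_of {A : Set I} {a : R} (h0 : P.eps a = 0) (h : ∀ j ∈ A, P.del j a ∈ P.JS A) :
    a ∈ P.JS A := by
  rw [mem_JS]
  intro w hw
  induction w using List.reverseRecOn with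
  | nil => exact h0
  | append_singleton w j _ =>
    rw [ph_concat]
    exact (mem_JS P).1 (h j (hw j (by simp))) w fun i hi => hw i (by simp [hi])

theorem JS_x_mul (hP : P.Alive) {A : Set I} (j : I) {a : R} (ha : a ∈ P.JS A) :
    P.x j * a ∈ P.JS A := by
  rw [mem_JS]
  intro w
  induction w using List.reverseRecOn generalizing a with
  | nil => intro _; exact C2.eps_left P j a
  | append_singleton w i ih =>
    intro hw
    have hw' : ∀ i ∈ w, i ∈ A := fun i hi => hw i (by simp [hi])
    rw [ph_concat, C2.del_left P hP, map_add, ih (JS_del P ha (hw i (by simp))) hw', zero_add]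
    split_ifs
    · exact (mem_JS P).1 (JS_gl P hP ha j) w hw'
    · exact map_zero _

theorem JS_mul_x (hP : P.Alive) {A : Set I} (j : I) {a : R} (ha : a ∈ P.JS A) :
    a * P.x j ∈ P.JS A := by
  rw [mem_JS]
  intro w
  induction w using List.reverseRecOn generalizing a with
  | nil => intro _; exact C2.eps_right P j a
  | append_singleton w i ih =>
    intro hw
    have hw' : ∀ i ∈ w, i ∈ A := fun i hi => hw i (by simp [hi])
    rw [ph_concat, C2.del_right P hP, map_add, map_smul,
      ih (JS_del P ha (hw i (by simp))) hw', smul_zero, zero_add]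
    split_ifs
    · exact (mem_JS P).1 ha w hw'
    · exact map_zero _

theorem left_of_x {N : Submodule k R} (h : ∀ j, ∀ a ∈ N, P.x j * a ∈ N) {a : R} (ha : a ∈ N)
    (b : R) : b * a ∈ N := by
  have : N.mkQ ∘ₗ LinearMap.mulRight k a = 0 := by
    apply C2.ext_P P
    intro l
    simp only [LinearMap.comp_apply, LinearMap.mulRight_apply, LinearMap.zero_apply,
      Submodule.mkQ_apply, Submodule.Quotient.mk_eq_zero]
    induction l with
    | nil => rwa [C1.wd_nil, one_mul]
    | cons j l ih => rw [C1.wd_cons, mul_assoc]; exact h j _ ih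
  exact (Submodule.Quotient.mk_eq_zero N).1 congr($this b)

theorem right_of_x {N : Submodule k R} (h : ∀ j, ∀ a ∈ N, a * P.x j ∈ N) {a : R} (ha : a ∈ N)
    (b : R) : a * b ∈ N := by
  have : N.mkQ ∘ₗ LinearMap.mulLeft k a = 0 := by
    apply C2.ext_P P
    intro l
    simp only [LinearMap.comp_apply, LinearMap.mulLeft_apply, LinearMap.zero_apply,
      Submodule.mkQ_apply, Submodule.Quotient.mk_eq_zero]
    induction l generalizing a with
    | nil => rwa [C1.wd_nil, mul_one]
    | cons j l ih => rw [C1.wd_cons, ← mul_assoc]; exact ih (h j _ ha)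
  exact (Submodule.Quotient.mk_eq_zero N).1 congr($this b)

/-- The functionals on the quotient. -/
noncomputable def phq (A : Set I) (w : {w : List I // ∀ i ∈ w, i ∈ A}) : (R ⧸ P.JS A) →ₗ[k] k :=
  (P.JS A).liftQ (ph P w.1) fun _ ha => (mem_JS P).1 ha w.1 w.2

theorem phq_mk (A : Set I) (w : {w : List I // ∀ i ∈ w, i ∈ A}) (a : R) :
    phq P A w ((P.JS A).mkQ a) = ph P w.1 a := rfl

theorem phq_sep (A : Set I) (b : R ⧸ P.JS A) (h : ∀ w, phq P A w b = 0) : b = 0 := by
  obtain ⟨a, rfl⟩ := (P.JS A).mkQ_surjective b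
  rw [Submodule.mkQ_apply, Submodule.Quotient.mk_eq_zero, mem_JS]
  exact fun w hw => h ⟨w, hw⟩

theorem ph_one (hP : P.Alive) (w : List I) (j : I) : ph P (w ++ [j]) 1 = 0 := by
  rw [ph_concat, C2.del_one P hP, map_zero]

theorem rid_ph (hP : P.Alive) (w : List I) (a : R) :
    TensorProduct.rid k R ((ph P w).lTensor R (P.D a)) = P.dels w a := by
  rw [ph, LinearMap.lTensor_comp_apply, ← C2.D_dels P hP, C2.counit_right]

theorem del_x (hP : P.Alive) (j : I) : P.del j (P.x j) = 1 := by
  have := C2.del_left P hP j j 1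
  rwa [mul_one, C2.del_one P hP, mul_zero, zero_add, if_pos rfl, C2.gl_one] at this

theorem x_not_mem (hP : P.Alive) {A : Set I} {j : I} (hj : j ∈ A) : P.x j ∉ P.JS A := by
  intro h
  have h1 := (mem_JS P).1 (JS_del P h hj) [] (by simp)
  rw [del_x P hP, ph_nil, C2.eps_one] at h1
  exact one_ne_zero h1

theorem piece_le_JS (hP : P.Alive) {A : Set I} {μ : I → ℤ} {i : I} (hi : μ i ≠ 0) (hA : i ∉ A) :
    P.piece μ ≤ P.JS A := by
  intro a ha
  rw [mem_JS]
  intro w hw
  refine ph_piece P hP w ha fun h => hi ?_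
  rw [← h, C1.deg_apply, List.count_eq_zero.2 fun h => hA (hw i h)]; rfl

section Hom
variable {J : Type} [Fintype J] [DecidableEq J] {q' : J → J → kˣ} {R' : Type} [Ring R']
  [Algebra k R'] (P' : PN k q' R') (π : R →ₐ[k] R') (f : J → I)
  (hq : ∀ a b, q' a b = q (f a) (f b)) (h1 : ∀ j, π (P.x (f j)) = P'.x j)
  (h0 : ∀ i, (∀ j, f j ≠ i) → π (P.x i) = 0)

include h1 h0 in
theorem hom_eps (a : R) : P'.eps (π a) = P.eps a := by
  have : P'.eps ∘ₗ π.toLinearMap = P.eps := by
    apply C2.ind_left P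
    · simp [C2.eps_one]
    · intro i l _
      simp only [LinearMap.comp_apply, AlgHom.toLinearMap_apply, map_mul, C2.eps_left]
      by_cases h : ∃ j, f j = i
      · obtain ⟨j, rfl⟩ := h
        rw [h1, C2.eps_left]
      · rw [h0 i fun j hj => h ⟨j, hj⟩, zero_mul, map_zero]
  exact congr($this a)

include hq h1 h0 in
theorem hom_gl (j : J) (a : R) : C2.gl P' j (π a) = π (C2.gl P (f j) a) := by
  have : C2.gl P' j ∘ₗ π.toLinearMap = π.toLinearMap ∘ₗ C2.gl P (f j) := by
    apply C2.ind_left P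
    · simp [C2.gl_one]
    · intro i l ih
      simp only [LinearMap.comp_apply, AlgHom.toLinearMap_apply, map_mul, C2.gl_left,
        map_smul] at ih ⊢
      by_cases h : ∃ j, f j = i
      · obtain ⟨j', rfl⟩ := h
        rw [h1, C2.gl_left, ih, hq]
      · rw [h0 i fun j hj => h ⟨j, hj⟩]; simp
  exact congr($this a)

include hq h1 h0 in
theorem hom_del (hf : Function.Injective f) (hP : P.Alive) (hP' : P'.Alive) (j : J) (a : R) :
    P'.del j (π a) = π (P.del (f j) a) := by
  have : P'.del j ∘ₗ π.toLinearMap = π.toLinearMap ∘ₗ P.del (f j) := by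
    apply C2.ind_left P
    · simp [C2.del_one P hP, C2.del_one P' hP']
    · intro i l ih
      simp only [LinearMap.comp_apply, AlgHom.toLinearMap_apply, map_mul, C2.del_left P hP,
        map_add] at ih ⊢
      by_cases h : ∃ j, f j = i
      · obtain ⟨j', rfl⟩ := h
        rw [h1, C2.del_left P' hP', ih]
        by_cases hj : j = j'
        · subst hj
          rw [if_pos rfl, if_pos rfl, hom_gl P P' π f hq h1 h0]
        · rw [if_neg hj, if_neg (hf.ne hj), map_zero]
      · rw [h0 i fun j hj => h ⟨j, hj⟩, if_neg fun hj => h ⟨j, hj⟩]; simp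
  exact congr($this a)

include hq h1 h0 in
theorem hom_ph (hf : Function.Injective f) (hP : P.Alive) (hP' : P'.Alive) (w : List J) (a : R) :
    ph P' w (π a) = ph P (w.map f) a := by
  induction w using List.reverseRecOn generalizing a with
  | nil => exact hom_eps P P' π f h1 h0 a
  | append_singleton w j ih =>
    rw [List.map_append, List.map_singleton, ph_concat, ph_concat,
      hom_del P P' π f hq h1 h0 hf hP hP', ih]

include hq h1 h0 in
theorem nich_of (hf : Function.Injective f) (hP : P.Alive) (hs : Function.Surjective π)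
    (hk : ∀ a, π a = 0 ↔ a ∈ P.JS (Set.range f)) : P'.Nich := by
  have hP' : P'.Alive := fun j h => x_not_mem P hP (Set.mem_range_self j) ((hk _).1 (by rw [h1, h]))
  refine ⟨hP', fun b he hd => ?_⟩
  obtain ⟨a, rfl⟩ := hs b
  rw [hk]
  refine mem_JS_of P (by rw [← hom_eps P P' π f h1 h0, he]) ?_
  rintro _ ⟨j, rfl⟩
  rw [← hk, ← hom_del P P' π f hq h1 h0 hf hP hP', hd]

end Hom

end Pool.Agent.Lib.MP_ff61db_al.Pt.C4
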