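import Pool.Agent.Lib.MP_ff61db_al.Pt.Cas3

/-! Characters of subquotients; the support of the inverse Hilbert series. -/

set_option autoImplicit false

namespace Pool.Agent.Lib.MP_ff61db_al.Pt.Cas

open Module

theorem rk_split {k M N : Type} [Field k] [AddCommGroup M] [Module k M] [AddCommGroup N]
    [Module k N] (f : M →ₗ[k] N) (W : Submodule k M) [Module.Finite k W] :
    finrank k (W.map f) + finrank k (LinearMap.ker f ⊓ W : Submodule k M) = finrank k W := by
  rw [← (f.domRestrict W).finrank_range_add_finrank_ker, LinearMap.range_domRestrict,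
    LinearMap.ker_domRestrict, ← Submodule.finrank_map_subtype_eq W, Submodule.map_comap_subtype,
    inf_comm]

variable {k I R : Type} [Field k] [DecidableEq I] [Fintype I] [Ring R] [Algebra k R]

namespace CI

variable (C : CI k I R)

instance fin_hom (m : I → ℤ) : Module.Finite k (C.V {m}) :=
  Submodule.finiteDimensional_of_le C.hom_lo

instance fin_inf (P : Submodule k R) (m : I → ℤ) : Module.Finite k (P ⊓ C.V {m} : Submodule k R) :=
  Submodule.finiteDimensional_of_le inf_le_right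

/-- The character of a subspace. -/
noncomputable def dm (P : Submodule k R) (m : I → ℤ) : ℕ := finrank k (P ⊓ C.V {m} : Submodule k R)

omit [Fintype I] in
theorem dm_neg (P : Submodule k R) {m : I → ℤ} (h : ¬0 ≤ m) : C.dm P m = 0 := by
  rw [dm, C.V_bot (by simpa using h)]
  simp

omit [Fintype I] in
theorem F_mul (l : I → ℤ) (i : I) {m : I → ℤ} {v : R} (hv : v ∈ C.V {m}) (b : R) :
    C.F l i (b * v) = C.F (l + m) i b * v + C.sc (fun n => C.χ n (al i)) b * C.F l i v := by
  refine LinearMap.congr_fun (C.ext (f := C.F l i ∘ₗ LinearMap.mulRight k v)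
    (g := LinearMap.mulRight k v ∘ₗ C.F (l + m) i +
      LinearMap.mulRight k (C.F l i v) ∘ₗ C.sc fun n => C.χ n (al i)) fun w => ?_) b
  simp only [LinearMap.comp_apply, LinearMap.add_apply, LinearMap.mulRight_apply]
  induction w with
  | nil => simp [wd_nil, F_one, sc_one, χ_zero_l]
  | cons j w ih =>
    have h1 : C.S l i (C.wd w * v) = C.S (l + m) i (C.wd w) * v := by
      rw [S, S, C.sc_mul hv]
      simp only [add_assoc, add_comm m]
    rw [wd_cons, mul_assoc, F_x, F_x, ih, h1, sc_x]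
    simp only [C.χ_l, Units.val_mul, sc_smul]
    split_ifs
    · simp [mul_add, add_mul, sub_mul, mul_assoc]
      abel
    · simp [mul_add, mul_assoc]

variable {l : I → ℤ} {Q : Submodule k R} {m : I → ℤ} {v : R}

omit [Fintype I] in
theorem Ob_sup (hQ : C.Ob l Q) (hm : v ∈ C.V {m}) (hv : ∀ i, C.F l i v ∈ Q) :
    C.Ob l (Q ⊔ LinearMap.range (LinearMap.mulRight k v)) := by
  have h1 : ∀ (b : R), b * v ∈ Q ⊔ LinearMap.range (LinearMap.mulRight k v) :=
    fun b => Submodule.mem_sup_right ⟨b, rfl⟩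
  refine ⟨fun b p hp => ?_, fun φ p hp => ?_, fun i p hp => ?_⟩ <;>
    obtain ⟨a, ha, _, ⟨c, rfl⟩, rfl⟩ := Submodule.mem_sup.1 hp <;> rw [LinearMap.mulRight_apply]
  · rw [mul_add, ← mul_assoc]
    exact add_mem (Submodule.mem_sup_left (hQ.mul _ _ ha)) (h1 _)
  · rw [map_add, C.sc_mul hm]
    exact add_mem (Submodule.mem_sup_left (hQ.sc _ _ ha)) (h1 _)
  · rw [map_add, C.F_mul l i hm]
    exact add_mem (Submodule.mem_sup_left (hQ.F _ _ ha))
      (add_mem (h1 _) (Submodule.mem_sup_left (hQ.mul _ _ (hv i))))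

omit [Fintype I] in
theorem Ob_comap (hQ : C.Ob l Q) (hm : v ∈ C.V {m}) (hv : ∀ i, C.F l i v ∈ Q) :
    C.Ob (l + m) (Q.comap (LinearMap.mulRight k v)) := by
  refine ⟨fun b p hp => ?_, fun φ p hp => ?_, fun i p hp => ?_⟩ <;>
    simp only [Submodule.mem_comap, LinearMap.mulRight_apply] at hp ⊢
  · rw [mul_assoc]; exact hQ.mul _ _ hp
  · have := hQ.sc (fun n => φ (n - m)) _ hp
    rw [C.sc_mul hm] at this
    simpa using this
  · have := hQ.F i _ hp
    rw [C.F_mul l i hm] at this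
    exact (add_mem_cancel_right (hQ.mul _ _ (hv i))).1 this

theorem dm_sup (hQ : C.Ob l Q) (hm : v ∈ C.V {m}) (n : I → ℤ) :
    C.dm (Q ⊔ LinearMap.range (LinearMap.mulRight k v)) n +
      C.dm (Q.comap (LinearMap.mulRight k v)) (n - m) = C.dm Q n + C.dm ⊤ (n - m) := by
  have h1 := rk_split Q.mkQ ((Q ⊔ LinearMap.range (LinearMap.mulRight k v)) ⊓ C.V {n})
  have h2 := rk_split (Q.mkQ ∘ₗ LinearMap.mulRight k v) (⊤ ⊓ C.V {n - m})
  rw [Submodule.ker_mkQ, ← inf_assoc, inf_sup_self] at h1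
  rw [LinearMap.ker_comp, Submodule.ker_mkQ, ← inf_assoc, inf_top_eq] at h2
  have h3 : ((Q ⊔ LinearMap.range (LinearMap.mulRight k v)) ⊓ C.V {n}).map Q.mkQ =
      (⊤ ⊓ C.V {n - m}).map (Q.mkQ ∘ₗ LinearMap.mulRight k v) := by
    apply le_antisymm
    · rintro _ ⟨p, ⟨hp, hn⟩, rfl⟩
      obtain ⟨a, ha, _, ⟨c, rfl⟩, rfl⟩ := Submodule.mem_sup.1 hp
      refine ⟨C.pj {n - m} c, ⟨trivial, C.pj_mem _ _⟩, ?_⟩
      rw [← C.mem_V.1 hn, map_add, map_add, pj, pj, LinearMap.mulRight_apply, C.sc_mul hm,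
        Submodule.mkQ_apply, (Submodule.Quotient.mk_eq_zero Q).2 (hQ.sc _ _ ha), zero_add]
      rw [show ({n - m} : Set (I → ℤ)).indicator (1 : (I → ℤ) → k) =
        fun a => ({n} : Set (I → ℤ)).indicator 1 (a + m) from funext fun a => by
          by_cases e : a + m = n <;> simp [eq_sub_iff_add_eq, e]]
      rfl
    · rintro _ ⟨c, ⟨-, hc⟩, rfl⟩
      exact ⟨c * v, ⟨Submodule.mem_sup_right ⟨c, rfl⟩, C.mul_mem (by simp) hc hm⟩, rfl⟩
  rw [h3] at h1
  simp only [dm]
  omega

variable {A : Type} [CommRing A] (Fs : (I → ℤ) → A)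

/-- The product of the character of a subspace with a series. -/
noncomputable def T (P : Submodule k R) (n : I → ℤ) : A :=
  ∑ ν ∈ Finset.Icc 0 n, Fs ν * C.dm P (n - ν)

theorem T_shift (P : Submodule k R) (n : I → ℤ) (hm : 0 ≤ m) :
    ∑ ν ∈ Finset.Icc 0 n, Fs ν * C.dm P (n - ν - m) = C.T Fs P (n - m) := by
  rw [T, ← Finset.sum_subset (Finset.Icc_subset_Icc_right (sub_le_self n hm))]
  · simp only [sub_right_comm]
  · intro ν h1 h2
    rw [C.dm_neg P fun h => h2 (Finset.mem_Icc.2 ⟨(Finset.mem_Icc.1 h1).1, by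
      rwa [sub_right_comm, sub_nonneg] at h⟩)]
    simp

theorem T_sup (hQ : C.Ob l Q) (hm : v ∈ C.V {m}) (h0 : 0 ≤ m) (n : I → ℤ) :
    C.T Fs (Q ⊔ LinearMap.range (LinearMap.mulRight k v)) n +
      C.T Fs (Q.comap (LinearMap.mulRight k v)) (n - m) = C.T Fs Q n + C.T Fs ⊤ (n - m) := by
  rw [← C.T_shift Fs _ n h0, ← C.T_shift Fs _ n h0, T, T, ← Finset.sum_add_distrib,
    ← Finset.sum_add_distrib]
  refine Finset.sum_congr rfl fun ν _ => ?_
  rw [← mul_add, ← mul_add, ← Nat.cast_add, ← Nat.cast_add, C.dm_sup hQ hm]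

omit [Fintype I] in
theorem V_zero {b : R} (hb : b ∈ C.V {0}) : b = C.eps b • 1 := by
  refine C.V_ext (f := LinearMap.id) (g := C.eps.smulRight 1) (fun w hw => ?_) hb
  cases w with
  | nil => simp [wd_nil, C.eps_one]
  | cons j w =>
    have h1 := congrFun (Set.mem_singleton_iff.1 hw) j
    have h2 := C.dg_nonneg w j
    simp [C.dg_cons] at h1 h2
    omega

variable {Fs} {θ : (I → ℤ) → k}

theorem T_eq (hθ : ∀ m j, θ (al j + m) = θ m * C.s m (al j)) (hF : ∀ n ≠ 0, C.T Fs ⊤ n = 0)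
    (h : ℕ) {l n : I → ℤ} {P Q : Submodule k R} (hP : C.Ob l P) (hQ : C.Ob l Q) (hle : Q ≤ P)
    (hn : θ (l + n) ≠ θ l)
    (hl : ∀ m ≤ n, ∑ i, m i + h ≤ ∑ i, n i → P ⊓ C.V {m} ≤ Q) : C.T Fs P n = C.T Fs Q n := by
  induction h generalizing l n P Q with
  | zero =>
    refine Finset.sum_congr rfl fun ν hν => ?_
    have h1 : n - ν ≤ n := sub_le_self n (Finset.mem_Icc.1 hν).1
    rw [dm, dm, le_antisymm (le_inf (hl _ h1 (by simpa using Finset.sum_le_sum fun i _ => h1 i))
      inf_le_right) (inf_le_inf_right _ hle)]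
  | succ h ih =>
    obtain ⟨W, hW⟩ : ∃ W, W = C.V (lo I ((∑ i, n i).toNat + 1)) := ⟨_, rfl⟩
    have : Module.Finite k W := hW ▸ inferInstance
    obtain ⟨c, hc⟩ : ∃ c, finrank k W ≤ finrank k (Q ⊓ W : Submodule k R) + c := ⟨_, le_add_self⟩
    induction c using Nat.strong_induction_on generalizing Q with
    | _ c ih2 =>
    by_cases e : ∀ m ≤ n, ∑ i, m i + h ≤ ∑ i, n i → P ⊓ C.V {m} ≤ Q
    · exact ih hP hQ hle hn e
    push Not at e
    obtain ⟨m, hmn, hh, e⟩ := e
    obtain ⟨v, ⟨hvP, hm⟩, hvQ⟩ := SetLike.not_le_iff_exists.1 e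
    have h0 : 0 ≤ m := by
      by_contra h0
      rw [C.V_bot (by simpa using h0)] at hm
      exact hvQ ((Submodule.mem_bot k).1 hm ▸ zero_mem _)
    have hh' : ∑ i, n i ≤ ∑ i, m i + h := by
      by_contra h1
      exact e (hl m hmn (by push_cast; omega))
    have hv : ∀ i, C.F l i v ∈ Q := fun i => by
      have h1 := sum_al i (m - al i)
      rw [add_sub_cancel] at h1
      exact hl (m - al i) ((sub_le_self m (by simp [Pi.single_nonneg])).trans hmn)
        (by push_cast; omega) ⟨hP.F i v hvP, C.low_mem _ (C.F_sc l i)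
          (fun m' hm' => eq_sub_of_add_eq' hm') hm⟩
    have ht := C.θ_low hθ hQ hm hv hvQ
    have hv' : v ∈ Q ⊔ LinearMap.range (LinearMap.mulRight k v) :=
      Submodule.mem_sup_right ⟨1, one_mul v⟩
    have hlt : finrank k (Q ⊓ W : Submodule k R) <
        finrank k ((Q ⊔ LinearMap.range (LinearMap.mulRight k v)) ⊓ W : Submodule k R) := by
      have : Module.Finite k ((Q ⊔ LinearMap.range (LinearMap.mulRight k v)) ⊓ W : Submodule k R) :=
        Submodule.finiteDimensional_of_le inf_le_right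
      refine Submodule.finrank_lt_finrank_of_lt (lt_of_le_not_ge (inf_le_inf_right _ le_sup_left)
        fun h => hvQ (h ⟨hv', ?_⟩).1)
      rw [hW]
      refine C.V_mono ?_ hm
      simp only [Set.singleton_subset_iff, lo, Set.mem_ofPred]
      omega
    have hle2 := Submodule.finrank_mono
      (inf_le_right : (Q ⊔ LinearMap.range (LinearMap.mulRight k v)) ⊓ W ≤ W)
    have r1 := ih2 (c - 1) (by omega) (C.Ob_sup hQ hm hv)
      (sup_le hle (by rintro _ ⟨b, rfl⟩; exact hP.mul b v hvP))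
      (fun m' h1 h2 => (hl m' h1 h2).trans le_sup_left) (by omega)
    have r2 := ih (n := n - m) (C.Ob_comap hQ hm hv) (C.Ob_bot _) bot_le
      (by rwa [add_assoc, add_sub_cancel, ht]) fun m' _ h2 b ⟨hb, hb'⟩ => by
        simp only [Pi.sub_apply, Finset.sum_sub_distrib] at h2
        by_cases h3 : 0 ≤ m'
        · have h4 : m' = 0 := funext fun i => (Finset.sum_eq_zero_iff_of_nonneg
            fun i _ => h3 i).1 (le_antisymm (by omega) (Finset.sum_nonneg fun i _ => h3 i)) i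
            (Finset.mem_univ i)
          subst h4
          rw [C.V_zero hb'] at hb ⊢
          by_cases h5 : C.eps b = 0
          · simp [h5]
          · exact (hvQ ((Q.smul_mem_iff h5).1 (by simpa using hb))).elim
        · rwa [C.V_bot (by simpa using h3)] at hb'
    have r3 := C.T_sup Fs hQ hm h0 n
    rw [← r1, r2, hF _ fun h1 => hn (by rw [sub_eq_zero.1 h1, ht])] at r3
    rwa [show C.T Fs ⊥ (n - m) = 0 from Finset.sum_eq_zero fun ν _ => by
      rw [dm, bot_inf_eq, finrank_bot, Nat.cast_zero, mul_zero], add_zero, add_zero] at r3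

theorem main (hθ : ∀ m j, θ (al j + m) = θ m * C.s m (al j)) (hF : ∀ n ≠ 0, C.T Fs ⊤ n = 0)
    {n : I → ℤ} (h0 : 0 ≤ n) (hn : θ n ≠ θ 0) : Fs n = 0 := by
  have hQ : C.Ob 0 (LinearMap.ker C.eps) := by
    refine ⟨fun b p hp => ?_, fun φ p hp => ?_, fun i p _ => ?_⟩
    · refine LinearMap.congr_fun (C.ext (f := C.eps ∘ₗ LinearMap.mulRight k p) (g := 0)
        fun w => ?_) b
      cases w with
      | nil => simpa [wd_nil] using hp
      | cons j w => simp [wd_cons, mul_assoc, C.eps_x]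
    · rw [LinearMap.mem_ker] at hp ⊢
      rw [eps_sc, hp, mul_zero]
    · simp [F, eps_sc, eps_del, s, χ_zero_l, χ_zero_r]
  have h1 : (1 : R) ∈ C.V {0} := C.wd_mem (w := []) C.dg_nil
  have r1 := C.T_eq hθ hF ((∑ i, n i).toNat + 1) (n := n) (C.Ob_top 0) hQ le_top
    (by rwa [zero_add]) fun m _ h2 => by
      rw [C.V_bot fun m' hm' => not_nonneg (by
        rw [Set.mem_singleton_iff.1 hm']; push_cast at h2; omega)]
      simp
  have r2 : ∀ m, C.dm ⊤ m = C.dm (LinearMap.ker C.eps) m + if m = 0 then 1 else 0 := fun m => by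
    rw [dm, dm, top_inf_eq, ← rk_split C.eps (C.V {m}), add_comm]
    congr 1
    split_ifs with e
    · subst e
      have : (C.V {0}).map C.eps = ⊤ :=
        eq_top_iff.2 fun c _ => ⟨c • 1, Submodule.smul_mem _ c h1, by simp [C.eps_one]⟩
      rw [this]
      simp
    · rw [Submodule.finrank_eq_zero, eq_bot_iff]
      rintro _ ⟨b, hb, rfl⟩
      rw [← C.mem_V.1 hb, pj, eps_sc]
      simp [Ne.symm e]
  simp only [T, r2, Nat.cast_add, mul_add, Finset.sum_add_distrib, add_eq_left, sub_eq_zero] at r1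
  simpa [h0] using r1

end CI

end Pool.Agent.Lib.MP_ff61db_al.Pt.Cas
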