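import Pool.Agent.Lib.MP_ff61db_al.Pt.Defs
import Pool.Agent.Lib.MP_ff61db_al.Pt.Cas4
import Pool.Agent.Lib.MP_ff61db_al.Pt.DefsEq

/-! The inverse of the Hilbert series of a Nichols algebra lives on the zero set of the quadratic
function. -/

set_option autoImplicit false

namespace Pool.Agent.Lib.MP_ff61db_al.Pt

open TensorProduct

variable {k : Type} [Field k] {I : Type} [Fintype I] [DecidableEq I]

namespace Cas

variable {q : I → I → kˣ} {R : Type} [Ring R] [Algebra k R] (P : PN k q R)

omit [DecidableEq I] in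
theorem chi_l (q : I → I → kˣ) (a b c : I → ℤ) : chi q (a + b) c = chi q a c * chi q b c := by
  simp [chi, add_mul, zpow_add, Finset.prod_mul_distrib]

omit [DecidableEq I] in
theorem chi_r (q : I → I → kˣ) (a b c : I → ℤ) : chi q a (b + c) = chi q a b * chi q a c := by
  simp [chi, mul_add, zpow_add, Finset.prod_mul_distrib]

theorem theta_e (q : I → I → kˣ) (m : I → ℤ) (j : I) :
    theta q (e j + m) = theta q m * (chi q m (e j) * chi q (e j) m) := by
  have h1 : chi q (e j) (e j) = q j j := by
    simp [chi, e, Pi.single_apply, apply_ite]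
  have h2 : ∏ i, q i i ^ (e j + m) i = q j j * ∏ i, q i i ^ m i := by
    simp only [Pi.add_apply, zpow_add, Finset.prod_mul_distrib]
    simp [e, Pi.single_apply, apply_ite]
  rw [theta, theta, chi_l, chi_r, chi_r, h1, h2, mul_inv]
  simp only [mul_comm, mul_left_comm, mul_assoc, mul_inv_cancel_left]

theorem p_span : Submodule.span k (Set.range (wd P.x)) = ⊤ := by
  rw [← Set.image_univ]; exact P.span

theorem p_ext {M : Type} [AddCommGroup M] [Module k M] {f g : R →ₗ[k] M}
    (h : ∀ l, f (wd P.x l) = g (wd P.x l)) : f = g :=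
  LinearMap.ext_on (p_span P) (by rintro _ ⟨l, rfl⟩; exact h l)

theorem p_cons (i : I) (l : List I) : P.x i * wd P.x l = wd P.x (i :: l) := by simp [wd]

theorem ex_sc (φ : (I → ℤ) → k) :
    ∃ g : R →ₗ[k] R, ∀ l, g (wd P.x l) = φ (deg l) • wd P.x l := by
  have hs : LinearMap.range (Finsupp.linearCombination k (wd P.x)) = ⊤ := by
    rw [Finsupp.range_linearCombination]; exact p_span P
  obtain ⟨g, hg⟩ := LinearMap.exists_rightInverse_of_surjective _ hs
  refine ⟨Finsupp.linearCombination k (fun l => φ (deg l) • wd P.x l) ∘ₗ g, fun l => ?_⟩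
  have h : ∀ c : List I →₀ k, Finsupp.linearCombination k (fun l => φ (deg l) • wd P.x l) c =
      ∑ m ∈ c.support.image deg, φ m • P.pr m (Finsupp.linearCombination k (wd P.x) c) := by
    intro c
    simp only [Finsupp.linearCombination_apply, Finsupp.sum, map_sum, map_smul, P.pr_wd,
      Finset.smul_sum]
    rw [Finset.sum_comm]
    refine Finset.sum_congr rfl fun w hw => ?_
    rw [Finset.sum_eq_single_of_mem _ (Finset.mem_image_of_mem deg hw) fun m _ hm => by
      simp [hm.symm], if_pos rfl, smul_comm]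
  have h0 := LinearMap.congr_fun hg (wd P.x l)
  simp only [LinearMap.comp_apply, LinearMap.id_apply] at h0
  have h1 := h (g (wd P.x l) - Finsupp.single l 1)
  rw [map_sub (Finsupp.linearCombination k (wd P.x)), h0] at h1
  simpa [sub_eq_zero] using h1

/-- Scaling by a function of the degree. -/
noncomputable def scl (φ : (I → ℤ) → k) : R →ₗ[k] R := (ex_sc P φ).choose

theorem scl_wd (φ : (I → ℤ) → k) (l : List I) : scl P φ (wd P.x l) = φ (deg l) • wd P.x l :=
  (ex_sc P φ).choose_spec l

theorem D_cons (i : I) (f : R) : P.D (P.x i * f) = (LinearMap.mulLeft k (P.x i)).rTensor R (P.D f) +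
    TensorProduct.map (scl P fun m => (chi q (e i) m : kˣ)) (LinearMap.mulLeft k (P.x i)) (P.D f) :=
  LinearMap.congr_fun (p_ext P (f := P.D ∘ₗ LinearMap.mulLeft k (P.x i))
    (g := (LinearMap.mulLeft k (P.x i)).rTensor R ∘ₗ P.D + TensorProduct.map
      (scl P fun m => (chi q (e i) m : kˣ)) (LinearMap.mulLeft k (P.x i)) ∘ₗ P.D) fun l => by
    simp [p_cons, P.D_wd, copw, sh, map_list_sum, Function.comp_def, scl_wd, smul_smul,
      ← smul_tmul', mul_comm]) f

/-- Contraction of the right factor of the coproduct. -/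
noncomputable def rt (g : R →ₗ[k] k) : R →ₗ[k] R :=
  (TensorProduct.rid k R).toLinearMap ∘ₗ g.lTensor R ∘ₗ P.D

/-- Contraction of the left factor of the coproduct. -/
noncomputable def lt (g : R →ₗ[k] k) : R →ₗ[k] R :=
  (TensorProduct.lid k R).toLinearMap ∘ₗ g.rTensor R ∘ₗ P.D

theorem D_nil : P.D 1 = 1 ⊗ₜ 1 := by simpa [copw, sh, wd] using P.D_wd []

theorem rt_x (g : R →ₗ[k] k) (i : I) (f : R) : rt P g (P.x i * f) = P.x i * rt P g f +
    scl P (fun m => (chi q (e i) m : kˣ)) (rt P (g ∘ₗ LinearMap.mulLeft k (P.x i)) f) := by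
  simp only [rt, LinearMap.comp_apply, D_cons, map_add]
  congr 1 <;> induction P.D f with
  | zero => simp
  | tmul a b => simp
  | add a b h1 h2 => simp only [map_add, h1, h2, mul_add]

theorem lt_x (g : R →ₗ[k] k) (i : I) (f : R) : lt P g (P.x i * f) =
    lt P (g ∘ₗ LinearMap.mulLeft k (P.x i)) f +
      P.x i * lt P (g ∘ₗ scl P fun m => (chi q (e i) m : kˣ)) f := by
  simp only [lt, LinearMap.comp_apply, D_cons, map_add]
  congr 1 <;> induction P.D f with
  | zero => simp
  | tmul a b => simp
  | add a b h1 h2 => simp only [map_add, h1, h2, mul_add]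

theorem eps_L (i : I) : P.eps ∘ₗ LinearMap.mulLeft k (P.x i) = 0 :=
  p_ext P fun l => by simp [p_cons, P.eps_wd]

theorem rt_eps : rt P P.eps = LinearMap.id := p_ext P fun l => by
  induction l with
  | nil => simpa [rt, wd, D_nil] using congrArg (· • (1 : R)) (P.eps_wd [])
  | cons i l ih => rw [← p_cons, rt_x, ih, eps_L]; simp [rt]

theorem lt_eps : lt P P.eps = LinearMap.id := p_ext P fun l => by
  induction l with
  | nil => simpa [lt, wd, D_nil] using congrArg (· • (1 : R)) (P.eps_wd [])
  | cons i l ih =>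
    have : (P.eps ∘ₗ scl P fun m => (chi q (e i) m : kˣ)) = P.eps := p_ext P fun w => by
      cases w <;> simp [scl_wd, P.eps_wd, deg, chi]
    rw [← p_cons, lt_x, this, ih, eps_L]; simp [lt]

theorem co_w {i : I} (h : P.x i ≠ 0) (l : List I) :
    P.co i (wd P.x l) = if l = [i] then 1 else 0 := by
  obtain ⟨g, hg⟩ := Module.Projective.exists_dual_eq_one k h
  have : ∃ f : R →ₗ[k] k, ∀ l, f (wd P.x l) = if l = [i] then 1 else 0 := by
    refine ⟨g ∘ₗ P.pr (e i), fun l => ?_⟩
    rw [LinearMap.comp_apply, P.pr_wd]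
    by_cases h1 : l = [i]
    · simp [h1, deg, wd, hg]
    · rw [if_neg h1, if_neg, map_zero]
      intro h2
      have h3 : ∀ w : List I, ∑ j, deg w j = w.length := fun w => by
        induction w with
        | nil => simp [deg]
        | cons a w ih => rw [List.length_cons, Nat.cast_succ, ← ih, add_comm]; exact sum_al a _
      have h4 := h3 l
      rw [h2] at h4
      obtain ⟨a, rfl⟩ := List.length_eq_one_iff.1 (by simpa [e, eq_comm] using h4 : l.length = 1)
      have h5 := congrFun h2 i
      simp [deg, e, Pi.single_apply] at h5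
      exact h1 (by rw [h5])
  rw [PN.co, dif_pos this]
  exact this.choose_spec l

theorem co_L (h : P.Alive) (i j : I) :
    P.co j ∘ₗ LinearMap.mulLeft k (P.x i) = if i = j then P.eps else 0 := p_ext P fun l => by
  by_cases e : i = j <;> simp [p_cons, co_w P (h j), P.eps_wd, e]

theorem co_G (h : P.Alive) (i j : I) : (P.co j ∘ₗ scl P fun m => (chi q (e i) m : kˣ)) =
    ((chi q (e i) (e j) : kˣ) : k) • P.co j := p_ext P fun l => by
  by_cases e : l = [j] <;> simp [scl_wd, co_w P (h j), e, deg]

/-- The data attached to a Nichols algebra. -/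
noncomputable def ofN (h : P.Nich) : CI k I R where
  x := P.x
  χ := chi q
  χ_l := chi_l q
  χ_r := chi_r q
  dg := deg
  dg_nil := rfl
  dg_cons _ _ := rfl
  span := p_span P
  sc := scl P
  sc_wd := scl_wd P
  eps := P.eps
  eps_one := by simpa [wd] using P.eps_wd []
  eps_x i := LinearMap.congr_fun (eps_L P i)
  del := P.del
  del_one j := by simpa [PN.del, D_nil, wd] using congrArg (· • (1 : R)) (co_w P (h.1 j) [])
  del_x j i f := by
    refine (rt_x P (P.co j) i f).trans ?_
    rw [co_L P h.1]
    split_ifs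
    · rw [rt_eps]; subst_vars; rfl
    · simp [rt, PN.del]
  d := P.dl
  d_one j := by simpa [PN.dl, D_nil, wd] using congrArg (· • (1 : R)) (co_w P (h.1 j) [])
  d_x j i f := by
    refine (lt_x P (P.co j) i f).trans ?_
    rw [co_L P h.1, co_G P h.1]
    split_ifs
    · rw [lt_eps]; simp [lt, PN.dl, e]
    · simp [lt, PN.dl, e]
  nic := h.2

end Cas

theorem casimir (q : I → I → kˣ) (F : (I → ℤ) → ℤ) (hF : Cone F)
    (h : cv F (fun μ => (hN q μ : ℤ)) = dlt ℤ) (μ : I → ℤ) (hμ : F μ ≠ 0) : theta q μ = 1 := by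
  by_cases hn : Nonempty (NP k q)
  · by_contra ht
    refine hμ ((Cas.ofN _ (Classical.choice hn).nich).main (θ := fun m => (theta q m : kˣ))
      (fun m j => congrArg Units.val (Cas.theta_e q m j)) (fun n h0 => ?_) (hF μ hμ) ?_)
    · have := congrFun h n
      simp only [cv, hN, dif_pos hn, dlt, if_neg h0] at this
      refine Eq.trans (Finset.sum_congr rfl fun ν _ => ?_) this
      rw [Cas.CI.dm, top_inf_eq]
      rfl
    · exact fun e => ht ((Units.ext e).trans (by simp [theta, chi]))
  · simpa [cv, hN, hn, dlt] using congrFun h 0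

end Pool.Agent.Lib.MP_ff61db_al.Pt
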