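import Mathlib

/-! The data used for the Casimir operator; the invariant form. -/

set_option autoImplicit false

namespace Pool.Agent.Lib.MP_ff61db_al.Pt.Cas

/-- The simple roots. -/
abbrev al {I : Type} [DecidableEq I] (i : I) : I → ℤ := Pi.single i 1

/-- A graded algebra generated by letters, with two families of skew derivations and without
a nonzero element that is killed by the counit and all derivations of the first family. -/
structure CI (k I R : Type) [Field k] [DecidableEq I] [Ring R] [Algebra k R] where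
  /-- the letters -/
  x : I → R
  /-- the bicharacter -/
  χ : (I → ℤ) → (I → ℤ) → kˣ
  χ_l : ∀ a b c, χ (a + b) c = χ a c * χ b c
  χ_r : ∀ a b c, χ a (b + c) = χ a b * χ a c
  /-- the degree of a word -/
  dg : List I → I → ℤ
  dg_nil : dg [] = 0
  dg_cons : ∀ i l, dg (i :: l) = al i + dg l
  span : Submodule.span k (Set.range fun l : List I => (l.map x).prod) = ⊤
  /-- scaling by a function of the degree -/
  sc : ((I → ℤ) → k) → R →ₗ[k] R
  sc_wd : ∀ φ l, sc φ (l.map x).prod = φ (dg l) • (l.map x).prod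
  /-- the counit -/
  eps : R →ₗ[k] k
  eps_one : eps 1 = 1
  eps_x : ∀ i f, eps (x i * f) = 0
  /-- the first family -/
  del : I → R →ₗ[k] R
  del_one : ∀ j, del j 1 = 0
  del_x : ∀ j i f, del j (x i * f) =
    x i * del j f + if i = j then sc (fun m => χ (al j) m) f else 0
  /-- the second family -/
  d : I → R →ₗ[k] R
  d_one : ∀ j, d j 1 = 0
  d_x : ∀ j i f, d j (x i * f) = (if i = j then f else 0) + (χ (al i) (al j) : k) • (x i * d j f)
  nic : ∀ f, eps f = 0 → (∀ j, del j f = 0) → f = 0

variable {k I R : Type} [Field k] [DecidableEq I] [Ring R] [Algebra k R]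

namespace CI

variable (C : CI k I R)

/-- The value of a word. -/
def wd (l : List I) : R := (l.map C.x).prod

theorem wd_nil : C.wd [] = 1 := rfl

theorem wd_cons (i : I) (l : List I) : C.wd (i :: l) = C.x i * C.wd l := by simp [wd]

theorem wd_append (l l' : List I) : C.wd (l ++ l') = C.wd l * C.wd l' := by simp [wd]

theorem sc_w (φ : (I → ℤ) → k) (l : List I) : C.sc φ (C.wd l) = φ (C.dg l) • C.wd l := C.sc_wd φ l

theorem ext {M : Type} [AddCommGroup M] [Module k M] {f g : R →ₗ[k] M}
    (h : ∀ l, f (C.wd l) = g (C.wd l)) : f = g :=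
  LinearMap.ext_on C.span (by rintro _ ⟨l, rfl⟩; exact h l)

theorem ind {p : R → Prop} (h0 : p 0) (ha : ∀ a b, p a → p b → p (a + b))
    (hs : ∀ (c : k) a, p a → p (c • a)) (hw : ∀ l, p (C.wd l)) (f : R) : p f := by
  have : f ∈ Submodule.span k (Set.range fun l : List I => (l.map C.x).prod) := by
    rw [C.span]; trivial
  induction this using Submodule.span_induction with
  | mem _ h => obtain ⟨l, rfl⟩ := h; exact hw l
  | zero => exact h0
  | add a b _ _ h1 h2 => exact ha a b h1 h2
  | smul c a _ h => exact hs c a h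

theorem lift {M : Type} [AddCommGroup M] [Module k M] (φ : List I → M)
    (h : ∀ c : List I →₀ k, Finsupp.linearCombination k C.wd c = 0 →
      Finsupp.linearCombination k φ c = 0) : ∃ Φ : R →ₗ[k] M, ∀ l, Φ (C.wd l) = φ l := by
  have hs : LinearMap.range (Finsupp.linearCombination k C.wd) = ⊤ := by
    rw [Finsupp.range_linearCombination]; exact C.span
  obtain ⟨g, hg⟩ := LinearMap.exists_rightInverse_of_surjective _ hs
  refine ⟨Finsupp.linearCombination k φ ∘ₗ g, fun l => ?_⟩
  have h1 := h (g (C.wd l) - Finsupp.single l 1) (by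
    have := LinearMap.congr_fun hg (C.wd l)
    simp only [LinearMap.comp_apply, LinearMap.id_apply] at this
    simp [this])
  simpa [sub_eq_zero] using h1

theorem χ_zero_r (a : I → ℤ) : C.χ a 0 = 1 := by
  have := C.χ_r a 0 0
  simpa using this

theorem χ_zero_l (a : I → ℤ) : C.χ 0 a = 1 := by
  have := C.χ_l 0 0 a
  simpa using this

theorem dg_append (l l' : List I) : C.dg (l ++ l') = C.dg l + C.dg l' := by
  induction l with
  | nil => simp [C.dg_nil]
  | cons i l ih => rw [List.cons_append, C.dg_cons, C.dg_cons, ih, add_assoc]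

theorem dg_nonneg (l : List I) : 0 ≤ C.dg l := by
  induction l with
  | nil => rw [C.dg_nil]
  | cons i l ih => rw [C.dg_cons]; exact add_nonneg (by simp [Pi.single_nonneg]) ih

theorem sc_congr {φ ψ : (I → ℤ) → k} (h : ∀ l, φ (C.dg l) = ψ (C.dg l)) : C.sc φ = C.sc ψ :=
  C.ext fun l => by rw [sc_w, sc_w, h]

theorem sc_one (φ : (I → ℤ) → k) : C.sc φ 1 = φ 0 • 1 := by
  rw [← C.wd_nil, sc_w, C.dg_nil]

theorem sc_id (f : R) : C.sc (fun _ => 1) f = f :=
  LinearMap.congr_fun (C.ext (g := LinearMap.id) fun l => by simp [sc_w]) f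

theorem sc_zero {φ : (I → ℤ) → k} (h : ∀ l, φ (C.dg l) = 0) (f : R) : C.sc φ f = 0 :=
  LinearMap.congr_fun (C.ext (g := 0) fun l => by simp [sc_w, h]) f

theorem sc_sc (φ ψ : (I → ℤ) → k) (f : R) : C.sc φ (C.sc ψ f) = C.sc (fun m => φ m * ψ m) f :=
  LinearMap.congr_fun (C.ext (f := C.sc φ ∘ₗ C.sc ψ) fun l => by
    simp [sc_w, smul_smul, mul_comm]) f

theorem sc_smul (c : k) (φ : (I → ℤ) → k) (f : R) : C.sc (fun m => c * φ m) f = c • C.sc φ f :=
  LinearMap.congr_fun (C.ext (g := c • C.sc φ) fun l => by simp [sc_w, smul_smul]) f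

theorem sc_x (φ : (I → ℤ) → k) (i : I) (f : R) :
    C.sc φ (C.x i * f) = C.x i * C.sc (fun m => φ (al i + m)) f :=
  LinearMap.congr_fun (C.ext (f := C.sc φ ∘ₗ LinearMap.mulLeft k (C.x i))
    (g := LinearMap.mulLeft k (C.x i) ∘ₗ C.sc fun m => φ (al i + m)) fun l => by
      simp [← wd_cons, sc_w, C.dg_cons]) f

theorem eps_sc (φ : (I → ℤ) → k) (f : R) : C.eps (C.sc φ f) = φ 0 * C.eps f :=
  LinearMap.congr_fun (C.ext (f := C.eps ∘ₗ C.sc φ) (g := φ 0 • C.eps) fun l => by
    cases l with
    | nil => simp [sc_w, C.dg_nil]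
    | cons i l => simp [sc_w, wd_cons, C.eps_x, sc_x]) f

theorem del_sc (j : I) (φ : (I → ℤ) → k) (f : R) :
    C.del j (C.sc φ f) = C.sc (fun m => φ (al j + m)) (C.del j f) := by
  refine LinearMap.congr_fun (C.ext (f := C.del j ∘ₗ C.sc φ)
    (g := (C.sc fun m => φ (al j + m)) ∘ₗ C.del j) fun l => ?_) f
  simp only [LinearMap.comp_apply]
  induction l generalizing φ with
  | nil => simp [wd_nil, sc_one, C.del_one]
  | cons i l ih =>
    rw [wd_cons, sc_x, C.del_x, C.del_x, ih, map_add, sc_x]
    simp only [add_left_comm (al i)]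
    split_ifs with h
    · subst h
      rw [sc_sc, sc_sc]
      simp only [mul_comm]
    · simp

theorem d_sc (j : I) (φ : (I → ℤ) → k) (f : R) :
    C.d j (C.sc φ f) = C.sc (fun m => φ (al j + m)) (C.d j f) := by
  refine LinearMap.congr_fun (C.ext (f := C.d j ∘ₗ C.sc φ)
    (g := (C.sc fun m => φ (al j + m)) ∘ₗ C.d j) fun l => ?_) f
  simp only [LinearMap.comp_apply]
  induction l generalizing φ with
  | nil => simp [wd_nil, sc_one, C.d_one]
  | cons i l ih =>
    rw [wd_cons, sc_x, C.d_x, C.d_x, ih, map_add, map_smul, sc_x]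
    simp only [add_left_comm (al i)]
    split_ifs with h
    · subst h
      rfl
    · simp

theorem eps_del (j : I) (f : R) : C.eps (C.del j f) = C.eps (C.d j f) := by
  refine LinearMap.congr_fun (C.ext (f := C.eps ∘ₗ C.del j) (g := C.eps ∘ₗ C.d j) fun l => ?_) f
  cases l with
  | nil => simp [wd_nil, C.del_one, C.d_one]
  | cons i l =>
    simp only [LinearMap.comp_apply, wd_cons, C.del_x, C.d_x, map_add, map_smul, C.eps_x]
    split_ifs <;> simp [eps_sc, χ_zero_r]

theorem d_del (i j : I) (f : R) : C.d i (C.del j f) = C.del j (C.d i f) := by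
  refine LinearMap.congr_fun (C.ext (f := C.d i ∘ₗ C.del j) (g := C.del j ∘ₗ C.d i) fun l => ?_) f
  simp only [LinearMap.comp_apply]
  induction l with
  | nil => simp [wd_nil, C.del_one, C.d_one]
  | cons a l ih =>
    rw [wd_cons, C.del_x, C.d_x, map_add, map_add, C.d_x, map_smul, C.del_x, ih, smul_add,
      add_assoc]
    congr 1
    · split_ifs <;> simp
    congr 1
    split_ifs with h
    · subst h
      rw [d_sc, ← sc_smul]
      simp only [C.χ_r, Units.val_mul]
    · simp

/-- Iterated derivations. -/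
def dw : List I → R →ₗ[k] R
  | [] => LinearMap.id
  | j :: l => dw l ∘ₗ C.del j

theorem eps_dw_sc (l : List I) (φ : (I → ℤ) → k) (f : R) :
    C.eps (C.dw l (C.sc φ f)) = φ (C.dg l) * C.eps (C.dw l f) := by
  induction l generalizing f φ with
  | nil => rw [C.dg_nil]; exact C.eps_sc φ f
  | cons j l ih =>
    simp only [dw, LinearMap.comp_apply]
    rw [del_sc, ih, C.dg_cons]

theorem eps_dw_d (l : List I) (j : I) (f : R) :
    C.eps (C.dw (l ++ [j]) f) = C.eps (C.dw l (C.d j f)) := by
  induction l generalizing f with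
  | nil => exact C.eps_del j f
  | cons i l ih =>
    simp only [List.cons_append, dw, LinearMap.comp_apply]
    rw [ih, d_del]

theorem eps_dw_x (j : I) (l : List I) (f : R) (g : R →ₗ[k] k)
    (h : ∀ l', g (C.wd l') = C.eps (C.dw l' f)) :
    C.eps (C.dw l (C.x j * f)) = g (C.del j (C.wd l)) := by
  induction l generalizing f g with
  | nil => simp [dw, wd_nil, C.eps_x, C.del_one]
  | cons i l ih =>
    simp only [dw, LinearMap.comp_apply]
    rw [C.del_x, map_add, map_add, ih (C.del i f) (g ∘ₗ LinearMap.mulLeft k (C.x i))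
      (fun l' => by simpa [wd_cons, dw] using h (i :: l')), wd_cons, C.del_x, map_add]
    congr 1
    by_cases e : j = i
    · subst e
      simp [eps_dw_sc, sc_w, h]
    · simp [e, Ne.symm e]

theorem eps_dw_symm (l l' : List I) : C.eps (C.dw l (C.wd l')) = C.eps (C.dw l' (C.wd l)) := by
  induction l' generalizing l with
  | nil => cases l <;> simp [dw, wd_nil, wd_cons, C.eps_x, C.del_one]
  | cons j l' ih =>
    rw [wd_cons, C.eps_dw_x j l _ (C.eps ∘ₗ C.dw l') fun l0 => (ih l0).symm]
    rfl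

theorem ex_form : ∃ B : R →ₗ[k] R →ₗ[k] k, ∀ l, B (C.wd l) = C.eps ∘ₗ C.dw l :=
  C.lift _ fun c hc => C.ext fun l' => by
    have := congrArg (C.eps ∘ₗ C.dw l') hc
    rw [map_zero, Finsupp.apply_linearCombination] at this
    rw [LinearMap.zero_apply, ← this, Finsupp.linearCombination_apply,
      Finsupp.linearCombination_apply, Finsupp.sum, Finsupp.sum, LinearMap.sum_apply]
    exact Finset.sum_congr rfl fun l _ => by simp [C.eps_dw_symm l l']

/-- The invariant form. -/
noncomputable def B : R →ₗ[k] R →ₗ[k] k := C.ex_form.choose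

theorem B_wd (l : List I) (f : R) : C.B (C.wd l) f = C.eps (C.dw l f) :=
  LinearMap.congr_fun (C.ex_form.choose_spec l) f

theorem B_symm (e f : R) : C.B e f = C.B f e := by
  have : C.B = C.B.flip := C.ext fun l => C.ext fun l' => by
    rw [LinearMap.flip_apply, B_wd, B_wd, eps_dw_symm]
  rw [← LinearMap.flip_apply C.B, ← this]

theorem B_x (j : I) (e f : R) : C.B (C.x j * e) f = C.B e (C.del j f) :=
  LinearMap.congr_fun (C.ext (f := C.B.flip f ∘ₗ LinearMap.mulLeft k (C.x j))
    (g := C.B.flip (C.del j f)) fun l => by simp [← wd_cons, B_wd, dw]) e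

theorem B_x' (j : I) (e f : R) : C.B (e * C.x j) f = C.B e (C.d j f) :=
  LinearMap.congr_fun (C.ext (f := C.B.flip f ∘ₗ LinearMap.mulRight k (C.x j))
    (g := C.B.flip (C.d j f)) fun l => by
      have : C.wd l * C.x j = C.wd (l ++ [j]) := by simp [wd]
      simp [this, B_wd, eps_dw_d]) e

theorem B_sc (φ : (I → ℤ) → k) (e f : R) : C.B (C.sc φ e) f = C.B e (C.sc φ f) :=
  LinearMap.congr_fun (C.ext (f := C.B.flip f ∘ₗ C.sc φ) (g := C.B.flip (C.sc φ f)) fun l => by
    simp [sc_w, B_wd, eps_dw_sc]) e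

theorem B_one (f : R) : C.B f 1 = C.eps f := by
  rw [B_symm, ← C.wd_nil, B_wd]; rfl

end CI

end Pool.Agent.Lib.MP_ff61db_al.Pt.Cas
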