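import Pool.Agent.Lib.MP_ff61db_al.Pt.Cas1

/-! Lowering operators on the shifted copies of the algebra; graded subspaces. -/

set_option autoImplicit false

namespace Pool.Agent.Lib.MP_ff61db_al.Pt.Cas

variable {k I R : Type} [Field k] [DecidableEq I] [Ring R] [Algebra k R]

namespace CI

variable (C : CI k I R)

/-- The symmetrised bicharacter. -/
def s (m n : I → ℤ) : k := (C.χ m n : k) * C.χ n m

theorem s_add (a b c : I → ℤ) : C.s (a + b) c = C.s a c * C.s b c := by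
  simp only [s, C.χ_l, C.χ_r, Units.val_mul]; ring

/-- The lowering operators of the module of lowest degree l. -/
def F (l : I → ℤ) (i : I) : R →ₗ[k] R :=
  C.d i - (C.sc fun m => C.s l (al i) * C.χ m (al i)) ∘ₗ C.del i

/-- Scaling by the symmetrised bicharacter. -/
def S (l : I → ℤ) (j : I) : R →ₗ[k] R := C.sc fun m => C.s (l + m) (al j)

/-- Scaling by the bicharacter. -/
def G (j : I) : R →ₗ[k] R := C.sc fun m => C.χ (al j) m

/-- Scaling by the inverse of the bicharacter. -/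
def G' (j : I) : R →ₗ[k] R := C.sc fun m => ((C.χ m (al j) : k))⁻¹

variable (l : I → ℤ)

theorem F_one (i : I) : C.F l i 1 = 0 := by simp [F, C.d_one, C.del_one]

theorem F_x (i j : I) (b : R) : C.F l i (C.x j * b) =
    (C.χ (al j) (al i) : k) • (C.x j * C.F l i b) + if j = i then b - C.S l i b else 0 := by
  simp only [F, LinearMap.sub_apply, LinearMap.comp_apply, C.d_x, C.del_x, map_add, sc_x]
  have h1 : (C.sc fun m => C.s l (al i) * C.χ (al j + m) (al i)) (C.del i b) =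
      (C.χ (al j) (al i) : k) • (C.sc fun m => C.s l (al i) * C.χ m (al i)) (C.del i b) := by
    rw [← sc_smul]
    simp only [C.χ_l, Units.val_mul, mul_left_comm]
  rw [h1, mul_sub, smul_sub, mul_smul_comm]
  split_ifs with h
  · subst h
    rw [sc_sc, S]
    simp only [s_add]
    simp only [s, mul_assoc]
    abel
  · simp

theorem F_sc (i : I) (φ : (I → ℤ) → k) (f : R) :
    C.F l i (C.sc φ f) = C.sc (fun m => φ (al i + m)) (C.F l i f) := by
  simp only [F, LinearMap.sub_apply, LinearMap.comp_apply, d_sc, del_sc, map_sub, sc_sc, mul_comm]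

/-- Words in the lowering operators. -/
def Fw : List I → R →ₗ[k] R
  | [] => LinearMap.id
  | i :: w => C.F l i ∘ₗ Fw w

theorem Fw_sc (w : List I) (φ : (I → ℤ) → k) (f : R) :
    C.Fw l w (C.sc φ f) = C.sc (fun m => φ (C.dg w + m)) (C.Fw l w f) := by
  induction w with
  | nil => simp [Fw, C.dg_nil]
  | cons i w ih =>
    simp only [Fw, LinearMap.comp_apply]
    rw [ih, F_sc, C.dg_cons]
    simp only [add_assoc, add_left_comm]

theorem Fw_S (w : List I) (j : I) (v : R) :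
    (C.χ (al j) (C.dg w) : k) • C.S l j (C.Fw l w v) =
      ((C.χ (C.dg w) (al j) : k))⁻¹ • C.Fw l w (C.S l j v) := by
  rw [S, Fw_sc, ← sc_smul, ← sc_smul]
  congr 2
  funext m
  rw [add_left_comm, C.s_add (C.dg w), s, s]
  field_simp

theorem Φ_x {v : R} {Φ : R →ₗ[k] R} (h : ∀ w, Φ (C.wd w) = C.Fw l w v) (i : I) (f : R) :
    Φ (C.x i * f) = C.F l i (Φ f) :=
  LinearMap.congr_fun (C.ext (f := Φ ∘ₗ LinearMap.mulLeft k (C.x i)) (g := C.F l i ∘ₗ Φ)
    fun w => by simp [← wd_cons, h, Fw]) f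

theorem G_x (j i : I) (f : R) :
    C.G j (C.x i * f) = (C.χ (al j) (al i) : k) • (C.x i * C.G j f) := by
  rw [G, sc_x, ← mul_smul_comm, ← sc_smul]
  simp only [C.χ_r, Units.val_mul]

theorem G'_x (j i : I) (f : R) :
    (C.χ (al i) (al j) : k) • C.G' j (C.x i * f) = C.x i * C.G' j f := by
  rw [G', sc_x, ← mul_smul_comm, ← sc_smul]
  congr 3
  funext m
  simp only [C.χ_l, Units.val_mul]
  field_simp

theorem Fw_x (j : I) {v : R} {Φ Φ' : R →ₗ[k] R} (h : ∀ w, Φ (C.wd w) = C.Fw l w v)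
    (h' : ∀ w, Φ' (C.wd w) = C.Fw l w (C.S l j v)) (w : List I) :
    C.Fw l w (C.x j * v) =
      C.x j * Φ (C.G j (C.wd w)) + Φ (C.del j (C.wd w)) - Φ' (C.G' j (C.d j (C.wd w))) := by
  induction w with
  | nil =>
    have := h []
    simp only [Fw, wd_nil] at this
    simp [Fw, wd_nil, C.del_one, C.d_one, G, sc_one, χ_zero_r, this]
  | cons i w ih =>
    simp only [Fw, LinearMap.comp_apply]
    rw [ih, map_sub, map_add, F_x, wd_cons, G_x, C.del_x, C.d_x, map_add, map_add, map_smul,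
      map_smul, G'_x, map_add, C.Φ_x l h, C.Φ_x l h, C.Φ_x l h', mul_smul_comm]
    by_cases e : j = i
    · subst e
      have : C.S l j (Φ (C.G j (C.wd w))) = Φ' (C.G' j (C.wd w)) := by
        rw [G, G', sc_w, sc_w, map_smul, map_smul, map_smul, h, h', Fw_S]
      simp only [if_true, this]
      rw [← G]
      abel
    · simp [e, Ne.symm e]

theorem ex_Φ (u : List I) : ∃ Φ : R →ₗ[k] R, ∀ w, Φ (C.wd w) = C.Fw l w (C.wd u) := by
  induction u with
  | nil =>
    refine ⟨C.eps.smulRight 1, fun w => ?_⟩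
    induction w with
    | nil => simp [Fw, wd_nil, C.eps_one]
    | cons i w ih =>
      simp only [Fw, LinearMap.comp_apply]
      rw [← ih]
      simp [wd_cons, C.eps_x, F_one]
  | cons j u ih =>
    obtain ⟨Φ, h⟩ := ih
    have h' : ∀ w, (C.s (l + C.dg u) (al j) • Φ) (C.wd w) = C.Fw l w (C.S l j (C.wd u)) :=
      fun w => by simp [S, sc_w, h]
    refine ⟨LinearMap.mulLeft k (C.x j) ∘ₗ Φ ∘ₗ C.G j + Φ ∘ₗ C.del j -
      (C.s (l + C.dg u) (al j) • Φ) ∘ₗ C.G' j ∘ₗ C.d j, fun w => ?_⟩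
    rw [wd_cons, C.Fw_x l j h h']
    rfl

theorem ex_FF : ∃ FF : R →ₗ[k] R →ₗ[k] R, ∀ w, FF (C.wd w) = C.Fw l w :=
  C.lift _ fun c hc => C.ext fun u => by
    obtain ⟨Φ, h⟩ := C.ex_Φ l u
    have := congrArg Φ hc
    rw [map_zero, Finsupp.apply_linearCombination] at this
    rw [LinearMap.zero_apply, ← this, Finsupp.linearCombination_apply,
      Finsupp.linearCombination_apply, Finsupp.sum, Finsupp.sum, LinearMap.sum_apply]
    exact Finset.sum_congr rfl fun w _ => by simp [h]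

/-- The algebra acts through the lowering operators. -/
noncomputable def FF : R →ₗ[k] R →ₗ[k] R := (C.ex_FF l).choose

theorem FF_wd (w : List I) : C.FF l (C.wd w) = C.Fw l w := (C.ex_FF l).choose_spec w

theorem FF_x (j : I) (f v : R) : C.FF l f (C.x j * v) =
    C.x j * C.FF l (C.G j f) v + C.FF l (C.del j f) v - C.FF l (C.G' j (C.d j f)) (C.S l j v) :=
  LinearMap.congr_fun (C.ext (f := (C.FF l).flip (C.x j * v))
    (g := LinearMap.mulLeft k (C.x j) ∘ₗ (C.FF l).flip v ∘ₗ C.G j + (C.FF l).flip v ∘ₗ C.del j -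
      (C.FF l).flip (C.S l j v) ∘ₗ C.G' j ∘ₗ C.d j) fun w => by
    rw [LinearMap.flip_apply, FF_wd, C.Fw_x l j (Φ := (C.FF l).flip v)
      (Φ' := (C.FF l).flip (C.S l j v)) (fun w => by simp [FF_wd]) (fun w => by simp [FF_wd])]
    rfl) f

theorem FF_S (j : I) (f v : R) :
    C.S l j (C.FF l (C.G j f) v) = C.FF l (C.G' j f) (C.S l j v) :=
  LinearMap.congr_fun (C.ext (f := C.S l j ∘ₗ (C.FF l).flip v ∘ₗ C.G j)
    (g := (C.FF l).flip (C.S l j v) ∘ₗ C.G' j) fun w => by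
      simp [G, G', sc_w, FF_wd, Fw_S]) f

/-! Graded subspaces. -/

/-- The span of the words with degree in a given set. -/
def V (T : Set (I → ℤ)) : Submodule k R := Submodule.span k (C.wd '' {w | C.dg w ∈ T})

/-- The projection onto it. -/
noncomputable def pj (T : Set (I → ℤ)) : R →ₗ[k] R := C.sc (T.indicator 1)

theorem wd_mem {T : Set (I → ℤ)} {w : List I} (h : C.dg w ∈ T) : C.wd w ∈ C.V T :=
  Submodule.subset_span ⟨w, h, rfl⟩

theorem V_le {T : Set (I → ℤ)} {W : Submodule k R} (h : ∀ w, C.dg w ∈ T → C.wd w ∈ W) :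
    C.V T ≤ W :=
  Submodule.span_le.2 (by rintro _ ⟨w, hw, rfl⟩; exact h w hw)

theorem V_ext {M : Type} [AddCommGroup M] [Module k M] {T : Set (I → ℤ)} {f g : R →ₗ[k] M}
    (h : ∀ w, C.dg w ∈ T → f (C.wd w) = g (C.wd w)) {v : R} (hv : v ∈ C.V T) : f v = g v :=
  C.V_le (W := LinearMap.eqLocus f g) h hv

theorem pj_mem (T : Set (I → ℤ)) (f : R) : C.pj T f ∈ C.V T := by
  induction f using C.ind with
  | h0 => simp
  | ha a b h1 h2 => rw [map_add]; exact add_mem h1 h2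
  | hs c a h => rw [map_smul]; exact Submodule.smul_mem _ c h
  | hw w =>
    rw [pj, sc_w]
    by_cases h : C.dg w ∈ T
    · exact Submodule.smul_mem _ _ (C.wd_mem h)
    · simp [h]

theorem sc_V {T : Set (I → ℤ)} {φ ψ : (I → ℤ) → k} (h : ∀ m ∈ T, φ m = ψ m) {v : R}
    (hv : v ∈ C.V T) : C.sc φ v = C.sc ψ v :=
  C.V_ext (fun w hw => by rw [sc_w, sc_w, h _ hw]) hv

theorem mem_V {T : Set (I → ℤ)} {f : R} : f ∈ C.V T ↔ C.pj T f = f :=
  ⟨fun h => (C.sc_V (ψ := fun _ => 1) (fun m hm => by simp [hm]) h).trans (C.sc_id f),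
    fun h => h ▸ C.pj_mem T f⟩

theorem V_mono {T T' : Set (I → ℤ)} (h : T ⊆ T') : C.V T ≤ C.V T' :=
  C.V_le fun _ hw => C.wd_mem (h hw)

theorem sc_mem {T : Set (I → ℤ)} (φ : (I → ℤ) → k) {v : R} (hv : v ∈ C.V T) :
    C.sc φ v ∈ C.V T :=
  C.V_le (W := (C.V T).comap (C.sc φ)) (fun w hw => by
    rw [Submodule.mem_comap, sc_w]; exact Submodule.smul_mem _ _ (C.wd_mem hw)) hv

theorem low_mem {T T' : Set (I → ℤ)} {a : I → ℤ} (D : R →ₗ[k] R)
    (hD : ∀ φ f, D (C.sc φ f) = C.sc (fun m => φ (a + m)) (D f))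
    (h : ∀ m, a + m ∈ T → m ∈ T') {v : R} (hv : v ∈ C.V T) : D v ∈ C.V T' := by
  rw [mem_V] at hv ⊢
  rw [← hv, pj, pj, hD, sc_sc]
  congr 2
  funext m
  by_cases e : a + m ∈ T
  · simp [e, h m e]
  · simp [e]

theorem mul_mem {T T' T'' : Set (I → ℤ)} (h : ∀ m ∈ T, ∀ n ∈ T', m + n ∈ T'') {u v : R}
    (hu : u ∈ C.V T) (hv : v ∈ C.V T') : u * v ∈ C.V T'' :=
  C.V_le (W := (C.V T'').comap (LinearMap.mulRight k v)) (fun w hw =>
    C.V_le (W := (C.V T'').comap (LinearMap.mulLeft k (C.wd w))) (fun w' hw' => by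
      simp only [Submodule.mem_comap, LinearMap.mulLeft_apply, ← wd_append]
      exact C.wd_mem (by rw [dg_append]; exact h _ hw _ hw')) hv) hu

theorem x_mem (j : I) : C.x j ∈ C.V {al j} := by
  have : C.wd [j] = C.x j := by simp [wd]
  rw [← this]
  exact C.wd_mem (by simp [C.dg_cons, C.dg_nil])

theorem sc_hom {m : I → ℤ} {v : R} (hv : v ∈ C.V {m}) (φ : (I → ℤ) → k) : C.sc φ v = φ m • v := by
  rw [C.sc_V (ψ := fun _ => φ m * 1) (by simp) hv, sc_smul, sc_id]

theorem sc_mul {m : I → ℤ} {v : R} (hv : v ∈ C.V {m}) (φ : (I → ℤ) → k) (b : R) :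
    C.sc φ (b * v) = C.sc (fun n => φ (n + m)) b * v :=
  LinearMap.congr_fun (C.ext (f := C.sc φ ∘ₗ LinearMap.mulRight k v)
    (g := LinearMap.mulRight k v ∘ₗ C.sc fun n => φ (n + m)) fun w => by
      have : C.wd w * v ∈ C.V {C.dg w + m} :=
        C.mul_mem (T := {C.dg w}) (by simp) (C.wd_mem rfl) hv
      simp [sc_w, C.sc_hom this]) b

theorem V_bot {T : Set (I → ℤ)} (h : ∀ m ∈ T, ¬0 ≤ m) : C.V T = ⊥ :=
  eq_bot_iff.2 (C.V_le fun w hw => (h _ hw (C.dg_nonneg w)).elim)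

end CI

end Pool.Agent.Lib.MP_ff61db_al.Pt.Cas
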