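import Pool.Agent.Lib.MP_ff61db_al.Pt.Cas2

/-! The Casimir operator. -/

set_option autoImplicit false

namespace Pool.Agent.Lib.MP_ff61db_al.Pt.Cas

variable {k I R : Type} [Field k] [DecidableEq I] [Fintype I] [Ring R] [Algebra k R]

/-- Degrees of height less than N. -/
def lo (I : Type) [Fintype I] (N : ℕ) : Set (I → ℤ) := {m | ∑ i, m i < N}

theorem sum_al (j : I) (m : I → ℤ) : ∑ i, (al j + m) i = 1 + ∑ i, m i := by
  simp [Finset.sum_add_distrib]

omit [DecidableEq I] in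
theorem not_nonneg {m : I → ℤ} (h : ∑ i, m i < 0) : ¬0 ≤ m := fun h' =>
  absurd (Finset.sum_nonneg fun i _ => h' i) (not_le.2 h)

namespace CI

variable (C : CI k I R)

theorem sum_dg (w : List I) : ∑ i, C.dg w i = w.length := by
  induction w with
  | nil => simp [C.dg_nil]
  | cons j w ih => rw [C.dg_cons, sum_al, ih]; simp [add_comm]

theorem dg_lo {w : List I} {N : ℕ} : C.dg w ∈ lo I N ↔ w.length < N := by
  simp [lo, sum_dg]

instance fin_lo (N : ℕ) : Module.Finite k (C.V (lo I N)) :=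
  Module.Finite.span_of_finite k (Set.Finite.image _ (by
    simpa only [dg_lo] using List.finite_length_lt I N))

theorem ex_lo (f : R) : ∃ N, f ∈ C.V (lo I N) := by
  induction f using C.ind with
  | h0 => exact ⟨0, zero_mem _⟩
  | ha a b h1 h2 =>
    obtain ⟨N, h1⟩ := h1
    obtain ⟨M, h2⟩ := h2
    exact ⟨N + M, add_mem (C.V_mono (fun m => by simp only [lo, Set.mem_ofPred]; omega) h1)
      (C.V_mono (fun m => by simp only [lo, Set.mem_ofPred]; omega) h2)⟩
  | hs c a h => exact h.imp fun N h => Submodule.smul_mem _ c h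
  | hw w => exact ⟨w.length + 1, C.wd_mem (C.dg_lo.2 (Nat.lt_succ_self _))⟩

theorem low_lo {N : ℕ} {j : I} (D : R →ₗ[k] R)
    (hD : ∀ φ f, D (C.sc φ f) = C.sc (fun m => φ (al j + m)) (D f)) {v : R}
    (hv : v ∈ C.V (lo I (N + 1))) : D v ∈ C.V (lo I N) :=
  C.low_mem D hD (fun m => by simp only [lo, Set.mem_ofPred, sum_al]; omega) hv

theorem B_nd {f : R} (h : ∀ e, C.B e f = 0) : f = 0 := by
  obtain ⟨N, hN⟩ := C.ex_lo f
  induction N generalizing f with
  | zero => rwa [C.V_bot fun m hm => not_nonneg (by simpa [lo] using hm)] at hN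
  | succ N ih =>
    exact C.nic f (by rw [← B_one, B_symm, h]) fun j =>
      ih (fun e => by rw [← B_x, h]) (C.low_lo _ (C.del_sc j) hN)

/-- A pair of dual bases. -/
structure DB (N : ℕ) where
  /-- the size -/
  n : ℕ
  /-- the first basis -/
  e : Fin n → R
  /-- the second basis -/
  e' : Fin n → R
  he : ∀ i, e i ∈ C.V (lo I N)
  he' : ∀ i, e' i ∈ C.V (lo I N)
  ex : ∀ f ∈ C.V (lo I N), f = ∑ i, C.B f (e' i) • e i
  ex' : ∀ f ∈ C.V (lo I N), f = ∑ i, C.B (e i) f • e' i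

theorem ex_DB (N : ℕ) : Nonempty (C.DB N) := by
  let W := C.V (lo I N)
  let B : LinearMap.BilinForm k W := C.B.compl₁₂ W.subtype W.subtype
  have h1 : ∀ f : W, (∀ e : W, C.B e f = 0) → f = 0 := fun f h => Subtype.ext (C.B_nd fun e => by
    rw [← C.mem_V.1 f.2, pj, ← B_sc]
    exact h ⟨_, C.pj_mem _ e⟩)
  have hB : B.Nondegenerate := ⟨fun f h => h1 f fun e => (C.B_symm _ _).trans (h e), h1⟩
  let b := Module.finBasis k W
  refine ⟨⟨_, fun i => b i, fun i => B.dualBasis hB b i, fun i => (b i).2,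
    fun i => (B.dualBasis hB b i).2, fun f hf => ?_, fun f hf => ?_⟩⟩
  · have := congrArg W.subtype (b.sum_repr ⟨f, hf⟩)
    rw [map_sum] at this
    refine this.symm.trans (Finset.sum_congr rfl fun i _ => ?_)
    have h2 := (B.dualBasis hB (B.dualBasis hB b)).repr ⟨f, hf⟩ i
    have h3 := LinearMap.BilinForm.dualBasis_repr_apply hB (B.dualBasis hB b) ⟨f, hf⟩ i
    rw [LinearMap.BilinForm.dualBasis_dualBasis hB ⟨fun x y => C.B_symm _ _⟩] at h3
    rw [map_smul, h3]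
    rfl
  · have := congrArg W.subtype ((B.dualBasis hB b).sum_repr ⟨f, hf⟩)
    rw [map_sum] at this
    refine this.symm.trans (Finset.sum_congr rfl fun i _ => ?_)
    rw [map_smul, LinearMap.BilinForm.dualBasis_repr_apply, B_symm]
    rfl

theorem trace {N M : ℕ} (D : C.DB N) (E : C.DB M) (A A' Q : R →ₗ[k] R)
    (hA : ∀ e ∈ C.V (lo I N), A e ∈ C.V (lo I M)) (hA' : ∀ f ∈ C.V (lo I M), A' f ∈ C.V (lo I N))
    (h : ∀ e ∈ C.V (lo I N), ∀ f, C.B (A e) f = C.B e (A' f)) :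
    ∑ j, E.e j * Q (A' (E.e' j)) = ∑ i, A (D.e i) * Q (D.e' i) := by
  calc _ = ∑ j, ∑ i, C.B (A (D.e i)) (E.e' j) • (E.e j * Q (D.e' i)) :=
        Finset.sum_congr rfl fun j _ => by
          rw [D.ex' _ (hA' _ (E.he' j)), map_sum, Finset.mul_sum]
          exact Finset.sum_congr rfl fun i _ => by rw [h _ (D.he i), map_smul, mul_smul_comm]
    _ = _ := by
      rw [Finset.sum_comm]
      refine Finset.sum_congr rfl fun i _ => ?_
      conv_rhs => rw [E.ex _ (hA _ (D.he i)), Finset.sum_mul]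
      simp only [smul_mul_assoc]

variable (l : I → ℤ)

theorem FF_pj {N : ℕ} {u : R} (hu : u ∈ C.V (lo I N)) (f : R) :
    C.FF l (C.pj (lo I N) f) u = C.FF l f u :=
  LinearMap.congr_fun (C.ext (f := (C.FF l).flip u ∘ₗ C.pj (lo I N)) (g := (C.FF l).flip u)
    fun w => by
      by_cases e : C.dg w ∈ lo I N
      · simp [pj, sc_w, e]
      · have := C.low_mem (T' := {m | C.dg w + m ∈ lo I N}) _ (C.Fw_sc l w) (fun _ => id) hu
        rw [C.V_bot fun m hm => not_nonneg (by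
          simp only [lo, Set.mem_ofPred, Pi.add_apply, Finset.sum_add_distrib] at e hm
          omega), Submodule.mem_bot] at this
        simp [pj, sc_w, e, FF_wd, this]) f

variable (θ : (I → ℤ) → k)

/-- Scaling by the quadratic function. -/
def Θ : R →ₗ[k] R := C.sc fun m => θ (l + m)

/-- The Casimir operator. -/
noncomputable def Om {N : ℕ} (D : C.DB N) : R →ₗ[k] R :=
  ∑ i, LinearMap.mulLeft k (D.e i) ∘ₗ C.Θ l θ ∘ₗ C.FF l (D.e' i)

theorem Om_apply {N : ℕ} (D : C.DB N) (v : R) :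
    C.Om l θ D v = ∑ i, D.e i * C.Θ l θ (C.FF l (D.e' i) v) := by
  simp [Om]

variable {θ}

theorem Om_x (hθ : ∀ m j, θ (al j + m) = θ m * C.s m (al j)) {N : ℕ} (D : C.DB N)
    (E : C.DB (N + 1)) (j : I) {v : R} (hv : v ∈ C.V (lo I N)) :
    C.Om l θ E (C.x j * v) = C.x j * C.Om l θ D v := by
  have t0 : ∀ u, C.Θ l θ (C.x j * u) = C.x j * C.Θ l θ (C.S l j u) := fun u => by
    rw [Θ, sc_x, S, sc_sc]
    simp only [add_left_comm l, hθ]
  have t2 := C.trace D E (LinearMap.mulLeft k (C.x j)) (C.del j) (C.Θ l θ ∘ₗ (C.FF l).flip v)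
    (fun e he => C.mul_mem (fun m hm n => by
      simp only [Set.mem_singleton_iff.1 hm, lo, Set.mem_ofPred, sum_al]; omega) (C.x_mem j) he)
    (fun f => C.low_lo _ (C.del_sc j)) fun e _ f => C.B_x j e f
  have t3 := C.trace D E (LinearMap.mulRight k (C.x j) ∘ₗ C.G' j) (C.G' j ∘ₗ C.d j)
    (C.Θ l θ ∘ₗ (C.FF l).flip (C.S l j v))
    (fun e he => C.mul_mem (fun m hm n hn => by
      simp only [Set.mem_singleton_iff.1 hn, lo, Set.mem_ofPred, add_comm m, sum_al] at hm ⊢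
      omega) (C.sc_mem _ he) (C.x_mem j))
    (fun f hf => C.sc_mem _ (C.low_lo _ (C.d_sc j) hf))
    fun e _ f => (C.B_x' j _ f).trans (C.B_sc _ _ _)
  have t1 := C.trace D E (C.G' j) (C.pj (lo I N) ∘ₗ C.G' j)
    (LinearMap.mulLeft k (C.x j) ∘ₗ C.Θ l θ ∘ₗ (C.FF l).flip (C.S l j v))
    (fun e he => C.V_mono (fun m => by simp only [lo, Set.mem_ofPred]; omega) (C.sc_mem _ he))
    (fun f _ => C.pj_mem _ _) fun e he f => by
      rw [LinearMap.comp_apply, pj, ← B_sc, ← pj, C.mem_V.1 he, G', B_sc]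
  have hS : C.S l j v ∈ C.V (lo I N) := C.sc_mem _ hv
  simp only [LinearMap.comp_apply, LinearMap.flip_apply, LinearMap.mulLeft_apply,
    LinearMap.mulRight_apply, mul_assoc, C.FF_pj l hS] at t1 t2 t3
  simp only [Om_apply, FF_x, map_add, map_sub, mul_add, mul_sub, Finset.sum_add_distrib,
    Finset.sum_sub_distrib, t0, FF_S, t1, t2, t3, Finset.mul_sum]
  abel

/-- Submodules of the module of lowest degree l. -/
structure Ob (P : Submodule k R) : Prop where
  mul : ∀ b, ∀ p ∈ P, b * p ∈ P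
  sc : ∀ φ, ∀ p ∈ P, C.sc φ p ∈ P
  F : ∀ i, ∀ p ∈ P, C.F l i p ∈ P

omit [Fintype I] in
theorem Ob_bot : C.Ob l ⊥ := ⟨by simp, by simp, by simp⟩

omit [Fintype I] in
theorem Ob_top : C.Ob l ⊤ := ⟨by simp, by simp, by simp⟩

variable {l}

omit [Fintype I] in
theorem FF_low {Q : Submodule k R} (hQ : C.Ob l Q) {v : R} (hv : ∀ i, C.F l i v ∈ Q) (f : R) :
    C.FF l f v - C.eps f • v ∈ Q := by
  induction f using C.ind with
  | h0 => simp
  | ha a b h1 h2 =>
    have := add_mem h1 h2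
    rwa [sub_add_sub_comm, ← add_smul, ← map_add, ← LinearMap.add_apply, ← map_add] at this
  | hs c a h =>
    simpa [smul_sub, smul_smul] using Q.smul_mem c h
  | hw w =>
    rw [FF_wd]
    induction w with
    | nil => simp [Fw, wd_nil, C.eps_one]
    | cons i w ih =>
      have := add_mem (hQ.F i _ ih) (Q.smul_mem (C.eps (C.wd w)) (hv i))
      simpa [Fw, wd_cons, C.eps_x] using this

theorem Om_low {Q : Submodule k R} (hQ : C.Ob l Q) {v : R} (hv : ∀ i, C.F l i v ∈ Q) {N : ℕ}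
    (D : C.DB (N + 1)) : C.Om l θ D v - C.Θ l θ v ∈ Q := by
  have h1 := D.ex (C.wd []) (C.wd_mem (C.dg_lo.2 (Nat.succ_pos N)))
  rw [wd_nil] at h1
  rw [Om_apply, ← one_mul (C.Θ l θ v), h1, Finset.sum_mul, ← Finset.sum_sub_distrib]
  refine sum_mem fun i _ => ?_
  rw [B_symm, B_one, smul_mul_assoc, ← mul_smul_comm, ← mul_sub, ← map_smul, ← map_sub]
  exact hQ.mul _ _ (hQ.sc _ _ (C.FF_low hQ hv _))

theorem Om_eq (hθ : ∀ m j, θ (al j + m) = θ m * C.s m (al j)) {N : ℕ} (D : C.DB N) {v : R}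
    (hv : v ∈ C.V (lo I N)) : C.Om l θ D v = θ l • v := by
  refine C.V_ext (g := θ l • LinearMap.id) (fun w hw => ?_) hv
  rw [dg_lo] at hw
  clear hv
  induction w generalizing N with
  | nil =>
    obtain ⟨N, rfl⟩ := Nat.exists_eq_succ_of_ne_zero hw.ne'
    have := C.Om_low (θ := θ) (C.Ob_bot l) (v := 1) (fun i => by simp [F_one]) D
    simpa [wd_nil, sub_eq_zero, Θ, sc_one] using this
  | cons j w ih =>
    obtain ⟨N, rfl⟩ := Nat.exists_eq_succ_of_ne_zero (Nat.zero_lt_of_lt hw).ne'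
    obtain ⟨D'⟩ := C.ex_DB N
    have hw' : w.length < N := by simpa using hw
    rw [wd_cons, C.Om_x l hθ D' D j (C.wd_mem (C.dg_lo.2 hw')), ih D' hw']
    simp

theorem hom_lo {m : I → ℤ} : C.V {m} ≤ C.V (lo I ((∑ i, m i).toNat + 1)) :=
  C.V_mono (by simp only [Set.singleton_subset_iff, lo, Set.mem_ofPred]; omega)

theorem θ_low (hθ : ∀ m j, θ (al j + m) = θ m * C.s m (al j)) {Q : Submodule k R} (hQ : C.Ob l Q)
    {m : I → ℤ} {v : R} (hm : v ∈ C.V {m}) (hv : ∀ i, C.F l i v ∈ Q) (h : v ∉ Q) :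
    θ (l + m) = θ l := by
  obtain ⟨D⟩ := C.ex_DB ((∑ i, m i).toNat + 1)
  have := C.Om_low (θ := θ) hQ hv D
  rw [C.Om_eq hθ D (C.hom_lo hm), Θ, C.sc_hom hm, ← sub_smul] at this
  by_contra e
  exact h ((Q.smul_mem_iff (sub_ne_zero.2 (Ne.symm e))).1 this)

end CI

end Pool.Agent.Lib.MP_ff61db_al.Pt.Cas
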