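import Mathlib

/-! Definitions for the noetherian property of pre-Nichols algebras of diagonal type. -/

namespace Pool.Agent.Lib.MP_ff61db_al.Pt

open TensorProduct

section Words
variable {I : Type}

/-- The value of a word. -/
def wd {R : Type} [Monoid R] (x : I → R) (l : List I) : R := (l.map x).prod

/-- The span of the values of a set of words. -/
def wsp (k : Type) [Field k] {R : Type} [Ring R] [Algebra k R] (x : I → R) (S : Set (List I)) :
    Submodule k R := Submodule.span k (wd x '' S)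

/-- The value of a linear combination of words. -/
noncomputable def lc (k : Type) [Field k] {R : Type} [Ring R] [Algebra k R] (x : I → R) :
    (List I →₀ k) →ₗ[k] R := Finsupp.linearCombination k (wd x)

/-- The weight of a word. -/
def wl {Λ : Type} [AddCommMonoid Λ] (w : I → Λ) (l : List I) : Λ := (l.map w).sum

variable [DecidableEq I]

/-- The degree of a letter. -/
def e (i : I) : I → ℤ := Pi.single i 1

/-- The degree of a word. -/
def deg (l : List I) : I → ℤ := (l.map e).sum

end Words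

section Deg
variable {I : Type} [Fintype I]

/-- Total degree. -/
def ht (μ : I → ℤ) : ℤ := ∑ i, μ i

/-- Weighted total degree. -/
def wt (w : I → ℤ) (μ : I → ℤ) : ℤ := ∑ i, w i * μ i

/-- Strictly smaller for the pair of weights, in lexicographic order. -/
def Low (w₁ w₂ : I → ℤ) (μ ν : I → ℤ) : Prop :=
  wt w₁ μ < wt w₁ ν ∨ (wt w₁ μ = wt w₁ ν ∧ wt w₂ μ < wt w₂ ν)

/-- The coarse degree attached to degrees `dg i` of the letters. -/
def push {J : Type} (dg : I → J → ℤ) : (I → ℤ) →+ (J → ℤ) where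
  toFun μ := ∑ i, μ i • dg i
  map_zero' := by simp
  map_add' μ ν := by simp [add_smul, Finset.sum_add_distrib]

/-- The bicharacter with matrix `q`. -/
def chi {M : Type} [CommGroup M] (q : I → I → M) (μ ν : I → ℤ) : M :=
  ∏ i, ∏ j, q i j ^ (μ i * ν j)

/-- The quadratic function of the Casimir operator. -/
def theta {M : Type} [CommGroup M] (q : I → I → M) (μ : I → ℤ) : M :=
  chi q μ μ * (∏ i, q i i ^ μ i)⁻¹

/-- Degrees in the radical of the symmetrised bicharacter. -/
def Rad {M : Type} [CommGroup M] [DecidableEq I] (q : I → I → M) (μ : I → ℤ) : Prop :=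
  ∀ j, chi q μ (e j) * chi q (e j) μ = 1

/-- Supported on degrees with nonnegative coordinates. -/
def Cone {A : Type} [Zero A] (a : (I → ℤ) → A) : Prop := ∀ μ, a μ ≠ 0 → 0 ≤ μ

/-- Polynomial growth. -/
def PG (H : (I → ℤ) → ℕ) : Prop :=
  ∃ C d : ℕ, ∀ (n : ℕ) (S : Finset (I → ℤ)), (∀ μ ∈ S, ht μ ≤ n) → ∑ μ ∈ S, H μ ≤ C * (n + 1) ^ d

variable [DecidableEq I]

/-- Product of power series, on coefficient functions. -/
noncomputable def cv {A : Type} [Semiring A] (a b : (I → ℤ) → A) (μ : I → ℤ) : A :=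
  ∑ ν ∈ Finset.Icc 0 μ, a ν * b (μ - ν)

/-- The series `1`. -/
def dlt (A : Type) [Semiring A] (μ : I → ℤ) : A := if μ = 0 then 1 else 0

/-- The series `1 + t_i + ... + t_i ^ (h - 1)`. -/
def tr (h : ℕ) (i : I) (μ : I → ℤ) : ℕ :=
  ∑ n ∈ Finset.range h, if μ = (n : ℤ) • e i then 1 else 0

/-- The reflection `e i ↦ - e i`, `e j ↦ e j + m j • e i`. -/
def sref (m : I → ℕ) (i : I) : (I → ℤ) →ₗ[ℤ] (I → ℤ) where
  toFun μ := μ + ((∑ j ∈ Finset.univ.erase i, (m j : ℤ) * μ j) - 2 * μ i) • e i
  map_add' μ ν := by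
    simp only [Pi.add_apply, mul_add, Finset.sum_add_distrib]
    module
  map_smul' c μ := by
    have : (∑ j ∈ Finset.univ.erase i, (m j : ℤ) * (c * μ j)) =
        c * ∑ j ∈ Finset.univ.erase i, (m j : ℤ) * μ j := by
      rw [Finset.mul_sum]; exact Finset.sum_congr rfl fun j _ => by ring
    simp only [Pi.smul_apply, smul_eq_mul, RingHom.id_apply, this]
    module

/-- `H = κ h(t_i)` and `H' = s(κ) h(t_i)`. -/
def ReflDat (H H' : (I → ℤ) → ℕ) (m : I → ℕ) (h : ℕ) (i : I) : Prop :=
  ∃ κ κ' : (I → ℤ) → ℕ, κ 0 = 1 ∧ Cone κ ∧ Cone κ' ∧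
    (∀ μ, κ μ ≠ 0 → μ ≠ 0 → ∃ j, j ≠ i ∧ μ j ≠ 0) ∧ (∀ μ, κ' (sref m i μ) = κ μ) ∧
    H = cv κ (tr h i) ∧ H' = cv κ' (tr h i)

/-- For each additive map to a linearly ordered group the series splits as a product of a part
on nonnegative values and a part on negative values. -/
def HNcut (H : (I → ℤ) → ℕ) : Prop :=
  ∀ (Λ : Type) [AddCommGroup Λ] [LinearOrder Λ] [IsOrderedAddMonoid Λ] (f : (I → ℤ) →+ Λ),
    ∃ κ u : (I → ℤ) → ℕ, κ 0 = 1 ∧ u 0 = 1 ∧ Cone κ ∧ Cone u ∧ (∀ μ, κ μ ≠ 0 → 0 ≤ f μ) ∧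
      (∀ μ, u μ ≠ 0 → μ = 0 ∨ f μ < 0) ∧ H = cv κ u

/-- A family of Hilbert series related by reflections. -/
structure RD (I X : Type) [Fintype I] [DecidableEq I] where
  r : I → X → X
  m : X → I → I → ℕ
  h : X → I → ℕ
  H : X → (I → ℤ) → ℕ
  two_le : ∀ x i, 2 ≤ h x i
  r_r : ∀ x i, r i (r i x) = x
  m_r : ∀ x i j, j ≠ i → m (r i x) i j = m x i j
  h_r : ∀ x i, h (r i x) i = h x i
  refl : ∀ x i, ReflDat (H x) (H (r i x)) (m x i) (h x i) i

/-- The end point of a path of reflections (the head of the list is applied first). -/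
def RD.obj {X : Type} (D : RD I X) : X → List I → X
  | x, [] => x
  | x, i :: l => D.obj (D.r i x) l

/-- The linear map of a path of reflections. -/
def RD.w {X : Type} (D : RD I X) : X → List I → (I → ℤ) →ₗ[ℤ] (I → ℤ)
  | _, [] => LinearMap.id
  | x, i :: l => D.w (D.r i x) l ∘ₗ sref (D.m x i) i

/-- The terms of the braided coproduct of a word. -/
def sh {M : Type} [CommGroup M] (q : I → I → M) : List I → List (M × List I × List I)
  | [] => [(1, [], [])]
  | i :: l => (sh q l).map (fun p => (p.1, i :: p.2.1, p.2.2)) ++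
      (sh q l).map (fun p => (chi q (e i) (deg p.2.1) * p.1, p.2.1, i :: p.2.2))

end Deg

section Alg
variable {k : Type} [Field k] {I : Type} [Fintype I] [DecidableEq I]

/-- The braided coproduct of a word in primitive letters. -/
noncomputable def copw (q : I → I → kˣ) {R : Type} [Ring R] [Algebra k R] (x : I → R)
    (l : List I) : R ⊗[k] R :=
  ((sh q l).map fun p => (p.1 : k) • (wd x p.2.1 ⊗ₜ[k] wd x p.2.2)).sum

/-- The algebra is graded by the coarse degrees of the words. -/
def CGr (k : Type) [Field k] {J : Type} [DecidableEq (J → ℤ)] (dg : I → J → ℤ) {R : Type} [Ring R]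
    [Algebra k R] (x : I → R) : Prop :=
  ∃ pr : (J → ℤ) → R →ₗ[k] R, ∀ ν l,
    pr ν (wd x l) = if push dg (deg l) = ν then wd x l else 0

/-- The coarse Hilbert function. -/
noncomputable def chil (k : Type) [Field k] {J : Type} (dg : I → J → ℤ) {R : Type} [Ring R]
    [Algebra k R] (x : I → R) (ν : J → ℤ) : ℕ :=
  Module.finrank k (wsp k x {l | push dg (deg l) = ν})

/-- A pre-Nichols algebra of diagonal type with braiding matrix `q`. -/
structure PN (k : Type) [Field k] {I : Type} [Fintype I] [DecidableEq I] (q : I → I → kˣ)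
    (R : Type) [Ring R] [Algebra k R] where
  x : I → R
  span : wsp k x Set.univ = ⊤
  pr : (I → ℤ) → R →ₗ[k] R
  pr_wd : ∀ μ l, pr μ (wd x l) = if deg l = μ then wd x l else 0
  eps : R →ₗ[k] k
  eps_wd : ∀ l, eps (wd x l) = if l = [] then 1 else 0
  D : R →ₗ[k] R ⊗[k] R
  D_wd : ∀ l, D (wd x l) = copw q x l

namespace PN
variable {q : I → I → kˣ} {R : Type} [Ring R] [Algebra k R] (P : PN k q R)

/-- The homogeneous component. -/
def piece (μ : I → ℤ) : Submodule k R := wsp k P.x {l | deg l = μ}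

/-- The Hilbert function. -/
noncomputable def hil (μ : I → ℤ) : ℕ := Module.finrank k (P.piece μ)

/-- The Hilbert function of a subspace. -/
noncomputable def hilS (K : Submodule k R) (μ : I → ℤ) : ℕ :=
  Module.finrank k (K ⊓ P.piece μ : Submodule k R)

/-- The Hilbert function of a quotient. -/
noncomputable def hilQ (N : Submodule k R) (μ : I → ℤ) : ℕ :=
  Module.finrank k ((P.piece μ).map N.mkQ)

/-- A graded subspace. -/
def Graded (K : Submodule k R) : Prop := ∀ μ, ∀ a ∈ K, P.pr μ a ∈ K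

/-- No letter is zero. -/
def Alive : Prop := ∀ i, P.x i ≠ 0

open Classical in
/-- The coefficient of a letter. -/
noncomputable def co (i : I) : R →ₗ[k] k :=
  if h : ∃ f : R →ₗ[k] k, ∀ l, f (wd P.x l) = if l = [i] then 1 else 0 then h.choose else 0

/-- The skew derivation `(id ⊗ co i) D`. -/
noncomputable def del (i : I) : R →ₗ[k] R :=
  (TensorProduct.rid k R).toLinearMap ∘ₗ (P.co i).lTensor R ∘ₗ P.D

/-- The skew derivation `(co i ⊗ id) D`. -/
noncomputable def dl (i : I) : R →ₗ[k] R :=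
  (TensorProduct.lid k R).toLinearMap ∘ₗ (P.co i).rTensor R ∘ₗ P.D

/-- Iterated skew derivation; the last letter of the list acts first. -/
noncomputable def dels (l : List I) : R →ₗ[k] R := (l.map P.del).prod

/-- The Nichols property. -/
def Nich : Prop := P.Alive ∧ ∀ a, P.eps a = 0 → (∀ j, P.del j a = 0) → a = 0

/-- The kernel of the map onto the Nichols algebra of the letters in `A`. -/
noncomputable def JS (A : Set I) : Submodule k R :=
  ⨅ l ∈ {l : List I | ∀ i ∈ l, i ∈ A}, LinearMap.ker (P.eps ∘ₗ P.dels l)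

/-- A graded right ideal which is a coideal. -/
structure RCo (N : Submodule k R) : Prop where
  graded : P.Graded N
  right : ∀ a ∈ N, ∀ b, a * b ∈ N
  eps : ∀ a ∈ N, P.eps a = 0
  coid : ∀ a ∈ N, TensorProduct.map N.mkQ N.mkQ (P.D a) = 0

/-- The coinvariants. -/
noncomputable def coinv (N : Submodule k R) : Submodule k R :=
  LinearMap.eqLocus (N.mkQ.lTensor R ∘ₗ P.D) ((TensorProduct.mk k R (R ⧸ N)).flip (N.mkQ 1))

end PN

/-- A Nichols algebra with its carrier. -/
structure NP (k : Type) [Field k] {I : Type} [Fintype I] [DecidableEq I] (q : I → I → kˣ) where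
  R : Type
  [ring : Ring R]
  [alg : Algebra k R]
  P : PN k q R
  nich : P.Nich

attribute [instance] NP.ring NP.alg

open Classical in
/-- The Hilbert function of the Nichols algebra. -/
noncomputable def hN (q : I → I → kˣ) (μ : I → ℤ) : ℕ :=
  if h : Nonempty (NP k q) then (Classical.choice h).P.hil μ else 0

/-- The quantum integer. -/
def qint (a : k) (n : ℕ) : k := ∑ t ∈ Finset.range n, a ^ t

/-- Every letter has finite height. -/
def Tor (q : I → I → kˣ) : Prop := ∀ i, ∃ n, 0 < n ∧ qint (q i i : k) n = 0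

/-- The height of a letter. -/
noncomputable def hh (q : I → I → kˣ) (i : I) : ℕ := sInf {n | 0 < n ∧ qint (q i i : k) n = 0}

/-- The Cartan entry, with opposite sign. -/
noncomputable def mm (q : I → I → kˣ) (i j : I) : ℕ :=
  sInf {m | qint (q i i : k) (m + 1) * (1 - (q i i : k) ^ m * ((q i j : k) * (q j i : k))) = 0}

/-- The reflected braiding matrix. -/
noncomputable def rq (i : I) (q : I → I → kˣ) (a b : I) : kˣ :=
  chi q (sref (mm q i) i (e a)) (sref (mm q i) i (e b))

/-- A stage of the tower over the matrix `q₀`. -/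
structure Stage (k : Type) [Field k] {J : Type} [Fintype J] [DecidableEq J] (q₀ : J → J → kˣ) where
  I : Type
  [fI : Fintype I]
  [dI : DecidableEq I]
  dg : I → J → ℤ
  nonneg : ∀ i, 0 ≤ dg i
  ne : ∀ i, dg i ≠ 0
  orig : ∀ j, ∃ i, dg i = e j
  R : Type
  [ring : Ring R]
  [alg : Algebra k R]
  P : PN k (fun a b => chi q₀ (dg a) (dg b)) R
  alive : P.Alive

attribute [instance] Stage.fI Stage.dI Stage.ring Stage.alg

namespace Stage
variable {J : Type} [Fintype J] [DecidableEq J] {q₀ : J → J → kˣ}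

/-- The braiding matrix of a stage. -/
def q (S : Stage k q₀) (a b : S.I) : kˣ := chi q₀ (S.dg a) (S.dg b)

/-- The coarse Hilbert function of a stage. -/
noncomputable def H (S : Stage k q₀) : (J → ℤ) → ℕ := chil k S.dg S.P.x

/-- The letters whose degree is not in the radical. -/
def nt (S : Stage k q₀) : Set S.I := {i | ¬ Rad q₀ (S.dg i)}

/-- `S'` is a later stage. -/
def Ext (S S' : Stage k q₀) : Prop :=
  (∃ f : S.I ↪ S'.I, ∀ i, S'.dg (f i) = S.dg i) ∧ S'.H = S.H ∧
    (IsNoetherianRing S'.R → IsNoetherianRing S.R)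

end Stage

end Alg

end Pool.Agent.Lib.MP_ff61db_al.Pt
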