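import Pool.Agent.Lib.MP_ff61db_al.Pt.Gr3

/-! The associated graded ring and the degeneration of the coproduct. -/

namespace Pool.Agent.Lib.MP_ff61db_al.Pt

open Submodule Module TensorProduct MulOpposite

namespace B7

variable {k A H S Γ : Type} [Field k] [Ring H] [Algebra k H] [Ring S] [Algebra k S]

theorem wd_op (z : A → H) (l : List A) : wd (fun a => op (z a)) l.reverse = op (wd z l) := by
  simp [wd, op_list_prod, Function.comp_def]

/-- Reversal of words. -/
noncomputable def rev (k A : Type) [Field k] : (List A →₀ k) →ₗ[k] (List A →₀ k) :=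
  Finsupp.lmapDomain k k List.reverse

theorem lc_op (z : A → H) (c : List A →₀ k) :
    lc k (fun a => op (z a)) c = op (lc k z (rev k A c)) := by
  induction c using Finsupp.induction_linear with
  | zero => simp
  | add c c' h h' => simp only [map_add, h, h', op_add]
  | single l r => simp [rev, lc_single, ← wd_op]

theorem op_mem_wsp {z : A → H} {s : Set (List A)} (hs : ∀ l ∈ s, l.reverse ∈ s) {v : H}
    (hv : v ∈ wsp k z s) : op v ∈ wsp k (fun a => op (z a)) s := by
  induction hv using span_induction with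
  | mem v hv =>
    obtain ⟨l, hl, rfl⟩ := hv
    exact subset_span ⟨_, hs l hl, wd_op z l⟩
  | zero => simp
  | add u v _ _ hu hv => exact add_mem hu hv
  | smul r v _ hv => exact smul_mem _ r hv

theorem wsp_op {z : A → H} (hz : wsp k z Set.univ = ⊤) :
    wsp k (fun a => op (z a)) Set.univ = ⊤ :=
  eq_top_iff.2 fun v _ => op_mem_wsp (v := v.unop) (s := Set.univ) (fun _ _ => trivial) (hz ▸ mem_top)

theorem wl_reverse [AddCommMonoid Γ] (ω : A → Γ) (l : List A) : wl ω l.reverse = wl ω l := by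
  simp [wl]

theorem rev_pt [AddCommMonoid Γ] (ω : A → Γ) (μ : Γ) (c : List A →₀ k) :
    rev k A (pt k {l | wl ω l = μ} c) = pt k {l | wl ω l = μ} (rev k A c) :=
  by
  induction c using Finsupp.induction_linear with
  | zero => simp
  | add c c' h h' => simp only [map_add, h, h']
  | single l r => by_cases e : wl ω l = μ <;> simp [rev, pt_single, wl_reverse, e]

theorem InL_op [AddCommMonoid Γ] [LinearOrder Γ] {z : A → H} {ω : A → Γ} {c : List A →₀ k}
    (hc : rev k A c ∈ InL z ω (⊥ : Submodule k H)) :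
    c ∈ InL (fun a => op (z a)) ω (⊥ : Submodule k Hᵐᵒᵖ) := by
  refine mem_InL.2 fun μ => mem_sup_right ?_
  have h := mem_InL.1 hc μ
  rw [bot_sup_eq] at h
  rw [lc_op, rev_pt]
  exact op_mem_wsp (s := {l | wl ω l < μ}) (fun l hl => (wl_reverse ω l).trans_lt hl) h

theorem WF.op [AddCommMonoid Γ] [LinearOrder Γ] {z : A → H} {ω : A → Γ} (wf : WF z ω) :
    WF (fun a => op (z a)) ω :=
  Subrelation.wf (r := InvImage (fun l l' => wl ω l < wl ω l' ∧ wd z l ≠ 0) List.reverse)
    (fun {l l'} h => And.intro (by simpa only [wl_reverse] using h.1) fun e => h.2 (by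
      rw [← l.reverse_reverse, wd_op, e, op_zero])) (InvImage.wf _ wf)

theorem noeth_lift_op [AddCommMonoid Γ] [LinearOrder Γ] [IsOrderedCancelAddMonoid Γ] {z : A → H}
    {ω : A → Γ} (wf : WF z ω) (hz : wsp k z Set.univ = ⊤) [IsNoetherianRing Sᵐᵒᵖ] (y : A → S)
    (hy : wsp k y Set.univ = ⊤) (hrel : LinearMap.ker (lc k y) ≤ InL z ω ⊥) :
    IsNoetherianRing Hᵐᵒᵖ :=
  noeth_lift wf.op (wsp_op hz) (fun a => op (y a)) (wsp_op hy) fun c hc =>
    InL_op (hrel (op_injective ((lc_op y c).symm.trans hc)))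

theorem wf_of_finite [LinearOrder Γ] {X : Type} (d : X → Γ) (p : X → Prop)
    (h : ∀ x, {y | d y < d x ∧ p y}.Finite) : WellFounded fun x y => d x < d y ∧ p x :=
  Subrelation.wf (r := InvImage (· < ·) fun x => {y | d y < d x ∧ p y}.ncard)
    (fun {_ y} hxy => Set.ncard_lt_ncard
      ⟨fun _ hz => ⟨lt_trans hz.1 hxy.1, hz.2⟩, fun h' => lt_irrefl _ (h' hxy).1⟩ (h y))
    (InvImage.wf _ Nat.lt_wfRel.wf)

theorem length_le_wl {ω : A → ℤ} (h : ∀ a, 0 < ω a) (l : List A) : (l.length : ℤ) ≤ wl ω l := by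
  induction l with
  | nil => simp [wl]
  | cons a l ih =>
    have := h a
    rw [wl_cons, List.length_cons]
    omega

theorem finite_wl [Finite A] {ω : A → ℤ} (h : ∀ a, 0 < ω a) (n : ℤ) :
    {l | wl ω l ≤ n}.Finite :=
  (List.finite_length_le A n.toNat).subset fun l hl => by
    have := (length_le_wl h l).trans hl
    change l.length ≤ n.toNat
    omega

variable {I : Type} [Fintype I] [DecidableEq I]

omit [Fintype I] in
theorem map_deg [AddCommMonoid Γ] (Ω : (I → ℤ) →+ Γ) (l : List I) :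
    wl (fun i => Ω (e i)) l = Ω (deg l) := by
  simp [wl, deg, map_list_sum, Function.comp_def]

/-- The weighted degree as an additive map. -/
def wtH (w : I → ℤ) : (I → ℤ) →+ ℤ where
  toFun := wt w
  map_zero' := by simp [wt]
  map_add' μ ν := by simp [wt, mul_add, Finset.sum_add_distrib]

theorem finite_hom (Ω : (I → ℤ) →+ ℤ) (h : ∀ i, 0 < Ω (e i)) (n : ℤ) :
    {l : List I | Ω (deg l) ≤ n}.Finite := by
  simpa only [map_deg] using finite_wl h n

theorem wtH_e (w : I → ℤ) (i : I) : wtH w (e i) = w i := by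
  change wt w (e i) = w i
  simp [wt, e, Pi.single_apply]

theorem fin_wt {w : I → ℤ} (h : ∀ i, 0 < w i) (n : ℤ) :
    {l : List I | wt w (deg l) ≤ n}.Finite :=
  finite_hom (wtH w) (by simpa only [wtH_e] using h) n

theorem fin_deg (S : Finset (I → ℤ)) : {l : List I | deg l ∈ S}.Finite :=
  (S.finite_toSet.biUnion fun μ _ => fin_wt (w := 1) (by simp) (wt 1 μ)).subset fun l hl =>
    Set.mem_biUnion hl (le_refl (wt 1 (deg l)))

theorem fin_push {J : Type} [Fintype J] {dg : I → J → ℤ} (h0 : ∀ i, 0 ≤ dg i) (h1 : ∀ i, dg i ≠ 0)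
    (ν : J → ℤ) : {l : List I | push dg (deg l) = ν}.Finite := by
  classical
  refine (finite_hom ((wtH 1).comp (push dg)) (fun i => ?_) (wt 1 ν)).subset fun l hl => ?_
  · obtain ⟨j, hj⟩ := Function.ne_iff.1 (h1 i)
    have : push dg (e i) = dg i := by simp [push, e, Pi.single_apply]
    rw [AddMonoidHom.comp_apply, this]
    exact Finset.sum_pos' (fun j _ => by simpa using h0 i j)
      ⟨j, Finset.mem_univ j, by simpa using lt_of_le_of_ne (h0 i j) hj.symm⟩
  · exact le_of_eq (congrArg (wt 1) hl)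

omit [DecidableEq I] in
theorem exists_order (w₁ w₂ : I → ℤ) : ∃ (Γ : Type) (_ : AddCommMonoid Γ) (_ : LinearOrder Γ)
    (_ : IsOrderedCancelAddMonoid Γ) (Ω : (I → ℤ) →+ Γ), Function.Injective Ω ∧
      ∀ μ ν, Low w₁ w₂ μ ν → Ω μ < Ω ν := by
  let Ω : (I → ℤ) →+ ℤ ×ₗ ℤ ×ₗ Lex (Fin (Fintype.card I) → ℤ) :=
    { toFun := fun μ => toLex (wtH w₁ μ, toLex (wtH w₂ μ,
        toLex fun n => μ ((Fintype.equivFin I).symm n)))
      map_zero' := by
        rw [map_zero, map_zero]
        rfl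
      map_add' := fun μ ν => by
        rw [map_add, map_add]
        rfl }
  refine ⟨_, _, inferInstance, inferInstance, Ω, fun μ ν h => funext fun i => ?_, fun μ ν h => ?_⟩
  · simpa [Ω] using congrArg (fun t : ℤ ×ₗ ℤ ×ₗ Lex (Fin (Fintype.card I) → ℤ) =>
      ofLex (ofLex (ofLex t).2).2 (Fintype.equivFin I i)) h
  · rcases h with h | ⟨h, h'⟩
    · exact Prod.Lex.toLex_lt_toLex.2 (Or.inl h)
    · exact Prod.Lex.toLex_lt_toLex.2 (Or.inr ⟨h, Prod.Lex.toLex_lt_toLex.2 (Or.inl h')⟩)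

theorem sum_hil_le {q : I → I → kˣ} (P : PN k q S) (T : Finset (I → ℤ)) :
    ∑ μ ∈ T, P.hil μ ≤ finrank k (wsp k P.x {l | deg l ∈ T}) := by
  have fd : ∀ T : Finset (I → ℤ), FiniteDimensional k (wsp k P.x {l | deg l ∈ T}) := fun T =>
    FiniteDimensional.span_of_finite k ((fin_deg T).image _)
  induction T using Finset.induction_on with
  | empty => simp
  | insert μ T hμ ih =>
    have h1 : P.piece μ ≤ wsp k P.x {l | deg l ∈ insert μ T} :=
      span_mono (Set.image_mono fun l hl => Finset.mem_insert.2 (Or.inl hl))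
    have h2 : wsp k P.x {l | deg l ∈ T} ≤ wsp k P.x {l | deg l ∈ insert μ T} :=
      span_mono (Set.image_mono fun l hl => Finset.mem_insert.2 (Or.inr hl))
    have := fd (insert μ T)
    have := fd T
    have := Submodule.finiteDimensional_of_le h1
    have h3 : P.piece μ ⊓ wsp k P.x {l | deg l ∈ T} = ⊥ := by
      refine eq_bot_iff.2 fun v hv => ?_
      have e1 : P.pr μ v = v := LinearMap.eqOn_span' (f := P.pr μ) (g := LinearMap.id) (by
        rintro _ ⟨l, hl, rfl⟩
        rw [P.pr_wd, if_pos (show deg l = μ from hl)]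
        rfl) hv.1
      have e2 : P.pr μ v = 0 := LinearMap.eqOn_span' (f := P.pr μ) (g := 0) (by
        rintro _ ⟨l, hl, rfl⟩
        rw [P.pr_wd, if_neg fun e : deg l = μ => hμ (e ▸ hl)]
        rfl) hv.2
      exact e1.symm.trans e2
    have h4 := Submodule.finrank_sup_add_finrank_inf_eq (P.piece μ) (wsp k P.x {l | deg l ∈ T})
    have h5 := Submodule.finrank_mono (sup_le h1 h2)
    rw [h3, finrank_bot] at h4
    rw [Finset.sum_insert hμ, PN.hil]
    omega

theorem rank_gr_le [AddCommMonoid Γ] [LinearOrder Γ] {z : A → H} {ω : A → Γ} {y : A → S}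
    (hy : ∀ c ∈ InL z ω (⊥ : Submodule k H), lc k y c = 0) {s : Set (List A)} (hs : s.Finite) :
    finrank k (wsp k y s) ≤ finrank k (wsp k z s) := by
  lift s to Finset (List A) using hs
  have e1 := rank_wsp (k := k) z s
  have e2 := rank_wsp (k := k) y s
  have h := spec_top (k := k) (wl ω)
  have : FiniteDimensional k (span k (sb k (List A) '' s)) :=
    FiniteDimensional.span_of_finite k (s.finite_toSet.image _)
  have : FiniteDimensional k (LinearMap.ker (lc k y) ⊓ span k (sb k (List A) '' s) :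
    Submodule k _) := Submodule.finiteDimensional_of_le inf_le_right
  have e3 := (h.main s (W := LinearMap.ker (lc k z) ⊓ span k (sb k (List A) '' s)) inf_le_right).1
  have e4 := Submodule.finrank_mono (le_inf (fun c hc => hy c (InL_eq_sp.ge
    (sp_mono inf_le_left hc))) ((sp_mono inf_le_right).trans (h.sp_le_span s)) :
    sp k (topR k (wl ω)) (LinearMap.ker (lc k z) ⊓ span k (sb k (List A) '' s)) ≤
      LinearMap.ker (lc k y) ⊓ span k (sb k (List A) '' s))
  omega

end B7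

open B7

variable {k : Type} [Field k] {I : Type} [Fintype I] [DecidableEq I]

theorem grLift {H A Λ : Type} [Ring H] [Algebra k H] [AddCommMonoid Λ] [LinearOrder Λ]
    [IsOrderedCancelAddMonoid Λ] [DecidableEq Λ] (z : A → H) (hz : wsp k z Set.univ = ⊤) (w : A → Λ)
    (hwf : WellFounded fun l l' : List A => wl w l < wl w l') :
    ∃ (S : Type) (_ : Ring S) (_ : Algebra k S) (z' : A → S) (pr : Λ → S →ₗ[k] S),
      wsp k z' Set.univ = ⊤ ∧ (∀ n l, pr n (wd z' l) = if wl w l = n then wd z' l else 0) ∧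
      (∀ n (c : List A →₀ k), (∀ l ∈ c.support, wl w l = n) →
        (lc k z' c = 0 ↔ lc k z c ∈ wsp k z {l | wl w l < n})) ∧
      (IsNoetherianRing S → IsNoetherianRing H) ∧
      (IsNoetherianRing Sᵐᵒᵖ → IsNoetherianRing Hᵐᵒᵖ) := by
  obtain ⟨S, _, _, y, h1, h2, h3⟩ := B7.grLift z w (.of z hwf) hz
  obtain ⟨pr, h4⟩ := exists_proj_of_grd (wl w) h1 fun μ c hc =>
    (h2 _).2 (InL_grd _ μ c ((h2 c).1 hc))
  refine ⟨S, _, _, y, pr, h1, h4, fun n c hc => ?_, h3,
    fun _ => noeth_lift_op (.of z hwf) hz y h1 fun c hc => (h2 c).1 hc⟩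
  have hc' : ∀ l, c l ≠ 0 → wl w l = n := fun l hl => hc l (by simpa using hl)
  rw [h2]
  refine ⟨fun h => ?_, fun h => mem_InL_of_hom hc' (mem_sup_right h)⟩
  have := mem_InL.1 h n
  rwa [bot_sup_eq, pt_eq_self (s := {l | wl w l = n}) hc'] at this

theorem deg3 (q : I → I → kˣ) {R : Type} [Ring R] [Algebra k R] [Nontrivial R] (y : I → R)
    (hy : wsp k y Set.univ = ⊤) (w₁ w₂ : I → ℤ)
    (hfin : ∀ n : ℤ, {l | wt w₁ (deg l) ≤ n ∧ wd y l ≠ 0}.Finite) (D : R →ₗ[k] R ⊗[k] R)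
    (hD : ∀ l, D (wd y l) - copw q y l ∈ Submodule.span k
      {t : R ⊗[k] R | ∃ a b, Low w₁ w₂ (deg a + deg b) (deg l) ∧ t = wd y a ⊗ₜ wd y b}) :
    ∃ (R' : Type) (_ : Ring R') (_ : Algebra k R') (P : PN k q R'),
      (∀ μ (c : List I →₀ k), (∀ l ∈ c.support, deg l = μ) →
        lc k y c ∈ wsp k y {l | Low w₁ w₂ (deg l) μ} → lc k P.x c = 0) ∧
      (∀ i, P.x i = 0 → y i ∈ wsp k y {l | l ≠ [i] ∧ ¬ Low w₁ w₂ (e i) (deg l)}) ∧
      (∀ S : Finset (I → ℤ),
        ∑ μ ∈ S, P.hil μ ≤ Module.finrank k (wsp k y {l | deg l ∈ S})) ∧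
      (∀ (J : Type) [Fintype J] [DecidableEq J] (dg : I → J → ℤ), (∀ i, 0 ≤ dg i) →
        (∀ i, dg i ≠ 0) → CGr k dg y → chil k dg P.x = chil k dg y) ∧
      (IsNoetherianRing R' → IsNoetherianRing R) ∧
      (IsNoetherianRing R'ᵐᵒᵖ → IsNoetherianRing Rᵐᵒᵖ) ∧
      ∀ s : Set (List I), s.Finite →
        Module.finrank k (wsp k P.x s) ≤ Module.finrank k (wsp k y s) := by
  obtain ⟨Γ, _, _, _, Ω, hΩ, hL⟩ := exists_order w₁ w₂
  set ω : I → Γ := fun i => Ω (e i) with hω
  have hd : ∀ l, wl ω l = Ω (deg l) := map_deg Ω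
  have hle : ∀ μ ν, Ω μ < Ω ν → wt w₁ μ ≤ wt w₁ ν := fun μ ν h => by
    by_contra h'
    exact (hL ν μ (Or.inl (not_le.1 h'))).not_gt h
  have wf : WF y ω :=
    wf_of_finite _ _ fun l => (hfin (wt w₁ (deg l))).subset fun l' hl => ⟨hle _ _ (by
      rw [← hd, ← hd]
      exact hl.1), hl.2⟩
  obtain ⟨S, _, _, z, h1, h2, h3⟩ := B7.grLift y ω wf hy
  let F : Γ → Submodule k (R ⊗[k] R) := fun μ => span k (wd2 k y '' {p | wl ω p.1 + wl ω p.2 < μ})
  have F1 : ∀ l, D (wd y l) - copw q y l ∈ F (wl ω l) := fun l => span_mono (by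
    rintro _ ⟨a, b, h, rfl⟩
    refine ⟨(a, b), ?_, rfl⟩
    simpa only [Set.mem_ofPred_eq, hd, map_add] using hL _ _ h) (hD l)
  have F2 : ∀ μ, ∀ v ∈ Flt k y ω μ, D v ∈ F μ := by
    intro μ v hv
    refine (span_le (p := (F μ).comap D)).2 ?_ hv
    rintro _ ⟨l, hl, rfl⟩
    change D _ ∈ F μ
    rw [← sub_add_cancel (D _) (copw q y l)]
    refine add_mem (span_mono (Set.image_mono fun p hp => lt_trans hp hl) (F1 l))
      (list_sum_mem fun t ht => ?_)
    obtain ⟨p, hp, rfl⟩ := List.mem_map.1 ht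
    exact smul_mem _ _ (subset_span ⟨p.2, (wl_sh q ω l p hp).trans_lt hl, rfl⟩)
  obtain ⟨P, rfl⟩ := pn_of_rel q h1 (fun μ c hc => by
      refine (h2 _).2 ((InL_grd _).pt_mem (fun l l' h hl => ?_) ((h2 c).1 hc))
      rw [hd, hd] at h
      exact (hΩ h).symm.trans hl) (fun c hc => by
      have h := mem_InL.1 ((h2 c).1 hc) 0
      have h0 : ∀ l, wl ω l = 0 → l = [] := fun l hl => by
        rw [hd, ← map_zero Ω] at hl
        have h5 := length_le_wl (ω := fun i => wtH 1 (e i)) (by simp [wtH_e]) l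
        rw [map_deg, hΩ hl, map_zero] at h5
        exact List.length_eq_zero_iff.1 (by omega)
      have e1 : pt k {l | wl ω l = 0} c = Finsupp.single [] (c []) := by
        ext l
        by_cases e : l = []
        · simp [pt_apply, e, wl]
        · simp [pt_apply, e, show ¬ wl ω l = 0 from fun h => e (h0 l h)]
      rw [e1, bot_sup_eq, lc_single] at h
      by_contra h'
      exact one_notMem_Flt wf ((smul_mem_iff _ h').1 h)) (fun c hc => by
      rw [← sum_pt (wl ω) c, map_sum, map_sum]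
      refine Finset.sum_eq_zero fun μ _ => tensor_gr (ω := ω) (μ := μ) (z := y)
        (fun c hc => (h2 c).2 hc) (fun p hp => ?_) ?_
      · obtain ⟨l, hl, a, ha⟩ := cop_ne hp
        exact (wl_sh q ω l _ ha).trans (pt_ne hl).1
      · have h := mem_InL.1 ((h2 c).1 hc) μ
        rw [bot_sup_eq] at h
        rw [lc_cop, ← sub_sub_cancel (D (lc k y (pt k {l | wl ω l = μ} c)))
          (Finsupp.linearCombination k _ _)]
        refine sub_mem (F2 μ _ h) ?_
        rw [← Submodule.Quotient.mk_eq_zero]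
        refine lin_congr ((F μ).mkQ.comp (D.comp (lc k y) - Finsupp.linearCombination k (copw q y)))
          0 _ fun l hl => ?_
        refine (Submodule.Quotient.mk_eq_zero _).2 ?_
        simpa [lc_single] using ((pt_ne hl).1 ▸ F1 l : _ ∈ F μ))
  refine ⟨S, _, _, P, fun μ c hc h => ?_, fun i hi => ?_, fun T => ?_, fun J _ _ dg h0 h0' hg => ?_,
    h3, fun _ => noeth_lift_op wf hy _ h1 fun c hc => (h2 c).1 hc,
    fun s hs => rank_gr_le (fun c hc => (h2 c).2 hc) hs⟩
  · refine (h2 c).2 (mem_InL_of_hom (μ := Ω μ) (fun l hl => ?_) (mem_sup_right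
      (span_mono (Set.image_mono fun l hl => ?_) h)))
    · rw [hd, hc l (by simpa using hl)]
    · exact (hd l).trans_lt (hL _ _ hl)
  · have h := mem_InL.1 ((h2 (Finsupp.single [i] 1)).1 (by simp [lc_single, wd, hi])) (ω i)
    have e : wl ω [i] = ω i := by simp [wl]
    rw [bot_sup_eq, pt_single, if_pos (show [i] ∈ {l | wl ω l = ω i} from e), lc_single,
      one_smul] at h
    rw [show y i = wd y [i] by simp [wd]]
    refine span_mono (Set.image_mono fun l hl => ?_) h
    refine ⟨fun e' => ?_, fun h' => ?_⟩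
    · rw [e'] at hl
      exact hl.ne e
    · exact (hL _ _ h').not_gt ((hd l).symm.trans_lt hl)
  · exact (sum_hil_le P T).trans (rank_gr_le (fun c hc => (h2 c).2 hc) (fin_deg T))
  · obtain ⟨pr, hpr⟩ := hg
    exact funext fun ν => rank_gr h2 (fin_push h0 h0' ν) (grd_of_proj hpr ν)

theorem deg2 (q : I → I → kˣ) {R : Type} [Ring R] [Algebra k R] [Nontrivial R] (y : I → R)
    (hy : wsp k y Set.univ = ⊤) (w₁ w₂ : I → ℤ) (hw : ∀ i, 0 < w₁ i) (D : R →ₗ[k] R ⊗[k] R)
    (hD : ∀ l, D (wd y l) - copw q y l ∈ Submodule.span k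
      {t : R ⊗[k] R | ∃ a b, Low w₁ w₂ (deg a + deg b) (deg l) ∧ t = wd y a ⊗ₜ wd y b}) :
    ∃ (R' : Type) (_ : Ring R') (_ : Algebra k R') (P : PN k q R'),
      (∀ μ (c : List I →₀ k), (∀ l ∈ c.support, deg l = μ) →
        lc k y c ∈ wsp k y {l | Low w₁ w₂ (deg l) μ} → lc k P.x c = 0) ∧
      (∀ i, P.x i = 0 → y i ∈ wsp k y {l | l ≠ [i] ∧ ¬ Low w₁ w₂ (e i) (deg l)}) ∧
      (∀ S : Finset (I → ℤ),
        ∑ μ ∈ S, P.hil μ ≤ Module.finrank k (wsp k y {l | deg l ∈ S})) ∧
      (∀ (J : Type) [Fintype J] [DecidableEq J] (dg : I → J → ℤ), (∀ i, 0 ≤ dg i) →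
        (∀ i, dg i ≠ 0) → CGr k dg y → chil k dg P.x = chil k dg y) ∧
      (IsNoetherianRing R' → IsNoetherianRing R) ∧
      (IsNoetherianRing R'ᵐᵒᵖ → IsNoetherianRing Rᵐᵒᵖ) := by
  obtain ⟨R', _, _, P, h1, h2, h3, h4, h5, h6, -⟩ :=
    deg3 q y hy w₁ w₂ (fun n => (fin_wt hw n).subset fun _ h => h.1) D hD
  exact ⟨R', _, _, P, h1, h2, h3, h4, h5, h6⟩

end Pool.Agent.Lib.MP_ff61db_al.Pt
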