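import Pool.Agent.Lib.MP_ff61db_al.Pt.MM

/-! Coinvariants of a map onto a finite-dimensional quotient. -/

namespace Pool.Agent.Lib.MP_ff61db_al.Pt

open TensorProduct

variable {k : Type} [Field k] {I : Type} [Fintype I] [DecidableEq I]

theorem B9.ht_nonneg {μ : I → ℤ} (h : 0 ≤ μ) : 0 ≤ ht μ := Finset.sum_nonneg fun i _ => h i

theorem B9.ht_pos {μ : I → ℤ} (h : 0 ≤ μ) (h' : μ ≠ 0) : 0 < ht μ :=
  Finset.sum_pos' (fun i _ => h i) (by
    obtain ⟨i, hi⟩ := Function.ne_iff.1 h'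
    exact ⟨i, Finset.mem_univ _, lt_of_le_of_ne (h i) hi.symm⟩)

theorem B9.wsp_mul {A R : Type} [Ring R] [Algebra k R] {y : A → R} {a b : R}
    (ha : a ∈ wsp k y Set.univ) (hb : b ∈ wsp k y Set.univ) : a * b ∈ wsp k y Set.univ := by
  have := Submodule.mul_mem_mul ha hb
  rw [wsp, Submodule.span_mul_span] at this
  refine Submodule.span_mono ?_ this
  rintro _ ⟨_, ⟨l, -, rfl⟩, _, ⟨l', -, rfl⟩, rfl⟩
  exact ⟨l ++ l', trivial, wd_append _ _ _⟩

theorem PN.coinv_fg {q : I → I → kˣ} {R : Type} [Ring R] [Algebra k R] (P : PN k q R)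
    {N : Submodule k R} (h : P.RCo N) (hfin : {μ | P.hilQ N μ ≠ 0}.Finite) :
    ∃ (n : ℕ) (y : Fin n → R) (dg : Fin n → I → ℤ), (∀ a, y a ∈ P.piece (dg a)) ∧
      (∀ a, 0 ≤ dg a) ∧ (∀ a, dg a ≠ 0) ∧ (∀ a, y a ≠ 0) ∧ wsp k y Set.univ = P.coinv N := by
  obtain ⟨M, hM⟩ : ∃ M : ℕ, ∀ μ, ht μ = M → P.piece μ ≤ N := by
    obtain ⟨c, hc⟩ := (hfin.image ht).bddAbove
    refine ⟨c.toNat + 1, fun μ hμ => ?_⟩
    have h0 : P.hilQ N μ = 0 := by
      by_contra e
      have := hc ⟨μ, e, rfl⟩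
      omega
    have := Submodule.finrank_eq_zero.1 h0
    rwa [← LinearMap.le_ker_iff_map, Submodule.ker_mkQ] at this
  have hs : ∀ μ, ∃ s : Set R, s.Finite ∧ Submodule.span k s = P.coinv N ⊓ P.piece μ := fun μ =>
    Submodule.fg_def.1 (Module.Finite.iff_fg.1 (Submodule.finiteDimensional_of_le inf_le_right))
  choose s hs1 hs2 using hs
  have hs3 : ∀ μ, ∀ v ∈ s μ, v ∈ P.coinv N ⊓ P.piece μ := fun μ v hv =>
    hs2 μ ▸ Submodule.subset_span hv
  let Y : Set ((I → ℤ) × R) := {p | (0 ≤ p.1 ∧ ht p.1 ≤ M) ∧ p.2 ∈ s p.1 ∧ p.1 ≠ 0 ∧ p.2 ≠ 0}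
  have hY : Y.Finite := by
    refine (((List.finite_length_le I M).image deg).biUnion fun μ _ =>
      (hs1 μ).image fun v => (μ, v)).subset ?_
    rintro ⟨μ, v⟩ ⟨⟨h1, h2⟩, h3, -⟩
    obtain ⟨l, rfl⟩ := exists_deg h1
    rw [ht_deg] at h2
    exact Set.mem_biUnion ⟨l, by exact_mod_cast h2, rfl⟩ ⟨v, h3, rfl⟩
  have := hY.to_subtype
  let E := (Finite.equivFin Y).symm
  refine ⟨_, fun a => (E a).1.2, fun a => (E a).1.1, fun a => (hs3 _ _ (E a).2.2.1).2,
    fun a => (E a).2.1.1, fun a => (E a).2.2.2.1, fun a => (E a).2.2.2.2, ?_⟩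
  set K := wsp k (fun a => (E a).1.2) Set.univ with hK
  have low : ∀ μ, ht μ ≤ M → P.coinv N ⊓ P.piece μ ≤ K := by
    intro μ hμ
    by_cases e0 : μ = 0
    · subst e0
      intro c hc
      rw [← P.mem_piece.1 hc.2, P.pr_zero]
      exact K.smul_mem _ (Submodule.subset_span ⟨[], trivial, rfl⟩)
    by_cases e1 : 0 ≤ μ
    · rw [← hs2]
      refine Submodule.span_le.2 fun v hv => ?_
      by_cases e2 : v = 0
      · rw [e2]; exact K.zero_mem
      · exact Submodule.subset_span ⟨[E.symm ⟨(μ, v), ⟨e1, hμ⟩, hv, e0, e2⟩], trivial,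
          by rw [wd_cons, wd_nil, mul_one, Equiv.apply_symm_apply]⟩
    · rw [P.piece_bot e1, inf_bot_eq]; exact bot_le
  obtain ⟨τ, t1, t2, t3, t4⟩ := P.mm_proj h
  have all : ∀ (n : ℕ) μ, ht μ ≤ n → P.coinv N ⊓ P.piece μ ≤ K := by
    intro n
    induction n with
    | zero => exact fun μ hμ => low μ (by omega)
    | succ n ih =>
      intro μ hμ c hc
      by_cases e0 : ht μ ≤ M
      · exact low μ e0 hc
      have e1 : τ c = c := by simpa [t2] using t3 c hc.1 1
      rw [← e1]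
      refine (Submodule.span_le.2 ?_ : P.piece μ ≤ K.comap τ) hc.2
      rintro _ ⟨l, rfl, rfl⟩
      rw [ht_deg] at e0 hμ
      have e2 : ht (deg (l.take M)) = M := by rw [ht_deg, List.length_take]; omega
      have e3 : ht (deg (l.drop M)) = l.length - M := by rw [ht_deg, List.length_drop]; omega
      have h1 := hM _ e2 (P.wd_mem _)
      rw [SetLike.mem_coe, Submodule.mem_comap, ← List.take_append_drop M l, wd_append,
        ← P.mem_piece.1 (P.wd_mem (l.take M))]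
      rw [P.mm_ideal h] at h1
      refine (Submodule.span_le.2 ?_ : _ ≤ K.comap (τ ∘ₗ LinearMap.mulRight k
        (wd P.x (l.drop M)) ∘ₗ P.pr (deg (l.take M)))) h1
      rintro _ ⟨a, a1, a2, b, rfl⟩
      obtain ⟨S, s1, -⟩ := P.exists_sum_pr a
      obtain ⟨T, s2, -⟩ := P.exists_sum_pr b
      rw [← s1, ← s2, Finset.sum_mul_sum]
      refine Submodule.sum_mem _ fun α _ => Submodule.sum_mem _ fun β _ => ?_
      have h2 := P.piece_mul (P.pr_mem α a) (P.pr_mem β b)
      have h3 := P.coinv_graded h α a a1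
      show τ (P.pr _ _ * _) ∈ K
      by_cases e4 : α + β = deg (l.take M)
      swap
      · simp [P.pr_of_ne h2 e4]
      by_cases e5 : α = 0
      · simp [e5, P.pr_zero, a2]
      by_cases e6 : 0 ≤ α
      swap
      · simp [(Submodule.mem_bot k).1 (P.piece_bot e6 ▸ P.pr_mem α a)]
      by_cases e7 : 0 ≤ β
      swap
      · simp [(Submodule.mem_bot k).1 (P.piece_bot e7 ▸ P.pr_mem β b)]
      have h4 := B9.ht_pos e6 e5
      have h5 := B9.ht_nonneg e7
      rw [← e4, ht_add] at e2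
      rw [← e4, P.mem_piece.1 h2, mul_assoc, t3 _ h3]
      have h6 := P.piece_mul (P.pr_mem β b) (P.wd_mem (l.drop M))
      refine B9.wsp_mul (low α (by omega) ⟨h3, P.pr_mem α a⟩)
        (ih (β + deg (l.drop M)) (by rw [ht_add]; omega) ⟨t1 _, ?_⟩)
      rw [← P.mem_piece.1 h6, t4]
      exact P.pr_mem _ _
  refine le_antisymm (Submodule.span_le.2 ?_) fun c hc => ?_
  · rintro _ ⟨l, -, rfl⟩
    induction l with
    | nil => exact P.one_mem_coinv N
    | cons a l ih => exact P.coinv_mul h (hs3 _ _ (E a).2.2.1).1 ih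
  · obtain ⟨S, s1, -⟩ := P.exists_sum_pr c
    rw [← s1]
    exact Submodule.sum_mem _ fun μ _ => all (ht μ).toNat μ (Int.self_le_toNat _)
      ⟨P.coinv_graded h μ c hc, P.pr_mem μ c⟩

theorem PN.noeth_of_coinv {q : I → I → kˣ} {R : Type} [Ring R] [Algebra k R] (P : PN k q R)
    {N : Submodule k R} (h : P.RCo N) (hfin : {μ | P.hilQ N μ ≠ 0}.Finite) (K : Subalgebra k R)
    (hK : Subalgebra.toSubmodule K = P.coinv N) (hn : IsNoetherianRing K) :
    IsNoetherianRing R := by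
  obtain ⟨U, u1, u2⟩ := P.exists_compl h.graded
  have hU : U ≤ hfin.toFinset.sup P.piece := by
    intro u hu
    obtain ⟨S, s1, -⟩ := P.exists_sum_pr u
    rw [← s1]
    refine Submodule.sum_mem _ fun μ _ => ?_
    by_cases e : P.hilQ N μ = 0
    · rw [← P.hilS_compl h.graded u1 u2] at e
      have : Module.Finite k (U ⊓ P.piece μ : Submodule k R) :=
        Submodule.finiteDimensional_of_le inf_le_right
      have h1 : P.pr μ u ∈ U ⊓ P.piece μ := ⟨u1 μ u hu, P.pr_mem μ u⟩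
      rw [Submodule.finrank_eq_zero.1 e, Submodule.mem_bot] at h1
      rw [h1]
      exact Submodule.zero_mem _
    · exact Finset.le_sup (f := P.piece) (hfin.mem_toFinset.2 e) (P.pr_mem μ u)
  obtain ⟨s, s1, s2⟩ := Submodule.fg_def.1
    (Module.Finite.iff_fg.1 (Submodule.finiteDimensional_of_le hU))
  have : Module.Finite K R := by
    refine ⟨Submodule.fg_def.2 ⟨s, s1, eq_top_iff.2 fun r _ => ?_⟩⟩
    obtain ⟨t, rfl⟩ := (P.mm_bij h u1 u2).2 r
    induction t with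
    | zero => simp
    | add a b ha hb => rw [map_add]; exact Submodule.add_mem _ (ha trivial) (hb trivial)
    | tmul a b =>
      exact Submodule.smul_mem _ (⟨a, (hK.ge a.2 :)⟩ : K)
        (Submodule.span_le_restrictScalars k K s (s2.ge b.2))
  exact isNoetherian_of_tower K inferInstance

end Pool.Agent.Lib.MP_ff61db_al.Pt
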