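import Mathlib

/-! Abstract specialisation of subspaces: the two-sided dimension trick. -/

namespace Pool.Agent.Lib.MP_ff61db_al.Pt.B7

open Submodule Module

variable {X k κ V V' : Type} [Field k] [Field κ] [AddCommGroup V] [Module k V] [AddCommGroup V']
  [Module κ V']

theorem rank_le_of_rel (e : X → V →ₗ[k] k) (e' : X → V' →ₗ[κ] κ)
    (he' : ∀ v', (∀ x, e' x v' = 0) → v' = 0) (R : V → V' → Prop)
    (h0 : ∀ v v' x, R v v' → e x v = 0 → e' x v' = 0) (n : ℕ) :
    ∀ (W : Submodule k V) (S : Submodule κ V'), FiniteDimensional k W → FiniteDimensional κ S →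
      finrank k W = n → (∀ v ∈ W, v ≠ 0 → ∃ c : k, ∃ v', R (c • v) v' ∧ v' ≠ 0) →
      (∀ v ∈ W, ∀ v', R v v' → v' ∈ S) → n ≤ finrank κ S := by
  induction n with
  | zero => intros; exact Nat.zero_le _
  | succ n ih =>
    intro W S _ _ hW h1 hS
    have hW0 : W ≠ ⊥ := by
      rintro rfl
      simp at hW
    obtain ⟨v, hv, hv0⟩ := (Submodule.ne_bot_iff W).1 hW0
    obtain ⟨c, v', hR, hv'⟩ := h1 v hv hv0
    obtain ⟨x, hx⟩ : ∃ x, e' x v' ≠ 0 := by
      by_contra h
      exact hv' (he' v' fun x => by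
        by_contra h'
        exact h ⟨x, h'⟩)
    have hx' : e x (c • v) ≠ 0 := fun h => hx (h0 _ _ _ hR h)
    have hcv : c • v ∈ W := W.smul_mem c hv
    have hlt : S ⊓ LinearMap.ker (e' x) < S :=
      lt_of_le_of_ne inf_le_left fun h => hx (by
        have : v' ∈ S ⊓ LinearMap.ker (e' x) := by
          rw [h]
          exact hS _ hcv _ hR
        exact this.2)
    have h2 := Submodule.finrank_lt_finrank_of_lt hlt
    have h3 : finrank k (W ⊓ LinearMap.ker (e x) : Submodule k V) = n := by
      have h4 := LinearMap.finrank_range_add_finrank_ker ((e x).domRestrict W)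
      have h5 : LinearMap.range ((e x).domRestrict W) = ⊤ := by
        rcases (Ideal.eq_bot_or_top (LinearMap.range ((e x).domRestrict W))) with h | h
        · exfalso
          have : e x (c • v) ∈ LinearMap.range ((e x).domRestrict W) := ⟨⟨c • v, hcv⟩, rfl⟩
          rw [h] at this
          exact hx' this
        · exact h
      have h6 : finrank k (LinearMap.ker ((e x).domRestrict W)) =
          finrank k (W ⊓ LinearMap.ker (e x) : Submodule k V) := by
        rw [LinearMap.ker_domRestrict, ← Submodule.finrank_map_subtype_eq W,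
          Submodule.map_comap_subtype]
      rw [h5, finrank_top, finrank_self, h6, hW] at h4
      omega
    have := ih (W ⊓ LinearMap.ker (e x)) (S ⊓ LinearMap.ker (e' x)) inferInstance inferInstance h3
      (fun v hv => h1 v hv.1) (fun v hv v' hR => ⟨hS v hv.1 v' hR, h0 _ _ _ hR hv.2⟩)
    omega

open Classical in
/-- The projection to the span of the basis vectors with index in `s`. -/
noncomputable def proj (b : Basis X k V) (s : Set X) : V →ₗ[k] V :=
  b.constr k fun x => if x ∈ s then b x else 0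

open Classical in
theorem proj_basis (b : Basis X k V) (s : Set X) (x : X) :
    proj b s (b x) = if x ∈ s then b x else 0 := by
  simp [proj]

open Classical in
theorem repr_proj (b : Basis X k V) (s : Set X) (v : V) (x : X) :
    b.repr (proj b s v) x = if x ∈ s then b.repr v x else 0 := by
  have : (b.coord x).comp (proj b s) = if x ∈ s then b.coord x else 0 := by
    refine b.ext fun y => ?_
    by_cases hy : y ∈ s <;> by_cases hx : x ∈ s <;>
      simp [proj_basis, hx, hy, Finsupp.single_apply]
    all_goals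
      rintro rfl
      contradiction
  have h := LinearMap.congr_fun this v
  by_cases hx : x ∈ s <;> simpa [hx] using h

theorem mem_span_iff (b : Basis X k V) (s : Set X) (v : V) :
    v ∈ span k (b '' s) ↔ ∀ x, x ∉ s → b.repr v x = 0 := by
  rw [b.mem_span_image]
  constructor
  · intro h x hx
    by_contra h'
    exact hx (h (by simpa using h'))
  · intro h x hx
    by_contra h'
    exact (by simpa using hx : b.repr v x ≠ 0) (h x h')

theorem proj_mem (b : Basis X k V) (s : Set X) (v : V) : proj b s v ∈ span k (b '' s) :=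
  (mem_span_iff b s _).2 fun x hx => by simp [repr_proj, hx]

theorem proj_eq_self {b : Basis X k V} {s : Set X} {v : V} (h : v ∈ span k (b '' s)) :
    proj b s v = v := by
  refine b.repr.injective (Finsupp.ext fun x => ?_)
  rw [repr_proj]
  split_ifs with hx
  · rfl
  · exact ((mem_span_iff b s v).1 h x hx).symm

theorem finrank_span_basis (b : Basis X k V) (s : Finset X) :
    finrank k (span k (b '' s)) = s.card := by
  classical
  rw [← Finset.coe_image, finrank_span_finset_eq_card, Finset.card_image_of_injective _ b.injective]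
  rw [Finset.coe_image]
  exact (b.linearIndependent.linearIndepOn (s : Set X)).id_image

/-- A pair of relations (on vectors and on functionals) along which subspaces specialise. -/
structure Spec (b : Basis X k V) (b' : Basis X κ V') (R : V → V' → Prop)
    (Q : Dual k V → Dual κ V' → Prop) : Prop where
  R0 : ∀ v v' x, R v v' → b.repr v x = 0 → b'.repr v' x = 0
  R1 : ∀ v, v ≠ 0 → ∃ c : k, ∃ v', R (c • v) v' ∧ v' ≠ 0
  Rp : ∀ v v' s, R v v' → R (proj b s v) (proj b' s v')
  Q0 : ∀ φ φ' x, Q φ φ' → φ (b x) = 0 → φ' (b' x) = 0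
  Q1 : ∀ φ, φ ≠ 0 → {x | φ (b x) ≠ 0}.Finite → ∃ c : k, ∃ φ', Q (c • φ) φ' ∧ φ' ≠ 0
  orth : ∀ v v' φ φ', R v v' → Q φ φ' → φ v = 0 → φ' v' = 0

/-- The specialisation of a subspace. -/
def sp (κ : Type) [Field κ] [Module κ V'] (R : V → V' → Prop) (W : Submodule k V) :
    Submodule κ V' :=
  span κ {v' | ∃ v ∈ W, R v v'}

/-- The specialisation of the annihilator of a subspace. -/
def spD (Q : Dual k V → Dual κ V' → Prop) (W : Submodule k V) : Submodule κ (Dual κ V') :=
  span κ {φ' | ∃ φ, (∀ v ∈ W, φ v = 0) ∧ Q φ φ'}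

variable {b : Basis X k V} {b' : Basis X κ V'} {R : V → V' → Prop}
  {Q : Dual k V → Dual κ V' → Prop}

theorem sp_mono {W W' : Submodule k V} (h : W ≤ W') : sp κ R W ≤ sp κ R W' :=
  span_mono fun _ ⟨v, hv, hR⟩ => ⟨v, h hv, hR⟩

theorem mem_sp {W : Submodule k V} {v : V} {v' : V'} (hv : v ∈ W) (h : R v v') : v' ∈ sp κ R W :=
  subset_span ⟨v, hv, h⟩

theorem Spec.spD_orth (h : Spec b b' R Q) {W : Submodule k V} {ψ : Dual κ V'} (hψ : ψ ∈ spD Q W)
    {v' : V'} (hv : v' ∈ sp κ R W) : ψ v' = 0 := by
  induction hψ using span_induction with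
  | mem ψ hψ =>
    obtain ⟨φ, h1, h2⟩ := hψ
    induction hv using span_induction with
    | mem v' hv =>
      obtain ⟨v, h3, h4⟩ := hv
      exact h.orth _ _ _ _ h4 h2 (h1 v h3)
    | zero => simp
    | add a c _ _ ha hc => simp [ha, hc]
    | smul c a _ ha => simp [ha]
  | zero => simp
  | add a c _ _ ha hc => simp [ha, hc]
  | smul c a _ ha => simp [ha]

theorem Spec.proj_sp (h : Spec b b' R Q) {W : Submodule k V} {s : Set X}
    (hs : ∀ v ∈ W, proj b s v ∈ W) {v' : V'} (hv : v' ∈ sp κ R W) :
    proj b' s v' ∈ sp κ R (W ⊓ span k (b '' s)) := by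
  induction hv using span_induction with
  | mem v' hv =>
    obtain ⟨v, h3, h4⟩ := hv
    exact mem_sp ⟨hs v h3, proj_mem b s v⟩ (h.Rp _ _ s h4)
  | zero => simp
  | add a c _ _ ha hc => rw [map_add]; exact add_mem ha hc
  | smul c a _ ha => rw [map_smul]; exact smul_mem _ _ ha

theorem Spec.sp_le_span (h : Spec b b' R Q) (s : Set X) :
    sp κ R (span k (b '' s)) ≤ span κ (b' '' s) :=
  span_le.2 fun _ ⟨v, hv, hR⟩ => (mem_span_iff b' s _).2 fun x hx =>
    h.R0 _ _ x hR ((mem_span_iff b s v).1 hv x hx)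

theorem Spec.sp_inf (h : Spec b b' R Q) {W : Submodule k V} {s : Set X}
    (hs : ∀ v ∈ W, proj b s v ∈ W) :
    sp κ R W ⊓ span κ (b' '' s) = sp κ R (W ⊓ span k (b '' s)) := by
  refine le_antisymm (fun v' hv => ?_)
    (le_inf (sp_mono inf_le_left) ((sp_mono inf_le_right).trans (h.sp_le_span s)))
  rw [← proj_eq_self hv.2]
  exact h.proj_sp hs hv.1

theorem Spec.main (h : Spec b b' R Q) (s : Finset X) {W : Submodule k V}
    (hW : W ≤ span k (b '' s)) :
    finrank κ (sp κ R W) = finrank k W ∧ ∀ ψ : Dual κ V', (∀ v' ∈ sp κ R W, ψ v' = 0) →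
      ψ.comp (proj b' s) ∈ span κ {φ' | ∃ φ, (∀ v ∈ W, φ v = 0) ∧ φ.comp (proj b s) = φ ∧
        Q φ φ'} := by
  set U := span k (b '' s) with hU
  set U' := span κ (b' '' s) with hU'
  have fU : FiniteDimensional k U := FiniteDimensional.span_of_finite k (s.finite_toSet.image _)
  have fU' : FiniteDimensional κ U' := FiniteDimensional.span_of_finite κ (s.finite_toSet.image _)
  have hS : sp κ R W ≤ U' := (sp_mono hW).trans (h.sp_le_span s)
  have fW : FiniteDimensional k W := Submodule.finiteDimensional_of_le hW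
  have fS : FiniteDimensional κ (sp κ R W) := Submodule.finiteDimensional_of_le hS
  let p : V →ₗ[k] U := (proj b s).codRestrict U (proj_mem b s)
  let p' : V' →ₗ[κ] U' := (proj b' s).codRestrict U' (proj_mem b' s)
  have pU : ∀ u : U, p u = u := fun u => Subtype.ext (proj_eq_self u.2)
  have pU' : ∀ u : U', p' u = u := fun u => Subtype.ext (proj_eq_self u.2)
  have i1 : finrank k W ≤ finrank κ (sp κ R W) :=
    rank_le_of_rel b.coord b'.coord (fun v' hv => b'.repr.injective (by
      rw [map_zero]
      exact Finsupp.ext hv)) R h.R0 _ W _ fW fS rfl (fun v _ hv => h.R1 v hv)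
      fun v hv v' hR => mem_sp hv hR
  let A := (W.comap U.subtype).dualAnnihilator
  let A' := ((sp κ R W).comap U'.subtype).dualAnnihilator
  let L : Submodule κ (Dual κ U') := span κ {φ' | ∃ φ ∈ A, Q (φ.comp p) (φ'.comp p')}
  have hA : ∀ φ ∈ A, ∀ v ∈ W, φ.comp p v = 0 := fun φ hφ v hv =>
    (mem_dualAnnihilator φ).1 hφ (p v) (by
      rw [show v = (⟨v, hW hv⟩ : U) from rfl, pU]
      exact hv)
  have hLA : L ≤ A' := span_le.2 fun φ' ⟨φ, h1, h2⟩ => (mem_dualAnnihilator φ').2 fun u hu => by
    have := h.spD_orth (W := W) (subset_span ⟨_, hA φ h1, h2⟩) hu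
    simpa [pU'] using this
  have i2 : finrank k A ≤ finrank κ L := by
    refine rank_le_of_rel (fun x => Dual.eval k U (p (b x))) (fun x => Dual.eval κ U' (p' (b' x)))
      (fun φ' hφ => ?_) (fun φ φ' => Q (φ.comp p) (φ'.comp p')) (fun φ φ' x hQ hx => ?_) _ A L
      inferInstance inferInstance rfl (fun φ _ hφ => ?_) fun φ hφ φ' hQ => subset_span ⟨φ, hφ, hQ⟩
    · have : φ'.comp p' = 0 := b'.ext fun x => hφ x
      refine LinearMap.ext fun u => ?_
      simpa [pU'] using LinearMap.congr_fun this u
    · exact h.Q0 _ _ x hQ hx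
    · have h1 : φ.comp p ≠ 0 := fun e => hφ (LinearMap.ext fun u => by
        simpa [pU] using LinearMap.congr_fun e u)
      obtain ⟨c, φ', h2, h3⟩ := h.Q1 _ h1 (s.finite_toSet.subset fun x hx => by
        by_contra hx'
        apply hx
        have : p (b x) = 0 := Subtype.ext (by simp [p, proj_basis, hx'])
        simp [this])
      have h4 : (φ'.comp U'.subtype).comp p' = φ' := by
        refine b'.ext fun x => ?_
        by_cases hx : x ∈ (s : Set X)
        · simp [p', proj_basis, hx]
        · have : p (b x) = 0 := Subtype.ext (by simp [p, proj_basis, hx])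
          rw [h.Q0 _ _ x h2 (by simp [this])]
          simp [p', proj_basis, hx]
      refine ⟨c, φ'.comp U'.subtype, ?_, fun e => h3 ?_⟩
      · rw [h4, LinearMap.smul_comp]
        exact h2
      · rw [← h4, e, LinearMap.zero_comp]
  have e1 := Subspace.finrank_add_finrank_dualAnnihilator_eq (W.comap U.subtype)
  have e2 := Subspace.finrank_add_finrank_dualAnnihilator_eq ((sp κ R W).comap U'.subtype)
  rw [(Submodule.comapSubtypeEquivOfLe hW).finrank_eq, finrank_span_basis] at e1
  rw [(Submodule.comapSubtypeEquivOfLe hS).finrank_eq, finrank_span_basis] at e2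
  have i3 := Submodule.finrank_mono hLA
  have e3 : L = A' := Submodule.eq_of_le_of_finrank_le hLA (by
    change finrank κ A' ≤ finrank κ L
    change _ + finrank k A = _ at e1
    change _ + finrank κ A' = _ at e2
    omega)
  refine ⟨?_, fun ψ hψ => ?_⟩
  · change _ + finrank k A = _ at e1
    change _ + finrank κ A' = _ at e2
    omega
  · have h1 : ψ.comp U'.subtype ∈ L := by
      rw [e3]
      exact (mem_dualAnnihilator _).2 fun u hu => hψ _ hu
    have h2 := Submodule.mem_map_of_mem (f := p'.dualMap) h1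
    rw [Submodule.map_span] at h2
    refine span_mono ?_ h2
    rintro _ ⟨φ', ⟨φ, h3, h4⟩, rfl⟩
    refine ⟨φ.comp p, hA φ h3, LinearMap.ext fun v => ?_, h4⟩
    exact congrArg φ (pU (p v))

/-- Dimensions are kept. -/
theorem Spec.finrank_sp (h : Spec b b' R Q) {W : Submodule k V} (s : Finset X)
    (hs : ∀ v ∈ W, proj b s v ∈ W) :
    finrank κ (sp κ R W ⊓ span κ (b' '' s) : Submodule κ V') =
      finrank k (W ⊓ span k (b '' s) : Submodule k V) := by
  rw [h.sp_inf hs]
  exact (h.main s inf_le_right).1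

/-- Functionals that kill the specialisation lift. -/
theorem Spec.comp_proj_mem (h : Spec b b' R Q) {W : Submodule k V} (s : Finset X)
    (hs : ∀ v ∈ W, proj b s v ∈ W) {ψ : Dual κ V'} (hψ : ∀ v' ∈ sp κ R W, ψ v' = 0) :
    ψ.comp (proj b' s) ∈ spD Q W := by
  refine span_mono ?_ ((h.main s (W := W ⊓ span k (b '' s)) inf_le_right).2 ψ
    fun v' hv => hψ v' (sp_mono inf_le_left hv))
  rintro φ' ⟨φ, h1, h2, h3⟩
  refine ⟨φ, fun v hv => ?_, h3⟩
  rw [← h2]
  exact h1 _ ⟨hs v hv, proj_mem b s v⟩

end Pool.Agent.Lib.MP_ff61db_al.Pt.B7
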