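import Pool.Agent.Lib.MP_ff61db_al.Pt.Defs
import Pool.Agent.Lib.MP_ff61db_al.Pt.Spec

/-! Leading terms of left ideals with respect to a weight on words. -/

namespace Pool.Agent.Lib.MP_ff61db_al.Pt.B7

open Submodule Module

variable {k A H S Γ : Type} [Field k] [Ring H] [Algebra k H] [Ring S] [Algebra k S]

/-- Left multiplication by a letter. -/
noncomputable def lmul (k : Type) [Field k] (a : A) : (List A →₀ k) →ₗ[k] (List A →₀ k) :=
  Finsupp.lmapDomain k k fun l => a :: l

/-- Right multiplication by a letter. -/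
noncomputable def rmul (k : Type) [Field k] (a : A) : (List A →₀ k) →ₗ[k] (List A →₀ k) :=
  Finsupp.lmapDomain k k fun l => l ++ [a]

theorem lmul_single (a : A) (l : List A) (r : k) :
    lmul k a (Finsupp.single l r) = Finsupp.single (a :: l) r := by
  simp [lmul]

theorem rmul_single (a : A) (l : List A) (r : k) :
    rmul k a (Finsupp.single l r) = Finsupp.single (l ++ [a]) r := by
  simp [rmul]

theorem lc_single (z : A → H) (l : List A) (r : k) :
    lc k z (Finsupp.single l r) = r • wd z l := by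
  simp [lc]

theorem lc_lmul (z : A → H) (a : A) (c : List A →₀ k) :
    lc k z (lmul k a c) = z a * lc k z c := by
  induction c using Finsupp.induction_linear with
  | zero => simp
  | add c c' h h' => simp only [map_add, h, h', mul_add]
  | single l r => simp [lmul_single, lc_single, wd]

theorem lc_rmul (z : A → H) (a : A) (c : List A →₀ k) :
    lc k z (rmul k a c) = lc k z c * z a := by
  induction c using Finsupp.induction_linear with
  | zero => simp
  | add c c' h h' => simp only [map_add, h, h', add_mul]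
  | single l r => simp [rmul_single, lc_single, wd]

/-- The part of a combination supported on a set. -/
noncomputable def pt {X : Type} (k : Type) [Field k] (s : Set X) : (X →₀ k) →ₗ[k] (X →₀ k) :=
  proj Finsupp.basisSingleOne s

open Classical in
theorem pt_apply {X : Type} (s : Set X) (c : X →₀ k) (x : X) :
    pt k s c x = if x ∈ s then c x else 0 := by
  simpa [pt] using repr_proj Finsupp.basisSingleOne s c x

open Classical in
theorem pt_single {X : Type} (s : Set X) (x : X) (r : k) :
    pt k s (Finsupp.single x r) = if x ∈ s then Finsupp.single x r else 0 := by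
  ext y
  by_cases h : x = y
  · subst h
    by_cases hx : x ∈ s <;> simp [pt_apply, hx]
  · by_cases hx : x ∈ s <;> simp [pt_apply, hx, h]

theorem pt_eq_self {X : Type} {s : Set X} {c : X →₀ k} (h : ∀ x, c x ≠ 0 → x ∈ s) :
    pt k s c = c := by
  ext x
  rw [pt_apply]
  split_ifs with hx
  · rfl
  · by_contra h'
    exact hx (h x (Ne.symm h'))

theorem pt_eq_zero {X : Type} {s : Set X} {c : X →₀ k} (h : ∀ x, c x ≠ 0 → x ∉ s) :
    pt k s c = 0 := by
  ext x
  rw [pt_apply]
  split_ifs with hx
  · by_contra h'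
    exact h x h' hx
  · rfl

theorem pt_ne {X : Type} {s : Set X} {c : X →₀ k} {x : X} (h : pt k s c x ≠ 0) :
    x ∈ s ∧ c x ≠ 0 := by
  rw [pt_apply] at h
  split_ifs at h with hx
  · exact ⟨hx, h⟩
  · exact absurd rfl h

theorem pt_lmul (s : Set (List A)) (a : A) (c : List A →₀ k) :
    pt k s (lmul k a c) = lmul k a (pt k {l | a :: l ∈ s} c) := by
  induction c using Finsupp.induction_linear with
  | zero => simp
  | add c c' h h' => simp only [map_add, h, h']
  | single l r => by_cases h : a :: l ∈ s <;> simp [lmul_single, pt_single, h]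

theorem pt_rmul (s : Set (List A)) (a : A) (c : List A →₀ k) :
    pt k s (rmul k a c) = rmul k a (pt k {l | l ++ [a] ∈ s} c) := by
  induction c using Finsupp.induction_linear with
  | zero => simp
  | add c c' h h' => simp only [map_add, h, h']
  | single l r => by_cases h : l ++ [a] ∈ s <;> simp [rmul_single, pt_single, h]

theorem mem_span_wd {X M : Type} [AddCommGroup M] [Module k M] (w : X → M) (s : Set X) (h : M) :
    h ∈ span k (w '' s) ↔ ∃ c : X →₀ k, (∀ x, c x ≠ 0 → x ∈ s) ∧
      Finsupp.linearCombination k w c = h := by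
  rw [Finsupp.mem_span_image_iff_linearCombination]
  refine exists_congr fun c => and_congr_left fun _ => ?_
  rw [Finsupp.mem_supported]
  exact ⟨fun h x hx => h (by simpa using hx), fun h x hx => h x (by simpa using hx)⟩

theorem mem_wsp (z : A → H) (s : Set (List A)) (h : H) :
    h ∈ wsp k z s ↔ ∃ c : List A →₀ k, (∀ l, c l ≠ 0 → l ∈ s) ∧ lc k z c = h :=
  mem_span_wd _ _ _

theorem wsp_univ (z : A → H) : wsp k z Set.univ = span k (Set.range (wd z)) := by
  rw [wsp, Set.image_univ]

theorem lc_surj {z : A → H} (hz : wsp k z Set.univ = ⊤) (v : H) : ∃ c, lc k z c = v :=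
  ((mem_wsp z Set.univ v).1 (hz ▸ mem_top)).imp fun _ h => h.2

/-- Closed under left multiplication by letters. -/
def LI (N : Submodule k (List A →₀ k)) : Prop := ∀ a, ∀ c ∈ N, lmul k a c ∈ N

/-- Closed under right multiplication by letters. -/
def RI (N : Submodule k (List A →₀ k)) : Prop := ∀ a, ∀ c ∈ N, rmul k a c ∈ N

/-- Graded with respect to a function on the index set. -/
def Grd {X Λ : Type} (g : X → Λ) (N : Submodule k (X →₀ k)) : Prop :=
  ∀ μ, ∀ c ∈ N, pt k {x | g x = μ} c ∈ N

/-- No strictly increasing chain of subspaces with property `P`. -/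
def NoChain {M : Type} [AddCommGroup M] [Module k M] (P : Submodule k M → Prop) : Prop :=
  ∀ f : ℕ → Submodule k M, StrictMono f → ¬ ∀ n, P (f n)

theorem noChain_of_noeth [IsNoetherianRing S] (y : A → S) (hy : wsp k y Set.univ = ⊤) :
    NoChain fun N : Submodule k (List A →₀ k) => LI N ∧ LinearMap.ker (lc k y) ≤ N := by
  intro f hf h
  have key : ∀ n, ∀ s : S, ∀ t ∈ (f n).map (lc k y), s * t ∈ (f n).map (lc k y) := by
    intro n s
    have hs : s ∈ span k (Set.range (wd y)) := wsp_univ (k := k) y ▸ hy ▸ mem_top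
    induction hs using span_induction with
    | mem s hs =>
      obtain ⟨l, rfl⟩ := hs
      induction l with
      | nil => simp [wd]
      | cons a l ih =>
        intro t ht
        obtain ⟨c, hc, e⟩ := ih t ht
        refine ⟨lmul k a c, (h n).1 a c hc, ?_⟩
        rw [lc_lmul, e]
        simp [wd, mul_assoc]
    | zero => simp
    | add a b _ _ ha hb =>
      intro t ht
      rw [add_mul]
      exact add_mem (ha t ht) (hb t ht)
    | smul r a _ ha =>
      intro t ht
      rw [smul_mul_assoc]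
      exact smul_mem _ _ (ha t ht)
  let g : ℕ → Submodule S S := fun n =>
    { carrier := (f n).map (lc k y)
      add_mem' := add_mem
      zero_mem' := zero_mem _
      smul_mem' := fun s t ht => key n s t ht }
  refine not_strictMono_of_wellFoundedGT g (strictMono_nat_of_lt_succ fun n => ?_)
  have h1 := hf (Nat.lt_succ_self n)
  refine lt_of_le_of_ne (fun t ht => Submodule.map_mono h1.le ht) fun e => h1.ne ?_
  have h2 : (f n).map (lc k y) = (f (n + 1)).map (lc k y) :=
    Submodule.ext fun t => by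
      change t ∈ g n ↔ t ∈ g (n + 1)
      rw [e]
  rw [← Submodule.comap_map_eq_self (h n).2, h2, Submodule.comap_map_eq_self (h (n + 1)).2]

section Weight

variable [AddCommMonoid Γ]

theorem wl_cons (ω : A → Γ) (a : A) (l : List A) : wl ω (a :: l) = ω a + wl ω l := by
  simp [wl]

theorem wl_append (ω : A → Γ) (l l' : List A) : wl ω (l ++ l') = wl ω l + wl ω l' := by
  simp [wl]

theorem wl_concat (ω : A → Γ) (a : A) (l : List A) : wl ω (l ++ [a]) = ω a + wl ω l := by
  simp [wl, add_comm]

variable [LinearOrder Γ]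

/-- The span of the words of weight less than `μ`. -/
def Flt (k : Type) [Field k] [Algebra k H] (z : A → H) (ω : A → Γ) (μ : Γ) : Submodule k H :=
  wsp k z {l | wl ω l < μ}

/-- Combinations of words all of whose homogeneous parts lie in `L` up to smaller words. -/
noncomputable def InL (z : A → H) (ω : A → Γ) (L : Submodule k H) : Submodule k (List A →₀ k) :=
  ⨅ μ, (L ⊔ Flt k z ω μ).comap ((lc k z).comp (pt k {l | wl ω l = μ}))

variable {z : A → H} {ω : A → Γ}

theorem mem_InL {L : Submodule k H} {c : List A →₀ k} :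
    c ∈ InL z ω L ↔ ∀ μ, lc k z (pt k {l | wl ω l = μ} c) ∈ L ⊔ Flt k z ω μ := by
  simp [InL]

theorem InL_mono {L L' : Submodule k H} (h : L ≤ L') : InL z ω L ≤ InL z ω L' :=
  fun _ hc => mem_InL.2 fun μ => sup_le_sup_right h _ (mem_InL.1 hc μ)

theorem mem_InL_of_hom {L : Submodule k H} {c : List A →₀ k} {μ : Γ}
    (hc : ∀ l, c l ≠ 0 → wl ω l = μ) (h : lc k z c ∈ L ⊔ Flt k z ω μ) : c ∈ InL z ω L := by
  refine mem_InL.2 fun ν => ?_
  by_cases e : ν = μ
  · rwa [e, pt_eq_self (s := {l | wl ω l = μ}) hc]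
  · rw [pt_eq_zero (s := {l | wl ω l = ν}) fun l hl hl' => e (hl'.symm.trans (hc l hl))]
    simp

theorem InL_grd (L : Submodule k H) : Grd (wl ω) (InL z ω L) :=
  fun μ _ hc => mem_InL_of_hom (fun _ hl => (pt_ne hl).1) (mem_InL.1 hc μ)

/-- The weight is well-founded on the nonzero words. -/
def WF (z : A → H) (ω : A → Γ) : Prop :=
  WellFounded fun l l' : List A => wl ω l < wl ω l' ∧ wd z l ≠ 0

theorem WF.of (z : A → H) (wf : WellFounded fun l l' : List A => wl ω l < wl ω l') : WF z ω :=
  Subrelation.wf (fun h => h.1) wf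

theorem lc_pt_ne (c : List A →₀ k) : lc k z (pt k {l | wd z l ≠ 0} c) = lc k z c := by
  induction c using Finsupp.induction_linear with
  | zero => simp
  | add c c' h h' => simp only [map_add, h, h']
  | single l r => by_cases e : wd z l = 0 <;> simp [pt_single, lc_single, e]

theorem le_of_InL_le (wf : WF z ω)
    (hz : wsp k z Set.univ = ⊤) {L L' : Submodule k H} (h : L ≤ L')
    (hI : InL z ω L' ≤ InL z ω L) : L' ≤ L := by
  have top : ∀ c : List A →₀ k, c ≠ 0 → ∃ l, c l ≠ 0 ∧ ∀ l', c l' ≠ 0 → wl ω l' ≤ wl ω l := by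
    intro c hc
    obtain ⟨l, h1, h2⟩ := c.support.exists_max_image (wl ω) (Finsupp.support_nonempty_iff.2 hc)
    exact ⟨l, by simpa using h1, fun l' hl' => h2 l' (by simpa using hl')⟩
  have key : ∀ l₀ : List A, ∀ c : List A →₀ k, (∀ l, c l ≠ 0 → wl ω l ≤ wl ω l₀) →
      lc k z c ∈ L' → lc k z c ∈ L := by
    intro l₀
    induction l₀ using WellFounded.induction wf with
    | _ l₀ ih =>
      intro c hc hL
      have h1 : ∀ l, (c - pt k {l | wl ω l = wl ω l₀} c) l ≠ 0 → wl ω l < wl ω l₀ := by
        intro l hl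
        rw [Finsupp.sub_apply, pt_apply] at hl
        split_ifs at hl with e
        · simp at hl
        · exact lt_of_le_of_ne (hc l (by simpa using hl)) e
      have h2 : pt k {l | wl ω l = wl ω l₀} c ∈ InL z ω L' := by
        refine mem_InL_of_hom (fun _ hl => (pt_ne hl).1) ?_
        rw [← sub_sub_cancel c (pt k _ c), map_sub]
        exact sub_mem (mem_sup_left hL) (mem_sup_right ((mem_wsp _ _ _).2 ⟨_, h1, rfl⟩))
      have h3 := mem_InL.1 (hI h2) (wl ω l₀)
      rw [pt_eq_self (s := {l | wl ω l = wl ω l₀}) fun _ hl => (pt_ne hl).1] at h3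
      obtain ⟨u, hu, w, hw, e⟩ := mem_sup.1 h3
      obtain ⟨c₁, h4, rfl⟩ := (mem_wsp _ _ _).1 hw
      have e' : lc k z c = u + lc k z (c - pt k {l | wl ω l = wl ω l₀} c + c₁) := by
        rw [map_add, map_sub, ← e]
        abel
      rw [e']
      refine add_mem hu ?_
      rw [← lc_pt_ne]
      by_cases h5 : pt k {l | wd z l ≠ 0} (c - pt k {l | wl ω l = wl ω l₀} c + c₁) = 0
      · rw [h5]
        simp
      obtain ⟨l₁, h6, h7⟩ := top _ h5
      refine ih l₁ ⟨?_, (pt_ne h6).1⟩ _ h7 ?_
      · by_contra h8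
        refine (pt_ne h6).2 ?_
        rw [Finsupp.add_apply, not_not.1 fun h9 => h8 (h1 l₁ h9), not_not.1 fun h9 => h8 (h4 l₁ h9),
          add_zero]
      · rw [e'] at hL
        rw [lc_pt_ne]
        exact (L'.add_mem_iff_right (h hu)).1 hL
  intro v hv
  obtain ⟨c, rfl⟩ := lc_surj hz v
  by_cases hc : c = 0
  · simp [hc]
  obtain ⟨l, -, hl⟩ := top c hc
  exact key l c hl hv

variable [IsOrderedCancelAddMonoid Γ]

theorem mul_mem_Flt (a : A) {μ : Γ} {v : H} (hv : v ∈ Flt k z ω μ) :
    z a * v ∈ Flt k z ω (ω a + μ) ∧ v * z a ∈ Flt k z ω (ω a + μ) := by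
  induction hv using span_induction with
  | mem v hv =>
    obtain ⟨l, hl, rfl⟩ := hv
    exact ⟨subset_span ⟨a :: l, by simpa [wl_cons] using hl, by simp [wd]⟩,
      subset_span ⟨l ++ [a], by simpa [wl_concat] using hl, by simp [wd]⟩⟩
  | zero => simp
  | add u v _ _ hu hv =>
    rw [mul_add, add_mul]
    exact ⟨add_mem hu.1 hv.1, add_mem hu.2 hv.2⟩
  | smul r v _ hv =>
    rw [mul_smul_comm, smul_mul_assoc]
    exact ⟨smul_mem _ _ hv.1, smul_mem _ _ hv.2⟩

theorem InL_LI {L : Submodule k H} (hL : ∀ a, ∀ v ∈ L, z a * v ∈ L) : LI (InL z ω L) := by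
  intro a c hc
  refine mem_InL.2 fun ν => ?_
  rw [pt_lmul, lc_lmul]
  by_cases h : ∃ μ, ν = ω a + μ
  · obtain ⟨μ, rfl⟩ := h
    obtain ⟨u, hu, w, hw, e⟩ := mem_sup.1 (mem_InL.1 hc μ)
    simp only [Set.mem_ofPred_eq, wl_cons, add_right_inj]
    rw [← e, mul_add]
    exact add_mem (mem_sup_left (hL a u hu)) (mem_sup_right (mul_mem_Flt a hw).1)
  · rw [pt_eq_zero fun l _ hl => h ⟨wl ω l, by simpa [wl_cons, eq_comm] using hl⟩]
    simp

theorem InL_RI {L : Submodule k H} (hL : ∀ a, ∀ v ∈ L, v * z a ∈ L) : RI (InL z ω L) := by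
  intro a c hc
  refine mem_InL.2 fun ν => ?_
  rw [pt_rmul, lc_rmul]
  by_cases h : ∃ μ, ν = ω a + μ
  · obtain ⟨μ, rfl⟩ := h
    obtain ⟨u, hu, w, hw, e⟩ := mem_sup.1 (mem_InL.1 hc μ)
    simp only [Set.mem_ofPred_eq, wl_concat, add_right_inj]
    rw [← e, add_mul]
    exact add_mem (mem_sup_left (hL a u hu)) (mem_sup_right (mul_mem_Flt a hw).2)
  · rw [pt_eq_zero fun l _ hl => h ⟨wl ω l, by simpa [wl_concat, eq_comm] using hl⟩]
    simp

theorem one_notMem_Flt [Nontrivial H] (wf : WF z ω) : (1 : H) ∉ Flt k z ω 0 := by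
  intro h
  have h1 : ∀ l, wd z l ∈ Flt k z ω (wl ω l) := fun l => by
    induction l with
    | nil => exact h
    | cons a l ih =>
      rw [wl_cons]
      exact (mul_mem_Flt a ih).1
  have h2 : ∀ l, wd z l = 0 := fun l => by
    induction l using WellFounded.induction wf with
    | _ l ih =>
      refine (span_le (p := ⊥)).2 ?_ (h1 l)
      rintro _ ⟨l', hl, rfl⟩
      by_contra h'
      exact h' (ih l' ⟨hl, h'⟩)
  exact one_ne_zero (h2 [])

theorem noeth_of_noChain (wf : WF z ω)
    (hz : wsp k z Set.univ = ⊤)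
    (h : NoChain fun N : Submodule k (List A →₀ k) => LI N ∧ Grd (wl ω) N ∧ InL z ω ⊥ ≤ N) :
    IsNoetherianRing H := by
  refine isNoetherian_iff.2 (wellFounded_iff_isEmpty_descending_chain.2 ⟨fun ⟨f, hf⟩ => ?_⟩)
  refine h (fun n => InL z ω ((f n).restrictScalars k)) (strictMono_nat_of_lt_succ fun n => ?_)
    fun n => ⟨InL_LI fun a v hv => (f n).smul_mem (z a) hv, InL_grd _, InL_mono bot_le⟩
  have h1 : (f n).restrictScalars k ≤ (f (n + 1)).restrictScalars k := fun v hv => (hf n).le hv
  exact lt_of_le_of_ne (InL_mono h1) fun e =>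
    (hf n).not_ge fun v hv => le_of_InL_le wf hz h1 e.ge hv

/-- A ring is left noetherian if a ring whose relations are leading terms of relations is. -/
theorem noeth_lift (wf : WF z ω)
    (hz : wsp k z Set.univ = ⊤) [IsNoetherianRing S] (y : A → S)
    (hy : wsp k y Set.univ = ⊤) (hrel : LinearMap.ker (lc k y) ≤ InL z ω ⊥) :
    IsNoetherianRing H :=
  noeth_of_noChain wf hz fun f hf h =>
    noChain_of_noeth y hy f hf fun n => ⟨(h n).1, hrel.trans (h n).2.2⟩

end Weight

end Pool.Agent.Lib.MP_ff61db_al.Pt.B7
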