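import Pool.Agent.Lib.MP_ff61db_al.Pt.Gr
import Pool.Agent.Lib.MP_ff61db_al.Pt.C0

/-! The associated graded ring for a weight on words: existence, tensor squares, dimensions. -/

namespace Pool.Agent.Lib.MP_ff61db_al.Pt.B7

open Submodule Module TensorProduct

variable {k A H S Γ : Type} [Field k] [Ring H] [Algebra k H] [Ring S] [Algebra k S]

theorem LI.word {N : Submodule k (List A →₀ k)} (h : LI N) (u : List A) (c : List A →₀ k)
    (hc : c ∈ N) : c.mapDomain (u ++ ·) ∈ N := by
  induction u with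
  | nil => exact (Finsupp.mapDomain_id (v := c)).symm ▸ hc
  | cons a u ih =>
    have := h a _ ih
    rwa [lmul, Finsupp.lmapDomain_apply, ← Finsupp.mapDomain_comp] at this

theorem RI.word {N : Submodule k (List A →₀ k)} (h : RI N) (u : List A) :
    ∀ c ∈ N, c.mapDomain (· ++ u) ∈ N := by
  induction u with
  | nil =>
    intro c hc
    simp only [List.append_nil]
    exact (Finsupp.mapDomain_id (v := c)).symm ▸ hc
  | cons a u ih =>
    intro c hc
    have := ih _ (h a c hc)
    rw [rmul, Finsupp.lmapDomain_apply, ← Finsupp.mapDomain_comp] at this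
    simpa [Function.comp_def] using this

theorem exists_ring_of {N : Submodule k (List A →₀ k)} (h : LI N) (h' : RI N) :
    ∃ (S : Type) (_ : Ring S) (_ : Algebra k S) (y : A → S),
      wsp k y Set.univ = ⊤ ∧ ∀ c, lc k y c = 0 ↔ c ∈ N := by
  obtain ⟨S, _, _, y, h1, h2⟩ := C0.exists_ring N h.word fun u c hc => h'.word u c hc
  exact ⟨S, _, _, y, (wsp_univ y).trans h1, h2⟩

theorem exists_factor {M V W : Type} [AddCommGroup M] [Module k M] [AddCommGroup V] [Module k V]
    [AddCommGroup W] [Module k W] (g : M →ₗ[k] V) (h : M →ₗ[k] W) (hk : ∀ m, g m = 0 → h m = 0) :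
    ∃ f : V →ₗ[k] W, ∀ m, f (g m) = h m := by
  obtain ⟨f, hf⟩ := LinearMap.exists_extend
    (((LinearMap.ker g).liftQ h hk).comp g.quotKerEquivRange.symm.toLinearMap)
  refine ⟨f, fun m => ?_⟩
  have := LinearMap.congr_fun hf ⟨g m, LinearMap.mem_range_self g m⟩
  rw [LinearMap.comp_apply, LinearMap.comp_apply, LinearEquiv.coe_coe,
    LinearMap.quotKerEquivRange_symm_apply_image] at this
  exact this

theorem lin_congr {X W : Type} [AddCommGroup W] [Module k W] (F G : (X →₀ k) →ₗ[k] W)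
    (t : X →₀ k) (h : ∀ x, t x ≠ 0 → F (Finsupp.single x 1) = G (Finsupp.single x 1)) :
    F t = G t := by
  rw [← Finsupp.sum_single t, map_finsuppSum, map_finsuppSum]
  refine Finsupp.sum_congr fun x hx => ?_
  rw [← mul_one (t x), ← smul_eq_mul, ← Finsupp.smul_single, map_smul, map_smul,
    h x (by simpa using hx)]

theorem sum_pt {X Λ : Type} [DecidableEq Λ] (g : X → Λ) (c : X →₀ k) :
    ∑ μ ∈ c.support.image g, pt k {x | g x = μ} c = c := by
  ext x
  rw [Finsupp.finsetSum_apply, Finset.sum_eq_single (g x)]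
  · simp [pt_apply]
  · intro μ _ h
    simp [pt_apply, h.symm]
  · intro h
    rw [pt_apply, if_pos (by simp)]
    by_contra h'
    exact h (Finset.mem_image_of_mem g (by simpa using h'))

theorem Grd.mem {X Λ : Type} {g : X → Λ} {N : Submodule k (X →₀ k)} {c : X →₀ k}
    (h : ∀ μ, pt k {x | g x = μ} c ∈ N) : c ∈ N := by
  classical
  rw [← sum_pt g c]
  exact sum_mem fun μ _ => h μ

/-- A subspace graded for `g` is stable under the projection to any union of fibres of `g`. -/
theorem Grd.pt_mem {X Λ : Type} {g : X → Λ} {N : Submodule k (X →₀ k)} (h : Grd g N) {s : Set X}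
    (hs : ∀ x y, g x = g y → x ∈ s → y ∈ s) {c : X →₀ k} (hc : c ∈ N) : pt k s c ∈ N := by
  refine Grd.mem (g := g) fun μ => ?_
  by_cases e : ∃ x ∈ s, g x = μ
  · obtain ⟨x, hx, rfl⟩ := e
    have : pt k {y | g y = g x} (pt k s c) = pt k {y | g y = g x} c := by
      ext y
      by_cases hy : g y = g x
      · simp [pt_apply, hy, hs x y hy.symm hx]
      · simp [pt_apply, hy]
    rw [this]
    exact h _ c hc
  · rw [pt_eq_zero (s := {x | g x = μ}) fun x hx hx' => e ⟨x, (pt_ne hx).1, hx'⟩]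
    exact zero_mem _

/-- A pair of words as a tensor. -/
noncomputable def wd2 (k : Type) [Field k] [Algebra k H] (z : A → H) (p : List A × List A) :
    H ⊗[k] H :=
  wd z p.1 ⊗ₜ wd z p.2

variable [AddCommMonoid Γ] [LinearOrder Γ] {z : A → H} {ω : A → Γ} {y : A → S}

theorem lift_fun {W : Type} [AddCommGroup W] [Module k W]
    (hrel : ∀ c ∈ InL z ω (⊥ : Submodule k H), lc k y c = 0) (φ : S →ₗ[k] W) (α : Γ) :
    ∃ f : H →ₗ[k] W, (∀ l, wl ω l < α → f (wd z l) = 0) ∧
      ∀ l, wl ω l = α → f (wd z l) = φ (wd y l) := by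
  obtain ⟨f, hf⟩ := exists_factor ((lc k z).comp (pt k {l | wl ω l ≤ α}))
    (φ.comp ((lc k y).comp (pt k {l | wl ω l = α}))) fun c hc => by
      have e : pt k {l | wl ω l ≤ α} c = pt k {l | wl ω l = α} c + pt k {l | wl ω l < α} c := by
        ext l
        rcases lt_trichotomy (wl ω l) α with h | h | h
        · simp [pt_apply, h, h.le, h.ne]
        · simp [pt_apply, h]
        · simp [pt_apply, h.ne', h.not_ge, h.not_gt]
      rw [LinearMap.comp_apply, e, map_add, add_eq_zero_iff_eq_neg] at hc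
      rw [LinearMap.comp_apply, LinearMap.comp_apply, hrel, map_zero]
      refine mem_InL_of_hom (μ := α) (fun _ hl => (pt_ne hl).1) ?_
      rw [hc]
      exact mem_sup_right (neg_mem ((mem_wsp _ _ _).2 ⟨_, fun _ hl => (pt_ne hl).1, rfl⟩))
  refine ⟨f, fun l hl => ?_, fun l hl => ?_⟩
  · simpa [pt_single, lc_single, hl.le, hl.ne] using hf (Finsupp.single l 1)
  · simpa [pt_single, lc_single, hl] using hf (Finsupp.single l 1)

variable [IsOrderedCancelAddMonoid Γ]

/-- The associated graded ring. -/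
theorem grLift (z : A → H) (ω : A → Γ) (wf : WF z ω)
    (hz : wsp k z Set.univ = ⊤) :
    ∃ (S : Type) (_ : Ring S) (_ : Algebra k S) (y : A → S), wsp k y Set.univ = ⊤ ∧
      (∀ c, lc k y c = 0 ↔ c ∈ InL z ω (⊥ : Submodule k H)) ∧
      (IsNoetherianRing S → IsNoetherianRing H) := by
  obtain ⟨S, _, _, y, h1, h2⟩ := exists_ring_of (N := InL z ω (⊥ : Submodule k H))
    (InL_LI fun a v hv => by simp_all) (InL_RI fun a v hv => by simp_all)
  exact ⟨S, _, _, y, h1, h2, fun _ => noeth_lift wf hz y h1 fun c hc => (h2 c).1 hc⟩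

/-- The graded ring of a tensor square is the tensor square of the graded ring. -/
theorem tensor_gr (hrel : ∀ c ∈ InL z ω (⊥ : Submodule k H), lc k y c = 0) {μ : Γ}
    {t : List A × List A →₀ k} (ht : ∀ p, t p ≠ 0 → wl ω p.1 + wl ω p.2 = μ)
    (h : Finsupp.linearCombination k (wd2 k z) t ∈
      span k (wd2 k z '' {p | wl ω p.1 + wl ω p.2 < μ})) :
    Finsupp.linearCombination k (wd2 k y) t = 0 := by
  refine C0.sep_dual _ fun φ ψ => ?_
  rw [← sum_pt (fun p => wl ω p.1) t, map_sum, map_sum]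
  refine Finset.sum_eq_zero fun α hα => ?_
  obtain ⟨p₀, hp₀, rfl⟩ := Finset.mem_image.1 hα
  have h₀ := ht p₀ (by simpa using hp₀)
  obtain ⟨f, f1, f2⟩ := lift_fun hrel φ (wl ω p₀.1)
  obtain ⟨g, g1, g2⟩ := lift_fun hrel ψ (wl ω p₀.2)
  have h1 : C0.pr2 f g (Finsupp.linearCombination k (wd2 k z) t) = 0 := by
    refine (span_le (p := LinearMap.ker (C0.pr2 f g))).2 ?_ h
    rintro _ ⟨p, hp, rfl⟩
    change C0.pr2 f g _ = 0
    rw [wd2, C0.pr2_tmul]
    by_cases e : wl ω p.1 < wl ω p₀.1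
    · rw [f1 _ e, zero_mul]
    · rw [g1, mul_zero]
      by_contra e'
      exact (add_le_add (not_lt.1 e) (not_lt.1 e')).not_gt (h₀ ▸ hp)
  rw [← h1]
  refine lin_congr ((C0.pr2 φ ψ).comp ((Finsupp.linearCombination k (wd2 k y)).comp
    (pt k {p | wl ω p.1 = wl ω p₀.1}))) ((C0.pr2 f g).comp (Finsupp.linearCombination k (wd2 k z)))
    t fun p hp => ?_
  have h2 := (ht p hp).trans h₀.symm
  rcases lt_trichotomy (wl ω p.1) (wl ω p₀.1) with e | e | e
  · simp [pt_single, wd2, e.ne, f1 _ e]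
  · rw [e, add_right_inj] at h2
    simp [pt_single, wd2, e, f2 _ e, g2 _ h2]
  · have : wl ω p.2 < wl ω p₀.2 := by
      by_contra e'
      exact (add_lt_add_of_lt_of_le e (not_lt.1 e')).ne' h2
    simp [pt_single, wd2, e.ne', g1 _ this]

end Pool.Agent.Lib.MP_ff61db_al.Pt.B7
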