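import Pool.Agent.Lib.MP_ff61db_al.Pt.Gr2
import Pool.Agent.Lib.MP_ff61db_al.Pt.DefsEq

/-! Dimensions of the associated graded ring; pre-Nichols algebras from relations. -/

namespace Pool.Agent.Lib.MP_ff61db_al.Pt.B7

open Submodule Module TensorProduct

variable {k κ X A H S Γ : Type} [Field k] [Field κ] [Ring H] [Algebra k H]

/-- The standard basis. -/
noncomputable abbrev sb (k X : Type) [Field k] : Basis X k (X →₀ k) := Finsupp.basisSingleOne

theorem mem_span_sb (s : Set X) (c : X →₀ k) :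
    c ∈ span k (sb k X '' s) ↔ ∀ x, c x ≠ 0 → x ∈ s := by
  rw [mem_span_iff]
  exact forall_congr' fun x => by simpa using not_imp_comm

theorem rank_wsp (z : A → H) (s : Finset (List A)) :
    finrank k (wsp k z s) + finrank k (LinearMap.ker (lc k z) ⊓ span k (sb k (List A) '' s) :
      Submodule k _) = s.card := by
  have : FiniteDimensional k (span k (sb k (List A) '' s)) :=
    FiniteDimensional.span_of_finite k (s.finite_toSet.image _)
  have h := LinearMap.finrank_range_add_finrank_ker (K := k)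
    (V := span k (sb k (List A) '' s)) (V₂ := H)
    ((lc k z).domRestrict (span k (sb k (List A) '' s)))
  rw [finrank_span_basis, LinearMap.ker_domRestrict,
    ← Submodule.finrank_map_subtype_eq (span k (sb k (List A) '' s)),
    Submodule.map_comap_subtype, inf_comm, LinearMap.range_domRestrict] at h
  have e : wsp k z s = (span k (sb k (List A) '' s)).map (lc k z) := by
    ext v
    simp only [mem_wsp, mem_map, mem_span_sb]
  rw [e, h]

variable {R : (X →₀ k) → (X →₀ κ) → Prop} {Q : Dual k (X →₀ k) → Dual κ (X →₀ κ) → Prop}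

theorem Spec.le_of_sp_le (h : Spec (sb k X) (sb κ X) R Q) {Λ : Type} {g : X → Λ}
    (hg : ∀ μ, {x | g x = μ}.Finite) {N N' : Submodule k (X →₀ k)} (hN : Grd g N) (hN' : Grd g N')
    (h1 : N ≤ N') (h2 : sp κ R N' ≤ sp κ R N) : N' ≤ N := by
  intro c hc
  refine Grd.mem (g := g) fun μ => ?_
  have e1 := h.finrank_sp (W := N) (hg μ).toFinset (by simpa [pt] using hN μ)
  have e2 := h.finrank_sp (W := N') (hg μ).toFinset (by simpa [pt] using hN' μ)
  rw [le_antisymm h2 (sp_mono h1), e1, Set.Finite.coe_toFinset] at e2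
  have : FiniteDimensional k (span k (sb k X '' {x | g x = μ})) :=
    FiniteDimensional.span_of_finite k ((hg μ).image _)
  have : FiniteDimensional k (N' ⊓ span k (sb k X '' {x | g x = μ}) : Submodule k _) :=
    Submodule.finiteDimensional_of_le inf_le_right
  have e3 := Submodule.eq_of_le_of_finrank_eq (inf_le_inf_right _ h1) e2
  have : pt k {x | g x = μ} c ∈ N' ⊓ span k (sb k X '' {x | g x = μ}) :=
    ⟨hN' μ c hc, proj_mem _ _ _⟩
  rw [← e3] at this
  exact this.1

theorem Spec.grd (h : Spec (sb k X) (sb κ X) R Q) {Λ : Type} {g : X → Λ}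
    {N : Submodule k (X →₀ k)} (hN : Grd g N) : Grd g (sp κ R N) :=
  fun μ _ hc => sp_mono inf_le_left (h.proj_sp (hN μ) hc)

theorem Spec.rank_eq {R : (List A →₀ k) → (List A →₀ κ) → Prop} {Q}
    (h : Spec (sb k (List A)) (sb κ (List A)) R Q) [Ring S] [Algebra κ S] {z : A → H} {y : A → S}
    (hy : LinearMap.ker (lc κ y) = sp κ R (LinearMap.ker (lc k z))) {s : Set (List A)}
    (hs : s.Finite) (hz : ∀ c, lc k z c = 0 → lc k z (pt k s c) = 0) :
    finrank κ (wsp κ y s) = finrank k (wsp k z s) := by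
  lift s to Finset (List A) using hs
  have e1 := rank_wsp (k := k) z s
  have e2 := rank_wsp (k := κ) y s
  rw [hy, h.finrank_sp s hz] at e2
  omega

section Top

variable [LinearOrder Γ]

/-- Passing to the top component. -/
def topR (k : Type) [Field k] (d : X → Γ) (v v' : X →₀ k) : Prop :=
  ∃ γ, (∀ x, v x ≠ 0 → d x ≤ γ) ∧ v' = pt k {x | d x = γ} v

/-- Passing to the bottom component. -/
def botQ (k : Type) [Field k] (d : X → Γ) (φ φ' : Dual k (X →₀ k)) : Prop :=
  ∃ γ, (∀ x, φ (Finsupp.single x 1) ≠ 0 → γ ≤ d x) ∧ φ' = φ.comp (pt k {x | d x = γ})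

theorem spec_top (d : X → Γ) : Spec (sb k X) (sb k X) (topR k d) (botQ k d) where
  R0 := by
    rintro v _ x ⟨γ, -, rfl⟩ hx
    by_contra h
    exact (pt_ne h).2 hx
  R1 v hv := by
    obtain ⟨x, h1, h2⟩ := v.support.exists_max_image d (Finsupp.support_nonempty_iff.2 hv)
    refine ⟨1, _, ⟨d x, fun x' hx' => h2 x' (by simpa using hx'), rfl⟩, fun e => ?_⟩
    have := DFunLike.congr_fun e x
    simp [pt_apply] at this h1
    exact h1 this
  Rp := by
    rintro v _ s ⟨γ, h, rfl⟩
    refine ⟨γ, fun x hx => h x (pt_ne hx).2, ?_⟩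
    change pt k s _ = pt k _ (pt k s v)
    ext x
    by_cases h1 : x ∈ s <;> by_cases h2 : d x = γ <;> simp [pt_apply, h1, h2]
  Q0 := by
    rintro φ _ x ⟨γ, -, rfl⟩ hx
    by_cases h2 : d x = γ
    · simpa [pt_single, h2] using hx
    · simp [pt_single, h2]
  Q1 φ hφ hf := by
    have hne : hf.toFinset.Nonempty := by
      by_contra h
      refine hφ ((sb k X).ext fun x => ?_)
      by_contra h'
      exact h ⟨x, by simpa using h'⟩
    obtain ⟨x, h1, h2⟩ := hf.toFinset.exists_min_image d hne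
    refine ⟨1, _, ⟨d x, fun x' hx' => h2 x' (by simpa using hx'), rfl⟩, fun e => ?_⟩
    have := LinearMap.congr_fun e (Finsupp.single x 1)
    simp [pt_single] at this h1
    exact h1 this
  orth := by
    rintro v _ φ _ ⟨γ, h1, rfl⟩ ⟨γ', h2, rfl⟩ h
    by_cases e : γ' = γ
    · subst e
      rw [← h]
      refine lin_congr ((φ.comp (pt k {x | d x = γ'})).comp (pt k {x | d x = γ'})) φ v
        fun x hx => ?_
      by_cases h3 : d x = γ'
      · simp [pt_single, h3]
      · simp only [LinearMap.comp_apply, pt_single, Set.mem_ofPred_eq, h3, if_false, map_zero]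
        by_contra h4
        exact h3 (le_antisymm (h1 x hx) (h2 x (Ne.symm h4)))
    · rw [LinearMap.comp_apply, pt_eq_zero (s := {x | d x = γ'}) (c := pt k {x | d x = γ} v)
        fun x hx hx' => e (hx'.symm.trans (pt_ne hx).1), map_zero]

variable [AddCommMonoid Γ] {z : A → H} {ω : A → Γ}

theorem InL_eq_sp : InL z ω (⊥ : Submodule k H) = sp k (topR k (wl ω)) (LinearMap.ker (lc k z)) := by
  refine le_antisymm (fun c hc => Grd.mem (g := wl ω) fun μ => ?_) (span_le.2 ?_)
  · have h := mem_InL.1 hc μ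
    rw [bot_sup_eq] at h
    obtain ⟨c', h1, h2⟩ := (mem_wsp _ _ _).1 h
    refine mem_sp (v := pt k {l | wl ω l = μ} c - c') (by simp [h2]) ⟨μ, fun l hl => ?_, ?_⟩
    · by_contra h3
      refine hl ?_
      have h4 : pt k {l | wl ω l = μ} c l = 0 := not_not.1 fun h4 => h3 (le_of_eq (pt_ne h4).1)
      rw [Finsupp.sub_apply, h4, not_not.1 fun h4 => h3 (le_of_lt (h1 l h4)), sub_zero]
    · rw [map_sub, pt_eq_self (s := {l | wl ω l = μ}) fun _ hl => (pt_ne hl).1,
        pt_eq_zero (s := {l | wl ω l = μ}) (c := c') fun l hl hl' => (h1 l hl).ne hl', sub_zero]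
  · rintro _ ⟨v, hv, γ, h1, rfl⟩
    refine mem_InL_of_hom (μ := γ) (fun _ hl => (pt_ne hl).1) (mem_sup_right ?_)
    refine (mem_wsp _ _ _).2 ⟨pt k {l | wl ω l = γ} v - v, fun l hl => ?_, ?_⟩
    · rw [Finsupp.sub_apply, pt_apply] at hl
      split_ifs at hl with e
      · simp at hl
      · exact lt_of_le_of_ne (h1 l (by simpa using hl)) e
    · rw [map_sub, LinearMap.mem_ker.1 hv, sub_zero]

/-- Dimensions are kept by passing to the graded ring. -/
theorem rank_gr [Ring S] [Algebra k S] {y : A → S}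
    (hy : ∀ c, lc k y c = 0 ↔ c ∈ InL z ω (⊥ : Submodule k H)) {s : Set (List A)}
    (hs : s.Finite) (hz : ∀ c, lc k z c = 0 → lc k z (pt k s c) = 0) :
    finrank k (wsp k y s) = finrank k (wsp k z s) :=
  (spec_top (wl ω)).rank_eq ((Submodule.ext hy).trans InL_eq_sp) hs hz

/-- Gradings are kept by passing to the graded ring. -/
theorem grd_gr {Λ : Type} {g : List A → Λ} (hz : Grd g (LinearMap.ker (lc k z))) :
    Grd g (InL z ω (⊥ : Submodule k H)) := by
  rw [InL_eq_sp]
  exact (spec_top (wl ω)).grd hz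

end Top

section PN

variable {I : Type} [Fintype I] [DecidableEq I]

/-- The braided coproduct on coefficient vectors. -/
noncomputable def cop (q : I → I → kˣ) : (List I →₀ k) →ₗ[k] (List I × List I →₀ k) :=
  Finsupp.linearCombination k fun l => ((sh q l).map fun p => Finsupp.single p.2 (p.1 : k)).sum

theorem lc_cop (q : I → I → kˣ) (z : I → H) (c : List I →₀ k) :
    Finsupp.linearCombination k (wd2 k z) (cop q c) = Finsupp.linearCombination k (copw q z) c := by
  induction c using Finsupp.induction_linear with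
  | zero => simp
  | add c c' h h' => simp only [map_add, h, h']
  | single l r => simp [cop, copw, map_list_sum, Function.comp_def, wd2]

theorem wl_sh {M Λ : Type} [CommGroup M] [AddCommMonoid Λ] (q : I → I → M) (ω : I → Λ)
    (l : List I) : ∀ p ∈ sh q l, wl ω p.2.1 + wl ω p.2.2 = wl ω l := by
  induction l with
  | nil => simp [sh, wl]
  | cons i l ih =>
    intro p hp
    simp only [sh, List.mem_append, List.mem_map] at hp
    rcases hp with ⟨p, hp, rfl⟩ | ⟨p, hp, rfl⟩
    · simp only [wl_cons, ← ih p hp, add_assoc]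
    · simp only [wl_cons, ← ih p hp, add_left_comm]

theorem cop_ne {q : I → I → kˣ} {c : List I →₀ k} {p : List I × List I} (h : cop q c p ≠ 0) :
    ∃ l, c l ≠ 0 ∧ ∃ a, (a, p) ∈ sh q l := by
  by_contra h'
  refine h ?_
  refine (lin_congr ((Finsupp.lapply p).comp (cop q)) 0 c fun l hl => ?_).trans rfl
  simp only [cop, LinearMap.comp_apply, Finsupp.linearCombination_single, one_smul, map_list_sum,
    LinearMap.zero_apply, List.map_map]
  refine List.sum_eq_zero fun a ha => ?_
  obtain ⟨p', h1, rfl⟩ := List.mem_map.1 ha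
  refine Finsupp.single_eq_of_ne fun e => h' ⟨l, hl, p'.1, ?_⟩
  rw [e]
  exact h1

theorem exists_proj_of_grd {Λ : Type} [DecidableEq Λ] (g : List A → Λ) {z : A → H}
    (hz : wsp k z Set.univ = ⊤) (h : Grd g (LinearMap.ker (lc k z))) :
    ∃ pr : Λ → H →ₗ[k] H, ∀ μ l, pr μ (wd z l) = if g l = μ then wd z l else 0 := by
  have : ∀ μ, ∃ pr : H →ₗ[k] H, ∀ c, pr (lc k z c) = lc k z (pt k {l | g l = μ} c) := fun μ =>
    exists_factor (lc k z) ((lc k z).comp (pt k {l | g l = μ})) (h μ)
  choose pr hpr using this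
  refine ⟨pr, fun μ l => ?_⟩
  have := hpr μ (Finsupp.single l 1)
  by_cases e : g l = μ <;> simpa [lc_single, pt_single, e] using this

theorem grd_of_proj {Λ : Type} [DecidableEq Λ] {g : List A → Λ} {z : A → H} {pr : Λ → H →ₗ[k] H}
    (h : ∀ μ l, pr μ (wd z l) = if g l = μ then wd z l else 0) :
    Grd g (LinearMap.ker (lc k z)) := by
  intro μ c hc
  have : lc k z (pt k {l | g l = μ} c) = pr μ (lc k z c) :=
    lin_congr ((lc k z).comp (pt k {l | g l = μ})) ((pr μ).comp (lc k z)) c fun l _ => by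
      by_cases e : g l = μ <;> simp [lc_single, pt_single, e, h]
  rw [LinearMap.mem_ker, this, LinearMap.mem_ker.1 hc, map_zero]

theorem pn_of_rel (q : I → I → kˣ) {z : I → H} (hz : wsp k z Set.univ = ⊤)
    (hgr : Grd deg (LinearMap.ker (lc k z))) (heps : ∀ c, lc k z c = 0 → c [] = 0)
    (hD : ∀ c, lc k z c = 0 → Finsupp.linearCombination k (wd2 k z) (cop q c) = 0) :
    ∃ P : PN k q H, P.x = z := by
  obtain ⟨pr, h1⟩ := exists_proj_of_grd deg hz hgr
  obtain ⟨eps, h2⟩ := exists_factor (lc k z) (Finsupp.lapply []) heps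
  obtain ⟨D, h3⟩ := exists_factor (lc k z) (Finsupp.linearCombination k (copw q z))
    fun c hc => lc_cop q z c ▸ hD c hc
  refine ⟨⟨z, hz, pr, h1, eps, fun l => ?_, D, fun l => ?_⟩, rfl⟩
  · simpa [lc_single, Finsupp.single_apply] using h2 (Finsupp.single l 1)
  · simpa [lc_single] using h3 (Finsupp.single l 1)

theorem D_lc {q : I → I → kˣ} (P : PN k q H) (c : List I →₀ k) :
    P.D (lc k P.x c) = Finsupp.linearCombination k (wd2 k P.x) (cop q c) := by
  rw [lc_cop]
  exact lin_congr (P.D.comp (lc k P.x)) _ c fun l _ => by simp [lc_single, P.D_wd]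

theorem eps_lc {q : I → I → kˣ} (P : PN k q H) (c : List I →₀ k) :
    P.eps (lc k P.x c) = c [] :=
  lin_congr (P.eps.comp (lc k P.x)) (Finsupp.lapply []) c fun l _ => by
    simp [lc_single, P.eps_wd, Finsupp.single_apply]

end PN

end Pool.Agent.Lib.MP_ff61db_al.Pt.B7
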