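import Pool.Agent.Lib.MP_ff61db_al.Pt.MMCore

/-! Milnor-Moore freeness for a graded connected braided bialgebra, tensor form. -/

set_option autoImplicit false
set_option linter.unusedSectionVars false

noncomputable section

namespace Pool.Agent.Lib.MP_ff61db_al.Pt

open Module TensorProduct

namespace B5

variable {k R : Type*} [Field k] [AddCommGroup R] [Module k R]

/-- Contraction of the second factor. -/
def ctr (φ : Dual k R) : R ⊗[k] R →ₗ[k] R := (TensorProduct.rid k R).toLinearMap ∘ₗ φ.lTensor R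

/-- Contraction of the first factor. -/
def ctl (φ : Dual k R) : R ⊗[k] R →ₗ[k] R := (TensorProduct.lid k R).toLinearMap ∘ₗ φ.rTensor R

@[simp] theorem ctr_tmul (φ : Dual k R) (x y : R) : ctr φ (x ⊗ₜ y) = φ y • x := by simp [ctr]

@[simp] theorem ctl_tmul (φ : Dual k R) (x y : R) : ctl φ (x ⊗ₜ y) = φ x • y := by simp [ctl]

theorem ctr_ctl (φ ψ : Dual k R) (z : R ⊗[k] R) : ψ (ctr φ z) = φ (ctl ψ z) := by
  induction z with
  | zero => simp
  | add x y hx hy => simp only [map_add, hx, hy]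
  | tmul x y => simp [mul_comm]

theorem mem_range_lTensor (N : Submodule k R) (z : R ⊗[k] R)
    (hz : ∀ φ ∈ N.dualAnnihilator, ctr φ z = 0) : z ∈ LinearMap.range (N.subtype.lTensor R) := by
  classical
  rw [← lTensor_mkQ, LinearMap.mem_ker]
  let b := Basis.ofVectorSpace k (R ⧸ N)
  apply (TensorProduct.equivFinsuppOfBasisRight b).injective
  rw [map_zero]
  ext i
  have h1 : ∀ w : R ⊗[k] R, TensorProduct.equivFinsuppOfBasisRight b (N.mkQ.lTensor R w) i =
      ctr (b.coord i ∘ₗ N.mkQ) w := by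
    intro w
    induction w with
    | zero => simp
    | add x y hx hy => simp only [map_add, Finsupp.add_apply, hx, hy]
    | tmul x y => simp
  rw [h1, hz _ ((Submodule.mem_dualAnnihilator _).2 fun a ha => by
    rw [LinearMap.comp_apply, Submodule.mkQ_apply, (Submodule.Quotient.mk_eq_zero N).2 ha,
      map_zero])]
  rfl

theorem mem_range_rTensor (N : Submodule k R) (z : R ⊗[k] R)
    (hz : ∀ φ ∈ N.dualAnnihilator, ctl φ z = 0) : z ∈ LinearMap.range (N.subtype.rTensor R) := by
  have h1 : ∀ (φ : Dual k R) (w : R ⊗[k] R), ctr φ (TensorProduct.comm k R R w) = ctl φ w := by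
    intro φ w
    induction w with
    | zero => simp
    | add x y hx hy => simp only [map_add, hx, hy]
    | tmul x y => simp
  obtain ⟨w, hw⟩ := mem_range_lTensor N (TensorProduct.comm k R R z)
    (fun φ hφ => by rw [h1, hz φ hφ])
  refine ⟨TensorProduct.comm k R N w, (TensorProduct.comm k R R).injective ?_⟩
  rw [← hw]
  clear hw
  induction w with
  | zero => simp
  | add x y hx hy => simp only [map_add, hx, hy]
  | tmul x y => simp

/-- An element of `M ⊗ R` and of `R ⊗ N` lies in `M ⊗ N`. -/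
theorem mem_range_map (M N : Submodule k R) (z : R ⊗[k] R)
    (hM : ∀ φ : Dual k R, ctr φ z ∈ M) (hN : ∀ φ : Dual k R, ctl φ z ∈ N) :
    z ∈ LinearMap.range (TensorProduct.map M.subtype N.subtype) := by
  obtain ⟨p, hp⟩ := M.subtype.exists_leftInverse_of_injective M.ker_subtype
  have h1 : z ∈ LinearMap.range (M.subtype.rTensor R) := mem_range_rTensor M z fun φ hφ => by
    rw [← Module.forall_dual_apply_eq_zero_iff k]
    intro ψ
    rw [← ctr_ctl]
    exact (Submodule.mem_dualAnnihilator _).1 hφ _ (hM ψ)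
  have h2 : z ∈ LinearMap.range (N.subtype.lTensor R) := mem_range_lTensor N z fun φ hφ => by
    rw [← Module.forall_dual_apply_eq_zero_iff k]
    intro ψ
    rw [ctr_ctl]
    exact (Submodule.mem_dualAnnihilator _).1 hφ _ (hN ψ)
  have h3 : (M.subtype ∘ₗ p).rTensor R z = z := by
    obtain ⟨w, rfl⟩ := h1
    rw [← LinearMap.comp_apply, ← LinearMap.rTensor_comp, LinearMap.comp_assoc, hp,
      LinearMap.comp_id]
  obtain ⟨w, hw⟩ := h2
  refine ⟨p.rTensor N w, ?_⟩
  rw [← h3, ← hw]
  clear h3 hw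
  induction w with
  | zero => simp
  | add x y hx hy => simp only [map_add, hx, hy]
  | tmul x y => simp

end B5

open B5

/-- A connected graded braided bialgebra, with only the properties used below. -/
structure GB (k R I : Type*) [Field k] [Ring R] [Algebra k R] [Fintype I] where
  pr : (I → ℤ) → R →ₗ[k] R
  eps : R →ₗ[k] k
  D : R →ₗ[k] R ⊗[k] R
  bm : R ⊗[k] R →ₗ[k] R ⊗[k] R →ₗ[k] R ⊗[k] R
  pr_pr : ∀ μ ν a, pr μ (pr ν a) = if μ = ν then pr ν a else 0
  fin : ∀ a, ∃ s : Finset (I → ℤ), ∑ μ ∈ s, pr μ a = a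
  pos : ∀ μ a, ¬ 0 ≤ μ → pr μ a = 0
  pr_zero : ∀ a, pr 0 a = eps a • (1 : R)
  eps_one : eps 1 = 1
  fd : ∀ μ, FiniteDimensional k (LinearMap.range (pr μ))
  mul_pr : ∀ μ ν a b, pr (μ + ν) (pr μ a * pr ν b) = pr μ a * pr ν b
  coassoc : ∀ a, TensorProduct.assoc k R R R (D.rTensor R (D a)) = D.lTensor R (D a)
  counit_l : ∀ a, ctl eps (D a) = a
  counit_r : ∀ a, ctr eps (D a) = a
  D_gr : ∀ l a, D (pr l a) ∈ Submodule.span k
    {t | ∃ μ ν x y, μ + ν = l ∧ t = pr μ x ⊗ₜ[k] pr ν y}
  D_mul : ∀ a b, D (a * b) = bm (D a) (D b)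
  bm_hom : ∀ μ ν x y z w, ∃ c : k,
    bm (x ⊗ₜ pr μ y) (pr ν z ⊗ₜ w) = c • ((x * pr ν z) ⊗ₜ (pr μ y * w))
  bm_one : ∀ x z w, bm (x ⊗ₜ 1) (z ⊗ₜ w) = (x * z) ⊗ₜ w

namespace GB

variable {k R I : Type*} [Field k] [Ring R] [Algebra k R] [Fintype I] [DecidableEq I]
  (B : GB k R I)

/-- The operators `(id ⊗ φ) ∘ D`. -/
def T : Dual k R →ₗ[k] R →ₗ[k] R where
  toFun φ := ctr φ ∘ₗ B.D
  map_add' φ ψ := by
    ext a
    simp [ctr, LinearMap.lTensor_add]
  map_smul' c φ := by
    ext a
    simp [ctr, LinearMap.lTensor_smul]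

theorem T_apply (φ : Dual k R) (a : R) : B.T φ a = ctr φ (B.D a) := rfl

theorem D_T (ψ : Dual k R) (r : R) : B.D (B.T ψ r) = (B.T ψ).lTensor R (B.D r) := by
  have h1 : ∀ z : R ⊗[k] R, B.D (ctr ψ z) =
      (ctr ψ).lTensor R (TensorProduct.assoc k R R R (B.D.rTensor R z)) := by
    intro z
    induction z with
    | zero => simp
    | add x y hx hy => simp only [map_add, hx, hy]
    | tmul x y =>
      rw [ctr_tmul, map_smul, LinearMap.rTensor_tmul]
      induction B.D x with
      | zero => simp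
      | add u v hu hv => simp only [add_tmul, map_add, smul_add, hu, hv]
      | tmul u v => simp
  rw [T_apply, h1, B.coassoc, ← LinearMap.comp_apply, ← LinearMap.lTensor_comp]
  rfl

/-- The operator form. -/
def toGC : GC k R I where
  pr := B.pr
  eps := B.eps
  T := B.T
  pr_pr := B.pr_pr
  fin := B.fin
  pos := B.pos
  pr_zero := B.pr_zero
  eps_one := B.eps_one
  fd := B.fd
  mul_pr := B.mul_pr
  T_T φ ψ r := by
    rw [T_apply, D_T, T_apply]
    induction B.D r with
    | zero => simp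
    | add u v hu hv => simp only [map_add, hu, hv]
    | tmul u v => simp
  eps_T φ r := by rw [T_apply, ctr_ctl, B.counit_l]
  T_eps := B.counit_r
  pr_T φ μ ν r := by
    obtain ⟨s, hs⟩ := B.fin r
    rw [← hs]
    simp only [map_sum]
    refine Finset.sum_congr rfl fun l _ => ?_
    rw [B.pr_pr, T_apply]
    have h1 : ∀ t ∈ Submodule.span k {t | ∃ μ ν x y, μ + ν = l ∧ t = B.pr μ x ⊗ₜ[k] B.pr ν y},
        B.pr μ (ctr (φ ∘ₗ B.pr ν) t) = if μ + ν = l then ctr (φ ∘ₗ B.pr ν) t else 0 := by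
      intro t ht
      induction ht using Submodule.span_induction with
      | zero => simp
      | add x y _ _ hx hy => rw [map_add, map_add, hx, hy]; split_ifs <;> simp
      | smul c x _ hx => rw [map_smul, map_smul, hx]; split_ifs <;> simp
      | mem x hx =>
        obtain ⟨a, b, x, y, rfl, rfl⟩ := hx
        rw [ctr_tmul, map_smul, LinearMap.comp_apply, B.pr_pr, B.pr_pr]
        by_cases h2 : ν = b
        · subst h2
          simp only [add_left_inj]
          split_ifs <;> simp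
        · simp [h2]
    rw [h1 _ (B.D_gr l r)]
    split_ifs
    · rfl
    · rw [map_zero]

variable {B} {N : Submodule k R}

theorem ctr_fin (z : R ⊗[k] R) : ∃ s : Finset (I → ℤ), ∀ s', s ⊆ s' → ∀ φ : Dual k R,
    ∑ ν ∈ s', ctr (φ ∘ₗ B.pr ν) z = ctr φ z := by
  induction z with
  | zero => exact ⟨∅, by simp⟩
  | add x y hx hy =>
    obtain ⟨s, hs⟩ := hx
    obtain ⟨t, ht⟩ := hy
    refine ⟨s ∪ t, fun s' h φ => ?_⟩
    simp only [map_add, Finset.sum_add_distrib, hs s' (Finset.subset_union_left.trans h),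
      ht s' (Finset.subset_union_right.trans h)]
  | tmul x y =>
    obtain ⟨s, hs⟩ := B.fin y
    refine ⟨s, fun s' h φ => ?_⟩
    simp only [ctr_tmul, LinearMap.comp_apply]
    rw [← Finset.sum_smul, ← map_sum, ← Finset.sum_subset h, hs]
    intro ν _ hν
    rw [← hs, map_sum]
    exact Finset.sum_eq_zero fun μ hμ => by rw [B.pr_pr, if_neg fun h' : ν = μ => hν (h' ▸ hμ)]

/-- The two descriptions of the coinvariants agree. -/
theorem mem_coinv (hg : ∀ μ, ∀ a ∈ N, B.pr μ a ∈ N) {a : R} :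
    a ∈ B.toGC.coinv N ↔ B.D a - a ⊗ₜ 1 ∈ LinearMap.range (N.subtype.lTensor R) := by
  constructor
  · intro ha
    refine mem_range_lTensor N _ fun φ hφ => ?_
    obtain ⟨s, hs⟩ := ctr_fin (B := B) (B.D a)
    rw [map_sub, ← hs (insert 0 s) (Finset.subset_insert _ _), Finset.sum_eq_single 0, sub_eq_zero]
    · have h1 : φ ∘ₗ B.pr 0 = φ 1 • B.eps := by
        ext x
        simp [B.pr_zero, mul_comm]
      rw [← T_apply, h1, map_smul, LinearMap.smul_apply, T_apply, B.counit_r, ctr_tmul]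
    · intro ν _ hν
      refine ha ν _ hν (B.toGC.hom_comp ν φ) ?_
      rw [Submodule.mem_dualAnnihilator] at *
      exact fun x hx => hφ _ (hg ν x hx)
    · simp
  · rintro ⟨w, hw⟩ ν φ h0 h1 h2
    have h3 : ctr φ (N.subtype.lTensor R w) = 0 := by
      clear hw
      induction w with
      | zero => simp
      | add x y hx hy => simp only [map_add, hx, hy, add_zero]
      | tmul x y => simp [(Submodule.mem_dualAnnihilator _).1 h2 _ y.2]
    rw [hw, map_sub, ctr_tmul, ← h1.apply, B.toGC.pr_of_ne B.toGC.one_mem_gr h0, map_zero,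
      zero_smul, sub_zero] at h3
    exact h3

theorem bm_induction {P : Submodule k (R ⊗[k] R)} (x : R) (μ : I → ℤ) (y : R)
    (h : ∀ z w, (x * z) ⊗ₜ[k] (B.pr μ y * w) ∈ P) (t : R ⊗[k] R) :
    B.bm (x ⊗ₜ B.pr μ y) t ∈ P := by
  induction t with
  | zero => simp
  | add u v hu hv => rw [map_add]; exact add_mem hu hv
  | tmul z w =>
    refine B.toGC.induction_on (P := fun z => B.bm (x ⊗ₜ B.pr μ y) (z ⊗ₜ w) ∈ P) z (by simp)
      (fun u v hu hv => by rw [add_tmul, map_add]; exact add_mem hu hv) fun ν => ?_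
    obtain ⟨c, hc⟩ := B.bm_hom μ ν x y z w
    exact hc ▸ P.smul_mem c (h _ _)

/-- A graded right ideal that is a coideal satisfies the operator conditions. -/
theorem coid (hg : ∀ μ, ∀ a ∈ N, B.pr μ a ∈ N) (he : ∀ a ∈ N, B.eps a = 0)
    (hr : ∀ a ∈ N, ∀ r, a * r ∈ N)
    (hD : ∀ a ∈ N, B.D a ∈ Submodule.span k {t | ∃ x y, (x ∈ N ∨ y ∈ N) ∧ t = x ⊗ₜ[k] y}) :
    B.toGC.Coid N where
  graded := hg
  eps := he
  right := hr
  conv φ hφ ψ hψ := by
    rw [Submodule.mem_dualAnnihilator] at *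
    intro a ha
    change φ (ctr ψ (B.D a)) = 0
    have h1 := hD a ha
    generalize B.D a = t at h1
    induction h1 using Submodule.span_induction with
    | zero => simp
    | add x y _ _ hx hy => rw [map_add, map_add, hx, hy, add_zero]
    | smul c x _ hx => rw [map_smul, map_smul, hx, smul_zero]
    | mem x hx =>
      obtain ⟨x, y, h | h, rfl⟩ := hx
      · simp [hφ x h]
      · simp [hψ y h]
  lin a ha ν φ _ hφ u := by
    obtain ⟨w, hw⟩ := (mem_coinv hg).1 ha
    change ctr φ (B.D (a * u)) = a * ctr φ (B.D u)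
    rw [B.D_mul, ← sub_add_cancel (B.D a) (a ⊗ₜ 1), ← hw, map_add, LinearMap.add_apply, map_add]
    have h1 : ctr φ (B.bm (N.subtype.lTensor R w) (B.D u)) = 0 := by
      clear hw
      induction w with
      | zero => simp
      | add x y hx hy => simp only [map_add, LinearMap.add_apply, hx, hy, add_zero]
      | tmul x y =>
        rw [LinearMap.lTensor_tmul, Submodule.subtype_apply]
        refine B.toGC.induction_on (P := fun y => ctr φ (B.bm (x ⊗ₜ y) (B.D u)) = 0) (y : R)
          (by simp) (fun u v hu hv => by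
            rw [tmul_add, map_add, LinearMap.add_apply, map_add, hu, hv, add_zero]) fun μ => ?_
        refine bm_induction (P := LinearMap.ker (ctr φ)) x μ y (fun z w => ?_) _
        rw [LinearMap.mem_ker, ctr_tmul,
          (Submodule.mem_dualAnnihilator _).1 hφ _ (hr _ (hg μ _ y.2) w), zero_smul]
    rw [h1, zero_add]
    induction B.D u with
    | zero => simp
    | add x y hx hy => simp only [map_add, mul_add, hx, hy]
    | tmul x y => simp [B.bm_one]

theorem ctl_D_mem {a : R} (ha : a ∈ B.toGC.coinv N) (ψ : Dual k R) :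
    ctl ψ (B.D a) ∈ B.toGC.coinv N := by
  intro ν φ h0 h1 h2
  have h3 := congrArg (fun x => ctl ψ (B.D x)) (ha ν φ h0 h1 h2)
  change ctl ψ (B.D (B.T φ a)) = ctl ψ (B.D 0) at h3
  rw [map_zero, map_zero, D_T] at h3
  change B.T φ (ctl ψ (B.D a)) = 0
  rw [← h3]
  induction B.D a with
  | zero => simp
  | add x y hx hy => simp only [map_add, hx, hy]
  | tmul x y => simp

/-- `D K ⊆ R ⊗ K`. -/
theorem D_coinv {a : R} (ha : a ∈ B.toGC.coinv N) :
    B.D a ∈ LinearMap.range ((B.toGC.coinv N).subtype.lTensor R) :=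
  mem_range_lTensor _ _ fun φ hφ => by
    rw [← Module.forall_dual_apply_eq_zero_iff k]
    intro ψ
    rw [ctr_ctl]
    exact (Submodule.mem_dualAnnihilator _).1 hφ _ (ctl_D_mem ha ψ)

theorem coid_cut {S : Set (I → ℤ)} (h0 : 0 ∉ S)
    (hcut : ∀ a b, 0 ≤ a → 0 ≤ b → a + b ∈ S → a ≠ 0 → b ≠ 0 → a ∈ S ∨ b ∈ S) :
    B.toGC.Coid (B.toGC.cutId S) := by
  have hgen : ∀ μ ∈ S, ∀ x r, B.pr μ x * r ∈ B.toGC.cutId S := fun μ hμ x r =>
    Submodule.subset_span ⟨μ, hμ, _, B.toGC.pr_mem μ x, r, rfl⟩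
  refine coid (fun μ a ha => ?_) (fun a ha => ?_) (fun a ha r => ?_) fun a ha => ?_
  · induction ha using Submodule.span_induction with
    | zero => simp
    | add x y _ _ hx hy => rw [map_add]; exact add_mem hx hy
    | smul c x _ hx => rw [map_smul]; exact Submodule.smul_mem _ _ hx
    | mem x hx =>
      obtain ⟨s, hs, b, hb, r, rfl⟩ := hx
      exact (B.toGC.pr_mul_right hb μ r).symm ▸ Submodule.subset_span ⟨s, hs, b, hb, _, rfl⟩
  · induction ha using Submodule.span_induction with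
    | zero => simp
    | add x y _ _ hx hy => rw [map_add, hx, hy, add_zero]
    | smul c x _ hx => rw [map_smul, hx, smul_zero]
    | mem x hx =>
      obtain ⟨s, hs, b, hb, r, rfl⟩ := hx
      have h1 := B.toGC.eps_pr_zero (b * r)
      rw [B.toGC.pr_mul_right hb] at h1
      refine h1.symm.trans ?_
      by_cases h2 : 0 ≤ s
      · rw [B.toGC.pos (0 - s) r (fun h3 => h0 (le_antisymm (by simpa using h3) h2 ▸ hs)),
          mul_zero, map_zero]
      · rw [B.toGC.gr_neg hb h2, zero_mul, map_zero]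
  · induction ha using Submodule.span_induction with
    | zero => simp
    | add x y _ _ hx hy => rw [add_mul]; exact add_mem hx hy
    | smul c x _ hx => rw [smul_mul_assoc]; exact Submodule.smul_mem _ _ hx
    | mem x hx =>
      obtain ⟨s, hs, b, hb, r', rfl⟩ := hx
      exact Submodule.subset_span ⟨s, hs, b, hb, r' * r, mul_assoc _ _ _⟩
  · induction ha using Submodule.span_induction with
    | zero => simp
    | add x y _ _ hx hy => rw [map_add]; exact add_mem hx hy
    | smul c x _ hx => rw [map_smul]; exact Submodule.smul_mem _ _ hx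
    | mem x hx =>
      obtain ⟨s, hs, _, ⟨b, rfl⟩, r, rfl⟩ := hx
      rw [B.D_mul]
      have h1 := B.D_gr s b
      change B.bm (B.D (B.pr s b)) _ ∈ _
      generalize B.D (B.pr s b) = t at h1
      induction h1 using Submodule.span_induction with
      | zero => simp
      | add x y _ _ hx hy => rw [map_add, LinearMap.add_apply]; exact add_mem hx hy
      | smul c x _ hx => rw [map_smul, LinearMap.smul_apply]; exact Submodule.smul_mem _ _ hx
      | mem x hx =>
        obtain ⟨μ, ν, x, y, rfl, rfl⟩ := hx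
        by_cases hμ : 0 ≤ μ
        swap
        · simp [B.pos μ x hμ]
        by_cases hν : 0 ≤ ν
        swap
        · simp [B.pos ν y hν]
        have h2 : μ ∈ S ∨ ν ∈ S := by
          by_cases h3 : μ = 0
          · right; simpa [h3] using hs
          by_cases h4 : ν = 0
          · left; simpa [h4] using hs
          exact hcut μ ν hμ hν hs h3 h4
        refine bm_induction _ ν y (fun z w => Submodule.subset_span ?_) _
        exact ⟨_, _, h2.imp (fun h => hgen μ h x z) fun h => hgen ν h y w, rfl⟩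

/-- Factorisation of the Hilbert function along a cut. -/
theorem cut (B : GB k R I) (S : Set (I → ℤ)) (h0 : 0 ∉ S) (hadd : ∀ a ∈ S, ∀ b ∈ S, a + b ∈ S)
    (hcut : ∀ a b, 0 ≤ a → 0 ≤ b → a + b ∈ S → a ≠ 0 → b ≠ 0 → a ∈ S ∨ b ∈ S) :
    ∃ U A : (I → ℤ) → ℕ, (∀ μ, finrank k (LinearMap.range (B.pr μ)) =
      ∑ ν ∈ Finset.Icc 0 μ, U ν * A (μ - ν)) ∧ U 0 = 1 ∧ A 0 = 1 ∧ (∀ μ ∈ S, U μ = 0) ∧
      ∀ μ, A μ ≠ 0 → μ = 0 ∨ μ ∈ S := by
  have h := coid_cut (B := B) h0 hcut
  exact ⟨_, _, h.hilbert, h.hQ_zero, GC.hK_zero, fun μ hμ => GC.hQ_cut hμ,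
    fun μ hμ => GC.hK_cut h h0 hadd hcut hμ⟩

end GB

end Pool.Agent.Lib.MP_ff61db_al.Pt
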