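import Pool.Agent.Lib.MP_ff61db_al.Pt.Basic2
import Pool.Agent.Lib.MP_ff61db_al.Pt.MMTens

/-! Freeness of a pre-Nichols algebra over the coinvariants of a right ideal coideal. -/

set_option linter.unusedSectionVars false

namespace Pool.Agent.Lib.MP_ff61db_al.Pt

open TensorProduct Module B5

namespace GC

variable {k R I : Type*} [Field k] [Ring R] [Algebra k R] [Fintype I] [DecidableEq I]
  {G : GC k R I} {N : Submodule k R}

theorem Frame.sub_mem (F : G.Frame N) (h : G.Coid N) {μ : I → ℤ} {r : R} (hr : r ∈ G.gr μ) :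
    r - ∑ i : Fin (G.hQ N μ), F.φ ⟨μ, i⟩ r • F.u ⟨μ, i⟩ ∈ N := by
  refine (Subspace.dualAnnihilator_dualCoannihilator_eq (W := N)).le
    ((Submodule.mem_dualCoannihilator _).2 fun ψ hψ => ?_)
  have h1 := LinearMap.congr_fun (F.expand μ _ (G.hom_comp μ ψ) (h.comp_pr hψ μ)) r
  rw [LinearMap.comp_apply, G.mem_gr.1 hr, LinearMap.sum_apply] at h1
  rw [map_sub, h1, map_sum, sub_eq_zero]
  refine Finset.sum_congr rfl fun i _ => ?_
  rw [LinearMap.comp_apply, G.mem_gr.1 (F.u_mem ⟨μ, i⟩), LinearMap.smul_apply, map_smul,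
    smul_eq_mul, smul_eq_mul, mul_comm]

theorem Coid.frame_in (h : G.Coid N) {U : Submodule k R} (hU : ∀ μ, ∀ a ∈ U, G.pr μ a ∈ U)
    (hc : IsCompl N U) : ∃ F : G.Frame N, ∀ j, F.u j ∈ U := by
  obtain ⟨F⟩ := h.frame
  let p : R →ₗ[k] R := U.projection N hc.symm
  have hp : ∀ x, x - p x ∈ N := Submodule.sub_projection_mem hc.symm
  have hpU : ∀ x, p x ∈ U := Submodule.projection_apply_mem hc.symm
  have hφ : ∀ ψ ∈ N.dualAnnihilator, ∀ x, ψ (p x) = ψ x := fun ψ hψ x => by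
    have := (Submodule.mem_dualAnnihilator ψ).1 hψ _ (hp x)
    rw [map_sub, sub_eq_zero] at this
    exact this.symm
  refine ⟨⟨fun j => p (F.u j), F.φ, fun j => ?_, F.hom, F.ann, fun ν i j => ?_,
    fun ν ψ h1 h2 => ?_⟩, fun j => hpU _⟩
  · rw [G.mem_gr, ← sub_eq_zero]
    refine (Submodule.disjoint_def.1 hc.disjoint) _ ?_ (_root_.sub_mem (hU _ _ (hpU _)) (hpU _))
    have h1 := _root_.sub_mem (hp (F.u j)) (h.graded j.1 _ (hp (F.u j)))
    rw [map_sub, G.mem_gr.1 (F.u_mem j)] at h1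
    convert h1 using 1
    abel
  · rw [hφ _ (F.ann _), F.dual]
  · simp only [hφ _ h2]
    exact F.expand ν ψ h1 h2

theorem Coid.bij (h : G.Coid N) {U : Submodule k R} (hU : ∀ μ, ∀ a ∈ U, G.pr μ a ∈ U)
    (hc : IsCompl N U) : Function.Bijective
      (LinearMap.mul' k R ∘ₗ TensorProduct.map (G.coinv N).subtype U.subtype) := by
  classical
  obtain ⟨F, hF⟩ := h.frame_in hU hc
  constructor
  · let Θ : (G.Jx N →₀ G.coinv N) →ₗ[k] G.coinv N ⊗[k] U :=
      Finsupp.lsum k fun j => (TensorProduct.mk k (G.coinv N) U).flip ⟨F.u j, hF j⟩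
    have hΘ : ∀ t, t ∈ LinearMap.range Θ := by
      intro t
      induction t with
      | zero => exact zero_mem _
      | add x y hx hy => exact add_mem hx hy
      | tmul a r =>
        let p : R →ₗ[k] U := U.projectionOnto N hc.symm
        rw [← Submodule.projectionOnto_apply_left hc.symm r]
        refine G.induction_on (P := fun x => a ⊗ₜ[k] p x ∈ LinearMap.range Θ) (r : R) (by simp)
          (fun x y hx hy => by rw [map_add, tmul_add]; exact add_mem hx hy) fun μ => ?_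
        have h1 := (Submodule.projectionOnto_apply_eq_zero_iff hc.symm).2
          (F.sub_mem h (G.pr_mem μ r))
        rw [map_sub, sub_eq_zero] at h1
        change a ⊗ₜ[k] U.projectionOnto N hc.symm _ ∈ _
        rw [h1, map_sum, tmul_sum]
        refine Submodule.sum_mem _ fun i _ => ?_
        rw [map_smul, tmul_smul, Submodule.projectionOnto_apply_of_mem_left hc.symm (hF _)]
        exact Submodule.smul_mem _ _ ⟨Finsupp.single ⟨μ, i⟩ a, by simp [Θ]⟩
    rw [injective_iff_map_eq_zero]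
    intro t ht
    obtain ⟨f, rfl⟩ := hΘ t
    have h1 : Θ f = ∑ j ∈ f.support, f j ⊗ₜ[k] (⟨F.u j, hF j⟩ : U) := rfl
    rw [h1, map_sum] at ht
    have h2 := F.indep h (fun j => (f j : R)) f.support (fun j _ => (f j).2) (by simpa using ht)
    rw [h1]
    exact Finset.sum_eq_zero fun j hj => by
      rw [show f j = 0 from Subtype.ext (h2 j hj), zero_tmul]
  · intro r
    refine G.induction_on (P := fun x => x ∈ LinearMap.range
      (LinearMap.mul' k R ∘ₗ TensorProduct.map (G.coinv N).subtype U.subtype)) r (zero_mem _)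
      (fun _ _ => add_mem) fun μ => ?_
    obtain ⟨a, ha, hs⟩ := F.span h (G.pr_mem μ r)
    rw [← hs]
    exact Submodule.sum_mem _ fun j _ => ⟨⟨a j, (ha j).1⟩ ⊗ₜ ⟨F.u j, hF j⟩, by simp⟩

theorem comm_pr {τ : R →ₗ[k] R} (hτ : ∀ μ, ∀ r ∈ G.gr μ, τ r ∈ G.gr μ) (μ : I → ℤ) (a : R) :
    τ (G.pr μ a) = G.pr μ (τ a) := by
  refine G.induction_on (P := fun x => τ (G.pr μ x) = G.pr μ (τ x)) a (by simp)
    (fun x y hx hy => by simp only [map_add, hx, hy]) fun ν => ?_
  have h1 := hτ ν _ (G.pr_mem ν a)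
  by_cases h : μ = ν
  · rw [h, G.mem_gr.1 h1, G.mem_gr.1 (G.pr_mem ν a)]
  · rw [G.pr_of_ne h1 h, G.pr_of_ne (G.pr_mem ν a) h, map_zero]

theorem hQ_nonneg {μ : I → ℤ} (h : G.hQ N μ ≠ 0) : 0 ≤ μ :=
  deg_nonneg (G := G) (N := N) ⟨μ, ⟨0, Nat.pos_of_ne_zero h⟩⟩

end GC

variable {k : Type} [Field k] {I : Type} [Fintype I] [DecidableEq I]

namespace PN
variable {q : I → I → kˣ} {R : Type} [Ring R] [Algebra k R] (P : PN k q R) {N : Submodule k R}

theorem b5_range_pr (μ : I → ℤ) : LinearMap.range (P.pr μ) = P.piece μ := by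
  ext a
  exact ⟨by rintro ⟨b, rfl⟩; exact P.pr_mem μ b, fun h => ⟨a, P.mem_piece.1 h⟩⟩

/-- The underlying graded braided bialgebra. -/
noncomputable def toGB : GB k R I where
  pr := P.pr
  eps := P.eps
  D := P.D
  bm := P.exists_bm.choose
  pr_pr μ ν a := by
    split_ifs with h
    · exact h ▸ P.mem_piece.1 (P.pr_mem _ _)
    · exact P.pr_of_ne (P.pr_mem ν a) (Ne.symm h)
  fin a := (P.exists_sum_pr a).imp fun _ h => h.1
  pos μ a h := by
    have := P.pr_mem μ a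
    rwa [P.piece_bot h, Submodule.mem_bot] at this
  pr_zero := P.pr_zero
  eps_one := P.eps_one
  fd μ := by rw [b5_range_pr]; infer_instance
  mul_pr μ ν a b := P.mem_piece.1 (P.piece_mul (P.pr_mem _ _) (P.pr_mem _ _))
  coassoc := P.coassoc
  counit_l := P.counit_left
  counit_r := P.counit_right
  D_gr l a := by
    refine Submodule.span_mono ?_ (P.D_mem (P.pr_mem l a))
    rintro _ ⟨ν, b, c, hb, hc, rfl⟩
    exact ⟨ν, l - ν, b, c, by abel, by rw [P.mem_piece.1 hb, P.mem_piece.1 hc]⟩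
  D_mul := P.exists_bm.choose_spec.2
  bm_hom μ ν x y z w :=
    ⟨_, P.exists_bm.choose_spec.1 x _ _ w μ ν (P.pr_mem _ _) (P.pr_mem _ _)⟩
  bm_one x z w := by
    induction z using P.ind_piece with
    | hw μ a ha => rw [P.exists_bm.choose_spec.1 x 1 a w 0 μ P.one_mem ha]; simp
    | ha a b ha hb => rw [add_tmul, map_add, ha, hb, mul_add, add_tmul]

/-- The operator form. -/
noncomputable abbrev toGC : GC k R I := P.toGB.toGC

theorem b5_gr_eq (μ : I → ℤ) : P.toGC.gr μ = P.piece μ := P.b5_range_pr μ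

theorem b5_mem_coinv {a : R} :
    a ∈ P.coinv N ↔ P.D a - a ⊗ₜ 1 ∈ LinearMap.range (N.subtype.lTensor R) := by
  rw [← lTensor_mkQ, LinearMap.mem_ker, map_sub, sub_eq_zero]
  rfl

theorem b5_coinv_eq (h : P.Graded N) : P.toGC.coinv N = P.coinv N := by
  ext a
  rw [P.b5_mem_coinv]
  exact GB.mem_coinv (B := P.toGB) h

variable {P} in
theorem RCo.toCoid (h : P.RCo N) : P.toGC.Coid N := by
  refine GB.coid (B := P.toGB) h.graded h.eps h.right fun a ha => ?_
  have h1 : P.D a ∈ LinearMap.ker (TensorProduct.map N.mkQ N.mkQ) := h.coid a ha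
  rw [TensorProduct.map_ker (LinearMap.exact_subtype_mkQ N) N.mkQ_surjective
    (LinearMap.exact_subtype_mkQ N) N.mkQ_surjective] at h1
  refine (sup_le ?_ ?_ : _ ≤ Submodule.span k _) h1
  · rintro _ ⟨w, rfl⟩
    induction w with
    | zero => simp
    | add x y hx hy => rw [map_add]; exact add_mem hx hy
    | tmul x y => exact Submodule.subset_span ⟨x, y, Or.inr y.2, rfl⟩
  · rintro _ ⟨w, rfl⟩
    induction w with
    | zero => simp
    | add x y hx hy => rw [map_add]; exact add_mem hx hy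
    | tmul x y => exact Submodule.subset_span ⟨x, y, Or.inl x.2, rfl⟩

theorem b5_hQ_eq (N : Submodule k R) : P.toGC.hQ N = P.hilQ N := by
  funext μ
  rw [GC.hQ, GC.qgr, b5_gr_eq, hilQ]

theorem b5_hK_eq (h : P.Graded N) : P.toGC.hK N = P.hilS (P.coinv N) := by
  funext μ
  rw [GC.hK, b5_gr_eq, P.b5_coinv_eq h, hilS]

theorem b5_hil_cv (h : P.toGC.Coid N) : P.hil = cv (P.toGC.hK N) (P.toGC.hQ N) := by
  rw [cv_comm]
  funext μ
  rw [hil, ← b5_gr_eq]
  exact h.hilbert μ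

theorem one_mem_coinv (N : Submodule k R) : (1 : R) ∈ P.coinv N := by
  rw [P.b5_mem_coinv, P.D_one, sub_self]
  exact zero_mem _

theorem coinv_mul (h : P.RCo N) {a b : R} (ha : a ∈ P.coinv N) (hb : b ∈ P.coinv N) :
    a * b ∈ P.coinv N := by
  rw [← P.b5_coinv_eq h.graded] at *
  exact h.toCoid.mul_mem ha hb

theorem coinv_graded (h : P.RCo N) : P.Graded (P.coinv N) := by
  rw [← P.b5_coinv_eq h.graded]
  exact fun μ _ ha => GC.coinv_pr ha μ

theorem coinv_le (h : P.RCo N) {a : R} (ha : a ∈ P.coinv N) (h0 : P.eps a = 0) : a ∈ N := by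
  rw [← P.b5_coinv_eq h.graded] at ha
  refine P.toGC.induction_on (P := fun x => x ∈ N) a (zero_mem _) (fun _ _ => add_mem) fun μ => ?_
  by_cases hμ : μ = 0
  · rw [hμ, P.toGC.pr_zero, show P.toGC.eps a = 0 from h0, zero_smul]
    exact zero_mem _
  · exact h.toCoid.coinv_mem (GC.coinv_pr ha μ) (P.toGC.pr_mem μ a) hμ

theorem b5_D_ctl (ψ : Dual k R) (a : R) :
    P.D (ctl ψ (P.D a)) = (ctl ψ ∘ₗ P.D).rTensor R (P.D a) := by
  let F : R ⊗[k] (R ⊗[k] R) →ₗ[k] R ⊗[k] R :=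
    (TensorProduct.lid k _).toLinearMap ∘ₗ ψ.rTensor (R ⊗[k] R)
  have h1 : ∀ z : R ⊗[k] R, P.D (ctl ψ z) = F (P.D.lTensor R z) := by
    intro z
    induction z with
    | zero => simp
    | add x y hx hy => simp only [map_add, hx, hy]
    | tmul x y => simp [F]
  rw [h1, ← P.coassoc]
  induction P.D a with
  | zero => simp
  | add x y hx hy => simp only [map_add, hx, hy]
  | tmul x y =>
    rw [LinearMap.rTensor_tmul, LinearMap.rTensor_tmul, LinearMap.comp_apply (ctl ψ)]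
    induction P.D x with
    | zero => simp
    | add u v hu hv => simp only [add_tmul, map_add, hu, hv]
    | tmul u v => simp [F, smul_tmul']

theorem b5_ctl_D_mem {a : R} (ha : a ∈ P.coinv N) (ψ : Dual k R) : ctl ψ (P.D a) ∈ P.coinv N := by
  rw [P.b5_mem_coinv] at *
  obtain ⟨w, hw⟩ := ha
  refine ⟨(ctl ψ ∘ₗ P.D).rTensor N w, ?_⟩
  rw [b5_D_ctl, ← LinearMap.comp_apply, LinearMap.lTensor_comp_rTensor,
    ← LinearMap.rTensor_comp_lTensor, LinearMap.comp_apply, hw, map_sub, LinearMap.rTensor_tmul,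
    LinearMap.comp_apply]

theorem coinv_D {a : R} (ha : a ∈ P.coinv N) :
    P.D a ∈ LinearMap.range ((P.coinv N).subtype.lTensor R) :=
  mem_range_lTensor _ _ fun φ hφ => by
    rw [← Module.forall_dual_apply_eq_zero_iff k]
    intro ψ
    rw [ctr_ctl]
    exact (Submodule.mem_dualAnnihilator _).1 hφ _ (P.b5_ctl_D_mem ha ψ)

theorem mm_bij (h : P.RCo N) {U : Submodule k R} (hU : P.Graded U) (hc : IsCompl N U) :
    Function.Bijective
      (LinearMap.mul' k R ∘ₗ TensorProduct.map (P.coinv N).subtype U.subtype) := by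
  rw [← P.b5_coinv_eq h.graded]
  exact h.toCoid.bij hU hc

/-- The component at `1` of the decomposition `R = K ⊗ U`. -/
theorem mm_proj (h : P.RCo N) : ∃ τ : R →ₗ[k] R, (∀ a, τ a ∈ P.coinv N) ∧ τ 1 = 1 ∧
    (∀ a ∈ P.coinv N, ∀ b, τ (a * b) = a * τ b) ∧ (∀ μ a, τ (P.pr μ a) = P.pr μ (τ a)) := by
  obtain ⟨τ, h1, h2, h3, h4⟩ := h.toCoid.proj
  rw [P.b5_coinv_eq h.graded] at h1 h2
  exact ⟨τ, h1, h3, h2, GC.comm_pr h4⟩

theorem mm_ideal (h : P.RCo N) : N = Submodule.span k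
    {c | ∃ a ∈ P.coinv N, P.eps a = 0 ∧ ∃ b, c = a * b} := by
  apply le_antisymm
  · refine h.toCoid.eq_plus.le.trans (Submodule.span_mono ?_)
    rintro _ ⟨μ, a, r, h0, ha, rfl⟩
    exact ⟨a, P.b5_coinv_eq h.graded ▸ ha.1, P.toGC.eps_of_ne ha.2 h0, r, rfl⟩
  · refine Submodule.span_le.2 ?_
    rintro _ ⟨a, ha, h0, b, rfl⟩
    exact h.right _ (P.coinv_le h ha h0) b

theorem mm_hil (h : P.RCo N) : P.hil = cv (P.hilS (P.coinv N)) (P.hilQ N) := by
  rw [P.b5_hil_cv h.toCoid, P.b5_hK_eq h.graded, P.b5_hQ_eq]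

end PN

end Pool.Agent.Lib.MP_ff61db_al.Pt
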