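import Mathlib

/-! Milnor-Moore freeness for a graded connected braided bialgebra, in operator form. -/

set_option autoImplicit false
set_option linter.unusedSectionVars false

noncomputable section

namespace Pool.Agent.Lib.MP_ff61db_al.Pt

open Module

/-- A connected graded algebra with the operators `T φ = (id ⊗ φ) ∘ D` of a coproduct. -/
structure GC (k R I : Type*) [Field k] [Ring R] [Algebra k R] [Fintype I] where
  pr : (I → ℤ) → R →ₗ[k] R
  eps : R →ₗ[k] k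
  T : Dual k R →ₗ[k] R →ₗ[k] R
  pr_pr : ∀ μ ν a, pr μ (pr ν a) = if μ = ν then pr ν a else 0
  fin : ∀ a, ∃ s : Finset (I → ℤ), ∑ μ ∈ s, pr μ a = a
  pos : ∀ μ a, ¬ 0 ≤ μ → pr μ a = 0
  pr_zero : ∀ a, pr 0 a = eps a • (1 : R)
  eps_one : eps 1 = 1
  fd : ∀ μ, FiniteDimensional k (LinearMap.range (pr μ))
  mul_pr : ∀ μ ν a b, pr (μ + ν) (pr μ a * pr ν b) = pr μ a * pr ν b
  T_T : ∀ φ ψ r, T φ (T ψ r) = T (φ ∘ₗ T ψ) r
  eps_T : ∀ φ r, eps (T φ r) = φ r
  T_eps : ∀ r, T eps r = r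
  pr_T : ∀ φ μ ν r, pr μ (T (φ ∘ₗ pr ν) r) = T (φ ∘ₗ pr ν) (pr (μ + ν) r)

namespace GC

variable {k R I : Type*} [Field k] [Ring R] [Algebra k R] [Fintype I] [DecidableEq I]
  (G : GC k R I)

/-- The homogeneous component. -/
def gr (μ : I → ℤ) : Submodule k R := LinearMap.range (G.pr μ)

instance (μ : I → ℤ) : FiniteDimensional k (G.gr μ) := G.fd μ

theorem mem_gr {μ : I → ℤ} {a : R} : a ∈ G.gr μ ↔ G.pr μ a = a := by
  constructor
  · rintro ⟨b, rfl⟩
    rw [G.pr_pr, if_pos rfl]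
  · intro h
    exact ⟨a, h⟩

theorem pr_mem (μ : I → ℤ) (a : R) : G.pr μ a ∈ G.gr μ := ⟨a, rfl⟩

theorem pr_of_ne {μ ν : I → ℤ} {a : R} (ha : a ∈ G.gr ν) (h : μ ≠ ν) : G.pr μ a = 0 := by
  rw [← G.mem_gr.1 ha, G.pr_pr, if_neg h]

theorem gr_neg {μ : I → ℤ} {a : R} (ha : a ∈ G.gr μ) (h : ¬ 0 ≤ μ) : a = 0 := by
  rw [← G.mem_gr.1 ha, G.pos μ a h]

theorem mul_mem_gr {μ ν : I → ℤ} {a b : R} (ha : a ∈ G.gr μ) (hb : b ∈ G.gr ν) :
    a * b ∈ G.gr (μ + ν) := by
  rw [G.mem_gr] at *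
  have := G.mul_pr μ ν a b
  rwa [ha, hb] at this

theorem one_mem_gr : (1 : R) ∈ G.gr 0 := by
  rw [G.mem_gr, G.pr_zero, G.eps_one, one_smul]

theorem eq_smul_of_zero {a : R} (ha : a ∈ G.gr 0) : a = G.eps a • (1 : R) := by
  rw [← G.pr_zero, G.mem_gr.1 ha]

theorem eps_pr_zero (a : R) : G.eps (G.pr 0 a) = G.eps a := by
  rw [G.pr_zero, map_smul, G.eps_one, smul_eq_mul, mul_one]

theorem eps_of_ne {μ : I → ℤ} {a : R} (ha : a ∈ G.gr μ) (h : μ ≠ 0) : G.eps a = 0 := by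
  rw [← G.eps_pr_zero, G.pr_of_ne ha h.symm, map_zero]

theorem induction_on {P : R → Prop} (a : R) (h0 : P 0) (hadd : ∀ x y, P x → P y → P (x + y))
    (hpr : ∀ μ, P (G.pr μ a)) : P a := by
  obtain ⟨s, hs⟩ := G.fin a
  rw [← hs]
  exact Finset.sum_induction _ P hadd h0 fun μ _ => hpr μ

theorem pr_mul_left {ν : I → ℤ} {b : R} (hb : b ∈ G.gr ν) (μ : I → ℤ) (a : R) :
    G.pr μ (a * b) = G.pr (μ - ν) a * b := by
  obtain ⟨s, hs⟩ := G.fin a
  have h1 : ∀ l, G.pr μ (G.pr l a * b) = G.pr (μ - ν) (G.pr l a) * b := by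
    intro l
    have h2 := G.mul_mem_gr (G.pr_mem l a) hb
    by_cases h : μ = l + ν
    · rw [h, G.mem_gr.1 h2, add_sub_cancel_right, G.mem_gr.1 (G.pr_mem l a)]
    · rw [G.pr_of_ne h2 h, G.pr_of_ne (G.pr_mem l a) (fun h' => h (by rw [← h']; abel)),
        zero_mul]
  conv_lhs => rw [← hs]
  conv_rhs => rw [← hs]
  rw [Finset.sum_mul, map_sum, map_sum, Finset.sum_mul]
  exact Finset.sum_congr rfl fun l _ => h1 l

theorem pr_mul_right {ν : I → ℤ} {a : R} (ha : a ∈ G.gr ν) (μ : I → ℤ) (b : R) :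
    G.pr μ (a * b) = a * G.pr (μ - ν) b := by
  obtain ⟨s, hs⟩ := G.fin b
  have h1 : ∀ l, G.pr μ (a * G.pr l b) = a * G.pr (μ - ν) (G.pr l b) := by
    intro l
    have h2 := G.mul_mem_gr ha (G.pr_mem l b)
    by_cases h : μ = ν + l
    · rw [h, G.mem_gr.1 h2, add_sub_cancel_left, G.mem_gr.1 (G.pr_mem l b)]
    · rw [G.pr_of_ne h2 h, G.pr_of_ne (G.pr_mem l b) (fun h' => h (by rw [← h']; abel)),
        mul_zero]
  conv_lhs => rw [← hs]
  conv_rhs => rw [← hs]
  rw [Finset.mul_sum, map_sum, map_sum, Finset.mul_sum]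
  exact Finset.sum_congr rfl fun l _ => h1 l

/-- A homogeneous functional. -/
def Hom (ν : I → ℤ) (φ : Dual k R) : Prop := φ ∘ₗ G.pr ν = φ

theorem hom_comp (ν : I → ℤ) (φ : Dual k R) : G.Hom ν (φ ∘ₗ G.pr ν) := by
  ext a
  simp [G.pr_pr]

theorem Hom.apply {G : GC k R I} {ν : I → ℤ} {φ : Dual k R} (h : G.Hom ν φ) (a : R) :
    φ (G.pr ν a) = φ a := LinearMap.congr_fun h a

theorem Hom.pr_T {G : GC k R I} {ν : I → ℤ} {φ : Dual k R} (h : G.Hom ν φ) (μ : I → ℤ) (r : R) :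
    G.pr μ (G.T φ r) = G.T φ (G.pr (μ + ν) r) := by
  have := G.pr_T φ μ ν r
  rwa [h] at this

theorem Hom.T_mem {G : GC k R I} {ν μ : I → ℤ} {φ : Dual k R} (h : G.Hom ν φ) {r : R}
    (hr : r ∈ G.gr μ) : G.T φ r ∈ G.gr (μ - ν) := by
  rw [G.mem_gr, h.pr_T, sub_add_cancel, G.mem_gr.1 hr]

theorem Hom.conv {G : GC k R I} {ν μ : I → ℤ} {φ ψ : Dual k R} (h : G.Hom ν φ)
    (h' : G.Hom μ ψ) : G.Hom (ν + μ) (φ ∘ₗ G.T ψ) := by
  ext a
  simp only [LinearMap.comp_apply]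
  rw [← h'.pr_T, h.apply]

theorem hom_eps : G.Hom 0 G.eps := by
  ext a
  exact G.eps_pr_zero a

/-- The coinvariants. -/
def coinv (N : Submodule k R) : Submodule k R where
  carrier := {a | ∀ ν φ, ν ≠ 0 → G.Hom ν φ → φ ∈ N.dualAnnihilator → G.T φ a = 0}
  add_mem' ha hb ν φ h0 h1 h2 := by rw [map_add, ha ν φ h0 h1 h2, hb ν φ h0 h1 h2, add_zero]
  zero_mem' ν φ _ _ _ := map_zero _
  smul_mem' c a ha ν φ h0 h1 h2 := by rw [map_smul, ha ν φ h0 h1 h2, smul_zero]

/-- A graded right ideal that is a coideal. -/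
structure Coid (N : Submodule k R) : Prop where
  graded : ∀ μ, ∀ a ∈ N, G.pr μ a ∈ N
  eps : ∀ a ∈ N, G.eps a = 0
  right : ∀ a ∈ N, ∀ r, a * r ∈ N
  conv : ∀ φ ∈ N.dualAnnihilator, ∀ ψ ∈ N.dualAnnihilator, φ ∘ₗ G.T ψ ∈ N.dualAnnihilator
  lin : ∀ a ∈ G.coinv N, ∀ ν φ, G.Hom ν φ → φ ∈ N.dualAnnihilator → ∀ u,
    G.T φ (a * u) = a * G.T φ u

variable {G} {N : Submodule k R}

theorem coinv_pr {a : R} (ha : a ∈ G.coinv N) (μ : I → ℤ) : G.pr μ a ∈ G.coinv N := by
  intro ν φ h0 h1 h2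
  have := h1.pr_T (μ - ν) a
  rw [sub_add_cancel] at this
  rw [← this, ha ν φ h0 h1 h2, map_zero]

theorem zero_mem_coinv {a : R} (ha : a ∈ G.gr 0) : a ∈ G.coinv N := by
  intro ν φ h0 h1 _
  by_cases h : 0 ≤ ν
  · refine G.gr_neg (h1.T_mem ha) fun h' => h0 (le_antisymm ?_ h)
    simpa using h'
  · have : φ = 0 := by
      ext x
      rw [← h1.apply, G.pos ν x h, map_zero, LinearMap.zero_apply]
    rw [this, map_zero, LinearMap.zero_apply]

theorem one_mem_coinv : (1 : R) ∈ G.coinv N := zero_mem_coinv G.one_mem_gr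

theorem Coid.mul_mem (h : G.Coid N) {a b : R} (ha : a ∈ G.coinv N) (hb : b ∈ G.coinv N) :
    a * b ∈ G.coinv N := by
  intro ν φ h0 h1 h2
  rw [h.lin a ha ν φ h1 h2, hb ν φ h0 h1 h2, mul_zero]

theorem Coid.comp_pr (h : G.Coid N) {φ : Dual k R} (hφ : φ ∈ N.dualAnnihilator) (ν : I → ℤ) :
    φ ∘ₗ G.pr ν ∈ N.dualAnnihilator := by
  rw [Submodule.mem_dualAnnihilator] at *
  exact fun a ha => hφ _ (h.graded ν a ha)

theorem Coid.coinv_mem (h : G.Coid N) {a : R} (ha : a ∈ G.coinv N) {μ : I → ℤ}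
    (hμ : a ∈ G.gr μ) (h0 : μ ≠ 0) : a ∈ N := by
  rw [← Subspace.dualAnnihilator_dualCoannihilator_eq (W := N), Submodule.mem_dualCoannihilator]
  intro φ hφ
  have h1 := ha μ _ h0 (G.hom_comp μ φ) (h.comp_pr hφ μ)
  have h2 := G.eps_T (φ ∘ₗ G.pr μ) a
  rw [h1, map_zero, LinearMap.comp_apply, G.mem_gr.1 hμ] at h2
  exact h2.symm

variable (G N)

/-- The image of a homogeneous component in the quotient. -/
def qgr (ν : I → ℤ) : Submodule k (R ⧸ N) := (G.gr ν).map N.mkQ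

instance (ν : I → ℤ) : FiniteDimensional k (G.qgr N ν) := by
  unfold qgr; infer_instance

/-- The Hilbert function of the quotient. -/
def hQ (ν : I → ℤ) : ℕ := finrank k (G.qgr N ν)

/-- The Hilbert function of the coinvariants. -/
def hK (ν : I → ℤ) : ℕ := finrank k ↥(G.coinv N ⊓ G.gr ν)

/-- The index set of a homogeneous basis of the quotient. -/
abbrev Jx : Type _ := Σ ν : I → ℤ, Fin (G.hQ N ν)

/-- Homogeneous lifts of a basis of the quotient with dual functionals. -/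
structure Frame where
  u : G.Jx N → R
  φ : G.Jx N → Dual k R
  u_mem : ∀ j, u j ∈ G.gr j.1
  hom : ∀ j, G.Hom j.1 (φ j)
  ann : ∀ j, φ j ∈ N.dualAnnihilator
  dual : ∀ ν (i j : Fin (G.hQ N ν)), φ ⟨ν, i⟩ (u ⟨ν, j⟩) = if i = j then 1 else 0
  expand : ∀ ν ψ, G.Hom ν ψ → ψ ∈ N.dualAnnihilator →
    ψ = ∑ i : Fin (G.hQ N ν), ψ (u ⟨ν, i⟩) • φ ⟨ν, i⟩

variable {G N}

theorem Coid.frame (h : G.Coid N) : Nonempty (G.Frame N) := by
  let b : ∀ ν, Basis (Fin (G.hQ N ν)) k (G.qgr N ν) := fun ν => finBasis k _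
  have hu : ∀ j : G.Jx N, ∃ u ∈ G.gr j.1, N.mkQ u = b j.1 j.2 := fun j => (b j.1 j.2).2
  choose u hu1 hu2 using hu
  let p : ∀ ν, R →ₗ[k] G.qgr N ν := fun ν =>
    LinearMap.codRestrict _ (N.mkQ ∘ₗ G.pr ν) fun a => ⟨_, G.pr_mem ν a, rfl⟩
  have hp : ∀ j : G.Jx N, p j.1 (u j) = b j.1 j.2 := fun j => Subtype.ext (by
    change N.mkQ (G.pr j.1 (u j)) = _
    rw [G.mem_gr.1 (hu1 j), hu2])
  refine ⟨⟨u, fun j => (b j.1).coord j.2 ∘ₗ p j.1, hu1, fun j => ?_, fun j => ?_,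
    fun ν i j => ?_, fun ν ψ h1 h2 => ?_⟩⟩
  · ext a
    simp only [LinearMap.comp_apply]
    congr 1
    exact Subtype.ext (by
      change N.mkQ (G.pr j.1 (G.pr j.1 a)) = N.mkQ (G.pr j.1 a)
      rw [G.mem_gr.1 (G.pr_mem _ _)])
  · rw [Submodule.mem_dualAnnihilator]
    intro a ha
    have : p j.1 a = 0 := Subtype.ext (by
      change N.mkQ (G.pr j.1 a) = 0
      exact (Submodule.Quotient.mk_eq_zero N).2 (h.graded _ a ha))
    rw [LinearMap.comp_apply, this, map_zero]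
  · rw [LinearMap.comp_apply, hp ⟨ν, j⟩, Basis.coord_apply, Basis.repr_self,
      Finsupp.single_apply]
    simp only [eq_comm]
  · ext a
    have h3 : G.pr ν a - ∑ i, (b ν).repr (p ν a) i • u ⟨ν, i⟩ ∈ N := by
      rw [← Submodule.Quotient.mk_eq_zero N, ← Submodule.mkQ_apply, map_sub, map_sum, sub_eq_zero]
      have h4 := congrArg Subtype.val ((b ν).sum_repr (p ν a))
      rw [Submodule.coe_sum] at h4
      simp only [map_smul]
      refine Eq.trans ?_ (h4.symm.trans (Finset.sum_congr rfl fun i _ => ?_))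
      · rfl
      · rw [hu2 ⟨ν, i⟩]; rfl
    have h5 := (Submodule.mem_dualAnnihilator ψ).1 h2 _ h3
    rw [map_sub, h1.apply, sub_eq_zero, map_sum] at h5
    rw [h5, LinearMap.sum_apply]
    refine Finset.sum_congr rfl fun i _ => ?_
    simp [mul_comm]

/-- The height of a degree. -/
def ht (μ : I → ℤ) : ℤ := ∑ i, μ i

theorem ht_nonneg {μ : I → ℤ} (h : 0 ≤ μ) : 0 ≤ ht μ := Finset.sum_nonneg fun i _ => h i

theorem ht_pos {μ : I → ℤ} (h : 0 ≤ μ) (h0 : μ ≠ 0) : 0 < ht μ := by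
  obtain ⟨i, hi⟩ := Function.ne_iff.1 h0
  exact Finset.sum_pos' (fun i _ => h i) ⟨i, Finset.mem_univ _, lt_of_le_of_ne (h i) (Ne.symm hi)⟩

theorem ht_add (μ ν : I → ℤ) : ht (μ + ν) = ht μ + ht ν := Finset.sum_add_distrib

theorem ht_sub (μ ν : I → ℤ) : ht (μ - ν) = ht μ - ht ν := by
  simp [ht, Finset.sum_sub_distrib]

theorem deg_nonneg (j : G.Jx N) : 0 ≤ j.1 := by
  by_contra h
  have h1 : G.qgr N j.1 = ⊥ := by
    rw [eq_bot_iff]
    rintro _ ⟨a, ha, rfl⟩
    rw [G.gr_neg ha h, map_zero]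
    exact Submodule.zero_mem _
  have h2 : G.hQ N j.1 = 0 := by rw [hQ, h1, finrank_bot]
  exact (h2 ▸ j.2).elim0

namespace Frame

variable (F : G.Frame N)

theorem T_u {i j : G.Jx N} (h : ht j.1 ≤ ht i.1) :
    G.T (F.φ i) (F.u j) = if i = j then 1 else 0 := by
  have h1 := (F.hom i).T_mem (F.u_mem j)
  obtain ⟨ν, i⟩ := i
  obtain ⟨μ, j⟩ := j
  by_cases hd : ν = μ
  · subst hd
    rw [sub_self] at h1
    rw [G.eq_smul_of_zero h1, G.eps_T, F.dual]
    by_cases hij : i = j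
    · simp [hij]
    · simp [hij]
  · rw [if_neg (fun h' => hd (congrArg Sigma.fst h'))]
    refine G.gr_neg h1 fun h2 => ?_
    have h3 := ht_pos h2 (fun h4 => hd (sub_eq_zero.1 h4).symm)
    rw [ht_sub] at h3
    simp only at h h3
    omega

theorem indep (h : G.Coid N) (a : G.Jx N → R) (s : Finset (G.Jx N))
    (ha : ∀ j ∈ s, a j ∈ G.coinv N) (h0 : ∑ j ∈ s, a j * F.u j = 0) : ∀ j ∈ s, a j = 0 := by
  induction s using Finset.induction_on_max_value (fun j : G.Jx N => ht j.1) with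
  | empty => simp
  | insert i s hi hmax ih =>
    have h1 : a i = 0 := by
      have h2 := congrArg (G.T (F.φ i)) h0
      rw [map_sum, map_zero, Finset.sum_insert hi,
        h.lin _ (ha i (Finset.mem_insert_self _ _)) _ _ (F.hom i) (F.ann i), F.T_u le_rfl,
        if_pos rfl, mul_one, Finset.sum_eq_zero, add_zero] at h2
      · exact h2
      · intro j hj
        rw [h.lin _ (ha j (Finset.mem_insert_of_mem hj)) _ _ (F.hom i) (F.ann i),
          F.T_u (hmax j hj), if_neg (fun h' : i = j => hi (h' ▸ hj)), mul_zero]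
    rw [Finset.sum_insert hi, h1, zero_mul, zero_add] at h0
    intro j hj
    rcases Finset.mem_insert.1 hj with rfl | hj
    · exact h1
    · exact ih (fun j hj => ha j (Finset.mem_insert_of_mem hj)) h0 j hj

theorem T_eq_zero {r : R} {ν : I → ℤ} {ψ : Dual k R} (h1 : G.Hom ν ψ)
    (h2 : ψ ∈ N.dualAnnihilator) (hr : ∀ i : Fin (G.hQ N ν), G.T (F.φ ⟨ν, i⟩) r = 0) :
    G.T ψ r = 0 := by
  rw [F.expand ν ψ h1 h2, map_sum, LinearMap.sum_apply]
  exact Finset.sum_eq_zero fun i _ => by rw [map_smul, LinearMap.smul_apply, hr, smul_zero]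

end Frame

variable (G N) in
/-- The indices of degree at most `μ`. -/
def Js (μ : I → ℤ) : Finset (G.Jx N) := (Finset.Icc 0 μ).sigma fun _ => Finset.univ

theorem mem_Js {μ : I → ℤ} {j : G.Jx N} : j ∈ G.Js N μ ↔ j.1 ≤ μ := by
  simp [Js, deg_nonneg j]

theorem Frame.span_aux (F : G.Frame N) (h : G.Coid N) (μ : I → ℤ) (n : ℕ) :
    ∀ r ∈ G.gr μ, (∀ j : G.Jx N, (n : ℤ) ≤ ht j.1 → G.T (F.φ j) r = 0) →
      ∃ a : G.Jx N → R, (∀ j, a j ∈ G.coinv N ⊓ G.gr (μ - j.1)) ∧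
        ∑ j ∈ G.Js N μ, a j * F.u j = r := by
  induction n with
  | zero =>
    intro r _ hr
    refine ⟨0, fun j => Submodule.zero_mem _, ?_⟩
    have := F.T_eq_zero G.hom_eps ((Submodule.mem_dualAnnihilator _).2 h.eps)
      (fun i => hr ⟨0, i⟩ (by simp [ht]))
    rw [G.T_eps] at this
    simp [this]
  | succ n ih =>
    intro r hrμ hr
    let c : G.Jx N → R := fun j => if ht j.1 = n then G.T (F.φ j) r else 0
    have hc : ∀ j, c j ∈ G.coinv N ⊓ G.gr (μ - j.1) := by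
      intro j
      simp only [c]
      split_ifs with hj
      · refine ⟨fun ν φ h0 h1 h2 => ?_, (F.hom j).T_mem hrμ⟩
        rw [G.T_T]
        by_cases hν : 0 ≤ ν
        · refine F.T_eq_zero (h1.conv (F.hom j)) (h.conv _ h2 _ (F.ann j)) fun i => hr _ ?_
          have := ht_pos hν h0
          simp only [ht_add, hj]
          push_cast
          omega
        · have : φ = 0 := by
            ext x
            rw [← h1.apply, G.pos ν x hν, map_zero, LinearMap.zero_apply]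
          rw [this, LinearMap.zero_comp, map_zero, LinearMap.zero_apply]
      · exact Submodule.zero_mem _
    have hsum : ∑ j ∈ G.Js N μ, c j * F.u j ∈ G.gr μ := Submodule.sum_mem _ fun j _ => by
      have := G.mul_mem_gr (hc j).2 (F.u_mem j)
      rwa [sub_add_cancel] at this
    obtain ⟨a, ha, hs⟩ := ih (r - ∑ j ∈ G.Js N μ, c j * F.u j) (sub_mem hrμ hsum) (by
      intro i hi
      rw [map_sub, map_sum, sub_eq_zero]
      have h3 : ∀ j ∈ G.Js N μ, G.T (F.φ i) (c j * F.u j) = if i = j then c i else 0 := by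
        intro j _
        rw [h.lin _ (hc j).1 _ _ (F.hom i) (F.ann i)]
        by_cases hj : ht j.1 = n
        · rw [F.T_u (hj ▸ hi)]
          split_ifs with hij
          · rw [hij, mul_one]
          · rw [mul_zero]
        · have : c j = 0 := if_neg hj
          rw [this, zero_mul]
          split_ifs with hij
          · rw [hij, this]
          · rfl
      rw [Finset.sum_congr rfl h3, Finset.sum_ite_eq]
      have h4 : c i = G.T (F.φ i) r := by
        simp only [c]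
        split_ifs with hj
        · rfl
        · exact (hr i (by push_cast; omega)).symm
      split_ifs with hiμ
      · exact h4.symm
      · refine G.gr_neg ((F.hom i).T_mem hrμ) fun h5 => hiμ (mem_Js.2 (sub_nonneg.1 h5)))
    refine ⟨a + c, fun j => add_mem (ha j) (hc j), ?_⟩
    simp only [Pi.add_apply, add_mul, Finset.sum_add_distrib, hs, sub_add_cancel]

theorem Frame.span (F : G.Frame N) (h : G.Coid N) {μ : I → ℤ} {r : R} (hr : r ∈ G.gr μ) :
    ∃ a : G.Jx N → R, (∀ j, a j ∈ G.coinv N ⊓ G.gr (μ - j.1)) ∧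
      ∑ j ∈ G.Js N μ, a j * F.u j = r := by
  refine F.span_aux h μ (ht μ + 1).toNat r hr fun j hj => ?_
  refine G.gr_neg ((F.hom j).T_mem hr) fun h5 => ?_
  have := ht_nonneg h5
  rw [ht_sub] at this
  omega

/-- The Hilbert function of `R` is the convolution of those of the coinvariants and of `R / N`. -/
theorem Coid.hilbert (h : G.Coid N) (μ : I → ℤ) :
    finrank k (G.gr μ) = ∑ ν ∈ Finset.Icc 0 μ, G.hQ N ν * G.hK N (μ - ν) := by
  obtain ⟨F⟩ := h.frame
  let Φ : (∀ j : G.Js N μ, ↥(G.coinv N ⊓ G.gr (μ - j.1.1))) →ₗ[k] R :=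
    ∑ j : G.Js N μ, (LinearMap.mulRight k (F.u j.1)) ∘ₗ Submodule.subtype _ ∘ₗ LinearMap.proj j
  have hΦ : ∀ x, Φ x = ∑ j : G.Js N μ, (x j : R) * F.u j.1 := fun x => by
    simp [Φ, LinearMap.sum_apply]
  have hinj : Function.Injective Φ := by
    rw [← LinearMap.ker_eq_bot, eq_bot_iff]
    intro x hx
    rw [LinearMap.mem_ker, hΦ] at hx
    have h1 := F.indep h (fun j => if hj : j ∈ G.Js N μ then (x ⟨j, hj⟩ : R) else 0) (G.Js N μ)
      (fun j hj => by rw [dif_pos hj]; exact (x ⟨j, hj⟩).2.1) (by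
        rw [← hx, ← Finset.sum_coe_sort]
        exact Finset.sum_congr rfl fun j _ => by rw [dif_pos j.2])
    rw [Submodule.mem_bot]
    ext j
    have := h1 j.1 j.2
    rw [dif_pos j.2] at this
    exact this
  have hrange : LinearMap.range Φ = G.gr μ := by
    apply le_antisymm
    · rintro _ ⟨x, rfl⟩
      rw [hΦ]
      refine Submodule.sum_mem _ fun j _ => ?_
      have := G.mul_mem_gr (x j).2.2 (F.u_mem j.1)
      rwa [sub_add_cancel] at this
    · intro r hr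
      obtain ⟨a, ha, hs⟩ := F.span h hr
      refine ⟨fun j => ⟨a j.1, ha j.1⟩, ?_⟩
      rw [hΦ, ← hs, ← Finset.sum_coe_sort (G.Js N μ)]
  rw [← hrange, LinearMap.finrank_range_of_inj hinj, finrank_pi_fintype,
    Finset.sum_coe_sort (G.Js N μ) (fun j => finrank k ↥(G.coinv N ⊓ G.gr (μ - j.1))), Js,
    Finset.sum_sigma]
  refine Finset.sum_congr rfl fun ν _ => ?_
  rw [hK]
  refine Eq.trans (Finset.sum_const (finrank k ↥(G.coinv N ⊓ G.gr (μ - ν)))) ?_
  simp

theorem Coid.hQ_zero (h : G.Coid N) : G.hQ N 0 = 1 := by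
  have h1 : G.qgr N 0 = Submodule.span k {N.mkQ 1} := by
    apply le_antisymm
    · rintro _ ⟨a, ha, rfl⟩
      rw [G.eq_smul_of_zero ha, map_smul]
      exact Submodule.smul_mem _ _ (Submodule.mem_span_singleton_self _)
    · rw [Submodule.span_singleton_le_iff_mem]
      exact ⟨1, G.one_mem_gr, rfl⟩
  rw [hQ, h1, finrank_span_singleton]
  intro h2
  have := h.eps 1 ((Submodule.Quotient.mk_eq_zero N).1 h2)
  rw [G.eps_one] at this
  exact one_ne_zero this

theorem hK_zero : G.hK N 0 = 1 := by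
  have h1 : G.coinv N ⊓ G.gr 0 = Submodule.span k {(1 : R)} := by
    apply le_antisymm
    · intro a ha
      rw [G.eq_smul_of_zero ha.2]
      exact Submodule.smul_mem _ _ (Submodule.mem_span_singleton_self _)
    · rw [Submodule.span_singleton_le_iff_mem]
      exact ⟨one_mem_coinv, G.one_mem_gr⟩
  rw [hK, h1, finrank_span_singleton]
  intro h2
  have := G.eps_one
  rw [h2, map_zero] at this
  exact zero_ne_one this

variable (G N) in
/-- The span of the products of coinvariants of positive degree with arbitrary elements. -/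
def plus : Submodule k R :=
  Submodule.span k {x | ∃ μ a r, μ ≠ 0 ∧ a ∈ G.coinv N ⊓ G.gr μ ∧ x = a * r}

/-- `N = K⁺ R`. -/
theorem Coid.eq_plus (h : G.Coid N) : N = G.plus N := by
  have hle : G.plus N ≤ N := Submodule.span_le.2 (by
    rintro _ ⟨μ, a, r, h0, ha, rfl⟩
    exact h.right _ (h.coinv_mem ha.1 ha.2 h0) r)
  refine le_antisymm (fun n hn => ?_) hle
  obtain ⟨F⟩ := h.frame
  refine G.induction_on (P := fun x => x ∈ G.plus N) n (zero_mem _) (fun _ _ => add_mem) fun μ => ?_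
  obtain ⟨a, ha, hs⟩ := F.span h (G.pr_mem μ n)
  have h1 : ∀ j : G.Jx N, j.1 ≠ μ → a j * F.u j ∈ G.plus N := fun j hj =>
    Submodule.subset_span ⟨_, _, _, sub_ne_zero.2 hj.symm, ha j, rfl⟩
  rw [← hs]
  refine Submodule.sum_mem _ fun i hi => ?_
  by_cases hiμ : i.1 = μ
  · have h2 : a i ∈ G.gr 0 := by
      have := (ha i).2
      rwa [hiμ, sub_self] at this
    have h3 := (Submodule.mem_dualAnnihilator _).1 (F.ann i) _ (h.graded μ n hn)
    rw [← hs, map_sum, Finset.sum_eq_single i] at h3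
    · rw [G.eq_smul_of_zero h2, smul_mul_assoc, one_mul, map_smul, F.dual i.1 i.2 i.2, if_pos rfl,
        smul_eq_mul, mul_one] at h3
      rw [G.eq_smul_of_zero h2, h3, zero_smul, zero_mul]
      exact zero_mem _
    · intro j _ hji
      by_cases hjμ : j.1 = μ
      · have h4 : a j ∈ G.gr 0 := by
          have := (ha j).2
          rwa [hjμ, sub_self] at this
        have h5 := G.eps_T (F.φ i) (F.u j)
        rw [F.T_u (by rw [hiμ, hjμ]), if_neg hji.symm, map_zero] at h5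
        rw [G.eq_smul_of_zero h4, smul_mul_assoc, one_mul, map_smul, ← h5, smul_zero]
      · exact (Submodule.mem_dualAnnihilator _).1 (F.ann i) _ (hle (h1 j hjμ))
    · exact fun h4 => absurd hi h4
  · exact h1 i hiμ

/-- The projection onto the coinvariants. -/
theorem Coid.proj (h : G.Coid N) : ∃ P : R →ₗ[k] R, (∀ r, P r ∈ G.coinv N) ∧
    (∀ a ∈ G.coinv N, ∀ r, P (a * r) = a * P r) ∧ P 1 = 1 ∧
    ∀ μ, ∀ r ∈ G.gr μ, P r ∈ G.gr μ := by
  classical
  obtain ⟨F⟩ := h.frame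
  let Ψ : (G.Jx N →₀ G.coinv N) →ₗ[k] R :=
    Finsupp.lsum k fun j => LinearMap.mulRight k (F.u j) ∘ₗ Submodule.subtype _
  have hΨ : ∀ f, Ψ f = ∑ j ∈ f.support, (f j : R) * F.u j := fun f => rfl
  have hΨs : ∀ j a, Ψ (Finsupp.single j a) = (a : R) * F.u j := fun j a => by simp [Ψ]
  have hinj : Function.Injective Ψ := by
    have key : ∀ f, Ψ f = 0 → f = 0 := by
      intro f hf
      rw [hΨ] at hf
      have h1 := F.indep h (fun j => (f j : R)) f.support (fun j _ => (f j).2) hf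
      ext j
      by_cases hj : j ∈ f.support
      · exact h1 j hj
      · rw [Finsupp.notMem_support_iff.1 hj]; rfl
    intro f g hfg
    have h2 : Ψ (f + (-1 : k) • g) = 0 := by
      rw [map_add, map_smul, hfg, neg_one_smul, add_neg_cancel]
    have h3 := key _ h2
    ext j
    have h4 := congrArg (fun x => ((x j : G.coinv N) : R)) h3
    simpa [add_neg_eq_zero] using h4
  have hrep : ∀ μ, ∀ r ∈ G.gr μ, ∃ f, Ψ f = r ∧ ∀ j, (f j : R) ∈ G.gr (μ - j.1) := by
    intro μ r hr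
    obtain ⟨a, ha, hs⟩ := F.span h hr
    refine ⟨∑ j ∈ G.Js N μ, Finsupp.single j ⟨a j, (ha j).1⟩, ?_, fun i => ?_⟩
    · rw [map_sum, ← hs]
      exact Finset.sum_congr rfl fun j _ => hΨs j _
    · rw [Finsupp.finsetSum_apply, Submodule.coe_sum]
      refine Submodule.sum_mem _ fun j _ => ?_
      rw [Finsupp.single_apply]
      split_ifs with hij
      · exact hij ▸ (ha j).2
      · exact zero_mem _
  have hsurj : Function.Surjective Ψ := fun r =>
    G.induction_on (P := fun x => x ∈ LinearMap.range Ψ) r (zero_mem _) (fun _ _ => add_mem)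
      fun μ => (hrep μ _ (G.pr_mem μ r)).imp fun _ hf => hf.1
  let e := LinearEquiv.ofBijective Ψ ⟨hinj, hsurj⟩
  let j0 : G.Jx N := ⟨0, ⟨0, by rw [h.hQ_zero]; exact one_pos⟩⟩
  let c : k := G.eps (F.u j0)
  have hu0 : F.u j0 = c • (1 : R) := G.eq_smul_of_zero (F.u_mem j0)
  let P : R →ₗ[k] R := c • (Submodule.subtype _ ∘ₗ Finsupp.lapply j0 ∘ₗ e.symm.toLinearMap)
  have hP : ∀ f, P (Ψ f) = c • (f j0 : R) := fun f => by
    have : e.symm (Ψ f) = f := e.symm_apply_apply f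
    simp [P, this]
  have hc : c ≠ 0 := by
    intro h0
    have := F.dual 0 j0.2 j0.2
    rw [if_pos rfl] at this
    change F.φ j0 (F.u j0) = 1 at this
    rw [hu0, h0, zero_smul, map_zero] at this
    exact zero_ne_one this
  refine ⟨P, fun r => ?_, fun a ha r => ?_, ?_, fun μ r hr => ?_⟩
  · obtain ⟨f, rfl⟩ := hsurj r
    rw [hP]
    exact Submodule.smul_mem _ _ (f j0).2
  · obtain ⟨f, rfl⟩ := hsurj r
    induction f using Finsupp.induction_linear with
    | zero => simp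
    | add f g hf hg => rw [map_add, mul_add, map_add, map_add, mul_add, hf, hg]
    | single j b =>
      rw [hP, hΨs, ← mul_assoc, ← hΨs j ⟨a * b, h.mul_mem ha b.2⟩, hP, Finsupp.single_apply,
        Finsupp.single_apply]
      split_ifs <;> simp
  · have h1 : Ψ (Finsupp.single j0 ⟨c⁻¹ • 1, Submodule.smul_mem _ _ one_mem_coinv⟩) = 1 := by
      rw [hΨs, hu0]
      simp [smul_smul, hc]
    conv_lhs => rw [← h1]
    rw [hP]
    simp [smul_smul, hc]
  · obtain ⟨f, rfl, hf⟩ := hrep μ r hr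
    rw [hP]
    have := hf j0
    rw [show μ - j0.1 = μ from sub_zero μ] at this
    exact Submodule.smul_mem _ _ this

variable (G) in
/-- The right ideal generated by the components with degree in `S`. -/
def cutId (S : Set (I → ℤ)) : Submodule k R :=
  Submodule.span k {x | ∃ μ ∈ S, ∃ a ∈ G.gr μ, ∃ r, x = a * r}

theorem hQ_cut {S : Set (I → ℤ)} {μ : I → ℤ} (hμ : μ ∈ S) : G.hQ (G.cutId S) μ = 0 := by
  have h1 : G.qgr (G.cutId S) μ = ⊥ := by
    rw [eq_bot_iff]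
    rintro _ ⟨a, ha, rfl⟩
    exact (Submodule.Quotient.mk_eq_zero _).2
      (Submodule.subset_span ⟨μ, hμ, a, ha, 1, (mul_one a).symm⟩)
  rw [hQ, h1, finrank_bot]

theorem coinv_cut {S : Set (I → ℤ)} (h : G.Coid (G.cutId S)) (h0 : 0 ∉ S)
    (hadd : ∀ a ∈ S, ∀ b ∈ S, a + b ∈ S)
    (hcut : ∀ a b, 0 ≤ a → 0 ≤ b → a + b ∈ S → a ≠ 0 → b ≠ 0 → a ∈ S ∨ b ∈ S) (n : ℕ) :
    ∀ μ, ht μ < n → μ ≠ 0 → μ ∉ S → ∀ a ∈ G.coinv (G.cutId S) ⊓ G.gr μ, a = 0 := by
  obtain ⟨P, hP1, hP2, hP3, hP4⟩ := h.proj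
  obtain ⟨F⟩ := h.frame
  induction n with
  | zero =>
    intro μ hμ _ _ a ha
    refine G.gr_neg ha.2 fun h1 => ?_
    have := ht_nonneg h1
    omega
  | succ n ih =>
    intro μ hμ hμ0 hμS a ha
    have h1 : ∀ x ∈ G.cutId S, P (G.pr μ x) = 0 := by
      intro x hx
      induction hx using Submodule.span_induction with
      | zero => simp
      | add x y _ _ hx hy => rw [map_add, map_add, hx, hy, add_zero]
      | smul c x _ hx => rw [map_smul, map_smul, hx, smul_zero]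
      | mem x hx =>
        obtain ⟨s, hs, b, hb, r, rfl⟩ := hx
        obtain ⟨c, hc, rfl⟩ := F.span h hb
        rw [Finset.sum_mul, map_sum, map_sum]
        refine Finset.sum_eq_zero fun j hj => ?_
        have hjS : j.1 ∉ S := fun h2 => ((hQ_cut (G := G) h2) ▸ j.2).elim0
        have hd : 0 ≤ s - j.1 := sub_nonneg.2 (mem_Js.1 hj)
        have hdS : s - j.1 ∈ S := by
          by_cases hj0 : j.1 = 0
          · rwa [hj0, sub_zero]
          · refine (hcut _ _ hd (deg_nonneg j) (by rwa [sub_add_cancel])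
              (fun h2 => hjS (sub_eq_zero.1 h2 ▸ hs)) hj0).resolve_right hjS
        have h3 : G.pr μ (c j * F.u j * r) = c j * G.pr (μ - (s - j.1)) (F.u j * r) := by
          rw [mul_assoc]
          exact G.pr_mul_right (hc j).2 μ _
        rw [h3, hP2 _ (hc j).1, ih (μ - (s - j.1)) ?_ ?_ ?_ _
          ⟨hP1 _, hP4 _ _ (G.pr_mem _ _)⟩, mul_zero]
        · have := ht_pos hd (fun h2 => h0 (h2 ▸ hdS))
          rw [ht_sub]
          push_cast at hμ
          omega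
        · exact fun h2 => hμS (sub_eq_zero.1 h2 ▸ hdS)
        · intro h2
          have := hadd _ h2 _ hdS
          rw [sub_add_cancel] at this
          exact hμS this
    have h2 := h1 a (h.coinv_mem ha.1 ha.2 hμ0)
    have h3 := hP2 a ha.1 1
    rw [mul_one, hP3, mul_one] at h3
    rwa [G.mem_gr.1 ha.2, h3] at h2

theorem hK_cut {S : Set (I → ℤ)} (h : G.Coid (G.cutId S)) (h0 : 0 ∉ S)
    (hadd : ∀ a ∈ S, ∀ b ∈ S, a + b ∈ S)
    (hcut : ∀ a b, 0 ≤ a → 0 ≤ b → a + b ∈ S → a ≠ 0 → b ≠ 0 → a ∈ S ∨ b ∈ S) {μ : I → ℤ}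
    (hμ : G.hK (G.cutId S) μ ≠ 0) : μ = 0 ∨ μ ∈ S := by
  by_contra hcon
  push Not at hcon
  have h1 : G.coinv (G.cutId S) ⊓ G.gr μ = ⊥ := by
    rw [eq_bot_iff]
    intro a ha
    exact coinv_cut h h0 hadd hcut (ht μ + 1).toNat μ (by omega) hcon.1 hcon.2 a ha
  exact hμ (by rw [hK, h1, finrank_bot])

end GC

end Pool.Agent.Lib.MP_ff61db_al.Pt
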