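import Pool.Agent.Lib.MP_ff61db_al.Pt.ZW
import Pool.Agent.Lib.MP_ff61db_al.Pt.C0
import Pool.Agent.Lib.MP_ff61db_al.Pt.Deg

/-! Passage to the associated graded algebra. -/

namespace Pool.Agent.Lib.MP_ff61db_al.Pt

open TensorProduct Submodule

variable {k : Type} [Field k]

section
variable {A H S : Type} [Ring H] [Algebra k H] [Ring S] [Algebra k S] {z : A → H} {z' : A → S}
  {w : A → ℕ}

theorem exists_symbol
    (hrel : ∀ n (c : List A →₀ k), (∀ l ∈ c.support, wl w l = n) →
      lc k z c ∈ wsp k z {l | wl w l < n} → lc k z' c = 0) (n : ℕ) :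
    ∃ π : H →ₗ[k] S, ∀ l, wl w l ≤ n → π (wd z l) = if wl w l = n then wd z' l else 0 := by
  classical
  obtain ⟨π, hπ⟩ := exists_lin' (k := k) (fun l : {l : List A // wl w l ≤ n} => wd z l.1)
    (fun l => if wl w l.1 = n then wd z' l.1 else 0) fun c hc => by
      let c' : List A →₀ k := (c.filter fun l => wl w l.1 = n).mapDomain Subtype.val
      have e : ∀ {R : Type} [Ring R] [Algebra k R] (x : A → R), lc k x c' =
          Finsupp.linearCombination k (fun l : {l : List A // wl w l ≤ n} => wd x l.1)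
            (c.filter fun l => wl w l.1 = n) := fun x => by
        simp only [c', lc, Finsupp.linearCombination_mapDomain]; rfl
      have h1 : lc k z' c' = 0 := by
        refine hrel n c' (fun l hl => ?_) ?_
        · obtain ⟨l', h1, rfl⟩ := Finset.mem_image.1 (Finsupp.mapDomain_support hl)
          rw [Finsupp.support_filter] at h1
          exact (Finset.mem_filter.1 h1).2
        · rw [← Finsupp.filter_add_filter_not c fun l => wl w l.1 = n, map_add,
            add_eq_zero_iff_eq_neg] at hc
          rw [e, hc, Finsupp.linearCombination_apply, Finsupp.sum]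
          refine neg_mem (sum_mem fun l hl => smul_mem _ _ (wd_mem_wsp ?_))
          rw [Finsupp.support_filter] at hl
          exact lt_of_le_of_ne l.2 (Finset.mem_filter.1 hl).2
      refine Eq.trans ?_ h1
      rw [e, Finsupp.linearCombination_apply, Finsupp.linearCombination_apply,
        Finsupp.sum_filter_index, Finsupp.sum, Finsupp.support_filter, Finset.sum_filter]
      exact Finset.sum_congr rfl fun l _ => by split_ifs <;> simp
  exact ⟨π, fun l hl => hπ ⟨l, hl⟩⟩

theorem exists_symbol₂
    (hrel : ∀ n (c : List A →₀ k), (∀ l ∈ c.support, wl w l = n) →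
      lc k z c ∈ wsp k z {l | wl w l < n} → lc k z' c = 0) (n : ℕ) :
    ∃ P : H ⊗[k] H →ₗ[k] S ⊗[k] S, ∀ a b, wl w a + wl w b ≤ n → P (wd z a ⊗ₜ wd z b) =
      if wl w a + wl w b = n then wd z' a ⊗ₜ wd z' b else 0 := by
  choose π hπ using exists_symbol hrel
  refine ⟨∑ i ∈ Finset.range (n + 1), TensorProduct.map (π i) (π (n - i)), fun a b h => ?_⟩
  rw [LinearMap.sum_apply, Finset.sum_eq_single (wl w a)]
  · rw [map_tmul, hπ _ _ le_rfl, hπ _ _ (by omega), if_pos rfl]
    split_ifs with h1 h2 h2
    · rfl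
    · omega
    · omega
    · simp
  · intro i hi hne
    have := Finset.mem_range.1 hi
    rw [map_tmul]
    by_cases e : wl w a < i
    · rw [hπ _ _ e.le, if_neg e.ne, zero_tmul]
    · rw [hπ (n - i) b (by omega), if_neg (by omega), tmul_zero]
  · intro hi
    exact (hi (Finset.mem_range.2 (by omega))).elim

theorem indep_of_gr
    (hrel : ∀ n (c : List A →₀ k), (∀ l ∈ c.support, wl w l = n) →
      lc k z c ∈ wsp k z {l | wl w l < n} → lc k z' c = 0) {κ : Type} (a : κ → List A)
    (h : LinearIndependent k fun i => wd z' (a i)) : LinearIndependent k fun i => wd z (a i) := by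
  classical
  rw [linearIndependent_iff'] at h ⊢
  intro s g hg
  by_contra hne
  push Not at hne
  obtain ⟨i, hi, hmax⟩ := Finset.exists_max_image (s.filter fun i => g i ≠ 0) (fun i => wl w (a i))
    (by obtain ⟨i, h1, h2⟩ := hne; exact ⟨i, Finset.mem_filter.2 ⟨h1, h2⟩⟩)
  obtain ⟨π, hπ⟩ := exists_symbol hrel (wl w (a i))
  have h1 := congrArg π hg
  rw [map_sum, map_zero] at h1
  have h2 := h s (fun j => if wl w (a j) = wl w (a i) then g j else 0) (by
    rw [← h1]
    refine Finset.sum_congr rfl fun j hj => ?_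
    by_cases e : g j = 0
    · simp [e]
    · rw [map_smul, hπ _ (hmax j (Finset.mem_filter.2 ⟨hj, e⟩))]
      split_ifs <;> simp) i (Finset.mem_filter.1 hi).1
  rw [if_pos rfl] at h2
  exact (Finset.mem_filter.1 hi).2 h2

theorem fgk_of_gr
    (hrel : ∀ n (c : List A →₀ k), (∀ l ∈ c.support, wl w l = n) →
      lc k z c ∈ wsp k z {l | wl w l < n} → lc k z' c = 0) (h : FGK k H) {B : Type} [Finite B]
    (f : B → A) : Growth (span k (insert 1 (Set.range fun b => z' (f b)))) := by
  classical
  obtain ⟨V, hV, hgen⟩ := h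
  obtain ⟨c, hc⟩ := zexists_pow_fin hV hgen fun b => z (f b)
  obtain ⟨C, d, hC⟩ := hV.poly
  refine ⟨fg_span ((Set.finite_range _).insert _), subset_span (Set.mem_insert _ _),
    C * (c + 1) ^ d, d, fun n => ?_⟩
  let ι := {l : List B // l.length ≤ n}
  have hle : (span k (insert 1 (Set.range fun b => z' (f b)))) ^ n ≤
      wsp k (fun b => z' (f b)) {l | l.length ≤ n} := by
    clear ι
    induction n with
    | zero => rw [pow_zero, Submodule.one_le]; exact wd_mem_wsp (l := []) (by simp)
    | succ n ih =>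
      rw [pow_succ, mul_le]
      intro u hu v hv
      refine wsp_mul (T := {l | l.length ≤ 1}) (fun a ha b hb => ?_) (ih hu) (span_le.2 ?_ hv)
      · simp only [Set.mem_ofPred_eq, List.length_append] at *; omega
      · rintro _ (rfl | ⟨b, rfl⟩)
        · exact wd_mem_wsp (l := []) (by simp)
        · have := wd_mem_wsp (k := k) (x := fun b => z' (f b)) (S := {l | l.length ≤ 1})
            (l := [b]) (by simp)
          rwa [zwd_one] at this
  have : Finite ι := List.finite_length_le B n
  obtain ⟨κ, a, ha, h1, h2⟩ := exists_linearIndependent' k fun l : ι => wd z' (l.1.map f)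
  have : Finite κ := Finite.of_injective a ha
  have := Fintype.ofFinite κ
  have e : wsp k (fun b => z' (f b)) {l | l.length ≤ n} =
      span k (Set.range fun i => wd z' ((a i).1.map f)) := by
    refine Eq.trans ?_ h1.symm
    unfold wsp
    congr 1
    ext s
    constructor
    · rintro ⟨l, hl, rfl⟩; exact ⟨⟨l, hl⟩, by simp [wd, Function.comp_def]⟩
    · rintro ⟨l, rfl⟩; exact ⟨l.1, l.2, by simp [wd, Function.comp_def]⟩
  have hm : ∀ l : List B, wd z (l.map f) ∈ V ^ (c * l.length) := by
    intro l
    induction l with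
    | nil => simpa [wd] using Submodule.one_le.1 (le_refl (1 : Submodule k H))
    | cons b l ih =>
      rw [List.map_cons, zwd_cons, List.length_cons, mul_add, mul_one, add_comm]
      exact mul_mem_pow (hc b) ih
  have h3 := hV.card_le (indep_of_gr hrel (fun i => (a i).1.map f) h2) Finset.univ (n := c * n)
    fun i _ => hV.mono (Nat.mul_le_mul_left c (a i).2) (hm _)
  have : Module.Finite k (span k (Set.range fun i => wd z' ((a i).1.map f))) :=
    Module.Finite.span_of_finite k (Set.finite_range _)
  rw [e] at hle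
  refine (Submodule.finrank_mono hle).trans ((finrank_range_le_card _).trans (h3.trans
    ((hC _).trans ?_)))
  rw [mul_assoc, ← mul_pow]
  exact Nat.mul_le_mul_left C (Nat.pow_le_pow_left (by nlinarith) d)

end

variable {G : Type} [Group G] {X H : Type} [Ring H] [Algebra k H]

theorem FD.exists_GD' [Group.FG G] [Finite X] (D : FD k G X H) (h : FGK k H) :
    ∃ (S : Type) (_ : Ring S) (_ : Algebra k S) (E : GD k G X S), E.g = D.g ∧ FGK k S ∧
      (IsNoetherianRing S → IsNoetherianRing H) ∧
      (IsNoetherianRing Sᵐᵒᵖ → IsNoetherianRing Hᵐᵒᵖ) ∧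
      ∀ g i, D.φ g * D.x i * D.φ g⁻¹ - D.x i ∈ wsp k (Sum.elim (fun g => D.φ g) D.x)
        {l | wl (Sum.elim (fun _ => 0) D.n) l < D.n i} → E.φ g * E.y i * E.φ g⁻¹ = E.y i := by
  classical
  set z : G ⊕ X → H := Sum.elim (fun g => D.φ g) D.x with hz
  set w : G ⊕ X → ℕ := Sum.elim (fun _ => 0) D.n with hw
  obtain ⟨S, _, _, z', pr, hsp, hpr, hiff, hl, hr⟩ := grLift z D.span w
    (InvImage.wf (wl w) Nat.lt_wfRel.wf)
  have hrel : ∀ n (c : List (G ⊕ X) →₀ k), (∀ l ∈ c.support, wl w l = n) →
      lc k z c ∈ wsp k z {l | wl w l < n} → lc k z' c = 0 := fun n c h1 h2 => (hiff n c h1).2 h2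
  choose π hπ using exists_symbol hrel
  choose P hP using exists_symbol₂ hrel
  have π0 : ∀ l, wl w l = 0 → π 0 (wd z l) = wd z' l := fun l hl => by
    rw [hπ 0 l hl.le, if_pos hl]
  let φ : G →* S :=
    { toFun := fun g => z' (.inl g)
      map_one' := by
        have h1 := π0 [.inl 1] (by simp [wl, hw])
        have h2 := π0 [] rfl
        rw [zwd_one, zwd_one] at h1
        rw [← h1, ← zwd_nil z', ← h2, zwd_nil]
        simp [hz]
      map_mul' := fun a b => by
        have h1 := π0 [.inl (a * b)] (by simp [wl, hw])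
        have h2 := π0 [.inl a, .inl b] (by simp [wl, hw])
        rw [zwd_one, zwd_one] at h1
        rw [zwd_cons, zwd_one, zwd_cons, zwd_one] at h2
        rw [← h1, ← h2]
        simp [hz] }
  have ez : (Sum.elim (fun g => φ g) fun i => z' (.inr i)) = z' := by
    funext a; rcases a with a | a <;> rfl
  let t' : G ⊕ X → S ⊗[k] S := Sum.elim (fun g => φ g ⊗ₜ φ g)
    fun i => z' (.inr i) ⊗ₜ 1 + φ (D.g i) ⊗ₜ z' (.inr i)
  let FF : ℕ → Submodule k (H ⊗[k] H) := fun n => tsp k z fun a b => wl w a + wl w b ≤ n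
  have Plow : ∀ n, ∀ t ∈ tsp k z fun a b => wl w a + wl w b < n, P n t = 0 := fun n =>
    (span_le.2 (by
      rintro _ ⟨a, b, h1, rfl⟩
      rw [SetLike.mem_coe, LinearMap.mem_ker, hP n a b h1.le, if_neg h1.ne]) :
      _ ≤ LinearMap.ker (P n))
  have Pmul : ∀ m n, ∀ s ∈ FF m, ∀ t ∈ FF n, P (m + n) (s * t) = P m s * P n t := by
    intro m n s hs t ht
    induction hs using span_induction with
    | zero => simp
    | add u v _ _ hu hv => rw [add_mul, map_add, map_add, add_mul, hu, hv]
    | smul c u _ hu => rw [smul_mul_assoc, map_smul, map_smul, smul_mul_assoc, hu]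
    | mem u hu =>
      obtain ⟨a, b, h1, rfl⟩ := hu
      induction ht using span_induction with
      | zero => simp
      | add u v _ _ hu hv => rw [mul_add, map_add, map_add, mul_add, hu, hv]
      | smul c u _ hu => rw [mul_smul_comm, map_smul, map_smul, mul_smul_comm, hu]
      | mem u hu =>
        obtain ⟨a', b', h2, rfl⟩ := hu
        rw [Algebra.TensorProduct.tmul_mul_tmul, ← zwd_append, ← zwd_append,
          hP _ _ _ (by rw [zwl_append, zwl_append]; omega), hP _ _ _ h1, hP _ _ _ h2,
          zwl_append, zwl_append]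
        by_cases e2 : wl w a + wl w b = m
        · by_cases e3 : wl w a' + wl w b' = n
          · rw [if_pos (by omega), if_pos e2, if_pos e3, Algebra.TensorProduct.tmul_mul_tmul,
              zwd_append, zwd_append]
          · rw [if_neg (by omega), if_neg e3, mul_zero]
        · rw [if_neg (by omega), if_neg e2, zero_mul]
  have let1 : ∀ a, D.Δ (z a) ∈ FF (w a) ∧ P (w a) (D.Δ (z a)) = t' a := by
    rintro (g | i)
    · have e : D.Δ (z (.inl g)) = wd z [.inl g] ⊗ₜ wd z [.inl g] := by
        rw [zwd_one]; exact D.Δφ g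
      rw [e]
      refine ⟨mem_tsp (by simp [wl, hw]), ?_⟩
      rw [hP _ _ _ (by simp [wl, hw]), if_pos (by simp [wl, hw]), zwd_one]
      rfl
    · have e : D.Δ (z (.inr i)) = (D.Δ (D.x i) - (D.x i ⊗ₜ 1 + D.φ (D.g i) ⊗ₜ D.x i)) +
          (wd z [.inr i] ⊗ₜ wd z [] + wd z [.inl (D.g i)] ⊗ₜ wd z [.inr i]) := by
        rw [zwd_one, zwd_one, zwd_nil]
        exact (sub_add_cancel _ _).symm
      rw [e]
      refine ⟨add_mem (tsp_mono (fun a b h => le_of_lt h) (D.Δx i))
        (add_mem (mem_tsp (by simp [wl, hw])) (mem_tsp (by simp [wl, hw]))), ?_⟩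
      rw [map_add, Plow (w (.inr i)) _ (D.Δx i), zero_add, map_add, hP _ _ _ (by simp [wl, hw]),
        if_pos (by simp [wl, hw]), hP _ _ _ (by simp [wl, hw]), if_pos (by simp [wl, hw]),
        zwd_one, zwd_one, zwd_nil]
      rfl
  have word : ∀ l, D.Δ (wd z l) ∈ FF (wl w l) ∧ P (wl w l) (D.Δ (wd z l)) = wd t' l := by
    intro l
    induction l with
    | nil =>
      have e : D.Δ (wd z []) = wd z [] ⊗ₜ wd z [] := by
        rw [zwd_nil, map_one, Algebra.TensorProduct.one_def]
      rw [e]
      exact ⟨mem_tsp (by simp [wl]), by rw [hP _ _ _ (by simp [wl]), if_pos (by simp [wl])]; rfl⟩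
    | cons a l ih =>
      rw [zwd_cons, zwl_cons, map_mul, Pmul _ _ _ (let1 a).1 _ ih.1, (let1 a).2, ih.2, zwd_cons]
      refine ⟨tsp_mul (fun a b a' b' h1 h2 => ?_) (let1 a).1 ih.1, rfl⟩
      rw [zwl_append, zwl_append]; omega
  obtain ⟨Δ, hΔ⟩ := C0.exists_alg (k := k) z' t' (by
    have := hsp
    rw [wsp, Set.image_univ] at this
    exact this) fun c hc => by
      change lc k t' c = 0
      have hc' : lc k z' c = 0 := hc
      have fib : ∀ n, lc k t' (c.filter fun l => wl w l = n) = 0 := by
        intro n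
        have hs : ∀ l ∈ (c.filter fun l => wl w l = n).support, wl w l = n := fun l hl => by
          rw [Finsupp.support_filter] at hl; exact (Finset.mem_filter.1 hl).2
        have h1 : lc k z' (c.filter fun l => wl w l = n) = 0 := by
          refine Eq.trans ?_ ((congrArg (pr n) hc').trans (map_zero _))
          rw [lc, Finsupp.linearCombination_apply,
            Finsupp.linearCombination_apply, Finsupp.sum_filter_index, Finsupp.sum,
            Finsupp.support_filter, Finset.sum_filter, map_sum]
          exact Finset.sum_congr rfl fun l _ => by rw [map_smul, hpr]; split_ifs <;> simp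
        have h2 : P n (D.Δ (lc k z (c.filter fun l => wl w l = n))) = 0 :=
          Plow n _ ((span_le.2 (by
            rintro _ ⟨l, hl, rfl⟩
            exact tsp_mono (fun a b h => lt_of_le_of_lt h hl) (word l).1) :
            wsp k z {l | wl w l < n} ≤ (tsp k z fun a b => wl w a + wl w b < n).comap
              D.Δ.toLinearMap) ((hiff n _ hs).1 h1))
        refine Eq.trans ?_ h2
        rw [lc, lc, Finsupp.linearCombination_apply, Finsupp.linearCombination_apply,
          Finsupp.sum, Finsupp.sum, map_sum, map_sum]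
        exact Finset.sum_congr rfl fun l hl => by
          rw [map_smul, map_smul, ← (word l).2, hs l hl]
      have : c = ∑ n ∈ c.support.image (wl w), c.filter fun l => wl w l = n := by
        ext l
        rw [Finsupp.finsetSum_apply]
        simp only [Finsupp.filter_apply, Finset.sum_ite_eq, Finset.mem_image]
        split_ifs with e
        · rfl
        · by_contra e'
          exact e ⟨l, Finsupp.mem_support_iff.2 e', rfl⟩
      rw [this, map_sum]
      exact Finset.sum_eq_zero fun n _ => fib n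
  have hind : LinearIndependent k fun g => φ g := by
    rw [linearIndependent_iff]
    intro c hc
    have e : ∀ {R : Type} [Ring R] [Algebra k R] (x : G ⊕ X → R),
        lc k x (c.mapDomain fun g => [Sum.inl g]) =
          Finsupp.linearCombination k (fun g => x (.inl g)) c := fun x => by
      simp only [lc, Finsupp.linearCombination_mapDomain, Function.comp_def, zwd_one]
    have h1 := (hiff 0 (c.mapDomain fun g => [Sum.inl g]) fun l hl => by
      obtain ⟨g, -, rfl⟩ := Finset.mem_image.1 (Finsupp.mapDomain_support hl)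
      simp [wl, hw]).1 ((e z').trans hc)
    rw [e] at h1
    exact linearIndependent_iff.1 D.ind c (by simpa [wsp, hz] using h1)
  obtain ⟨T, hT, hTf⟩ := (Monoid.fg_iff (M := G)).1 (Group.fg_iff_monoid_fg.1 inferInstance)
  have := hTf.to_subtype
  refine ⟨S, _, _, ⟨φ, hind, fun i => z' (.inr i), D.n, D.pos, D.g, ez.symm ▸ hsp, pr,
    ez.symm ▸ hpr, Δ, fun g => hΔ (.inl g), fun i => hΔ (.inr i)⟩, rfl,
    ⟨_, fgk_of_gr hrel h (B := T ⊕ X) (Sum.map Subtype.val id), ?_⟩, hl, hr, fun g i hg => ?_⟩
  swap
  · have h1 := hπ (D.n i) [.inl g, .inr i, .inl g⁻¹] (by simp [wl, hw])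
    have h2 := hπ (D.n i) [.inr i] (by simp [wl, hw])
    have h3 := (span_le.2 (by
      rintro _ ⟨l, hl, rfl⟩
      rw [SetLike.mem_coe, LinearMap.mem_ker, hπ _ l (le_of_lt hl), if_neg (ne_of_lt hl)]) :
      wsp k z {l | wl w l < D.n i} ≤ LinearMap.ker (π (D.n i))) hg
    rw [if_pos (by simp [wl, hw])] at h1 h2
    simp only [zwd_cons, zwd_nil, mul_one, ← mul_assoc] at h1 h2
    rw [LinearMap.mem_ker, map_sub, sub_eq_zero] at h3
    exact h1.symm.trans (h3.trans h2)
  rw [eq_top_iff]
  intro s _
  have hs : s ∈ wsp k z' Set.univ := hsp ▸ mem_top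
  refine (Subalgebra.mem_toSubmodule _).1 ((span_le.2 ?_ : wsp k z' Set.univ ≤ _) hs)
  rintro _ ⟨l, -, rfl⟩
  refine Subalgebra.list_prod_mem _ fun s hs => ?_
  obtain ⟨a, -, rfl⟩ := List.mem_map.1 hs
  rcases a with g | i
  · have hg : g ∈ Submonoid.closure T := hT ▸ Submonoid.mem_top g
    change φ g ∈ _
    clear hs
    induction hg using Submonoid.closure_induction with
    | mem g hg => exact Algebra.subset_adjoin (subset_span (Or.inr ⟨.inl ⟨g, hg⟩, rfl⟩))
    | one => rw [map_one]; exact one_mem _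
    | mul a b _ _ ha hb => rw [map_mul]; exact mul_mem ha hb
  · exact Algebra.subset_adjoin (subset_span (Or.inr ⟨.inr i, rfl⟩))

theorem FD.exists_GD [Group.FG G] [Finite X] (D : FD k G X H) (h : FGK k H) :
    ∃ (S : Type) (_ : Ring S) (_ : Algebra k S) (E : GD k G X S), E.g = D.g ∧ FGK k S ∧
      (IsNoetherianRing S → IsNoetherianRing H) ∧
      (IsNoetherianRing Sᵐᵒᵖ → IsNoetherianRing Hᵐᵒᵖ) := by
  obtain ⟨S, _, _, E, h1, h2, h3, h4, -⟩ := D.exists_GD' h
  exact ⟨S, _, _, E, h1, h2, h3, h4⟩

end Pool.Agent.Lib.MP_ff61db_al.Pt
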