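import Mathlib

/-! Triangular form of representations whose commutator subgroup is a finite `p`-group. -/

namespace Pool.Agent.Lib.MP_ff61db_al.Pt

open TensorProduct Submodule
open scoped commutatorElement

section ZTri
variable {k : Type} [Field k]

theorem tri_fixed (p : ℕ) [ExpChar k p] {P : Type} [Group P] [Finite P]
    (hp : ∀ u : P, ∃ r : ℕ, u ^ p ^ r = 1) {W : Type} [AddCommGroup W] [Module k W]
    [Nontrivial W] (ρ : P →* (W →ₗ[k] W)) : ∃ w : W, w ≠ 0 ∧ ∀ u, ρ u w = w := by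
  obtain ⟨v, hv⟩ := exists_ne (0 : W)
  rcases ‹ExpChar k p› with _ | hq
  · refine ⟨v, hv, fun u => ?_⟩
    obtain ⟨r, hr⟩ := hp u
    rw [one_pow, pow_one] at hr
    simp [hr]
  · have := Fact.mk hq
    have kill : ∀ x : W, p • x = 0 := fun x => by
      rw [← Nat.cast_smul_eq_nsmul k, CharP.cast_eq_zero, zero_smul]
    let X := AddSubgroup.closure (Set.range fun u => ρ u v)
    have st : ∀ u, ∀ x ∈ X, ρ u x ∈ X := fun u x hx => by
      induction hx using AddSubgroup.closure_induction with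
      | mem x hx =>
        obtain ⟨t, rfl⟩ := hx
        exact AddSubgroup.subset_closure ⟨u * t, by simp⟩
      | zero => simp
      | add a b _ _ ha hb => rw [map_add]; exact add_mem ha hb
      | neg a _ ha => rw [map_neg]; exact neg_mem ha
    have : Finite X := AddCommGroup.finite_of_fg_isAddTorsion _ fun x =>
      isOfFinAddOrder_iff_nsmul_eq_zero.2 ⟨p, hq.pos, Subtype.ext (kill x)⟩
    let : MulAction P X :=
      { smul := fun u x => ⟨ρ u x, st u x x.2⟩
        one_smul := fun x => Subtype.ext (show ρ 1 x = x by simp)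
        mul_smul := fun a b x => Subtype.ext (show ρ (a * b) x = ρ a (ρ b x) by simp) }
    have vX : v ∈ X := AddSubgroup.subset_closure ⟨1, by simp⟩
    have dv : p ∣ Nat.card X := by
      rw [← addOrderOf_eq_prime (x := (⟨v, vX⟩ : X)) (Subtype.ext (kill v))
        fun e => hv (congrArg Subtype.val e)]
      exact addOrderOf_dvd_natCard _
    obtain ⟨b, hb, ne⟩ := IsPGroup.exists_fixed_point_of_prime_dvd_card_of_fixed_point
      (show IsPGroup p P from hp) X dv (a := 0)
      fun u => Subtype.ext (show ρ u 0 = 0 from map_zero _)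
    exact ⟨b, fun e => ne (Subtype.ext e.symm), fun u => congrArg Subtype.val (hb u)⟩

variable [IsAlgClosed k]

theorem tri_eigen (p : ℕ) [ExpChar k p] {Γ : Type} [Group Γ] [Finite (commutator Γ)]
    (hp : ∀ u ∈ commutator Γ, ∃ r : ℕ, u ^ p ^ r = 1) {W : Type} [AddCommGroup W] [Module k W]
    [FiniteDimensional k W] [Nontrivial W] (ρ : Γ →* (W →ₗ[k] W)) :
    ∃ (w : W) (χ : Γ →* kˣ), w ≠ 0 ∧ ∀ γ, ρ γ w = (χ γ : k) • w := by
  let F : Submodule k W := ⨅ c : commutator Γ, LinearMap.eqLocus (ρ c) LinearMap.id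
  have hF : ∀ x, x ∈ F ↔ ∀ c ∈ commutator Γ, ρ c x = x := fun x => by
    simp [F, Submodule.mem_iInf, LinearMap.mem_eqLocus]
  obtain ⟨v, v0, hv⟩ := tri_fixed p (P := commutator Γ)
    (fun u => (hp u u.2).imp fun r h => Subtype.ext h) (ρ.comp (commutator Γ).subtype)
  obtain ⟨U, ⟨U0, UF, Us⟩, hm⟩ := exists_minimal_of_wellFoundedLT
    (fun U : Submodule k W => U ≠ ⊥ ∧ U ≤ F ∧ ∀ γ, ∀ x ∈ U, ρ γ x ∈ U)
    ⟨F, (Submodule.ne_bot_iff _).2 ⟨v, (hF v).2 fun c hc => hv ⟨c, hc⟩, v0⟩, le_rfl,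
      fun γ x hx => (hF _).2 fun c hc => by
        have a := (hF x).1 hx _ ((Subgroup.commutator_normal ⊤ ⊤).conj_mem' c hc γ)
        have b : c * γ = γ * (γ⁻¹ * c * γ) := by group
        rw [← Module.End.mul_apply, ← map_mul, b, map_mul, Module.End.mul_apply, a]⟩
  have key : ∀ γ, ∃ μ : k, ∀ x ∈ U, ρ γ x = μ • x := fun γ => by
    have : Nontrivial U := Submodule.nontrivial_iff_ne_bot.2 U0
    obtain ⟨μ, hμ⟩ := Module.End.exists_eigenvalue ((ρ γ).restrict (Us γ))
    obtain ⟨y, hy⟩ := hμ.exists_hasEigenvector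
    have y1 : ρ γ y = μ • (y : W) := congrArg Subtype.val hy.apply_eq_smul
    have le := hm (y := U ⊓ Module.End.eigenspace (ρ γ) μ)
      ⟨(Submodule.ne_bot_iff _).2 ⟨y, ⟨y.2, Module.End.mem_eigenspace_iff.2 y1⟩,
        fun e => hy.2 (Subtype.ext e)⟩, inf_le_left.trans UF, fun δ x hx => ⟨Us δ x hx.1, by
          have a := (hF x).1 (UF hx.1) _ (Subgroup.commutator_mem_commutator
            (Subgroup.mem_top γ⁻¹) (Subgroup.mem_top δ⁻¹))
          have b : γ * δ = δ * (γ * ⁅γ⁻¹, δ⁻¹⁆) := by rw [commutatorElement_def]; group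
          have c := Module.End.mem_eigenspace_iff.1 hx.2
          refine Module.End.mem_eigenspace_iff.2 ?_
          rw [← Module.End.mul_apply, ← map_mul, b, map_mul, map_mul, Module.End.mul_apply,
            Module.End.mul_apply, a, c, map_smul]⟩⟩ inf_le_left
    exact ⟨μ, fun x hx => Module.End.mem_eigenspace_iff.1 (le hx).2⟩
  choose μ hμ using key
  obtain ⟨w, wU, w0⟩ := (Submodule.ne_bot_iff _).1 U0
  let χ : Γ →* k :=
    { toFun := μ
      map_one' := smul_left_injective k w0 (show μ 1 • w = (1 : k) • w by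
        rw [← hμ 1 w wU]; simp)
      map_mul' := fun a b => smul_left_injective k w0 (show μ (a * b) • w = (μ a * μ b) • w by
        rw [← hμ _ w wU, map_mul, Module.End.mul_apply, hμ b w wU, map_smul, hμ a w wU, smul_smul,
          mul_comm]) }
  exact ⟨w, χ.toHomUnits, w0, fun γ => hμ γ w wU⟩

theorem tri_flag (p : ℕ) [ExpChar k p] {Γ : Type} [Group Γ] [Finite (commutator Γ)]
    (hp : ∀ u ∈ commutator Γ, ∃ r : ℕ, u ^ p ^ r = 1) (d : ℕ) :
    ∀ (W : Type) [AddCommGroup W] [Module k W] [FiniteDimensional k W] (ρ : Γ →* (W →ₗ[k] W)),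
    Module.finrank k W = d →
    ∃ (n : ℕ) (b : Fin n → W) (χ : Fin n → (Γ →* kˣ)), span k (Set.range b) = ⊤ ∧
      ∀ γ i, ρ γ (b i) - (χ i γ : k) • b i ∈ span k (b '' {j | j < i}) := by
  induction d with
  | zero =>
    intro W _ _ _ ρ h
    have := Module.finrank_zero_iff.1 h
    exact ⟨0, Fin.elim0, Fin.elim0, Subsingleton.elim _ _, fun _ i => i.elim0⟩
  | succ d ih =>
    intro W _ _ _ ρ h
    have : Nontrivial W := Module.nontrivial_of_finrank_eq_succ h
    obtain ⟨w, χ0, w0, hw⟩ := tri_eigen p hp ρ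
    have st : ∀ g, span k {w} ≤ (span k {w}).comap (ρ g) := fun g => span_le.2 (by
      rintro _ rfl
      exact mem_span_singleton.2 ⟨_, (hw g).symm⟩)
    obtain ⟨n, b, χ, h1, h2⟩ := ih (W ⧸ span k {w}) (Representation.quotient ρ _ st) (by
      have a := (span k {w}).finrank_quotient_add_finrank
      rw [finrank_span_singleton w0] at a
      omega)
    choose c hc using fun i => (span k {w}).mkQ_surjective (b i)
    have e : b = (span k {w}).mkQ ∘ c := funext fun i => (hc i).symm
    subst e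
    refine ⟨n + 1, Fin.cons w c, Fin.cons χ0 χ, ?_, fun γ i => ?_⟩
    · rw [Set.range_comp, span_image, map_mkQ_eq_top] at h1
      rw [Fin.range_cons, span_insert, h1]
    · refine Fin.cases ?_ (fun i => ?_) i
      · simp [hw]
      · have a := h2 γ i
        rw [Set.image_comp, span_image] at a
        have b : ρ γ (c i) - (χ i γ : k) • c i ∈ span k {w} ⊔ span k (c '' {j | j < i}) := by
          rw [← comap_map_mkQ]
          exact a
        refine SetLike.le_def.1 (sup_le (span_mono ?_) (span_mono ?_)) b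
        · rintro _ rfl
          exact ⟨0, Fin.succ_pos i, rfl⟩
        · rintro _ ⟨j, hj, rfl⟩
          exact ⟨j.succ, Fin.succ_lt_succ_iff.2 hj, rfl⟩

theorem exists_flag (p : ℕ) [ExpChar k p] {Γ : Type} [Group Γ] [Finite (commutator Γ)]
    (hp : ∀ u ∈ commutator Γ, ∃ r : ℕ, u ^ p ^ r = 1) {W : Type} [AddCommGroup W] [Module k W]
    [FiniteDimensional k W] (ρ : Γ →* (W →ₗ[k] W)) :
    ∃ (n : ℕ) (b : Fin n → W) (χ : Fin n → (Γ →* kˣ)), span k (Set.range b) = ⊤ ∧
      ∀ γ i, ρ γ (b i) - (χ i γ : k) • b i ∈ span k (b '' {j | j < i}) :=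
  tri_flag p hp _ W ρ rfl

theorem aug_nilpotent (p : ℕ) [ExpChar k p] {P : Type} [Group P] [Finite P]
    (hp : ∀ u : P, ∃ r : ℕ, u ^ p ^ r = 1) {S : Type} [Ring S] [Algebra k S] (φ : P →* S) :
    ∃ M : ℕ, (span k (Set.range fun u => φ u - 1)) ^ M = ⊥ := by
  let W := span k (Set.range φ)
  have : FiniteDimensional k W := FiniteDimensional.span_of_finite k (Set.finite_range φ)
  let ρ : P →* (S →ₗ[k] S) := (Algebra.lmul k S : S →* _).comp φ
  have st : ∀ u, W ≤ W.comap (ρ u) := fun u => span_le.2 (by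
    rintro _ ⟨t, rfl⟩
    exact subset_span ⟨u * t, map_mul _ _ _⟩)
  obtain ⟨n, b, χ, h1, h2⟩ := exists_flag p (Γ := P) (fun u _ => hp u)
    (Representation.subrepresentation ρ W st)
  have one : ∀ i u, (χ i u : k) = 1 := fun i u => by
    obtain ⟨r, hr⟩ := hp u
    have a : ((χ i u : k) - 1) ^ p ^ r = 0 := by
      rw [sub_pow_expChar_pow, ← Units.val_pow_eq_pow_val, ← map_pow, hr]
      simp
    exact sub_eq_zero.1 (pow_eq_zero_iff (pow_pos (expChar_pos k p) r).ne' |>.1 a)
  let F : ℕ → Submodule k S := fun i => (span k (b '' {j | j.1 < i})).map W.subtype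
  have step : ∀ i, span k (Set.range fun u => φ u - 1) * F (i + 1) ≤ F i := fun i => by
    simp only [F, ← span_image]
    rw [span_mul_span, span_le]
    rintro _ ⟨_, ⟨u, rfl⟩, _, ⟨_, ⟨j, hj, rfl⟩, rfl⟩, rfl⟩
    rw [span_image]
    have a := h2 u j
    rw [one, one_smul] at a
    refine ⟨_, span_mono (Set.image_mono fun l hl => ?_) a, ?_⟩
    · exact lt_of_lt_of_le (Fin.lt_def.1 hl) (Nat.lt_succ_iff.1 hj)
    · simp [ρ, sub_mul]
  have all : ∀ i, span k (Set.range fun u => φ u - 1) ^ i * F i = ⊥ := fun i => by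
    induction i with
    | zero => simp [F]
    | succ i ih =>
      rw [pow_succ, mul_assoc, eq_bot_iff, ← ih]
      exact mul_le_mul_right (step i) _
  refine ⟨n, eq_bot_iff.2 fun x hx => ?_⟩
  have o : (1 : S) ∈ F n := by
    refine ⟨⟨1, subset_span ⟨1, map_one φ⟩⟩, ?_, rfl⟩
    have : b '' {j | j.1 < n} = Set.range b := by simp
    rw [this, h1]
    trivial
  rw [← all n, ← mul_one x]
  exact mul_mem_mul hx o

theorem finite_commutator {G : Type} [Group G] {D : Set G} (hD : D.Finite)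
    (hc : ∀ γ, ∀ d ∈ D, γ * d * γ⁻¹ ∈ D) : Finite (commutator (Subgroup.closure D)) := by
  have := hD.to_subtype
  let : MulAction (Subgroup.closure D) D :=
    { smul := fun u x => ⟨u * x * (u : G)⁻¹, hc u x x.2⟩
      one_smul := fun x => Subtype.ext (show ((1 : Subgroup.closure D) : G) * x *
        ((1 : Subgroup.closure D) : G)⁻¹ = x by simp)
      mul_smul := fun a b x => Subtype.ext (show ((a * b : Subgroup.closure D) : G) * x *
        ((a * b : Subgroup.closure D) : G)⁻¹ = a * (b * x * (b : G)⁻¹) * (a : G)⁻¹ by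
          simp [mul_assoc]) }
  have le : (MulAction.toPermHom (Subgroup.closure D) D).ker ≤ Subgroup.center _ := fun z hz => by
    refine Subgroup.mem_center_iff.2 fun g => Subtype.ext ?_
    obtain ⟨g, hg⟩ := g
    change g * z = z * g
    induction hg using Subgroup.closure_induction with
    | mem x hx =>
      have a : (z : G) * x * (z : G)⁻¹ = x :=
        congrArg Subtype.val (DFunLike.congr_fun (MonoidHom.mem_ker.1 hz) (⟨x, hx⟩ : D))
      exact (mul_inv_eq_iff_eq_mul.1 a).symm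
    | one => simp
    | mul a b _ _ ha hb => exact Commute.mul_left ha hb
    | inv a _ ha => exact Commute.inv_left ha
  have := Subgroup.finiteIndex_of_le le
  have : Finite (commutatorSet (Subgroup.closure D)) := by
    refine ((Set.finite_range fun q : (_ ⧸ Subgroup.center (Subgroup.closure D)) ×
      (_ ⧸ Subgroup.center (Subgroup.closure D)) => ⁅q.1.out, q.2.out⁆).subset ?_).to_subtype
    rintro _ ⟨a, b, rfl⟩
    refine ⟨(a, b), ?_⟩
    obtain ⟨y, hy⟩ := QuotientGroup.mk_out_eq_mul (Subgroup.center _) a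
    obtain ⟨z, hz⟩ := QuotientGroup.mk_out_eq_mul (Subgroup.center _) b
    have y1 := Subgroup.mem_center_iff.1 y.2
    have z1 := Subgroup.mem_center_iff.1 z.2
    simp only [hy, hz, commutatorElement_def, mul_inv_rev]
    calc a * y * (b * z) * ((y : Subgroup.closure D)⁻¹ * a⁻¹) * ((z : Subgroup.closure D)⁻¹ * b⁻¹)
        = a * (y * (b * z)) * (y : Subgroup.closure D)⁻¹ * a⁻¹ * (z : Subgroup.closure D)⁻¹ * b⁻¹ := by
          group
      _ = a * b * (z * a⁻¹) * (z : Subgroup.closure D)⁻¹ * b⁻¹ := by rw [← y1]; group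
      _ = _ := by rw [← z1]; group
  infer_instance

end ZTri

end Pool.Agent.Lib.MP_ff61db_al.Pt
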