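import Pool.Agent.Lib.MP_ff61db_al.Pt.ZQ
import Pool.Agent.Lib.MP_ff61db_al.Pt.ZTri

/-! Choice of the letters. -/

namespace Pool.Agent.Lib.MP_ff61db_al.Pt

open TensorProduct Submodule

variable {k : Type} [Field k] {G : Type} [Group G] {X S : Type} [Ring S] [Algebra k S]

theorem exists_flag_conj [IsAlgClosed k] (p : ℕ) [ExpChar k p] (φ : G →* S) (Γ : Subgroup G)
    [Finite (commutator Γ)] (hp : ∀ u ∈ commutator Γ, ∃ r : ℕ, u ^ p ^ r = 1) (W : Submodule k S)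
    (hW : W.FG) (hc : ∀ γ ∈ Γ, ∀ v ∈ W, φ γ * v * φ γ⁻¹ ∈ W) :
    ∃ (n : ℕ) (b : Fin n → S) (χ : Fin n → G → kˣ), span k (Set.range b) = W ∧
      ∀ γ ∈ Γ, ∀ i, φ γ * b i * φ γ⁻¹ - (χ i γ : k) • b i ∈ span k (b '' {j | j < i}) := by
  classical
  have := Module.Finite.iff_fg.2 hW
  let ρ : Γ →* (W →ₗ[k] W) :=
    { toFun := fun γ => ((LinearMap.mulRight k (φ γ.1⁻¹)) ∘ₗ LinearMap.mulLeft k (φ γ.1)).restrict
        fun v hv => hc γ.1 γ.2 v hv
      map_one' := by ext v; simp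
      map_mul' := fun a b => by
        ext v
        change φ (a.1 * b.1) * v.1 * φ (a.1 * b.1)⁻¹ = φ a.1 * (φ b.1 * v.1 * φ b.1⁻¹) * φ a.1⁻¹
        simp only [mul_inv_rev, map_mul, mul_assoc] }
  obtain ⟨n, b, χ, h1, h2⟩ := exists_flag p hp ρ
  refine ⟨n, fun i => b i, fun i γ => if h : γ ∈ Γ then χ i ⟨γ, h⟩ else 1, ?_, fun γ hγ i => ?_⟩
  · have := congrArg (Submodule.map W.subtype) h1
    rwa [map_span, ← Set.range_comp, Submodule.map_top, range_subtype] at this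
  · have := mem_map_of_mem (f := W.subtype) (h2 ⟨γ, hγ⟩ i)
    rw [map_span, Set.image_image] at this
    simp only [dif_pos hγ]
    exact this

theorem GD.exists_LD [IsAlgClosed k] (p : ℕ) [ExpChar k p] [Group.FG G] [Finite X]
    (D : GD k G X S) (h : FGK k S) (N : Subgroup G) [hN : N.Normal] (hg : ∀ i, D.g i ∈ N)
    (hp : PComm p N) :
    ∃ (I : Type) (_ : Fintype I) (_ : DecidableEq I), Nonempty (LD D I) := by
  classical
  set T : Set G := {d | ∃ γ i, D.c γ i ≠ 0 ∧ d = γ * D.g i * γ⁻¹} with hT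
  have Tfin : T.Finite := D.finite_deg h
  have inv : ∀ g, D.φ g⁻¹ * D.φ g = 1 := fun g => by rw [← map_mul, inv_mul_cancel, map_one]
  have inv' : ∀ g, D.φ g * D.φ g⁻¹ = 1 := fun g => by rw [← map_mul, mul_inv_cancel, map_one]
  have Tconj : ∀ δ, ∀ d ∈ T, δ * d * δ⁻¹ ∈ T := by
    rintro δ _ ⟨γ, i, h1, rfl⟩
    refine ⟨δ * γ, i, fun e => h1 ?_, by group⟩
    have := D.c_conj δ⁻¹ (δ * γ) i
    rwa [e, mul_zero, zero_mul, inv_mul_cancel_left, eq_comm] at this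
  set Γ := Subgroup.closure T with hΓ
  have Γn : Γ.Normal := ⟨fun a ha δ => by
    induction ha using Subgroup.closure_induction with
    | mem a ha => exact Subgroup.subset_closure (Tconj δ a ha)
    | one => simp
    | mul a b _ _ ha hb => simpa [mul_assoc] using mul_mem ha hb
    | inv a _ ha => simpa [mul_assoc] using inv_mem ha⟩
  have : Finite (commutator Γ) := finite_commutator Tfin Tconj
  set P : Subgroup G := ⁅Γ, Γ⁆ with hP
  have PΓ : P ≤ Γ := Subgroup.commutator_le_left Γ Γ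
  have Pmap : (commutator Γ).map Γ.subtype = P := Subgroup.map_subtype_commutator Γ
  have : Finite P := Pmap ▸ Finite.of_surjective _
    (Γ.subtype.subgroupMap_surjective (commutator Γ))
  have ΓN : Γ ≤ N := (Subgroup.closure_le _).2 (by
    rintro _ ⟨γ, i, -, rfl⟩; exact hN.conj_mem _ (hg i) γ)
  have Pp : ∀ u ∈ P, ∃ r : ℕ, u ^ p ^ r = 1 := fun u hu =>
    hp u (Subgroup.commutator_mono ΓN ΓN hu)
      (P.subtype.isOfFinOrder (isOfFinOrder_of_finite (⟨u, hu⟩ : P)))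
  have Pp' : ∀ u ∈ commutator Γ, ∃ r : ℕ, u ^ p ^ r = 1 := fun u hu => by
    obtain ⟨r, hr⟩ := Pp u (Pmap ▸ Subgroup.mem_map_of_mem _ hu)
    exact ⟨r, Subtype.ext hr⟩
  let J : Submodule k S := Submodule.span k (Set.range fun u : P => D.φ u - 1)
  have Jmem : ∀ u ∈ P, D.φ u - 1 ∈ J := fun u hu => subset_span ⟨⟨u, hu⟩, rfl⟩
  obtain ⟨M, hM⟩ : ∃ M : ℕ, J ^ M = ⊥ := aug_nilpotent p
    (fun u : P => (Pp u u.2).imp fun r hr => Subtype.ext hr) (D.φ.comp P.subtype)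
  let cj : G → S →ₗ[k] S := fun γ => LinearMap.mulRight k (D.φ γ⁻¹) ∘ₗ LinearMap.mulLeft k (D.φ γ)
  have Jconj : ∀ γ, ∀ v ∈ J, D.φ γ * v * D.φ γ⁻¹ ∈ J := fun γ =>
    (span_le.2 (by
      rintro _ ⟨u, rfl⟩
      have := Jmem _ ((inferInstance : P.Normal).conj_mem _ u.2 γ)
      rw [map_mul, map_mul] at this
      change D.φ γ * (D.φ u - 1) * D.φ γ⁻¹ ∈ J
      rwa [mul_sub, sub_mul, mul_one, inv']) : J ≤ J.comap (cj γ))
  have := Tfin.to_subtype
  let W : Option (X × T) → Submodule k S := fun β => β.elim J fun b =>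
    Submodule.span k {v | ∃ γ, γ * D.g b.1 * γ⁻¹ * b.2.1⁻¹ ∈ P ∧ v = D.c γ b.1}
  have Wfl : ∀ β, ∃ (n : ℕ) (b : Fin n → S) (χ : Fin n → G → kˣ), Submodule.span k (Set.range b) = W β ∧
      ∀ γ ∈ Γ, ∀ i, D.φ γ * b i * D.φ γ⁻¹ - (χ i γ : k) • b i ∈ Submodule.span k (b '' {j | j < i}) := by
    rintro (_ | ⟨i, d⟩)
    · exact exists_flag_conj p D.φ Γ Pp' J (fg_span (Set.finite_range _)) fun γ _ => Jconj γ
    · have := Module.Finite.iff_fg.2 (D.conj_fg h i)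
      refine exists_flag_conj p D.φ Γ Pp' _ (Module.Finite.iff_fg.1
        (Submodule.finiteDimensional_of_le (S₂ := Submodule.span k
          (Set.range fun γ : G => D.φ γ * D.y i * D.φ γ⁻¹)) (span_mono ?_))) fun δ hδ =>
        (span_le.2 ?_ : W (some (i, d)) ≤ (W (some (i, d))).comap (cj δ))
      · rintro _ ⟨γ, -, rfl⟩; exact ⟨γ, rfl⟩
      · rintro _ ⟨γ, h1, rfl⟩
        refine subset_span ⟨δ * γ, ?_, D.c_conj δ γ i⟩
        have h2 : γ * D.g i * γ⁻¹ ∈ Γ := by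
          simpa using mul_mem (PΓ h1) (Subgroup.subset_closure d.2)
        have h3 := mul_mem (Subgroup.commutator_mem_commutator hδ h2) h1
        rw [commutatorElement_def] at h3
        convert h3 using 1
        group
  choose n b χ hb hχ using Wfl
  obtain ⟨m, hm⟩ := (Set.finite_range n).bddAbove
  have hm' : ∀ β (j : Fin (n β)), (j : ℤ) < m := fun β j => by
    exact_mod_cast lt_of_lt_of_le j.2 (hm ⟨β, rfl⟩)
  let I : Type := (β : Option (X × T)) × Fin (n β)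
  have : Fintype I := Fintype.ofFinite I
  let x : I → S := fun a => b a.1 a.2
  let w₁ : I → ℤ := fun a => a.1.elim 0 fun c => D.n c.1
  let w₂ : I → ℤ := fun a => (a.2 : ℤ) - a.1.elim (2 * m) fun _ => 0
  have xW : ∀ a : I, x a ∈ W a.1 := fun a => hb a.1 ▸ subset_span ⟨a.2, rfl⟩
  have Ww : ∀ β, W β ≤ wsp k x {l | ∃ j, l = [⟨β, j⟩]} := fun β => by
    rw [← hb β, span_le]
    rintro _ ⟨j, rfl⟩
    exact subset_span ⟨[⟨β, j⟩], ⟨j, rfl⟩, zwd_one _ _⟩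
  have cw : ∀ γ i, D.c γ i ∈ wsp k x Set.univ := fun γ i => by
    by_cases e : D.c γ i = 0
    · rw [e]; exact zero_mem _
    · exact zwsp_mono (Set.subset_univ _) (Ww (some (i, ⟨_, γ, i, e, rfl⟩))
        (subset_span ⟨γ, by simp, rfl⟩))
  obtain ⟨Q, q1, q2, q3⟩ := D.exists_Q P
  have qx : ∀ β, ∀ v ∈ W β, ∀ t, Q (v * t) = v * Q t := by
    intro β v hv t
    rcases β with _ | β
    · refine (span_le.2 ?_ : J ≤ LinearMap.eqLocus (Q ∘ₗ LinearMap.mulRight k t)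
        (LinearMap.mulRight k (Q t))) hv
      rintro _ ⟨u, rfl⟩
      change Q ((D.φ u - 1) * t) = (D.φ u - 1) * Q t
      rw [sub_mul, sub_mul, map_sub, q2 u u.2, one_mul, one_mul]
    · refine (span_le.2 ?_ : W (some β) ≤ LinearMap.eqLocus (Q ∘ₗ LinearMap.mulRight k t)
        (LinearMap.mulRight k (Q t))) hv
      rintro _ ⟨γ, -, rfl⟩
      exact q1 γ β.1 t
  let TT : (I → ℤ) → Submodule k (S ⊗[k] S) := fun μ => Submodule.span k
    {t : S ⊗[k] S | ∃ a b, ∃ γ ∈ Γ, Low w₁ w₂ (deg a + deg b) μ ∧ t = (wd x a * D.φ γ) ⊗ₜ wd x b}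
  have hTT : ∀ (β : Option (X × T)) (j : Fin (n β)), ∀ γ ∈ Γ, ∀ u ∈ J, ∀ v ∈ W β,
      (u * D.φ γ) ⊗ₜ[k] v ∈ TT (e ⟨β, j⟩) := by
    intro β j γ hγ u hu v hv
    have h1 : u ⊗ₜ[k] v ∈ tsp k x fun a b => Low w₁ w₂ (deg a + deg b) (e ⟨β, j⟩) := by
      refine tmul_mem_tsp ?_ (Ww none hu) (Ww β hv)
      rintro _ ⟨j₁, rfl⟩ _ ⟨j₂, rfl⟩
      have := hm' none j₁
      have := hm' β j₂
      refine Or.inr ?_
      simp only [deg_cons, deg_nil, add_zero, wt_add, wt_e, w₁, w₂, Option.elim_none, zero_add,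
        true_and]
      omega
    have h2 := (span_le.2 (by
      rintro _ ⟨a, b, h2, rfl⟩
      exact subset_span ⟨a, b, γ, hγ, h2, by simp⟩) :
      tsp k x (fun a b => Low w₁ w₂ (deg a + deg b) (e ⟨β, j⟩)) ≤ (TT (e ⟨β, j⟩)).comap
        (LinearMap.mulRight k (D.φ γ ⊗ₜ[k] (1 : S)))) h1
    simpa using h2
  refine ⟨I, inferInstance, inferInstance, ⟨⟨Γ, x, fun a => a.1.elim 1 fun c => c.2.1,
    fun a => χ a.1 a.2, w₁, w₂, ?_, ?_, ?_, Q, ?_, ?_, ?_, ?_⟩⟩⟩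
  · rintro ⟨_ | c, j⟩
    · exact one_mem _
    · exact Subgroup.subset_closure c.2.2
  · rintro γ hγ ⟨β, j⟩
    refine (span_le.2 ?_ : _ ≤ wsp k x _) (hχ β γ hγ j)
    rintro _ ⟨j', hj, rfl⟩
    refine subset_span ⟨[⟨β, j'⟩], Or.inr ?_, zwd_one _ _⟩
    have : (j' : ℕ) < j := hj
    simp only [deg_cons, deg_nil, add_zero, wt_e, w₁, w₂, true_and]
    omega
  · rintro ⟨β, j⟩
    let L : G → S →ₗ[k] S ⊗[k] S := fun d => D.Δ.toLinearMap -
      ((TensorProduct.mk k S S).flip 1 + TensorProduct.mk k S S (D.φ d))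
    rcases β with _ | c
    · refine (span_le.2 ?_ : J ≤ (TT (e ⟨none, j⟩)).comap (L 1)) (xW ⟨none, j⟩)
      rintro _ ⟨u, rfl⟩
      have := hTT none j 1 (one_mem _) _ (Jmem u u.2) _ (Jmem u u.2)
      change D.Δ (D.φ u - 1) - ((D.φ u - 1) ⊗ₜ 1 + D.φ 1 ⊗ₜ (D.φ u - 1)) ∈ TT _
      convert this using 1
      simp only [map_sub, D.Δφ, map_one, mul_one, sub_tmul, tmul_sub,
        Algebra.TensorProduct.one_def]
      abel
    · refine (span_le.2 ?_ : W (some c) ≤ (TT (e ⟨some c, j⟩)).comap (L c.2.1)) (xW ⟨some c, j⟩)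
      rintro _ ⟨γ, h1, rfl⟩
      have := hTT (some c) j c.2.1 (Subgroup.subset_closure c.2.2) _ (Jmem _ h1) _
        (subset_span ⟨γ, h1, rfl⟩)
      change D.Δ (D.c γ c.1) - (D.c γ c.1 ⊗ₜ 1 + D.φ c.2.1 ⊗ₜ D.c γ c.1) ∈ TT _
      convert this using 1
      rw [D.c_cop, sub_mul, ← map_mul, inv_mul_cancel_right, one_mul, sub_tmul]
      abel
  · intro a γ _
    obtain ⟨u, hu, e⟩ := q3 γ
    have h1 : ∀ t, Q (wd x a * t) = wd x a * Q t := by
      induction a with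
      | nil => simp
      | cons i a ih => intro t; rw [zwd_cons, mul_assoc, qx _ _ (xW i), ih, mul_assoc]
    rw [h1, e, ← mul_sub_one]
    refine wsp_mul (S := {a}) ?_ (wd_mem_wsp rfl) (Ww none (Jmem u hu))
    rintro _ rfl _ ⟨j, rfl⟩
    have := hm' none j
    refine Or.inr ?_
    simp only [deg_append, deg_cons, deg_nil, add_zero, wt_add, wt_e, w₁, w₂, Option.elim, true_and]
    omega
  · refine finite_words x w₁ hM ?_
    rintro ⟨_ | c, j⟩
    · exact Or.inl ⟨rfl, xW ⟨none, j⟩⟩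
    · exact Or.inr (show (1 : ℤ) ≤ (D.n c.1 : ℤ) by exact_mod_cast D.pos c.1)
  · rintro g ⟨_ | c, j⟩
    · exact zwsp_mono (Set.subset_univ _) (Ww none (Jconj g _ (xW ⟨none, j⟩)))
    · refine (span_le.2 ?_ : W (some c) ≤ (wsp k x Set.univ).comap (cj g)) (xW ⟨some c, j⟩)
      rintro _ ⟨γ, -, rfl⟩
      change D.φ g * D.c γ c.1 * D.φ g⁻¹ ∈ wsp k x Set.univ
      rw [D.c_conj]
      exact cw (g * γ) c.1
  · intro i
    simpa [GD.c] using cw 1 i

end Pool.Agent.Lib.MP_ff61db_al.Pt
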