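import Pool.Agent.Lib.MP_ff61db_al.Pt.Defs
import Pool.Agent.Lib.MP_ff61db_al.Pt.DefsEq

/-! Words, degrees, the bicharacter and the convolution of series. -/

namespace Pool.Agent.Lib.MP_ff61db_al.Pt

open TensorProduct

set_option linter.unusedSectionVars false

namespace N0
variable {I : Type}

theorem e_apply [DecidableEq I] (i j : I) : e i j = if j = i then 1 else 0 := Pi.single_apply _ _ _

theorem e_nonneg [DecidableEq I] (i : I) : 0 ≤ e i := Pi.single_nonneg.2 zero_le_one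

variable [Fintype I]

theorem sum_e [DecidableEq I] (μ : I → ℤ) : ∑ i, μ i • e i = μ := by
  funext j
  simp [Finset.sum_apply, e_apply]

theorem ht_nonneg {μ : I → ℤ} (h : 0 ≤ μ) : 0 ≤ ht μ := Finset.sum_nonneg fun i _ => h i

theorem ht_lt {μ ν : I → ℤ} (h : ν ≤ μ) (hne : ν ≠ μ) : ht ν < ht μ := by
  obtain ⟨i, hi⟩ := Function.ne_iff.1 hne
  exact Finset.sum_lt_sum (fun i _ => h i) ⟨i, Finset.mem_univ i, (h i).lt_of_ne hi⟩

theorem ht_pos {μ : I → ℤ} (h : 0 ≤ μ) (hne : μ ≠ 0) : 0 < ht μ := by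
  simpa [ht] using ht_lt h hne.symm

theorem le_ht {μ : I → ℤ} (h : 0 ≤ μ) (i : I) : μ i ≤ ht μ :=
  Finset.single_le_sum (fun i _ => h i) (Finset.mem_univ i)

theorem push_nonneg {J : Type} {dg : I → J → ℤ} (h0 : ∀ i, 0 ≤ dg i) {μ : I → ℤ} (h : 0 ≤ μ) :
    0 ≤ push dg μ := Finset.sum_nonneg fun i _ => smul_nonneg (h i) (h0 i)

end N0

section B1a
variable {I : Type}

@[simp] theorem wd_nil {R : Type} [Monoid R] (x : I → R) : wd x [] = 1 := rfl
@[simp] theorem wd_cons {R : Type} [Monoid R] (x : I → R) (i : I) (l : List I) :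
    wd x (i :: l) = x i * wd x l := by simp [wd]
theorem wd_append {R : Type} [Monoid R] (x : I → R) (l l' : List I) :
    wd x (l ++ l') = wd x l * wd x l' := by simp [wd]

variable [DecidableEq I]
@[simp] theorem deg_nil : deg ([] : List I) = 0 := rfl
@[simp] theorem deg_cons (i : I) (l : List I) : deg (i :: l) = e i + deg l := by simp [deg]
theorem deg_append (l l' : List I) : deg (l ++ l') = deg l + deg l' := by simp [deg]
theorem deg_nonneg (l : List I) : 0 ≤ deg l := by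
  induction l with
  | nil => simp
  | cons i l ih => rw [deg_cons]; exact add_nonneg (N0.e_nonneg i) ih
theorem deg_apply (l : List I) (i : I) : deg l i = l.count i := by
  induction l with
  | nil => simp
  | cons j l ih =>
    rw [deg_cons, Pi.add_apply, ih, N0.e_apply, List.count_cons]
    by_cases h : i = j
    · subst h; simp [add_comm]
    · simp [h, Ne.symm h]
theorem deg_eq_zero {l : List I} : deg l = 0 ↔ l = [] := by
  refine ⟨fun h => List.eq_nil_iff_forall_not_mem.2 fun i => List.count_eq_zero.1 ?_,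
    fun h => h ▸ rfl⟩
  have := deg_apply l i
  rw [h, Pi.zero_apply] at this
  exact_mod_cast this.symm
theorem deg_eq_e {l : List I} {i : I} : deg l = e i ↔ l = [i] := by
  refine ⟨fun h => ?_, fun h => by simp [h]⟩
  rcases l with _ | ⟨j, l⟩
  · simpa [N0.e_apply] using congrFun h i
  · obtain rfl : j = i := by
      by_contra hne
      have h1 := congrFun h j
      have h2 : (0 : ℤ) ≤ deg l j := deg_nonneg l j
      simp [N0.e_apply, hne] at h1
      omega
    simpa [deg_eq_zero] using h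
theorem exists_deg [Fintype I] {μ : I → ℤ} (h : 0 ≤ μ) : ∃ l : List I, deg l = μ := by
  let S : AddSubmonoid (I → ℤ) := ⟨⟨Set.range deg, by
    rintro _ _ ⟨l, rfl⟩ ⟨l', rfl⟩
    exact ⟨l ++ l', deg_append l l'⟩⟩, ⟨[], rfl⟩⟩
  have : ∑ i, μ i • e i ∈ S := S.sum_mem fun i _ => by
    rw [← Int.toNat_of_nonneg (h i), natCast_zsmul]
    exact S.nsmul_mem ⟨[i], by simp⟩ _
  rwa [N0.sum_e] at this

variable [Fintype I]
theorem ht_add (μ ν : I → ℤ) : ht (μ + ν) = ht μ + ht ν := by simp [ht, Finset.sum_add_distrib]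
@[simp] theorem ht_e (i : I) : ht (e i) = 1 := by simp [ht, N0.e_apply]
theorem ht_deg (l : List I) : ht (deg l) = l.length := by
  induction l with
  | nil => simp [ht]
  | cons i l ih => rw [deg_cons, ht_add, ih, ht_e]; simp [add_comm]
theorem wt_add (w μ ν : I → ℤ) : wt w (μ + ν) = wt w μ + wt w ν := by
  simp [wt, mul_add, Finset.sum_add_distrib]
@[simp] theorem wt_e (w : I → ℤ) (i : I) : wt w (e i) = w i := by simp [wt, N0.e_apply]
theorem wt_deg (w : I → ℤ) (l : List I) : wt w (deg l) = wl w l := by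
  induction l with
  | nil => simp [wt, wl]
  | cons i l ih => rw [deg_cons, wt_add, ih, wt_e]; simp [wl]
@[simp] theorem push_e {J : Type} (dg : I → J → ℤ) (i : I) : push dg (e i) = dg i := by
  simp [push, N0.e_apply]
theorem ht_push {J : Type} [Fintype J] (dg : I → J → ℤ) (μ : I → ℤ) :
    ht (push dg μ) = wt (fun i => ht (dg i)) μ := by
  simp only [ht, wt, push, AddMonoidHom.coe_mk, ZeroHom.coe_mk, Finset.sum_apply, Pi.smul_apply,
    smul_eq_mul, Finset.sum_mul]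
  rw [Finset.sum_comm]
  simp only [mul_comm]
theorem finite_deg (μ : I → ℤ) : {l : List I | deg l = μ}.Finite :=
  (List.finite_length_eq I (ht μ).toNat).subset fun l hl => by
    have := ht_deg l
    rw [show deg l = μ from hl] at this
    simp [this]
theorem N0.ht_le_wt {w : I → ℤ} (hw : ∀ i, 0 < w i) {μ : I → ℤ} (h : 0 ≤ μ) : ht μ ≤ wt w μ :=
  Finset.sum_le_sum fun i _ => le_mul_of_one_le_left (h i) (hw i)
theorem finite_wt {w : I → ℤ} (hw : ∀ i, 0 < w i) (n : ℤ) :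
    {l : List I | wt w (deg l) ≤ n}.Finite :=
  (List.finite_length_le I n.toNat).subset fun l hl => by
    have := (N0.ht_le_wt hw (deg_nonneg l)).trans hl
    rw [ht_deg] at this
    change l.length ≤ n.toNat
    omega
theorem N0.ht_le_push {J : Type} [Fintype J] {dg : I → J → ℤ} (h0 : ∀ i, 0 ≤ dg i)
    (h1 : ∀ i, dg i ≠ 0) {μ : I → ℤ} (h : 0 ≤ μ) : ht μ ≤ ht (push dg μ) := by
  rw [ht_push]
  exact N0.ht_le_wt (fun i => N0.ht_pos (h0 i) (h1 i)) h
theorem finite_fibre {J : Type} [Fintype J] {dg : I → J → ℤ} (h0 : ∀ i, 0 ≤ dg i)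
    (h1 : ∀ i, dg i ≠ 0) (ν : J → ℤ) : {μ : I → ℤ | 0 ≤ μ ∧ push dg μ = ν}.Finite :=
  (Set.finite_Icc (0 : I → ℤ) fun _ => ht ν).subset fun _ h =>
    ⟨h.1, fun i => (N0.le_ht h.1 i).trans (h.2 ▸ N0.ht_le_push h0 h1 h.1)⟩

variable {M : Type} [CommGroup M] (q : I → I → M)
omit [DecidableEq I] in
theorem chi_add_left (μ μ' ν : I → ℤ) : chi q (μ + μ') ν = chi q μ ν * chi q μ' ν := by
  simp [chi, add_mul, zpow_add, Finset.prod_mul_distrib]
omit [DecidableEq I] in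
theorem chi_add_right (μ ν ν' : I → ℤ) : chi q μ (ν + ν') = chi q μ ν * chi q μ ν' := by
  simp [chi, mul_add, zpow_add, Finset.prod_mul_distrib]
omit [DecidableEq I] in
@[simp] theorem chi_zero_left (ν : I → ℤ) : chi q 0 ν = 1 := by simp [chi]
omit [DecidableEq I] in
@[simp] theorem chi_zero_right (μ : I → ℤ) : chi q μ 0 = 1 := by simp [chi]
omit [DecidableEq I] in
theorem chi_smul_left (n : ℤ) (μ ν : I → ℤ) : chi q (n • μ) ν = chi q μ ν ^ n := by
  simp only [chi, Pi.smul_apply, smul_eq_mul, ← Finset.prod_zpow, ← zpow_mul]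
  exact Finset.prod_congr rfl fun i _ => Finset.prod_congr rfl fun j _ => by congr 1; ring
omit [DecidableEq I] in
theorem chi_smul_right (n : ℤ) (μ ν : I → ℤ) : chi q μ (n • ν) = chi q μ ν ^ n := by
  simp only [chi, Pi.smul_apply, smul_eq_mul, ← Finset.prod_zpow, ← zpow_mul]
  exact Finset.prod_congr rfl fun i _ => Finset.prod_congr rfl fun j _ => by congr 1; ring
@[simp] theorem chi_e_e (i j : I) : chi q (e i) (e j) = q i j := by
  unfold chi
  rw [Finset.prod_eq_single i, Finset.prod_eq_single j]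
  · simp [N0.e_apply]
  · intro b _ hb; simp [N0.e_apply, hb]
  · simp
  · intro b _ hb; simp [N0.e_apply, hb]
  · simp
omit [DecidableEq I] in
theorem N0.chi_sum_left {A : Type} (s : Finset A) (f : A → I → ℤ) (ν : I → ℤ) :
    chi q (∑ a ∈ s, f a) ν = ∏ a ∈ s, chi q (f a) ν := by
  classical
  induction s using Finset.induction_on with
  | empty => simp
  | insert a s h ih => rw [Finset.sum_insert h, Finset.prod_insert h, chi_add_left, ih]
omit [DecidableEq I] in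
theorem N0.chi_sum_right {A : Type} (s : Finset A) (f : A → I → ℤ) (ν : I → ℤ) :
    chi q ν (∑ a ∈ s, f a) = ∏ a ∈ s, chi q ν (f a) := by
  classical
  induction s using Finset.induction_on with
  | empty => simp
  | insert a s h ih => rw [Finset.sum_insert h, Finset.prod_insert h, chi_add_right, ih]
omit [DecidableEq I] in
theorem chi_push {A : Type} [Fintype A] (dg : A → I → ℤ) (μ ν : A → ℤ) :
    chi (fun a b => chi q (dg a) (dg b)) μ ν = chi q (push dg μ) (push dg ν) := by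
  change (∏ a, ∏ b, _) = chi q (∑ a, _) (∑ a, _)
  simp only [N0.chi_sum_left]
  simp only [N0.chi_sum_right, chi_smul_left, chi_smul_right, ← zpow_mul]
omit [DecidableEq I] in
theorem chi_pow {N : ℕ} (h : ∀ i j, q i j ^ N = 1) (μ ν : I → ℤ) : chi q μ ν ^ N = 1 := by
  simp only [chi, ← Finset.prod_pow]
  refine Finset.prod_eq_one fun i _ => Finset.prod_eq_one fun j _ => ?_
  rw [← zpow_natCast, ← zpow_mul, mul_comm, zpow_mul, zpow_natCast, h, one_zpow]
theorem theta_add_e (μ : I → ℤ) (j : I) :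
    theta q (μ + e j) = theta q μ * (chi q μ (e j) * chi q (e j) μ) := by
  have : ∏ i, q i i ^ (μ + e j) i = (∏ i, q i i ^ μ i) * q j j := by
    simp only [Pi.add_apply, zpow_add, Finset.prod_mul_distrib]
    simp [N0.e_apply]
  rw [theta, theta, this, chi_add_left, chi_add_right, chi_add_right, chi_e_e, mul_inv,
    ← mul_assoc _ _ (q j j), mul_mul_mul_comm, mul_inv_cancel, mul_one]
  ac_rfl
theorem theta_e_add_e {i j : I} (h : i ≠ j) : theta q (e i + e j) = q i j * q j i := by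
  have _ := h
  have := theta_add_e q 0 i
  rw [zero_add] at this
  rw [theta_add_e, this]
  simp [theta]
omit [DecidableEq I] in
theorem theta_per {N : ℕ} (h : ∀ i j, q i j ^ N = 1) (μ ν : I → ℤ) :
    theta q (μ + (N : ℤ) • ν) = theta q μ := by
  simp [theta, chi_add_left, chi_add_right, chi_smul_left, chi_smul_right, chi_pow q h, zpow_add,
    zpow_mul, h, -nsmul_eq_mul, -natCast_zsmul, -zsmul_eq_mul]
theorem Rad.chi {q : I → I → M} {μ : I → ℤ} (h : Rad q μ) (ν : I → ℤ) :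
    chi q μ ν * chi q ν μ = 1 := by
  rw [← N0.sum_e ν, N0.chi_sum_left, N0.chi_sum_right, ← Finset.prod_mul_distrib]
  refine Finset.prod_eq_one fun j _ => ?_
  rw [chi_smul_left, chi_smul_right, ← mul_zpow, h j, one_zpow]
theorem Rad.add {q : I → I → M} {μ ν : I → ℤ} (h : Rad q μ) (h' : Rad q ν) : Rad q (μ + ν) :=
  fun j => by rw [chi_add_left, chi_add_right, mul_mul_mul_comm, h j, h' j, mul_one]
theorem Rad.sub {q : I → I → M} {μ ν : I → ℤ} (h : Rad q μ) (h' : Rad q ν) : Rad q (μ - ν) :=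
  fun j => by
    have := h j
    rwa [← sub_add_cancel μ ν, chi_add_left, chi_add_right, mul_mul_mul_comm, h' j, mul_one] at this
theorem N0.sref_apply (m : I → ℕ) (i : I) (μ : I → ℤ) : sref m i μ =
    μ + ((∑ j ∈ Finset.univ.erase i, (m j : ℤ) * μ j) - 2 * μ i) • e i := rfl
theorem sref_e_self (m : I → ℕ) (i : I) : sref m i (e i) = - e i := by
  rw [N0.sref_apply, Finset.sum_eq_zero fun j hj => by
    simp [N0.e_apply, Finset.ne_of_mem_erase hj], N0.e_apply, if_pos rfl]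
  module
theorem sref_e_ne (m : I → ℕ) {i j : I} (h : j ≠ i) :
    sref m i (e j) = e j + (m j : ℤ) • e i := by
  rw [N0.sref_apply]
  simp [N0.e_apply, h, h.symm]
theorem sref_sref (m : I → ℕ) (i : I) (μ : I → ℤ) : sref m i (sref m i μ) = μ := by
  conv_lhs => rw [N0.sref_apply m i μ, map_add, map_smul, sref_e_self, N0.sref_apply]
  module
theorem sref_congr {m m' : I → ℕ} {i : I} (h : ∀ j, j ≠ i → m j = m' j) :
    sref m i = sref m' i := LinearMap.ext fun μ => by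
  rw [N0.sref_apply, N0.sref_apply,
    Finset.sum_congr rfl fun j hj => by rw [h j (Finset.ne_of_mem_erase hj)]]
theorem sh_deg {l : List I} {p : M × List I × List I} (h : p ∈ sh q l) :
    deg p.2.1 + deg p.2.2 = deg l := by
  induction l generalizing p with
  | nil =>
    obtain rfl : p = (1, [], []) := by simpa [sh] using h
    simp
  | cons i l ih =>
    simp only [sh, List.mem_append, List.mem_map] at h
    obtain ⟨p, hp, rfl⟩ | ⟨p, hp, rfl⟩ := h
    · simp only [deg_cons, ← ih hp]; abel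
    · simp only [deg_cons, ← ih hp]; abel

variable {A : Type} [CommSemiring A]
theorem cv_cone (a b : (I → ℤ) → A) : Cone (cv a b) := fun μ h => by
  obtain ⟨ν, hν, -⟩ := Finset.exists_ne_zero_of_sum_ne_zero h
  exact (Finset.mem_Icc.1 hν).1.trans (Finset.mem_Icc.1 hν).2
theorem cv_comm (a b : (I → ℤ) → A) : cv a b = cv b a := funext fun μ =>
  Finset.sum_nbij' (μ - ·) (μ - ·) (fun ν h => by simpa [and_comm] using h)
    (fun ν h => by simpa [and_comm] using h) (fun ν _ => by simp) (fun ν _ => by simp)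
    fun ν _ => by simp [mul_comm]
theorem cv_assoc (a b c : (I → ℤ) → A) : cv (cv a b) c = cv a (cv b c) := by
  funext μ
  simp only [cv, Finset.sum_mul, Finset.mul_sum]
  rw [Finset.sum_comm' (t' := Finset.Icc 0 μ) (s' := fun τ => Finset.Icc τ μ) fun ν τ => by
    simp only [Finset.mem_Icc]
    exact ⟨fun h => ⟨⟨h.2.2, h.1.2⟩, h.2.1, h.2.2.trans h.1.2⟩,
      fun h => ⟨⟨h.2.1.trans h.1.1, h.1.2⟩, h.2.1, h.1.1⟩⟩]
  refine Finset.sum_congr rfl fun τ _ => Finset.sum_nbij' (· - τ) (· + τ)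
    (fun ν h => by simpa using h) (fun ν h => by simpa [le_sub_iff_add_le] using h)
    (fun ν _ => by simp) (fun ν _ => by simp) fun ν _ => by simp [mul_assoc]
theorem N0.cv_erase (a b : (I → ℤ) → A) {μ : I → ℤ} (h : 0 ≤ μ) :
    cv a b μ = a μ * b 0 + ∑ ν ∈ (Finset.Icc 0 μ).erase μ, a ν * b (μ - ν) := by
  rw [cv, ← Finset.add_sum_erase _ _ (Finset.right_mem_Icc.2 h), sub_self]
theorem cv_dlt {a : (I → ℤ) → A} (h : Cone a) : cv a (dlt A) = a := by
  funext μ
  by_cases h0 : 0 ≤ μ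
  · rw [N0.cv_erase _ _ h0, Finset.sum_eq_zero fun ν hν => by
      rw [dlt, if_neg (sub_ne_zero.2 (Finset.ne_of_mem_erase hν).symm), mul_zero]]
    simp [dlt]
  · rw [not_not.1 (mt (cv_cone _ _ μ) h0), not_not.1 (mt (h μ) h0)]
theorem cv_zero (a b : (I → ℤ) → A) : cv a b 0 = a 0 * b 0 := by simp [cv]
theorem cv_ne_zero {a b : (I → ℤ) → A} {μ : I → ℤ} (h : cv a b μ ≠ 0) :
    ∃ ν, 0 ≤ ν ∧ ν ≤ μ ∧ a ν ≠ 0 ∧ b (μ - ν) ≠ 0 := by
  obtain ⟨ν, hν, h⟩ := Finset.exists_ne_zero_of_sum_ne_zero h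
  exact ⟨ν, (Finset.mem_Icc.1 hν).1, (Finset.mem_Icc.1 hν).2, left_ne_zero_of_mul h,
    right_ne_zero_of_mul h⟩
theorem cv_cast (a b : (I → ℤ) → ℕ) (μ : I → ℤ) :
    ((cv a b μ : ℕ) : A) = cv (fun ν => (a ν : A)) (fun ν => (b ν : A)) μ := by simp [cv]
theorem N0.toNat_lt {μ ν : I → ℤ} (h : ν ∈ (Finset.Icc 0 μ).erase μ) :
    (ht ν).toNat < (ht μ).toNat := by
  simp only [Finset.mem_erase, Finset.mem_Icc] at h
  have := N0.ht_lt h.2.2 h.1
  have := N0.ht_nonneg h.2.1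
  omega
/-- The inverse series. -/
noncomputable def N0.cinv {B : Type} [CommRing B] (a : (I → ℤ) → B) (μ : I → ℤ) : B :=
  dlt B μ - ∑ ν ∈ ((Finset.Icc 0 μ).erase μ).attach, N0.cinv a ν.1 * a (μ - ν.1)
termination_by (ht μ).toNat
decreasing_by exact N0.toNat_lt ν.2
theorem N0.cinv_eq {B : Type} [CommRing B] (a : (I → ℤ) → B) (μ : I → ℤ) :
    N0.cinv a μ = dlt B μ - ∑ ν ∈ (Finset.Icc 0 μ).erase μ, N0.cinv a ν * a (μ - ν) := by
  rw [N0.cinv, Finset.sum_attach _ fun ν => N0.cinv a ν * a (μ - ν)]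
theorem exists_cv_inv {B : Type} [CommRing B] {a : (I → ℤ) → B} (h : a 0 = 1) :
    ∃ F : (I → ℤ) → B, Cone F ∧ F 0 = 1 ∧ cv F a = dlt B := by
  have hd : ∀ μ : I → ℤ, ¬ 0 ≤ μ → dlt B μ = 0 := fun μ h0 => if_neg fun h' => h0 h'.ge
  refine ⟨N0.cinv a, fun μ hμ => ?_, by simp [N0.cinv_eq a 0, dlt], funext fun μ => ?_⟩
  · by_contra h0
    exact hμ (by simp [N0.cinv_eq a μ, hd μ h0, Finset.Icc_eq_empty h0])
  · by_cases h0 : 0 ≤ μ
    · rw [N0.cv_erase _ _ h0, h, mul_one, N0.cinv_eq, sub_add_cancel]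
    · rw [not_not.1 (mt (cv_cone _ _ μ) h0), hd μ h0]
/-- Cancellation up to height `n`. -/
theorem cv_cancel {a a' b : (I → ℤ) → ℕ} (hb : b 0 = 1) (n : ℤ)
    (h : ∀ μ, ht μ ≤ n → cv a b μ = cv a' b μ) (μ : I → ℤ) (h0 : 0 ≤ μ) (hn : ht μ ≤ n) :
    a μ = a' μ := by
  induction hm : (ht μ).toNat using Nat.strong_induction_on generalizing μ with
  | _ m ih =>
  have := h μ hn
  rw [N0.cv_erase _ _ h0, N0.cv_erase _ _ h0, hb, Finset.sum_congr rfl fun ν hν => by
    have h1 := Finset.mem_erase.1 hν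
    have h2 := Finset.mem_Icc.1 h1.2
    rw [ih _ (hm ▸ N0.toNat_lt hν) ν h2.1 ((N0.ht_lt h2.2 h1.1).le.trans hn) rfl]] at this
  omega
theorem PG.mono {H H' : (I → ℤ) → ℕ} (h : PG H) (hle : ∀ μ, H' μ ≤ H μ) : PG H' := by
  obtain ⟨C, d, h⟩ := h
  exact ⟨C, d, fun n S hS => (Finset.sum_le_sum fun μ _ => hle μ).trans (h n S hS)⟩

/-- The sum of a series over the fibres of `push dg`. -/
noncomputable def psh {J : Type} (dg : I → J → ℤ) (a : (I → ℤ) → ℕ) (ν : J → ℤ) : ℕ :=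
  ∑ᶠ μ ∈ {μ : I → ℤ | 0 ≤ μ ∧ push dg μ = ν}, a μ

section
variable {J : Type} [Fintype J] [DecidableEq J] {dg : I → J → ℤ}
theorem N0.psh_eq (h0 : ∀ i, 0 ≤ dg i) (h1 : ∀ i, dg i ≠ 0) (a : (I → ℤ) → ℕ) (ν : J → ℤ) :
    psh dg a ν = ∑ μ ∈ (finite_fibre h0 h1 ν).toFinset, a μ :=
  finsum_mem_eq_finite_toFinset_sum _ _
theorem psh_cv (h0 : ∀ i, 0 ≤ dg i) (h1 : ∀ i, dg i ≠ 0) (a b : (I → ℤ) → ℕ) :
    psh dg (cv a b) = cv (psh dg a) (psh dg b) := by
  funext ν
  simp only [cv, N0.psh_eq h0 h1, Finset.sum_mul_sum, ← Finset.sum_product', Finset.sum_sigma']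
  refine Finset.sum_nbij' (fun x => ⟨push dg x.2, x.2, x.1 - x.2⟩)
    (fun y => ⟨y.2.1 + y.2.2, y.2.1⟩) (fun x hx => ?_) (fun y hy => ?_) (fun x _ => by simp)
    (fun y hy => ?_) fun x _ => rfl
  · simp only [Finset.mem_sigma, Set.Finite.mem_toFinset, Set.mem_ofPred_eq, Finset.mem_Icc,
      Finset.mem_product] at hx ⊢
    obtain ⟨⟨-, rfl⟩, h2, h3⟩ := hx
    have := N0.push_nonneg h0 (sub_nonneg.2 h3)
    rw [map_sub, sub_nonneg] at this
    exact ⟨⟨N0.push_nonneg h0 h2, this⟩, ⟨h2, trivial⟩, sub_nonneg.2 h3, map_sub _ _ _⟩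
  · simp only [Finset.mem_sigma, Set.Finite.mem_toFinset, Set.mem_ofPred_eq, Finset.mem_Icc,
      Finset.mem_product] at hy ⊢
    obtain ⟨-, ⟨h2, h3⟩, h4, h5⟩ := hy
    exact ⟨⟨add_nonneg h2 h4, by rw [map_add, h3, h5, add_sub_cancel]⟩, h2,
      le_add_of_nonneg_right h4⟩
  · simp only [Finset.mem_sigma, Set.Finite.mem_toFinset, Set.mem_ofPred_eq, Finset.mem_Icc,
      Finset.mem_product] at hy
    obtain ⟨σ, τ, ρ⟩ := y
    obtain rfl : push dg τ = σ := hy.2.1.2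
    simp
theorem psh_zero (h0 : ∀ i, 0 ≤ dg i) (h1 : ∀ i, dg i ≠ 0) (a : (I → ℤ) → ℕ) :
    psh dg a 0 = a 0 := by
  have : {μ : I → ℤ | 0 ≤ μ ∧ push dg μ = 0} = {0} := by
    refine Set.eq_singleton_iff_unique_mem.2 ⟨⟨le_rfl, map_zero _⟩, fun μ h => ?_⟩
    by_contra hne
    have h2 := N0.ht_pos h.1 hne
    have h3 := N0.ht_le_push h0 h1 h.1
    rw [h.2] at h3
    simp only [ht, Pi.zero_apply, Finset.sum_const_zero] at h2 h3
    omega
  rw [psh, this, finsum_mem_singleton]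
theorem psh_ne_zero (h0 : ∀ i, 0 ≤ dg i) (h1 : ∀ i, dg i ≠ 0) (a : (I → ℤ) → ℕ) (ν : J → ℤ) :
    psh dg a ν ≠ 0 ↔ ∃ μ, 0 ≤ μ ∧ push dg μ = ν ∧ a μ ≠ 0 := by
  simp [N0.psh_eq h0 h1]
theorem PG.of_psh (h0 : ∀ i, 0 ≤ dg i) (h1 : ∀ i, dg i ≠ 0) {a : (I → ℤ) → ℕ} (ha : Cone a)
    (h : PG (psh dg a)) : PG a := by
  classical
  obtain ⟨C, d, h⟩ := h
  obtain ⟨K, hK⟩ : ∃ K : ℕ, ∀ i, ht (dg i) ≤ K :=
    ⟨(∑ i, ht (dg i)).toNat, fun i => (Finset.single_le_sum
      (fun i _ => N0.ht_nonneg (h0 i)) (Finset.mem_univ i)).trans (Int.self_le_toNat _)⟩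
  refine ⟨C * (K + 1) ^ d, d, fun n S hS => ?_⟩
  rw [← Finset.sum_filter_of_ne (p := (0 ≤ ·)) fun μ _ => ha μ,
    ← Finset.sum_fiberwise_of_maps_to (g := push dg) fun μ hμ => Finset.mem_image_of_mem _ hμ]
  refine (Finset.sum_le_sum fun ν _ => ?_).trans ((h (K * n) _ fun ν hν => ?_).trans ?_)
  · rw [N0.psh_eq h0 h1]
    exact Finset.sum_le_sum_of_subset fun μ hμ => by
      simp only [Finset.mem_filter] at hμ
      simpa using ⟨hμ.1.2, hμ.2⟩
  · obtain ⟨μ, hμ, rfl⟩ := Finset.mem_image.1 hν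
    obtain ⟨h2, h3⟩ := Finset.mem_filter.1 hμ
    rw [ht_push]
    calc _ ≤ ∑ i, (K : ℤ) * μ i :=
          Finset.sum_le_sum fun i _ => mul_le_mul_of_nonneg_right (hK i) (h3 i)
      _ = K * ht μ := (Finset.mul_sum _ _ _).symm
      _ ≤ _ := by push_cast; exact mul_le_mul_of_nonneg_left (hS μ h2) (by positivity)
  · rw [mul_assoc, ← mul_pow]
    exact Nat.mul_le_mul_left _ (Nat.pow_le_pow_left (by nlinarith) _)
theorem PG.to_psh (h0 : ∀ i, 0 ≤ dg i) (h1 : ∀ i, dg i ≠ 0) {a : (I → ℤ) → ℕ}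
    (h : PG a) : PG (psh dg a) := by
  obtain ⟨C, d, h⟩ := h
  refine ⟨C, d, fun n S hS => ?_⟩
  simp only [N0.psh_eq h0 h1]
  rw [← Finset.sum_biUnion fun ν _ ν' _ hne => Finset.disjoint_left.2 fun μ hμ hμ' =>
    hne (((Set.Finite.mem_toFinset _).1 hμ).2.symm.trans ((Set.Finite.mem_toFinset _).1 hμ').2)]
  refine h n _ fun μ hμ => ?_
  obtain ⟨ν, hν, hμ⟩ := Finset.mem_biUnion.1 hμ
  obtain ⟨h2, rfl⟩ := (Set.Finite.mem_toFinset _).1 hμ
  exact (N0.ht_le_push h0 h1 h2).trans (hS _ hν)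
end

end B1a

end Pool.Agent.Lib.MP_ff61db_al.Pt
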