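import Pool.Agent.Lib.MP_ff61db_al.Pt.ZDefs
import Pool.Agent.Lib.MP_96a0c3_al.Ctr.End

/-! A group inside an algebra of polynomial growth is virtually nilpotent. -/

namespace Pool.Agent.Lib.MP_ff61db_al.Pt

open TensorProduct Submodule

section ZGro
variable {k : Type} [Field k] {G : Type} [Group G] {S : Type} [Ring S] [Algebra k S]

theorem zgro_pow {V : Submodule k S} (hV : Growth V) (hgen : Algebra.adjoin k (V : Set S) = ⊤)
    (a : S) : ∃ n, a ∈ V ^ n := by
  have ha : a ∈ Algebra.adjoin k (V : Set S) := hgen ▸ Algebra.mem_top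
  induction ha using Algebra.adjoin_induction with
  | mem x hx => exact ⟨1, by rwa [pow_one]⟩
  | algebraMap r => exact ⟨0, by rw [pow_zero]; exact algebraMap_mem r⟩
  | add x y _ _ hx hy =>
    obtain ⟨a, ha⟩ := hx
    obtain ⟨b, hb⟩ := hy
    exact ⟨a + b, add_mem (hV.mono (by omega) ha) (hV.mono (by omega) hb)⟩
  | mul x y _ _ hx hy =>
    obtain ⟨a, ha⟩ := hx
    obtain ⟨b, hb⟩ := hy
    exact ⟨a + b, mul_mem_pow ha hb⟩

theorem vnil_of_fgk [Group.FG G] (φ : G →* S) (hφ : LinearIndependent k fun g => φ g)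
    (h : FGK k S) : ∃ H : Subgroup G, H.FiniteIndex ∧ Group.IsNilpotent H := by
  obtain ⟨V, hV, hgen⟩ := h
  obtain ⟨C, d, hC⟩ := hV.poly
  refine MP_96a0c3_al.Ctr.gromov (D := d) fun T hT _ => ?_
  choose c hc using zgro_pow hV hgen
  obtain ⟨n, hn⟩ := ((hT.union hT.inv).image fun g => c (φ g)).bddAbove
  have h1 : ∀ l : List G, (∀ x ∈ l, x ∈ T ∨ x⁻¹ ∈ T) → φ l.prod ∈ V ^ (n * l.length) := by
    intro l
    induction l with
    | nil =>
      intro _
      rw [List.prod_nil, map_one]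
      exact hV.mono (Nat.zero_le _) (by rw [pow_zero]; exact one_le.1 le_rfl)
    | cons x l ih =>
      intro hl
      rw [List.prod_cons, map_mul, List.length_cons, Nat.mul_succ, add_comm]
      exact mul_mem_pow (hV.mono (hn ⟨x, hl x (List.mem_cons_self ..), rfl⟩) (hc _))
        (ih fun y hy => hl y (List.mem_cons_of_mem _ hy))
  refine ⟨C * (n + 1) ^ d, fun m => ?_⟩
  have hf := MP_9ac97d_al.finite_ball hT m
  rw [Set.ncard_eq_toFinset_card _ hf]
  refine (hV.card_le hφ hf.toFinset (n := n * m) fun g hg => ?_).trans ((hC _).trans ?_)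
  · obtain ⟨l, h2, h3, rfl⟩ := hf.mem_toFinset.1 hg
    exact hV.mono (Nat.mul_le_mul_left n h2) (h1 l h3)
  · rw [mul_assoc, ← mul_pow]
    exact Nat.mul_le_mul_left _ (Nat.pow_le_pow_left (by nlinarith) _)

end ZGro

end Pool.Agent.Lib.MP_ff61db_al.Pt
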