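import Pool.Agent.Lib.MP_ff61db_al.Pt.ZCop
import Pool.Agent.Lib.MP_ff61db_al.Pt.ZGro
import Pool.Agent.Lib.MP_ff61db_al.Pt.Num
import Pool.Agent.Lib.MP_ff61db_al.Pt.Deg
import Pool.Agent.Lib.MP_ff61db_al.Pt.Skew

/-! From triangular letters to a pre-Nichols algebra of diagonal type. -/

namespace Pool.Agent.Lib.MP_ff61db_al.Pt

open TensorProduct Submodule

variable {k : Type} [Field k] {G : Type} [Group G] {X S : Type} [Ring S] [Algebra k S]
  {D : GD k G X S} {I : Type} [Fintype I] [DecidableEq I]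

theorem LD.conj_mem (L : LD D I) (g : G) {r : S} (hr : r ∈ wsp k L.x Set.univ) :
    D.φ g * r * D.φ g⁻¹ ∈ wsp k L.x Set.univ := by
  induction hr using span_induction with
  | zero => simp
  | add u v _ _ hu hv => rw [mul_add, add_mul]; exact add_mem hu hv
  | smul c u _ hu => rw [mul_smul_comm, smul_mul_assoc]; exact smul_mem _ _ hu
  | mem u hu =>
    obtain ⟨l, -, rfl⟩ := hu
    induction l with
    | nil => rw [wd_nil, mul_one, B9.phi_inv]; exact wd_mem_wsp (l := []) trivial
    | cons i l ih =>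
      convert wsp_mul (U := Set.univ) (fun _ _ _ _ => trivial) (L.norm g i) ih using 1
      simp only [wd_cons, mul_assoc]
      rw [← mul_assoc (D.φ g⁻¹), B9.phi_inv', one_mul]

theorem LD.closure_top (L : LD D I) :
    AddSubgroup.closure {s : S | ∃ r ∈ wsp k L.x Set.univ, ∃ g, s = r * D.φ g} = ⊤ := by
  set T := AddSubgroup.closure {s : S | ∃ r ∈ wsp k L.x Set.univ, ∃ g, s = r * D.φ g}
  have key : ∀ a : S, (∀ r ∈ wsp k L.x Set.univ, ∀ g, a * (r * D.φ g) ∈ T) → ∀ t ∈ T, a * t ∈ T := by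
    intro a ha t ht
    induction ht using AddSubgroup.closure_induction with
    | mem t ht => obtain ⟨r, hr, g, rfl⟩ := ht; exact ha r hr g
    | zero => simp
    | add u v _ _ hu hv => rw [mul_add]; exact add_mem hu hv
    | neg u _ hu => rw [mul_neg]; exact neg_mem hu
  refine eq_top_iff.2 fun s _ => ?_
  have hs : s ∈ wsp k (Sum.elim (fun g => D.φ g) D.y) Set.univ := D.span ▸ mem_top
  induction hs using span_induction with
  | zero => exact zero_mem _
  | add u v _ _ hu hv => exact add_mem (hu trivial) (hv trivial)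
  | smul c u _ hu =>
    rw [Algebra.smul_def]
    refine key _ (fun r hr g => AddSubgroup.subset_closure ⟨c • r, smul_mem _ _ hr, g, ?_⟩) _
      (hu trivial)
    rw [Algebra.smul_def, mul_assoc]
  | mem u hu =>
    obtain ⟨l, -, rfl⟩ := hu
    induction l with
    | nil =>
      exact AddSubgroup.subset_closure ⟨1, wd_mem_wsp (l := []) trivial, 1, by simp⟩
    | cons i l ih =>
      rw [wd_cons]
      refine key _ (fun r hr g => AddSubgroup.subset_closure ?_) _ (ih trivial)
      rcases i with h | j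
      · refine ⟨_, L.conj_mem h hr, h * g, ?_⟩
        simp only [Sum.elim_inl, map_mul, mul_assoc]
        rw [← mul_assoc (D.φ h⁻¹), B9.phi_inv', one_mul]
      · exact ⟨_, wsp_mul (U := Set.univ) (fun _ _ _ _ => trivial) (L.gen j) hr, g,
          (mul_assoc _ _ _).symm⟩

theorem LD.exists_PN [Group.FG G] (L : LD D I) (h : FGK k S) :
    ∃ (q : I → I → kˣ) (R : Type) (_ : Ring R) (_ : Algebra k R) (P : PN k q R), PG P.hil ∧
      (IsNoetherianRing R → IsNoetherianRing S) ∧
      (IsNoetherianRing Rᵐᵒᵖ → IsNoetherianRing Sᵐᵒᵖ) := by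
  let K : Subalgebra k S := (wsp k L.x Set.univ).toSubalgebra (wd_mem_wsp (l := []) trivial)
    fun _ _ => wsp_mul (U := Set.univ) fun _ _ _ _ => trivial
  have : Nontrivial S := ⟨⟨1, 0, by simpa using D.ind.ne_zero 1⟩⟩
  let y : I → K := fun a => ⟨L.x a, zwd_one L.x a ▸ wd_mem_wsp (l := [a]) trivial⟩
  have hwd : ∀ l, ((wd y l : K) : S) = wd L.x l := fun l => by induction l <;> simp [*, y]
  have hsp : ∀ s, (wsp k y s).map K.val.toLinearMap = wsp k L.x s := fun s => by
    rw [wsp, map_span, Set.image_image]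
    exact congrArg (fun f => Submodule.span k (f '' s)) (funext hwd)
  have hinj : Function.Injective K.val.toLinearMap := Subtype.val_injective
  have hy : wsp k y Set.univ = ⊤ := map_injective_of_injective hinj (by
    rw [hsp, Submodule.map_top]
    ext a
    exact ⟨fun ha => ⟨⟨a, ha⟩, rfl⟩, by rintro ⟨b, rfl⟩; exact b.2⟩)
  let ι : K ⊗[k] K →ₗ[k] S ⊗[k] S := TensorProduct.map K.val.toLinearMap K.val.toLinearMap
  have hι : Function.Injective ι := TensorProduct.map_injective_of_flat_flat _ _ hinj hinj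
  have e1 : ∀ l, ι (copw (fun a b => L.χ b (L.s a)) y l) =
      copw (fun a b => L.χ b (L.s a)) L.x l := fun l => by
    simp [copw, map_list_sum, ι, hwd, Function.comp_def]
  have e2 : ∀ p : List I → List I → Prop, tsp k L.x p ≤ (tsp k y p).map ι := fun p => by
    rw [tsp, tsp, map_span]
    refine span_mono ?_
    rintro _ ⟨a, b, h1, rfl⟩
    exact ⟨_, ⟨a, b, h1, rfl⟩, by simp [ι, hwd]⟩
  have hr : ∀ a : K, (L.Q.rTensor S ∘ₗ D.Δ.toLinearMap ∘ₗ K.val.toLinearMap) a ∈
      LinearMap.range ι := fun a => by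
    refine (span_le.2 ?_ : wsp k L.x Set.univ ≤
      (LinearMap.range ι).comap (L.Q.rTensor S ∘ₗ D.Δ.toLinearMap)) a.2
    rintro _ ⟨l, -, rfl⟩
    have := add_mem (LinearMap.map_le_range (e2 _ (L.cop_wd l))) ⟨_, e1 l⟩
    rwa [sub_add_cancel] at this
  let D' : K →ₗ[k] K ⊗[k] K := (LinearEquiv.ofInjective ι hι).symm.toLinearMap ∘ₗ
    LinearMap.codRestrict (LinearMap.range ι) _ hr
  have hD' : ∀ a, ι (D' a) = L.Q.rTensor S (D.Δ a) := fun a => by simp [D']
  obtain ⟨R', _, _, P, -, -, h3, -, h4, h5, -⟩ := deg3 (fun a b => L.χ b (L.s a)) y hy L.w₁ L.w₂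
    (fun n => (L.fin n).subset fun l hl => ⟨hl.1, fun e => hl.2 (Subtype.ext (hwd l ▸ e))⟩) D'
    fun l => by
      refine (comap_map_eq_of_injective hι _).le (mem_comap.2 ?_)
      rw [map_sub, hD', hwd, e1]
      exact e2 _ (L.cop_wd l)
  obtain ⟨h6, h7⟩ := skew_noeth K.toSubring D.φ.toHomUnits
    (fun g r hr => by rw [← map_inv]; exact L.conj_mem g hr) L.closure_top (vnil_of_fgk D.φ D.ind h)
  refine ⟨_, R', _, _, P, ?_, fun e => h6 (h4 e), fun e => h7 (h5 e)⟩
  obtain ⟨V, hV, hgen⟩ := h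
  obtain ⟨c, hc⟩ := zexists_pow_fin hV hgen L.x
  obtain ⟨C, d, hC⟩ := hV.poly
  have hw : ∀ l : List I, wd L.x l ∈ V ^ (c * l.length) := fun l => by
    induction l with
    | nil => simp [Submodule.one_le.1]
    | cons i l ih =>
      rw [wd_cons, List.length_cons, mul_add, mul_one, add_comm]
      exact mul_mem_pow (hc i) ih
  refine ⟨C * (c + 1) ^ d, d, fun m s hs => (h3 s).trans ?_⟩
  have : Module.Finite k (V ^ (c * m) : Submodule k S) := Module.Finite.iff_fg.2 (hV.fg.pow _)
  rw [(equivMapOfInjective _ hinj _).finrank_eq, hsp]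
  refine (finrank_mono (span_le.2 ?_)).trans ((hC (c * m)).trans ?_)
  · rintro _ ⟨l, hl, rfl⟩
    have := hs _ hl
    rw [ht_deg] at this
    exact hV.mono (Nat.mul_le_mul_left c (by exact_mod_cast this)) (hw l)
  · rw [mul_assoc, ← mul_pow]
    exact Nat.mul_le_mul_left _ (Nat.pow_le_pow_left (by nlinarith) _)

end Pool.Agent.Lib.MP_ff61db_al.Pt
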