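import Pool.Agent.Lib.MP_ff61db_al.Pt.ZGen
import Pool.Agent.Lib.MP_ff61db_al.Pt.ZGr
import Pool.Agent.Lib.MP_ff61db_al.Pt.ZLet
import Pool.Agent.Lib.MP_ff61db_al.Pt.ZPN

/-! The reduction of a pointed Hopf algebra to a pre-Nichols algebra of diagonal type. -/

namespace Pool.Agent.Lib.MP_ff61db_al.Pt

theorem GD.exists_PN {k : Type} [Field k] [IsAlgClosed k] {G : Type} [Group G] {X S : Type}
    [Ring S] [Algebra k S] (p : ℕ) [ExpChar k p] [Group.FG G] [Finite X] (D : GD k G X S)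
    (h : FGK k S) (N : Subgroup G) [N.Normal] (hg : ∀ i, D.g i ∈ N) (hp : PComm p N) :
    ∃ (I : Type) (_ : Fintype I) (_ : DecidableEq I) (q : I → I → kˣ) (R : Type) (_ : Ring R)
      (_ : Algebra k R) (P : PN k q R), PG P.hil ∧ (IsNoetherianRing R → IsNoetherianRing S) ∧
      (IsNoetherianRing Rᵐᵒᵖ → IsNoetherianRing Sᵐᵒᵖ) := by
  obtain ⟨I, _, _, ⟨L⟩⟩ := D.exists_LD p h N hg hp
  obtain ⟨q, R, _, _, P, h1⟩ := L.exists_PN h
  exact ⟨I, inferInstance, inferInstance, q, R, inferInstance, inferInstance, P, h1⟩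

theorem fgk_of {k H : Type} [Field k] [Ring H] [Algebra k H]
    (hgk : ∃ V : Submodule k H, FiniteDimensional k V ∧ (1 : H) ∈ V ∧
      Algebra.adjoin k (V : Set H) = ⊤ ∧
      ∃ C d : ℕ, ∀ n : ℕ, Module.finrank k (V ^ n : Submodule k H) ≤ C * (n + 1) ^ d) :
    FGK k H := by
  obtain ⟨V, h1, h2, h3, h4⟩ := hgk
  exact ⟨V, ⟨Module.Finite.iff_fg.1 h1, h2, h4⟩, h3⟩

theorem step0 (k H : Type) [Field k] [IsAlgClosed k] [Ring H] [HopfAlgebra k H]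
    (hgk : ∃ V : Submodule k H, FiniteDimensional k V ∧ (1 : H) ∈ V ∧
      Algebra.adjoin k (V : Set H) = ⊤ ∧
      ∃ C d : ℕ, ∀ n : ℕ, Module.finrank k (V ^ n : Submodule k H) ≤ C * (n + 1) ^ d)
    (hpt : coradical k H = Submodule.span k {g : H | IsGroupLikeElem k g})
    (hyp : ∀ g ∈ ⁅Subgroup.closure (skewSupp k H), Subgroup.closure (skewSupp k H)⁆,
      IsOfFinOrder g → ∃ n : ℕ, g ^ ringExpChar k ^ n = 1) :
    ∃ (I : Type) (_ : Fintype I) (_ : DecidableEq I) (q : I → I → kˣ) (R : Type) (_ : Ring R)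
      (_ : Algebra k R) (P : PN k q R), PG P.hil ∧
      (IsNoetherianRing R ∧ IsNoetherianRing Rᵐᵒᵖ →
        IsNoetherianRing H ∧ IsNoetherianRing Hᵐᵒᵖ) := by
  have := ringExpChar.expChar k
  obtain ⟨G, _, _, X, _, D, N, _, hg, hp, -⟩ := exists_FD k H (fgk_of hgk) hpt hyp
  obtain ⟨S, _, _, E, e1, e2, e3, e4⟩ := D.exists_GD (fgk_of hgk)
  obtain ⟨I, _, _, q, R, _, _, P, h1, h2, h3⟩ :=
    E.exists_PN (ringExpChar k) e2 N (fun i => e1 ▸ hg i) hp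
  exact ⟨I, inferInstance, inferInstance, q, R, inferInstance, inferInstance, P, h1,
    fun h => ⟨e3 (h2 h.1), e4 (h3 h.2)⟩⟩

end Pool.Agent.Lib.MP_ff61db_al.Pt
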