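import Pool.Agent.Lib.MP_ff61db_al.Pt.Defs
import Pool.Agent.Lib.MP_ff61db_al.Pt.SDef
import Pool.Agent.Lib.MP_ff61db_al.Stage1

/-! Data for the reduction of a pointed Hopf algebra to a pre-Nichols algebra. -/

namespace Pool.Agent.Lib.MP_ff61db_al.Pt

open TensorProduct

/-- The span of the tensors of two words. -/
def tsp (k : Type) [Field k] {I R : Type} [Ring R] [Algebra k R] (x : I → R)
    (L : List I → List I → Prop) : Submodule k (R ⊗[k] R) :=
  Submodule.span k {t | ∃ a b, L a b ∧ t = wd x a ⊗ₜ[k] wd x b}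

/-- Every torsion element of the commutator subgroup of `N` has order a power of `p`. -/
def PComm {G : Type} [Group G] (p : ℕ) (N : Subgroup G) : Prop :=
  ∀ u ∈ ⁅N, N⁆, IsOfFinOrder u → ∃ r : ℕ, u ^ p ^ r = 1

/-- An algebra generated by grouplikes and by elements that are skew primitive up to terms of
smaller weight. -/
structure FD (k : Type) [Field k] (G : Type) [Group G] (X : Type) (H : Type) [Ring H]
    [Algebra k H] where
  φ : G →* H
  ind : LinearIndependent k fun g => φ g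
  x : X → H
  n : X → ℕ
  pos : ∀ i, 0 < n i
  g : X → G
  span : wsp k (Sum.elim (fun g => φ g) x) Set.univ = ⊤
  Δ : H →ₐ[k] H ⊗[k] H
  Δφ : ∀ g, Δ (φ g) = φ g ⊗ₜ φ g
  Δx : ∀ i, Δ (x i) - (x i ⊗ₜ 1 + φ (g i) ⊗ₜ x i) ∈ tsp k (Sum.elim (fun g => φ g) x)
    fun a b => wl (Sum.elim (fun _ => 0) n) a + wl (Sum.elim (fun _ => 0) n) b < n i

/-- A graded algebra generated by grouplikes and homogeneous skew primitive elements. -/
structure GD (k : Type) [Field k] (G : Type) [Group G] (X : Type) (S : Type) [Ring S]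
    [Algebra k S] where
  φ : G →* S
  ind : LinearIndependent k fun g => φ g
  y : X → S
  n : X → ℕ
  pos : ∀ i, 0 < n i
  g : X → G
  span : wsp k (Sum.elim (fun g => φ g) y) Set.univ = ⊤
  pr : ℕ → S →ₗ[k] S
  pr_wd : ∀ m l, pr m (wd (Sum.elim (fun g => φ g) y) l) =
    if wl (Sum.elim (fun _ => 0) n) l = m then wd (Sum.elim (fun g => φ g) y) l else 0
  Δ : S →ₐ[k] S ⊗[k] S
  Δφ : ∀ g, Δ (φ g) = φ g ⊗ₜ φ g
  Δy : ∀ i, Δ (y i) = y i ⊗ₜ 1 + φ (g i) ⊗ₜ y i

/-- Generated by a subspace of polynomial growth. -/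
def FGK (k S : Type) [Field k] [Ring S] [Algebra k S] : Prop :=
  ∃ V : Submodule k S, Growth V ∧ Algebra.adjoin k (V : Set S) = ⊤

end Pool.Agent.Lib.MP_ff61db_al.Pt
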