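import Pool.Agent.Lib.MP_ff61db_al.Pt.ZSp0
import Pool.Agent.Lib.MP_ff61db_al.Pt.ZDefs

/-! Reduction modulo `p` of a graded algebra whose group permutes the generators. -/

namespace Pool.Agent.Lib.MP_ff61db_al.Pt

open Submodule Module TensorProduct IsLocalRing

namespace B7

variable {k G X S : Type} [Field k] [Group G] [Ring S] [Algebra k S]

theorem pow_fin {V : Submodule k S} (hV : Growth V) (hgen : Algebra.adjoin k (V : Set S) = ⊤)
    {ι : Type} [Finite ι] (v : ι → S) : ∃ n, ∀ i, v i ∈ V ^ n := by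
  have one : ∀ a : S, ∃ n, a ∈ V ^ n := fun a => by
    have ha : a ∈ Algebra.adjoin k (V : Set S) := hgen ▸ Algebra.mem_top
    induction ha using Algebra.adjoin_induction with
    | mem x hx => exact ⟨1, by rwa [pow_one]⟩
    | algebraMap r => exact ⟨0, by rw [pow_zero]; exact algebraMap_mem r⟩
    | add x y _ _ hx hy =>
      obtain ⟨a, ha⟩ := hx
      obtain ⟨b, hb⟩ := hy
      exact ⟨a + b, add_mem (hV.mono (by omega) ha) (hV.mono (by omega) hb)⟩
    | mul x y _ _ hx hy =>
      obtain ⟨a, ha⟩ := hx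
      obtain ⟨b, hb⟩ := hy
      exact ⟨a + b, mul_mem_pow ha hb⟩
  choose n hn using one
  obtain ⟨N, hN⟩ := (Set.finite_range fun i => n (v i)).bddAbove
  exact ⟨N, fun i => hV.mono (hN ⟨i, rfl⟩) (hn _)⟩

/-- Moving the group letters to the right. -/
def nf (act : G → X → X) : List (G ⊕ X) → List X × G
  | [] => ([], 1)
  | .inl c :: l => ((nf act l).1.map (act c), c * (nf act l).2)
  | .inr i :: l => (i :: (nf act l).1, (nf act l).2)

/-- A normal word. -/
def emb (p : List X × G) : List (G ⊕ X) := p.1.map .inr ++ [.inl p.2]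

theorem nf_emb (act : G → X → X) (p : List X × G) : nf act (emb p) = p := by
  obtain ⟨l, g⟩ := p
  induction l with
  | nil => simp [emb, nf]
  | cons i l ih =>
    simp only [emb, List.map_cons, List.cons_append, nf] at ih ⊢
    rw [ih]

omit [Group G] in
theorem wd_emb (φ : G → S) (y : X → S) (p : List X × G) :
    wd (Sum.elim φ y) (emb p) = wd y p.1 * φ p.2 := by
  simp [wd, emb, Function.comp_def]

omit [Group G] in
theorem wl_emb (n : X → ℕ) (p : List X × G) :
    wl (Sum.elim (fun _ : G => 0) n) (emb p) = wl n p.1 := by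
  simp [wl, emb, Function.comp_def]

theorem wd_nf (φ : G →* S) (y : X → S) {act : G → X → X}
    (h : ∀ c i, φ c * y i = y (act c i) * φ c) (l : List (G ⊕ X)) :
    wd (Sum.elim (fun g => φ g) y) (emb (nf act l)) = wd (Sum.elim (fun g => φ g) y) l := by
  have h1 : ∀ c (l : List X), φ c * wd y l = wd y (l.map (act c)) * φ c := fun c l => by
    induction l with
    | nil => simp [wd]
    | cons i l ih =>
      simp only [wd, List.map_cons, List.prod_cons] at ih ⊢
      rw [← mul_assoc, h, mul_assoc, ih, mul_assoc]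
  rw [wd_emb]
  induction l with
  | nil => simp [nf, wd]
  | cons a l ih =>
    rcases a with c | i
    · rw [nf, map_mul, ← mul_assoc, ← h1, mul_assoc, ih]
      simp [wd]
    · rw [nf]
      simp only [wd, List.map_cons, List.prod_cons, mul_assoc] at ih ⊢
      rw [ih]
      rfl

theorem wl_nf {n : X → ℕ} {act : G → X → X} (h : ∀ c i, n (act c i) = n i) (l : List (G ⊕ X)) :
    wl (Sum.elim (fun _ : G => 0) n) (emb (nf act l)) = wl (Sum.elim (fun _ : G => 0) n) l := by
  rw [wl_emb]
  induction l with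
  | nil => simp [nf, wl]
  | cons a l ih =>
    rcases a with c | i
    · rw [wl_cons, ← ih]
      simp [nf, wl, Function.comp_def, h]
    · rw [nf, wl_cons, wl_cons, ih]
      rfl

theorem length_le_wl' {n : X → ℕ} (h : ∀ i, 0 < n i) (l : List X) : l.length ≤ wl n l := by
  induction l with
  | nil => simp
  | cons a l ih =>
    have := h a
    rw [wl_cons, List.length_cons]
    omega

/-- The terms of the coproduct of a word. -/
def cpl (g : X → G) : List (G ⊕ X) → List (List (G ⊕ X) × List (G ⊕ X))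
  | [] => [([], [])]
  | .inl c :: l => (cpl g l).map fun p => (.inl c :: p.1, .inl c :: p.2)
  | .inr i :: l => (cpl g l).map (fun p => (.inr i :: p.1, p.2)) ++
      (cpl g l).map fun p => (.inl (g i) :: p.1, .inr i :: p.2)

/-- The coproduct on coefficient vectors. -/
noncomputable def cpm (k : Type) [Field k] (g : X → G) :
    (List (G ⊕ X) →₀ k) →ₗ[k] (List (G ⊕ X) × List (G ⊕ X) →₀ k) :=
  Finsupp.linearCombination k fun l => ((cpl g l).map fun p => Finsupp.single p 1).sum

/-- The coproduct of a letter. -/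
noncomputable def dlet (k : Type) [Field k] [Algebra k S] (g : X → G) (z : G ⊕ X → S) :
    G ⊕ X → S ⊗[k] S :=
  Sum.elim (fun c => z (.inl c) ⊗ₜ z (.inl c))
    fun i => z (.inr i) ⊗ₜ 1 + z (.inl (g i)) ⊗ₜ z (.inr i)

omit [Group G] in
theorem lc_dlet (g : X → G) (z : G ⊕ X → S) (c : List (G ⊕ X) →₀ k) :
    lc k (dlet k g z) c = Finsupp.linearCombination k (wd2 k z) (cpm k g c) := by
  have h : ∀ l, wd (dlet k g z) l = ((cpl g l).map (wd2 k z)).sum := fun l => by
    induction l with
    | nil => simp [wd, cpl, wd2, Algebra.TensorProduct.one_def]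
    | cons a l ih =>
      rw [wd, List.map_cons, List.prod_cons, ← wd, ih]
      rcases a with c | i <;>
        simp [cpl, dlet, add_mul, ← List.sum_map_mul_left, Function.comp_def, wd2, wd]
  refine lin_congr _ ((Finsupp.linearCombination k (wd2 k z)).comp (cpm k g)) c fun l _ => ?_
  simp [lc_single, h, cpm, map_list_sum, Function.comp_def]

omit [Group G] in
theorem redR_cpm {O : ValuationSubring k} (g : X → G) {v v'} (h : redR O v v') :
    redR O (cpm k g v) (cpm _ g v') := by
  refine redR_map (fun l => ?_) h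
  simp only [cpm, Finsupp.linearCombination_single, one_smul]
  induction cpl g l with
  | nil => exact redR_zero
  | cons p L ih => exact redR_add (redR_one p) ih

theorem pow_le_wsp {A : Type} (z : A → S) {ω : A → ℕ} {M : ℕ} (h : ∀ a, ω a ≤ M) (m : ℕ) :
    wsp k z {l | l.length ≤ 1} ^ m ≤ wsp k z {l | wl ω l ≤ M * m} := by
  induction m with
  | zero =>
    rw [pow_zero, Submodule.one_le]
    exact subset_span ⟨[], by simp [wl], rfl⟩
  | succ m ih =>
    rw [pow_succ']
    refine (mul_le_mul_right ih _).trans ?_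
    rw [wsp, wsp, span_mul_span]
    refine span_mono ?_
    rintro _ ⟨_, ⟨l, hl, rfl⟩, _, ⟨l', hl', rfl⟩, rfl⟩
    refine ⟨l ++ l', ?_, by simp [wd]⟩
    have : wl ω l ≤ M := by
      match l, hl with
      | [], _ => simp [wl]
      | [a], _ => simpa [wl] using h a
      | _ :: _ :: _, hl => simp at hl
    change wl ω (l ++ l') ≤ _
    rw [wl_append, mul_add, mul_one, add_comm]
    exact add_le_add hl' this

theorem wd_mem_pow {A : Type} {z : A → S} {V : Submodule k S} {r : ℕ} (h : ∀ a, z a ∈ V ^ r)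
    (l : List A) : wd z l ∈ V ^ (r * l.length) := by
  induction l with
  | nil =>
    rw [List.length_nil, mul_zero, pow_zero]
    exact Submodule.one_le.1 le_rfl
  | cons a l ih =>
    rw [List.length_cons, mul_add, mul_one, add_comm]
    exact mul_mem_pow (h a) ih

end B7

open B7

theorem GD.spec {k G X S : Type} [Field k] [Group G] [Ring S] [Algebra k S] (p : ℕ) [Fact p.Prime]
    [CharZero k] [IsAlgClosed k] [Finite G] [Finite X] (D : GD k G X S) (act : G → X → X)
    (hact : ∀ c i, D.φ c * D.y i = D.y (act c i) * D.φ c) (h : FGK k S) :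
    ∃ (K : Type) (_ : Field K) (_ : IsAlgClosed K) (_ : CharP K p) (S' : Type) (_ : Ring S')
      (_ : Algebra K S') (D' : GD K G X S'), D'.g = D.g ∧ FGK K S' ∧
      (IsNoetherianRing S' ∧ IsNoetherianRing S'ᵐᵒᵖ →
        IsNoetherianRing S ∧ IsNoetherianRing Sᵐᵒᵖ) := by
  classical
  obtain ⟨O, hO⟩ := exists_place_p k p
  set z : G ⊕ X → S := Sum.elim (fun g => D.φ g) D.y with hz
  set ω : G ⊕ X → ℕ := Sum.elim (fun _ => 0) D.n with hω
  have g1 : Grd (wl ω) (LinearMap.ker (lc k z)) := grd_of_proj D.pr_wd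
  let act' : G → X → X := fun c i => if D.y i = 0 then i else act c i
  have a1 : ∀ c i, D.φ c * D.y i = D.y (act' c i) * D.φ c := fun c i => by
    by_cases e : D.y i = 0
    · simp [act', e]
    · simpa [act', e] using hact c i
  have a2 : ∀ c i, D.n (act' c i) = D.n i := fun c i => by
    by_cases e : D.y i = 0
    · simp [act', e]
    · by_contra e'
      have h1 := D.pr_wd (D.n i) [.inl c, .inr i]
      have h2 := D.pr_wd (D.n i) [.inr (act' c i), .inl c]
      simp only [wd, wl, List.map_cons, List.map_nil, List.prod_cons, List.prod_nil, mul_one,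
        List.sum_cons, List.sum_nil, Sum.elim_inl, Sum.elim_inr, add_zero, zero_add, if_true, e',
        if_false] at h1 h2
      rw [← a1, h1] at h2
      refine e ?_
      rw [← one_mul (D.y i), ← map_one D.φ, ← inv_mul_cancel c, map_mul, mul_assoc, h2, mul_zero]
  have hlen : ∀ (l : List (G ⊕ X)) m, emb (nf act' l) = l ∧ wl ω l ≤ m → l.length ≤ m + 1 := by
    intro l m hl
    have := length_le_wl' D.pos (nf act' l).1
    rw [← wl_emb (G := G), hl.1] at this
    rw [← hl.1, emb, List.length_append, List.length_map]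
    exact Nat.succ_le_succ (this.trans hl.2)
  have hν : NF z ω fun l => emb (nf act' l) :=
    ⟨wd_nf D.φ D.y a1, wl_nf a2, fun l => by rw [nf_emb],
      fun m => (List.finite_length_le _ (m + 1)).subset fun l hl => hlen l m hl⟩
  obtain ⟨S', _, _, y, h3, h4⟩ := exists_ring_of
    (N := sp (ResidueField O) (redR O) (LinearMap.ker (lc k z)))
    (LI.sp fun a c hc => by rw [LinearMap.mem_ker, lc_lmul, LinearMap.mem_ker.1 hc, mul_zero])
    (RI.sp fun a c hc => by rw [LinearMap.mem_ker, lc_rmul, LinearMap.mem_ker.1 hc, zero_mul])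
  have h5 : LinearMap.ker (lc _ y) = _ := Submodule.ext h4
  have heq : ∀ {l l'}, wd z l = wd z l' → wd y l = wd y l' := wd_eq_of_eq fun c hc => (h4 c).2 hc
  let φ : G →* S' :=
    { toFun := fun g => y (.inl g)
      map_one' := by simpa [wd] using heq (l := [.inl 1]) (l' := []) (by simp [wd, hz])
      map_mul' := fun a b => by
        simpa [wd] using heq (l := [.inl (a * b)]) (l' := [.inl a, .inl b]) (by simp [wd, hz]) }
  have hy : (Sum.elim (fun g => φ g) fun i => y (.inr i)) = y := funext fun a => by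
    rcases a with c | i <;> rfl
  obtain ⟨pr, hpr⟩ := exists_proj_of_grd (wl ω) h3 (h5 ▸ spec_red.grd g1)
  have hΔ : ∀ c, lc k (dlet k D.g z) c = D.Δ (lc k z c) := fun c =>
    lin_congr _ (D.Δ.toLinearMap.comp (lc k z)) c fun l _ => by
      have : dlet k D.g z = D.Δ ∘ z := funext fun a => by
        rcases a with c | i
        exacts [(D.Δφ c).symm, (D.Δy i).symm]
      simp [lc_single, wd, this, map_list_prod]
  obtain ⟨Δ, hΔ'⟩ := C0.exists_alg y (dlet (ResidueField O) D.g y) ((wsp_univ y).symm.trans h3)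
    fun c hc => (span_le (p := LinearMap.ker (lc _ (dlet (ResidueField O) D.g y)))).2
      (fun v' h => h.elim fun v h => (lc_dlet D.g y v').trans (hν.tensor g1
        (fun c hc => (h4 c).2 hc) (redR_cpm D.g h.2)
        (by rw [← lc_dlet, hΔ, LinearMap.mem_ker.1 h.1, map_zero]))) ((h4 c).1 hc)
  have w0 : ∀ {F T : Type} [Field F] [Ring T] [Algebra F T] (y : G ⊕ X → T),
      wsp F y (hν.fin 0).toFinset = Submodule.span F (Set.range fun g => y (.inl g)) := by
    intro F T _ _ _ y
    refine congrArg (Submodule.span F) (Set.ext fun v => ⟨?_, ?_⟩)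
    · rintro ⟨l, hl, rfl⟩
      have h1 := (hν.fin 0).mem_toFinset.1 hl
      have h2 := hlen l 0 h1
      rw [← h1.1, emb, List.length_append, List.length_map] at h2
      refine ⟨(nf act' l).2, ?_⟩
      conv_rhs =>
        rw [← h1.1, emb, List.length_eq_zero_iff.1 (Nat.le_zero.1 (Nat.le_of_succ_le_succ h2))]
      simp [wd]
    · rintro ⟨g, rfl⟩
      exact ⟨[.inl g], (hν.fin 0).mem_toFinset.2 ⟨by simp [nf, emb], by simp [wl, hω]⟩,
        by simp [wd]⟩
  have hind : LinearIndependent (ResidueField O) fun g => φ g := by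
    have := Fintype.ofFinite G
    have e := hν.rank_eq g1 h5 0
    rw [hν.wsp_eq 0 hν.val, hν.wsp_eq 0 fun l => heq (hν.val l), w0, w0] at e
    exact linearIndependent_iff_card_eq_finrank_span.2
      ((linearIndependent_iff_card_eq_finrank_span.1 D.ind).trans e.symm)
  refine ⟨ResidueField O, _, isAlgClosed_residue O, hO, S', _, _,
    ⟨φ, hind, fun i => y (.inr i), D.n, D.pos, D.g, hy ▸ h3, pr, hy ▸ hpr, Δ,
      fun g => hΔ' (.inl g), fun i => hΔ' (.inr i)⟩, rfl, ?_, fun ⟨_, _⟩ =>
    ⟨hν.noeth D.span g1 h3 h5.le, hν.noeth_op D.span g1 h3 h5.le⟩⟩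
  obtain ⟨V, hV, hgen⟩ := h
  obtain ⟨r, hr⟩ := pow_fin hV hgen z
  obtain ⟨C, d, hC⟩ := hV.poly
  obtain ⟨M, hM⟩ := (Set.finite_range ω).bddAbove
  refine ⟨wsp _ y {l | l.length ≤ 1}, ⟨fg_span ((List.finite_length_le _ 1).image _),
    subset_span ⟨[], by simp, rfl⟩, C * (r * M + r + 1) ^ d, d, fun m => ?_⟩, ?_⟩
  · have f1 : FiniteDimensional (ResidueField O) (wsp (ResidueField O) y {l | wl ω l ≤ M * m}) := by
      rw [hν.wsp_eq _ fun l => heq (hν.val l)]
      exact FiniteDimensional.span_of_finite _ ((Finset.finite_toSet _).image _)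
    have f2 : Module.Finite k (V ^ (r * (M * m + 1)) : Submodule k S) :=
      Module.Finite.iff_fg.2 (hV.fg.pow _)
    have h6 : wsp k z {l | wl ω l ≤ M * m} ≤ V ^ (r * (M * m + 1)) := by
      rw [hν.wsp_eq _ hν.val]
      refine span_le.2 ?_
      rintro _ ⟨l, hl, rfl⟩
      exact hV.mono (Nat.mul_le_mul_left r (hlen l _ ((hν.fin _).mem_toFinset.1 hl)))
        (wd_mem_pow hr l)
    refine (Submodule.finrank_mono (pow_le_wsp y (fun a => hM ⟨a, rfl⟩) m)).trans ?_
    rw [hν.rank_eq g1 h5, mul_assoc, ← mul_pow]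
    refine (Submodule.finrank_mono h6).trans ((hC _).trans (Nat.mul_le_mul_left C
      (Nat.pow_le_pow_left ?_ d)))
    nlinarith [Nat.zero_le (r * M), Nat.zero_le (r * m), Nat.zero_le m]
  · refine eq_top_iff.2 fun v _ => (Subalgebra.mem_toSubmodule _).1
      ((span_le (p := Subalgebra.toSubmodule _)).2 ?_ (h3.ge mem_top))
    rintro _ ⟨l, -, rfl⟩
    refine (Subalgebra.mem_toSubmodule _).2 (list_prod_mem fun t ht => ?_)
    obtain ⟨a, -, rfl⟩ := List.mem_map.1 ht
    exact Algebra.subset_adjoin (subset_span ⟨[a], by simp, by simp [wd]⟩)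

end Pool.Agent.Lib.MP_ff61db_al.Pt
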