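import Pool.Agent.Lib.MP_ff61db_al.Pt.ZDefs

/-! The conjugates of a skew primitive element span a finite dimensional space. -/

namespace Pool.Agent.Lib.MP_ff61db_al.Pt

open TensorProduct Submodule

variable {k : Type} [Field k] {S : Type} [Ring S] [Algebra k S]

/-- The span of the nonempty words in the first `m` letters. -/
def zP (k : Type) [Field k] {S : Type} [Ring S] [Algebra k S] (w : ℕ → S) (m : ℕ) :
    Submodule k S := span k {t | ∃ l : List ℕ, l ≠ [] ∧ (∀ j ∈ l, j < m) ∧ t = (l.map w).prod}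

/-- The tensors with second factor in `P`. -/
def zN (P : Submodule k S) : Submodule k (S ⊗[k] S) := span k {x | ∃ s, ∃ t ∈ P, x = s ⊗ₜ[k] t}

theorem zN_mul {P Q : Submodule k S} (s t : S) (h : ∀ b ∈ P, t * b ∈ Q) {x : S ⊗[k] S}
    (hx : x ∈ zN P) : (s ⊗ₜ[k] t) * x ∈ zN Q := by
  induction hx using span_induction with
  | zero => simp
  | add u v _ _ hu hv => rw [mul_add]; exact add_mem hu hv
  | smul c u _ hu => rw [mul_smul_comm]; exact smul_mem _ _ hu
  | mem u hu =>
    obtain ⟨a, b, hb, rfl⟩ := hu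
    rw [Algebra.TensorProduct.tmul_mul_tmul]
    exact subset_span ⟨_, _, h b hb, rfl⟩

theorem zP_mul {w : ℕ → S} {m j : ℕ} {Q : Submodule k S}
    (h : ∀ l : List ℕ, l ≠ [] → (∀ j ∈ l, j < m) → ((j :: l).map w).prod ∈ Q) :
    ∀ b ∈ zP k w m, w j * b ∈ Q := by
  intro b hb
  induction hb using span_induction with
  | zero => simp
  | add u v _ _ hu hv => rw [mul_add]; exact add_mem hu hv
  | smul c u _ hu => rw [mul_smul_comm]; exact smul_mem _ _ hu
  | mem u hu =>
    obtain ⟨l, h1, h2, rfl⟩ := hu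
    simpa using h l h1 h2

theorem z_cop {Δ : S →ₐ[k] S ⊗[k] S} {w a : ℕ → S}
    (h : ∀ j, Δ (w j) = w j ⊗ₜ 1 + a j ⊗ₜ w j) (m : ℕ) (l : List ℕ) (hl : ∀ j ∈ l, j < m) :
    Δ (l.map w).prod - (l.map w).prod ⊗ₜ 1 ∈ zN (zP k w m) := by
  induction l with
  | nil => simp [Algebra.TensorProduct.one_def]
  | cons j l ih =>
    have ih := ih fun i hi => hl i (List.mem_cons_of_mem _ hi)
    have h1 := zN_mul (w j) 1 (fun b hb => by rwa [one_mul]) ih
    have h2 := zN_mul (a j) (w j) (zP_mul (Q := zP k w m) fun l' _ e => subset_span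
      ⟨j :: l', by simp, List.forall_mem_cons.2 ⟨hl j List.mem_cons_self, e⟩, rfl⟩) ih
    have h3 : (a j * (l.map w).prod) ⊗ₜ[k] w j ∈ zN (zP k w m) := subset_span ⟨_, _,
      subset_span ⟨[j], by simp, by simpa using hl j List.mem_cons_self, by simp⟩, rfl⟩
    refine (congrArg (· ∈ zN (zP k w m)) ?_).mp (add_mem (add_mem h1 h2) h3)
    simp only [List.map_cons, List.prod_cons, map_mul, h j, add_mul, mul_sub,
      Algebra.TensorProduct.tmul_mul_tmul, mul_one]
    abel

theorem z_kill (f : S →ₗ[k] k) {x : S ⊗[k] S} (hx : x ∈ zN (LinearMap.ker f)) :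
    TensorProduct.rid k S (f.lTensor S x) = 0 := by
  induction hx using span_induction with
  | zero => simp
  | add u v _ _ hu hv => rw [map_add, map_add, hu, hv, add_zero]
  | smul c u _ hu => rw [map_smul, map_smul, hu, smul_zero]
  | mem u hu =>
    obtain ⟨a, b, hb, rfl⟩ := hu
    simp [LinearMap.mem_ker.1 hb]

theorem z_indep {Δ : S →ₐ[k] S ⊗[k] S} {w a a' : ℕ → S}
    (h : ∀ j, Δ (w j) = w j ⊗ₜ 1 + a j ⊗ₜ w j) (ha : ∀ j, a' j * a j = 1) (f : ℕ → S →ₗ[k] k)
    (f1 : ∀ m, f m (w m) = 1) (f2 : ∀ m, ∀ j < m, f m (w j) = 0)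
    (f3 : ∀ m (l : List ℕ), l.length ≠ 1 → f m (l.map w).prod = 0) :
    LinearIndependent k (ordP w) := by
  classical
  have step : ∀ m, ∃ T : S →ₗ[k] S, ∀ l : List ℕ, (∀ j ∈ l, j < m) →
      T (l.map w).prod = 0 ∧ T (w m * (l.map w).prod) = a m * (l.map w).prod := by
    intro m
    have k0 : f m 1 = 0 := by simpa using f3 m [] (by simp)
    have k1 : ∀ b ∈ zP k w m, 1 * b ∈ LinearMap.ker (f m) := fun b hb => by
      rw [one_mul]
      refine (span_le.2 ?_ : zP k w m ≤ _) hb
      rintro _ ⟨l, -, h2, rfl⟩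
      by_cases e : l.length = 1
      · obtain ⟨j, rfl⟩ := List.length_eq_one_iff.1 e
        simpa using f2 m j (h2 j List.mem_cons_self)
      · exact f3 m l e
    have k2 : ∀ b ∈ zP k w m, w m * b ∈ LinearMap.ker (f m) :=
      zP_mul fun l h1 _ => f3 m _ (by simpa using h1)
    refine ⟨(TensorProduct.rid k S).toLinearMap ∘ₗ (f m).lTensor S ∘ₗ Δ.toLinearMap,
      fun l hl => ?_⟩
    have c := z_cop h m l hl
    have c1 := z_kill (f m) (zN_mul 1 1 k1 c)
    have c2 := z_kill (f m) (add_mem (zN_mul (w m) 1 k1 c) (zN_mul (a m) (w m) k2 c))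
    rw [← Algebra.TensorProduct.one_def, one_mul, map_sub, map_sub, sub_eq_zero] at c1
    rw [← add_mul, ← h, mul_sub, ← map_mul, map_sub, map_sub, sub_eq_zero, h, add_mul] at c2
    exact ⟨c1.trans (by simp [k0]), c2.trans (by simp [k0, f1])⟩
  have main : ∀ (m : ℕ) (g : Finset ℕ → k),
      ∑ T ∈ (Finset.range m).powerset, g T • ordP w T = 0 →
        ∀ T ∈ (Finset.range m).powerset, g T = 0 := by
    intro m
    induction m with
    | zero =>
      intro g hg T hT
      have e : T = ∅ := by simpa using hT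
      have c := congrArg (fun b => f 0 (b * w 0)) hg
      simpa [e, f1] using c
    | succ m ih =>
      intro g hg
      obtain ⟨L, hL⟩ := step m
      have hL' : ∀ T ∈ (Finset.range m).powerset,
          L (ordP w T) = 0 ∧ L (w m * ordP w T) = a m * ordP w T := fun T hT =>
        hL _ fun j hj => Finset.mem_range.1 (Finset.mem_powerset.1 hT (by simpa using hj))
      have ins : ∀ T ∈ (Finset.range m).powerset, ordP w (insert m T) = w m * ordP w T :=
        fun T hT => ordP_insert w fun j hj => Finset.mem_range.1 (Finset.mem_powerset.1 hT hj)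
      rw [Finset.range_add_one, Finset.sum_powerset_insert Finset.notMem_range_self] at hg
      have c := congrArg (fun b => a' m * L b) hg
      simp only [map_add, map_sum, map_smul, map_zero, mul_zero] at c
      rw [Finset.sum_eq_zero fun T hT => by rw [(hL' T hT).1, smul_zero], zero_add,
        Finset.mul_sum, Finset.sum_congr rfl (g := fun T => g (insert m T) • ordP w T)
          fun T hT => by
            rw [ins T hT, (hL' T hT).2, mul_smul_comm, ← mul_assoc, ha, one_mul]] at c
      have c1 := ih _ c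
      rw [Finset.sum_eq_zero (f := fun T => g (insert m T) • ordP w (insert m T))
        fun T hT => by rw [c1 T hT, zero_smul], add_zero] at hg
      intro T hT
      rw [Finset.range_add_one, Finset.powerset_insert, Finset.mem_union, Finset.mem_image] at hT
      rcases hT with hT | ⟨T, hT, rfl⟩
      exacts [ih g hg T hT, c1 T hT]
  rw [linearIndependent_iff']
  intro s g hg T hT
  have sub : s ⊆ (Finset.range ((s.sup id).sup id + 1)).powerset := fun U hU =>
    Finset.mem_powerset.2 fun j hj => Finset.mem_range.2 (Nat.lt_succ_of_le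
      (Finset.le_sup (f := id) (Finset.mem_sup.2 ⟨U, hU, hj⟩)))
  have := main _ (fun U => if U ∈ s then g U else 0) (by
    rw [← Finset.sum_subset sub fun U _ e => by simp [e], ← hg]
    exact Finset.sum_congr rfl fun U e => by simp [e]) T (sub hT)
  simpa [hT] using this

theorem z_count {V : Submodule k S} (hV : Growth V) {u : ℕ → S}
    (hu : LinearIndependent k (ordP u)) {c : ℕ} (hc : ∀ i, u i ∈ V ^ (c * (i + 1))) : False := by
  obtain ⟨C, D, hp⟩ := hV.poly
  obtain ⟨r, h1, h2⟩ := exists_pow_lt (C * (c + 1) ^ D) (2 * D)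
  have hm : ∀ T : Finset ℕ, ordP u T ∈ V ^ (∑ i ∈ T, c * (i + 1)) := by
    intro T
    induction T using Finset.induction_on_max with
    | empty => simpa using Submodule.one_le.1 (le_refl (1 : Submodule k S))
    | insert i T hT ih =>
      rw [ordP_insert u hT, Finset.sum_insert fun e => (hT i e).false]
      exact mul_mem_pow (hc i) ih
  have h3 := hV.card_le hu (Finset.range r).powerset (n := c * r ^ 2)
    fun T hT => hV.mono (by
      have hT' := Finset.mem_powerset.1 hT
      calc ∑ i ∈ T, c * (i + 1) ≤ ∑ i ∈ Finset.range r, c * (i + 1) :=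
            Finset.sum_le_sum_of_subset hT'
        _ ≤ ∑ _i ∈ Finset.range r, c * r := Finset.sum_le_sum fun i hi =>
            Nat.mul_le_mul_left c (Finset.mem_range.1 hi)
        _ = c * r ^ 2 := by simp; ring) (hm T)
  rw [Finset.card_powerset, Finset.card_range] at h3
  have h4 : c * r ^ 2 + 1 ≤ (c + 1) * r ^ 2 := by nlinarith [Nat.one_le_pow 2 r h1]
  have h5 := Nat.mul_le_mul_left C (Nat.pow_le_pow_left h4 D)
  rw [mul_pow, ← pow_mul, ← mul_assoc] at h5
  have := hp (c * r ^ 2)
  omega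

theorem z_pow {V : Submodule k S} (hV : Growth V) (hgen : Algebra.adjoin k (V : Set S) = ⊤)
    {ι : Type} [Finite ι] (v : ι → S) : ∃ n, ∀ i, v i ∈ V ^ n := by
  have one : ∀ a : S, ∃ n, a ∈ V ^ n := fun a => by
    have ha : a ∈ Algebra.adjoin k (V : Set S) := hgen ▸ Algebra.mem_top
    induction ha using Algebra.adjoin_induction with
    | mem x hx => exact ⟨1, by rwa [pow_one]⟩
    | algebraMap r => exact ⟨0, by rw [pow_zero]; exact algebraMap_mem r⟩
    | add x y _ _ hx hy =>
      obtain ⟨a, ha⟩ := hx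
      obtain ⟨b, hb⟩ := hy
      exact ⟨a + b, add_mem (hV.mono (by omega) ha) (hV.mono (by omega) hb)⟩
    | mul x y _ _ hx hy =>
      obtain ⟨a, ha⟩ := hx
      obtain ⟨b, hb⟩ := hy
      exact ⟨a + b, mul_mem_pow ha hb⟩
  choose n hn using one
  obtain ⟨N, hN⟩ := (Set.finite_range fun i => n (v i)).bddAbove
  exact ⟨N, fun i => hV.mono (hN ⟨i, rfl⟩) (hn _)⟩

variable {G : Type} [Group G] {X : Type}

theorem GD.pr_conj (D : GD k G X S) (i : X) (L : List G) :
    D.pr (D.n i) (L.map fun γ => D.φ γ * D.y i * D.φ γ⁻¹).prod =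
      if L.length = 1 then (L.map fun γ => D.φ γ * D.y i * D.φ γ⁻¹).prod else 0 := by
  obtain ⟨l, h1, h2⟩ : ∃ l : List (G ⊕ X), wd (Sum.elim (fun g => D.φ g) D.y) l =
      (L.map fun γ => D.φ γ * D.y i * D.φ γ⁻¹).prod ∧
      wl (Sum.elim (fun _ => 0) D.n) l = L.length * D.n i := by
    induction L with
    | nil => exact ⟨[], rfl, by simp [wl]⟩
    | cons γ L ih =>
      obtain ⟨l, h1, h2⟩ := ih
      refine ⟨.inl γ :: .inr i :: .inl γ⁻¹ :: l, ?_, ?_⟩
      · rw [List.map_cons, List.prod_cons, ← h1]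
        simp [wd, mul_assoc]
      · simp only [wl, List.map_cons, List.sum_cons, Sum.elim_inl, Sum.elim_inr,
          List.length_cons] at h2 ⊢
        rw [h2]
        ring
  have := D.pos i
  rw [← h1, D.pr_wd, h2]
  exact if_congr ⟨fun e => Nat.eq_of_mul_eq_mul_right this (by omega), fun e => by simp [e]⟩
    rfl rfl

theorem GD.conj_indep (D : GD k G X S) (i : X) (u : ℕ → G)
    (hu : ∀ m, D.φ (u m) * D.y i * D.φ (u m)⁻¹ ∉
      Submodule.span k {b | ∃ j < m, b = D.φ (u j) * D.y i * D.φ (u j)⁻¹}) :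
    LinearIndependent k (ordP fun m => D.φ (u m) * D.y i * D.φ (u m)⁻¹) := by
  choose f h1 h2 using fun m => Submodule.exists_dual_map_eq_bot_of_notMem (hu m) inferInstance
  have one : ∀ γ, D.pr (D.n i) (D.φ γ * D.y i * D.φ γ⁻¹) = D.φ γ * D.y i * D.φ γ⁻¹ :=
    fun γ => by simpa using D.pr_conj i [γ]
  refine z_indep (Δ := D.Δ) (a := fun m => D.φ (u m * D.g i * (u m)⁻¹))
    (a' := fun m => D.φ (u m * D.g i * (u m)⁻¹)⁻¹) (fun j => ?_)
    (fun j => by rw [← map_mul, inv_mul_cancel, map_one])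
    (fun m => (f m (D.φ (u m) * D.y i * D.φ (u m)⁻¹))⁻¹ • f m ∘ₗ D.pr (D.n i))
    (fun m => ?_) (fun m j hj => ?_) fun m l hl => ?_
  · simp only [map_mul, D.Δφ, D.Δy, mul_add, add_mul, Algebra.TensorProduct.tmul_mul_tmul, mul_one]
    rw [← map_mul D.φ (u j) (u j)⁻¹, mul_inv_cancel, map_one]
  · rw [LinearMap.smul_apply, LinearMap.comp_apply, one, smul_eq_mul, inv_mul_cancel₀ (h1 m)]
  · have e : f m (D.φ (u j) * D.y i * D.φ (u j)⁻¹) ∈ (⊥ : Submodule k k) :=
      h2 m ▸ mem_map_of_mem (subset_span ⟨j, hj, rfl⟩)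
    rw [LinearMap.smul_apply, LinearMap.comp_apply, one, (mem_bot k).1 e, smul_zero]
  · have := D.pr_conj i (l.map u)
    rw [List.map_map, List.length_map, if_neg hl] at this
    rw [LinearMap.smul_apply, LinearMap.comp_apply]
    exact (congrArg (fun b => _ • f m b) this).trans (by simp)

theorem GD.conj_fg [Group.FG G] (D : GD k G X S) (h : FGK k S) (i : X) :
    (Submodule.span k (Set.range fun γ : G => D.φ γ * D.y i * D.φ γ⁻¹)).FG := by
  obtain ⟨V, hV, hgen⟩ := h
  obtain ⟨A, hA, fin⟩ := Monoid.fg_iff.1 (Group.fg_iff_monoid_fg.1 (inferInstance : Group.FG G))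
  have : Finite A := fin
  obtain ⟨c, hc⟩ := z_pow hV hgen (Sum.elim (Sum.elim (fun s : A => D.φ s) fun s : A => D.φ s⁻¹)
    fun _ : Unit => D.y i)
  let p : List A → G := fun l => (l.map Subtype.val).prod
  let z : G → S := fun γ => D.φ γ * D.y i * D.φ γ⁻¹
  have cons : ∀ (s : A) l, z (p (s :: l)) = D.φ s * z (p l) * D.φ (s : G)⁻¹ := fun s l => by
    simp [z, p, mul_assoc]
  have cost : ∀ l, z (p l) ∈ V ^ (2 * c * (l.length + 1)) := fun l => by
    induction l with
    | nil => exact hV.mono (a := c) (by simp; omega) (by simpa [z, p] using hc (.inr ()))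
    | cons s l ih =>
      rw [cons, List.length_cons]
      exact hV.mono (by nlinarith)
        (mul_mem_pow (mul_mem_pow (hc (.inl (.inl s))) ih) (hc (.inl (.inr s))))
  let W : ℕ → Submodule k S := fun m => Submodule.span k ((fun l => z (p l)) '' {l | l.length ≤ m})
  obtain ⟨m, hm⟩ : ∃ m, ∀ l, l.length = m + 1 → z (p l) ∈ W m := by
    by_contra hne
    push Not at hne
    choose l h1 h2 using hne
    refine z_count hV (D.conj_indep i (fun m => p (l m)) fun m e => h2 m (span_mono ?_ e))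
      (c := 4 * c) fun m => hV.mono (by rw [h1 m]; nlinarith) (cost _)
    rintro _ ⟨j, hj, rfl⟩
    exact ⟨l j, (h1 j).le.trans hj, rfl⟩
  have all : ∀ l, z (p l) ∈ W m := fun l => by
    induction l with
    | nil => exact subset_span ⟨[], by simp, rfl⟩
    | cons s l ih =>
      rw [cons]
      refine (span_le.2 ?_ : W m ≤ (W m).comap ((LinearMap.mulRight k (D.φ (s : G)⁻¹)).comp
        (LinearMap.mulLeft k (D.φ s)))) ih
      rintro _ ⟨l, h1, rfl⟩
      change D.φ s * z (p l) * D.φ (s : G)⁻¹ ∈ W m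
      rw [← cons]
      by_cases e : l.length = m
      · exact hm _ (by simp [e])
      · exact subset_span ⟨s :: l, by simp at h1 ⊢; omega, rfl⟩
  have e : Submodule.span k (Set.range z) = W m := by
    refine le_antisymm (span_le.2 ?_) (span_mono ?_)
    · rintro _ ⟨γ, rfl⟩
      obtain ⟨l, h1, rfl⟩ := Submonoid.exists_list_of_mem_closure (hA ▸ Submonoid.mem_top γ)
      have := all (l.attachWith _ h1)
      simpa [p] using this
    · rintro _ ⟨l, -, rfl⟩
      exact ⟨_, rfl⟩
  rw [e]
  exact fg_span ((List.finite_length_le A m).image _)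

end Pool.Agent.Lib.MP_ff61db_al.Pt
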