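import Pool.Agent.Lib.MP_ff61db_al.Pt.ZW
import Pool.Agent.Lib.MP_ff61db_al.Pt.ZDbl
import Pool.Agent.Lib.MP_ff61db_al.Pt.ZGro
import Pool.Agent.Lib.MP_ff61db_al.Pt.Skew

/-! Reduction to a finite group that permutes the letters. -/

namespace Pool.Agent.Lib.MP_ff61db_al.Pt

open TensorProduct Submodule

variable {k : Type} [Field k] {S : Type} [Ring S] [Algebra k S]

theorem zs_top {A : Type} (K : Subalgebra k S) (z : A → K)
    (h : K ≤ Algebra.adjoin k (Set.range fun a => (z a : S))) : wsp k z Set.univ = ⊤ := by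
  have h1 : ∀ s ∈ Algebra.adjoin k (Set.range fun a => (z a : S)),
      ∃ b ∈ wsp k z Set.univ, (b : S) = s := by
    intro s hs
    induction hs using Algebra.adjoin_induction with
    | mem x hx =>
      obtain ⟨a, rfl⟩ := hx
      exact ⟨z a, zwd_one z a ▸ wd_mem_wsp trivial, rfl⟩
    | algebraMap r =>
      exact ⟨r • wd z [], smul_mem _ _ (wd_mem_wsp trivial), by
        simp [zwd_nil, Algebra.algebraMap_eq_smul_one]⟩
    | add x y _ _ hx hy =>
      obtain ⟨a, ha, rfl⟩ := hx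
      obtain ⟨b, hb, rfl⟩ := hy
      exact ⟨a + b, add_mem ha hb, rfl⟩
    | mul x y _ _ hx hy =>
      obtain ⟨a, ha, rfl⟩ := hx
      obtain ⟨b, hb, rfl⟩ := hy
      exact ⟨a * b, wsp_mul (fun _ _ _ _ => Set.mem_univ _) ha hb, rfl⟩
  refine eq_top_iff.2 fun a _ => ?_
  obtain ⟨b, hb, e⟩ := h1 a (h a.2)
  exact Subtype.ext e ▸ hb

/-- A finitely generated subalgebra has polynomial growth. -/
theorem FGK.sub (h : FGK k S) {A : Type} [Finite A] (K : Subalgebra k S) (z : A → K)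
    (hz : wsp k z Set.univ = ⊤) (h1 : ∃ a, z a = 1) : FGK k K := by
  obtain ⟨V, hV, hgen⟩ := h
  obtain ⟨C, d, hC⟩ := hV.poly
  obtain ⟨c, hc⟩ := zexists_pow_fin hV hgen fun a => (z a : S)
  have hinj : Function.Injective K.val.toLinearMap := Subtype.val_injective
  refine ⟨span k (Set.range z), ⟨fg_span (Set.finite_range z), subset_span h1,
    C * (c + 1) ^ d, d, fun n => ?_⟩, eq_top_iff.2 fun a _ => ?_⟩
  · have : Module.Finite k (V ^ (c * n) : Submodule k S) := Module.Finite.iff_fg.2 (hV.fg.pow _)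
    have h2 : (span k (Set.range z)).map K.val.toLinearMap ≤ V ^ c := by
      rw [map_span_le]
      rintro _ ⟨a, rfl⟩
      exact hc a
    rw [(equivMapOfInjective _ hinj _).finrank_eq, Submodule.map_pow]
    refine (finrank_mono ((pow_le_pow_left' h2 n).trans (pow_mul V c n).ge)).trans
      ((hC (c * n)).trans ?_)
    rw [mul_assoc, ← mul_pow]
    exact Nat.mul_le_mul_left _ (Nat.pow_le_pow_left (by nlinarith) _)
  · refine (span_le.2 ?_ : wsp k z Set.univ ≤
      Subalgebra.toSubmodule (Algebra.adjoin k (span k (Set.range z) : Set K))) (hz.ge mem_top)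
    rintro _ ⟨l, -, rfl⟩
    refine Subalgebra.list_prod_mem _ fun x hx => ?_
    obtain ⟨a, -, rfl⟩ := List.mem_map.1 hx
    exact Algebra.subset_adjoin (subset_span ⟨a, rfl⟩)

theorem zs_cop (K : Subalgebra k S) (Δ : S →ₐ[k] S ⊗[k] S)
    (h : ∀ a ∈ K, Δ a ∈ (Algebra.TensorProduct.map K.val K.val).range) :
    ∃ Δ' : K →ₐ[k] K ⊗[k] K, ∀ (a : K) (t : K ⊗[k] K),
      Algebra.TensorProduct.map K.val K.val t = Δ a → Δ' a = t := by
  have hinj : Function.Injective K.val.toLinearMap := Subtype.val_injective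
  have hι : Function.Injective (Algebra.TensorProduct.map K.val K.val) :=
    TensorProduct.map_injective_of_flat_flat _ _ hinj hinj
  refine ⟨(AlgEquiv.ofInjective _ hι).symm.toAlgHom.comp
    ((Δ.comp K.val).codRestrict _ fun a => h a a.2), fun a t ht => ?_⟩
  exact (AlgEquiv.ofInjective _ hι).symm_apply_eq.2 (Subtype.ext ht.symm)

variable {G : Type} [Group G] {X : Type}

theorem GD.mul_inv (D : GD k G X S) (g : G) : D.φ g * D.φ g⁻¹ = 1 := by
  rw [← map_mul, mul_inv_cancel, map_one]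

theorem GD.inv_mul (D : GD k G X S) (g : G) : D.φ g⁻¹ * D.φ g = 1 := by
  rw [← map_mul, inv_mul_cancel, map_one]

theorem GD.conj_conj (D : GD k G X S) (g γ : G) (s : S) :
    D.φ g * (D.φ γ * s * D.φ γ⁻¹) * D.φ g⁻¹ = D.φ (g * γ) * s * D.φ (g * γ)⁻¹ := by
  simp only [mul_inv_rev, map_mul, mul_assoc]

theorem GD.noeth_of_sub [Group.FG G] (D : GD k G X S) (h : FGK k S) (K : Subalgebra k S)
    (hy : ∀ i, D.y i ∈ K) (hn : ∀ g, ∀ r ∈ K, D.φ g * r * D.φ g⁻¹ ∈ K)
    (hK : IsNoetherianRing K ∧ IsNoetherianRing Kᵐᵒᵖ) :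
    IsNoetherianRing S ∧ IsNoetherianRing Sᵐᵒᵖ := by
  have h1 : ∀ l, ∃ r ∈ K, ∃ g, wd (Sum.elim (fun g => D.φ g) D.y) l = r * D.φ g := by
    intro l
    induction l with
    | nil => exact ⟨1, one_mem _, 1, by simp [zwd_nil]⟩
    | cons a l ih =>
      obtain ⟨r, hr, g, e⟩ := ih
      rw [zwd_cons, e]
      rcases a with a | i
      · refine ⟨_, hn a r hr, a * g, ?_⟩
        rw [map_mul, mul_assoc _ (D.φ a⁻¹), ← mul_assoc (D.φ a⁻¹), D.inv_mul, one_mul, mul_assoc]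
        rfl
      · exact ⟨_, mul_mem (hy i) hr, g, (mul_assoc _ _ _).symm⟩
  have h2 := skew_noeth K.toSubring D.φ.toHomUnits
    (fun g r hr => by rw [← map_inv]; exact hn g r hr) (eq_top_iff.2 fun s _ => ?_)
    (vnil_of_fgk D.φ D.ind h)
  · exact ⟨h2.1 hK.1, h2.2 hK.2⟩
  have h3 : s ∈ wsp k (Sum.elim (fun g => D.φ g) D.y) Set.univ := D.span ▸ mem_top
  suffices H : ∀ c : k, c • s ∈ AddSubgroup.closure
      {s : S | ∃ r ∈ K.toSubring, ∃ g, s = r * D.φ.toHomUnits g} from one_smul k s ▸ H 1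
  induction h3 using span_induction with
  | mem x hx =>
    obtain ⟨l, -, rfl⟩ := hx
    obtain ⟨r, hr, g, e⟩ := h1 l
    exact fun c => AddSubgroup.subset_closure
      ⟨c • r, K.smul_mem hr c, g, by rw [e, smul_mul_assoc]; rfl⟩
  | zero => exact fun c => by rw [smul_zero]; exact zero_mem _
  | add x y _ _ hx hy' =>
    exact fun c => by rw [smul_add]; exact add_mem (hx trivial c) (hy' trivial c)
  | smul a x _ hx => exact fun c => by rw [smul_smul]; exact hx trivial _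

theorem GD.sub_fin [Group.FG G] [Finite X] (D : GD k G X S) (h : FGK k S) (N : Subgroup G)
    [N.Normal] [Finite N] (hg : ∀ i, D.g i ∈ N) :
    ∃ (X' S' : Type) (_ : Finite X') (_ : Ring S') (_ : Algebra k S') (D' : GD k N X' S')
      (act : N → X' → X'), (∀ c i, D'.φ c * D'.y i = D'.y (act c i) * D'.φ c) ∧ FGK k S' ∧
      (IsNoetherianRing S' ∧ IsNoetherianRing S'ᵐᵒᵖ →
        IsNoetherianRing S ∧ IsNoetherianRing Sᵐᵒᵖ) := by
  have hN : N.Normal := inferInstance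
  have hT : ∀ i, ∃ T : Finset G, ∀ γ : G, D.φ γ * D.y i * D.φ γ⁻¹ ∈
      Submodule.span k ((fun γ : G => D.φ γ * D.y i * D.φ γ⁻¹) '' T) := fun i => by
    obtain ⟨s, h1, h2⟩ := (fg_span_iff_fg_span_finset_subset _).1 (D.conj_fg h i)
    rw [← Set.image_univ] at h1
    obtain ⟨T, -, h3, h4⟩ := s.finite_toSet.exists_subset_finite_image_eq h1
    refine ⟨h3.toFinset, fun γ => ?_⟩
    rw [h3.coe_toFinset, h4, ← h2]
    exact subset_span ⟨γ, rfl⟩
  choose T hT using hT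
  let X' : Type := N × Σ i, T i
  let γ : X' → G := fun x => x.1 * x.2.2
  let y₀ : X' → S := fun x => D.φ (γ x) * D.y x.2.1 * D.φ (γ x)⁻¹
  let K : Subalgebra k S := Algebra.adjoin k (Set.range (Sum.elim (fun a : N => D.φ a) y₀))
  have m1 : ∀ a : N, D.φ a ∈ K := fun a => Algebra.subset_adjoin ⟨.inl a, rfl⟩
  have m2 : ∀ x, y₀ x ∈ K := fun x => Algebra.subset_adjoin ⟨.inr x, rfl⟩
  have m3 : ∀ i g, D.φ g * D.y i * D.φ g⁻¹ ∈ K := fun i g => by
    refine (span_le.2 ?_ : _ ≤ Subalgebra.toSubmodule K) (hT i g)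
    rintro _ ⟨c, hc, rfl⟩
    simpa [y₀, γ] using m2 (1, ⟨i, c, hc⟩)
  let φ' : N →* K := (D.φ.comp N.subtype).codRestrict K m1
  let y' : X' → K := fun x => ⟨y₀ x, m2 x⟩
  let g' : X' → N := fun x => ⟨γ x * D.g x.2.1 * (γ x)⁻¹, hN.conj_mem _ (hg _) _⟩
  let z : N ⊕ X' → K := Sum.elim (fun a => φ' a) y'
  have hz : wsp k z Set.univ = ⊤ := zs_top K z (Algebra.adjoin_mono (by
    rintro _ ⟨a | x, rfl⟩
    exacts [⟨.inl a, rfl⟩, ⟨.inr x, rfl⟩]))
  have hw : ∀ l : List (N ⊕ X'), ∃ L, wd (Sum.elim (fun g => D.φ g) D.y) L = (wd z l : K) ∧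
      wl (Sum.elim (fun _ => 0) D.n) L = wl (Sum.elim (fun _ => 0) fun x : X' => D.n x.2.1) l := by
    intro l
    induction l with
    | nil => exact ⟨[], rfl, rfl⟩
    | cons a l ih =>
      obtain ⟨L, h1, h2⟩ := ih
      rcases a with a | x
      · exact ⟨.inl a :: L, by rw [zwd_cons, zwd_cons, h1]; rfl, by rw [zwl_cons, zwl_cons, h2]; rfl⟩
      · refine ⟨.inl (γ x) :: .inr x.2.1 :: .inl (γ x)⁻¹ :: L, ?_, ?_⟩
        · rw [zwd_cons, zwd_cons, zwd_cons, zwd_cons, h1, ← mul_assoc, ← mul_assoc]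
          rfl
        · simp [zwl_cons, h2]
  have hp : ∀ m, ∃ f : K →ₗ[k] K, ∀ l, f (wd z l) =
      if wl (Sum.elim (fun _ => 0) fun x : X' => D.n x.2.1) l = m then wd z l else 0 := by
    intro m
    refine exists_lin' _ _ fun c hc => Subtype.val_injective ?_
    have h1 := congrArg (D.pr m ∘ₗ K.val.toLinearMap) hc
    rw [map_zero, Finsupp.apply_linearCombination] at h1
    refine (Finsupp.apply_linearCombination k K.val.toLinearMap _ c).trans (Eq.trans ?_ h1)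
    congr 2
    funext l
    obtain ⟨L, h2, h3⟩ := hw l
    change K.val.toLinearMap (if _ then _ else _) = D.pr m (wd z l : K)
    rw [← h2, D.pr_wd, h3, h2]
    split_ifs <;> rfl
  choose pr hpr using hp
  have c1 : ∀ a : N, Algebra.TensorProduct.map K.val K.val (φ' a ⊗ₜ φ' a) = D.Δ (D.φ a) :=
    fun a => (D.Δφ a).symm
  have c2 : ∀ x, Algebra.TensorProduct.map K.val K.val (y' x ⊗ₜ 1 + φ' (g' x) ⊗ₜ y' x) =
      D.Δ (y₀ x) := fun x => by
    change _ = D.Δ (D.φ (γ x) * D.y x.2.1 * D.φ (γ x)⁻¹)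
    rw [map_mul, map_mul, D.Δφ, D.Δφ, D.Δy, mul_add, add_mul, map_add]
    simp only [Algebra.TensorProduct.tmul_mul_tmul, mul_one, D.mul_inv, ← map_mul D.φ]
    rfl
  obtain ⟨Δ', hΔ⟩ := zs_cop K D.Δ fun a ha =>
    (Algebra.adjoin_le (S := (Algebra.TensorProduct.map K.val K.val).range.comap D.Δ) (by
      rintro _ ⟨a | x, rfl⟩
      exacts [⟨_, c1 a⟩, ⟨_, c2 x⟩])) ha
  refine ⟨X', K, inferInstance, inferInstance, inferInstance,
    ⟨φ', LinearIndependent.of_comp K.val.toLinearMap (D.ind.comp _ Subtype.val_injective), y',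
      fun x => D.n x.2.1, fun x => D.pos _, g', hz, pr, hpr, Δ', fun a => hΔ _ _ (c1 a),
      fun x => hΔ _ _ (c2 x)⟩, fun c x => (c * x.1, x.2), fun c x => Subtype.ext ?_,
    h.sub K z hz ⟨.inl 1, map_one φ'⟩, D.noeth_of_sub h K (fun i => by simpa using m3 i 1)
      fun g r hr => ?_⟩
  · change D.φ c * y₀ x = D.φ ((c * x.1 : N) * x.2.2) * D.y x.2.1 *
      D.φ ((c * x.1 : N) * x.2.2)⁻¹ * D.φ c
    rw [Subgroup.coe_mul, mul_assoc (c : G), ← D.conj_conj, mul_assoc _ (D.φ (c : G)⁻¹), D.inv_mul,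
      mul_one]
  · induction hr using Algebra.adjoin_induction with
    | mem x hx =>
      obtain ⟨a | x, rfl⟩ := hx
      · simpa only [map_mul, Sum.elim_inl] using m1 ⟨g * a * g⁻¹, hN.conj_mem _ a.2 _⟩
      · exact (D.conj_conj g (γ x) _).symm ▸ m3 _ _
    | algebraMap r =>
      rw [← Algebra.commutes, mul_assoc, D.mul_inv, mul_one]
      exact algebraMap_mem K r
    | add x y _ _ hx hy => rw [mul_add, add_mul]; exact add_mem hx hy
    | mul x y _ _ hx hy =>
      have e : D.φ g * (x * y) * D.φ g⁻¹ = D.φ g * x * D.φ g⁻¹ * (D.φ g * y * D.φ g⁻¹) := by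
        simp only [mul_assoc]
        rw [← mul_assoc (D.φ g⁻¹), D.inv_mul, one_mul]
      exact e ▸ mul_mem hx hy

end Pool.Agent.Lib.MP_ff61db_al.Pt
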