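import Pool.Agent.Lib.MP_ff61db_al.Pt.Term
import Pool.Agent.Lib.MP_ff61db_al.Pt.ZMain
import Pool.Agent.Lib.MP_ff61db_al.Pt.ZSub
import Pool.Agent.Lib.MP_ff61db_al.Pt.ZSp

/-! Pointed Hopf algebras of polynomial growth are noetherian under a condition on the group
generated by the degrees of the skew primitive elements. -/

namespace Pool.Agent.Lib.MP_ff61db_al.Pt

theorem GD.noeth {k : Type} [Field k] [IsAlgClosed k] {G : Type} [Group G] {X S : Type}
    [Ring S] [Algebra k S] (p : ℕ) [ExpChar k p] [Group.FG G] [Finite X] (D : GD k G X S)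
    (h : FGK k S) (N : Subgroup G) [N.Normal] (hg : ∀ i, D.g i ∈ N) (hp : PComm p N) :
    IsNoetherianRing S ∧ IsNoetherianRing Sᵐᵒᵖ := by
  obtain ⟨I, _, _, q, R, _, _, P, h1, h2, h3⟩ := D.exists_PN p h N hg hp
  exact ⟨h2 (P.noeth h1).1, h3 (P.noeth h1).2⟩

theorem PComm.top {G : Type} [Group G] {p : ℕ} {N : Subgroup G} (h : PComm p N) :
    PComm p (⊤ : Subgroup N) := by
  have := h.comap N.subtype N.subtype_injective
  rwa [Subgroup.comap_subtype, Subgroup.subgroupOf_self] at this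

theorem GD.noeth_fin {k : Type} [Field k] [IsAlgClosed k] [CharZero k] {G : Type} [Group G]
    {X S : Type} [Ring S] [Algebra k S] (p : ℕ) [Fact p.Prime] [Group.FG G] [Finite X]
    (D : GD k G X S) (h : FGK k S) (N : Subgroup G) [N.Normal] [Finite N] (hg : ∀ i, D.g i ∈ N)
    (hp : PComm p N) : IsNoetherianRing S ∧ IsNoetherianRing Sᵐᵒᵖ := by
  obtain ⟨X', S', _, _, _, D', act, hact, h', hl⟩ := D.sub_fin h N hg
  obtain ⟨K, _, _, _, S'', _, _, D'', -, h'', hl'⟩ := GD.spec p D' act hact h'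
  have : ExpChar K p := ExpChar.prime Fact.out
  exact hl (hl' (D''.noeth p h'' ⊤ (fun _ => trivial) hp.top))

theorem main (k H : Type) [Field k] [IsAlgClosed k] [Ring H] [HopfAlgebra k H]
    (hgk : ∃ V : Submodule k H, FiniteDimensional k V ∧ (1 : H) ∈ V ∧
      Algebra.adjoin k (V : Set H) = ⊤ ∧
      ∃ C d : ℕ, ∀ n : ℕ, Module.finrank k (V ^ n : Submodule k H) ≤ C * (n + 1) ^ d)
    (hpt : coradical k H = Submodule.span k {g : H | IsGroupLikeElem k g}) (p : ℕ)
    (hp : p = ringExpChar k ∨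
      (p.Prime ∧ ringChar k = 0 ∧ Finite (Subgroup.closure (skewSupp k H))))
    (hyp : ∀ g ∈ ⁅Subgroup.closure (skewSupp k H), Subgroup.closure (skewSupp k H)⁆,
      IsOfFinOrder g → ∃ n : ℕ, g ^ p ^ n = 1) :
    IsNoetherianRing H ∧ IsNoetherianRing Hᵐᵒᵖ := by
  obtain ⟨G, _, _, X, _, D, N, _, hg, hc, hf⟩ := exists_FD k H (fgk_of hgk) hpt hyp
  obtain ⟨S, _, _, E, e1, e2, e3, e4⟩ := D.exists_GD (fgk_of hgk)
  have key : IsNoetherianRing S ∧ IsNoetherianRing Sᵐᵒᵖ := by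
    rcases hp with rfl | ⟨h1, h2, h3⟩
    · have := ringExpChar.expChar k
      exact E.noeth (ringExpChar k) e2 N (fun i => e1 ▸ hg i) hc
    · have : Fact p.Prime := ⟨h1⟩
      have : CharP k 0 := h2 ▸ ringChar.charP k
      have : CharZero k := CharP.charP_to_charZero k
      have := hf h3
      exact E.noeth_fin p e2 N (fun i => e1 ▸ hg i) hc
  exact ⟨e3 key.1, e4 key.2⟩

end Pool.Agent.Lib.MP_ff61db_al.Pt
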