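import Mathlib

/-! An algebra spanned by products of finitely many elements that skew-commute up to linear terms
is left noetherian (Dickson's lemma). -/

namespace Pool.Agent.Lib.MP_ff61db_al.Pt.B9

open Submodule

variable {k A : Type} [Field k] [Ring A] [Algebra k A] {ι : Type} {y : ι → A}

/-- Span of the products of fewer than `m` of the `y`'s. -/
def Wl (k : Type) [Field k] [Algebra k A] (y : ι → A) (m : ℕ) : Submodule k A :=
  span k {a | ∃ l : List ι, a = (l.map y).prod ∧ l.length < m}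

theorem Wl_mono {m m' : ℕ} (h : m ≤ m') : Wl k y m ≤ Wl k y m' :=
  span_mono fun _ ⟨l, h1, h2⟩ => ⟨l, h1, h2.trans_le h⟩

theorem Wl_mul {m : ℕ} {a : A} (ha : a ∈ Wl k y m) (l l' : List ι) :
    (l.map y).prod * a * (l'.map y).prod ∈ Wl k y (l.length + m + l'.length) := by
  induction ha using span_induction with
  | mem a ha =>
    obtain ⟨u, rfl, hu⟩ := ha
    refine subset_span ⟨l ++ u ++ l', by simp [mul_assoc], ?_⟩
    simp only [List.length_append]
    omega
  | zero => simp
  | add a b _ _ ha hb => rw [mul_add, add_mul]; exact add_mem ha hb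
  | smul c a _ ha => rw [mul_smul_comm, smul_mul_assoc]; exact smul_mem _ _ ha

theorem qperm (hc : ∀ i j, ∃ c : k, c ≠ 0 ∧ y i * y j - c • (y j * y i) ∈ Wl k y 2) {l l' : List ι}
    (h : l.Perm l') :
    ∃ c : k, c ≠ 0 ∧ (l.map y).prod - c • (l'.map y).prod ∈ Wl k y l.length := by
  induction h with
  | nil => exact ⟨1, one_ne_zero, by simp⟩
  | @cons i l l' _ ih =>
    obtain ⟨c, h0, ih⟩ := ih
    refine ⟨c, h0, ?_⟩
    have := Wl_mul ih [i] []
    simp only [List.map_cons, List.map_nil, List.prod_cons, List.prod_nil, mul_one, add_zero,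
      List.length_cons, List.length_nil, zero_add] at this ⊢
    rwa [mul_sub, add_comm 1, mul_smul_comm] at this
  | swap i j l =>
    obtain ⟨c, h0, h1⟩ := hc j i
    refine ⟨c, h0, ?_⟩
    have := Wl_mul h1 [] l
    simp only [List.map_cons, List.map_nil, List.prod_cons, List.prod_nil, one_mul,
      List.length_cons, List.length_nil, zero_add] at this ⊢
    rwa [sub_mul, smul_mul_assoc, mul_assoc, mul_assoc, add_comm 2] at this
  | @trans l₁ l₂ l₃ h1 _ ih1 ih2 =>
    obtain ⟨c, h0, ih1⟩ := ih1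
    obtain ⟨c', h0', ih2⟩ := ih2
    rw [← h1.length_eq] at ih2
    refine ⟨c * c', mul_ne_zero h0 h0', ?_⟩
    simpa [smul_sub, smul_smul] using add_mem ih1 (smul_mem _ c ih2)

/-- A fixed product of the `y`'s with given multiplicities. -/
noncomputable def qmon (y : ι → A) (b : Multiset ι) : A := (b.toList.map y).prod

theorem Wl_le (hc : ∀ i j, ∃ c : k, c ≠ 0 ∧ y i * y j - c • (y j * y i) ∈ Wl k y 2) (m : ℕ) :
    Wl k y m ≤ span k {a | ∃ b : Multiset ι, a = qmon y b ∧ b.card < m} := by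
  induction m with
  | zero => exact span_le.2 fun _ ⟨_, _, h⟩ => absurd h (Nat.not_lt_zero _)
  | succ m ih =>
    have mono : span k {a | ∃ b : Multiset ι, a = qmon y b ∧ b.card < m} ≤
        span k {a | ∃ b : Multiset ι, a = qmon y b ∧ b.card < m + 1} :=
      span_mono fun _ ⟨b, h1, h2⟩ => ⟨b, h1, by omega⟩
    refine span_le.2 ?_
    rintro _ ⟨l, rfl, hl⟩
    obtain ⟨c, -, h1⟩ :=
      qperm hc (Multiset.coe_eq_coe.1 (Multiset.coe_toList (l : Multiset ι))).symm
    have h2 : qmon y (l : Multiset ι) ∈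
        span k {a | ∃ b : Multiset ι, a = qmon y b ∧ b.card < m + 1} :=
      subset_span ⟨l, rfl, by simpa using hl⟩
    simpa [qmon] using add_mem (mono (ih (Wl_mono (by omega) h1))) (smul_mem _ c h2)

theorem noeth_qaff [Finite ι]
    (hc : ∀ i j, ∃ c : k, c ≠ 0 ∧ y i * y j - c • (y j * y i) ∈ Wl k y 2)
    (hs : ∀ a : A, ∃ m, a ∈ Wl k y m) : IsNoetherianRing A := by
  classical
  let _ : LinearOrder ι := @linearOrderOfSTO ι WellOrderingRel _ (Classical.decRel _)
  let κ : Multiset ι → ℕ ×ₗ Lex (ι →₀ ℕ) := fun b => toLex (b.card, toLex (Multiset.toFinsupp b))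
  have κ_lt : ∀ a b, κ a < κ b ↔ a.card < b.card ∨ (a.card = b.card ∧
        toLex (Multiset.toFinsupp a) < toLex (Multiset.toFinsupp b)) := by
    intro a b
    simp only [κ, Prod.Lex.toLex_lt_toLex]
  have κ_inj : ∀ a b, κ a = κ b → a = b := by
    intro a b h
    simp only [κ, toLex_inj, Prod.mk.injEq] at h
    exact Multiset.toFinsupp.injective h.2
  have κ_add : ∀ c a b, κ a < κ b → κ (c + a) < κ (c + b) := by
    intro c a b h
    rw [κ_lt] at h ⊢
    simp only [Multiset.card_add, map_add, toLex_add]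
    rcases h with h | ⟨h2, h⟩
    · exact Or.inl (by omega)
    · exact Or.inr ⟨by omega, add_lt_add_right h _⟩
  let S : Multiset ι → Submodule k A := fun a => span k {u | ∃ b, u = qmon y b ∧ κ b < κ a}
  have S_mono : ∀ a b, κ a ≤ κ b → S a ≤ S b := fun a b h =>
    span_mono fun _ ⟨c, h1, h3⟩ => ⟨c, h1, h3.trans_le h⟩
  have mon_mem : ∀ a b, κ b < κ a → qmon y b ∈ S a := fun a b h => subset_span ⟨b, rfl, h⟩
  have hmul : ∀ c a, ∃ t : k, t ≠ 0 ∧ qmon y c * qmon y a - t • qmon y (c + a) ∈ S (c + a) := by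
    intro c a
    have h1 : (c.toList ++ a.toList).Perm (c + a).toList := by
      rw [← Multiset.coe_eq_coe, ← Multiset.coe_add]
      simp
    obtain ⟨t, h0, h2⟩ := qperm hc h1
    refine ⟨t, h0, ?_⟩
    have h2 := Wl_le hc _ h2
    rw [h1.length_eq, Multiset.length_toList, List.map_append, List.prod_append] at h2
    refine span_mono ?_ h2
    rintro _ ⟨b, h3, h5⟩
    exact ⟨b, h3, (κ_lt _ _).2 (Or.inl h5)⟩
  have hmulS : ∀ c a, ∀ u ∈ S a, qmon y c * u ∈ S (c + a) := by
    intro c a u hu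
    induction hu using span_induction with
    | mem u hu =>
      obtain ⟨b, rfl, hb⟩ := hu
      have h1 := κ_add c _ _ hb
      obtain ⟨t, -, h2⟩ := hmul c b
      simpa using add_mem (S_mono _ _ h1.le h2) (smul_mem _ t (mon_mem _ _ h1))
    | zero => simp
    | add u v _ _ hu hv => rw [mul_add]; exact add_mem hu hv
    | smul t u _ hu => rw [mul_smul_comm]; exact smul_mem _ _ hu
  have top : ∀ (T : Set (Multiset ι)) (u : A), u ∈ span k {u | ∃ b ∈ T, u = qmon y b} →
      u = 0 ∨ ∃ b ∈ T, ∃ t : k, u - t • qmon y b ∈ S b := by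
    intro T u hu
    induction hu using span_induction with
    | mem u hu =>
      obtain ⟨b, hb, rfl⟩ := hu
      exact Or.inr ⟨b, hb, 1, by simp⟩
    | zero => exact Or.inl rfl
    | smul t u _ hu =>
      rcases hu with rfl | ⟨b, hb, t', hu⟩
      · exact Or.inl (smul_zero _)
      · exact Or.inr ⟨b, hb, t * t', by rw [mul_smul, ← smul_sub]; exact smul_mem _ _ hu⟩
    | add u v _ _ hu hv =>
      rcases hu with rfl | ⟨b, hb, t, hu⟩
      · rwa [zero_add]
      rcases hv with rfl | ⟨b', hb', t', hv⟩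
      · exact Or.inr ⟨b, hb, t, by rwa [add_zero]⟩
      have key : ∀ (u v : A) (b b' : Multiset ι) (t t' : k), κ b < κ b' →
          u - t • qmon y b ∈ S b → v - t' • qmon y b' ∈ S b' → u + v - t' • qmon y b' ∈ S b' := by
        intro u v b b' t t' h hu hv
        have := add_mem (add_mem (S_mono _ _ h.le hu) (smul_mem _ t (mon_mem _ _ h))) hv
        rwa [sub_add_cancel, ← add_sub_assoc] at this
      rcases lt_trichotomy (κ b) (κ b') with h | h | h
      · exact Or.inr ⟨b', hb', t', key _ _ _ _ _ _ h hu hv⟩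
      · obtain rfl := κ_inj _ _ h
        refine Or.inr ⟨b, hb, t + t', ?_⟩
        have := add_mem hu hv
        rwa [sub_add_sub_comm, ← add_smul] at this
      · exact Or.inr ⟨b, hb, t, by rw [add_comm]; exact key _ _ _ _ _ _ h hv hu⟩
  have wf : WellFounded fun b a : Multiset ι => κ b < κ a := by
    have := Finsupp.Lex.wellFoundedLT_of_finite (α := ι) (N := ℕ)
    exact InvImage.wf κ wellFounded_lt
  refine (isNoetherianRing_iff_ideal_fg A).2 fun J => ?_
  let E : Set (Multiset ι) := {a | ∃ u ∈ J, u - qmon y a ∈ S a}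
  have : WellQuasiOrderedLE (Multiset ι) :=
    (OrderIso.wellQuasiOrderedLE_iff (Finsupp.orderIsoMultiset (ι := ι))).1 inferInstance
  have hfin : {a | Minimal (· ∈ E) a}.Finite :=
    WellQuasiOrderedLE.finite_of_isAntichain (setOfPred_minimal_antichain _)
  have hex : ∀ a, ∃ u, a ∈ E → u ∈ J ∧ u - qmon y a ∈ S a := by
    intro a
    by_cases h : a ∈ E
    · obtain ⟨u, hu⟩ := h
      exact ⟨u, fun _ => hu⟩
    · exact ⟨0, fun h' => (h h').elim⟩
  choose g hg using hex
  let J₀ : Ideal A := Ideal.span (g '' {a | Minimal (· ∈ E) a})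
  have hJ : J₀ ≤ J := Ideal.span_le.2 (by rintro _ ⟨a, ha, rfl⟩; exact (hg a ha.1).1)
  refine Submodule.fg_def.2 ⟨_, hfin.image g, le_antisymm hJ ?_⟩
  have main : ∀ a, ∀ u ∈ J, ∀ t : k, u - t • qmon y a ∈ S a → u ∈ J₀ := by
    intro a
    induction a using wf.induction with
    | _ a ih =>
      have low : ∀ u ∈ J, u ∈ S a → u ∈ J₀ := by
        intro u hu h
        rcases top {b | κ b < κ a} u
          (span_mono (by rintro _ ⟨b, h1, h2⟩; exact ⟨b, h2, h1⟩) h) with rfl | ⟨b, hb, t, h'⟩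
        · exact zero_mem _
        · exact ih b hb u hu t h'
      intro u hu t h
      by_cases ht : t = 0
      · exact low u hu (by simpa [ht] using h)
      have ha : a ∈ E := by
        refine ⟨t⁻¹ • u, ?_, ?_⟩
        · rw [Algebra.smul_def]
          exact J.mul_mem_left _ hu
        · have := smul_mem _ t⁻¹ h
          rwa [smul_sub, inv_smul_smul₀ ht] at this
      obtain ⟨a₀, h1, h2⟩ := exists_minimal_le_of_wellFoundedLT (· ∈ E) a ha
      obtain ⟨c, rfl⟩ := Multiset.le_iff_exists_add.1 h1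
      rw [add_comm] at h low
      obtain ⟨s, hs0, hs1⟩ := hmul c a₀
      have h3 : (t * s⁻¹) • (qmon y c * g a₀) ∈ J₀ := by
        rw [Algebra.smul_def]
        exact J₀.mul_mem_left _ (J₀.mul_mem_left _ (Ideal.subset_span ⟨a₀, h2, rfl⟩))
      have h4 := low (u - (t * s⁻¹) • (qmon y c * g a₀)) (sub_mem hu (hJ h3)) (by
        have := sub_mem h (smul_mem _ (t * s⁻¹) (add_mem (hmulS c a₀ _ (hg a₀ h2.1).2) hs1))
        rwa [mul_sub, sub_add_sub_cancel, smul_sub, smul_smul, inv_mul_cancel_right₀ hs0,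
          sub_sub_sub_cancel_right] at this)
      simpa using add_mem h4 h3
  intro u hu
  obtain ⟨m, hd⟩ := hs u
  rcases top Set.univ u
    (span_mono (by rintro _ ⟨b, h1, _⟩; exact ⟨b, trivial, h1⟩) (Wl_le hc _ hd)) with
    rfl | ⟨b, -, t, h⟩
  · exact zero_mem _
  · exact main b u hu t h

end Pool.Agent.Lib.MP_ff61db_al.Pt.B9
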