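import Pool.Agent.Lib.MP_ff61db_al.Pt.Defs

/-! A polynomial Hilbert series bounds all products of reflections. -/

namespace Pool.Agent.Lib.MP_ff61db_al.Pt

variable {I : Type} [Fintype I] [DecidableEq I]

namespace Rb

theorem sref_e (m : I → ℕ) (i : I) : sref m i (e i) = - e i := by
  have h : (∑ j ∈ Finset.univ.erase i, (m j : ℤ) * e i j) = 0 :=
    Finset.sum_eq_zero fun j hj => by simp [e, Finset.ne_of_mem_erase hj]
  have h1 : e i i = 1 := by simp [e]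
  change e i + ((∑ j ∈ Finset.univ.erase i, (m j : ℤ) * e i j) - 2 * e i i) • e i = - e i
  rw [h, h1]
  module

theorem sref_invol (m : I → ℕ) (i : I) (μ : I → ℤ) : sref m i (sref m i μ) = μ := by
  have h : sref m i μ = μ + ((∑ j ∈ Finset.univ.erase i, (m j : ℤ) * μ j) - 2 * μ i) • e i := rfl
  conv_lhs => rw [h, map_add, map_smul, sref_e, h]
  module

theorem tr_ne {h : ℕ} {i : I} {μ : I → ℤ} : tr h i μ ≠ 0 ↔ ∃ n < h, μ = (n : ℤ) • e i := by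
  unfold tr
  rw [Ne, Finset.sum_eq_zero_iff]
  simp

theorem cv_tr_ne {κ : (I → ℤ) → ℕ} (hκ : Cone κ) {h : ℕ} {i : I} {μ : I → ℤ} :
    cv κ (tr h i) μ ≠ 0 ↔ ∃ n < h, κ (μ - (n : ℤ) • e i) ≠ 0 := by
  unfold cv
  constructor
  · intro h0
    obtain ⟨ν, _, hν⟩ := Finset.exists_ne_zero_of_sum_ne_zero h0
    obtain ⟨n, hn, he⟩ := tr_ne.1 (right_ne_zero_of_mul hν)
    refine ⟨n, hn, ?_⟩
    rw [← he, sub_sub_cancel]
    exact left_ne_zero_of_mul hν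
  · rintro ⟨n, hn, h0⟩ h1
    rw [Finset.sum_eq_zero_iff] at h1
    have h2 : (0 : I → ℤ) ≤ (n : ℤ) • e i := by
      intro j
      by_cases hj : j = i
      · subst hj; simp [e]
      · simp [e, hj]
    refine mul_ne_zero h0 (tr_ne.2 ⟨n, hn, sub_sub_cancel _ _⟩)
      (h1 _ (Finset.mem_Icc.2 ⟨hκ _ h0, sub_le_self _ h2⟩))

variable {X : Type} (D : RD I X)

theorem step_fwd (x : X) (i : I) {μ : I → ℤ} (h : D.H x μ ≠ 0) :
    D.H (D.r i x) (sref (D.m x i) i μ + ((D.h x i - 1 : ℕ) : ℤ) • e i) ≠ 0 := by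
  obtain ⟨κ, κ', _, hκ, hκ', _, hs, h1, h2⟩ := D.refl x i
  rw [h1, cv_tr_ne hκ] at h
  obtain ⟨n, hn, h0⟩ := h
  rw [h2, cv_tr_ne hκ']
  refine ⟨D.h x i - 1 - n, by omega, ?_⟩
  rw [← hs, map_sub, map_smul, sref_e] at h0
  have e1 : ((D.h x i - 1 : ℕ) : ℤ) = ((D.h x i - 1 - n : ℕ) : ℤ) + n := by omega
  have e2 : sref (D.m x i) i μ + ((D.h x i - 1 : ℕ) : ℤ) • e i -
      ((D.h x i - 1 - n : ℕ) : ℤ) • e i = sref (D.m x i) i μ - (n : ℤ) • -e i := by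
    rw [e1]
    module
  rwa [e2]

theorem step_fin (x : X) (i : I) (h : {μ | D.H x μ ≠ 0}.Finite) :
    {μ | D.H (D.r i x) μ ≠ 0}.Finite := by
  obtain ⟨κ, κ', _, hκ, hκ', _, hs, h1, h2⟩ := D.refl x i
  refine ((h.prod (Set.finite_Iio (D.h x i))).image
    fun p => sref (D.m x i) i p.1 + (p.2 : ℤ) • e i).subset ?_
  intro μ hμ
  have hμ' : D.H (D.r i x) μ ≠ 0 := hμ
  rw [h2, cv_tr_ne hκ'] at hμ'
  obtain ⟨n, hn, h0⟩ := hμ'
  refine ⟨(sref (D.m x i) i (μ - (n : ℤ) • e i), n), ⟨?_, hn⟩, ?_⟩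
  · change D.H x _ ≠ 0
    rw [h1, cv_tr_ne hκ]
    refine ⟨0, by omega, ?_⟩
    rw [← hs]
    simpa [sref_invol] using h0
  · simp [sref_invol]

theorem path_fin (l : List I) : ∀ x : X, {μ | D.H x μ ≠ 0}.Finite →
    {μ | D.H (D.obj x l) μ ≠ 0}.Finite := by
  induction l with
  | nil => exact fun _ h => h
  | cons i l ih => exact fun x h => ih _ (step_fin D x i h)

theorem path_fwd (l : List I) : ∀ x : X, ∃ c : I → ℤ, ∀ μ, D.H x μ ≠ 0 →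
    D.H (D.obj x l) (D.w x l μ + c) ≠ 0 := by
  induction l with
  | nil => exact fun x => ⟨0, fun μ h => by simpa [RD.obj, RD.w] using h⟩
  | cons i l ih =>
    intro x
    obtain ⟨c, hc⟩ := ih (D.r i x)
    refine ⟨D.w (D.r i x) l (((D.h x i - 1 : ℕ) : ℤ) • e i) + c, fun μ h => ?_⟩
    have := hc _ (step_fwd D x i h)
    rw [map_add, add_assoc] at this
    exact this

theorem base (x : X) (i : I) : D.H x 0 ≠ 0 ∧ D.H x (e i) ≠ 0 := by
  obtain ⟨κ, _, h0, hκ, _, _, _, h1, _⟩ := D.refl x i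
  have := D.two_le x i
  rw [h1, cv_tr_ne hκ, cv_tr_ne hκ]
  exact ⟨⟨0, by omega, by simp [h0]⟩, ⟨1, by omega, by simp [h0]⟩⟩

end Rb

theorem RD.bounded {X : Type} [Finite X] (D : RD I X) (x : X)
    (hfin : {μ | D.H x μ ≠ 0}.Finite) :
    ∃ M : ℤ, ∀ l i j, |D.w x l (e i) j| ≤ M := by
  have hS : (⋃ y ∈ {y : X | {μ | D.H y μ ≠ 0}.Finite}, {μ | D.H y μ ≠ 0}).Finite :=
    (Set.toFinite _).biUnion fun y hy => hy
  obtain ⟨M, hM⟩ := ((hS.prod (Set.finite_univ (α := I))).image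
    fun p : (I → ℤ) × I => |p.1 p.2|).bddAbove
  refine ⟨M + M, fun l i j => ?_⟩
  obtain ⟨c, hc⟩ := Rb.path_fwd D l x
  have hb : ∀ μ, D.H (D.obj x l) μ ≠ 0 → |μ j| ≤ M := fun μ hμ =>
    hM ⟨(μ, j), ⟨Set.mem_biUnion (Rb.path_fin D l x hfin) hμ, Set.mem_univ _⟩, rfl⟩
  have h1 := hb _ (hc _ (Rb.base D x i).1)
  have h2 := hb _ (hc _ (Rb.base D x i).2)
  rw [map_zero, zero_add] at h1
  rw [Pi.add_apply] at h2
  rw [abs_le] at h1 h2 ⊢
  constructor <;> linarith [h1.1, h1.2, h2.1, h2.2]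

end Pool.Agent.Lib.MP_ff61db_al.Pt
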