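import Pool.Agent.Lib.MP_ff61db_al.Pt.S6Loop
import Pool.Agent.Lib.MP_ff61db_al.Pt.RDb
import Pool.Agent.Lib.MP_ff61db_al.Pt.Num

/-! Paths of reflections, inversion sets, and the finiteness theorem. -/

namespace Pool.Agent.Lib.MP_ff61db_al.Pt

namespace S6

open Finset

variable {I : Type} [Fintype I] [DecidableEq I]

theorem ser_cv (a c : (I → ℤ) → ℂ) : ser (cv a c) = ser a * ser c := by
  ext m
  by_cases hm : 0 ≤ m
  · rw [coeff_ser_of hm, coeff_mul_Icc (pos_ser a) (pos_ser c), cv]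
    refine Finset.sum_congr rfl fun ν hν => ?_
    rw [Finset.mem_Icc] at hν
    rw [coeff_ser_of hν.1, coeff_ser_of (sub_nonneg.2 hν.2)]
  · rw [coeff_ser_of_not hm, of_not_not (mt (((pos_ser a).mul (pos_ser c)) m) hm)]

/-- The series of a function with values in the natural numbers. -/
noncomputable def sn (a : (I → ℤ) → ℕ) : Ser I := ser fun m => (a m : ℂ)

theorem sn_cv (a c : (I → ℤ) → ℕ) : sn (cv a c) = sn a * sn c := by
  rw [sn, sn, sn, ← ser_cv]
  exact congrArg ser (funext fun m => cv_cast a c m)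

omit [DecidableEq I] in
theorem coeff_sn {a : (I → ℤ) → ℕ} (h : Cone a) (m : I → ℤ) : (sn a).coeff m = a m :=
  coeff_ser (fun m hm => h m (Nat.cast_ne_zero.1 hm)) m

omit [DecidableEq I] in
theorem pos_sn (a : (I → ℤ) → ℕ) : Pos (sn a) := pos_ser _

omit [DecidableEq I] in
theorem sn_zero {a : (I → ℤ) → ℕ} (h : a 0 = 1) : (sn a).coeff 0 = 1 := by
  rw [sn, coeff_ser_of le_rfl, h, Nat.cast_one]

open Classical in
/-- The logarithm. -/
noncomputable def lgm (P : Ser I) : Ser I := if h : ∃ b, IsExp b P then h.choose else 0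

omit [DecidableEq I] in
theorem isExp_lgm {a : (I → ℤ) → ℕ} (h : a 0 = 1) : IsExp (lgm (sn a)) (sn a) := by
  have := exists_log (pos_sn a) (sn_zero h)
  rw [lgm, dif_pos this]
  exact this.choose_spec

/-- A reflection as an automorphism. -/
def se (m : I → ℕ) (i : I) : (I → ℤ) ≃+ (I → ℤ) where
  toFun := sref m i
  invFun := sref m i
  left_inv := sref_sref m i
  right_inv := sref_sref m i
  map_add' := map_add _

theorem se_e (m : I → ℕ) (i : I) : se m i (e i) = -e i := sref_e_self m i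

theorem se_ne (m : I → ℕ) {i j : I} (h : j ≠ i) (v : I → ℤ) : se m i v j = v j := by
  change sref m i v j = v j
  simp [N0.sref_apply, e, h]

theorem eq_e_of_zero {i : I} {v : I → ℤ} (hv : Prim v) (h0 : 0 ≤ v) (h : ∀ j, j ≠ i → v j = 0) :
    v = e i := by
  refine eq_of_pm h0 (single_nonneg i)
    (hv.eq_or_of_zsmul (prim_single i) (b := v i) one_ne_zero ?_)
  funext j
  by_cases hj : j = i
  · simp [e, hj]
  · simp [e, hj, h j hj]

theorem eq_e_of_se {m : I → ℕ} {i : I} {v : I → ℤ} (hv : Prim v) (h0 : 0 ≤ v)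
    (h : se m i v ≤ 0) : v = e i :=
  eq_e_of_zero hv h0 fun j hj => le_antisymm (se_ne m hj v ▸ h j) (h0 j)

theorem tr_zero {h : ℕ} (h2 : 2 ≤ h) (i : I) : tr h i 0 = 1 := by
  rw [tr, Finset.sum_eq_single 0]
  · simp
  · intro n _ hn
    refine if_neg fun e0 => hn ?_
    simpa [e] using (congrFun e0 i).symm
  · intro h0
    exact absurd (mem_range.2 (by omega)) h0

theorem cone_tr (h : ℕ) (i : I) : Cone (tr h i) := fun μ hμ => by
  obtain ⟨n, _, rfl⟩ := Rb.tr_ne.1 hμ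
  rw [natCast_zsmul]
  exact nsmul_nonneg (single_nonneg i) n

theorem nonpos_of_basis {σ : (I → ℤ) ≃+ (I → ℤ)} (h : ∀ i, σ (e i) ≤ 0) {v : I → ℤ}
    (hv : 0 ≤ v) : σ v ≤ 0 := by
  rw [← Finset.univ_sum_single v, map_sum]
  refine Finset.sum_nonpos fun i _ => ?_
  have : (Pi.single i (v i) : I → ℤ) = v i • e i := by
    rw [e, ← Pi.single_smul, smul_eq_mul, mul_one]
  rw [this, map_zsmul]
  exact smul_nonpos_of_nonneg_of_nonpos (hv i) (h i)

variable {X : Type} (D : RD I X)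

/-- The logarithm of the Hilbert series. -/
noncomputable def bb (x : X) : Ser I := lgm (sn (D.H x))

theorem cone_H (x : X) (i : I) : Cone (D.H x) := by
  obtain ⟨κ, _, _, _, _, _, _, h1, _⟩ := D.refl x i
  rw [h1]
  exact cv_cone _ _

theorem isExp_bb (x : X) (i : I) : IsExp (bb D x) (sn (D.H x)) := by
  obtain ⟨κ, _, h0, _, _, _, _, h1, _⟩ := D.refl x i
  refine isExp_lgm ?_
  rw [h1, cv_zero, h0, tr_zero (D.two_le x i), one_mul]

theorem bb_e (x : X) (i : I) : (bb D x).coeff (e i) ≠ 0 := by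
  rw [e, ← (isExp_bb D x i).coeff_single, coeff_sn (cone_H D x i)]
  exact Nat.cast_ne_zero.2 (Rb.base D x i).2

theorem root_e (x : X) (i : I) : Root (bb D x) (e i) :=
  (isExp_bb D x i).lg.root_single (bb_e D x i)

theorem step (x : X) (i : I) : Sym (se (D.m x i) i) (bb D x) (bb D (D.r i x)) ∧
    (E (bb D x) {e i}).support.Finite := by
  obtain ⟨κ, κ', h0, hκ, hκ', _, hs, h1, h2⟩ := D.refl x i
  have h0' : κ' 0 = 1 := by rw [← h0, ← hs 0, map_zero]
  have k1 := isExp_lgm h0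
  have k2 := isExp_lgm h0'
  have k3 := isExp_lgm (tr_zero (D.two_le x i) i)
  have e1 : bb D x = lgm (sn κ) + lgm (sn (tr (D.h x i) i)) :=
    (isExp_bb D x i).unique_log (by rw [h1, sn_cv]; exact k1.mul k3)
  have e2 : bb D (D.r i x) = lgm (sn κ') + lgm (sn (tr (D.h x i) i)) :=
    (isExp_bb D _ i).unique_log (by rw [h2, sn_cv]; exact k2.mul k3)
  have r1 : Rel (se (D.m x i) i) (lgm (sn κ)) (lgm (sn κ')) := k1.rel_log k2 fun v => by
    rw [coeff_sn hκ, coeff_sn hκ', ← hs v]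
    rfl
  generalize lgm (sn κ) = c, lgm (sn κ') = c', lgm (sn (tr (D.h x i) i)) = u at *
  have hu : ∀ v, u.coeff v ≠ 0 → ∃ n : ℕ, n • e i = v :=
    k3.log_mem (AddSubmonoid.multiples (e i)) fun a ha => by
      rw [coeff_sn (cone_tr _ _), Nat.cast_ne_zero] at ha
      obtain ⟨n, _, rfl⟩ := Rb.tr_ne.1 ha
      exact ⟨n, (natCast_zsmul _ _).symm⟩
  have hu' : ∀ v, u.coeff (se (D.m x i) i v) = u.coeff (-v) := fun v => by
    by_cases h3 : se (D.m x i) i v = -v
    · rw [h3]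
    · rw [of_not_not (a := u.coeff (-v) = 0) fun h4 => h3 ?_]
      · refine of_not_not fun h4 => h3 ?_
        obtain ⟨n, hn⟩ := hu _ h4
        have h5 : v = se (D.m x i) i (n • e i) := by
          rw [hn]
          exact (sref_sref _ _ v).symm
        rw [← hn, h5, map_nsmul, se_e, smul_neg, neg_neg]
      · obtain ⟨n, hn⟩ := hu _ h4
        rw [← neg_neg v, ← hn, map_neg, map_nsmul, se_e, smul_neg]
  refine ⟨fun v => ?_, ?_⟩
  · simp only [ev, e1, e2, HahnSeries.coeff_add, ← map_neg, r1 v, r1 (-v), hu', neg_neg]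
    ring
  · have h3 : res (cn {e i}) (bb D x) = u := by
      ext m
      by_cases hm : m ∈ cn {e i}
      · rw [coeff_res_of _ hm, e1, HahnSeries.coeff_add, add_eq_right]
        obtain ⟨_, rfl, n, hn, rfl⟩ := hm
        by_contra h4
        rw [← r1, map_nsmul, se_e] at h4
        simpa [e] using nonneg_of_nsmul hn (k2.posb _ h4) i
      · rw [coeff_res_of_not _ hm]
        by_contra h4
        obtain ⟨n, rfl⟩ := hu m (Ne.symm h4)
        refine hm ⟨_, rfl, n, Nat.pos_of_ne_zero ?_, rfl⟩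
        rintro rfl
        exact h4 (by rw [zero_smul, k3.b0])
    rw [((isExp_bb D x i).lg.isExp_E {e i}).unique (h3 ▸ k3)]
    refine ((Set.finite_Iio (D.h x i)).image fun n : ℕ => (n : ℤ) • e i).subset fun a ha => ?_
    rw [HahnSeries.mem_support, coeff_sn (cone_tr _ _), Nat.cast_ne_zero] at ha
    obtain ⟨n, hn, rfl⟩ := Rb.tr_ne.1 ha
    exact ⟨n, hn, rfl⟩

/-- End points and maps of the paths that start at `x`. -/
inductive Reach (x : X) : X → ((I → ℤ) ≃+ (I → ℤ)) → Prop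
  | base : Reach x x (AddEquiv.refl _)
  | step {y : X} {w : (I → ℤ) ≃+ (I → ℤ)} (i : I) :
      Reach x y w → Reach x (D.r i y) (w.trans (se (D.m y i) i))

/-- The inversion set. -/
def Inv (b : Ser I) (w : (I → ℤ) ≃+ (I → ℤ)) : Set (I → ℤ) := {ρ | Root b ρ ∧ 0 ≤ ρ ∧ w ρ ≤ 0}

variable {D} {x y : X} {w : (I → ℤ) ≃+ (I → ℤ)}

theorem Reach.sym (h : Reach D x y w) : Sym w (bb D x) (bb D y) := by
  induction h with
  | base => exact Sym.refl _
  | step i _ ih => exact ih.trans (S6.step D _ i).1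

theorem Reach.inv (h : Reach D x y w) : (Inv (bb D x) w).Finite ∧
    ∀ ρ ∈ Inv (bb D x) w, (E (bb D x) {ρ}).support.Finite := by
  induction h with
  | base =>
    have : Inv (bb D x) (AddEquiv.refl _) = ∅ :=
      Set.eq_empty_of_forall_notMem fun ρ h => h.1.1.ne_zero (le_antisymm h.2.2 h.2.1)
    simp [this]
  | @step y w i h ih =>
    have key : ∀ ρ ∈ Inv (bb D x) (w.trans (se (D.m y i) i)), ρ ∈ Inv (bb D x) w ∨ w ρ = e i := by
      intro ρ hρ
      rcases (hρ.1.map h.sym).sign (isExp_bb D y i).lg with h1 | h1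
      · exact Or.inr (eq_e_of_se (hρ.1.1.map w) h1 hρ.2.2)
      · exact Or.inl ⟨hρ.1, hρ.2.1, h1⟩
    refine ⟨(ih.1.insert (w.symm (e i))).subset fun ρ hρ => ?_, fun ρ hρ => ?_⟩
    · exact (key ρ hρ).symm.imp_left fun h1 => by rw [← h1, w.symm_apply_apply]
    · rcases key ρ hρ with h1 | h1
      · exact ih.2 ρ h1
      · have h2 := E_single_rel (isExp_bb D x i).lg (isExp_bb D y i).lg h.sym hρ.2.1
          (h1 ▸ single_nonneg i)
        rw [h1] at h2
        refine ((S6.step D y i).2.preimage w.injective.injOn).subset fun v hv => ?_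
        rwa [HahnSeries.mem_support, ← h2] at hv

theorem Reach.grow (h : Reach D x y w) (i : I) (h0 : 0 ≤ w.symm (e i)) :
    Inv (bb D x) w ⊂ Inv (bb D x) (w.trans (se (D.m y i) i)) := by
  refine ⟨fun ρ hρ => ⟨hρ.1, hρ.2.1, ?_⟩, fun hsub => ?_⟩
  · refine ((hρ.1.map (h.step i).sym).sign (isExp_bb D _ i).lg).resolve_left fun h1 => ?_
    have h2 : -w ρ = e i := eq_e_of_se (m := D.m y i) (hρ.1.1.map w).neg (neg_nonneg.2 hρ.2.2)
      (by rw [map_neg]; exact neg_nonpos.2 h1)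
    rw [← h2, map_neg, w.symm_apply_apply, neg_nonneg] at h0
    exact hρ.1.1.ne_zero (le_antisymm h0 hρ.2.1)
  · have h1 := (hsub (a := w.symm (e i)) ⟨(root_e D y i).map h.sym.symm, h0, by
      rw [AddEquiv.trans_apply, w.apply_symm_apply, se_e]
      exact neg_nonpos.2 (single_nonneg i)⟩).2.2 i
    rw [w.apply_symm_apply] at h1
    simp [e] at h1

theorem finite_of_finite_reach (i₀ : I) (hW : {w | ∃ y, Reach D x y w}.Finite) :
    {μ | D.H x μ ≠ 0}.Finite := by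
  obtain ⟨w, ⟨y, h⟩, hmax⟩ := Set.exists_max_image _ (fun w => (Inv (bb D x) w).ncard) hW
    ⟨_, _, Reach.base⟩
  have hb := isExp_bb D x i₀
  have h1 : ∀ i, w.symm (e i) ≤ 0 := fun i =>
    (((root_e D y i).map h.sym.symm).sign hb.lg).resolve_left fun h0 =>
      (Set.ncard_lt_ncard (h.grow i h0) (h.step i).inv.1).not_ge (hmax _ ⟨_, h.step i⟩)
  have h2 : {ρ | Root (bb D x) ρ ∧ 0 ≤ ρ} = h.inv.1.toFinset := by
    ext ρ
    rw [Set.Finite.coe_toFinset]
    refine ⟨fun hρ => ⟨hρ.1, hρ.2, ?_⟩, fun hρ => ⟨hρ.1, hρ.2.1⟩⟩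
    refine ((hρ.1.map h.sym).sign (isExp_bb D y i₀).lg).resolve_left fun h3 => ?_
    have h4 := nonpos_of_basis h1 h3
    rw [w.symm_apply_apply] at h4
    exact hρ.1.1.ne_zero (le_antisymm h4 hρ.2)
  have h3 : (sn (D.H x)).support.Finite := by
    rw [← E_all hb, h2, E_finset hb.lg _ fun ρ hρ => (h.inv.1.mem_toFinset.1 hρ).1.1]
    exact prod_finite _ fun ρ hρ => h.inv.2 ρ (h.inv.1.mem_toFinset.1 hρ)
  refine h3.subset fun μ hμ => ?_
  rw [HahnSeries.mem_support, coeff_sn (cone_H D x i₀)]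
  exact Nat.cast_ne_zero.2 hμ

omit [DecidableEq I] in
theorem gr_of_PG {H : (I → ℤ) → ℕ} (hc : Cone H) (hg : PG H) : ∃ d, Gr (sn H) d := by
  obtain ⟨C, d, h⟩ := hg
  refine ⟨d, C, ?_⟩
  rintro R μ hR ⟨s, h1, h2⟩
  simp only [coeff_sn hc, Complex.natCast_re] at h2
  have h3 := h ⌊R⌋₊ s fun m hm => by
    rw [Int.natCast_floor_eq_floor hR, Int.le_floor, ht]
    have := h1 m hm
    rw [dg_apply] at this
    exact_mod_cast this
  have h4 : ∑ m ∈ s, (H m : ℝ) ≤ C * ((⌊R⌋₊ : ℝ) + 1) ^ d := by exact_mod_cast h3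
  refine h2.trans (h4.trans ?_)
  gcongr
  exact Nat.floor_le hR

theorem nat_of_HN {H : (I → ℤ) → ℕ} (h : HNcut H) {b : Ser I} (hb : IsExp b (sn H)) (ρ : I → ℤ)
    (h1 : Root b ρ) (h0 : 0 ≤ ρ) : NatS (E b {ρ}) := by
  obtain ⟨κ, u, k0, u0, hκ, hu, h2, h3, rfl⟩ := h _ (cutMap ρ)
  rw [sn_cv] at hb
  refine natS_ray h1.1 h0 hb (pos_sn κ) (pos_sn u) (sn_zero k0) (sn_zero u0)
    (fun m => ⟨κ m, coeff_sn hκ m⟩) (fun a ha => h2 a ?_) fun a ha => h3 a ?_
  · rwa [coeff_sn hκ, Nat.cast_ne_zero] at ha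
  · rwa [coeff_sn hu, Nat.cast_ne_zero] at ha

theorem isolated {i : I} (h : ∀ j, j ≠ i → D.m x i j = 0) {ρ : I → ℤ} (h1 : Root (bb D x) ρ)
    (h0 : 0 ≤ ρ) : ρ = e i ∨ ρ i = 0 := by
  rcases (h1.map (step D x i).1).sign (isExp_bb D _ i).lg with h2 | h2
  · refine Or.inr (le_antisymm ?_ (h0 i))
    have h3 : 0 ≤ sref (D.m x i) i ρ i := h2 i
    rw [N0.sref_apply, Finset.sum_eq_zero fun j hj => by
      rw [h j (Finset.ne_of_mem_erase hj), Nat.cast_zero, zero_mul]] at h3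
    simp only [e, Pi.add_apply, Pi.smul_apply, Pi.single_eq_same, smul_eq_mul] at h3
    omega
  · exact Or.inl (eq_e_of_se h1.1 h0 h2)

end S6

open S6

variable {I : Type} [Fintype I] [DecidableEq I] {X : Type} [Finite X] (D : RD I X)

theorem RD.finite (x : X) {N : ℕ} (hN0 : 0 < N) (good : (I → ℤ) → Prop)
    (hper : ∀ μ ν, good (μ + (N : ℤ) • ν) ↔ good μ)
    (hcas : ∀ F : (I → ℤ) → ℤ, Cone F → cv F (fun μ => (D.H x μ : ℤ)) = dlt ℤ →
      ∀ μ, F μ ≠ 0 → good μ)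
    (hiso : ∀ i j, j ≠ i → good (e i + e j) → D.m x i j = 0)
    (hhn : HNcut (D.H x)) (hg : PG (D.H x)) : {μ | D.H x μ ≠ 0}.Finite := by
  classical
  rcases isEmpty_or_nonempty I with _ | ⟨⟨i₀⟩⟩
  · exact Set.toFinite _
  refine finite_of_finite_reach i₀ (of_not_not fun hW => ?_)
  obtain ⟨w₁, h₁, w₂, h₂, hne, hf, hw⟩ := exists_congr _ hW
    (fun w => if h : ∃ y, Reach D x y w then h.choose else x) (3 * N) (by omega)
  replace h₁ : ∃ y, Reach D x y w₁ := h₁
  replace h₂ : ∃ y, Reach D x y w₂ := h₂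
  rw [dif_pos h₁, dif_pos h₂] at hf
  have r₁ := h₁.choose_spec
  have r₂ := h₂.choose_spec
  rw [← hf] at r₂
  have hb := isExp_bb D x i₀
  have hs : Sym (w₁.trans w₂.symm) (bb D x) (bb D x) := r₁.sym.trans r₂.sym.symm
  obtain ⟨d, hd⟩ := gr_of_PG (cone_H D x i₀) hg
  have H0 : D.H x 0 = 1 := by
    have := hb.P0
    rwa [coeff_sn (cone_H D x i₀), Nat.cast_eq_one] at this
  obtain ⟨F, hF, -, hF1⟩ := exists_cv_inv (a := fun μ => (D.H x μ : ℤ)) (by simp [H0])
  have hF' : ∀ m, (ser fun m => (F m : ℂ)).coeff m = F m :=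
    coeff_ser fun m hm => hF m (Int.cast_ne_zero.1 hm)
  refine Loop.false (b := bb D x) (H := sn (D.H x)) (w := w₁.trans w₂.symm) (d := d)
    ⟨hb, nat_of_HN hhn hb, hd, hs, fun v k hk h => fixed_of_periodic _ (fun m i =>
      (Dvd.intro _ (by push_cast; rfl)).trans (hw m i)) v k hk h, ?_⟩ hN0
    (fun m i => (Dvd.intro_left _ (by push_cast; rfl)).trans (hw m i)) ?_ (bb_e D x) good
    (F := ser fun m => (F m : ℂ)) ?_ ?_ ?_
  · refine (r₂.inv.1.union (r₁.inv.1.image fun v => -(w₁.trans w₂.symm) v)).subset fun ρ hρ => ?_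
    rcases (hρ.1.map r₂.sym).sign (isExp_bb D _ i₀).lg with h3 | h3
    · refine Or.inr ⟨-(w₁.trans w₂.symm).symm ρ,
        ⟨(hρ.1.map hs.symm).neg, neg_nonneg.2 hρ.2.2, ?_⟩, by simp⟩
      simpa using h3
    · exact Or.inl ⟨hρ.1, hρ.2.1, h3⟩
  · by_contra h3
    push Not at h3
    refine hne (AddEquiv.toAddMonoidHom_injective (AddMonoidHom.toIntLinearMap_injective
      (LinearMap.pi_ext' fun i => LinearMap.ext_ring ?_)))
    simpa [AddEquiv.symm_apply_eq] using h3 i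
  · rw [sn, ← ser_cv]
    ext m
    have h3 : cv (fun m => (F m : ℂ)) (fun m => (D.H x m : ℂ)) m = ((dlt ℤ m : ℤ) : ℂ) := by
      rw [← hF1]
      simp [cv]
    by_cases hm : 0 ≤ m
    · rw [coeff_ser_of hm, h3, HahnSeries.coeff_one, dlt]
      split_ifs <;> simp
    · rw [coeff_ser_of_not hm, of_not_not (mt (Pos.one m) hm)]
  · intro r hr m hm
    choose ν hν using hm
    rw [hF', Int.cast_eq_zero]
    by_contra h3
    refine hr ((hper r ν).1 ?_)
    have : r + (N : ℤ) • ν = m := funext fun i => by simp [← hν i]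
    rw [this]
    exact hcas F hF hF1 m h3
  · exact fun i hi ρ h1 h0 => isolated (fun j hj => hiso i j hj (hi j hj)) h1 h0

end Pool.Agent.Lib.MP_ff61db_al.Pt
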