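import Pool.Agent.Lib.MP_ff61db_al.Pt.Base

/-! The tower of stages: one step and the limit up to a given height. -/

namespace Pool.Agent.Lib.MP_ff61db_al.Pt

open TensorProduct

variable {k : Type} [Field k] {I : Type} [Fintype I] [DecidableEq I]

omit [DecidableEq I] in
theorem step_ht_nonneg {ν : I → ℤ} (h : 0 ≤ ν) : 0 ≤ ht ν := Finset.sum_nonneg fun i _ => h i

omit [DecidableEq I] in
theorem step_ht_pos {ν : I → ℤ} (h : 0 ≤ ν) (h1 : ν ≠ 0) : 0 < ht ν := by
  obtain ⟨i, hi⟩ := Function.ne_iff.mp h1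
  exact Finset.sum_pos' (fun i _ => h i) ⟨i, Finset.mem_univ i, lt_of_le_of_ne (h i) (Ne.symm hi)⟩

omit [DecidableEq I] in
theorem step_le_ht {ν : I → ℤ} (h : 0 ≤ ν) (i : I) : ν i ≤ ht ν :=
  Finset.single_le_sum (f := ν) (fun i _ => h i) (Finset.mem_univ i)

omit [DecidableEq I] in
theorem step_push_nonneg {J : Type} {dg : I → J → ℤ} (h0 : ∀ i, 0 ≤ dg i) {ν : I → ℤ}
    (h : 0 ≤ ν) : 0 ≤ push dg ν :=
  Finset.sum_nonneg fun i _ => smul_nonneg (h i) (h0 i)

omit [DecidableEq I] in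
theorem step_push_ne {J : Type} {dg : I → J → ℤ} (h0 : ∀ i, 0 ≤ dg i) (h1 : ∀ i, dg i ≠ 0)
    {ν : I → ℤ} (h : 0 ≤ ν) (hν : ν ≠ 0) : push dg ν ≠ 0 := by
  obtain ⟨i, hi⟩ := Function.ne_iff.mp hν
  intro e0
  have := (Finset.sum_eq_zero_iff_of_nonneg fun i _ => smul_nonneg (h i) (h0 i)).mp e0 i
    (Finset.mem_univ i)
  exact smul_ne_zero hi (h1 i) this

omit [DecidableEq I] in
theorem step_push_push {A J : Type} [Fintype A] (dg : I → J → ℤ) (f : A → I → ℤ) (m : A → ℤ) :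
    push (fun a => push dg (f a)) m = push dg (push f m) := by
  show ∑ a, m a • push dg (f a) = push dg (∑ a, m a • f a)
  simp only [map_sum, map_zsmul]

omit [Fintype I] in
theorem step_e_nonneg (i : I) : 0 ≤ e i := by simpa using deg_nonneg [i]

omit [Fintype I] in
theorem step_e_ne (i : I) : e i ≠ 0 := fun h => by simpa [e] using congrFun h i

omit [Fintype I] in
theorem step_e_inj {i j : I} (h : e i = e j) : i = j := by
  by_contra hne
  simpa [e, hne] using congrFun h i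

omit [DecidableEq I] in
theorem step_psh {J : Type} [Fintype J] [DecidableEq I] {dg : I → J → ℤ} (h0 : ∀ i, 0 ≤ dg i)
    (h1 : ∀ i, dg i ≠ 0) (a : (I → ℤ) → ℕ) (ν : J → ℤ) :
    psh dg a ν = ∑ μ ∈ (finite_fibre h0 h1 ν).toFinset, a μ :=
  finsum_mem_eq_finite_toFinset_sum a _

theorem step_psh_mono {J : Type} [Fintype J] {dg : I → J → ℤ} (h0 : ∀ i, 0 ≤ dg i)
    (h1 : ∀ i, dg i ≠ 0) {a b : (I → ℤ) → ℕ} (h : ∀ μ, a μ ≤ b μ) (ν : J → ℤ) :
    psh dg a ν ≤ psh dg b ν := by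
  rw [step_psh h0 h1, step_psh h0 h1]
  exact Finset.sum_le_sum fun μ _ => h μ

namespace PN
variable {q : I → I → kˣ} {R : Type} [Ring R] [Algebra k R] (P : PN k q R)

theorem step_hil_e (h : P.Alive) (i : I) : P.hil (e i) = 1 := by
  have : {l : List I | deg l = e i} = {[i]} := Set.ext fun l => deg_eq_e
  rw [hil, piece, wsp, this, Set.image_singleton, wd_cons, wd_nil, mul_one]
  exact finrank_span_singleton (h i)

/-- A new primitive element. -/
theorem step_prim (h : P.Alive) {w : (I → ℤ) →+ ℤ} (hw : ∀ ν, 0 ≤ ν → ν ≠ 0 → 0 < w ν)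
    {μ : I → ℤ} (hμ : P.hil μ ≠ hN q μ) (hmin : ∀ ν, w ν < w μ → P.hil ν = hN q ν) :
    ∃ p ∈ P.piece μ, p ≠ 0 ∧ 0 ≤ μ ∧ μ ≠ 0 ∧ (∀ i, μ ≠ e i) ∧ P.D p = p ⊗ₜ 1 + 1 ⊗ₜ p := by
  have hR := P.JS_rco h Set.univ
  have hS : ∀ ν, P.hilS (P.JS Set.univ) ν + hN q ν = P.hil ν := fun ν => by
    rw [← P.JS_hilQ h Set.univ ν fun _ _ => trivial, P.hilS_add_hilQ]
  generalize P.JS Set.univ = N at hR hS
  have h1 : N ⊓ P.piece μ ≠ ⊥ := fun e0 => hμ (by
    rw [← hS, hilS, e0, finrank_bot, zero_add])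
  obtain ⟨p, ⟨pN, pμ⟩, p0⟩ := Submodule.exists_mem_ne_zero_of_ne_bot h1
  have μ0 : 0 ≤ μ := by
    by_contra hn
    rw [P.piece_bot hn] at pμ
    exact p0 pμ
  have μ1 : μ ≠ 0 := by
    rintro rfl
    apply p0
    rw [← P.mem_piece.mp pμ, P.pr_zero, hR.eps p pN, zero_smul]
  refine ⟨p, pμ, p0, μ0, μ1, fun i hi => hμ (by rw [hi, P.step_hil_e h, hN_e]), ?_⟩
  obtain ⟨U, hU, hc⟩ := P.exists_compl hR.graded
  have hin : ∀ ν, w ν < w μ → ∀ b ∈ P.piece ν, b ∈ U := by
    intro ν hν b hb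
    have h2 : N ⊓ P.piece ν = ⊥ := by
      have := hS ν
      rw [hmin ν hν, add_eq_right] at this
      exact Submodule.finrank_eq_zero.mp this
    obtain ⟨n, hn, u, hu, rfl⟩ := Submodule.mem_sup.mp (hc.sup_eq_top ▸ Submodule.mem_top (x := b))
    have h3 : P.pr ν n = 0 := (Submodule.mem_bot k).mp (h2 ▸ ⟨hR.graded ν n hn, P.pr_mem ν n⟩)
    rw [← P.mem_piece.mp hb, map_add, h3, zero_add]
    exact hU ν u hu
  let g : (R ⧸ N) →ₗ[k] R := U.subtype ∘ₗ (Submodule.quotientEquivOfIsCompl N U hc).toLinearMap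
  have hg : ∀ b ∈ U, g (N.mkQ b) = b := fun b hb =>
    congrArg Subtype.val (Submodule.quotientEquivOfIsCompl_apply_mk_right hc ⟨b, hb⟩)
  have key : ∀ t ∈ Submodule.span k {t : R ⊗[k] R | ∃ ν b c, ν ≠ 0 ∧ ν ≠ μ ∧ b ∈ P.piece ν ∧
      c ∈ P.piece (μ - ν) ∧ t = b ⊗ₜ c}, map g g (map N.mkQ N.mkQ t) = t := by
    intro t ht
    induction ht using Submodule.span_induction with
    | mem t ht =>
      obtain ⟨ν, b, c, n0, n1, hb, hc', rfl⟩ := ht
      by_cases a0 : 0 ≤ ν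
      · by_cases a1 : 0 ≤ μ - ν
        · have w1 := hw ν a0 n0
          have w2 := hw (μ - ν) a1 (sub_ne_zero.mpr n1.symm)
          have w3 := map_sub w μ ν
          rw [map_tmul, map_tmul, hg b (hin ν (by omega) b hb), hg c (hin _ (by omega) c hc')]
        · rw [P.piece_bot a1] at hc'
          simp [(Submodule.mem_bot k).mp hc']
      · rw [P.piece_bot a0] at hb
        simp [(Submodule.mem_bot k).mp hb]
    | zero => simp
    | add a b _ _ ha hb => rw [map_add, map_add, ha, hb]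
    | smul c a _ ha => rw [map_smul, map_smul, ha]
  have h4 := key _ (P.D_red pμ μ1)
  have h5 : N.mkQ p = 0 := (Submodule.Quotient.mk_eq_zero N).mpr pN
  have h6 : map N.mkQ N.mkQ (P.D p - p ⊗ₜ 1 - 1 ⊗ₜ p) = 0 := by
    rw [map_sub, map_sub, hR.coid p pN, map_tmul, map_tmul, h5, zero_tmul, tmul_zero, sub_zero,
      sub_zero]
  rw [h6, map_zero, sub_sub] at h4
  exact sub_eq_zero.mp h4.symm

theorem step_wd_mem {A : Type} [Fintype A] [DecidableEq A] {y : A → R} {f : A → I → ℤ}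
    (hy : ∀ a, y a ∈ P.piece (f a)) (l : List A) : wd y l ∈ P.piece (push f (deg l)) := by
  induction l with
  | nil => simpa using P.one_mem
  | cons a l ih =>
    rw [wd_cons, deg_cons, map_add, push_e]
    exact P.piece_mul (hy a) ih

theorem step_cgr {J : Type} [Fintype J] [DecidableEq J] (dg : I → J → ℤ) {A : Type} [Fintype A]
    [DecidableEq A] {y : A → R} {f : A → I → ℤ} (hy : ∀ a, y a ∈ P.piece (f a)) :
    CGr k (fun a => push dg (f a)) y := by
  obtain ⟨pr, hpr⟩ := P.cgr dg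
  refine ⟨pr, fun ν l => ?_⟩
  rw [step_push_push]
  have hl := P.step_wd_mem hy l
  generalize wd y l = b at hl
  generalize push f (deg l) = m at hl
  induction hl using Submodule.span_induction with
  | mem b hb =>
    obtain ⟨l, hl, rfl⟩ := hb
    rw [hpr, show deg l = m from hl]
  | zero => simp
  | add a b _ _ ha hb => rw [map_add, ha, hb]; split_ifs <;> simp
  | smul c a _ ha => rw [map_smul, ha]; split_ifs <;> simp

end PN

theorem step_map_some {R : Type} [Monoid R] (x : I → R) (p : R) (μ : I → ℤ) (l : List I) :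
    wd (fun a : Option I => a.elim p x) (l.map some) = wd x l ∧
      push (fun a : Option I => a.elim μ e) (deg (l.map some)) = deg l := by
  induction l with
  | nil => simp
  | cons a l ih =>
    rw [List.map_cons, wd_cons, wd_cons, deg_cons, deg_cons, map_add, push_e, ih.1, ih.2]
    exact ⟨rfl, rfl⟩

theorem step_emb (m : I → ℤ) : push (fun i : I => e (some i)) m none = 0 ∧
    ∀ i, push (fun i : I => e (some i)) m (some i) = m i := by
  refine ⟨?_, fun i => ?_⟩
  · show (∑ i, m i • e (some i)) none = 0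
    simp [e]
  · show (∑ i, m i • e (some i)) (some i) = m i
    simp [e, Pi.single_apply]

variable {J : Type} [Fintype J] [DecidableEq J] {q₀ : J → J → kˣ}

theorem Stage.Ext.refl (S : Stage k q₀) : S.Ext S :=
  ⟨⟨Function.Embedding.refl _, fun _ => rfl⟩, rfl, id⟩

theorem Stage.Ext.trans {S S' S'' : Stage k q₀} (h : S.Ext S') (h' : S'.Ext S'') : S.Ext S'' := by
  obtain ⟨⟨f, hf⟩, h1, h2⟩ := h
  obtain ⟨⟨g, hg⟩, h3, h4⟩ := h'
  exact ⟨⟨f.trans g, fun i => (hg (f i)).trans (hf i)⟩, h3.trans h1, fun h => h2 (h4 h)⟩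

theorem Stage.step (S : Stage k q₀) {μ : S.I → ℤ} (hμ : S.P.hil μ ≠ hN S.q μ)
    (hmin : ∀ ν, ht (push S.dg ν) < ht (push S.dg μ) → S.P.hil ν = hN S.q ν) :
    ∃ S' : Stage k q₀, S.Ext S' ∧ (∀ ν, psh S.dg (hN S.q) ν ≤ psh S'.dg (hN S'.q) ν) ∧
      psh S.dg (hN S.q) (push S.dg μ) < psh S'.dg (hN S'.q) (push S.dg μ) := by
  classical
  obtain ⟨p, pμ, p0, μ0, μ1, μ2, hp⟩ := S.P.step_prim S.alive
    (w := AddMonoidHom.mk' (fun ν => ht (push S.dg ν)) fun a b => by rw [map_add, ht_add])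
    (fun ν a b => step_ht_pos (step_push_nonneg S.nonneg a) (step_push_ne S.nonneg S.ne a b))
    hμ hmin
  set y : Option S.I → S.R := fun a => a.elim p S.P.x with hy
  set f : Option S.I → S.I → ℤ := fun a => a.elim μ e with hf
  set dg' : Option S.I → J → ℤ := fun a => push S.dg (f a) with hdg
  have f0 : ∀ a, 0 ≤ f a := by rintro (_ | i); exacts [μ0, step_e_nonneg i]
  have f1 : ∀ a, f a ≠ 0 := by rintro (_ | i); exacts [μ1, step_e_ne i]
  have f2 : ∀ a b, f a = f b → a = b := by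
    rintro (_ | i) (_ | j) h
    exacts [rfl, absurd h (μ2 j), absurd h.symm (μ2 i), congrArg some (step_e_inj h)]
  have y0 : ∀ a, y a ≠ 0 := by rintro (_ | i); exacts [p0, S.alive i]
  have y1 : ∀ a, y a ∈ S.P.piece (f a) := by rintro (_ | i); exacts [pμ, S.P.x_mem i]
  have y2 : ∀ a, S.P.D (y a) = y a ⊗ₜ 1 + 1 ⊗ₜ y a := by rintro (_ | i); exacts [hp, S.P.D_x i]
  have d0 : ∀ a, 0 ≤ dg' a := fun a => step_push_nonneg S.nonneg (f0 a)
  have d1 : ∀ a, dg' a ≠ 0 := fun a => step_push_ne S.nonneg S.ne (f0 a) (f1 a)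
  have d2 : ∀ i, dg' (some i) = S.dg i := fun i => push_e S.dg i
  have : Nontrivial S.R := nontrivial_of_ne p 0 p0
  have hsp : wsp k y Set.univ = ⊤ := by
    refine top_le_iff.mp (S.P.span.ge.trans (Submodule.span_mono ?_))
    rintro _ ⟨l, -, rfl⟩
    exact ⟨l.map some, trivial, (step_map_some S.P.x p μ l).1⟩
  obtain ⟨R', _, _, P', -, c2, -, c4, c5, -⟩ := deg2 (fun a b => chi q₀ (dg' a) (dg' b)) y hsp
    (fun a => ht (dg' a)) (fun _ => 1) (fun a => step_ht_pos (d0 a) (d1 a)) S.P.D fun l => by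
      rw [S.P.D_wd_prim y f y1 y2 l]
      simp only [chi_push, hdg, sub_self, Submodule.zero_mem]
  have alive : P'.Alive := fun a ha => y0 a (by
    have h1 : wsp k y {l | l ≠ [a] ∧ ¬ Low (fun a => ht (dg' a)) (fun _ => 1) (e a) (deg l)} ≤
        LinearMap.ker (S.P.pr (f a)) := by
      refine Submodule.span_le.mpr ?_
      rintro _ ⟨l, ⟨l1, l2⟩, rfl⟩
      refine S.P.pr_of_ne (S.P.step_wd_mem y1 l) fun h => l2 (Or.inr ⟨?_, ?_⟩)
      · rw [← ht_push, ← ht_push, push_e, hdg, step_push_push, h]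
      · have e1 : ∀ m : Option S.I → ℤ, wt (fun _ => 1) m = ht m := fun m => by simp [wt, ht]
        rw [e1, e1, ht_e, ht_deg]
        match l, l1, h with
        | [], _, h => exact absurd (by simpa using h.symm) (f1 a)
        | [b], l1, h => exact absurd (congrArg (fun c => [c]) (f2 b a (by simpa using h))) l1
        | _ :: _ :: _, _, _ => simp only [List.length_cons]; omega
    rw [← S.P.mem_piece.mp (y1 a)]
    exact h1 (c2 a ha))
  have hH : chil k dg' y = chil k S.dg S.P.x := by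
    funext ν
    refine congrArg (fun W : Submodule k S.R => Module.finrank k W) (le_antisymm ?_ ?_)
    · refine Submodule.span_le.mpr ?_
      rintro _ ⟨l, hl, rfl⟩
      refine Submodule.span_mono (Set.image_mono fun l' hl' => ?_) (S.P.step_wd_mem y1 l)
      show push S.dg (deg l') = ν
      rw [show deg l' = _ from hl', ← step_push_push]
      exact hl
    · refine Submodule.span_mono ?_
      rintro _ ⟨l, hl, rfl⟩
      refine ⟨l.map some, ?_, (step_map_some S.P.x p μ l).1⟩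
      show push dg' _ = ν
      rw [hdg, step_push_push, (step_map_some S.P.x p μ l).2]
      exact hl
  let S' : Stage k q₀ :=
    { I := Option S.I, dg := dg', nonneg := d0, ne := d1, R := R', P := P', alive := alive
      orig := fun j => (S.orig j).elim fun i hi => ⟨some i, (d2 i).trans hi⟩ }
  let em : (S.I → ℤ) → Option S.I → ℤ := push fun i => e (some i)
  have em1 : Function.Injective em := fun a b h => funext fun i => by
    rw [← (step_emb a).2 i, ← (step_emb b).2 i]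
    exact congrFun h _
  have em2 : ∀ ν, psh S.dg (hN S.q) ν =
      ∑ m ∈ (finite_fibre S.nonneg S.ne ν).toFinset.image em, hN S'.q m := fun ν => by
    rw [step_psh S.nonneg S.ne, Finset.sum_image fun a _ b _ h => em1 h]
    refine Finset.sum_congr rfl fun m hm => ?_
    have h1 := hN_emb Function.Embedding.some S'.q m ((Set.Finite.mem_toFinset _).mp hm).1
    refine Eq.trans ?_ h1.symm
    congr 1
    funext a b
    show chi q₀ (S.dg a) (S.dg b) = chi q₀ (dg' (some a)) (dg' (some b))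
    rw [d2, d2]
  have em3 : ∀ ν, (finite_fibre S.nonneg S.ne ν).toFinset.image em ⊆
      (finite_fibre d0 d1 ν).toFinset := fun ν m hm => by
    obtain ⟨m, hm', rfl⟩ := Finset.mem_image.mp hm
    obtain ⟨m0, m1⟩ := (Set.Finite.mem_toFinset _).mp hm'
    refine (Set.Finite.mem_toFinset _).mpr ⟨step_push_nonneg (fun i => step_e_nonneg _) m0, ?_⟩
    rw [← m1, ← step_push_push]
    simp only [push_e, d2]
  refine ⟨S', ⟨⟨Function.Embedding.some, d2⟩,
    (c4 J dg' d0 d1 (S.P.step_cgr S.dg y1)).trans hH, c5⟩, fun ν => ?_, ?_⟩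
  · rw [em2]
    exact (Finset.sum_le_sum_of_subset (em3 ν)).trans (step_psh d0 d1 _ ν).ge
  · rw [em2]
    refine lt_of_lt_of_le (Finset.sum_lt_sum_of_subset (em3 _) (i := e none) ?_ ?_ ?_
      fun _ _ _ => Nat.zero_le _) (step_psh d0 d1 _ _).ge
    · exact (Set.Finite.mem_toFinset _).mpr ⟨step_e_nonneg _, push_e dg' none⟩
    · intro h
      obtain ⟨m, -, hm⟩ := Finset.mem_image.mp h
      have := (step_emb m).1.symm.trans (congrFun hm none)
      simp [e] at this
    · rw [hN_e]; exact one_pos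

theorem Stage.tower (S : Stage k q₀) (n : ℤ) : ∃ S' : Stage k q₀, S.Ext S' ∧
    ∀ ν, ht ν ≤ n → S'.H ν = psh S'.dg (hN S'.q) ν := by
  classical
  have hH : ∀ S : Stage k q₀, S.H = psh S.dg S.P.hil := fun S => S.P.chil_eq S.nonneg S.ne
  have hle : ∀ (S : Stage k q₀) μ, hN S.q μ ≤ S.P.hil μ := fun S μ => S.P.hN_le S.alive μ
  generalize hm : ∑ ν ∈ Finset.Icc (0 : J → ℤ) (fun _ => n),
    (S.H ν - psh S.dg (hN S.q) ν) = m
  induction m using Nat.strong_induction_on generalizing S with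
  | _ m ih =>
  by_cases hall : ∀ ν, ht ν ≤ n → S.H ν = psh S.dg (hN S.q) ν
  · exact ⟨S, Stage.Ext.refl S, hall⟩
  push Not at hall
  obtain ⟨ν, hν, hne⟩ := hall
  obtain ⟨μ1, h1, h2⟩ : ∃ μ, push S.dg μ = ν ∧ S.P.hil μ ≠ hN S.q μ := by
    by_contra hn
    push Not at hn
    exact hne (by rw [hH]; exact finsum_mem_congr rfl fun μ hμ => hn μ hμ.2)
  have pos : ∀ μ, S.P.hil μ ≠ hN S.q μ → 0 ≤ push S.dg μ := fun μ h =>
    step_push_nonneg S.nonneg (S.P.hil_cone μ (by have := hle S μ; omega))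
  obtain ⟨μ, hμ, hmin⟩ := (InvImage.wf (fun μ => (ht (push S.dg μ)).toNat)
    Nat.lt_wfRel.wf).has_min {μ | S.P.hil μ ≠ hN S.q μ} ⟨μ1, h2⟩
  have hmin' : ∀ μ', S.P.hil μ' ≠ hN S.q μ' → ht (push S.dg μ) ≤ ht (push S.dg μ') := by
    intro μ' h
    have a1 : ¬ (ht (push S.dg μ')).toNat < (ht (push S.dg μ)).toNat := hmin μ' h
    have a2 := step_ht_nonneg (pos μ' h)
    omega
  obtain ⟨S1, e1, l1, l2⟩ := S.step hμ fun μ' h => by
    by_contra hn
    exact (hmin' μ' hn).not_gt h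
  obtain ⟨S2, e2, h3⟩ := ih _ (by
    rw [← hm, e1.2.1]
    refine Finset.sum_lt_sum (fun ν _ => Nat.sub_le_sub_left (l1 ν) _) ⟨push S.dg μ,
      Finset.mem_Icc.mpr ⟨pos μ hμ, fun j => ?_⟩, ?_⟩
    · exact (step_le_ht (pos μ hμ) j).trans ((hmin' μ1 h2).trans (h1 ▸ hν))
    · have a1 := step_psh_mono S1.nonneg S1.ne (hle S1) (push S.dg μ)
      rw [← hH, e1.2.1] at a1
      omega) S1 rfl
  exact ⟨S2, e1.trans e2, h3⟩

end Pool.Agent.Lib.MP_ff61db_al.Pt
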