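import Pool.Agent.Lib.MP_ff61db_al.Pt.Base

/-! The support of the coinvariants over a set of letters whose complement is isolated. -/

namespace Pool.Agent.Lib.MP_ff61db_al.Pt

open TensorProduct

variable {k : Type} [Field k] {I : Type} [Fintype I] [DecidableEq I]

/-- The skew derivation on a product whose left factor is a letter. -/
theorem PN.del_x_mul {q : I → I → kˣ} {R : Type} [Ring R] [Algebra k R] (P : PN k q R)
    (h : P.Alive) (s i : I) {b : R} {ν : I → ℤ} (hb : b ∈ P.piece ν) :
    P.del s (P.x i * b) =
      P.x i * P.del s b + if i = s then ((chi q (e s) ν : kˣ) : k) • b else 0 := by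
  rw [P.del_mul h s _ hb, P.del_x h]
  split_ifs <;> simp

/-- Two skew derivations at letters with trivial double braiding commute up to a scalar. -/
theorem PN.del_del_comm {q : I → I → kˣ} {R : Type} [Ring R] [Algebra k R] (P : PN k q R)
    (h : P.Alive) {t j : I} (hne : j ≠ t) (hq : q t j * q j t = 1) (a : R) :
    P.del t (P.del j a) = ((q j t : kˣ) : k) • P.del j (P.del t a) := by
  have key : P.del t ∘ₗ P.del j = ((q j t : kˣ) : k) • (P.del j ∘ₗ P.del t) := by
    refine P.hom_ext fun l => ?_
    simp only [LinearMap.comp_apply, LinearMap.smul_apply]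
    induction l with
    | nil => simp [P.del_one]
    | cons i l ih =>
      have hw := P.wd_mem l
      have h1 : chi q (e j) (deg l) = q j t * chi q (e j) (deg l - e t) := by
        rw [← chi_e_e q j t, ← chi_add_right, add_sub_cancel]
      have h2 : chi q (e t) (deg l - e j) = q j t * chi q (e t) (deg l) := by
        have h3 : chi q (e t) (deg l) = q t j * chi q (e t) (deg l - e j) := by
          rw [← chi_e_e q t j, ← chi_add_right, add_sub_cancel]
        rw [h3, ← mul_assoc, mul_comm (q j t), hq, one_mul]
      rw [wd_cons, P.del_x_mul h j i hw, P.del_x_mul h t i hw, map_add, map_add,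
        P.del_x_mul h t i (P.del_mem j hw), P.del_x_mul h j i (P.del_mem t hw), ih, h1, h2]
      by_cases hij : i = j
      · have hit : i ≠ t := hij ▸ hne
        simp only [if_pos hij, if_neg hit, map_smul, map_zero, add_zero, smul_add, smul_smul,
          mul_smul_comm, Units.val_mul]
      · by_cases hit : i = t
        · simp only [if_pos hit, if_neg hij, map_smul, map_zero, add_zero, smul_add, smul_smul,
            mul_smul_comm, Units.val_mul]
        · simp only [if_neg hit, if_neg hij, map_zero, add_zero, mul_smul_comm]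
  exact LinearMap.congr_fun key a

theorem PN.Nich.coinv_supp {q : I → I → kˣ} {R : Type} [Ring R] [Algebra k R] {P : PN k q R}
    (h : P.Nich) (A : Set I) (hA : ∀ t, t ∉ A → ∀ j, j ≠ t → q t j * q j t = 1) {μ : I → ℤ}
    (hμ : P.hilS (P.coinv (P.JS A)) μ ≠ 0) (i : I) (hi : i ∈ A) : μ i = 0 := by
  have key : ∀ (n : ℕ) (ν : I → ℤ), ht ν < n → ν i ≠ 0 → ∀ a ∈ P.piece ν,
      (∀ j ∈ A, P.del j a = 0) → a = 0 := by
    intro n
    induction n with
    | zero =>
      intro ν hν _ a ha _
      have h0 : ¬ 0 ≤ ν := fun h0 =>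
        absurd hν (not_lt.2 (by simpa [ht] using Finset.sum_nonneg fun s _ => h0 s))
      rwa [P.piece_bot h0, Submodule.mem_bot] at ha
    | succ n ih =>
      intro ν hν hi0 a ha hd
      refine h.2 a (P.eps_piece ha fun h0 => hi0 (by rw [h0]; rfl)) fun t => ?_
      by_cases ht' : t ∈ A
      · exact hd t ht'
      have hit : i ≠ t := fun h0 => ht' (h0 ▸ hi)
      refine ih (ν - e t) ?_ ?_ _ (P.del_mem t ha) fun j hj => ?_
      · have h1 := ht_add (ν - e t) (e t)
        rw [sub_add_cancel, ht_e] at h1
        push_cast at hν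
        omega
      · simpa [e, Pi.single_eq_of_ne hit] using hi0
      · have hjt : j ≠ t := fun h0 => ht' (h0 ▸ hj)
        have h1 := P.del_del_comm h.1 hjt (hA t ht' j hjt) a
        rw [hd j hj, map_zero] at h1
        exact (smul_eq_zero.1 h1.symm).resolve_left (Units.ne_zero _)
  by_contra hi0
  apply hμ
  have hb : (P.coinv (P.JS A) ⊓ P.piece μ : Submodule k R) = ⊥ := by
    rw [eq_bot_iff]
    intro a ha
    rw [Submodule.mem_bot]
    exact key ((ht μ).toNat + 1) μ (by push_cast; omega) hi0 a ha.2
      ((P.mem_coinv_JS h.1 A a).1 ha.1)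
  unfold PN.hilS
  rw [hb, finrank_bot]

end Pool.Agent.Lib.MP_ff61db_al.Pt
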