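import Pool.Agent.Lib.MP_ff61db_al.Pt.St
import Pool.Agent.Lib.MP_ff61db_al.Pt.Step
import Pool.Agent.Lib.MP_ff61db_al.Pt.Supp

/-! The letters outside the radical: their number, and the degrees of the coinvariants. -/

set_option autoImplicit false

namespace Pool.Agent.Lib.MP_ff61db_al.Pt

variable {k : Type} [Field k] {I : Type} [Fintype I] [DecidableEq I] {N : ℕ}

variable {J : Type} [Fintype J] [DecidableEq J] {q₀ : J → J → kˣ}

theorem Stage.nt_le (p : ℕ) [Fact p.Prime] [CharP k p] (hN0 : 0 < N)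
    (h : ∀ i j, q₀ i j ^ N = 1) (S : Stage k q₀) (hg : PG S.H) :
    S.nt.ncard ≤ 3 * N ^ Fintype.card J := by
  classical
  have hP : PG S.P.hil := PG.of_psh S.nonneg S.ne S.P.hil_cone (S.P.chil_eq S.nonneg S.ne ▸ hg)
  have hq : ∀ i j, S.q i j ^ N = 1 := fun i j => chi_pow q₀ h _ _
  have hfin := hN_finite p hN0 S.q hq (hP.mono (S.P.hN_le S.alive))
  by_contra hlt
  have : NeZero N := ⟨hN0.ne'⟩
  obtain ⟨c, -, hc⟩ := Finset.exists_lt_card_fiber_of_mul_lt_card_of_maps_to (s := S.nt.toFinset)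
    (t := Finset.univ) (f := fun i j => (S.dg i j : ZMod N)) (n := 3) (fun _ _ => Finset.mem_univ _)
    (by
      rw [Finset.card_univ, Fintype.card_fun, ZMod.card, ← Set.ncard_eq_toFinset_card', mul_comm]
      omega)
  obtain ⟨y, hy⟩ := Function.Embedding.exists_of_card_le_finset (α := Fin 4)
    ((Fintype.card_fin 4).le.trans hc)
  have hy' := fun a => Finset.mem_filter.1 (Finset.mem_coe.1 (hy ⟨a, rfl⟩))
  have key : ∀ a b, ∃ ν : J → ℤ, S.dg (y a) = S.dg (y b) + (N : ℤ) • ν := fun a b => by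
    choose ν hν using fun j => (ZMod.intCast_eq_intCast_iff_dvd_sub _ _ N).1
      (congrFun ((hy' b).2.trans (hy' a).2.symm) j)
    exact ⟨ν, funext fun j => eq_add_of_sub_eq' (hν j)⟩
  refine Set.mem_toFinset.1 (hy' 0).1 fun j => ?_
  obtain ⟨i, hi⟩ := S.orig j
  rw [← hi]
  refine st p hN0 S.q hq hfin y (fun a b j => ?_) (fun a b j => ?_) i <;>
    obtain ⟨ν, hν⟩ := key a b
  · rw [Stage.q, hν, chi_add_left, chi_smul_left, zpow_natCast, chi_pow q₀ h, mul_one, Stage.q]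
  · rw [Stage.q, hν, chi_add_right, chi_smul_right, zpow_natCast, chi_pow q₀ h, mul_one, Stage.q]

section emb
variable {I' : Type} [DecidableEq I'] (f : I ↪ I')

theorem rad_apply (m : I → ℤ) (i : I) : push (fun i => e (f i)) m (f i) = m i := by
  simp [push, e, Pi.single_apply]

omit [DecidableEq I] in
theorem rad_off (m : I → ℤ) {j : I'} (h : ∀ i, f i ≠ j) : push (fun i => e (f i)) m j = 0 := by
  simp [push, e, fun i => (h i).symm]

omit [DecidableEq I] [Fintype J] [DecidableEq J] in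
theorem rad_push [Fintype I'] (dg : I' → J → ℤ) (m : I → ℤ) :
    push dg (push (fun i => e (f i)) m) = push (fun i => dg (f i)) m := by
  change push dg (∑ i, m i • e (f i)) = ∑ i, m i • dg (f i)
  simp only [map_sum, map_zsmul, push_e]

omit [Fintype J] [DecidableEq J] in
theorem rad_psh [Fintype I'] (dg : I' → J → ℤ) {U : (I → ℤ) → ℕ} {U' : (I' → ℤ) → ℕ}
    (h1 : ∀ m, 0 ≤ m → U' (push (fun i => e (f i)) m) = U m)
    (h2 : ∀ m j, U' m ≠ 0 → m j ≠ 0 → ∃ i, f i = j) : psh (fun i => dg (f i)) U = psh dg U' := by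
  funext ν
  have inj : Function.Injective (push fun i => e (f i)) := fun m m' h => funext fun i => by
    rw [← rad_apply f m, h, rad_apply]
  unfold psh
  rw [finsum_mem_inter_support_eq' U' _
    ((push fun i => e (f i)) '' {μ | 0 ≤ μ ∧ push (fun i => dg (f i)) μ = ν}) fun m hm => ?_,
    finsum_mem_image inj.injOn]
  · exact finsum_mem_congr rfl fun m hm => (h1 m hm.1).symm
  · have e1 : push (fun i => e (f i)) (fun i => m (f i)) = m := funext fun j => by
      by_cases hj : ∃ i, f i = j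
      · obtain ⟨i, rfl⟩ := hj
        exact rad_apply f _ i
      · rw [rad_off f _ (not_exists.1 hj)]
        exact by_contra fun h => hj (h2 m j hm (Ne.symm h))
    constructor
    · exact fun h => ⟨_, ⟨fun i => h.1 (f i), by rw [← rad_push, e1, h.2]⟩, e1⟩
    · rintro ⟨μ, h, rfl⟩
      refine ⟨fun j => ?_, by rw [rad_push, h.2]⟩
      by_cases hj : ∃ i, f i = j
      · obtain ⟨i, rfl⟩ := hj
        rw [rad_apply]
        exact h.1 i
      · exact (rad_off f _ (not_exists.1 hj)).ge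

end emb

theorem Stage.rad (S : Stage k q₀) (hmax : ∀ S', S.Ext S' → S'.nt.ncard ≤ S.nt.ncard)
    {μ : S.I → ℤ} (hμ : S.P.hilS (S.P.coinv (S.P.JS S.nt)) μ ≠ 0) : Rad q₀ (push S.dg μ) := by
  have h0 : 0 ≤ μ := by_contra fun h => hμ (by rw [PN.hilS, S.P.piece_bot h, inf_bot_eq, finrank_bot])
  obtain ⟨S', hE, hT⟩ := S.tower (ht (push S.dg μ))
  have hm := hmax S' hE
  obtain ⟨⟨f, hf⟩, hH, -⟩ := hE
  have mem : ∀ i, f i ∈ S'.nt ↔ i ∈ S.nt := fun i => by simp only [Stage.nt, Set.mem_ofPred_eq, hf]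
  have onto : f '' S.nt = S'.nt := Set.eq_of_subset_of_ncard_le
    (by rintro _ ⟨i, hi, rfl⟩; exact (mem i).2 hi)
    (by rwa [Set.ncard_image_of_injective _ f.injective])
  obtain ⟨B⟩ := exists_NP S'.q
  have e1 := S.P.mm_hil (S.P.JS_rco S.alive S.nt)
  have e2 := B.P.mm_hil (B.P.JS_rco B.nich.1 S'.nt)
  have e3 : psh S.dg (S.P.hilQ (S.P.JS S.nt)) = psh S'.dg (B.P.hilQ (B.P.JS S'.nt)) := by
    rw [← rad_psh f S'.dg (U := S.P.hilQ (S.P.JS S.nt)) (fun m hm => ?_) fun m j h1 h2 => ?_]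
    · simp only [hf]
    · by_cases hs : ∀ i, m i ≠ 0 → i ∈ S.nt
      · rw [S.P.JS_hilQ S.alive _ _ hs, B.P.JS_hilQ B.nich.1 _ _ fun j hj => ?_, hN_emb f _ _ hm]
        · simp only [Stage.q, hf]
        · obtain ⟨i, rfl⟩ : ∃ i, f i = j := by_contra fun h => hj (rad_off f _ (not_exists.1 h))
          exact (mem i).2 (hs i (by rwa [rad_apply] at hj))
      · obtain ⟨i, h1, h2⟩ : ∃ i, m i ≠ 0 ∧ i ∉ S.nt := by simpa using hs
        rw [S.P.JS_hilQ_zero S.alive _ _ h1 h2, B.P.JS_hilQ_zero B.nich.1 _ _ (i := f i)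
          (by rwa [rad_apply]) (mt (mem i).1 h2)]
    · obtain ⟨i, -, hi⟩ : j ∈ f '' S.nt :=
        onto ▸ by_contra fun h => h1 (B.P.JS_hilQ_zero B.nich.1 _ _ h2 h)
      exact ⟨i, hi⟩
  have e4 := cv_cancel (a := psh S.dg (S.P.hilS (S.P.coinv (S.P.JS S.nt))))
    (a' := psh S'.dg (B.P.hilS (B.P.coinv (B.P.JS S'.nt))))
    (b := psh S'.dg (B.P.hilQ (B.P.JS S'.nt)))
    (by rw [psh_zero S'.nonneg S'.ne, B.P.JS_hilQ B.nich.1 _ 0 fun _ h => absurd rfl h,
      ← B.nich.hil_eq, B.P.hil_zero]) (ht (push S.dg μ))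
    (fun ν hν => by
      rw [← psh_cv S'.nonneg S'.ne, ← e2, B.nich.hil_eq, ← hT ν hν, hH, ← e3,
        ← psh_cv S.nonneg S.ne, ← e1, Stage.H, S.P.chil_eq S.nonneg S.ne])
    (push S.dg μ) (Finset.sum_nonneg fun i _ => smul_nonneg (h0 i) (S.nonneg i)) le_rfl
  obtain ⟨m, -, h1, h2⟩ := (psh_ne_zero S'.nonneg S'.ne _ _).1
    (e4 ▸ (psh_ne_zero S.nonneg S.ne _ _).2 ⟨μ, h0, rfl, hμ⟩)
  have h3 := B.nich.coinv_supp S'.nt (fun t ht j _ => Rad.chi (not_not.1 ht) _) h2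
  rw [← h1]
  refine Finset.sum_induction _ (Rad q₀) (fun _ _ => Rad.add) (fun j => by simp) fun i _ j => ?_
  by_cases hi : i ∈ S'.nt
  · simp [h3 i hi]
  · rw [chi_smul_left, chi_smul_right, ← mul_zpow, (not_not.1 hi : Rad _ _) j, one_zpow]

end Pool.Agent.Lib.MP_ff61db_al.Pt
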