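import Pool.Agent.Lib.MP_ff61db_al.Pt.RfG
import Pool.Agent.Lib.MP_ff61db_al.Pt.Nich

/-! Reflection block: exit statement. -/

namespace Pool.Agent.Lib.MP_ff61db_al.Pt

variable {k : Type} [Field k] {I : Type} [Fintype I] [DecidableEq I]

theorem refl_hN (q : I → I → kˣ) (h : Tor q) (i : I) :
    ReflDat (hN q) (hN (rq i q)) (mm q i) (hh q i) i :=
  refl_hN_of q h i (exists_NP q) (exists_NP _)

end Pool.Agent.Lib.MP_ff61db_al.Pt
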