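import Mathlib

/-! Reflection block, part A: abstract graded operator data and the upper bound lemma. -/

namespace Pool.Agent.Lib.MP_ff61db_al.Pt.Rf

open Module

variable {k : Type*} [Field k] {I : Type*} [DecidableEq I]

/-- unit vector -/
def ev (i : I) : I → ℤ := Pi.single i 1

/-- degree of a word -/
def dg (l : List I) : I → ℤ := (l.map ev).sum

/-- bicharacter -/
structure Bi (χ : (I → ℤ) → (I → ℤ) → k) : Prop where
  add_l : ∀ a b c, χ (a + b) c = χ a c * χ b c
  add_r : ∀ a b c, χ a (b + c) = χ a b * χ a c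
  ne : ∀ a b, χ a b ≠ 0

/-- graded algebra with skew derivations, nondegenerate -/
structure NS (χ : (I → ℤ) → (I → ℤ) → k) (B : Type*) [Ring B] [Algebra k B] where
  x : I → B
  gr : (I → ℤ) → Submodule k B
  del : I → B →ₗ[k] B
  d : I → B →ₗ[k] B
  one_mem : (1 : B) ∈ gr 0
  x_mem : ∀ i, x i ∈ gr (ev i)
  mul_mem : ∀ {μ ν a b}, a ∈ gr μ → b ∈ gr ν → a * b ∈ gr (μ + ν)
  span : ∀ μ, gr μ ≤ Submodule.span k {b | ∃ l : List I, dg l = μ ∧ (l.map x).prod = b}
  del_mem : ∀ i {μ a}, a ∈ gr μ → del i a ∈ gr (μ - ev i)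
  d_mem : ∀ i {μ a}, a ∈ gr μ → d i a ∈ gr (μ - ev i)
  del_mul : ∀ i (a : B) {ν b}, b ∈ gr ν →
    del i (a * b) = a * del i b + χ (ev i) ν • (del i a * b)
  d_mul : ∀ i {μ a} (b : B), a ∈ gr μ →
    d i (a * b) = d i a * b + χ μ (ev i) • (a * d i b)
  del_x : ∀ i j, del i (x j) = if i = j then 1 else 0
  d_x : ∀ i j, d i (x j) = if i = j then 1 else 0
  del_one : ∀ i, del i 1 = 0
  comm : ∀ i j a, d i (del j a) = del j (d i a)
  nd : ∀ {μ a}, a ∈ gr μ → μ ≠ 0 → (∀ j, del j a = 0) → a = 0
  one_ne : (1 : B) ≠ 0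
  fd : ∀ μ, FiniteDimensional k (gr μ)

namespace Bi
variable {χ : (I → ℤ) → (I → ℤ) → k}

omit [DecidableEq I] in
theorem zero_l (h : Bi χ) (c : I → ℤ) : χ 0 c = 1 := by
  have h1 := h.add_l 0 0 c
  rw [add_zero] at h1
  exact (mul_eq_left₀ (h.ne 0 c)).1 h1.symm

omit [DecidableEq I] in
theorem zero_r (h : Bi χ) (c : I → ℤ) : χ c 0 = 1 := by
  have h1 := h.add_r c 0 0
  rw [add_zero] at h1
  exact (mul_eq_left₀ (h.ne c 0)).1 h1.symm

omit [DecidableEq I] in
theorem nsmul_l (h : Bi χ) (n : ℕ) (a c : I → ℤ) : χ (n • a) c = χ a c ^ n := by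
  induction n with
  | zero => simp [h.zero_l]
  | succ n ih => rw [succ_nsmul, h.add_l, ih, pow_succ]

omit [DecidableEq I] in
theorem nsmul_r (h : Bi χ) (n : ℕ) (a c : I → ℤ) : χ c (n • a) = χ c a ^ n := by
  induction n with
  | zero => simp [h.zero_r]
  | succ n ih => rw [succ_nsmul, h.add_r, ih, pow_succ]

omit [DecidableEq I] in
theorem neg_l (h : Bi χ) (a c : I → ℤ) : χ (-a) c = (χ a c)⁻¹ := by
  have h1 := h.add_l a (-a) c
  rw [add_neg_cancel, h.zero_l] at h1
  exact eq_inv_of_mul_eq_one_right h1.symm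

omit [DecidableEq I] in
theorem neg_r (h : Bi χ) (a c : I → ℤ) : χ c (-a) = (χ c a)⁻¹ := by
  have h1 := h.add_r c a (-a)
  rw [add_neg_cancel, h.zero_r] at h1
  exact eq_inv_of_mul_eq_one_right h1.symm

omit [DecidableEq I] in
theorem sub_r (h : Bi χ) (c a b : I → ℤ) : χ c (a - b) = χ c a * (χ c b)⁻¹ := by
  rw [sub_eq_add_neg, h.add_r, h.neg_r]

end Bi

theorem dg_nil : dg ([] : List I) = 0 := rfl

theorem dg_cons (i : I) (l : List I) : dg (i :: l) = ev i + dg l := by
  simp [dg]

theorem dg_nonneg (l : List I) : 0 ≤ dg l := by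
  induction l with
  | nil => exact le_rfl
  | cons i l ih =>
    rw [dg_cons]
    refine add_nonneg ?_ ih
    intro j
    by_cases h : j = i
    · subst h; simp [ev]
    · simp [ev, h]

theorem dg_eq_zero {l : List I} (h : dg l = 0) : l = [] := by
  cases l with
  | nil => rfl
  | cons i l =>
    exfalso
    have h1 := congrFun h i
    have h2 := dg_nonneg l i
    rw [dg_cons] at h1
    simp [ev] at h1 h2
    omega

theorem sum_dg [Fintype I] (l : List I) : ∑ j, dg l j = l.length := by
  induction l with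
  | nil => simp [dg_nil]
  | cons i l ih =>
    rw [dg_cons]
    simp only [Pi.add_apply, Finset.sum_add_distrib, ih, List.length_cons]
    have : ∑ j, ev i j = 1 := by simp [ev]
    rw [this]; push_cast; ring

namespace NS
variable {χ : (I → ℤ) → (I → ℤ) → k} {B : Type*} [Ring B] [Algebra k B]

theorem wd_mem (S : NS χ B) (l : List I) : (l.map S.x).prod ∈ S.gr (dg l) := by
  induction l with
  | nil => exact S.one_mem
  | cons i l ih =>
    rw [dg_cons, List.map_cons, List.prod_cons]
    exact S.mul_mem (S.x_mem i) ih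

theorem del_x_mul (S : NS χ B) (j l : I) {ν : I → ℤ} {b : B} (hb : b ∈ S.gr ν) :
    S.del j (S.x l * b) = S.x l * S.del j b + (if j = l then χ (ev j) ν else 0) • b := by
  rw [S.del_mul j _ hb, S.del_x]
  by_cases h : j = l <;> simp [h]

/-- Upper bound: a module with operators satisfying the commutation rule dominates the
nondegenerate algebra in every degree. -/
theorem univ [Fintype I] (S : NS χ B) {M : Type*} [AddCommGroup M] [Module k M]
    (Mg : (I → ℤ) → Submodule k M) (X : I → M →ₗ[k] M) (D : I → (I → ℤ) → M →ₗ[k] M) (v : M)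
    (hv : v ∈ Mg 0) (hv0 : v ≠ 0) (hX : ∀ l μ y, y ∈ Mg μ → X l y ∈ Mg (ev l + μ))
    (hD : ∀ j l μ y, y ∈ Mg μ → D j (ev l + μ) (X l y) =
      X l (D j μ y) + (if j = l then χ (ev j) μ else 0) • y)
    (hDv : ∀ j, D j 0 v = 0) (μ : I → ℤ) [FiniteDimensional k (Mg μ)] :
    finrank k (S.gr μ) ≤ finrank k (Mg μ) := by
  classical
  let act : List I → M := fun l => l.foldr (fun i y => X i y) v
  have act_mem : ∀ l, act l ∈ Mg (dg l) := by
    intro l
    induction l with
    | nil => exact hv
    | cons i l ih => rw [dg_cons]; exact hX i _ _ ih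
  let N : (I → ℤ) → Submodule k (M × B) := fun ν =>
    Submodule.span k {p | ∃ l : List I, dg l = ν ∧ (act l, (l.map S.x).prod) = p}
  have hXN : ∀ i ν p, p ∈ N ν → (X i p.1, S.x i * p.2) ∈ N (ev i + ν) := by
    intro i ν p hp
    have : N ν ≤ (N (ev i + ν)).comap ((X i).prodMap (LinearMap.mulLeft k (S.x i))) := by
      refine Submodule.span_le.2 ?_
      rintro p ⟨l, hl, rfl⟩
      refine Submodule.subset_span ⟨i :: l, by rw [dg_cons, hl], ?_⟩
      simp [act]
    exact this hp
  have hDw : ∀ j (l : List I),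
      (D j (dg l) (act l), S.del j (l.map S.x).prod) ∈ N (dg l - ev j) := by
    intro j l
    induction l with
    | nil =>
      have : (D j (dg ([] : List I)) (act []), S.del j (([] : List I).map S.x).prod) = 0 := by
        simp [act, dg_nil, hDv, S.del_one]
      rw [this]; exact Submodule.zero_mem _
    | cons i l ih =>
      have e1 : D j (dg (i :: l)) (act (i :: l)) =
          X i (D j (dg l) (act l)) + (if j = i then χ (ev j) (dg l) else 0) • act l := by
        rw [dg_cons]; exact hD j i _ _ (act_mem l)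
      have e2 : S.del j ((i :: l).map S.x).prod = S.x i * S.del j (l.map S.x).prod +
          (if j = i then χ (ev j) (dg l) else 0) • (l.map S.x).prod := by
        rw [List.map_cons, List.prod_cons]; exact S.del_x_mul j i (S.wd_mem l)
      rw [e1, e2]
      have e3 : dg (i :: l) - ev j = ev i + (dg l - ev j) := by rw [dg_cons]; abel
      have m1 := hXN i _ _ ih
      rw [← e3] at m1
      have m2 : (if j = i then χ (ev j) (dg l) else 0) • (act l, (l.map S.x).prod) ∈
          N (dg (i :: l) - ev j) := by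
        by_cases h : j = i
        · subst h
          refine Submodule.smul_mem _ _ (Submodule.subset_span ⟨l, ?_, rfl⟩)
          rw [dg_cons]; abel
        · simp [h]
      exact Submodule.add_mem _ m1 m2
  have hDN : ∀ j ν p, p ∈ N ν → (D j ν p.1, S.del j p.2) ∈ N (ν - ev j) := by
    intro j ν p hp
    have : N ν ≤ (N (ν - ev j)).comap ((D j ν).prodMap (S.del j)) := by
      refine Submodule.span_le.2 ?_
      rintro p ⟨l, hl, rfl⟩
      subst hl
      exact hDw j l
    exact this hp
  have hN1 : ∀ ν p, p ∈ N ν → p.1 ∈ Mg ν := by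
    intro ν p hp
    have : N ν ≤ (Mg ν).comap (LinearMap.fst k M B) := by
      refine Submodule.span_le.2 ?_
      rintro p ⟨l, hl, rfl⟩
      subst hl
      exact act_mem l
    exact this hp
  have hN2 : ∀ ν p, p ∈ N ν → p.2 ∈ S.gr ν := by
    intro ν p hp
    have : N ν ≤ (S.gr ν).comap (LinearMap.snd k M B) := by
      refine Submodule.span_le.2 ?_
      rintro p ⟨l, hl, rfl⟩
      subst hl
      exact S.wd_mem l
    exact this hp
  have key : ∀ (n : ℕ) (ν : I → ℤ), ∑ j, ν j < n → ∀ p, p ∈ N ν → p.1 = 0 → p.2 = 0 := by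
    intro n
    induction n with
    | zero =>
      intro ν hν p hp _
      have : N ν ≤ ⊥ := by
        refine Submodule.span_le.2 ?_
        rintro p ⟨l, hl, rfl⟩
        exfalso
        rw [← hl, sum_dg] at hν
        omega
      have := this hp
      rw [Submodule.mem_bot] at this
      rw [this]; rfl
    | succ n ih =>
      intro ν hν p hp h0
      by_cases hz : ν = 0
      · have : N ν ≤ Submodule.span k {((v, 1) : M × B)} := by
          refine Submodule.span_le.2 ?_
          rintro p ⟨l, hl, rfl⟩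
          rw [hz] at hl
          rw [dg_eq_zero hl]
          exact Submodule.subset_span rfl
        obtain ⟨c, hc⟩ := Submodule.mem_span_singleton.1 (this hp)
        rw [← hc] at h0 ⊢
        have hc0 : c = 0 := by
          simpa [hv0] using h0
        simp [hc0]
      · refine S.nd (hN2 ν p hp) hz fun j => ?_
        refine ih (ν - ev j) ?_ _ (hDN j ν p hp) (by simp [h0])
        have : ∑ l, ev j l = 1 := by simp [ev]
        simp only [Pi.sub_apply, Finset.sum_sub_distrib, this]
        push_cast at hν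
        omega
  let f : N μ →ₗ[k] Mg μ :=
    ((LinearMap.fst k M B).domRestrict (N μ)).codRestrict (Mg μ) fun p => hN1 μ p.1 p.2
  have finj : Function.Injective f := by
    rw [← LinearMap.ker_eq_bot, LinearMap.ker_eq_bot']
    intro p hp
    have h1 : p.1.1 = 0 := congrArg Subtype.val hp
    have h2 := key ((∑ j, μ j).toNat + 1) μ (by push_cast; omega) p.1 p.2 h1
    exact Subtype.ext (Prod.ext h1 h2)
  have : FiniteDimensional k (N μ) := FiniteDimensional.of_injective f finj
  have hle : S.gr μ ≤ (N μ).map (LinearMap.snd k M B) := by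
    refine (S.span μ).trans (Submodule.span_le.2 ?_)
    rintro b ⟨l, hl, rfl⟩
    exact ⟨(act l, (l.map S.x).prod), Submodule.subset_span ⟨l, hl, rfl⟩, rfl⟩
  calc finrank k (S.gr μ) ≤ finrank k ((N μ).map (LinearMap.snd k M B)) :=
        Submodule.finrank_mono hle
    _ ≤ finrank k (N μ) := Submodule.finrank_map_le _ _
    _ ≤ finrank k (Mg μ) := LinearMap.finrank_le_finrank_of_injective finj

end NS

end Pool.Agent.Lib.MP_ff61db_al.Pt.Rf
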