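import Pool.Agent.Lib.MP_ff61db_al.Pt.RfA

/-! Reflection block, part B: powers of one letter, the adjoint action, the new derivations. -/

namespace Pool.Agent.Lib.MP_ff61db_al.Pt.Rf

open Module

variable {k : Type*} [Field k] {I : Type*} [DecidableEq I]

/-- q-number -/
def qn (q : k) (n : ℕ) : k := ∑ t ∈ Finset.range n, q ^ t

theorem qn_zero (q : k) : qn q 0 = 0 := by simp [qn]

theorem qn_succ (q : k) (n : ℕ) : qn q (n + 1) = qn q n + q ^ n := by
  simp [qn, Finset.sum_range_succ]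

theorem qn_succ' (q : k) (n : ℕ) : qn q (n + 1) = q * qn q n + 1 := by
  simp [qn, Finset.sum_range_succ', Finset.mul_sum, pow_succ']

theorem pow_eq_one_of_qn {q : k} {n : ℕ} (h : qn q n = 0) : q ^ n = 1 := by
  have h1 := qn_succ q n
  rw [qn_succ', h] at h1
  simpa using h1.symm

theorem ev_ne_zero (i : I) : ev i ≠ 0 := by
  intro h
  have := congrFun h i
  simp [ev] at this

namespace NS
variable {χ : (I → ℤ) → (I → ℤ) → k} {B : Type*} [Ring B] [Algebra k B]

theorem pow_mem (S : NS χ B) (i : I) (n : ℕ) : S.x i ^ n ∈ S.gr (n • ev i) := by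
  induction n with
  | zero => simpa using S.one_mem
  | succ n ih =>
    rw [pow_succ, succ_nsmul]
    exact S.mul_mem ih (S.x_mem i)

theorem del_pow (S : NS χ B) (hχ : Bi χ) (i : I) (n : ℕ) :
    S.del i (S.x i ^ (n + 1)) = qn (χ (ev i) (ev i)) (n + 1) • S.x i ^ n := by
  induction n with
  | zero => simp [S.del_x, qn]
  | succ n ih =>
    rw [pow_succ' (S.x i) (n + 1), S.del_x_mul i i (S.pow_mem i (n + 1)), ih, if_pos rfl,
      hχ.nsmul_r, mul_smul_comm, ← pow_succ', qn_succ _ (n + 1), add_smul]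

theorem del_pow' (S : NS χ B) (hχ : Bi χ) (i : I) (n : ℕ) :
    S.del i (S.x i ^ n) = qn (χ (ev i) (ev i)) n • S.x i ^ (n - 1) := by
  cases n with
  | zero => simp [S.del_one, qn_zero]
  | succ n => simpa using S.del_pow hχ i n

theorem del_pow_ne (S : NS χ B) {i j : I} (h : j ≠ i) (n : ℕ) : S.del j (S.x i ^ n) = 0 := by
  induction n with
  | zero => simp [S.del_one]
  | succ n ih => rw [pow_succ', S.del_x_mul j i (S.pow_mem i n), ih, if_neg h]; simp

theorem pow_eq_zero (S : NS χ B) (hχ : Bi χ) (i : I) {n : ℕ} (hn : 1 ≤ n)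
    (h : qn (χ (ev i) (ev i)) n = 0) : S.x i ^ n = 0 := by
  refine S.nd (S.pow_mem i n) ?_ fun j => ?_
  · intro h0
    have := congrFun h0 i
    simp [ev] at this
    omega
  · by_cases hj : j = i
    · subst hj; rw [S.del_pow' hχ, h, zero_smul]
    · exact S.del_pow_ne hj n

theorem pow_ne_zero (S : NS χ B) (hχ : Bi χ) (i : I) (n : ℕ)
    (h : ∀ r, 1 ≤ r → r ≤ n → qn (χ (ev i) (ev i)) r ≠ 0) : S.x i ^ n ≠ 0 := by
  induction n with
  | zero => simpa using S.one_ne
  | succ n ih =>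
    intro h0
    have h1 := S.del_pow hχ i n
    rw [h0, map_zero] at h1
    rcases smul_eq_zero.1 h1.symm with h2 | h2
    · exact h (n + 1) (by omega) le_rfl h2
    · exact ih (fun r h1 h2 => h r h1 (by omega)) h2

/-- iterated adjoint action of the letter `i` on the letter `j` -/
def w (S : NS χ B) (i j : I) : ℕ → B
  | 0 => S.x j
  | r + 1 => S.x i * w S i j r - χ (ev i) (ev j + r • ev i) • (w S i j r * S.x i)

/-- the scalars `c_r` -/
def cc (χ : (I → ℤ) → (I → ℤ) → k) (i j : I) (r : ℕ) : k :=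
  ∏ t ∈ Finset.range r, (1 - χ (ev i) (ev i) ^ t * (χ (ev i) (ev j) * χ (ev j) (ev i)))

theorem w_mem (S : NS χ B) (i j : I) (r : ℕ) : S.w i j r ∈ S.gr (ev j + r • ev i) := by
  induction r with
  | zero => simpa [w] using S.x_mem j
  | succ r ih =>
    have e1 : ev j + (r + 1) • ev i = ev i + (ev j + r • ev i) := by rw [succ_nsmul]; abel
    have e2 : ev j + (r + 1) • ev i = (ev j + r • ev i) + ev i := by rw [succ_nsmul]; abel
    refine Submodule.sub_mem _ ?_ (Submodule.smul_mem _ _ ?_)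
    · rw [e1]; exact S.mul_mem (S.x_mem i) ih
    · rw [e2]; exact S.mul_mem ih (S.x_mem i)

theorem del_i_w (S : NS χ B) {i j : I} (h : j ≠ i) (r : ℕ) : S.del i (S.w i j r) = 0 := by
  induction r with
  | zero => simp [w, S.del_x, Ne.symm h]
  | succ r ih =>
    rw [w, map_sub, map_smul, S.del_x_mul i i (S.w_mem i j r), S.del_mul i _ (S.x_mem i), ih,
      S.del_x]
    simp

theorem del_l_w (S : NS χ B) (hχ : Bi χ) {i j l : I} (hl : l ≠ i) (r : ℕ) :
    S.del l (S.w i j r) = (if l = j then cc χ i j r else 0) • S.x i ^ r := by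
  induction r with
  | zero => by_cases h : l = j <;> simp [w, S.del_x, cc, h]
  | succ r ih =>
    rw [w, map_sub, map_smul, S.del_x_mul l i (S.w_mem i j r), S.del_mul l _ (S.x_mem i), ih,
      S.del_x, if_neg hl, if_neg hl]
    by_cases h : l = j
    · subst h
      simp only [if_true, zero_smul, add_zero, mul_zero, zero_add, mul_smul_comm, smul_mul_assoc,
        smul_smul, ← pow_succ, ← pow_succ', ← sub_smul]
      congr 1
      rw [cc, cc, Finset.prod_range_succ, hχ.add_r, hχ.nsmul_r]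
      ring
    · simp [h]

theorem w_eq_zero (S : NS χ B) (hχ : Bi χ) {i j : I} (h : j ≠ i) {m : ℕ}
    (hm : qn (χ (ev i) (ev i)) (m + 1) *
      (1 - χ (ev i) (ev i) ^ m * (χ (ev i) (ev j) * χ (ev j) (ev i))) = 0) :
    S.w i j (m + 1) = 0 := by
  refine S.nd (S.w_mem i j (m + 1)) ?_ fun l => ?_
  · intro h0
    have := congrFun h0 j
    simp [ev, h] at this
  · by_cases hl : l = i
    · subst hl; exact S.del_i_w h _
    · rw [S.del_l_w hχ hl]
      by_cases hj : l = j
      · rw [if_pos hj]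
        rcases mul_eq_zero.1 hm with h1 | h1
        · rw [S.pow_eq_zero hχ i (by omega) h1, smul_zero]
        · rw [cc, Finset.prod_range_succ, h1]; simp
      · simp [hj]

/-- iterated skew commutators of the derivations -/
def Dr (S : NS χ B) (i j : I) : ℕ → B →ₗ[k] B
  | 0 => S.del j
  | r + 1 => S.del i ∘ₗ Dr S i j r - χ (ev j + r • ev i) (ev i) • (Dr S i j r ∘ₗ S.del i)

theorem Dr_succ (S : NS χ B) (i j : I) (r : ℕ) (y : B) : S.Dr i j (r + 1) y =
    S.del i (S.Dr i j r y) - χ (ev j + r • ev i) (ev i) • S.Dr i j r (S.del i y) := rfl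

theorem Dr_mem (S : NS χ B) (i j : I) (r : ℕ) : ∀ {μ : I → ℤ} {y : B}, y ∈ S.gr μ →
    S.Dr i j r y ∈ S.gr (μ - (ev j + r • ev i)) := by
  induction r with
  | zero => intro μ y hy; simpa [Dr] using S.del_mem j hy
  | succ r ih =>
    intro μ y hy
    rw [Dr_succ]
    refine Submodule.sub_mem _ ?_ (Submodule.smul_mem _ _ ?_)
    · have e : μ - (ev j + (r + 1) • ev i) = μ - (ev j + r • ev i) - ev i := by
        rw [succ_nsmul]; abel
      rw [e]; exact S.del_mem i (ih hy)
    · have e : μ - (ev j + (r + 1) • ev i) = μ - ev i - (ev j + r • ev i) := by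
        rw [succ_nsmul]; abel
      rw [e]; exact ih (S.del_mem i hy)

theorem d_Dr (S : NS χ B) (i j l : I) (r : ℕ) : ∀ y : B,
    S.d l (S.Dr i j r y) = S.Dr i j r (S.d l y) := by
  induction r with
  | zero => intro y; exact S.comm l j y
  | succ r ih =>
    intro y
    rw [Dr_succ, Dr_succ, map_sub, map_smul, S.comm, ih, ih, S.comm]

theorem Dr_pow (S : NS χ B) (hχ : Bi χ) {i j : I} (h : j ≠ i) (r : ℕ) : ∀ n : ℕ,
    S.Dr i j r (S.x i ^ n) = 0 := by
  induction r with
  | zero => intro n; exact S.del_pow_ne h n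
  | succ r ih =>
    intro n
    rw [Dr_succ, ih, S.del_pow' hχ, map_smul, ih]
    simp

/-- falling q-factorial -/
def ff (q : k) (m r : ℕ) : k := ∏ t ∈ Finset.range r, qn q (m - t)

theorem Dr_mul (S : NS χ B) (hχ : Bi χ) (i j : I) {a : B} {c : k} {m : ℕ}
    (hi : S.del i a = 0) (hj : S.del j a = c • S.x i ^ m) (r : ℕ) :
    ∀ {μ : I → ℤ} {y : B}, y ∈ S.gr μ → S.Dr i j r (a * y) = a * S.Dr i j r y +
      (c * ff (χ (ev i) (ev i)) m r * χ (ev j + r • ev i) μ) • (S.x i ^ (m - r) * y) := by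
  induction r with
  | zero =>
    intro μ y hy
    have := S.del_mul j a hy
    rw [hj] at this
    simp only [Dr, ff, Finset.range_zero, Finset.prod_empty, mul_one, zero_smul, add_zero,
      Nat.sub_zero, this, smul_mul_assoc, smul_smul]
    rw [mul_comm]
  | succ r ih =>
    intro μ y hy
    have h1 : ∀ {ν : I → ℤ} {z : B}, z ∈ S.gr ν → S.del i (a * z) = a * S.del i z := by
      intro ν z hz
      rw [S.del_mul i a hz, hi]; simp
    rw [Dr_succ, Dr_succ, ih hy, h1 hy, ih (S.del_mem i hy), map_add, map_smul,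
      h1 (S.Dr_mem i j r hy), S.del_mul i _ hy, S.del_pow' hχ]
    have e1 : χ (ev j + r • ev i) (μ - ev i) =
        χ (ev j + r • ev i) μ * (χ (ev j + r • ev i) (ev i))⁻¹ := hχ.sub_r _ _ _
    have e2 : χ (ev j + (r + 1) • ev i) μ = χ (ev j + r • ev i) μ * χ (ev i) μ := by
      rw [succ_nsmul, ← add_assoc, hχ.add_l]
    have e3 : ff (χ (ev i) (ev i)) m (r + 1) =
        ff (χ (ev i) (ev i)) m r * qn (χ (ev i) (ev i)) (m - r) := by
      rw [ff, Finset.prod_range_succ]; rfl
    have e4 : m - (r + 1) = m - r - 1 := by omega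
    have hne := hχ.ne (ev j + r • ev i) (ev i)
    rw [e1, e2, e3, e4]
    simp only [mul_sub, smul_add, mul_smul_comm, smul_mul_assoc, smul_smul]
    have e5 : χ (ev j + r • ev i) (ev i) * (c * ff (χ (ev i) (ev i)) m r *
        (χ (ev j + r • ev i) μ * (χ (ev j + r • ev i) (ev i))⁻¹)) =
        c * ff (χ (ev i) (ev i)) m r * χ (ev j + r • ev i) μ := by
      field_simp
    rw [e5]
    have e6 : c * ff (χ (ev i) (ev i)) m r * χ (ev j + r • ev i) μ *
        (χ (ev i) μ * qn (χ (ev i) (ev i)) (m - r)) =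
        c * (ff (χ (ev i) (ev i)) m r * qn (χ (ev i) (ev i)) (m - r)) *
          (χ (ev j + r • ev i) μ * χ (ev i) μ) := by ring
    rw [e6]
    abel

end NS

end Pool.Agent.Lib.MP_ff61db_al.Pt.Rf
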