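import Pool.Agent.Lib.MP_ff61db_al.Pt.RfB

/-! Reflection block, part C: the inequality, the splitting along one letter, the numerics. -/

namespace Pool.Agent.Lib.MP_ff61db_al.Pt.Rf

open Module

variable {k : Type*} [Field k] {I : Type*} [DecidableEq I]

/-- the data of a reflection at `i` -/
structure RData (χ : (I → ℤ) → (I → ℤ) → k) (i : I) (h : ℕ) (m : I → ℕ) : Prop where
  h1 : 1 ≤ h
  hh : qn (χ (ev i) (ev i)) h = 0
  hlt : ∀ r, 1 ≤ r → r < h → qn (χ (ev i) (ev i)) r ≠ 0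
  hm : ∀ j, j ≠ i → qn (χ (ev i) (ev i)) (m j + 1) *
    (1 - χ (ev i) (ev i) ^ m j * (χ (ev i) (ev j) * χ (ev j) (ev i))) = 0
  mlt : ∀ j, j ≠ i → ∀ r, r < m j → qn (χ (ev i) (ev i)) (r + 1) *
    (1 - χ (ev i) (ev i) ^ r * (χ (ev i) (ev j) * χ (ev j) (ev i))) ≠ 0

/-- the reflection map -/
structure SMap (i : I) (m : I → ℕ) (s : (I → ℤ) → (I → ℤ)) : Prop where
  add : ∀ a b, s (a + b) = s a + s b
  si : s (ev i) = -ev i
  sj : ∀ j, j ≠ i → s (ev j) = ev j + m j • ev i
  ss : ∀ a, s (s a) = a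

namespace SMap
variable {i : I} {m : I → ℕ} {s : (I → ℤ) → (I → ℤ)}

theorem zero (hs : SMap i m s) : s 0 = 0 := by
  have := hs.add 0 0
  rw [add_zero] at this
  exact left_eq_add.1 this

theorem nsmul (hs : SMap i m s) (n : ℕ) (a : I → ℤ) : s (n • a) = n • s a := by
  induction n with
  | zero => simp [hs.zero]
  | succ n ih => rw [succ_nsmul, hs.add, ih, succ_nsmul]

theorem sub (hs : SMap i m s) (a b : I → ℤ) : s (a - b) = s a - s b := by
  have := hs.add (a - b) b
  rw [sub_add_cancel] at this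
  rw [this]; abel

end SMap

theorem RData.refl {χ χ' : (I → ℤ) → (I → ℤ) → k} {i : I} {h : ℕ} {m : I → ℕ}
    {s : (I → ℤ) → (I → ℤ)} (hχ : Bi χ) (R : RData χ i h m) (hs : SMap i m s)
    (hc : ∀ a b, χ' a b = χ (s a) (s b)) : RData χ' i h m := by
  have hq : χ' (ev i) (ev i) = χ (ev i) (ev i) := by
    rw [hc, hs.si, hχ.neg_l, hχ.neg_r, inv_inv]
  have hq0 := hχ.ne (ev i) (ev i)
  have hσ : ∀ j, j ≠ i → χ' (ev i) (ev j) * χ' (ev j) (ev i) =
      (χ (ev i) (ev j) * χ (ev j) (ev i) * χ (ev i) (ev i) ^ (2 * m j))⁻¹ := by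
    intro j hj
    rw [hc, hc, hs.si, hs.sj j hj, hχ.neg_l, hχ.neg_r, hχ.add_l, hχ.add_r, hχ.nsmul_l,
      hχ.nsmul_r, ← mul_inv]
    congr 1
    ring
  have hA : ∀ j, j ≠ i → χ (ev i) (ev i) ^ m j * (χ (ev i) (ev j) * χ (ev j) (ev i)) = 1 →
      χ' (ev i) (ev j) * χ' (ev j) (ev i) = χ (ev i) (ev j) * χ (ev j) (ev i) := by
    intro j hj h1
    rw [hσ j hj]
    refine inv_eq_of_mul_eq_one_right ?_
    calc _ = (χ (ev i) (ev i) ^ m j * (χ (ev i) (ev j) * χ (ev j) (ev i))) ^ 2 := by ring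
      _ = 1 := by rw [h1, one_pow]
  refine ⟨R.h1, by rw [hq]; exact R.hh, by rw [hq]; exact R.hlt, fun j hj => ?_,
    fun j hj r hr => ?_⟩
  · rw [hq]
    rcases mul_eq_zero.1 (R.hm j hj) with h1 | h1
    · rw [h1, zero_mul]
    · rw [hA j hj (sub_eq_zero.1 h1).symm, h1, mul_zero]
  · rw [hq]
    by_cases h1 : χ (ev i) (ev i) ^ m j * (χ (ev i) (ev j) * χ (ev j) (ev i)) = 1
    · rw [hA j hj h1]; exact R.mlt j hj r hr
    · have h2 : qn (χ (ev i) (ev i)) (m j + 1) = 0 :=
        (mul_eq_zero.1 (R.hm j hj)).resolve_right fun h3 => h1 (sub_eq_zero.1 h3).symm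
      have h3 := pow_eq_one_of_qn h2
      refine mul_ne_zero (left_ne_zero_of_mul (R.mlt j hj r hr)) fun h4 => ?_
      rw [hσ j hj] at h4
      have hne : χ (ev i) (ev j) * χ (ev j) (ev i) * χ (ev i) (ev i) ^ (2 * m j) ≠ 0 :=
        mul_ne_zero (mul_ne_zero (hχ.ne _ _) (hχ.ne _ _)) (pow_ne_zero _ hq0)
      have h5 : χ (ev i) (ev j) * χ (ev j) (ev i) * χ (ev i) (ev i) ^ (2 * m j) =
          χ (ev i) (ev i) ^ r := by
        have := (sub_eq_zero.1 h4).symm
        rw [mul_inv_eq_one₀ hne] at this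
        exact this.symm
      have h6 : χ (ev i) (ev i) ^ (2 * m j + (m j + 1 - r)) *
          (χ (ev i) (ev j) * χ (ev j) (ev i)) = 1 := by
        calc _ = χ (ev i) (ev j) * χ (ev j) (ev i) * χ (ev i) (ev i) ^ (2 * m j) *
              χ (ev i) (ev i) ^ (m j + 1 - r) := by ring
          _ = χ (ev i) (ev i) ^ (m j + 1) := by
              rw [h5, ← pow_add]; congr 1; omega
          _ = 1 := h3
      rw [pow_eq_pow_mod _ h3] at h6
      have h7 : (2 * m j + (m j + 1 - r)) % (m j + 1) < m j + 1 := Nat.mod_lt _ (by omega)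
      rcases Nat.lt_succ_iff_lt_or_eq.1 h7 with h8 | h8
      · exact right_ne_zero_of_mul (R.mlt j hj _ h8) (by rw [h6, sub_self])
      · rw [h8] at h6; exact h1 h6

namespace NS
variable {χ χ' : (I → ℤ) → (I → ℤ) → k} {B : Type*} [Ring B] [Algebra k B]
  {B' : Type*} [Ring B'] [Algebra k B']

theorem refl_le [Fintype I] (S : NS χ B) (S' : NS χ' B') (hχ : Bi χ) {i : I} {h : ℕ}
    {m : I → ℕ} {s : (I → ℤ) → (I → ℤ)} (R : RData χ i h m) (hs : SMap i m s)
    (hc : ∀ a b, χ' a b = χ (s a) (s b)) (μ : I → ℤ) :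
    finrank k (S'.gr μ) ≤ finrank k (S.gr (s μ + (h - 1) • ev i)) := by
  have hq0 := hχ.ne (ev i) (ev i)
  have hqh : χ (ev i) (ev i) * χ (ev i) (ev i) ^ (h - 1) = 1 := by
    rw [← pow_succ', Nat.sub_add_cancel R.h1]; exact pow_eq_one_of_qn R.hh
  let X : I → B →ₗ[k] B := fun l =>
    if l = i then S.d i else LinearMap.mulLeft k (S.w i l (m l))
  let D : I → (I → ℤ) → B →ₗ[k] B := fun j ν =>
    if j = i then (-(χ (ev i) (ev i) * χ (ev i) (s ν + (h - 1) • ev i))⁻¹) •
      LinearMap.mulLeft k (S.x i)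
    else (χ (ev j + m j • ev i) (ev i) ^ (h - 1) *
      (cc χ i j (m j) * ff (χ (ev i) (ev i)) (m j) (m j)))⁻¹ • S.Dr i j (m j)
  have ei : ∀ ν, s (ev i + ν) + (h - 1) • ev i = s ν + (h - 1) • ev i - ev i := by
    intro ν; rw [hs.add, hs.si]; abel
  have el : ∀ l, l ≠ i → ∀ ν, s (ev l + ν) + (h - 1) • ev i =
      (ev l + m l • ev i) + (s ν + (h - 1) • ev i) := by
    intro l hl ν; rw [hs.add, hs.sj l hl]; abel
  have := S.fd (s μ + (h - 1) • ev i)
  refine S'.univ (fun ν => S.gr (s ν + (h - 1) • ev i)) X D (S.x i ^ (h - 1)) ?_ ?_ ?_ ?_ ?_ μ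
  · show _ ∈ S.gr (s 0 + (h - 1) • ev i)
    rw [hs.zero, zero_add]; exact S.pow_mem i _
  · exact S.pow_ne_zero hχ i _ fun r h1 h2 => R.hlt r h1 (by have := R.h1; omega)
  · intro l ν y hy
    by_cases hl : l = i
    · subst hl
      simp only [X, if_true]
      rw [ei]; exact S.d_mem l hy
    · simp only [X, if_neg hl, LinearMap.mulLeft_apply]
      rw [el l hl]; exact S.mul_mem (S.w_mem i l _) hy
  · intro j l ν y hy
    by_cases hj : j = i
    · subst hj
      by_cases hl : l = j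
      · subst hl
        simp only [X, D, if_true, LinearMap.smul_apply, LinearMap.mulLeft_apply, map_smul]
        rw [S.d_mul l y (S.x_mem l), S.d_x, if_pos rfl, one_mul, ei, hχ.sub_r, hc, hs.si,
          hχ.neg_l, hχ.add_r, hχ.nsmul_r, smul_add, smul_smul]
        have hn := hχ.ne (ev l) (s ν)
        have e1 : χ (ev l) (ev l) * (χ (ev l) (s ν) * χ (ev l) (ev l) ^ (h - 1)) =
            χ (ev l) (s ν) := by
          rw [mul_left_comm, hqh, mul_one]
        have e2 : -(χ (ev l) (ev l) * (χ (ev l) (s ν) * χ (ev l) (ev l) ^ (h - 1) *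
            (χ (ev l) (ev l))⁻¹))⁻¹ = -(χ (ev l) (s ν))⁻¹ * χ (ev l) (ev l) := by
          rw [← mul_assoc, e1]; field_simp
        rw [e2, e1, neg_smul]
        abel
      · have hw := S.w_eq_zero hχ hl (R.hm l hl)
        rw [w, sub_eq_zero] at hw
        simp only [X, D, if_true, if_neg hl, if_neg (Ne.symm hl), LinearMap.smul_apply,
          LinearMap.mulLeft_apply, zero_smul, add_zero, mul_smul_comm]
        rw [← mul_assoc, hw, smul_mul_assoc, smul_smul, mul_assoc, el l hl,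
          hχ.add_r (ev j) (ev l + m l • ev j)]
        congr 1
        have h1 := hχ.ne (ev j) (ev l + m l • ev j)
        have h2 := hχ.ne (ev j) (s ν + (h - 1) • ev j)
        field_simp
    · by_cases hl : l = i
      · subst hl
        simp only [X, D, if_true, if_neg hj, LinearMap.smul_apply, map_smul, zero_smul, add_zero]
        rw [S.d_Dr]
      · simp only [X, D, if_neg hl, if_neg hj, LinearMap.smul_apply, LinearMap.mulLeft_apply,
          mul_smul_comm]
        rw [S.Dr_mul hχ i j (S.del_i_w hl _) (S.del_l_w hχ hj _) (m j) hy, smul_add, smul_smul]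
        congr 1
        by_cases hjl : j = l
        · subst hjl
          rw [if_pos rfl, if_pos rfl, Nat.sub_self, pow_zero, one_mul, hc, hs.sj j hj,
            hχ.add_r, hχ.nsmul_r]
          congr 1
          have h1 := hχ.ne (ev j + m j • ev i) (ev i)
          have h2 : cc χ i j (m j) ≠ 0 :=
            Finset.prod_ne_zero_iff.2 fun r hr =>
              right_ne_zero_of_mul (R.mlt j hj r (Finset.mem_range.1 hr))
          have h3 : ff (χ (ev i) (ev i)) (m j) (m j) ≠ 0 := by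
            refine Finset.prod_ne_zero_iff.2 fun r hr => ?_
            have hr' := Finset.mem_range.1 hr
            have := left_ne_zero_of_mul (R.mlt j hj (m j - r - 1) (by omega))
            rwa [show m j - r - 1 + 1 = m j - r by omega] at this
          field_simp
        · simp [hjl]
  · intro j
    by_cases hj : j = i
    · subst hj
      simp only [D, if_true, LinearMap.smul_apply, LinearMap.mulLeft_apply]
      rw [← pow_succ', Nat.sub_add_cancel R.h1, S.pow_eq_zero hχ j R.h1 R.hh, smul_zero]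
    · simp only [D, if_neg hj, LinearMap.smul_apply]
      rw [S.Dr_pow hχ hj, smul_zero]

end NS

end Pool.Agent.Lib.MP_ff61db_al.Pt.Rf
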