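import Pool.Agent.Lib.MP_ff61db_al.Pt.RfC

/-! Reflection block, part D: splitting along one letter and the two Hilbert identities. -/

namespace Pool.Agent.Lib.MP_ff61db_al.Pt.Rf

open Module

variable {k : Type*} [Field k] {I : Type*} [DecidableEq I]

namespace NS
variable {χ χ' : (I → ℤ) → (I → ℤ) → k} {B : Type*} [Ring B] [Algebra k B]
  {B' : Type*} [Ring B'] [Algebra k B']

theorem delp_succ (S : NS χ B) (i : I) (n : ℕ) (y : B) :
    (S.del i ^ (n + 1)) y = S.del i ((S.del i ^ n) y) := by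
  rw [pow_succ', Module.End.mul_apply]

theorem delp_mem (S : NS χ B) (i : I) (n : ℕ) {μ : I → ℤ} {y : B} (hy : y ∈ S.gr μ) :
    (S.del i ^ n) y ∈ S.gr (μ - n • ev i) := by
  induction n with
  | zero => simpa using hy
  | succ n ih =>
    have e : μ - (n + 1) • ev i = μ - n • ev i - ev i := by rw [succ_nsmul]; abel
    rw [delp_succ, e]; exact S.del_mem i ih

theorem delp_ne (S : NS χ B) {i l : I} (hl : i ≠ l) (n : ℕ) {μ : I → ℤ} {y : B}
    (hy : y ∈ S.gr μ) : (S.del i ^ n) (S.x l * y) = S.x l * (S.del i ^ n) y := by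
  induction n with
  | zero => simp
  | succ n ih =>
    rw [delp_succ, delp_succ, ih, S.del_x_mul i l (S.delp_mem i n hy), if_neg hl]; simp

theorem delp_eq (S : NS χ B) (hχ : Bi χ) (i : I) (n : ℕ) {μ : I → ℤ} {y : B}
    (hy : y ∈ S.gr μ) : χ (ev i) (ev i) ^ n • (S.del i ^ (n + 1)) (S.x i * y) =
      χ (ev i) (ev i) ^ n • (S.x i * (S.del i ^ (n + 1)) y) +
        (qn (χ (ev i) (ev i)) (n + 1) * χ (ev i) μ) • (S.del i ^ n) y := by
  induction n with
  | zero => simp [S.del_x_mul i i hy, qn]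
  | succ n ih =>
    have h1 := congrArg (S.del i) ih
    rw [map_smul, map_add, map_smul, map_smul, ← delp_succ, ← delp_succ,
      S.del_x_mul i i (S.delp_mem i (n + 1) hy), ← delp_succ, if_pos rfl, hχ.sub_r,
      hχ.nsmul_r] at h1
    have hq0 := hχ.ne (ev i) (ev i)
    rw [pow_succ' (χ (ev i) (ev i)) n, mul_smul, h1, qn_succ' _ (n + 1)]
    simp only [smul_add, smul_smul, add_assoc, ← add_smul]
    congr 2
    field_simp
    ring

theorem delp_zero (S : NS χ B) (hχ : Bi χ) (i : I) {h : ℕ} (h1 : 1 ≤ h)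
    (hh : qn (χ (ev i) (ev i)) h = 0) {μ : I → ℤ} {y : B} (hy : y ∈ S.gr μ) :
    (S.del i ^ h) y = 0 := by
  obtain ⟨n, rfl⟩ : ∃ n, h = n + 1 := ⟨h - 1, by omega⟩
  have hw : ∀ l : List I, (S.del i ^ (n + 1)) (l.map S.x).prod = 0 := by
    intro l
    induction l with
    | nil => rw [pow_succ, Module.End.mul_apply]; simp [S.del_one]
    | cons j l ih =>
      rw [List.map_cons, List.prod_cons]
      by_cases hj : i = j
      · subst hj
        have := S.delp_eq hχ i n (S.wd_mem l)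
        rw [ih, hh] at this
        simp only [mul_zero, smul_zero, zero_mul, zero_smul, add_zero] at this
        exact (smul_eq_zero.1 this).resolve_left (_root_.pow_ne_zero _ (hχ.ne _ _))
      · rw [S.delp_ne hj _ (S.wd_mem l), ih, mul_zero]
  have : S.gr μ ≤ LinearMap.ker (S.del i ^ (n + 1)) := by
    refine (S.span μ).trans (Submodule.span_le.2 ?_)
    rintro b ⟨l, -, rfl⟩
    exact hw l
  exact this hy

theorem delp_mul_pow (S : NS χ B) (hχ : Bi χ) (i : I) {z : B} (hz : S.del i z = 0) (n t : ℕ) :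
    (S.del i ^ t) (z * S.x i ^ n) = ff (χ (ev i) (ev i)) n t • (z * S.x i ^ (n - t)) := by
  induction t with
  | zero => simp [ff]
  | succ t ih =>
    rw [delp_succ, ih, map_smul, S.del_mul i z (S.pow_mem i _), hz, S.del_pow' hχ, ff, ff,
      Finset.prod_range_succ, show n - (t + 1) = n - t - 1 by omega]
    simp [smul_smul]

/-- dimension of the kernel of one derivation in one degree -/
noncomputable def kap (S : NS χ B) (i : I) (μ : I → ℤ) : ℕ :=
  finrank k (S.gr μ ⊓ LinearMap.ker (S.del i) : Submodule k B)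

theorem step (S : NS χ B) (hχ : Bi χ) (i : I) (n : ℕ)
    (hn : ∀ r, 1 ≤ r → r ≤ n → qn (χ (ev i) (ev i)) r ≠ 0) (μ : I → ℤ) :
    finrank k (S.gr μ ⊓ LinearMap.ker (S.del i ^ (n + 1)) : Submodule k B) =
      finrank k (S.gr μ ⊓ LinearMap.ker (S.del i ^ n) : Submodule k B) +
        S.kap i (μ - n • ev i) := by
  have := S.fd μ
  set V : Submodule k B := S.gr μ ⊓ LinearMap.ker (S.del i ^ (n + 1)) with hV
  have : FiniteDimensional k V := Submodule.finiteDimensional_of_le inf_le_left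
  have h0 := LinearMap.finrank_range_add_finrank_ker ((S.del i ^ n).domRestrict V)
  have hr : LinearMap.range ((S.del i ^ n).domRestrict V) =
      S.gr (μ - n • ev i) ⊓ LinearMap.ker (S.del i) := by
    apply le_antisymm
    · rintro _ ⟨y, rfl⟩
      refine ⟨S.delp_mem i n y.2.1, ?_⟩
      have := y.2.2
      rw [SetLike.mem_coe, LinearMap.mem_ker, delp_succ] at this
      exact this
    · rintro z ⟨hz1, hz2⟩
      have hf : ff (χ (ev i) (ev i)) n n ≠ 0 :=
        Finset.prod_ne_zero_iff.2 fun r hr => by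
          have := Finset.mem_range.1 hr
          exact hn _ (by omega) (by omega)
      have hy : z * S.x i ^ n ∈ V := by
        refine ⟨?_, ?_⟩
        · have := S.mul_mem hz1 (S.pow_mem i n)
          rwa [sub_add_cancel] at this
        · rw [SetLike.mem_coe, LinearMap.mem_ker, S.delp_mul_pow hχ i hz2, ff,
            Finset.prod_range_succ, Nat.sub_self, qn_zero]
          simp
      refine ⟨(ff (χ (ev i) (ev i)) n n)⁻¹ • ⟨_, hy⟩, ?_⟩
      rw [map_smul, LinearMap.domRestrict_apply, S.delp_mul_pow hχ i hz2, smul_smul,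
        inv_mul_cancel₀ hf]
      simp
  have hle : S.gr μ ⊓ LinearMap.ker (S.del i ^ n) ≤ V := by
    rintro y ⟨h1, h2⟩
    refine ⟨h1, ?_⟩
    rw [SetLike.mem_coe, LinearMap.mem_ker] at h2 ⊢
    rw [delp_succ, h2, map_zero]
  have hk : LinearMap.ker ((S.del i ^ n).domRestrict V) =
      (S.gr μ ⊓ LinearMap.ker (S.del i ^ n)).comap V.subtype := by
    ext y
    constructor
    · intro hy; exact ⟨y.2.1, hy⟩
    · intro hy; exact hy.2
  rw [hr, hk, (Submodule.comapSubtypeEquivOfLe hle).finrank_eq] at h0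
  rw [← h0, kap, add_comm]

theorem split (S : NS χ B) (hχ : Bi χ) {i : I} {h : ℕ} {m : I → ℕ} (R : RData χ i h m)
    (μ : I → ℤ) : finrank k (S.gr μ) = ∑ n ∈ Finset.range h, S.kap i (μ - n • ev i) := by
  have key : ∀ n, n ≤ h → finrank k (S.gr μ ⊓ LinearMap.ker (S.del i ^ n) : Submodule k B) =
      ∑ t ∈ Finset.range n, S.kap i (μ - t • ev i) := by
    intro n
    induction n with
    | zero =>
      intro _
      have : LinearMap.ker (S.del i ^ 0) = ⊥ := by
        rw [pow_zero]; exact LinearMap.ker_id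
      rw [this]; simp
    | succ n ih =>
      intro hn
      rw [S.step hχ i n (fun r h1 h2 => R.hlt r h1 (by omega)), ih (by omega),
        Finset.sum_range_succ]
  have e : S.gr μ ⊓ LinearMap.ker (S.del i ^ h) = S.gr μ :=
    inf_eq_left.2 fun y hy => S.delp_zero hχ i R.h1 R.hh hy
  rw [← key h le_rfl, e]

theorem refl_eq [Fintype I] (S : NS χ B) (S' : NS χ' B') (hχ : Bi χ) (hχ' : Bi χ') {i : I}
    {h : ℕ} {m : I → ℕ} {s : (I → ℤ) → (I → ℤ)} (R : RData χ i h m) (hs : SMap i m s)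
    (hc : ∀ a b, χ' a b = χ (s a) (s b)) (μ : I → ℤ) :
    finrank k (S'.gr μ) = finrank k (S.gr (s μ + (h - 1) • ev i)) := by
  refine le_antisymm (S.refl_le S' hχ R hs hc μ) ?_
  have := S'.refl_le S hχ' (R.refl hχ hs hc) hs (fun a b => by rw [hc, hs.ss, hs.ss])
    (s μ + (h - 1) • ev i)
  rwa [hs.add, hs.ss, hs.nsmul, hs.si, smul_neg, neg_add_cancel_right] at this

theorem split' [Fintype I] (S : NS χ B) (S' : NS χ' B') (hχ : Bi χ) (hχ' : Bi χ') {i : I}
    {h : ℕ} {m : I → ℕ} {s : (I → ℤ) → (I → ℤ)} (R : RData χ i h m) (hs : SMap i m s)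
    (hc : ∀ a b, χ' a b = χ (s a) (s b)) (μ : I → ℤ) :
    finrank k (S'.gr μ) = ∑ n ∈ Finset.range h, S.kap i (s (μ - n • ev i)) := by
  rw [S.refl_eq S' hχ hχ' R hs hc, S.split hχ R, ← Finset.sum_range_reflect]
  refine Finset.sum_congr rfl fun n hn => ?_
  have hn' := Finset.mem_range.1 hn
  congr 1
  have e : (h - 1) • ev i = n • ev i + (h - 1 - n) • ev i := by
    rw [← add_nsmul]; congr 1; omega
  rw [hs.sub, hs.nsmul, hs.si, smul_neg, sub_neg_eq_add, e]
  abel

end NS

end Pool.Agent.Lib.MP_ff61db_al.Pt.Rf
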