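import Pool.Agent.Lib.MP_ff61db_al.Pt.Defs
import Pool.Agent.Lib.MP_ff61db_al.Pt.RfA
import Pool.Agent.Lib.MP_ff61db_al.Pt.DefsEq

/-! Reflection block, part E: a Nichols algebra gives the abstract operator data. -/

namespace Pool.Agent.Lib.MP_ff61db_al.Pt.Rf

open Module TensorProduct

section Chi
variable {I : Type} [Fintype I] {M : Type} [CommGroup M]

theorem chi_add_l (q : I → I → M) (a b c : I → ℤ) : chi q (a + b) c = chi q a c * chi q b c := by
  simp [chi, add_mul, zpow_add, Finset.prod_mul_distrib]

theorem chi_add_r (q : I → I → M) (a b c : I → ℤ) : chi q a (b + c) = chi q a b * chi q a c := by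
  simp [chi, mul_add, zpow_add, Finset.prod_mul_distrib]

theorem chi_zero_r (q : I → I → M) (a : I → ℤ) : chi q a 0 = 1 := by simp [chi]

variable [DecidableEq I]

theorem chi_e (q : I → I → M) (i j : I) : chi q (e i) (e j) = q i j := by
  rw [chi, Finset.prod_eq_single i, Finset.prod_eq_single j]
  · simp [e]
  · intro b _ hb; simp [e, hb]
  · simp
  · intro b _ hb; simp [e, hb]
  · simp

theorem hom_ext (F G : (I → ℤ) → M) (hF : ∀ a b, F (a + b) = F a * F b)
    (hG : ∀ a b, G (a + b) = G a * G b) (h : ∀ i, F (e i) = G (e i)) (a : I → ℤ) : F a = G a := by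
  let F' : (I → ℤ) →+ Additive M := AddMonoidHom.mk' (fun a => Additive.ofMul (F a)) hF
  let G' : (I → ℤ) →+ Additive M := AddMonoidHom.mk' (fun a => Additive.ofMul (G a)) hG
  have : F'.toIntLinearMap = G'.toIntLinearMap := by
    refine (Pi.basisFun ℤ I).ext fun i => ?_
    rw [Pi.basisFun_apply]
    exact h i
  exact LinearMap.congr_fun this a

theorem chi_pull (q : I → I → M) (s : (I → ℤ) → (I → ℤ)) (hs : ∀ a b, s (a + b) = s a + s b)
    (a b : I → ℤ) : chi (fun u v => chi q (s (e u)) (s (e v))) a b = chi q (s a) (s b) := by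
  refine hom_ext (fun a => chi (fun u v => chi q (s (e u)) (s (e v))) a b)
    (fun a => chi q (s a) (s b)) (fun _ _ => chi_add_l _ _ _ _)
    (fun _ _ => by simp only [hs, chi_add_l]) (fun i => ?_) a
  exact hom_ext (fun b => chi (fun u v => chi q (s (e u)) (s (e v))) (e i) b)
    (fun b => chi q (s (e i)) (s b)) (fun _ _ => chi_add_r _ _ _ _)
    (fun _ _ => by simp only [hs, chi_add_r]) (fun j => chi_e _ _ _) b

theorem sh_right {A : Type} [AddCommMonoid A] (q : I → I → M) (l : List I) :
    ∀ F : M → List I → A,
      ((sh q l).map fun p => if p.2.2 = [] then F p.1 p.2.1 else 0).sum = F 1 l := by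
  induction l with
  | nil => intro F; simp [sh]
  | cons i l ih =>
    intro F
    have := ih fun c a => F c (i :: a)
    simp only [sh, List.map_append, List.map_map, List.sum_append, Function.comp_def, this]
    simp

theorem sh_left {A : Type} [AddCommMonoid A] (q : I → I → M) (l : List I) :
    ∀ F : M → List I → A,
      ((sh q l).map fun p => if p.2.1 = [] then F p.1 p.2.2 else 0).sum = F 1 l := by
  induction l with
  | nil => intro F; simp [sh]
  | cons i l ih =>
    intro F
    have := ih fun c b => F c (i :: b)
    simp only [sh, List.map_append, List.map_map, List.sum_append, Function.comp_def]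
    rw [← this]
    have h0 : ((sh q l).map fun p => if i :: p.2.1 = [] then F p.1 p.2.2 else 0).sum = 0 := by
      simp
    rw [h0, zero_add]
    congr 1
    refine List.map_congr_left fun p _ => ?_
    by_cases h : p.2.1 = []
    · simp [h, deg, chi_zero_r]
    · simp [h]

end Chi

variable {k : Type} [Field k] {I : Type} [Fintype I] [DecidableEq I]

/-- the bicharacter with values in the field -/
def ck (q : I → I → kˣ) (a b : I → ℤ) : k := (chi q a b : kˣ)

omit [DecidableEq I] in
theorem ck_bi (q : I → I → kˣ) : Bi (ck q) :=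
  ⟨fun a b c => by simp [ck, chi_add_l], fun a b c => by simp [ck, chi_add_r],
    fun _ _ => Units.ne_zero _⟩

variable {q : I → I → kˣ} {R : Type} [Ring R] [Algebra k R] (P : PN k q R)

omit [Fintype I] in
theorem deg_eq_e {l : List I} {i : I} (h : deg l = e i) : l = [i] := by
  cases l with
  | nil => exact absurd h.symm (by
      intro h0; have := congrFun h0 i; simp [e, deg] at this)
  | cons j l =>
    have h1 : ev j + dg l = ev i := by rw [← dg_cons]; exact h
    have hj : j = i := by
      by_contra hne
      have h2 := congrFun h1 j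
      have h3 := dg_nonneg l j
      simp [ev, hne] at h2 h3
      omega
    subst hj
    rw [dg_eq_zero (add_eq_left.1 h1)]

theorem co_wd (hA : P.Alive) (i : I) (l : List I) :
    P.co i (wd P.x l) = if l = [i] then 1 else 0 := by
  have hex : ∃ f : R →ₗ[k] k, ∀ l, f (wd P.x l) = if l = [i] then 1 else 0 := by
    obtain ⟨φ, hφ⟩ := Module.Projective.exists_dual_eq_one k (hA i)
    refine ⟨φ ∘ₗ P.pr (e i), fun l => ?_⟩
    rw [LinearMap.comp_apply, P.pr_wd]
    by_cases h : l = [i]
    · subst h; simp [deg, wd, hφ]
    · rw [if_neg (fun h1 => h (deg_eq_e h1)), if_neg h, map_zero]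
  rw [PN.co, dif_pos hex]
  exact hex.choose_spec l

theorem del_sum (j : I) (l : List I) : P.del j (wd P.x l) =
    ((sh q l).map fun p => (p.1 : k) • (P.co j (wd P.x p.2.2) • wd P.x p.2.1)).sum := by
  simp [PN.del, P.D_wd, copw, map_list_sum, Function.comp_def]

theorem dl_sum (j : I) (l : List I) : P.dl j (wd P.x l) =
    ((sh q l).map fun p => (p.1 : k) • (P.co j (wd P.x p.2.1) • wd P.x p.2.2)).sum := by
  simp [PN.dl, P.D_wd, copw, map_list_sum, Function.comp_def]

theorem wd_cons (i : I) (l : List I) : wd P.x (i :: l) = P.x i * wd P.x l := by simp [wd]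

theorem del_cons (hA : P.Alive) (j i : I) (l : List I) : P.del j (wd P.x (i :: l)) =
    P.x i * P.del j (wd P.x l) + (if j = i then ck q (e j) (deg l) else 0) • wd P.x l := by
  rw [del_sum, del_sum, sh, List.map_append, List.sum_append, List.map_map, List.map_map,
    ← List.sum_map_mul_left]
  congr 1
  · congr 1
    refine List.map_congr_left fun p _ => ?_
    simp [wd_cons]
  · by_cases h : j = i
    · subst h
      have := sh_right q l fun c a => ((chi q (e j) (deg a) * c : kˣ) : k) • wd P.x a
      rw [if_pos rfl, mul_one] at *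
      refine Eq.trans ?_ this
      congr 1
      refine List.map_congr_left fun p _ => ?_
      simp only [Function.comp_apply, co_wd P hA]
      by_cases hp : p.2.2 = [] <;> simp [hp]
    · rw [if_neg h, zero_smul]
      refine List.sum_eq_zero fun y hy => ?_
      obtain ⟨p, -, rfl⟩ := List.mem_map.1 hy
      simp [co_wd P hA, Ne.symm h]

theorem dl_cons (hA : P.Alive) (j i : I) (l : List I) : P.dl j (wd P.x (i :: l)) =
    (if j = i then wd P.x l else 0) + ck q (e i) (e j) • (P.x i * P.dl j (wd P.x l)) := by
  rw [dl_sum, dl_sum, sh, List.map_append, List.sum_append, List.map_map, List.map_map,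
    ← List.sum_map_mul_left, List.smul_sum, List.map_map]
  congr 1
  · by_cases h : j = i
    · subst h
      have := sh_left q l fun c b => ((c : kˣ) : k) • wd P.x b
      rw [if_pos rfl]
      simp only [Units.val_one, one_smul] at this
      refine Eq.trans ?_ this
      congr 1
      refine List.map_congr_left fun p _ => ?_
      simp only [Function.comp_apply, co_wd P hA]
      by_cases hp : p.2.1 = [] <;> simp [hp]
    · rw [if_neg h]
      refine List.sum_eq_zero fun y hy => ?_
      obtain ⟨p, -, rfl⟩ := List.mem_map.1 hy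
      simp [co_wd P hA, Ne.symm h]
  · congr 1
    refine List.map_congr_left fun p _ => ?_
    simp only [Function.comp_apply, co_wd P hA]
    by_cases hp : p.2.1 = [j]
    · simp [hp, wd_cons, deg, ck, smul_smul]
    · simp [hp]

theorem del_nil (hA : P.Alive) (j : I) : P.del j 1 = 0 := by
  have := del_sum P j []
  simp only [sh, List.map_cons, List.map_nil, co_wd P hA] at this
  simpa [wd] using this

theorem dl_nil (hA : P.Alive) (j : I) : P.dl j 1 = 0 := by
  have := dl_sum P j []
  simp only [sh, List.map_cons, List.map_nil, co_wd P hA] at this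
  simpa [wd] using this

end Pool.Agent.Lib.MP_ff61db_al.Pt.Rf
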