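import Pool.Agent.Lib.MP_ff61db_al.Pt.RfE

/-! Reflection block, part F: Leibniz rules and the abstract datum of a Nichols algebra. -/

namespace Pool.Agent.Lib.MP_ff61db_al.Pt.Rf

open Module TensorProduct

variable {k : Type} [Field k] {I : Type} [Fintype I] [DecidableEq I]
variable {q : I → I → kˣ} {R : Type} [Ring R] [Algebra k R] (P : PN k q R)

theorem piece_ind {μ : I → ℤ} (K : Submodule k R) (h : ∀ l, deg l = μ → wd P.x l ∈ K) :
    P.piece μ ≤ K := by
  refine Submodule.span_le.2 ?_
  rintro _ ⟨l, hl, rfl⟩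
  exact h l hl

theorem top_ind (K : Submodule k R) (h : ∀ l, wd P.x l ∈ K) (a : R) : a ∈ K := by
  have : (⊤ : Submodule k R) ≤ K := by
    rw [← P.span]
    refine Submodule.span_le.2 ?_
    rintro _ ⟨l, -, rfl⟩
    exact h l
  exact this trivial

theorem wd_piece (l : List I) : wd P.x l ∈ P.piece (deg l) :=
  Submodule.subset_span ⟨l, rfl, rfl⟩

omit [Fintype I] in
theorem deg_cons (i : I) (l : List I) : deg (i :: l) = e i + deg l := by simp [deg]

theorem piece_mul {μ ν : I → ℤ} {a b : R} (ha : a ∈ P.piece μ) (hb : b ∈ P.piece ν) :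
    a * b ∈ P.piece (μ + ν) := by
  refine piece_ind P ((P.piece (μ + ν)).comap (LinearMap.mulRight k b)) (fun l hl => ?_) ha
  refine piece_ind P ((P.piece (μ + ν)).comap (LinearMap.mulLeft k (wd P.x l)))
    (fun l' hl' => ?_) hb
  refine Submodule.subset_span ⟨l ++ l', ?_, ?_⟩
  · show deg (l ++ l') = μ + ν
    rw [← hl, ← hl']; simp [deg]
  · simp [wd]

theorem x_piece (i : I) : P.x i ∈ P.piece (e i) :=
  Submodule.subset_span ⟨[i], by simp [deg], by simp [wd]⟩

theorem del_x_mul (hA : P.Alive) (j i : I) {ν : I → ℤ} {b : R} (hb : b ∈ P.piece ν) :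
    P.del j (P.x i * b) = P.x i * P.del j b + (if j = i then ck q (e j) ν else 0) • b := by
  refine piece_ind P (LinearMap.eqLocus (P.del j ∘ₗ LinearMap.mulLeft k (P.x i))
    (LinearMap.mulLeft k (P.x i) ∘ₗ P.del j + (if j = i then ck q (e j) ν else 0) • LinearMap.id))
    (fun l hl => ?_) hb
  show P.del j (P.x i * wd P.x l) = _
  rw [← wd_cons, del_cons P hA, hl]
  rfl

theorem dl_x_mul (hA : P.Alive) (j i : I) (b : R) :
    P.dl j (P.x i * b) = (if j = i then b else 0) + ck q (e i) (e j) • (P.x i * P.dl j b) := by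
  have := top_ind P (LinearMap.eqLocus (P.dl j ∘ₗ LinearMap.mulLeft k (P.x i))
    ((if j = i then LinearMap.id else 0) +
      ck q (e i) (e j) • (LinearMap.mulLeft k (P.x i) ∘ₗ P.dl j))) (fun l => by
    show P.dl j (P.x i * wd P.x l) = _
    rw [← wd_cons, dl_cons P hA]
    by_cases h : j = i <;> simp [h]) b
  rw [LinearMap.mem_eqLocus] at this
  by_cases h : j = i <;> simpa [h] using this

theorem del_piece (hA : P.Alive) (j : I) {μ : I → ℤ} {a : R} (ha : a ∈ P.piece μ) :
    P.del j a ∈ P.piece (μ - e j) := by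
  refine piece_ind P ((P.piece (μ - e j)).comap (P.del j)) (fun l hl => ?_) ha
  subst hl
  clear ha
  show P.del j (wd P.x l) ∈ P.piece (deg l - e j)
  induction l with
  | nil => rw [show wd P.x [] = 1 from rfl, del_nil P hA]; exact Submodule.zero_mem _
  | cons i l ih =>
    rw [del_cons P hA, deg_cons]
    refine Submodule.add_mem _ ?_ ?_
    · rw [add_sub_assoc]; exact piece_mul P (x_piece P i) ih
    · by_cases h : j = i
      · subst h
        rw [add_sub_cancel_left]; exact Submodule.smul_mem _ _ (wd_piece P l)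
      · simp [h]

theorem dl_piece (hA : P.Alive) (j : I) {μ : I → ℤ} {a : R} (ha : a ∈ P.piece μ) :
    P.dl j a ∈ P.piece (μ - e j) := by
  refine piece_ind P ((P.piece (μ - e j)).comap (P.dl j)) (fun l hl => ?_) ha
  subst hl
  clear ha
  show P.dl j (wd P.x l) ∈ P.piece (deg l - e j)
  induction l with
  | nil => rw [show wd P.x [] = 1 from rfl, dl_nil P hA]; exact Submodule.zero_mem _
  | cons i l ih =>
    rw [dl_cons P hA, deg_cons]
    refine Submodule.add_mem _ ?_ (Submodule.smul_mem _ _ ?_)
    · by_cases h : j = i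
      · subst h
        rw [add_sub_cancel_left, if_pos rfl]; exact wd_piece P l
      · simp [h]
    · rw [add_sub_assoc]; exact piece_mul P (x_piece P i) ih

theorem del_mul (hA : P.Alive) (j : I) (a : R) {ν : I → ℤ} {b : R} (hb : b ∈ P.piece ν) :
    P.del j (a * b) = a * P.del j b + ck q (e j) ν • (P.del j a * b) := by
  refine top_ind P (LinearMap.eqLocus (P.del j ∘ₗ LinearMap.mulRight k b)
    (LinearMap.mulRight k (P.del j b) + ck q (e j) ν • (LinearMap.mulRight k b ∘ₗ P.del j)))
    (fun l => ?_) a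
  show P.del j (wd P.x l * b) = wd P.x l * P.del j b + ck q (e j) ν • (P.del j (wd P.x l) * b)
  induction l with
  | nil => rw [show wd P.x [] = 1 from rfl, del_nil P hA]; simp
  | cons i l ih =>
    rw [del_cons P hA, wd_cons, mul_assoc, del_x_mul P hA j i (piece_mul P (wd_piece P l) hb), ih,
      (ck_bi q).add_r]
    by_cases h : j = i
    · simp only [h, if_true, mul_add, add_mul, smul_add, mul_smul_comm, smul_mul_assoc, smul_smul,
        mul_assoc, add_assoc]
      rw [mul_comm (ck q (e i) ν)]
    · simp [h, mul_add, mul_assoc]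

theorem dl_mul (hA : P.Alive) (j : I) {μ : I → ℤ} {a : R} (b : R) (ha : a ∈ P.piece μ) :
    P.dl j (a * b) = P.dl j a * b + ck q μ (e j) • (a * P.dl j b) := by
  refine piece_ind P (LinearMap.eqLocus (P.dl j ∘ₗ LinearMap.mulRight k b)
    (LinearMap.mulRight k b ∘ₗ P.dl j + ck q μ (e j) • LinearMap.mulRight k (P.dl j b)))
    (fun l hl => ?_) ha
  subst hl
  clear ha
  show P.dl j (wd P.x l * b) = P.dl j (wd P.x l) * b + ck q (deg l) (e j) • (wd P.x l * P.dl j b)
  induction l with
  | nil =>
    rw [show wd P.x [] = 1 from rfl, dl_nil P hA, show deg ([] : List I) = 0 from rfl,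
      (ck_bi q).zero_l]
    simp
  | cons i l ih =>
    rw [dl_cons P hA, wd_cons, mul_assoc, dl_x_mul P hA, ih, deg_cons, (ck_bi q).add_l]
    by_cases h : j = i <;>
      simp [h, mul_add, add_mul, smul_smul, mul_assoc, add_assoc]

theorem dl_del (hA : P.Alive) (i j : I) (a : R) : P.dl i (P.del j a) = P.del j (P.dl i a) := by
  refine top_ind P (LinearMap.eqLocus (P.dl i ∘ₗ P.del j) (P.del j ∘ₗ P.dl i)) (fun l => ?_) a
  show P.dl i (P.del j (wd P.x l)) = P.del j (P.dl i (wd P.x l))
  induction l with
  | nil => rw [show wd P.x [] = 1 from rfl, del_nil P hA, dl_nil P hA]; simp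
  | cons t l ih =>
    rw [del_cons P hA, dl_cons P hA, map_add, map_add, map_smul, map_smul, dl_x_mul P hA, ih,
      del_x_mul P hA j t (dl_piece P hA i (wd_piece P l)), smul_add, smul_smul, add_assoc]
    congr 1
    · by_cases h : i = t <;> simp [h]
    · congr 2
      by_cases h : j = t
      · subst h
        rw [if_pos rfl, if_pos rfl, (ck_bi q).sub_r]
        have := (ck_bi q).ne (e j) (e i)
        field_simp
      · simp [h]

theorem piece_fd (μ : I → ℤ) : FiniteDimensional k (P.piece μ) := by
  refine FiniteDimensional.span_of_finite k (Set.Finite.image _ ?_)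
  refine (List.finite_length_eq I (∑ j, μ j).toNat).subset fun l hl => ?_
  have h1 : dg l = μ := hl
  have h2 := sum_dg l
  rw [h1] at h2
  show l.length = _
  rw [h2]; simp

/-- the abstract datum of a Nichols algebra -/
noncomputable def toNS (hN : P.Nich) : NS (ck q) R where
  x := P.x
  gr := P.piece
  del := P.del
  d := P.dl
  one_mem := wd_piece P []
  x_mem := x_piece P
  mul_mem := piece_mul P
  span := fun _ => le_rfl
  del_mem := fun i _ _ ha => del_piece P hN.1 i ha
  d_mem := fun i _ _ ha => dl_piece P hN.1 i ha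
  del_mul := fun i a _ _ hb => del_mul P hN.1 i a hb
  d_mul := fun i _ _ b ha => dl_mul P hN.1 i b ha
  del_x := fun i j => by
    have := del_x_mul P hN.1 i j (wd_piece P [])
    rw [show wd P.x [] = 1 from rfl, del_nil P hN.1, show deg ([] : List I) = 0 from rfl,
      (ck_bi q).zero_r] at this
    by_cases h : i = j <;> simpa [h] using this
  d_x := fun i j => by
    have := dl_x_mul P hN.1 i j 1
    rw [dl_nil P hN.1] at this
    simpa using this
  del_one := del_nil P hN.1
  comm := dl_del P hN.1
  nd := fun {μ a} ha hμ h => by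
    refine hN.2 a ?_ h
    refine piece_ind P (LinearMap.ker P.eps) (fun l hl => ?_) ha
    rw [LinearMap.mem_ker, P.eps_wd, if_neg]
    rintro rfl
    exact hμ hl.symm
  one_ne := fun h => by
    have := P.eps_wd []
    rw [show wd P.x [] = 1 from rfl, h] at this
    simp at this
  fd := piece_fd P

end Pool.Agent.Lib.MP_ff61db_al.Pt.Rf
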