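import Pool.Agent.Lib.MP_ff61db_al.Pt.RfD
import Pool.Agent.Lib.MP_ff61db_al.Pt.RfF

/-! Reflection block, part G: numerics of the reflected matrix and the Hilbert identities. -/

namespace Pool.Agent.Lib.MP_ff61db_al.Pt

open Module

variable {k : Type} [Field k] {I : Type} [Fintype I] [DecidableEq I]

namespace Rf

theorem sref_apply (m : I → ℕ) (i : I) (μ : I → ℤ) : sref m i μ =
    μ + ((∑ j ∈ Finset.univ.erase i, (m j : ℤ) * μ j) - 2 * μ i) • e i := rfl

theorem smap (m : I → ℕ) (i : I) : SMap i m (sref m i) where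
  add := map_add _
  si := by
    have : (∑ j ∈ Finset.univ.erase i, (m j : ℤ) * ev i j) = 0 :=
      Finset.sum_eq_zero fun j hj => by simp [ev, Finset.ne_of_mem_erase hj]
    rw [sref_apply, this]
    have h1 : ev i i = 1 := by simp [ev]
    rw [h1]
    show e i + _ = -e i
    module
  sj := fun j hj => by
    have : (∑ t ∈ Finset.univ.erase i, (m t : ℤ) * ev j t) = m j := by
      rw [Finset.sum_eq_single j]
      · simp [ev]
      · intro b _ hb; simp [ev, hb]
      · intro h; exact absurd (Finset.mem_erase.2 ⟨hj, Finset.mem_univ j⟩) h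
    rw [sref_apply, this]
    have h1 : ev j i = 0 := by simp [ev, Ne.symm hj]
    rw [h1]
    show e j + _ = e j + m j • e i
    module
  ss := fun a => by
    have h1 : (∑ j ∈ Finset.univ.erase i, (m j : ℤ) * sref m i a j) =
        ∑ j ∈ Finset.univ.erase i, (m j : ℤ) * a j :=
      Finset.sum_congr rfl fun j hj => by simp [sref_apply, e, Finset.ne_of_mem_erase hj]
    have h2 : sref m i a i =
        a i + ((∑ j ∈ Finset.univ.erase i, (m j : ℤ) * a j) - 2 * a i) := by
      simp [sref_apply, e]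
    rw [sref_apply m i (sref m i a), h1, h2, sref_apply]
    module

theorem sref_congr' {m m' : I → ℕ} {i : I} (h : ∀ j, j ≠ i → m j = m' j) (μ : I → ℤ) :
    sref m i μ = sref m' i μ := by
  rw [sref_apply, sref_apply, Finset.sum_congr rfl fun j hj => by
    rw [h j (Finset.ne_of_mem_erase hj)]]

theorem ck_ev (q : I → I → kˣ) (i j : I) : ck q (ev i) (ev j) = q i j :=
  congrArg Units.val (chi_e q i j)

omit [Fintype I] [DecidableEq I] in
theorem mm_ne (q : I → I → kˣ) (h : Tor q) (i j : I) : {m | qint (q i i : k) (m + 1) *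
    (1 - (q i i : k) ^ m * ((q i j : k) * (q j i : k))) = 0}.Nonempty := by
  obtain ⟨n, h0, h1⟩ := h i
  refine ⟨n - 1, ?_⟩
  show qint (q i i : k) (n - 1 + 1) * _ = 0
  rw [Nat.sub_add_cancel h0, h1, zero_mul]

theorem rdata (q : I → I → kˣ) (h : Tor q) (i : I) : RData (ck q) i (hh q i) (mm q i) := by
  have h0 : hh q i ∈ {n | 0 < n ∧ qint (q i i : k) n = 0} := Nat.sInf_mem (h i)
  refine ⟨h0.1, ?_, fun r h1 h2 => ?_, fun j _ => ?_, fun j _ r hr => ?_⟩
  · rw [ck_ev]; exact h0.2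
  · rw [ck_ev]; exact fun h3 => Nat.notMem_of_lt_sInf h2 ⟨h1, h3⟩
  · rw [ck_ev, ck_ev, ck_ev]; exact Nat.sInf_mem (mm_ne q h i j)
  · rw [ck_ev, ck_ev, ck_ev]; exact fun h3 => Nat.notMem_of_lt_sInf hr h3

theorem RData.mm_eq {q : I → I → kˣ} {i : I} {h : ℕ} {m : I → ℕ} (R : RData (ck q) i h m)
    {j : I} (hj : j ≠ i) : mm q i j = m j := by
  have h1 := R.hm j hj
  have h2 := R.mlt j hj
  rw [ck_ev, ck_ev, ck_ev] at h1 h2
  refine le_antisymm (Nat.sInf_le h1) (not_lt.1 fun h3 => h2 _ h3 ?_)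
  exact Nat.sInf_mem (⟨m j, h1⟩ : {m | qint (q i i : k) (m + 1) *
    (1 - (q i i : k) ^ m * ((q i j : k) * (q j i : k))) = 0}.Nonempty)

theorem cv_tr {κ : (I → ℤ) → ℕ} (hκ : Cone κ) (h : ℕ) (i : I) (μ : I → ℤ) :
    cv κ (tr h i) μ = ∑ n ∈ Finset.range h, κ (μ - n • ev i) := by
  simp only [cv, tr, Finset.mul_sum]
  rw [Finset.sum_comm]
  refine Finset.sum_congr rfl fun n _ => ?_
  have e1 : (n : ℤ) • e i = n • ev i := natCast_zsmul _ _
  rw [e1, Finset.sum_eq_single (μ - n • ev i)]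
  · simp
  · intro b _ hb
    rw [if_neg, mul_zero]
    intro h1
    exact hb (by rw [← h1]; abel)
  · intro h1
    by_contra h2
    refine h1 (Finset.mem_Icc.2 ⟨hκ _ (left_ne_zero_of_mul h2), ?_⟩)
    refine sub_le_self _ (nsmul_nonneg ?_ n)
    have := dg_nonneg [i]
    simpa [dg] using this

omit [Fintype I] in
theorem NS.gr_bot {χ : (I → ℤ) → (I → ℤ) → k} {B : Type} [Ring B] [Algebra k B] (S : NS χ B)
    {μ : I → ℤ} (h : ¬ 0 ≤ μ) : S.gr μ = ⊥ := by
  refine le_bot_iff.1 ((S.span μ).trans (Submodule.span_le.2 ?_))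
  rintro b ⟨l, hl, -⟩
  exact absurd (hl ▸ dg_nonneg l) h

theorem NS.reflDat {χ χ' : (I → ℤ) → (I → ℤ) → k} {B B' : Type} [Ring B] [Algebra k B]
    [Ring B'] [Algebra k B'] (S : NS χ B) (S' : NS χ' B') (hχ : Bi χ) (hχ' : Bi χ') {i : I}
    {h : ℕ} {m : I → ℕ} (R : RData χ i h m)
    (hc : ∀ a b, χ' a b = χ (sref m i a) (sref m i b)) :
    ReflDat (fun μ => finrank k (S.gr μ)) (fun μ => finrank k (S'.gr μ)) m h i := by
  have hs := smap m i
  have c1 : Cone (S.kap i) := fun μ hμ => by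
    by_contra h0
    exact hμ (by rw [NS.kap, S.gr_bot h0, bot_inf_eq, finrank_bot])
  have c2 : Cone fun μ => S.kap i (sref m i μ) := fun μ hμ => by
    by_contra h0
    have h1 := S.split' S' hχ hχ' R hs hc μ
    rw [S'.gr_bot h0, finrank_bot] at h1
    have h2 := (Finset.sum_eq_zero_iff.1 h1.symm) 0 (Finset.mem_range.2 R.h1)
    rw [zero_smul, sub_zero] at h2
    exact hμ h2
  refine ⟨S.kap i, fun μ => S.kap i (sref m i μ), ?_, c1, c2, fun μ hμ h0 => ?_,
    fun μ => by simp only [hs.ss], ?_, ?_⟩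
  · have : S.gr 0 ⊓ LinearMap.ker (S.del i) = Submodule.span k {(1 : B)} := by
      apply le_antisymm
      · refine inf_le_left.trans ((S.span 0).trans (Submodule.span_le.2 ?_))
        rintro b ⟨l, hl, rfl⟩
        rw [dg_eq_zero hl]
        exact Submodule.subset_span rfl
      · rw [Submodule.span_singleton_le_iff_mem]
        exact ⟨S.one_mem, S.del_one i⟩
    rw [NS.kap, this, finrank_span_singleton S.one_ne]
  · by_contra h1
    push Not at h1
    refine hμ ?_
    have : S.gr μ ⊓ LinearMap.ker (S.del i) = ⊥ := by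
      refine le_bot_iff.1 fun a ha => ?_
      refine S.nd ha.1 h0 fun j => ?_
      by_cases hj : j = i
      · subst hj; exact ha.2
      · have h2 := S.del_mem j ha.1
        rw [S.gr_bot] at h2
        · exact h2
        · intro h3
          have := h3 j
          simp [ev, h1 j hj] at this
    rw [NS.kap, this, finrank_bot]
  · funext μ
    rw [cv_tr c1, S.split hχ R]
  · funext μ
    rw [cv_tr c2, S.split' S' hχ hχ' R hs hc]

end Rf

section B3
variable (q : I → I → kˣ)

omit [Fintype I] [DecidableEq I] in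
theorem tor_of_pow (p : ℕ) [Fact p.Prime] [CharP k p] {N : ℕ} (hN0 : 0 < N)
    (h : ∀ i j, q i j ^ N = 1) : Tor q := by
  intro i
  by_cases h1 : (q i i : k) = 1
  · exact ⟨p, (Fact.out : p.Prime).pos, by simp [qint, h1]⟩
  · refine ⟨N, hN0, ?_⟩
    have h2 : (q i i : k) ^ N = 1 := by
      rw [← Units.val_pow_eq_pow_val, h, Units.val_one]
    rw [qint, geom_sum_eq h1, h2, sub_self, zero_div]

omit [Fintype I] [DecidableEq I] in
theorem two_le_hh (h : Tor q) (i : I) : 2 ≤ hh q i := by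
  have h0 : hh q i ∈ {n | 0 < n ∧ qint (q i i : k) n = 0} := Nat.sInf_mem (h i)
  obtain ⟨h1, h2⟩ := h0
  by_contra h3
  have h4 : hh q i = 1 := by omega
  rw [h4] at h2
  simp [qint] at h2

theorem rq_pow {N : ℕ} (h : ∀ i j, q i j ^ N = 1) (i a b : I) : rq i q a b ^ N = 1 := by
  rw [rq, chi, ← Finset.prod_pow]
  refine Finset.prod_eq_one fun u _ => ?_
  rw [← Finset.prod_pow]
  refine Finset.prod_eq_one fun v _ => ?_
  rw [← zpow_natCast, ← zpow_mul, mul_comm, zpow_mul, zpow_natCast, h, one_zpow]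

theorem chi_rq (i : I) (μ ν : I → ℤ) :
    chi (rq i q) μ ν = chi q (sref (mm q i) i μ) (sref (mm q i) i ν) :=
  Rf.chi_pull q (sref (mm q i) i) (map_add _) μ ν

theorem rq_self (i : I) : rq i q i i = q i i := by
  have h1 : sref (mm q i) i (e i) = -e i := (Rf.smap (mm q i) i).si
  apply Units.ext
  have h2 : ((rq i q i i : kˣ) : k) = Rf.ck q (-e i) (-e i) := by rw [rq, h1]; rfl
  rw [h2, (Rf.ck_bi q).neg_l, (Rf.ck_bi q).neg_r, inv_inv]
  exact Rf.ck_ev q i i

theorem Rf.rdata' (h : Tor q) (i : I) : Rf.RData (Rf.ck (rq i q)) i (hh q i) (mm q i) :=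
  (Rf.rdata q h i).refl (Rf.ck_bi q) (Rf.smap _ i) fun a b => congrArg Units.val (chi_rq q i a b)

theorem mm_rq (h : Tor q) {i j : I} (hj : j ≠ i) : mm (rq i q) i j = mm q i j :=
  (Rf.rdata' q h i).mm_eq hj

theorem hh_rq (i : I) : hh (rq i q) i = hh q i := by
  rw [hh, hh, rq_self]

theorem rq_rq (h : Tor q) (i : I) : rq i (rq i q) = q := by
  funext a b
  rw [rq, chi_rq, Rf.sref_congr' (fun j hj => mm_rq q h hj), Rf.sref_congr'
    (fun j hj => mm_rq q h hj), (Rf.smap _ i).ss, (Rf.smap _ i).ss, Rf.chi_e]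

omit [Fintype I] [DecidableEq I] in
theorem mm_eq_zero (h : Tor q) (i j : I) : mm q i j = 0 ↔ q i j * q j i = 1 := by
  rw [mm, Nat.sInf_eq_zero, or_iff_left (Rf.mm_ne q h i j).ne_empty]
  simp only [Set.mem_ofPred_eq, qint, zero_add, Finset.range_one, Finset.sum_singleton, pow_zero,
    one_mul, sub_eq_zero]
  rw [eq_comm, ← Units.val_mul, Units.val_eq_one]

theorem refl_hN_of (h : Tor q) (i : I) (h1 : Nonempty (NP k q))
    (h2 : Nonempty (NP k (rq i q))) :
    ReflDat (hN q) (hN (rq i q)) (mm q i) (hh q i) i := by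
  have e1 : hN q = (Classical.choice h1).P.hil := funext fun μ => dif_pos h1
  have e2 : hN (rq i q) = (Classical.choice h2).P.hil := funext fun μ => dif_pos h2
  rw [e1, e2]
  exact (Rf.toNS _ (Classical.choice h1).nich).reflDat (Rf.toNS _ (Classical.choice h2).nich)
    (Rf.ck_bi _) (Rf.ck_bi _) (Rf.rdata q h i) fun a b => congrArg Units.val (chi_rq q i a b)

end B3

end Pool.Agent.Lib.MP_ff61db_al.Pt
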