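import Mathlib

/-! Series on the lattice `I → ℤ`: basic tools for section 6. -/

namespace Pool.Agent.Lib.MP_ff61db_al.Pt.S6

open Finset

/-- Series with exponents in the lattice `I → ℤ` (product order). -/
abbrev Ser (I : Type*) := HahnSeries (I → ℤ) ℂ

variable {I : Type*}

/-- Support in the positive cone: a power series. -/
def Pos (f : Ser I) : Prop := ∀ m, f.coeff m ≠ 0 → 0 ≤ m

/-- `g` is `f` with the exponents moved by `σ`. -/
def Rel (σ : (I → ℤ) ≃+ (I → ℤ)) (f g : Ser I) : Prop := ∀ v, g.coeff (σ v) = f.coeff v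

theorem coeff_mul_finsum (f g : Ser I) (m : I → ℤ) :
    (f * g).coeff m = ∑ᶠ a, f.coeff a * g.coeff (m - a) := by
  classical
  rw [HahnSeries.coeff_mul, finsum_eq_sum_of_support_subset
    (s := (antidiagonal f.isPWO_support g.isPWO_support m).image Prod.fst)]
  · rw [Finset.sum_image]
    · refine Finset.sum_congr rfl fun p hp => ?_
      rw [Finset.mem_antidiagonal] at hp
      rw [← hp.2.2, add_sub_cancel_left]
    · intro p hp q hq h
      rw [mem_coe, Finset.mem_antidiagonal] at hp hq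
      refine Prod.ext h ?_
      have := hp.2.2.trans hq.2.2.symm
      rw [h] at this
      exact add_left_cancel this
  · intro a ha
    rw [Function.mem_support, mul_ne_zero_iff] at ha
    rw [coe_image]
    exact ⟨(a, m - a), by
      rw [mem_coe, Finset.mem_antidiagonal]; exact ⟨ha.1, ha.2, by simp⟩, rfl⟩

theorem finite_mul_support (f g : Ser I) (m : I → ℤ) :
    (Function.support fun a => f.coeff a * g.coeff (m - a)).Finite := by
  classical
  refine ((antidiagonal f.isPWO_support g.isPWO_support m).image Prod.fst).finite_toSet.subset ?_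
  intro a ha
  rw [Function.mem_support, mul_ne_zero_iff] at ha
  rw [coe_image]
  exact ⟨(a, m - a), by
    rw [mem_coe, Finset.mem_antidiagonal]; exact ⟨ha.1, ha.2, by simp⟩, rfl⟩

theorem exists_of_coeff_mul_ne_zero {f g : Ser I} {m : I → ℤ} (h : (f * g).coeff m ≠ 0) :
    ∃ a b, f.coeff a ≠ 0 ∧ g.coeff b ≠ 0 ∧ a + b = m := by
  obtain ⟨a, ha, b, hb, hab⟩ := HahnSeries.support_mul_subset (x := f) (y := g) h
  exact ⟨a, b, ha, hb, hab⟩

theorem Rel.mul {σ : (I → ℤ) ≃+ (I → ℤ)} {f g f' g' : Ser I} (h : Rel σ f f') (h' : Rel σ g g') :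
    Rel σ (f * g) (f' * g') := by
  intro v
  rw [coeff_mul_finsum, coeff_mul_finsum, ← finsum_comp_equiv σ.toEquiv]
  refine finsum_congr fun a => ?_
  have : σ v - σ.toEquiv a = σ (v - a) := by simp
  rw [this, h', ← h a]; rfl

theorem Rel.add {σ : (I → ℤ) ≃+ (I → ℤ)} {f g f' g' : Ser I} (h : Rel σ f f') (h' : Rel σ g g') :
    Rel σ (f + g) (f' + g') := fun v => by
  rw [HahnSeries.coeff_add, HahnSeries.coeff_add, h, h']

theorem Rel.zero (σ : (I → ℤ) ≃+ (I → ℤ)) : Rel σ (0 : Ser I) 0 := fun _ => rfl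

theorem Rel.single (σ : (I → ℤ) ≃+ (I → ℤ)) (a : I → ℤ) (c : ℂ) :
    Rel σ (HahnSeries.single a c) (HahnSeries.single (σ a) c) := fun v => by
  classical
  simp only [HahnSeries.coeff_single, EmbeddingLike.apply_eq_iff_eq]

theorem Rel.one (σ : (I → ℤ) ≃+ (I → ℤ)) : Rel σ (1 : Ser I) 1 := by
  have := Rel.single σ 0 1
  rwa [map_zero] at this

theorem Rel.sum {σ : (I → ℤ) ≃+ (I → ℤ)} {ι : Type*} (s : Finset ι) {f f' : ι → Ser I}
    (h : ∀ i ∈ s, Rel σ (f i) (f' i)) : Rel σ (∑ i ∈ s, f i) (∑ i ∈ s, f' i) := by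
  classical
  induction s using Finset.induction_on with
  | empty => simpa using Rel.zero σ
  | insert a s ha ih =>
    rw [sum_insert ha, sum_insert ha]
    exact (h a (mem_insert_self _ _)).add (ih fun i hi => h i (mem_insert_of_mem hi))

theorem Rel.prod {σ : (I → ℤ) ≃+ (I → ℤ)} {ι : Type*} (s : Finset ι) {f f' : ι → Ser I}
    (h : ∀ i ∈ s, Rel σ (f i) (f' i)) : Rel σ (∏ i ∈ s, f i) (∏ i ∈ s, f' i) := by
  classical
  induction s using Finset.induction_on with
  | empty => simpa using Rel.one σ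
  | insert a s ha ih =>
    rw [prod_insert ha, prod_insert ha]
    exact (h a (mem_insert_self _ _)).mul (ih fun i hi => h i (mem_insert_of_mem hi))

theorem Rel.unique {σ : (I → ℤ) ≃+ (I → ℤ)} {f g g' : Ser I} (h : Rel σ f g) (h' : Rel σ f g') :
    g = g' := by
  ext v
  obtain ⟨u, rfl⟩ := σ.surjective v
  rw [h, h']

theorem Rel.symm {σ : (I → ℤ) ≃+ (I → ℤ)} {f g : Ser I} (h : Rel σ f g) : Rel σ.symm g f :=
  fun v => by rw [← h, AddEquiv.apply_symm_apply]

/-- A Laurent polynomial can be moved by any `σ`. -/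
theorem exists_rel_of_finite (σ : (I → ℤ) ≃+ (I → ℤ)) {p : Ser I} (hp : p.support.Finite) :
    ∃ p' : Ser I, p'.support.Finite ∧ Rel σ p p' := by
  have hf : (Function.support fun v => p.coeff (σ.symm v)).Finite :=
    hp.preimage σ.symm.injective.injOn
  exact ⟨⟨fun v => p.coeff (σ.symm v), hf.isPWO⟩, hf, fun v => by simp⟩

variable [Fintype I]

/-- An additive, injective, monotone map to a linear order. -/
noncomputable def lx (I : Type*) [Fintype I] : (I → ℤ) →+ Lex (Fin (Fintype.card I) → ℤ) where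
  toFun v := toLex fun k => v ((Fintype.equivFin I).symm k)
  map_zero' := rfl
  map_add' _ _ := rfl

theorem lx_injective : Function.Injective (lx I) := fun u v h => by
  funext i
  have := congrFun (toLex.injective h) (Fintype.equivFin I i)
  simpa using this

theorem lx_monotone : Monotone (lx I) := fun _ _ h =>
  Pi.toLex_monotone fun k => h ((Fintype.equivFin I).symm k)

theorem exists_lx_min {f : Ser I} (hf : f ≠ 0) :
    ∃ a, f.coeff a ≠ 0 ∧ ∀ c, f.coeff c ≠ 0 → lx I a ≤ lx I c := by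
  have h1 : (lx I '' f.support).IsWF := (f.isPWO_support.image_of_monotone lx_monotone).isWF
  have h2 : (lx I '' f.support).Nonempty := (HahnSeries.support_nonempty_iff.2 hf).image _
  obtain ⟨a, ha, h⟩ := h1.min_mem h2
  exact ⟨a, ha, fun c hc => h ▸ h1.min_le h2 ⟨c, hc, rfl⟩⟩

instance : NoZeroDivisors (Ser I) where
  eq_zero_or_eq_zero_of_mul_eq_zero {f g} h := by
    by_contra hne
    push Not at hne
    obtain ⟨a, ha, ha'⟩ := exists_lx_min hne.1
    obtain ⟨b, hb, hb'⟩ := exists_lx_min hne.2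
    have : (f * g).coeff (a + b) = f.coeff a * g.coeff b := by
      rw [coeff_mul_finsum, finsum_eq_single _ a, add_sub_cancel_left]
      intro c hc
      by_contra h0
      rw [← Ne, mul_ne_zero_iff] at h0
      have h1 := ha' c h0.1
      have h2 := hb' _ h0.2
      rw [map_sub, map_add, le_sub_iff_add_le, add_comm (lx I a), add_le_add_iff_left] at h2
      exact hc (lx_injective (le_antisymm h2 h1))
    rw [h] at this
    exact mul_ne_zero ha hb this.symm

instance : IsDomain (Ser I) := NoZeroDivisors.to_isDomain _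

theorem isPWO_cone : {m : I → ℤ | 0 ≤ m}.IsPWO := by
  have h : (Set.Ici (0 : ℤ)).IsPWO := (bddBelow_Ici.isWF).isPWO
  have := Set.IsPWO.pi (ι := I) (α := fun _ => ℤ) (s := fun _ => Set.Ici 0) fun _ => h
  exact this.mono fun m hm i _ => hm i

open Classical in
/-- The power series with coefficients `a` on the positive cone. -/
noncomputable def ser (a : (I → ℤ) → ℂ) : Ser I :=
  ⟨fun m => if 0 ≤ m then a m else 0, isPWO_cone.mono fun m hm => by
    by_contra h
    exact hm (if_neg h)⟩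

theorem coeff_ser_of {a : (I → ℤ) → ℂ} {m : I → ℤ} (h : 0 ≤ m) : (ser a).coeff m = a m :=
  if_pos h

theorem coeff_ser_of_not {a : (I → ℤ) → ℂ} {m : I → ℤ} (h : ¬ 0 ≤ m) : (ser a).coeff m = 0 :=
  if_neg h

theorem pos_ser (a : (I → ℤ) → ℂ) : Pos (ser a) := fun _ hm => by
  by_contra h
  exact hm (coeff_ser_of_not h)

theorem coeff_ser {a : (I → ℤ) → ℂ} (ha : ∀ m, a m ≠ 0 → 0 ≤ m) (m : I → ℤ) :
    (ser a).coeff m = a m := by
  by_cases h : 0 ≤ m
  · exact coeff_ser_of h
  · rw [coeff_ser_of_not h]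
    by_contra h0
    exact h (ha m (Ne.symm h0))

omit [Fintype I] in
theorem Pos.mul {f g : Ser I} (hf : Pos f) (hg : Pos g) : Pos (f * g) := fun _ hm => by
  obtain ⟨a, b, ha, hb, rfl⟩ := exists_of_coeff_mul_ne_zero hm
  exact add_nonneg (hf a ha) (hg b hb)

omit [Fintype I] in
theorem Pos.one : Pos (1 : Ser I) := fun m hm => by
  classical
  rw [HahnSeries.coeff_one] at hm
  by_contra h
  exact hm (if_neg fun h0 => h h0.ge)

omit [Fintype I] in
theorem Pos.prod {ι : Type*} (s : Finset ι) {f : ι → Ser I} (h : ∀ i ∈ s, Pos (f i)) :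
    Pos (∏ i ∈ s, f i) :=
  Finset.prod_induction _ _ (fun _ _ => Pos.mul) Pos.one h

theorem coeff_mul_Icc [DecidableEq I] {f g : Ser I} (hf : Pos f) (hg : Pos g) (m : I → ℤ) :
    (f * g).coeff m = ∑ a ∈ Finset.Icc 0 m, f.coeff a * g.coeff (m - a) := by
  rw [coeff_mul_finsum]
  refine finsum_eq_sum_of_support_subset _ fun a ha => ?_
  rw [Function.mem_support, mul_ne_zero_iff] at ha
  rw [mem_coe, Finset.mem_Icc]
  exact ⟨hf a ha.1, sub_nonneg.1 (hg _ ha.2)⟩

omit [Fintype I] in
theorem coeff_zero_mul {f g : Ser I} (hf : Pos f) (hg : Pos g) :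
    (f * g).coeff 0 = f.coeff 0 * g.coeff 0 := by
  rw [coeff_mul_finsum, finsum_eq_single _ 0, sub_zero]
  intro c hc
  by_contra h0
  rw [← Ne, mul_ne_zero_iff] at h0
  exact hc (le_antisymm (sub_nonneg.1 (hg _ h0.2)) (hf _ h0.1))

end Pool.Agent.Lib.MP_ff61db_al.Pt.S6
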