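import Pool.Agent.Lib.MP_ff61db_al.Pt.S6Base

/-! Euler derivations, formal exponential and logarithm. -/

namespace Pool.Agent.Lib.MP_ff61db_al.Pt.S6

open Finset

variable {I : Type*}

/-- The Euler derivation attached to an additive map. -/
noncomputable def eul (l : (I → ℤ) →+ ℂ) (f : Ser I) : Ser I :=
  ⟨fun m => l m * f.coeff m, f.isPWO_support.mono fun _ hm => right_ne_zero_of_mul hm⟩

@[simp] theorem coeff_eul (l : (I → ℤ) →+ ℂ) (f : Ser I) (m : I → ℤ) :
    (eul l f).coeff m = l m * f.coeff m := rfl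

theorem eul_mul (l : (I → ℤ) →+ ℂ) (f g : Ser I) :
    eul l (f * g) = eul l f * g + f * eul l g := by
  ext m
  rw [HahnSeries.coeff_add, coeff_eul, coeff_mul_finsum, coeff_mul_finsum, coeff_mul_finsum,
    ← finsum_add_distrib (finite_mul_support _ _ m) (finite_mul_support _ _ m),
    mul_finsum' _ _ (finite_mul_support _ _ m)]
  refine finsum_congr fun a => ?_
  simp only [coeff_eul, map_sub]
  ring

theorem eul_add (l : (I → ℤ) →+ ℂ) (f g : Ser I) : eul l (f + g) = eul l f + eul l g := by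
  ext m
  simp [mul_add]

theorem eul_sub (l : (I → ℤ) →+ ℂ) (f g : Ser I) : eul l (f - g) = eul l f - eul l g := by
  ext m
  simp [mul_sub]

theorem eul_comm (l l' : (I → ℤ) →+ ℂ) (f : Ser I) : eul l (eul l' f) = eul l' (eul l f) := by
  ext m
  simp only [coeff_eul]
  ring

theorem Pos.eul {f : Ser I} (hf : Pos f) (l : (I → ℤ) →+ ℂ) : Pos (eul l f) :=
  fun m hm => hf m (right_ne_zero_of_mul hm)

theorem Pos.add {f g : Ser I} (hf : Pos f) (hg : Pos g) : Pos (f + g) := fun m hm => by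
  by_contra h
  apply hm
  rw [HahnSeries.coeff_add, of_not_not (mt (hf m) h), of_not_not (mt (hg m) h), add_zero]

theorem Pos.neg {f : Ser I} (hf : Pos f) : Pos (-f) := fun m hm =>
  hf m fun h => hm (by rw [HahnSeries.coeff_neg, h, neg_zero])

theorem Pos.sub {f g : Ser I} (hf : Pos f) (hg : Pos g) : Pos (f - g) := by
  rw [sub_eq_add_neg]
  exact hf.add hg.neg

theorem Pos.zero : Pos (0 : Ser I) := fun _ hm => absurd rfl hm

open Classical in
/-- Restriction of a series to a set of exponents. -/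
noncomputable def res (S : Set (I → ℤ)) (f : Ser I) : Ser I :=
  ⟨fun m => if m ∈ S then f.coeff m else 0, f.isPWO_support.mono fun m hm h0 => hm (by
    change (if m ∈ S then f.coeff m else 0) = 0
    rw [h0, ite_self])⟩

theorem coeff_res_of {S : Set (I → ℤ)} (f : Ser I) {m : I → ℤ} (h : m ∈ S) :
    (res S f).coeff m = f.coeff m := if_pos h

theorem coeff_res_of_not {S : Set (I → ℤ)} (f : Ser I) {m : I → ℤ} (h : m ∉ S) :
    (res S f).coeff m = 0 := if_neg h

theorem of_coeff_res {S : Set (I → ℤ)} {f : Ser I} {m : I → ℤ} (h : (res S f).coeff m ≠ 0) :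
    m ∈ S ∧ f.coeff m ≠ 0 := by
  by_cases hm : m ∈ S
  · exact ⟨hm, by rwa [coeff_res_of f hm] at h⟩
  · exact absurd (coeff_res_of_not f hm) h

theorem Pos.res {f : Ser I} (hf : Pos f) (S : Set (I → ℤ)) : Pos (res S f) :=
  fun m hm => hf m (of_coeff_res hm).2

theorem res_union {S T : Set (I → ℤ)} (h : Disjoint S T) (f : Ser I) :
    res (S ∪ T) f = res S f + res T f := by
  ext m
  rw [HahnSeries.coeff_add]
  by_cases hS : m ∈ S
  · rw [coeff_res_of f (Or.inl hS), coeff_res_of f hS,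
      coeff_res_of_not f (Set.disjoint_left.1 h hS), add_zero]
  · by_cases hT : m ∈ T
    · rw [coeff_res_of f (Or.inr hT), coeff_res_of f hT, coeff_res_of_not f hS, zero_add]
    · rw [coeff_res_of_not f (fun h' => h'.elim hS hT), coeff_res_of_not f hS,
        coeff_res_of_not f hT, add_zero]

theorem eul_res (l : (I → ℤ) →+ ℂ) (S : Set (I → ℤ)) (f : Ser I) :
    eul l (res S f) = res S (eul l f) := by
  ext m
  by_cases h : m ∈ S
  · rw [coeff_eul, coeff_res_of _ h, coeff_res_of _ h, coeff_eul]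
  · rw [coeff_eul, coeff_res_of_not _ h, coeff_res_of_not _ h, mul_zero]

/-- `P` is the exponential of `b`. -/
structure IsExp (b P : Ser I) : Prop where
  posb : Pos b
  posP : Pos P
  b0 : b.coeff 0 = 0
  P0 : P.coeff 0 = 1
  eq : ∀ l : (I → ℤ) →+ ℂ, eul l P = P * eul l b

theorem IsExp.mul {b b' P P' : Ser I} (h : IsExp b P) (h' : IsExp b' P') :
    IsExp (b + b') (P * P') where
  posb := h.posb.add h'.posb
  posP := h.posP.mul h'.posP
  b0 := by rw [HahnSeries.coeff_add, h.b0, h'.b0, add_zero]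
  P0 := by rw [coeff_zero_mul h.posP h'.posP, h.P0, h'.P0, one_mul]
  eq l := by rw [eul_mul, eul_add, h.eq, h'.eq]; ring

theorem IsExp.zero : IsExp (0 : Ser I) 1 where
  posb := Pos.zero
  posP := Pos.one
  b0 := rfl
  P0 := by classical simp
  eq l := by
    classical
    ext m
    have : eul l (0 : Ser I) = 0 := by ext; simp
    rw [this, mul_zero, coeff_eul, HahnSeries.coeff_one]
    split_ifs with h <;> simp [h]

theorem IsExp.ne_zero {b P : Ser I} (h : IsExp b P) : P ≠ 0 := fun h0 => by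
  have := h.P0
  rw [h0] at this
  exact zero_ne_one this

theorem IsExp.of_rel {σ : (I → ℤ) ≃+ (I → ℤ)} {b P b' P' : Ser I} (h : IsExp b P)
    (hb : Rel σ b b') (hP : Rel σ P P') (pb : Pos b') (pP : Pos P') : IsExp b' P' where
  posb := pb
  posP := pP
  b0 := by rw [← map_zero σ, hb, h.b0]
  P0 := by rw [← map_zero σ, hP, h.P0]
  eq l := by
    have key : ∀ {f f' : Ser I}, Rel σ f f' →
        Rel σ (eul (l.comp σ.toAddMonoidHom) f) (eul l f') := fun hf v => by
      rw [coeff_eul, coeff_eul, hf]; rfl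
    have h1 := key hP
    rw [h.eq] at h1
    exact h1.unique (hP.mul (key hb))

variable [Fintype I]

/-- The total degree with complex values. -/
noncomputable def dc (I : Type*) [Fintype I] : (I → ℤ) →+ ℂ where
  toFun v := ((∑ i, v i : ℤ) : ℂ)
  map_zero' := by simp
  map_add' u v := by simp [Finset.sum_add_distrib]

theorem dc_ne_zero {m : I → ℤ} (hm : 0 ≤ m) (h0 : m ≠ 0) : dc I m ≠ 0 := by
  intro h
  have h1 : ∑ i, m i = 0 := by exact_mod_cast (show ((∑ i, m i : ℤ) : ℂ) = 0 from h)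
  exact h0 (funext fun i => (Finset.sum_eq_zero_iff_of_nonneg fun j _ => hm j).1 h1 i (mem_univ i))

theorem wf_cone : WellFounded fun a m : I → ℤ => 0 ≤ a ∧ a < m := by
  have h := Set.wellFoundedOn_iff.1 (isPWO_cone (I := I)).isWF
  exact Subrelation.wf (fun {a m} ham => ⟨ham.2, ham.1, ham.1.trans ham.2.le⟩) h

theorem exists_rec (F : ((I → ℤ) → ℂ) → (I → ℤ) → ℂ)
    (hF : ∀ f g m, (∀ a, 0 ≤ a → a < m → f a = g a) → F f m = F g m) :
    ∃ f, ∀ m, f m = F f m := by
  classical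
  refine ⟨wf_cone.fix fun m rec => F (fun a => if h : 0 ≤ a ∧ a < m then rec a h else 0) m,
    fun m => ?_⟩
  rw [WellFounded.fix_eq]
  exact hF _ _ _ fun a h1 h2 => dif_pos ⟨h1, h2⟩

theorem eq_zero_of_eul {g β : Ser I} (hg : Pos g) (hβ : Pos β) (h0 : β.coeff 0 = 0)
    (g0 : g.coeff 0 = 0) (h : eul (dc I) g = g * β) : g = 0 := by
  ext m
  refine wf_cone.induction (C := fun m => g.coeff m = 0) m fun m ih => ?_
  by_contra hm
  have hm0 : m ≠ 0 := fun e => hm (e ▸ g0)
  have h1 : (g * β).coeff m = 0 := by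
    by_contra h2
    obtain ⟨a, c, ha, hc, rfl⟩ := exists_of_coeff_mul_ne_zero h2
    have hc0 : c ≠ 0 := fun e => hc (e ▸ h0)
    exact ha (ih a ⟨hg a ha, lt_add_of_pos_right a (lt_of_le_of_ne (hβ c hc) hc0.symm)⟩)
  rw [← h, coeff_eul] at h1
  exact mul_ne_zero (dc_ne_zero (hg m hm) hm0) hm h1

theorem isExp_of_dc {b P : Ser I} (pb : Pos b) (pP : Pos P) (b0 : b.coeff 0 = 0)
    (P0 : P.coeff 0 = 1) (h : eul (dc I) P = P * eul (dc I) b) : IsExp b P where
  posb := pb
  posP := pP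
  b0 := b0
  P0 := P0
  eq l := by
    rw [← sub_eq_zero]
    refine eq_zero_of_eul (β := eul (dc I) b) ((pP.eul l).sub (pP.mul (pb.eul l))) (pb.eul _)
      (by simp) ?_ ?_
    · rw [HahnSeries.coeff_sub, coeff_zero_mul pP (pb.eul l)]
      simp
    · rw [eul_sub, eul_comm, h, eul_mul, eul_mul, h, eul_comm]
      ring

theorem IsExp.unique {b P P' : Ser I} (h : IsExp b P) (h' : IsExp b P') : P = P' := by
  rw [← sub_eq_zero]
  refine eq_zero_of_eul (β := eul (dc I) b) (h.posP.sub h'.posP) (h.posb.eul _) (by simp) ?_ ?_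
  · rw [HahnSeries.coeff_sub, h.P0, h'.P0, sub_self]
  · rw [eul_sub, h.eq, h'.eq, sub_mul]

theorem IsExp.unique_log {b b' P : Ser I} (h : IsExp b P) (h' : IsExp b' P) : b = b' := by
  have h1 : eul (dc I) b = eul (dc I) b' :=
    mul_left_cancel₀ h.ne_zero ((h.eq _).symm.trans (h'.eq _))
  ext m
  have h2 : dc I m * b.coeff m = dc I m * b'.coeff m := congrArg (fun f => f.coeff m) h1
  by_cases hm0 : m = 0
  · rw [hm0, h.b0, h'.b0]
  · by_cases hm : 0 ≤ m
    · exact mul_left_cancel₀ (dc_ne_zero hm hm0) h2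
    · rw [of_not_not (mt (h.posb m) hm), of_not_not (mt (h'.posb m) hm)]

theorem exists_exp {b : Ser I} (pb : Pos b) (b0 : b.coeff 0 = 0) : ∃ P, IsExp b P := by
  classical
  obtain ⟨f, hf⟩ := exists_rec (I := I) (fun f m => if m = 0 then 1 else
      (∑ a ∈ (Finset.Icc 0 m).erase m, f a * (eul (dc I) b).coeff (m - a)) / dc I m)
    fun f g m h => by
      rw [Finset.sum_congr rfl fun a ha => ?_]
      rw [mem_erase, Finset.mem_Icc] at ha
      rw [h a ha.2.1 (lt_of_le_of_ne ha.2.2 ha.1)]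
  refine ⟨ser f, isExp_of_dc pb (pos_ser f) b0 ?_ ?_⟩
  · rw [coeff_ser_of le_rfl, hf, if_pos rfl]
  · ext m
    rw [coeff_mul_Icc (pos_ser f) (pb.eul _), coeff_eul]
    by_cases hm : 0 ≤ m
    · rw [← Finset.add_sum_erase _ _ (Finset.mem_Icc.2 ⟨hm, le_rfl⟩), sub_self, coeff_eul, map_zero,
        zero_mul, mul_zero, zero_add, coeff_ser_of hm]
      by_cases hm0 : m = 0
      · subst hm0
        simp
      · rw [hf m, if_neg hm0, mul_div_cancel₀ _ (dc_ne_zero hm hm0)]
        refine Finset.sum_congr rfl fun a ha => ?_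
        rw [mem_erase, Finset.mem_Icc] at ha
        rw [coeff_ser_of ha.2.1]
    · rw [coeff_ser_of_not hm, Finset.Icc_eq_empty hm, sum_empty, mul_zero]

theorem exists_log {P : Ser I} (pP : Pos P) (P0 : P.coeff 0 = 1) : ∃ b, IsExp b P := by
  classical
  obtain ⟨f, hf⟩ := exists_rec (I := I) (fun f m => if m = 0 then 0 else P.coeff m -
      (∑ a ∈ (Finset.Icc 0 m).erase m, dc I a * f a * P.coeff (m - a)) / dc I m)
    fun f g m h => by
      rw [Finset.sum_congr rfl fun a ha => ?_]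
      rw [mem_erase, Finset.mem_Icc] at ha
      rw [h a ha.2.1 (lt_of_le_of_ne ha.2.2 ha.1)]
  refine ⟨ser f, isExp_of_dc (pos_ser f) pP ?_ P0 ?_⟩
  · rw [coeff_ser_of le_rfl, hf, if_pos rfl]
  · ext m
    rw [mul_comm P, coeff_mul_Icc ((pos_ser f).eul _) pP, coeff_eul]
    by_cases hm : 0 ≤ m
    · rw [← Finset.add_sum_erase _ _ (Finset.mem_Icc.2 ⟨hm, le_rfl⟩), sub_self, coeff_eul, P0,
        mul_one, coeff_ser_of hm]
      by_cases hm0 : m = 0
      · subst hm0
        simp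
      · rw [hf m, if_neg hm0, mul_sub, mul_div_cancel₀ _ (dc_ne_zero hm hm0), eq_comm,
          ← eq_sub_iff_add_eq, sub_right_inj]
        refine Finset.sum_congr rfl fun a ha => ?_
        rw [mem_erase, Finset.mem_Icc] at ha
        rw [coeff_eul, coeff_ser_of ha.2.1]
    · rw [of_not_not (mt (pP m) hm), Finset.Icc_eq_empty hm, sum_empty, mul_zero]

/-- Outside a monoid containing the smaller exponents, `P` and `b` agree. -/
theorem IsExp.coeff_eq {b P : Ser I} (h : IsExp b P) (M : AddSubmonoid (I → ℤ)) {m : I → ℤ}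
    (hm : m ∉ M) (hb : ∀ a, 0 ≤ a → a < m → b.coeff a ≠ 0 → a ∈ M)
    (hP : ∀ a, 0 ≤ a → a < m → P.coeff a ≠ 0 → a ∈ M) : P.coeff m = b.coeff m := by
  have hm0 : m ≠ 0 := fun e => hm (e ▸ M.zero_mem)
  by_cases hm1 : 0 ≤ m
  · have h1 := congrArg (fun f => f.coeff m) (h.eq (dc I))
    rw [coeff_eul, coeff_mul_finsum, finsum_eq_single _ 0, h.P0, one_mul, sub_zero,
      coeff_eul] at h1
    · exact mul_left_cancel₀ (dc_ne_zero hm1 hm0) h1
    · intro a ha
      by_contra h2
      rw [← Ne, mul_ne_zero_iff, coeff_eul, mul_ne_zero_iff] at h2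
      have h3 := h.posP a h2.1
      have h4 := h.posb _ h2.2.2
      have h5 : m - a ≠ 0 := fun e => h2.2.2 (e ▸ h.b0)
      have h6 := hP a h3 (sub_pos.1 (lt_of_le_of_ne h4 h5.symm)) h2.1
      have h7 := hb _ h4 (sub_lt_self m (lt_of_le_of_ne h3 (Ne.symm ha))) h2.2.2
      exact hm (by simpa using M.add_mem h6 h7)
  · rw [of_not_not (mt (h.posb m) hm1), of_not_not (mt (h.posP m) hm1)]

theorem IsExp.exp_mem {b P : Ser I} (h : IsExp b P) (M : AddSubmonoid (I → ℤ))
    (hb : ∀ a, b.coeff a ≠ 0 → a ∈ M) (m : I → ℤ) : P.coeff m ≠ 0 → m ∈ M := by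
  refine wf_cone.induction (C := fun m => P.coeff m ≠ 0 → m ∈ M) m fun m ih hm => ?_
  by_contra h1
  rw [h.coeff_eq M h1 (fun a _ _ => hb a) fun a h2 h3 => ih a ⟨h2, h3⟩] at hm
  exact h1 (hb m hm)

theorem IsExp.log_mem {b P : Ser I} (h : IsExp b P) (M : AddSubmonoid (I → ℤ))
    (hP : ∀ a, P.coeff a ≠ 0 → a ∈ M) (m : I → ℤ) : b.coeff m ≠ 0 → m ∈ M := by
  refine wf_cone.induction (C := fun m => b.coeff m ≠ 0 → m ∈ M) m fun m ih hm => ?_
  by_contra h1
  rw [← h.coeff_eq M h1 (fun a h2 h3 => ih a ⟨h2, h3⟩) fun a _ _ => hP a] at hm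
  exact h1 (hP m hm)

/-- On a simple root the logarithm has the same coefficient. -/
theorem IsExp.coeff_single [DecidableEq I] {b P : Ser I} (h : IsExp b P) (i : I) :
    P.coeff (Pi.single i 1) = b.coeff (Pi.single i 1) := by
  have key : ∀ a : I → ℤ, 0 ≤ a → a < Pi.single i 1 → a ∈ (⊥ : AddSubmonoid (I → ℤ)) := by
    intro a h0 h1
    rw [AddSubmonoid.mem_bot]
    by_contra h2
    refine h1.ne (le_antisymm h1.le fun j => ?_)
    by_cases hj : j = i
    · subst hj
      obtain ⟨k, hk⟩ := Function.ne_iff.1 h2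
      have h3 := h1.le k
      have h4 := h0 k
      by_cases hkj : k = j
      · subst hkj
        simp only [Pi.single_eq_same, Pi.zero_apply] at *
        omega
      · simp only [Pi.single_eq_of_ne hkj, Pi.zero_apply] at *
        omega
    · rw [Pi.single_eq_of_ne hj]
      exact h0 j
  refine h.coeff_eq ⊥ ?_ (fun a h0 h1 _ => key a h0 h1) fun a h0 h1 _ => key a h0 h1
  rw [AddSubmonoid.mem_bot]
  intro e
  simpa using congrFun e i

/-- Moving the exponents of a series along `σ` when the result is again a power series. -/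
theorem exists_rel_pos (σ : (I → ℤ) ≃+ (I → ℤ)) {f : Ser I} (hf : ∀ v, f.coeff v ≠ 0 → 0 ≤ σ v) :
    ∃ f', Pos f' ∧ Rel σ f f' := by
  refine ⟨ser fun v => f.coeff (σ.symm v), pos_ser _, fun v => ?_⟩
  rw [coeff_ser, AddEquiv.symm_apply_apply]
  intro m hm
  simpa using hf _ hm

/-- The monoid of vectors that `σ` moves into the cone. -/
def posMon (σ : (I → ℤ) ≃+ (I → ℤ)) : AddSubmonoid (I → ℤ) where
  carrier := {v | 0 ≤ σ v}
  zero_mem' := by simp
  add_mem' {a b} ha hb := by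
    change 0 ≤ σ (a + b)
    rw [map_add]
    exact add_nonneg ha hb

theorem IsExp.rel_log {σ : (I → ℤ) ≃+ (I → ℤ)} {b P b' P' : Ser I} (h : IsExp b P)
    (h' : IsExp b' P') (hP : Rel σ P P') : Rel σ b b' := by
  obtain ⟨c, pc, hc⟩ := exists_rel_pos σ (f := b)
    (h.log_mem (posMon σ) fun a ha => h'.posP _ (by rwa [hP]))
  rwa [← (h.of_rel hc hP pc h'.posP).unique_log h']

theorem IsExp.rel_exp {σ : (I → ℤ) ≃+ (I → ℤ)} {b P b' P' : Ser I} (h : IsExp b P)
    (h' : IsExp b' P') (hb : Rel σ b b') : Rel σ P P' := by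
  obtain ⟨Q, pQ, hQ⟩ := exists_rel_pos σ (f := P)
    (h.exp_mem (posMon σ) fun a ha => h'.posb _ (by rwa [hb]))
  rwa [← (h.of_rel hb hQ h'.posb pQ).unique h']

/-- Truncation: a factor whose logarithm vanishes below `m` does not change the coefficient. -/
theorem IsExp.coeff_mul_trunc {b Q P : Ser I} (h : IsExp b Q) (pP : Pos P) {m : I → ℤ}
    (hb : ∀ a, b.coeff a ≠ 0 → ¬ a ≤ m) : (Q * P).coeff m = P.coeff m := by
  let M : AddSubmonoid (I → ℤ) :=
    { carrier := {a | a = 0 ∨ (0 ≤ a ∧ ¬ a ≤ m)}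
      zero_mem' := Or.inl rfl
      add_mem' := by
        rintro a c (rfl | ha) hc
        · rwa [zero_add]
        · rcases hc with rfl | hc
          · rw [add_zero]
            exact Or.inr ha
          · exact Or.inr ⟨add_nonneg ha.1 hc.1,
              fun e => ha.2 ((le_add_of_nonneg_right hc.1).trans e)⟩ }
  rw [coeff_mul_finsum, finsum_eq_single _ 0, h.P0, one_mul, sub_zero]
  intro a ha
  by_contra h2
  rw [← Ne, mul_ne_zero_iff] at h2
  rcases h.exp_mem M (fun c hc => Or.inr ⟨h.posb c hc, hb c hc⟩) a h2.1 with h3 | h3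
  · exact ha h3
  · exact h3.2 (sub_nonneg.1 (pP _ h2.2))

omit [Fintype I] in
/-- Restriction to a face is multiplicative. -/
theorem res_face_mul {Λ : Type*} [AddCommGroup Λ] [LinearOrder Λ] [IsOrderedAddMonoid Λ]
    (l : (I → ℤ) →+ Λ) {f g : Ser I} (hf : ∀ a, f.coeff a ≠ 0 → 0 ≤ l a)
    (hg : ∀ a, g.coeff a ≠ 0 → 0 ≤ l a) :
    res {a | l a = 0} (f * g) = res {a | l a = 0} f * res {a | l a = 0} g := by
  ext m
  by_cases hm : l m = 0
  · rw [coeff_res_of _ hm, coeff_mul_finsum, coeff_mul_finsum]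
    refine finsum_congr fun a => ?_
    by_cases ha : l a = 0
    · rw [coeff_res_of _ ha, coeff_res_of]
      change l (m - a) = 0
      rw [map_sub, hm, ha, sub_zero]
    · rw [coeff_res_of_not _ ha, zero_mul]
      by_contra h2
      rw [← Ne, mul_ne_zero_iff] at h2
      have h3 := hg _ h2.2
      rw [map_sub, hm, zero_sub, neg_nonneg] at h3
      exact ha (le_antisymm h3 (hf _ h2.1))
  · rw [coeff_res_of_not _ hm]
    by_contra h2
    obtain ⟨a, c, ha, hc, rfl⟩ := exists_of_coeff_mul_ne_zero (Ne.symm h2)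
    apply hm
    rw [map_add, (of_coeff_res ha).1, (of_coeff_res hc).1, add_zero]

theorem IsExp.face {Λ : Type*} [AddCommGroup Λ] [LinearOrder Λ] [IsOrderedAddMonoid Λ]
    (l : (I → ℤ) →+ Λ) {b K : Ser I} (h : IsExp b K) (hK : ∀ a, K.coeff a ≠ 0 → 0 ≤ l a) :
    IsExp (res {a | l a = 0} b) (res {a | l a = 0} K) where
  posb := h.posb.res _
  posP := h.posP.res _
  b0 := by rw [coeff_res_of _ (map_zero l), h.b0]
  P0 := by rw [coeff_res_of _ (map_zero l), h.P0]
  eq l' := by
    have hb := h.log_mem ((AddSubmonoid.nonneg Λ).comap l) hK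
    rw [eul_res, eul_res, h.eq, res_face_mul l hK]
    exact fun a ha => hb a (right_ne_zero_of_mul ha)

end Pool.Agent.Lib.MP_ff61db_al.Pt.S6
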