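import Pool.Agent.Lib.MP_ff61db_al.Pt.S6Nrm

namespace Pool.Agent.Lib.MP_ff61db_al.Pt.S6

variable {I : Type*} [Fintype I]

theorem map_eq_sum [DecidableEq I] {A F : Type*} [AddCommGroup A] [FunLike F (I → ℤ) A]
    [AddMonoidHomClass F (I → ℤ) A] (w : F) (v : I → ℤ) :
    w v = ∑ i, v i • w (Pi.single i 1) := by
  conv_lhs => rw [← Finset.univ_sum_single v, map_sum]
  refine Finset.sum_congr rfl fun i _ => ?_
  rw [← map_zsmul, ← Pi.single_smul, smul_eq_mul, mul_one]

/-- Minkowski: a periodic vector of a map congruent to the identity mod 3 is fixed. -/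
theorem fixed_of_periodic (w : (I → ℤ) ≃+ (I → ℤ)) (hw : ∀ m i, (3 : ℤ) ∣ w m i - m i)
    (v : I → ℤ) (k : ℕ) (hk : 0 < k) (h : w^[k] v = v) : w v = v := by
  have hsub : ∀ (j : ℕ) a b, w^[j] (a - b) = w^[j] a - w^[j] b := by
    intro j a b
    induction j with
    | zero => rfl
    | succ j ih => simp only [Function.iterate_succ_apply', ih, map_sub]
  have hsm : ∀ (j : ℕ) (c : ℤ) a, w^[j] (c • a) = c • w^[j] a := by
    intro j c a
    induction j with
    | zero => rfl
    | succ j ih => simp only [Function.iterate_succ_apply', ih, map_zsmul]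
  obtain ⟨N, hN⟩ : ∃ N : (I → ℤ) → ℕ,
      ∀ u, N u = ∑ j ∈ Finset.range k, ∑ i, (w^[j] u i).natAbs := ⟨_, fun _ => rfl⟩
  have hinv : ∀ u, w^[k] u = u → N (w u) = N u := by
    intro u hu
    have e1 := Finset.sum_range_succ (fun j => ∑ i, (w^[j] u i).natAbs) k
    have e2 := Finset.sum_range_succ' (fun j => ∑ i, (w^[j] u i).natAbs) k
    simp only [hu, Function.iterate_succ_apply, Function.iterate_zero_apply] at e1 e2
    rw [hN, hN]
    omega
  have htri : ∀ a b, N (a - b) ≤ N a + N b := by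
    intro a b
    rw [hN, hN, hN, ← Finset.sum_add_distrib]
    refine Finset.sum_le_sum fun j _ => ?_
    rw [← Finset.sum_add_distrib, hsub]
    exact Finset.sum_le_sum fun i _ => Int.natAbs_sub_le _ _
  have h3 : ∀ a, N ((3 : ℤ) • a) = 3 * N a := by
    intro a
    rw [hN, hN, Finset.mul_sum]
    refine Finset.sum_congr rfl fun j _ => ?_
    rw [Finset.mul_sum, hsm]
    refine Finset.sum_congr rfl fun i _ => ?_
    rw [Pi.smul_apply, smul_eq_mul, Int.natAbs_mul]
    rfl
  have h0 : ∀ a, N a = 0 → a = 0 := by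
    intro a ha
    rw [hN, Finset.sum_eq_zero_iff] at ha
    have := ha 0 (Finset.mem_range.2 hk)
    rw [Finset.sum_eq_zero_iff] at this
    funext i
    exact Int.natAbs_eq_zero.1 (this i (Finset.mem_univ i))
  have key : ∀ n : ℕ, ∀ u, N u = n → w^[k] u = u → w u = u := by
    intro n
    induction n using Nat.strong_induction_on with
    | _ n ih =>
      intro u hn hu
      rcases Nat.eq_zero_or_pos n with h00 | hpos
      · rw [h0 u (hn.trans h00), map_zero]
      choose x hx using hw u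
      have hx' : w u - u = (3 : ℤ) • x := funext fun i => hx i
      have hwu : w^[k] (w u) = w u := by
        rw [← Function.iterate_succ_apply, Function.iterate_succ_apply', hu]
      have hxM : w^[k] x = x := by
        have : (3 : ℤ) • w^[k] x = (3 : ℤ) • x := by rw [← hsm, ← hx', hsub, hwu, hu]
        funext i
        have := congrFun this i
        simp only [Pi.smul_apply, smul_eq_mul] at this
        omega
      have hlt : N x < n := by
        have a1 := htri (w u) u
        rw [hx', h3, hinv u hu] at a1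
        omega
      have hfix := ih _ hlt x rfl hxM
      have hit : ∀ j : ℕ, w^[j] u = u + ((j : ℤ) * 3) • x := by
        intro j
        induction j with
        | zero => simp
        | succ j ihj =>
          rw [Function.iterate_succ_apply', ihj, map_add, map_zsmul, hfix,
            eq_add_of_sub_eq' hx', add_assoc, ← add_smul]
          push_cast
          ring_nf
      have hk' := hit k
      rw [hu] at hk'
      have hx0 : x = 0 := by
        funext i
        have := congrFun hk' i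
        simp only [Pi.add_apply, Pi.smul_apply, smul_eq_mul] at this
        have h1 : ((k : ℤ) * 3) * x i = 0 := by linarith
        have h2 : ((k : ℤ) * 3) ≠ 0 := by omega
        exact (mul_eq_zero.1 h1).resolve_left h2
      rw [hx0, smul_zero] at hx'
      exact sub_eq_zero.1 hx'
  exact key _ v rfl h

theorem nrm_nonneg (v : I → ℤ) : 0 ≤ nrm v := Finset.sum_nonneg fun _ _ => abs_nonneg _

theorem nrm_neg (v : I → ℤ) : nrm (-v) = nrm v := by simp [nrm]

theorem nrm_eq_dg {v : I → ℤ} (hv : 0 ≤ v) : nrm v = dg I v :=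
  Finset.sum_congr rfl fun i _ => abs_of_nonneg (by exact_mod_cast hv i)

theorem dg_pos {v : I → ℤ} (hv : 0 ≤ v) (h0 : v ≠ 0) : 0 < dg I v := by
  obtain ⟨i, hi⟩ := Function.ne_iff.1 h0
  refine Finset.sum_pos' (fun j _ => by exact_mod_cast hv j) ⟨i, Finset.mem_univ i, ?_⟩
  have : (0 : ℤ) < v i := lt_of_le_of_ne (hv i) (Ne.symm hi)
  exact_mod_cast this

theorem exists_growth (w : (I → ℤ) ≃+ (I → ℤ)) :
    ∃ c : ℝ, 1 ≤ c ∧ ∀ (v : I → ℤ) (k : ℕ), nrm (w^[k] v) ≤ nrm v * c ^ k := by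
  classical
  have hs : 0 ≤ ∑ i, nrm (w (Pi.single i 1)) := Finset.sum_nonneg fun _ _ => nrm_nonneg _
  have h1 : ∀ v, nrm (w v) ≤ nrm v * (1 + ∑ i, nrm (w (Pi.single i 1))) := by
    intro v
    calc nrm (w v) ≤ ∑ j, ∑ i, |(v i : ℝ)| * |((w (Pi.single i 1) j : ℤ) : ℝ)| := by
          refine Finset.sum_le_sum fun j _ => ?_
          rw [map_eq_sum w v, Finset.sum_apply]
          push_cast
          refine (Finset.abs_sum_le_sum_abs _ _).trans (le_of_eq ?_)
          refine Finset.sum_congr rfl fun i _ => ?_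
          rw [Pi.smul_apply, smul_eq_mul, Int.cast_mul, abs_mul]
      _ = ∑ i, |(v i : ℝ)| * nrm (w (Pi.single i 1)) := by
          rw [Finset.sum_comm]
          exact Finset.sum_congr rfl fun i _ => (Finset.mul_sum _ _ _).symm
      _ ≤ ∑ i, |(v i : ℝ)| * (1 + ∑ i, nrm (w (Pi.single i 1))) := by
          refine Finset.sum_le_sum fun i _ => mul_le_mul_of_nonneg_left ?_ (abs_nonneg _)
          have := Finset.single_le_sum (f := fun i => nrm (w (Pi.single i 1)))
            (fun _ _ => nrm_nonneg _) (Finset.mem_univ i)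
          linarith
      _ = _ := (Finset.sum_mul _ _ _).symm
  refine ⟨1 + ∑ i, nrm (w (Pi.single i 1)), by linarith, fun v k => ?_⟩
  induction k with
  | zero => simp
  | succ k ih =>
    rw [Function.iterate_succ_apply', pow_succ, ← mul_assoc]
    exact (h1 _).trans (mul_le_mul_of_nonneg_right ih (by linarith))

theorem le_pow_of_growth (μ c C E : ℝ) (d : ℕ) (hc : 1 ≤ c) (hE : 0 ≤ E)
    (h : ∀ K : ℕ, μ ^ K ≤ C * (K * E * c ^ K + 1) ^ d) : μ ≤ c ^ d := by
  by_contra hlt
  rw [not_le] at hlt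
  have hC : 1 ≤ C := by simpa using h 0
  have hcd : 0 < c ^ d := by positivity
  have hr : 1 < μ / c ^ d := (one_lt_div hcd).2 hlt
  have hD : 0 < C * (E + 1) ^ d := by positivity
  have ht := (tendsto_pow_const_div_const_pow_of_one_lt d hr).eventually
    (gt_mem_nhds (inv_pos.2 hD))
  obtain ⟨K, hK, hK1⟩ := (ht.and (Filter.eventually_ge_atTop 1)).exists
  have hK1' : (1 : ℝ) ≤ K := by exact_mod_cast hK1
  have hcK : 1 ≤ c ^ K := one_le_pow₀ hc
  have h1 : (K : ℝ) * E * c ^ K + 1 ≤ (E + 1) * K * c ^ K := by nlinarith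
  have h2 : μ ^ K ≤ C * (E + 1) ^ d * (K : ℝ) ^ d * (c ^ d) ^ K := by
    refine (h K).trans ?_
    have := pow_le_pow_left₀ (by positivity) h1 d
    calc C * (K * E * c ^ K + 1) ^ d ≤ C * ((E + 1) * K * c ^ K) ^ d :=
          mul_le_mul_of_nonneg_left this (by linarith)
      _ = _ := by rw [mul_pow, mul_pow, ← pow_mul, ← pow_mul, mul_comm K d]; ring
  have hμ : 0 < μ ^ K := pow_pos (hcd.trans hlt) K
  rw [div_pow, div_div_eq_mul_div, div_lt_iff₀ hμ, inv_mul_eq_div, lt_div_iff₀ hD] at hK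
  nlinarith

theorem Prim.ne_zero {v : I → ℤ} (h : Prim v) : v ≠ 0 := by
  rintro rfl
  obtain ⟨u, hu⟩ := h
  simp at hu

theorem Prim.neg {v : I → ℤ} (h : Prim v) : Prim (-v) := by
  obtain ⟨u, hu⟩ := h
  exact ⟨-u, by simp [hu]⟩

theorem Prim.map {v : I → ℤ} (h : Prim v) (w : (I → ℤ) ≃+ (I → ℤ)) : Prim (w v) := by
  obtain ⟨u, hu⟩ := h
  exact ⟨u.comp w.symm.toAddMonoidHom, by simp [hu]⟩

theorem prim_single [DecidableEq I] (i : I) : Prim (Pi.single i (1 : ℤ)) :=
  ⟨Pi.evalAddMonoidHom (fun _ => ℤ) i, by simp⟩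

theorem exists_prim {m : I → ℤ} (hm : m ≠ 0) :
    ∃ (n : ℕ) (v : I → ℤ), 0 < n ∧ Prim v ∧ m = n • v := by
  classical
  obtain ⟨c, hc⟩ := Finset.gcd_eq_sum_mul Finset.univ m
  have h0 : 0 ≤ Finset.univ.gcd m := Int.nonneg_of_normalize_eq_self Finset.normalize_gcd
  have hd : ∀ i, Finset.univ.gcd m ∣ m i := fun i => Finset.gcd_dvd (Finset.mem_univ i)
  obtain ⟨n, hn⟩ := Int.eq_ofNat_of_zero_le h0
  rw [hn] at hc hd
  choose v hv using hd
  have hn0 : n ≠ 0 := by
    rintro rfl
    exact hm (funext fun i => by simpa using hv i)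
  refine ⟨n, v, Nat.pos_of_ne_zero hn0, ⟨⟨⟨fun x => ∑ i, x i * c i, by simp⟩, fun x y => ?_⟩, ?_⟩,
    funext fun i => by simpa using hv i⟩
  · simp [add_mul, Finset.sum_add_distrib]
  · have hn' : (n : ℤ) ≠ 0 := by exact_mod_cast hn0
    refine mul_left_cancel₀ hn' ?_
    change (n : ℤ) * ∑ i, v i * c i = _
    rw [mul_one, Finset.mul_sum]
    refine Eq.trans (Finset.sum_congr rfl fun i _ => ?_) hc.symm
    rw [hv i, mul_assoc]

theorem Prim.dvd_of_zsmul {u v : I → ℤ} (hu : Prim u) {a b : ℤ} (h : a • u = b • v) : b ∣ a := by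
  obtain ⟨f, hf⟩ := hu
  have := congrArg f h
  rw [map_zsmul, map_zsmul, hf, smul_eq_mul, smul_eq_mul, mul_one] at this
  exact ⟨_, this⟩

theorem Prim.eq_of_nsmul {u v : I → ℤ} (hu : Prim u) (hv : Prim v) {a b : ℕ} (ha : 0 < a)
    (h : a • u = b • v) : a = b ∧ u = v := by
  have h' : (a : ℤ) • u = (b : ℤ) • v := by rw [natCast_zsmul, natCast_zsmul, h]
  have hab : a = b := Nat.dvd_antisymm (Int.natCast_dvd_natCast.1 (hv.dvd_of_zsmul h'.symm))
    (Int.natCast_dvd_natCast.1 (hu.dvd_of_zsmul h'))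
  refine ⟨hab, funext fun i => ?_⟩
  subst hab
  exact mul_left_cancel₀ (by exact_mod_cast ha.ne' : (a : ℤ) ≠ 0) (congrFun h' i)

theorem Prim.eq_or_of_zsmul {u v : I → ℤ} (hu : Prim u) (hv : Prim v) {a b : ℤ} (ha : a ≠ 0)
    (h : a • u = b • v) : u = v ∨ u = -v := by
  have hab := Int.natAbs_eq_natAbs_iff.1
    (Int.natAbs_eq_of_dvd_dvd (hv.dvd_of_zsmul h.symm) (hu.dvd_of_zsmul h))
  rcases hab with rfl | rfl
  · exact Or.inl (funext fun i => mul_left_cancel₀ ha (congrFun h i))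
  · refine Or.inr (funext fun i => mul_left_cancel₀ ha ?_)
    have := congrFun h i
    simp only [Pi.smul_apply, smul_eq_mul, Pi.neg_apply] at this ⊢
    linarith

/-- Only finitely many additive automorphisms have prescribed finite sets of values on a basis. -/
theorem finite_of_values [DecidableEq I] (S : Set (I → ℤ)) (hS : S.Finite) :
    {w : (I → ℤ) ≃+ (I → ℤ) | ∀ i, w (Pi.single i 1) ∈ S}.Finite := by
  refine Set.Finite.preimage (f := fun (w : (I → ℤ) ≃+ (I → ℤ)) (i : I) => w (Pi.single i 1))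
    (s := {f | ∀ i, f i ∈ S}) (fun a _ b _ hab => ?_) (Set.Finite.pi' fun _ => hS)
  refine AddEquiv.ext fun v => ?_
  rw [map_eq_sum a v, map_eq_sum b v]
  exact Finset.sum_congr rfl fun i _ => congrArg _ (congrFun hab i)

/-- Pigeonhole mod `M`. -/
theorem exists_congr {X : Type*} [Finite X] (W : Set ((I → ℤ) ≃+ (I → ℤ))) (hW : W.Infinite)
    (f : ((I → ℤ) ≃+ (I → ℤ)) → X) (M : ℕ) (hM : 0 < M) :
    ∃ w₁ ∈ W, ∃ w₂ ∈ W, w₁ ≠ w₂ ∧ f w₁ = f w₂ ∧
      ∀ m i, (M : ℤ) ∣ w₂.symm (w₁ m) i - m i := by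
  classical
  have : NeZero M := ⟨hM.ne'⟩
  obtain ⟨w₁, h₁, w₂, h₂, hne, he⟩ := hW.exists_ne_map_eq_of_mapsTo
    (f := fun w => (f w, fun i j : I => ((w (Pi.single i 1) j : ℤ) : ZMod M)))
    (t := Set.univ) (Set.mapsTo_univ _ _) Set.finite_univ
  refine ⟨w₁, h₁, w₂, h₂, hne, congrArg Prod.fst he, fun m i => ?_⟩
  have he2 := congrArg Prod.snd he
  have hd : ∀ j, (M : ℤ) ∣ w₁ m j - w₂ m j := by
    intro j
    rw [map_eq_sum w₁ m, map_eq_sum w₂ m, Finset.sum_apply, Finset.sum_apply,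
      ← Finset.sum_sub_distrib]
    refine Finset.dvd_sum fun l _ => ?_
    rw [Pi.smul_apply, Pi.smul_apply, smul_eq_mul, smul_eq_mul, ← mul_sub]
    exact Dvd.dvd.mul_left
      ((ZMod.intCast_eq_intCast_iff_dvd_sub _ _ _).1 (congrFun (congrFun he2 l) j).symm) _
  choose x hx using hd
  have hx' : w₁ m = w₂ m + (M : ℤ) • x := funext fun j => by
    have := hx j
    simp only [Pi.add_apply, Pi.smul_apply, smul_eq_mul]
    linarith
  rw [hx', map_add, map_zsmul, AddEquiv.symm_apply_apply]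
  exact ⟨w₂.symm x i, by simp⟩

end Pool.Agent.Lib.MP_ff61db_al.Pt.S6
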