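import Pool.Agent.Lib.MP_ff61db_al.Pt.S6Nrm

namespace Pool.Agent.Lib.MP_ff61db_al.Pt.S6

open Filter

variable {I : Type*} [Fintype I]

section Growth

variable {V : Type*} [NormedAddCommGroup V] [NormedSpace ℂ V]

theorem spec_key (f : Module.End ℂ V) (μ : ℂ) (g : ℝ) (hg : ‖μ‖ < g) (n : ℕ) :
    ∀ v : V, ((f - μ • (1 : Module.End ℂ V)) ^ n) v = 0 →
      ∃ C : ℝ, ∀ k : ℕ, ‖(f ^ k) v‖ ≤ C * g ^ k := by
  have g0 : 0 < g := (norm_nonneg μ).trans_lt hg
  induction n with
  | zero =>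
    intro v hv
    have : v = 0 := by simpa using hv
    exact ⟨0, fun k => by simp [this]⟩
  | succ n ih =>
    intro v hv
    rw [pow_succ, Module.End.mul_apply] at hv
    obtain ⟨C, hC⟩ := ih _ hv
    have C0 : 0 ≤ C := by simpa using (norm_nonneg _).trans (hC 0)
    have d0 : 0 < g - ‖μ‖ := sub_pos.2 hg
    refine ⟨‖v‖ + C / (g - ‖μ‖), fun k => ?_⟩
    have q0 : 0 ≤ C / (g - ‖μ‖) := div_nonneg C0 d0.le
    induction k with
    | zero => simpa using q0
    | succ k ihk =>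
      have e : (f ^ (k + 1)) v = μ • (f ^ k) v + (f ^ k) ((f - μ • (1 : Module.End ℂ V)) v) := by
        simp [pow_succ, map_sub]
      have p0 : 0 < g ^ k := pow_pos g0 k
      have a : C ≤ (g - ‖μ‖) * (‖v‖ + C / (g - ‖μ‖)) := by
        rw [mul_add, mul_div_cancel₀ _ d0.ne']
        nlinarith [norm_nonneg v]
      calc ‖(f ^ (k + 1)) v‖ ≤ ‖μ‖ * ‖(f ^ k) v‖ + C * g ^ k := by
            rw [e, ← norm_smul]
            exact (norm_add_le _ _).trans (add_le_add le_rfl (hC k))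
        _ ≤ ‖μ‖ * ((‖v‖ + C / (g - ‖μ‖)) * g ^ k) + C * g ^ k := by gcongr
        _ ≤ _ := by rw [pow_succ]; nlinarith [mul_le_mul_of_nonneg_right a p0.le]

/-- Vectors of subexponential growth. -/
def specS (f : Module.End ℂ V) : Submodule ℂ V where
  carrier := {v | ∀ g : ℝ, 1 < g → ∃ C : ℝ, ∀ k : ℕ, ‖(f ^ k) v‖ ≤ C * g ^ k}
  zero_mem' := fun _ _ => ⟨0, fun k => by simp⟩
  add_mem' := fun {a b} ha hb g hg => by
    obtain ⟨C, hC⟩ := ha g hg
    obtain ⟨D, hD⟩ := hb g hg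
    exact ⟨C + D, fun k => by
      rw [map_add, add_mul]; exact (norm_add_le _ _).trans (add_le_add (hC k) (hD k))⟩
  smul_mem' := fun c a ha g hg => by
    obtain ⟨C, hC⟩ := ha g hg
    exact ⟨‖c‖ * C, fun k => by
      rw [map_smul, norm_smul, mul_assoc]; exact mul_le_mul_of_nonneg_left (hC k) (norm_nonneg _)⟩

theorem spec_mono {a C θ η : ℝ} {k : ℕ} (C0 : 0 ≤ C) (h0 : 0 < θ) (h : θ ≤ η)
    (e : a ≤ C * θ ^ k) : a ≤ C * η ^ k := e.trans (by gcongr)

/-- Vectors of exponential decay. -/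
def specU (f : Module.End ℂ V) : Submodule ℂ V where
  carrier := {v | ∃ θ : ℝ, 0 < θ ∧ θ < 1 ∧ ∃ C : ℝ, ∀ k : ℕ, ‖(f ^ k) v‖ ≤ C * θ ^ k}
  zero_mem' := ⟨1 / 2, by norm_num, by norm_num, 0, fun k => by simp⟩
  add_mem' := fun {a b} ⟨θ, h0, h1, C, hC⟩ ⟨η, e0, e1, D, hD⟩ => by
    have C0 : 0 ≤ C := by simpa using (norm_nonneg _).trans (hC 0)
    have D0 : 0 ≤ D := by simpa using (norm_nonneg _).trans (hD 0)
    exact ⟨max θ η, lt_max_of_lt_left h0, max_lt h1 e1, C + D, fun k => by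
      rw [map_add, add_mul]
      exact (norm_add_le _ _).trans (add_le_add (spec_mono C0 h0 (le_max_left _ _) (hC k))
        (spec_mono D0 e0 (le_max_right _ _) (hD k)))⟩
  smul_mem' := fun c a ⟨θ, h0, h1, C, hC⟩ => ⟨θ, h0, h1, ‖c‖ * C, fun k => by
      rw [map_smul, norm_smul, mul_assoc]; exact mul_le_mul_of_nonneg_left (hC k) (norm_nonneg _)⟩

theorem spec_comm [FiniteDimensional ℂ V] {f a : Module.End ℂ V} (h : Commute f a) :
    ∃ K : ℝ, 0 ≤ K ∧ ∀ (k : ℕ) (v : V), ‖(f ^ k) (a v)‖ ≤ K * ‖(f ^ k) v‖ := by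
  refine ⟨‖LinearMap.toContinuousLinearMap a‖, norm_nonneg _, fun k v => ?_⟩
  rw [← Module.End.mul_apply, (h.pow_left k).eq, Module.End.mul_apply]
  exact (LinearMap.toContinuousLinearMap a).le_opNorm _

theorem specS_map [FiniteDimensional ℂ V] {f a : Module.End ℂ V} (h : Commute f a) {v : V}
    (hv : v ∈ specS f) : a v ∈ specS f := fun g hg => by
  obtain ⟨K, K0, hK⟩ := spec_comm h
  obtain ⟨C, hC⟩ := hv g hg
  exact ⟨K * C, fun k => (hK k v).trans (by
    rw [mul_assoc]; exact mul_le_mul_of_nonneg_left (hC k) K0)⟩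

theorem specU_map [FiniteDimensional ℂ V] {f a : Module.End ℂ V} (h : Commute f a) {v : V}
    (hv : v ∈ specU f) : a v ∈ specU f := by
  obtain ⟨K, K0, hK⟩ := spec_comm h
  obtain ⟨θ, h0, h1, C, hC⟩ := hv
  exact ⟨θ, h0, h1, K * C, fun k => (hK k v).trans (by
    rw [mul_assoc]; exact mul_le_mul_of_nonneg_left (hC k) K0)⟩

theorem spec_sup [FiniteDimensional ℂ V] {A B : Module.End ℂ V} (h1 : A * B = 1)
    (h2 : B * A = 1) : specU B ⊔ specS A = ⊤ := by
  rw [eq_top_iff, ← Module.End.iSup_maxGenEigenspace_eq_top A]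
  refine iSup_le fun μ v hv => ?_
  obtain ⟨n, hn⟩ := (Module.End.mem_maxGenEigenspace A μ v).1 hv
  rcases le_or_gt ‖μ‖ 1 with l | l
  · exact Submodule.mem_sup_right fun g hg => spec_key A μ g (l.trans_lt hg) n v hn
  · have m0 : μ ≠ 0 := by rintro rfl; norm_num at l
    have i1 : ‖μ⁻¹‖ < 1 := by rw [norm_inv]; exact inv_lt_one_of_one_lt₀ l
    have cm : Commute B A := h2.trans h1.symm
    have e : B - μ⁻¹ • (1 : Module.End ℂ V) = ((-μ⁻¹) • B) * (A - μ • 1) := by
      rw [smul_mul_assoc, mul_sub, h2, mul_smul_comm, mul_one, smul_sub, smul_smul, neg_mul,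
        inv_mul_cancel₀ m0]
      simp [sub_eq_neg_add, add_comm]
    have c2 : Commute ((-μ⁻¹) • B) (A - μ • (1 : Module.End ℂ V)) :=
      (cm.sub_right ((Commute.one_right B).smul_right μ)).smul_left _
    refine Submodule.mem_sup_left ⟨(‖μ⁻¹‖ + 1) / 2, by positivity, by linarith,
      spec_key B μ⁻¹ _ (by linarith) n v ?_⟩
    rw [e, c2.mul_pow, Module.End.mul_apply, hn, map_zero]

end Growth

theorem spec_unif (B : Module.End ℂ (I → ℂ)) : ∃ θ : ℝ, 0 < θ ∧ θ < 1 ∧ ∃ C : ℝ, 0 ≤ C ∧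
    ∀ u ∈ specU B, ∀ k : ℕ, ‖(B ^ k) u‖ ≤ C * θ ^ k * ‖u‖ := by
  classical
  obtain ⟨W, hW⟩ := Submodule.exists_isCompl (specU B)
  let p := (specU B).projectionOnto W hW
  choose θ h0 h1 C hC using fun i : I => (p (Pi.single i 1)).2
  have C0 : ∀ i, 0 ≤ C i := fun i => by simpa using (norm_nonneg _).trans (hC i 0)
  obtain ⟨η, e0, e1, e2⟩ : ∃ η : ℝ, 0 < η ∧ η < 1 ∧ ∀ i, θ i ≤ η := by
    rcases isEmpty_or_nonempty I with _ | _
    · exact ⟨1 / 2, by norm_num, by norm_num, fun i => isEmptyElim i⟩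
    · obtain ⟨j, hj⟩ := Finite.exists_max θ
      exact ⟨θ j, h0 j, h1 j, hj⟩
  refine ⟨η, e0, e1, ∑ i, C i, Finset.sum_nonneg fun i _ => C0 i, fun u hu k => ?_⟩
  have a : u = ∑ i, u i • (p (Pi.single i 1) : I → ℂ) := by
    have b : (p u : I → ℂ) = u :=
      congrArg Subtype.val (Submodule.projectionOnto_apply_left hW ⟨u, hu⟩)
    conv_lhs => rw [← b, pi_eq_sum_univ' u]
    simp [map_sum, map_smul]
  conv_lhs => rw [a]
  rw [map_sum, Finset.sum_mul, Finset.sum_mul]
  refine norm_sum_le_of_le _ fun i _ => ?_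
  rw [map_smul, norm_smul, mul_comm]
  exact mul_le_mul (spec_mono (C0 i) (h0 i) (e2 i) (hC i k)) (norm_le_pi_norm u i) (norm_nonneg _)
    (mul_nonneg (C0 i) (pow_pos e0 k).le)

theorem spec_small {θ a : ℝ} (h0 : 0 < θ) (h1 : θ < 1) (ha : 0 < a) :
    ∃ g : ℝ, 1 < g ∧ ∀ D : ℝ, ∀ᶠ k : ℕ in atTop, D * (θ ^ k * g ^ k) < a := by
  refine ⟨(1 + θ) / (2 * θ), by rw [lt_div_iff₀ (by positivity)]; linarith, fun D => ?_⟩
  have e : θ * ((1 + θ) / (2 * θ)) = (1 + θ) / 2 := by field_simp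
  simp only [← mul_pow, e]
  have t := (tendsto_pow_atTop_nhds_zero_of_lt_one (r := (1 + θ) / 2) (by positivity)
    (by linarith)).const_mul D
  rw [mul_zero] at t
  exact t.eventually (gt_mem_nhds ha)

/-- The lattice inside the complex space. -/
def specC (I : Type*) : (I → ℤ) →+ (I → ℂ) where
  toFun v i := (v i : ℂ)
  map_zero' := by ext; simp
  map_add' u v := by ext; simp

theorem spec_ext (u : (I → ℤ) →+ (I → ℤ)) :
    ∃ A : Module.End ℂ (I → ℂ), ∀ v, A (specC I v) = specC I (u v) := by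
  classical
  refine ⟨(Pi.basisFun ℂ I).constr ℂ fun j => specC I (u (Pi.single j 1)), fun v => ?_⟩
  rw [Module.Basis.constr_apply_fintype]
  conv_rhs => rw [pi_eq_sum_univ' v, map_sum, map_sum]
  refine Finset.sum_congr rfl fun j _ => ?_
  rw [map_zsmul, map_zsmul, ← Int.cast_smul_eq_zsmul ℂ]
  rfl

theorem spec_one {A : Module.End ℂ (I → ℂ)} (h : ∀ v, A (specC I v) = specC I v) : A = 1 := by
  classical
  refine (Pi.basisFun ℂ I).ext fun j => ?_
  have e : Pi.basisFun ℂ I j = specC I (Pi.single j 1) := by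
    ext i
    simp [specC, Pi.single_apply]
  rw [e, h, Module.End.one_apply]

theorem spec_re (y : I → ℂ) : |(∑ i, y i).re| ≤ Fintype.card I * ‖y‖ :=
  (Complex.abs_re_le_norm _).trans ((norm_sum_le_of_le _ fun i _ => norm_le_pi_norm y i).trans
    (by simp))

theorem spec_nrm (v : I → ℤ) :
    ‖specC I v‖ ≤ nrm v ∧ nrm v ≤ Fintype.card I * ‖specC I v‖ := by
  have e : ∀ i, |(v i : ℝ)| = ‖specC I v i‖ := fun i => by simp [specC, Complex.norm_intCast]
  simp only [nrm, e]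
  exact ⟨(pi_norm_le_iff_of_nonneg (Finset.sum_nonneg fun i _ => norm_nonneg _)).2 fun i =>
    Finset.single_le_sum (f := fun i => ‖specC I v i‖) (fun i _ => norm_nonneg _)
      (Finset.mem_univ i), (Finset.sum_le_sum fun i _ => norm_le_pi_norm _ i).trans (by simp)⟩

/-- The spectral functional: real part of the degree of the unstable component. -/
theorem exists_spec (w : (I → ℤ) ≃+ (I → ℤ)) (γ : ℝ) (hγ : 1 < γ) :
    ∃ x : (I → ℤ) →+ ℝ, (∀ v, w v = v → x v = 0) ∧
      (∀ v, Summable fun k : ℕ => |x (w.symm^[k] v)|) ∧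
      ∀ v, (∃ C : ℝ, ∀ k : ℕ, nrm (w^[k] v) ≤ C * γ ^ k) ∨
        ∀ᶠ k : ℕ in atTop, 2 * |dg I (w^[k] v) - x (w^[k] v)| ≤ nrm (w^[k] v) := by
  obtain ⟨A, hA⟩ := spec_ext w.toAddMonoidHom
  obtain ⟨B, hB⟩ := spec_ext w.symm.toAddMonoidHom
  have h1 : A * B = 1 := spec_one fun v => by simp [hA, hB]
  have h2 : B * A = 1 := spec_one fun v => by simp [hA, hB]
  have cm : Commute B A := h2.trans h1.symm
  have iA : ∀ (k : ℕ) v, specC I (w^[k] v) = (A ^ k) (specC I v) := fun k => by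
    induction k with
    | zero => simp
    | succ k ih => intro v; simp [ih, pow_succ, hA]
  have iB : ∀ (k : ℕ) v, specC I (w.symm^[k] v) = (B ^ k) (specC I v) := fun k => by
    induction k with
    | zero => simp
    | succ k ih => intro v; simp [ih, pow_succ, hB]
  obtain ⟨θ, t0, t1, C, C0, hC⟩ := spec_unif B
  have low : ∀ u ∈ specU B, ∀ k : ℕ, ‖u‖ ≤ C * θ ^ k * ‖(A ^ k) u‖ := fun u hu k => by
    have a := hC _ (specU_map (cm.pow_right k) hu) k
    rwa [← Module.End.mul_apply, ← cm.mul_pow, h2, one_pow, Module.End.one_apply] at a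
  have hc : IsCompl (specU B) (specS A) := by
    refine ⟨Submodule.disjoint_def.2 fun u hu hs => ?_, codisjoint_iff.2 (spec_sup h1 h2)⟩
    by_contra n
    obtain ⟨g, g1, hg⟩ := spec_small t0 t1 (norm_pos_iff.2 n)
    obtain ⟨D, hD⟩ := hs g g1
    obtain ⟨k, hk⟩ := (hg (C * D)).exists
    have a := (low u hu k).trans (mul_le_mul_of_nonneg_left (hD k) (by positivity))
    nlinarith
  let p := (specU B).projectionOnto _ hc
  have hp : ∀ u ∈ specU B, ∀ s ∈ specS A, (p (u + s) : I → ℂ) = u := fun u hu s hs => by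
    have a : p u = ⟨u, hu⟩ := Submodule.projectionOnto_apply_left hc ⟨u, hu⟩
    have b : p s = 0 := Submodule.projectionOnto_apply_right hc ⟨s, hs⟩
    rw [map_add, a, b, add_zero]
  have dec : ∀ y : I → ℂ, ∃ u ∈ specU B, ∃ s ∈ specS A, u + s = y := fun y =>
    Submodule.mem_sup.1 (by rw [spec_sup h1 h2]; trivial)
  let x : (I → ℤ) →+ ℝ :=
    { toFun := fun v => (∑ i, (p (specC I v) : I → ℂ) i).re
      map_zero' := by simp
      map_add' := fun a b => by simp [Finset.sum_add_distrib] }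
  have hx : ∀ v, x v = (∑ i, (p (specC I v) : I → ℂ) i).re := fun _ => rfl
  refine ⟨x, fun v hv => ?_, fun v => ?_, fun v => ?_⟩
  · have a : specC I v ∈ specS A := fun g hg => ⟨‖specC I v‖, fun k => by
      rw [← iA, Function.iterate_fixed hv]
      exact le_mul_of_one_le_right (norm_nonneg _) (one_le_pow₀ hg.le)⟩
    have b := hp 0 (zero_mem _) _ a
    rw [zero_add] at b
    simp [hx, b]
  · obtain ⟨u, hu, s, hs, e⟩ := dec (specC I v)
    refine Summable.of_nonneg_of_le (fun _ => abs_nonneg _) (fun k => ?_)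
      ((summable_geometric_of_lt_one t0.le t1).mul_left (Fintype.card I * (C * ‖u‖)))
    rw [hx, iB, ← e, map_add, hp _ (specU_map ((Commute.refl B).pow_right k) hu) _
      (specS_map (cm.symm.pow_right k) hs)]
    refine (spec_re _).trans ?_
    rw [mul_assoc]
    exact mul_le_mul_of_nonneg_left ((hC u hu k).trans (le_of_eq (by ring))) (by positivity)
  · obtain ⟨u, hu, s, hs, e⟩ := dec (specC I v)
    by_cases n : u = 0
    · obtain ⟨D, hD⟩ := hs γ hγ
      refine Or.inl ⟨Fintype.card I * D, fun k => (spec_nrm _).2.trans ?_⟩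
      rw [iA, ← e, n, zero_add, mul_assoc]
      exact mul_le_mul_of_nonneg_left (hD k) (by positivity)
    · obtain ⟨g, g1, hg⟩ := spec_small t0 t1 (norm_pos_iff.2 n)
      obtain ⟨D, hD⟩ := hs g g1
      refine Or.inr ((hg (C * ((2 * Fintype.card I + 1) * D))).mono fun k hk => ?_)
      have a : dg I (w^[k] v) - x (w^[k] v) = (∑ i, (A ^ k) s i).re := by
        have b : dg I (w^[k] v) = (∑ i, specC I (w^[k] v) i).re := by
          simp [dg_apply, specC]
        rw [b, hx, iA, ← e, map_add, hp _ (specU_map (cm.pow_right k) hu) _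
          (specS_map ((Commute.refl A).pow_right k) hs)]
        simp [Finset.sum_add_distrib]
      have b : ‖(A ^ k) u‖ ≤ nrm (w^[k] v) + D * g ^ k := by
        have c : (A ^ k) u = specC I (w^[k] v) - (A ^ k) s := by rw [iA, ← e]; simp
        rw [c]
        exact (norm_sub_le _ _).trans (add_le_add (spec_nrm _).1 (hD k))
      have c : |(∑ i, (A ^ k) s i).re| ≤ Fintype.card I * (D * g ^ k) :=
        (spec_re _).trans (mul_le_mul_of_nonneg_left (hD k) (by positivity))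
      have d := (low u hu k).trans (mul_le_mul_of_nonneg_left b (by positivity))
      rw [a]
      by_contra l
      have p0 : 0 ≤ C * θ ^ k := by positivity
      have l' : nrm (w^[k] v) + D * g ^ k ≤ (2 * Fintype.card I + 1) * D * g ^ k := by
        linarith [not_le.1 l]
      have := mul_le_mul_of_nonneg_left l' p0
      nlinarith

end Pool.Agent.Lib.MP_ff61db_al.Pt.S6
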