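import Pool.Agent.Lib.MP_ff61db_al.Pt.WdvA

/-! Lemma D: a relation of minimal support between solutions of shift equations. -/

namespace Pool.Agent.Lib.MP_ff61db_al.Pt.Wd

variable {I : Type*} [Finite I]

theorem lemD_aux {Ω : Type*} [Fintype Ω] (w : (I → ℤ) ≃+ (I → ℤ)) (G G' : Ω → HS I)
    (hG : ∀ o, Sh w (G o) (G' o)) (Γ : HS I) (g : Ω → LP I)
    (hfe : ∀ o, Γ * G' o = emb (g o) * G o) (n : ℕ) :
    ∀ (s : Finset Ω) (p : Ω → LP I), s.card = n → s.Nonempty → (∀ o ∈ s, p o ≠ 0) →
      (∀ o ∈ s, G o ≠ 0) → ∑ o ∈ s, emb (p o) * G o = 0 →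
      ∃ o o', o ≠ o' ∧ ∃ a a' : LP I, a ≠ 0 ∧ a' ≠ 0 ∧
        sig w a' * g o' * a = a' * sig w a * g o := by
  classical
  induction n using Nat.strong_induction_on with
  | _ n ih =>
    intro s p hs hne hp hG0 hrel
    obtain ⟨o', ho'⟩ := hne
    have h1 : ∑ o ∈ s, emb (sig w (p o)) * G' o = 0 := by
      have := Sh.sum (w := w) s (A := fun o => emb (p o) * G o)
        (A' := fun o => emb (sig w (p o)) * G' o) (fun o _ => (sh_emb w (p o)).mul (hG o))
      rw [hrel] at this
      exact this.eq_zero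
    have h2 : ∑ o ∈ s, emb (sig w (p o) * g o) * G o = 0 := by
      have := congrArg (Γ * ·) h1
      simp only [mul_zero, Finset.mul_sum] at this
      rw [← this]
      refine Finset.sum_congr rfl fun o _ => ?_
      rw [map_mul, mul_assoc, ← hfe]
      ring
    set c : Ω → LP I := fun o => sig w (p o') * g o' * p o - p o' * sig w (p o) * g o with hc
    have h3 : ∑ o ∈ s, emb (c o) * G o = 0 := by
      have e : ∀ o, emb (c o) * G o = emb (sig w (p o') * g o') * (emb (p o) * G o) -
          emb (p o') * (emb (sig w (p o) * g o) * G o) := by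
        intro o
        simp only [hc, map_sub, map_mul]
        ring
      simp only [e, Finset.sum_sub_distrib, ← Finset.mul_sum, hrel, h2, mul_zero, sub_zero]
    have hco' : c o' = 0 := by
      simp only [hc]
      ring
    by_cases hz : ∃ o ∈ s, o ≠ o' ∧ c o = 0
    · obtain ⟨o, ho, hoo, h0⟩ := hz
      exact ⟨o, o', hoo, p o, p o', hp o ho, hp o' ho', sub_eq_zero.1 h0⟩
    · push Not at hz
      by_cases hs1 : (s.erase o').Nonempty
      · refine ih (s.erase o').card ?_ (s.erase o') c rfl hs1 ?_ ?_ ?_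
        · rw [← hs]
          exact Finset.card_erase_lt_of_mem ho'
        · intro o ho
          exact hz o (Finset.mem_of_mem_erase ho) (Finset.ne_of_mem_erase ho)
        · intro o ho
          exact hG0 o (Finset.mem_of_mem_erase ho)
        · rw [← Finset.add_sum_erase s _ ho', hco'] at h3
          simpa using h3
      · rw [Finset.not_nonempty_iff_eq_empty] at hs1
        rw [← Finset.add_sum_erase s _ ho', hs1, Finset.sum_empty, add_zero] at hrel
        exact absurd hrel (mul_ne_zero (emb_ne_zero (hp o' ho')) (hG0 o' ho'))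

/-- Lemma D. -/
theorem lemD {Ω : Type*} [Fintype Ω] (w : (I → ℤ) ≃+ (I → ℤ)) (G G' : Ω → HS I)
    (hG : ∀ o, Sh w (G o) (G' o)) (Γ : HS I) (g : Ω → LP I)
    (hfe : ∀ o, Γ * G' o = emb (g o) * G o) (p : Ω → LP I) (hp : ∀ o, p o ≠ 0)
    (hrel : ∑ o, emb (p o) * G o = 0) :
    (∀ o, G o = 0) ∨ ∃ o o', o ≠ o' ∧ ∃ a a' : LP I, a ≠ 0 ∧ a' ≠ 0 ∧
        sig w a' * g o' * a = a' * sig w a * g o := by
  classical
  by_cases h : ∀ o, G o = 0
  · exact Or.inl h
  · right
    push Not at h
    obtain ⟨o, ho⟩ := h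
    refine lemD_aux w G G' hG Γ g hfe _ (Finset.univ.filter fun o => G o ≠ 0) p rfl
      ⟨o, by simpa using ho⟩ (fun o _ => hp o) (fun o ho => by simpa using ho) ?_
    refine (Finset.sum_filter_of_ne ?_).trans hrel
    intro o _ h
    exact right_ne_zero_of_mul h

end Pool.Agent.Lib.MP_ff61db_al.Pt.Wd
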