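import Pool.Agent.Lib.MP_ff61db_al.Pt.WdvA

/-! Lemma V: multiplicities of the primes `t^o - z` telescope along an infinite orbit. -/

namespace Pool.Agent.Lib.MP_ff61db_al.Pt.Wd

open Polynomial

variable {I : Type*}

/-- The polynomial `Q` at the monomial of degree `o`, as a Laurent polynomial. -/
noncomputable def rayL (o : I → ℤ) (Q : ℂ[X]) : LP I :=
  Polynomial.aeval (AddMonoidAlgebra.single o (1 : ℂ) : LP I) Q

/-- The element `t^o - z`. -/
noncomputable def piL (o : I → ℤ) (z : ℂ) : LP I :=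
  AddMonoidAlgebra.single o (1 : ℂ) - AddMonoidAlgebra.single 0 z

/-- Substitution of `z` for `t^o`. -/
noncomputable def psi (o : I → ℤ) (u : (I → ℤ) →+ ℤ) (z : ℂ) (hz : z ≠ 0) : LP I →ₐ[ℂ] LP I :=
  AddMonoidAlgebra.lift ℂ (LP I) (I → ℤ)
    { toFun := fun m => AddMonoidAlgebra.single
        (Multiplicative.toAdd m - u (Multiplicative.toAdd m) • o) (z ^ u (Multiplicative.toAdd m))
      map_one' := by simp [AddMonoidAlgebra.one_def]
      map_mul' := fun a b => by
        rw [AddMonoidAlgebra.single_mul_single, toAdd_mul, map_add, zpow_add₀ hz, add_smul]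
        congr 1
        abel }

theorem psi_single (o : I → ℤ) (u : (I → ℤ) →+ ℤ) (z : ℂ) (hz : z ≠ 0) (m : I → ℤ) (c : ℂ) :
    psi o u z hz (AddMonoidAlgebra.single m c) =
      AddMonoidAlgebra.single (m - u m • o) (c * z ^ u m) := by
  rw [psi, AddMonoidAlgebra.lift_single]
  simp

theorem piL_dvd_zsmul (o : I → ℤ) (z : ℂ) (hz : z ≠ 0) (n : ℤ) :
    piL o z ∣ AddMonoidAlgebra.single (n • o) (1 : ℂ) - AddMonoidAlgebra.single 0 (z ^ n) := by
  induction n using Int.induction_on with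
  | zero => simp
  | succ n ih =>
    have e : (AddMonoidAlgebra.single (((n : ℤ) + 1) • o) (1 : ℂ) : LP I) -
        AddMonoidAlgebra.single 0 (z ^ ((n : ℤ) + 1)) =
        AddMonoidAlgebra.single o 1 * (AddMonoidAlgebra.single ((n : ℤ) • o) (1 : ℂ) -
          AddMonoidAlgebra.single 0 (z ^ (n : ℤ))) +
          piL o z * AddMonoidAlgebra.single 0 (z ^ (n : ℤ)) := by
      simp only [piL, mul_sub, sub_mul, AddMonoidAlgebra.single_mul_single, add_zero, one_mul,
        add_smul, one_smul, zpow_add₀ hz, zpow_one]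
      rw [add_comm o, mul_comm z]
      abel
    rw [e]
    exact dvd_add (ih.mul_left _) (dvd_mul_right _ _)
  | pred n ih =>
    have e : (AddMonoidAlgebra.single ((-(n : ℤ) - 1) • o) (1 : ℂ) : LP I) -
        AddMonoidAlgebra.single 0 (z ^ (-(n : ℤ) - 1)) =
        AddMonoidAlgebra.single (-o) 1 * (AddMonoidAlgebra.single ((-(n : ℤ)) • o) (1 : ℂ) -
          AddMonoidAlgebra.single 0 (z ^ (-(n : ℤ)))) -
          piL o z * AddMonoidAlgebra.single (-o) (z ^ (-(n : ℤ) - 1)) := by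
      have h1 : z * z ^ (-(n : ℤ) - 1) = z ^ (-(n : ℤ)) := by
        rw [zpow_sub₀ hz, zpow_one]
        field_simp
      simp only [piL, mul_sub, sub_mul, AddMonoidAlgebra.single_mul_single, add_zero, one_mul,
        sub_smul, one_smul, h1, zero_add, add_neg_cancel]
      rw [sub_eq_neg_add (-(n : ℤ) • o) o]
      abel
    rw [e]
    exact dvd_sub (ih.mul_left _) (dvd_mul_right _ _)

theorem piL_dvd_sub (o : I → ℤ) (u : (I → ℤ) →+ ℤ) (z : ℂ) (hz : z ≠ 0) (p : LP I) :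
    piL o z ∣ p - psi o u z hz p := by
  induction p using AddMonoidAlgebra.induction_linear with
  | zero => simp
  | add p q hp hq =>
    rw [map_add, add_sub_add_comm]
    exact dvd_add hp hq
  | single m c =>
    have e : (AddMonoidAlgebra.single m c : LP I) - psi o u z hz (AddMonoidAlgebra.single m c) =
        AddMonoidAlgebra.single (m - u m • o) c *
          (AddMonoidAlgebra.single (u m • o) (1 : ℂ) - AddMonoidAlgebra.single 0 (z ^ u m)) := by
      rw [psi_single, mul_sub, AddMonoidAlgebra.single_mul_single,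
        AddMonoidAlgebra.single_mul_single]
      simp
    rw [e]
    exact (piL_dvd_zsmul o z hz _).mul_left _

theorem psi_o {o : I → ℤ} {u : (I → ℤ) →+ ℤ} (hu : u o = 1) (z : ℂ) (hz : z ≠ 0) :
    psi o u z hz (AddMonoidAlgebra.single o 1) = AddMonoidAlgebra.single 0 z := by
  rw [psi_single, hu]
  simp

theorem piL_dvd_iff {o : I → ℤ} {u : (I → ℤ) →+ ℤ} (hu : u o = 1) (z : ℂ) (hz : z ≠ 0)
    (p : LP I) : piL o z ∣ p ↔ psi o u z hz p = 0 := by
  constructor
  · rintro ⟨q, rfl⟩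
    have : psi o u z hz (piL o z) = 0 := by
      rw [piL, map_sub, psi_o hu, psi_single]
      simp
    rw [map_mul, this, zero_mul]
  · intro h
    have := piL_dvd_sub o u z hz p
    rwa [h, sub_zero] at this

theorem piL_prime {o : I → ℤ} {u : (I → ℤ) →+ ℤ} (hu : u o = 1) (z : ℂ) (hz : z ≠ 0) :
    Prime (piL o z) := by
  classical
  have ho : o ≠ 0 := by
    rintro rfl
    simp at hu
  refine ⟨?_, ?_, ?_⟩
  · intro h
    have := congrArg (fun p : LP I => p.coeff o) h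
    simp [piL, ho] at this
  · intro h
    have := (piL_dvd_iff hu z hz 1).1 h.dvd
    simp at this
  · intro a b hab
    rw [piL_dvd_iff hu z hz, map_mul, mul_eq_zero] at hab
    rw [piL_dvd_iff hu z hz, piL_dvd_iff hu z hz]
    exact hab

theorem psi_ne_zero (o : I → ℤ) (u : (I → ℤ) →+ ℤ) (z : ℂ) (hz : z ≠ 0) {p : LP I} (hp : p ≠ 0)
    (hinj : ∀ m m', p.coeff m ≠ 0 → p.coeff m' ≠ 0 → m - u m • o = m' - u m' • o → m = m') :
    psi o u z hz p ≠ 0 := by
  classical
  obtain ⟨m0, hm0⟩ : ∃ m0, p.coeff m0 ≠ 0 := by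
    by_contra h
    push Not at h
    exact hp (by ext m; simpa using h m)
  intro h
  have h1 : p = ∑ m ∈ p.coeff.support, AddMonoidAlgebra.single m (p.coeff m) := by
    ext m
    simp only [AddMonoidAlgebra.coeff_sum, AddMonoidAlgebra.coeff_single, Finsupp.finsetSum_apply,
      Finsupp.single_apply, Finset.sum_ite_eq', Finsupp.mem_support_iff]
    by_cases hm : p.coeff m = 0 <;> simp [hm]
  have h2 := congrArg (fun q : LP I => q.coeff (m0 - u m0 • o)) h
  rw [h1, map_sum] at h2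
  simp only [psi_single, AddMonoidAlgebra.coeff_sum, AddMonoidAlgebra.coeff_single,
    Finsupp.finsetSum_apply] at h2
  rw [Finset.sum_eq_single m0] at h2
  · simp only [Finsupp.single_eq_same, AddMonoidAlgebra.coeff_zero, Finsupp.zero_apply] at h2
    exact mul_ne_zero hm0 (zpow_ne_zero _ hz) h2
  · intro m hm hne
    rw [Finsupp.single_apply, if_neg]
    intro he
    exact hne (hinj m m0 (Finsupp.mem_support_iff.1 hm) hm0 he)
  · intro hm
    exact absurd (Finsupp.mem_support_iff.2 hm0) hm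

theorem aeval_single_coeff_zero {v : I → ℤ} (hv : v ≠ 0) (c : ℂ) (Q : ℂ[X]) :
    (Polynomial.aeval (AddMonoidAlgebra.single v c : LP I) Q).coeff 0 = Q.coeff 0 := by
  classical
  rw [Polynomial.aeval_eq_sum_range, AddMonoidAlgebra.coeff_sum, Finsupp.finsetSum_apply,
    Finset.sum_eq_single 0]
  · simp [AddMonoidAlgebra.one_def]
  · intro n _ hn
    rw [AddMonoidAlgebra.single_pow]
    have : n • v ≠ 0 := smul_ne_zero hn hv
    rw [AddMonoidAlgebra.smul_single, AddMonoidAlgebra.coeff_single, Finsupp.single_apply,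
      if_neg this]
  · simp

theorem rayL_ne_zero {o : I → ℤ} (ho : o ≠ 0) {Q : ℂ[X]} (hQ : Q.coeff 0 = 1) : rayL o Q ≠ 0 := by
  intro h
  have := aeval_single_coeff_zero ho 1 Q
  rw [← rayL, h, hQ] at this
  simp at this

theorem not_dvd_rayL {o : I → ℤ} {u : (I → ℤ) →+ ℤ} (hu : u o = 1) (z : ℂ) (hz : z ≠ 0)
    {v : I → ℤ} (hv : v ≠ u v • o) {Q : ℂ[X]} (hQ : Q.coeff 0 = 1) : ¬ piL o z ∣ rayL v Q := by
  rw [piL_dvd_iff hu z hz, rayL, ← Polynomial.aeval_algHom_apply, psi_single]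
  intro h
  have := aeval_single_coeff_zero (sub_ne_zero.2 hv) (1 * z ^ u v) Q
  rw [h, hQ] at this
  simp at this

theorem sig_rayL (τ : (I → ℤ) ≃+ (I → ℤ)) (o : I → ℤ) (Q : ℂ[X]) :
    sig τ (rayL o Q) = rayL (τ.symm o) Q := by
  rw [rayL, rayL, ← sig_single, Polynomial.aeval_algHom_apply]

theorem sig_sig (τ w : (I → ℤ) ≃+ (I → ℤ)) (p : LP I) :
    sig τ (sig w p) = sig (τ.trans w) p := by
  ext m
  simp [sig_coeff]

/-- Iterates of an automorphism. -/
def itf (v : (I → ℤ) ≃+ (I → ℤ)) : ℕ → ((I → ℤ) ≃+ (I → ℤ))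
  | 0 => AddEquiv.refl _
  | k + 1 => (itf v k).trans v

theorem itf_apply (v : (I → ℤ) ≃+ (I → ℤ)) (k : ℕ) (m : I → ℤ) : itf v k m = v^[k] m := by
  induction k with
  | zero => rfl
  | succ k ih => rw [Function.iterate_succ_apply', ← ih]; rfl

theorem iter_zsmul (v : (I → ℤ) ≃+ (I → ℤ)) (k : ℕ) (c : ℤ) (m : I → ℤ) :
    v^[k] (c • m) = c • v^[k] m := by
  rw [← itf_apply, ← itf_apply, map_zsmul]

theorem iter_symm (v : (I → ℤ) ≃+ (I → ℤ)) (k : ℕ) (m : I → ℤ) : v^[k] (v.symm^[k] m) = m :=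
  (Function.LeftInverse.iterate (g := v) (f := v.symm) v.apply_symm_apply k) m

theorem bad_finite {o : I → ℤ} {u : (I → ℤ) →+ ℤ} (hu : u o = 1) (z : ℂ) (hz : z ≠ 0)
    (v : (I → ℤ) ≃+ (I → ℤ))
    (hv : ∀ (k : ℕ) (c c' : ℤ), c ≠ 0 → c' ≠ 0 → c • v^[k] o = c' • o → k = 0)
    {a : LP I} (ha : a ≠ 0) : {k : ℕ | piL o z ∣ sig (itf v k) a}.Finite := by
  classical
  have hsub : ∀ d : I → ℤ, {k : ℕ | ∃ c : ℤ, c ≠ 0 ∧ d = c • v^[k] o}.Subsingleton := by
    intro d
    have key : ∀ k k' : ℕ, k ≤ k' → ∀ c c' : ℤ, c ≠ 0 → c' ≠ 0 →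
        c • v^[k] o = c' • v^[k'] o → k = k' := by
      intro k k' hk c c' hc hc' h
      obtain ⟨l, rfl⟩ := Nat.exists_eq_add_of_le hk
      rw [Function.iterate_add_apply, ← iter_zsmul, ← iter_zsmul] at h
      have := hv l c' c hc' hc ((v.injective.iterate k) h).symm
      omega
    rintro k ⟨c, hc, h1⟩ k' ⟨c', hc', h2⟩
    rcases le_total k k' with h | h
    · exact key k k' h c c' hc hc' (h1.symm.trans h2)
    · exact (key k' k h c' c hc' hc (h2.symm.trans h1)).symm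
  have hfin : (⋃ d ∈ (↑(a.coeff.support ×ˢ a.coeff.support) : Set ((I → ℤ) × (I → ℤ))),
      {k : ℕ | ∃ c : ℤ, c ≠ 0 ∧ d.1 - d.2 = c • v^[k] o}).Finite :=
    (Finset.finite_toSet _).biUnion fun d _ => (hsub _).finite
  refine hfin.subset ?_
  intro k hk
  by_contra hn
  refine psi_ne_zero o u z hz (p := sig (itf v k) a) (by simpa using ha) ?_
    ((piL_dvd_iff hu z hz _).1 hk)
  intro m m' hm hm' he
  rw [sig_coeff] at hm hm'
  have h1 : m - m' = (u m - u m') • o := by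
    rw [sub_smul]
    exact sub_eq_sub_iff_sub_eq_sub.1 he
  by_contra hne
  apply hn
  simp only [Set.mem_iUnion, Set.mem_ofPred_eq]
  refine ⟨(itf v k m, itf v k m'), ?_, u m - u m', ?_, ?_⟩
  · simp [hm, hm']
  · intro h0
    rw [h0, zero_smul] at h1
    exact hne (sub_eq_zero.1 h1)
  · rw [← map_sub, h1, map_zsmul, itf_apply]

variable [Finite I]

theorem fin_mult {o : I → ℤ} {u : (I → ℤ) →+ ℤ} (hu : u o = 1) (z : ℂ) (hz : z ≠ 0) {p : LP I}
    (hp : p ≠ 0) : FiniteMultiplicity (piL o z) p := by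
  have : IsNoetherianRing (LP I) := Algebra.FiniteType.isNoetherianRing ℂ _
  exact FiniteMultiplicity.of_prime_left (piL_prime hu z hz) hp

theorem mult_mul {o : I → ℤ} {u : (I → ℤ) →+ ℤ} (hu : u o = 1) (z : ℂ) (hz : z ≠ 0) {p q : LP I}
    (hp : p ≠ 0) (hq : q ≠ 0) :
    multiplicity (piL o z) (p * q) = multiplicity (piL o z) p + multiplicity (piL o z) q :=
  multiplicity_mul (piL_prime hu z hz) (fin_mult hu z hz (mul_ne_zero hp hq))

theorem mult_rayL {o : I → ℤ} {u : (I → ℤ) →+ ℤ} (hu : u o = 1) (z : ℂ) (hz : z ≠ 0) {Q : ℂ[X]}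
    (hQ : Q ≠ 0) : multiplicity (piL o z) (rayL o Q) = Q.rootMultiplicity z := by
  obtain ⟨R, hR, hnd⟩ := Polynomial.exists_eq_pow_rootMultiplicity_mul_and_not_dvd Q hQ z
  have h1 : ¬ piL o z ∣ rayL o R := by
    rw [piL_dvd_iff hu z hz, rayL, ← Polynomial.aeval_algHom_apply, psi_o hu]
    have : (AddMonoidAlgebra.single 0 z : LP I) = algebraMap ℂ (LP I) z := rfl
    rw [this, Polynomial.aeval_algebraMap_apply, map_eq_zero]
    rwa [Polynomial.dvd_iff_isRoot] at hnd
  have h2 : rayL o Q = piL o z ^ Q.rootMultiplicity z * rayL o R := by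
    conv_lhs => rw [hR]
    simp only [rayL, map_mul, map_pow, map_sub, Polynomial.aeval_X, Polynomial.aeval_C]
    rfl
  have h3 : rayL o R ≠ 0 := fun h => h1 (h ▸ dvd_zero _)
  rw [h2, mult_mul hu z hz (pow_ne_zero _ (piL_prime hu z hz).ne_zero) h3,
    multiplicity_pow_self_of_prime (piL_prime hu z hz), multiplicity_eq_zero.2 h1, add_zero]

theorem eq_of_rootMultiplicity {Q Q' : ℂ[X]} (h0 : Q.coeff 0 = 1) (h0' : Q'.coeff 0 = 1)
    (h : ∀ z, z ≠ 0 → Q.rootMultiplicity z = Q'.rootMultiplicity z) : Q = Q' := by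
  classical
  have hr : Q.roots = Q'.roots := by
    ext z
    rw [Polynomial.count_roots, Polynomial.count_roots]
    by_cases hz : z = 0
    · subst hz
      rw [Polynomial.rootMultiplicity_eq_zero, Polynomial.rootMultiplicity_eq_zero]
      · rw [Polynomial.IsRoot, ← Polynomial.coeff_zero_eq_eval_zero, h0']; exact one_ne_zero
      · rw [Polynomial.IsRoot, ← Polynomial.coeff_zero_eq_eval_zero, h0]; exact one_ne_zero
    · exact h z hz
  have e1 := (IsAlgClosed.splits Q).eq_prod_roots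
  have e2 := (IsAlgClosed.splits Q').eq_prod_roots
  rw [← hr] at e2
  set R := (Q.roots.map fun a => X - C a).prod
  have c1 : Q.leadingCoeff * R.coeff 0 = 1 := by rw [← h0]; conv_rhs => rw [e1, coeff_C_mul]
  have c2 : Q'.leadingCoeff * R.coeff 0 = 1 := by rw [← h0']; conv_rhs => rw [e2, coeff_C_mul]
  have c3 : Q.leadingCoeff = Q'.leadingCoeff :=
    mul_right_cancel₀ (right_ne_zero_of_mul_eq_one c1) (c1.trans c2.symm)
  rw [e1, e2, ← c3]

/-- Lemma V. -/
theorem lemV {J : Type*} [Fintype J] (w : (I → ℤ) ≃+ (I → ℤ))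
    (o : J → I → ℤ) (hu : ∀ j, ∃ u : (I → ℤ) →+ ℤ, u (o j) = 1)
    (hd : ∀ (j j' : J) (k : ℕ) (a a' : ℤ), a ≠ 0 → a' ≠ 0 →
      a • w^[k] (o j') = a' • o j → k = 0 ∧ j' = j)
    (Q Q' : J → ℂ[X]) (hQ : ∀ j, (Q j).coeff 0 = 1) (hQ' : ∀ j, (Q' j).coeff 0 = 1)
    (a a' : LP I) (ha : a ≠ 0) (ha' : a' ≠ 0)
    (hrel : sig w a' * (∏ j, rayL (o j) (Q' j)) * a = a' * sig w a * ∏ j, rayL (o j) (Q j))
    (j : J) : Q j = Q' j := by
  classical
  refine eq_of_rootMultiplicity (hQ j) (hQ' j) fun z hz => ?_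
  obtain ⟨u, huj⟩ := hu j
  have ho : ∀ j', o j' ≠ 0 := by
    intro j' h
    obtain ⟨u', hu'⟩ := hu j'
    simp [h] at hu'
  have hpr := piL_prime huj z hz
  set ν : LP I → ℕ := multiplicity (piL (o j) z) with hν
  have hg : ∀ R : J → ℂ[X], (∀ j, (R j).coeff 0 = 1) → ∏ j, rayL (o j) (R j) ≠ 0 :=
    fun R hR => Finset.prod_ne_zero_iff.2 fun j' _ => rayL_ne_zero (ho j') (hR j')
  have step : ∀ τ : (I → ℤ) ≃+ (I → ℤ),
      ν (sig (τ.trans w) a') + ν (sig τ (∏ j, rayL (o j) (Q' j))) + ν (sig τ a) =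
        ν (sig τ a') + ν (sig (τ.trans w) a) + ν (sig τ (∏ j, rayL (o j) (Q j))) := by
    intro τ
    have h1 := congrArg (fun p => ν (sig τ p)) hrel
    simp only [map_mul, sig_sig] at h1
    have n1 : ∀ (σ : (I → ℤ) ≃+ (I → ℤ)) (p : LP I), p ≠ 0 → sig σ p ≠ 0 :=
      fun σ p hp => by simpa using hp
    rwa [hν, mult_mul huj z hz (mul_ne_zero (n1 _ _ ha') (n1 _ _ (hg _ hQ'))) (n1 _ _ ha),
      mult_mul huj z hz (n1 _ _ ha') (n1 _ _ (hg _ hQ')),
      mult_mul huj z hz (mul_ne_zero (n1 _ _ ha') (n1 _ _ ha)) (n1 _ _ (hg _ hQ)),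
      mult_mul huj z hz (n1 _ _ ha') (n1 _ _ ha)] at h1
  have hoff : ∀ (τ : (I → ℤ) ≃+ (I → ℤ)) (s : Finset J) (R : J → ℂ[X]),
      (∀ j, (R j).coeff 0 = 1) → (∀ j' ∈ s, ∀ c : ℤ, c ≠ 0 → o j' ≠ c • τ (o j)) →
      ¬ piL (o j) z ∣ sig τ (∏ j' ∈ s, rayL (o j') (R j')) := by
    intro τ s R hR hτ hdv
    rw [map_prod, hpr.dvd_finsetProd_iff] at hdv
    obtain ⟨j', hj', hdv⟩ := hdv
    rw [sig_rayL] at hdv
    refine not_dvd_rayL huj z hz ?_ (hR j') hdv
    intro he
    have h1 : o j' = u (τ.symm (o j')) • τ (o j) := by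
      rw [← map_zsmul, ← he, τ.apply_symm_apply]
    refine hτ j' hj' _ ?_ h1
    intro h0
    rw [h0, zero_smul] at h1
    exact ho j' h1
  have hfw : ∀ k : ℕ, ∀ j' ∈ (Finset.univ : Finset J), ∀ c : ℤ, c ≠ 0 →
      o j' ≠ c • itf w (k + 1) (o j) := by
    intro k j' _ c hc h
    rw [itf_apply] at h
    have := (hd j' j (k + 1) c 1 hc one_ne_zero (by rw [← h, one_smul])).1
    omega
  have hbw : ∀ k : ℕ, ∀ j' ∈ (Finset.univ : Finset J), ∀ c : ℤ, c ≠ 0 →
      o j' ≠ c • itf w.symm (k + 1) (o j) := by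
    intro k j' _ c hc h
    rw [itf_apply] at h
    have := (hd j j' (k + 1) 1 c one_ne_zero hc
      (by rw [h, one_smul, iter_zsmul, iter_symm])).1
    omega
  have f1 : ∀ k : ℕ, ν (sig (itf w (k + 1)) a') + ν (sig (itf w 1) a) =
      ν (sig (itf w 1) a') + ν (sig (itf w (k + 1)) a) := by
    intro k
    induction k with
    | zero => simp [add_comm]
    | succ k ih =>
      have h1 := step (itf w (k + 1))
      rw [hν, multiplicity_eq_zero.2 (hoff _ _ _ hQ (hfw k)),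
        multiplicity_eq_zero.2 (hoff _ _ _ hQ' (hfw k)), ← hν] at h1
      change ν (sig (itf w (k + 1 + 1)) a') + 0 + _ = _ + ν (sig (itf w (k + 1 + 1)) a) + 0 at h1
      omega
  have f2 : ∀ k : ℕ, ν (sig (itf w.symm k) a') + ν (sig (itf w.symm 0) a) =
      ν (sig (itf w.symm 0) a') + ν (sig (itf w.symm k) a) := by
    intro k
    induction k with
    | zero => simp [add_comm]
    | succ k ih =>
      have h1 := step (itf w.symm (k + 1))
      have e : (itf w.symm (k + 1)).trans w = itf w.symm k := by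
        ext m i
        simp [itf]
      rw [e, hν, multiplicity_eq_zero.2 (hoff _ _ _ hQ (hbw k)),
        multiplicity_eq_zero.2 (hoff _ _ _ hQ' (hbw k)), ← hν] at h1
      omega
  have hv1 : ∀ (k : ℕ) (c c' : ℤ), c ≠ 0 → c' ≠ 0 → c • w^[k] (o j) = c' • o j → k = 0 :=
    fun k c c' hc hc' h => (hd j j k c c' hc hc' h).1
  have hv2 : ∀ (k : ℕ) (c c' : ℤ), c ≠ 0 → c' ≠ 0 → c • w.symm^[k] (o j) = c' • o j → k = 0 := by
    intro k c c' hc hc' h
    refine hv1 k c' c hc' hc ?_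
    rw [← iter_zsmul, ← h, iter_zsmul, iter_symm]
  have g1 : ν (sig (itf w 1) a) = ν (sig (itf w 1) a') := by
    obtain ⟨k, hk⟩ := (((bad_finite huj z hz w hv1 ha).union
      (bad_finite huj z hz w hv1 ha')).union (Set.finite_singleton 0)).exists_notMem
    simp only [Set.mem_union, Set.mem_ofPred_eq, Set.mem_singleton_iff, not_or] at hk
    obtain ⟨l, rfl⟩ := Nat.exists_eq_succ_of_ne_zero hk.2
    have h1 := f1 l
    rw [hν, multiplicity_eq_zero.2 hk.1.1, multiplicity_eq_zero.2 hk.1.2, ← hν] at h1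
    omega
  have g2 : ν (sig (itf w.symm 0) a) = ν (sig (itf w.symm 0) a') := by
    obtain ⟨k, hk⟩ := ((bad_finite huj z hz w.symm hv2 ha).union
      (bad_finite huj z hz w.symm hv2 ha')).exists_notMem
    simp only [Set.mem_union, Set.mem_ofPred_eq, not_or] at hk
    have h1 := f2 k
    rw [hν, multiplicity_eq_zero.2 hk.1, multiplicity_eq_zero.2 hk.2, ← hν] at h1
    omega
  have hmain : ∀ R : J → ℂ[X], (∀ j, (R j).coeff 0 = 1) →
      ν (sig (AddEquiv.refl _) (∏ j, rayL (o j) (R j))) = (R j).rootMultiplicity z := by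
    intro R hR
    have hs : ∀ p : LP I, sig (AddEquiv.refl _) p = p := fun p => by ext m; simp [sig_coeff]
    have h1 := hoff (AddEquiv.refl _) (Finset.univ.erase j) R hR (by
      intro j' hj' c hc h
      exact Finset.ne_of_mem_erase hj' (hd j j' 0 1 c one_ne_zero hc (by simpa using h)).2)
    rw [hs] at h1 ⊢
    rw [← Finset.mul_prod_erase _ _ (Finset.mem_univ j), hν,
      mult_mul huj z hz (rayL_ne_zero (ho j) (hR j)) (fun h => h1 (by rw [h]; exact dvd_zero _)),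
      multiplicity_eq_zero.2 h1, add_zero, mult_rayL huj z hz]
    intro h
    have := hR j
    simp [h] at this
  have h0 := step (AddEquiv.refl _)
  rw [hmain _ hQ, hmain _ hQ'] at h0
  change ν (sig (itf w 1) a') + _ + ν (sig (itf w.symm 0) a) =
    ν (sig (itf w.symm 0) a') + ν (sig (itf w 1) a) + _ at h0
  omega

end Pool.Agent.Lib.MP_ff61db_al.Pt.Wd
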