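import Pool.Agent.Lib.MP_ff61db_al.Pt.WdvW
import Pool.Agent.Lib.MP_ff61db_al.Pt.WdvD
import Pool.Agent.Lib.MP_ff61db_al.Pt.WdvV

/-! Lemmas W, D, V and the sum over the characters of the lattice modulo `N`. -/

namespace Pool.Agent.Lib.MP_ff61db_al.Pt

open Polynomial

namespace Wd

variable {I : Type*}

/-- Reduction of degrees modulo `N`. -/
def redN (N : ℕ) : (I → ℤ) →+ (I → ZMod N) where
  toFun m i := (m i : ZMod N)
  map_zero' := by funext i; simp
  map_add' a b := by funext i; simp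

theorem redN_eq_zero {N : ℕ} {m : I → ℤ} : redN N m = 0 ↔ ∀ i, (N : ℤ) ∣ m i := by
  simp only [funext_iff, redN, AddMonoidHom.coe_mk, ZeroHom.coe_mk, Pi.zero_apply,
    ZMod.intCast_zmod_eq_zero_iff_dvd]

theorem supp_prod {ι : Type*} (s : Finset ι) (f : ι → HS I) (φ : (I → ℤ) →+ ℝ) (c : ℝ)
    (h : ∀ i ∈ s, ∀ m, (f i).coeff m ≠ 0 → φ m ≤ c) :
    ∀ m, (∏ i ∈ s, f i).coeff m ≠ 0 → φ m ≤ s.card * c := by
  classical
  induction s using Finset.induction_on with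
  | empty =>
    intro m hm
    by_cases h0 : m = 0
    · simp [h0]
    · simp [HahnSeries.coeff_one, h0] at hm
  | insert a s ha ih =>
    intro m hm
    rw [Finset.prod_insert ha] at hm
    obtain ⟨u, v, hu, hv, rfl⟩ := mul_coeff_ne hm
    have h1 := h a (Finset.mem_insert_self _ _) u hu
    have h2 := ih (fun i hi => h i (Finset.mem_insert_of_mem hi)) v hv
    rw [Finset.card_insert_of_notMem ha, map_add]
    push_cast
    linarith

theorem pos_prod {ι : Type*} (s : Finset ι) (f : ι → HS I)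
    (h : ∀ i ∈ s, Pos (f i) ∧ (f i).coeff 0 = 1) :
    Pos (∏ i ∈ s, f i) ∧ (∏ i ∈ s, f i).coeff 0 = 1 := by
  classical
  induction s using Finset.induction_on with
  | empty => exact ⟨by simpa using pos_one, by simp⟩
  | insert a s ha ih =>
    obtain ⟨h1, h2⟩ := h a (Finset.mem_insert_self _ _)
    obtain ⟨h3, h4⟩ := ih fun i hi => h i (Finset.mem_insert_of_mem hi)
    rw [Finset.prod_insert ha]
    exact ⟨h1.mul h3, by rw [h1.coeff_mul_zero h3, h2, h4, mul_one]⟩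

theorem tw_onRay (χ : AddChar (I → ℤ) ℂ) (o : I → ℤ) (P : ℂ[X]) :
    tw χ (onRay o P) = emb (rayL o (P.comp (C (χ o) * X))) := by
  rw [onRay, rayL, ← Polynomial.aeval_algHom_apply, ← Polynomial.aeval_algHom_apply, tw_single,
    emb_single, Polynomial.aeval_comp]
  congr 2
  simp only [map_mul, Polynomial.aeval_C, Polynomial.aeval_X, mul_one]
  rw [← Algebra.smul_def]
  ext m
  by_cases h : m = o
  · subst h; simp
  · simp [h]

theorem tw_congr {χ χ' : AddChar (I → ℤ) ℂ} {Z : HS I} (h : ∀ m, Z.coeff m ≠ 0 → χ m = χ' m) :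
    tw χ Z = tw χ' Z := by
  ext m
  rw [tw_coeff, tw_coeff]
  by_cases h0 : Z.coeff m = 0
  · simp [h0]
  · rw [h m h0]

theorem tw_ne_zero (χ : AddChar (I → ℤ) ℂ) {Z : HS I} (h : Z ≠ 0) : tw χ Z ≠ 0 := by
  intro h0
  apply h
  ext m
  have := congrArg (fun Y : HS I => Y.coeff m) h0
  simpa [tw_coeff, chi_ne] using this

theorem agree_on_Lam {J : Type*} {N : ℕ} {o : J → I → ℤ} {P : J → ℂ[X]}
    {χ χ' : AddChar (I → ℤ) ℂ} (h1 : ∀ j n, (P j).coeff n ≠ 0 → χ (o j) ^ n = χ' (o j) ^ n)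
    (h2 : ∀ m : I → ℤ, (∀ i, (N : ℤ) ∣ m i) → χ m = χ' m) :
    ∀ m ∈ Lam N o P, χ m = χ' m := by
  intro m hm
  induction hm using AddSubgroup.closure_induction with
  | mem v hv =>
    rcases hv with ⟨j, n, hn, rfl⟩ | hv
    · rw [AddChar.map_nsmul_eq_pow, AddChar.map_nsmul_eq_pow, h1 j n hn]
    · exact h2 v hv
  | zero => simp
  | add a b _ _ ha hb => rw [AddChar.map_add_eq_mul, AddChar.map_add_eq_mul, ha, hb]
  | neg a _ ha => rw [AddChar.map_neg_eq_inv, AddChar.map_neg_eq_inv, ha]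

end Wd

open Wd

variable {I : Type*} [Fintype I] [DecidableEq I]

/-- Lemmas W, D, V and the character sum. -/
theorem wdv {J : Type*} [Fintype J] (w : (I → ℤ) ≃+ (I → ℤ)) (N : ℕ) (hN : 0 < N)
    (hw : ∀ m i, (N : ℤ) ∣ w m i - m i)
    (o : J → I → ℤ) (hu : ∀ j, ∃ u : (I → ℤ) →+ ℤ, u (o j) = 1)
    (hd : ∀ (j j' : J) (k : ℕ) (a a' : ℤ), a ≠ 0 → a' ≠ 0 →
      a • w^[k] (o j') = a' • o j → k = 0 ∧ j' = j)
    (P : J → ℂ[X]) (hP : ∀ j, (P j).coeff 0 = 1)
    (F F0 Hp Hm Hm' : HS I) (hF : F * (Hp * Hm) = F0)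
    (hfix : ∀ m, F0.coeff m ≠ 0 → w m = m)
    (hpos : Pos Hp) (hp0 : Hp.coeff 0 = 1) (hm0 : Hm ≠ 0)
    (hsh : ∀ m, Hm'.coeff m = Hm.coeff (w m))
    (hfe : Hm = (∏ j, onRay (o j) (P j)) * Hm')
    (hLp : ∀ m, Hp.coeff m ≠ 0 → m ∈ Lam N o P)
    (hLm : ∀ m, Hm.coeff m ≠ 0 → m ∈ Lam N o P)
    (x : (I → ℤ) →+ ℝ) (hx : x ≠ 0) (hxf : ∀ m, w m = m → x m = 0)
    (A B C : ℝ) (hB : 0 ≤ B)
    (hxp : ∀ m, Hp.coeff m ≠ 0 → ((∑ i, m i : ℤ) : ℝ) ≤ A + B * x m)
    (hxm : ∀ m, Hm.coeff m ≠ 0 → |x m| ≤ C)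
    (r : I → ℤ) (hr : ∀ m, (∀ i, (N : ℤ) ∣ m i - r i) → F.coeff m = 0)
    (m : I → ℤ) (hm : m - r ∈ Lam N o P) : F0.coeff m = 0 := by
  classical
  have : NeZero N := ⟨hN.ne'⟩
  let lf : AddChar (I → ZMod N) ℂ → AddChar (I → ℤ) ℂ := fun ψ => ψ.compAddMonoidHom (redN N)
  have lfN : ∀ ψ (v : I → ℤ), (∀ i, (N : ℤ) ∣ v i) → lf ψ v = 1 := by
    intro ψ v hv
    simp only [lf, AddChar.compAddMonoidHom_apply, redN_eq_zero.2 hv, AddChar.map_zero_eq_one]
  have lfw : ∀ ψ v, lf ψ (w v) = lf ψ v := by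
    intro ψ v
    have : w v = (w v - v) + v := by abel
    rw [this, AddChar.map_add_eq_mul, lfN ψ (w v - v) (hw v), one_mul]
  let st : Setoid (AddChar (I → ZMod N) ℂ) :=
    ⟨fun ψ ψ' => ∀ v ∈ Lam N o P, lf ψ v = lf ψ' v,
      ⟨fun _ _ _ => rfl, fun h v hv => (h v hv).symm, fun h h' v hv => (h v hv).trans (h' v hv)⟩⟩
  let cl : AddChar (I → ZMod N) ℂ → Quotient st := Quotient.mk st
  let ch : Quotient st → AddChar (I → ℤ) ℂ := fun ω => lf ω.out
  have hch : ∀ ψ, ∀ v ∈ Lam N o P, ch (cl ψ) v = lf ψ v := fun ψ => Quotient.mk_out (s := st) ψ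
  let Φ : Quotient st → HS I := fun ω =>
    ∑ ψ ∈ Finset.univ.filter fun ψ => cl ψ = ω, lf ψ (-r) • tw (lf ψ) F0
  have hΦ : ∀ ω v, (Φ ω).coeff v =
      (∑ ψ ∈ Finset.univ.filter fun ψ => cl ψ = ω, lf ψ (v - r)) * F0.coeff v := by
    intro ω v
    simp only [Φ, HahnSeries.coeff_sum, Finset.sum_mul]
    refine Finset.sum_congr rfl fun ψ _ => ?_
    rw [HahnSeries.coeff_smul, tw_coeff, sub_eq_neg_add, AddChar.map_add_eq_mul, smul_eq_mul,
      mul_assoc]
  have hΦfix : ∀ ω v, (Φ ω).coeff v ≠ 0 → w v = v := by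
    intro ω v hv
    rw [hΦ] at hv
    exact hfix v (right_ne_zero_of_mul hv)
  have hΦsh : ∀ ω, Sh w (Φ ω) (Φ ω) := by
    intro ω v
    by_cases h1 : (Φ ω).coeff v = 0
    · by_cases h2 : (Φ ω).coeff (w v) = 0
      · rw [h1, h2]
      · rw [w.injective (hΦfix ω _ h2)]
    · rw [hΦfix ω v h1]
  let a : Quotient st → HS I := fun ω => ∏ ω' ∈ Finset.univ.erase ω, tw (ch ω') Hp
  let c : Quotient st → HS I := fun ω => ∏ ω' ∈ Finset.univ.erase ω, tw (ch ω') Hm
  let c' : Quotient st → HS I := fun ω => ∏ ω' ∈ Finset.univ.erase ω, tw (ch ω') Hm'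
  have h0 : ∑ ψ, lf ψ (-r) • tw (lf ψ) F = 0 := by
    ext v
    have e : (∑ ψ, lf ψ (-r) • tw (lf ψ) F).coeff v =
        (∑ ψ : AddChar (I → ZMod N) ℂ, ψ (redN N (v - r))) * F.coeff v := by
      simp only [HahnSeries.coeff_sum, Finset.sum_mul]
      refine Finset.sum_congr rfl fun ψ _ => ?_
      change _ = lf ψ (v - r) * _
      rw [HahnSeries.coeff_smul, tw_coeff, sub_eq_neg_add, AddChar.map_add_eq_mul, smul_eq_mul,
        mul_assoc]
    rw [e, HahnSeries.coeff_zero]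
    by_cases hv : redN N (v - r) = 0
    · rw [hr v (redN_eq_zero.1 hv), mul_zero]
    · rw [AddChar.sum_apply_eq_ite, if_neg hv, zero_mul]
  have hrel : ∑ ω, a ω * (Φ ω * c ω) = 0 := by
    have h1 := congrArg (· * ((∏ ω, tw (ch ω) Hp) * ∏ ω, tw (ch ω) Hm)) h0
    simp only [zero_mul] at h1
    rw [← h1, Finset.sum_mul, ← Finset.sum_fiberwise Finset.univ cl]
    refine Finset.sum_congr rfl fun ω _ => ?_
    simp only [Φ, Finset.sum_mul, Finset.mul_sum]
    refine Finset.sum_congr rfl fun ψ hψ => ?_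
    have hψ' : cl ψ = ω := (Finset.mem_filter.1 hψ).2
    have e1 : tw (ch ω) Hp = tw (lf ψ) Hp :=
      tw_congr fun v hv => by rw [← hψ']; exact hch ψ v (hLp v hv)
    have e2 : tw (ch ω) Hm = tw (lf ψ) Hm :=
      tw_congr fun v hv => by rw [← hψ']; exact hch ψ v (hLm v hv)
    rw [← Finset.mul_prod_erase _ _ (Finset.mem_univ ω),
      ← Finset.mul_prod_erase _ (fun ω => tw (ch ω) Hm) (Finset.mem_univ ω), e1, e2, ← hF,
      map_mul, map_mul, ← HahnSeries.C_mul_eq_smul, ← HahnSeries.C_mul_eq_smul]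
    simp only [a, c]
    ring
  have hC : 0 ≤ C := by
    obtain ⟨v, hv⟩ : ∃ v, Hm.coeff v ≠ 0 := by
      by_contra h
      push Not at h
      exact hm0 (by ext v; simpa using h v)
    exact (abs_nonneg _).trans (hxm v hv)
  have hA : 0 ≤ A := by
    have := hxp 0 (by rw [hp0]; exact one_ne_zero)
    simpa using this
  have hcard : ∀ ω : Quotient st,
      ((Finset.univ.erase ω).card : ℝ) ≤ Fintype.card (Quotient st) := by
    intro ω
    exact_mod_cast Finset.card_le_univ _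
  have hapos : ∀ ω, Pos (a ω) ∧ (a ω).coeff 0 = 1 := fun ω =>
    pos_prod _ _ fun ω' _ => ⟨fun v hv => hpos v (tw_coeff_ne hv), by simp [tw_coeff, hp0]⟩
  let φ : (I → ℤ) →+ ℝ :=
    { toFun := fun v => ((∑ i, v i : ℤ) : ℝ) - B * x v
      map_zero' := by simp
      map_add' := fun u v => by
        simp only [Pi.add_apply, Finset.sum_add_distrib, Int.cast_add, map_add]
        ring }
  obtain ⟨p, hp, hrel2⟩ := lemW a (fun ω => Φ ω * c ω) hrel (fun ω => (hapos ω).1)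
    (fun ω => (hapos ω).2) x hx (Fintype.card (Quotient st) * A) B
    (Fintype.card (Quotient st) * C) hB
    (by
      intro ω v hv
      have h1 := supp_prod _ (fun ω' => tw (ch ω') Hp) φ A (fun ω' _ u hu => by
        have := hxp u (tw_coeff_ne hu)
        change ((∑ i, u i : ℤ) : ℝ) - B * x u ≤ A
        linarith) v hv
      change ((∑ i, v i : ℤ) : ℝ) - B * x v ≤ _ at h1
      have := mul_le_mul_of_nonneg_right (hcard ω) hA
      linarith)
    (by
      intro ω v hv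
      obtain ⟨s, t, hs, ht, rfl⟩ := mul_coeff_ne hv
      have h1 := supp_prod _ (fun ω' => tw (ch ω') Hm) x C
        (fun ω' _ u hu => (abs_le.1 (hxm u (tw_coeff_ne hu))).2) t ht
      have h2 := supp_prod _ (fun ω' => tw (ch ω') Hm) (-x) C
        (fun ω' _ u hu => by
          have := (abs_le.1 (hxm u (tw_coeff_ne hu))).1
          change -x u ≤ C
          linarith) t ht
      change -x t ≤ _ at h2
      have := mul_le_mul_of_nonneg_right (hcard ω) hC
      rw [map_add, hxf s (hΦfix ω s hs), zero_add, abs_le]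
      constructor <;> linarith)
  let Q : Quotient st → J → ℂ[X] := fun ω j => (P j).comp (Polynomial.C (ch ω (o j)) * X)
  have hQ : ∀ ω j n, (Q ω j).coeff n = (P j).coeff n * ch ω (o j) ^ n :=
    fun ω j n => Polynomial.comp_C_mul_X_coeff
  have hQ0 : ∀ ω j, (Q ω j).coeff 0 = 1 := fun ω j => by rw [hQ, hP, pow_zero, mul_one]
  let g : Quotient st → LP I := fun ω => ∏ j, rayL (o j) (Q ω j)
  have hg : ∀ ω, tw (ch ω) Hm = emb (g ω) * tw (ch ω) Hm' := by
    intro ω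
    conv_lhs => rw [hfe]
    rw [map_mul, map_prod, map_prod]
    simp only [tw_onRay, Q]
  have hD := lemD w (fun ω => Φ ω * c ω) (fun ω => Φ ω * c' ω)
    (fun ω => (hΦsh ω).mul (Sh.prod _ fun ω' _ v => by
      rw [tw_coeff, tw_coeff, hsh, lfw]))
    (∏ ω, emb (g ω)) g (by
      intro ω
      rw [← Finset.mul_prod_erase _ _ (Finset.mem_univ ω)]
      simp only [c, c', hg, Finset.prod_mul_distrib]
      ring) p hp hrel2
  rcases hD with hz | ⟨ω, ω', hne, s, s', hs, hs', he⟩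
  · have h1 : Φ (cl 0) = 0 := (mul_eq_zero.1 (hz (cl 0))).resolve_right
      (Finset.prod_ne_zero_iff.2 fun ω' _ => tw_ne_zero _ hm0)
    have h2 := hΦ (cl 0) m
    rw [h1, HahnSeries.coeff_zero, Finset.sum_congr rfl (g := fun _ => (1 : ℂ)), Finset.sum_const,
      nsmul_eq_mul, mul_one] at h2
    · refine (mul_eq_zero.1 h2.symm).resolve_left ?_
      exact Nat.cast_ne_zero.2 (Finset.card_ne_zero.2 ⟨0, by simp⟩)
    · intro ψ hψ
      have hψ' : cl ψ = cl 0 := (Finset.mem_filter.1 hψ).2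
      rw [← hch ψ _ hm, hψ', hch 0 _ hm]
      simp [lf]
  · exfalso
    apply hne
    have h1 := lemV w o hu hd (Q ω) (Q ω') (hQ0 ω) (hQ0 ω') s s' hs hs' he
    have h2 : ∀ v ∈ Lam N o P, ch ω v = ch ω' v := by
      refine agree_on_Lam ?_ ?_
      · intro j n hn
        have := congrArg (fun R : ℂ[X] => R.coeff n) (h1 j)
        simp only [hQ] at this
        exact mul_left_cancel₀ hn this
      · intro v hv
        rw [lfN _ v hv, lfN _ v hv]
    rw [← ω.out_eq, ← ω'.out_eq]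
    exact Quotient.sound (s := st) h2

end Pool.Agent.Lib.MP_ff61db_al.Pt
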