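import Pool.Agent.Lib.MP_ff61db_al.Pt.S6Orb
import Pool.Agent.Lib.MP_ff61db_al.Pt.S6Spec
import Pool.Agent.Lib.MP_ff61db_al.Pt.Wdv

/-! A nontrivial loop is impossible. -/

namespace Pool.Agent.Lib.MP_ff61db_al.Pt.S6

open Finset Polynomial Filter

variable {I : Type} [Fintype I]

theorem exists_gamma (d : ℕ) : ∃ γ : ℝ, 1 < γ ∧ γ ^ d < 2 := by
  have h1 : ∀ᶠ γ : ℝ in nhds 1, γ ^ d < 2 :=
    (continuous_pow d).continuousAt.eventually_lt continuousAt_const (by simp)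
  obtain ⟨γ, h2, h3⟩ := ((h1.filter_mono nhdsWithin_le_nhds).and
    (self_mem_nhdsWithin (s := Set.Ioi (1 : ℝ)))).exists
  exact ⟨γ, h3, h2⟩

theorem sum_le_of_image {α β : Type*} {S : Finset β} {T : Finset α} {g : α → β} {c : β → ℝ}
    (hc : ∀ v, 0 ≤ c v) (h : ∀ v ∈ S, c v ≠ 0 → ∃ a ∈ T, g a = v) :
    ∑ v ∈ S, c v ≤ ∑ a ∈ T, c (g a) := by
  classical
  rw [← Finset.sum_filter_ne_zero]
  refine (Finset.sum_le_sum_of_subset_of_nonneg (t := T.image g) (fun v hv => ?_)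
    fun v _ _ => hc v).trans (Finset.sum_image_le_of_nonneg fun v _ => hc v)
  exact mem_image.2 (h v (mem_filter.1 hv).1 (mem_filter.1 hv).2)

/-- A loop with representatives of the moving orbits and their polynomials. -/
structure Reps (b H : Ser I) (w : (I → ℤ) ≃+ (I → ℤ)) (d : ℕ) {J : Type} (o : J → I → ℤ)
    (P : J → ℂ[X]) : Prop extends Loop b H w d where
  root : ∀ j, Root b (o j)
  move : ∀ j, w (o j) ≠ o j
  back : ∀ j (k : ℕ), 0 ≤ w.symm^[k] (o j)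
  inj : ∀ j j', Orb w (o j) (o j') → j = j'
  surj : ∀ v, Root b v → w v ≠ v → ∃ j, Orb w v (o j)
  onr : ∀ j, onRay (o j) (P j) = E b {o j}
  coe : ∀ j n, (P j).coeff n = pc b (o j) n

theorem Loop.exists_Reps {b H : Ser I} {w : (I → ℤ) ≃+ (I → ℤ)} {d : ℕ} (L : Loop b H w d) :
    ∃ (J : Type) (_ : Fintype J) (o : J → I → ℤ) (P : J → ℂ[X]), Reps b H w d o P := by
  obtain ⟨J, _, o, h1, h2, h3⟩ := L.exists_reps
  have h4 : ∀ j, 0 ≤ o j := fun j => (h1 j).2.2 0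
  choose P hP hP' using fun j => exists_onRay (f := E b {o j}) (h1 j).1.1.ne_zero
    (fun v => E_single_supp L.exp.lg (o j))
    (by simpa only [pc_of_nonneg b (h4 j)] using L.finite_pc (h1 j).1 (h1 j).2.1)
  exact ⟨J, inferInstance, o, P, L, fun j => (h1 j).1, fun j => (h1 j).2.1, fun j => (h1 j).2.2,
    h2, h3, hP, fun j n => by rw [hP', pc_of_nonneg b (h4 j)]⟩

/-- The backward orbits. -/
def Am (w : (I → ℤ) ≃+ (I → ℤ)) {J : Type} (o : J → I → ℤ) : Set (I → ℤ) :=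
  {ρ | ∃ j, ∃ k : ℕ, ρ = w.symm^[k] (o j)}

/-- The other moving rays. -/
def Ap (b : Ser I) (w : (I → ℤ) ≃+ (I → ℤ)) {J : Type} (o : J → I → ℤ) : Set (I → ℤ) :=
  {ρ | (Root b ρ ∧ 0 ≤ ρ ∧ w ρ ≠ ρ) ∧ ρ ∉ Am w o}

/-- The fixed rays. -/
def A0 (b : Ser I) (w : (I → ℤ) ≃+ (I → ℤ)) : Set (I → ℤ) := {ρ | Root b ρ ∧ 0 ≤ ρ ∧ w ρ = ρ}

namespace Reps
variable {b H : Ser I} {w : (I → ℤ) ≃+ (I → ℤ)} {d : ℕ} {J : Type} {o : J → I → ℤ}
  {P : J → ℂ[X]} (R : Reps b H w d o P)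
include R

theorem lg : Lg b := R.exp.lg

theorem move' (j : J) : w.symm (o j) ≠ o j := fun e =>
  R.move j (by rw [← e, w.apply_symm_apply, e])

theorem of_Am {ρ : I → ℤ} (h : ρ ∈ Am w o) : Root b ρ ∧ 0 ≤ ρ ∧ w ρ ≠ ρ := by
  obtain ⟨j, k, rfl⟩ := h
  refine ⟨(R.root j).iter R.sym.symm k, R.back j k, fun e => iter_ne (R.move' j) k ?_⟩
  rw [AddEquiv.symm_apply_eq, e]

theorem of_Ap {ρ : I → ℤ} (h : ρ ∈ Ap b w o) : ∃ j k, ρ = ps (w^[k] (o j)) := by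
  obtain ⟨j, hj⟩ := R.surj ρ h.1.1 h.1.2.2
  rcases hj.cases with ⟨k, e⟩ | ⟨k, e⟩
  · exact absurd ⟨j, k, eq_of_pm h.1.2.1 (R.back j k) e⟩ h.2
  · exact ⟨j, k, eq_of_pm h.1.2.1 (((R.root j).iter R.sym k).ps_nonneg R.lg)
      (e.trans (ps_pm _).symm)⟩

theorem factor : H = E b (A0 b w) * (E b (Ap b w o) * E b (Am w o)) := by
  rw [← E_union R.lg (fun _ h => h.1.1.1) (fun _ h => (R.of_Am h).1.1)
    (Set.disjoint_left.2 fun _ h => h.2), ← E_union R.lg (fun _ h => h.1.1), ← E_all R.exp]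
  · congr 1
    ext ρ
    constructor
    · rintro ⟨h1, h2⟩
      by_cases h3 : w ρ = ρ
      · exact Or.inl ⟨h1, h2, h3⟩
      · by_cases h4 : ρ ∈ Am w o
        · exact Or.inr (Or.inr h4)
        · exact Or.inr (Or.inl ⟨⟨h1, h2, h3⟩, h4⟩)
    · rintro (h | h | h)
      exacts [⟨h.1, h.2.1⟩, ⟨h.1.1, h.1.2.1⟩, ⟨(R.of_Am h).1, (R.of_Am h).2.1⟩]
  · rintro _ (h | h)
    exacts [h.1.1.1, (R.of_Am h).1.1]
  · refine Set.disjoint_left.2 ?_
    rintro _ h (h' | h')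
    exacts [h'.1.2.2 h.2.2, (R.of_Am h').2.2 h.2.2]

omit [Fintype I] R in
theorem image_subset : w.symm '' Am w o ⊆ Am w o := by
  rintro _ ⟨_, ⟨j, k, rfl⟩, rfl⟩
  exact ⟨j, k + 1, (Function.iterate_succ_apply' ..).symm⟩

theorem shift (m : I → ℤ) : (E b (w.symm '' Am w o)).coeff m = (E b (Am w o)).coeff (w m) := by
  rw [← E_rel R.lg R.lg R.sym.symm (fun ρ h => (R.of_Am h).2.1)
    (fun ρ h => (R.of_Am (image_subset ⟨ρ, h, rfl⟩)).2.1) (w m), w.symm_apply_apply]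

theorem fe [Fintype J] :
    E b (Am w o) = (∏ j, onRay (o j) (P j)) * E b (w.symm '' Am w o) := by
  classical
  have h1 : Function.Injective o := fun j j' e => R.inj j j' (PM.orb w (Or.inl e))
  have h2 : ∀ ρ ∈ univ.image o, Prim ρ := fun ρ h => by
    obtain ⟨j, _, rfl⟩ := mem_image.1 h
    exact (R.root j).1
  simp only [R.onr]
  rw [← Finset.prod_image (f := fun v => E b {v}) h1.injOn, ← E_finset R.lg _ h2,
    ← E_union R.lg h2 fun ρ h => (R.of_Am (image_subset h)).1.1]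
  · congr 1
    ext ρ
    constructor
    · rintro ⟨j, k, rfl⟩
      cases k with
      | zero => exact Or.inl (by simp)
      | succ k => exact Or.inr ⟨_, ⟨j, k, rfl⟩, (Function.iterate_succ_apply' ..).symm⟩
    · rintro (h | h)
      · obtain ⟨j, _, rfl⟩ := mem_image.1 h
        exact ⟨j, 0, rfl⟩
      · exact image_subset h
  · refine Set.disjoint_left.2 ?_
    rintro _ h ⟨_, ⟨j', k, rfl⟩, rfl⟩
    obtain ⟨j, _, e⟩ := mem_image.1 h
    rw [← Function.iterate_succ_apply' w.symm] at e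
    obtain rfl : j = j' := R.inj j j' ((PM.orb w (Or.inl e)).trans (orb_symm_iter w _ _))
    exact (Nat.succ_ne_zero k).symm (R.mk3.symm.eq_of_pm (R.move' j) (k := 0) (Or.inl e))

/-- The terms of the factor of a moving ray. -/
theorem terms {ρ v : I → ℤ} (h0 : 0 ≤ ρ) {j : J} (hj : Orb w ρ (o j))
    (hv : (E b {ρ}).coeff v ≠ 0) : ∃ n : ℕ, v = n • ρ ∧ (P j).coeff n ≠ 0 := by
  obtain ⟨n, rfl⟩ := E_single_supp R.lg ρ hv
  exact ⟨n, rfl, by rwa [R.coe, ← pc_orb R.lg R.sym (R.root j) hj, pc_of_nonneg b h0]⟩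

theorem mem_Lam {N : ℕ} (hw : ∀ m i, (N : ℤ) ∣ w m i - m i) {ρ v : I → ℤ} (h1 : Root b ρ)
    (h0 : 0 ≤ ρ) (h2 : w ρ ≠ ρ) (hv : (E b {ρ}).coeff v ≠ 0) : v ∈ Lam N o P := by
  obtain ⟨j, hj⟩ := R.surj ρ h1 h2
  obtain ⟨n, rfl, hn⟩ := R.terms h0 hj hv
  obtain ⟨k, l, e⟩ := hj
  have key : ∀ (k : ℕ) (u : I → ℤ), n • w^[k] u - n • u ∈ Lam N o P := fun k u =>
    AddSubgroup.subset_closure (Or.inr fun i => by
      simpa [← mul_sub] using (iter_congr hw k u i).mul_left n)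
  have h3 : n • o j ∈ Lam N o P := AddSubgroup.subset_closure (Or.inl ⟨j, n, hn, rfl⟩)
  have h4 : n • w^[l] (o j) ∈ Lam N o P := by simpa using add_mem (key l (o j)) h3
  have h5 : n • w^[k] ρ ∈ Lam N o P := by
    rcases e with e | e
    · rwa [e]
    · rw [e, smul_neg]
      exact neg_mem h4
  simpa using sub_mem h5 (key k ρ)

theorem ray_bound [Fintype J] : ∃ D : ℝ, 0 ≤ D ∧ ∀ (φ : (I → ℤ) →+ ℝ) (ρ v : I → ℤ), Root b ρ →
    0 ≤ ρ → w ρ ≠ ρ → (E b {ρ}).coeff v ≠ 0 → φ v ≤ D * max (φ ρ) 0 := by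
  refine ⟨(univ.sup fun j => (P j).natDegree : ℕ), Nat.cast_nonneg _, fun φ ρ v h1 h0 h2 hv => ?_⟩
  obtain ⟨j, hj⟩ := R.surj ρ h1 h2
  obtain ⟨n, rfl, hn⟩ := R.terms h0 hj hv
  rw [map_nsmul, nsmul_eq_mul]
  refine (mul_le_mul_of_nonneg_left (le_max_left _ 0) n.cast_nonneg).trans
    (mul_le_mul_of_nonneg_right ?_ (le_max_right _ _))
  exact_mod_cast (le_natDegree_of_ne_zero hn).trans
    (Finset.le_sup (f := fun j => (P j).natDegree) (mem_univ j))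

theorem bound_m [Fintype J] (x : (I → ℤ) →+ ℝ)
    (hx : ∀ v, Summable fun k : ℕ => |x (w.symm^[k] v)|) :
    ∃ C : ℝ, ∀ m, (E b (Am w o)).coeff m ≠ 0 → |x m| ≤ C := by
  classical
  obtain ⟨D, hD, h⟩ := R.ray_bound
  have h1 : ∀ S : Finset (I → ℤ), (∀ ρ ∈ S, ρ ∈ Am w o) →
      ∑ ρ ∈ S, D * |x ρ| ≤ D * ∑ j, ∑' k : ℕ, |x (w.symm^[k] (o j))| := by
    intro S hS
    choose j k hjk using hS
    rw [← Finset.mul_sum]
    refine mul_le_mul_of_nonneg_left ?_ hD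
    refine (sum_le_of_image (T := univ ×ˢ range ((S.attach.sup fun ρ => k ρ.1 ρ.2) + 1))
      (g := fun p : J × ℕ => w.symm^[p.2] (o p.1)) (fun v => abs_nonneg _) fun v hv _ => ?_).trans ?_
    · exact ⟨(j v hv, k v hv), mem_product.2 ⟨mem_univ _, mem_range.2 (Nat.lt_succ_of_le
        (Finset.le_sup (f := fun ρ : S => k ρ.1 ρ.2) (mem_attach S ⟨v, hv⟩)))⟩, (hjk v hv).symm⟩
    · rw [Finset.sum_product]
      exact Finset.sum_le_sum fun j _ => (hx (o j)).sum_le_tsum _ fun _ _ => abs_nonneg _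
  refine ⟨_, fun m hm => abs_le'.2 ⟨E_bound R.lg (fun _ h => (R.of_Am h).1.1) x _ _ ?_ h1 m hm,
    E_bound R.lg (fun _ h => (R.of_Am h).1.1) (-x) _ _ ?_ h1 m hm⟩⟩
  · intro ρ hρ v hv
    exact (h x ρ v (R.of_Am hρ).1 (R.of_Am hρ).2.1 (R.of_Am hρ).2.2 hv).trans
      (mul_le_mul_of_nonneg_left (max_le (le_abs_self _) (abs_nonneg _)) hD)
  · intro ρ hρ v hv
    exact (h (-x) ρ v (R.of_Am hρ).1 (R.of_Am hρ).2.1 (R.of_Am hρ).2.2 hv).trans
      (mul_le_mul_of_nonneg_left (max_le (neg_le_abs _) (abs_nonneg _)) hD)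

theorem good_ray (x : (I → ℤ) →+ ℝ) {j : J} {k : ℕ}
    (h : 2 * |dg I (w^[k] (o j)) - x (w^[k] (o j))| ≤ nrm (w^[k] (o j))) :
    0 < dg I (ps (w^[k] (o j))) ∧ dg I (ps (w^[k] (o j))) ≤ 2 * x (ps (w^[k] (o j))) := by
  have h1 := (R.root j).iter R.sym k
  have h2 := h1.ps_nonneg R.lg
  refine ⟨dg_pos h2 (h1.pm (ps_pm _)).1.ne_zero, ?_⟩
  rw [← (ps_pm _).nrm, nrm_eq_dg h2] at h
  rcases ps_pm (w^[k] (o j)) with e | e
  · rw [e] at h ⊢
    linarith [le_abs_self (dg I (w^[k] (o j)) - x (w^[k] (o j)))]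
  · rw [e, map_neg] at h ⊢
    rw [map_neg]
    linarith [neg_le_abs (dg I (w^[k] (o j)) - x (w^[k] (o j)))]

theorem bound_p [Fintype J] (x : (I → ℤ) →+ ℝ) (K : ℕ)
    (hx : ∀ j k, K ≤ k → 2 * |dg I (w^[k] (o j)) - x (w^[k] (o j))| ≤ nrm (w^[k] (o j))) :
    ∃ A : ℝ, ∀ m, (E b (Ap b w o)).coeff m ≠ 0 → dg I m ≤ A + 2 * x m := by
  obtain ⟨D, hD, h⟩ := R.ray_bound
  obtain ⟨φ, hφ⟩ : ∃ φ : (I → ℤ) →+ ℝ, ∀ v, φ v = dg I v - 2 * x v :=
    ⟨dg I - x - x, fun v => by simp only [AddMonoidHom.sub_apply]; ring⟩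
  refine ⟨∑ p ∈ (univ : Finset J) ×ˢ range K, D * max (φ (ps (w^[p.2] (o p.1)))) 0,
    fun m hm => ?_⟩
  rw [← sub_le_iff_le_add, ← hφ]
  refine E_bound R.lg (fun _ h => h.1.1.1) φ (fun ρ => D * max (φ ρ) 0) _
    (fun ρ hρ v hv => h φ ρ v hρ.1.1 hρ.1.2.1 hρ.1.2.2 hv) (fun S hS => ?_) m hm
  refine sum_le_of_image (g := fun p : J × ℕ => ps (w^[p.2] (o p.1)))
    (c := fun ρ => D * max (φ ρ) 0) (fun v => mul_nonneg hD (le_max_right _ _)) fun v hv h0 => ?_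
  obtain ⟨j, k, rfl⟩ := R.of_Ap (hS v hv)
  refine ⟨(j, k), mem_product.2 ⟨mem_univ _, mem_range.2 (lt_of_not_ge fun hk => h0 ?_)⟩, rfl⟩
  have := (R.good_ray x (hx j k hk)).2
  rw [max_eq_right (by rw [hφ]; linarith), mul_zero]

/-- The output of the elimination: the fixed part of the inverse series vanishes. -/
theorem vanish [DecidableEq I] [Fintype J] [Nonempty J] {N : ℕ} (hN : 0 < N)
    (hw : ∀ m i, (N : ℤ) ∣ w m i - m i) {F F0 : Ser I} (hF : F * H = 1)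
    (hF0 : IsExp (-res (cn (A0 b w)) b) F0) (r : I → ℤ)
    (hr : ∀ m, (∀ i, (N : ℤ) ∣ m i - r i) → F.coeff m = 0) (m : I → ℤ)
    (hm : m - r ∈ Lam N o P) : F0.coeff m = 0 := by
  obtain ⟨γ, hγ, h2⟩ := exists_gamma d
  obtain ⟨x, hx1, hx2, hx3⟩ := exists_spec w γ hγ
  have h3 : ∀ j, ∀ᶠ k : ℕ in atTop,
      2 * |dg I (w^[k] (o j)) - x (w^[k] (o j))| ≤ nrm (w^[k] (o j)) := fun j =>
    (hx3 (o j)).resolve_left fun ⟨C, hC⟩ =>
      R.toLoop.not_slow (R.root j) (R.move j) hγ.le h2 hC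
  obtain ⟨K, hK⟩ := eventually_atTop.1 (eventually_all.2 h3)
  obtain ⟨A, hA⟩ := R.bound_p x K fun j k hk => hK k hk j
  obtain ⟨C, hC⟩ := R.bound_m x hx2
  have h4 : F0 * E b (A0 b w) = 1 := by
    have := hF0.mul (R.lg.isExp_E (A0 b w))
    rw [neg_add_cancel] at this
    exact this.unique IsExp.zero
  refine wdv w N hN hw o (fun j => (R.root j).1) ?_ P (fun j => ?_) F F0 (E b (Ap b w o))
    (E b (Am w o)) (E b (w.symm '' Am w o)) ?_ ?_ (R.lg.isExp_E _).posP (R.lg.isExp_E _).P0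
    (R.lg.isExp_E _).ne_zero R.shift R.fe ?_ ?_ x ?_ hx1 A 2 C zero_le_two ?_ hC r hr m hm
  · intro j j' k a a' ha _ e
    have h5 : PM (w^[k] (o j')) (o j) :=
      ((R.root j').iter R.sym k).1.eq_or_of_zsmul (R.root j).1 ha e
    obtain rfl : j' = j := R.inj j' j ⟨k, 0, h5⟩
    exact ⟨R.mk3.eq_of_pm (R.move j') (l := 0) h5, rfl⟩
  · rw [R.coe, pc_zero R.lg]
  · refine mul_right_cancel₀ (R.lg.isExp_E (A0 b w)).ne_zero ?_
    rw [h4, ← hF, mul_assoc, mul_comm _ (E b (A0 b w)), ← R.factor]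
  · refine hF0.exp_mem (w.toAddMonoidHom.eqLocusM (AddMonoidHom.id _)) fun a ha => ?_
    rw [HahnSeries.coeff_neg, neg_ne_zero] at ha
    obtain ⟨⟨ρ, hρ, n, _, rfl⟩, _⟩ := of_coeff_res ha
    change w (n • ρ) = n • ρ
    rw [map_nsmul, hρ.2.2]
  · exact E_mem R.lg (fun _ h => h.1.1.1) (Lam N o P).toAddSubmonoid
      fun ρ hρ h1 h0 v hv => R.mem_Lam hw h1 h0 hρ.1.2.2 hv
  · exact E_mem R.lg (fun _ h => (R.of_Am h).1.1) (Lam N o P).toAddSubmonoid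
      fun ρ hρ h1 h0 v hv => R.mem_Lam hw h1 h0 (R.of_Am hρ).2.2 hv
  · rintro rfl
    obtain ⟨j⟩ := ‹Nonempty J›
    have := R.good_ray 0 (hK K le_rfl j)
    simp only [AddMonoidHom.zero_apply, mul_zero] at this
    exact this.1.not_ge this.2
  · intro m hm
    have := hA m hm
    rw [dg_apply] at this
    exact_mod_cast this

end Reps

omit [Fintype I] in
theorem single_nonneg [DecidableEq I] (i : I) : (0 : I → ℤ) ≤ Pi.single i 1 :=
  Pi.single_nonneg.2 zero_le_one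

theorem Lg.root_single [DecidableEq I] {b : Ser I} (hb : Lg b) {i : I}
    (h : b.coeff (Pi.single i 1) ≠ 0) : Root b (Pi.single i 1) :=
  (hb.root_of_coeff (prim_single i) one_pos (by rwa [one_smul])).1

/-- There is no nontrivial loop. -/
theorem Loop.false [DecidableEq I] {b H : Ser I} {w : (I → ℤ) ≃+ (I → ℤ)} {d : ℕ}
    (L : Loop b H w d) {N : ℕ} (hN : 0 < N) (hw : ∀ m i, (N : ℤ) ∣ w m i - m i)
    (hne : ∃ i, w (Pi.single i 1) ≠ Pi.single i 1) (he : ∀ i, b.coeff (Pi.single i 1) ≠ 0)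
    (good : (I → ℤ) → Prop) {F : Ser I} (hF : F * H = 1)
    (hcas : ∀ r, ¬ good r → ∀ m, (∀ i, (N : ℤ) ∣ m i - r i) → F.coeff m = 0)
    (hiso : ∀ i, (∀ j, j ≠ i → good (Pi.single i 1 + Pi.single j 1)) →
      ∀ ρ, Root b ρ → 0 ≤ ρ → ρ = Pi.single i 1 ∨ ρ i = 0) : False := by
  obtain ⟨J, _, o, P, R⟩ := L.exists_Reps
  obtain ⟨i₀, hi₀⟩ := hne
  obtain ⟨j₀, -⟩ := R.surj _ (R.lg.root_single (he i₀)) hi₀
  have : Nonempty J := ⟨j₀⟩
  have hF0 := (R.lg.res (cn (A0 b w))).neg.isExp_Ex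
  have h1 : ∀ i, w (Pi.single i 1) ≠ Pi.single i 1 → Pi.single i 1 ∈ Lam N o P := fun i hi => by
    refine R.mem_Lam hw (R.lg.root_single (he i)) (single_nonneg i) hi ?_
    rw [(R.lg.isExp_E _).coeff_single,
      coeff_res_of (S := cn {Pi.single i 1}) _ ⟨_, rfl, 1, one_pos, (one_smul _ _).symm⟩]
    exact he i
  have h2 : ∀ i, w (Pi.single i 1) ≠ Pi.single i 1 → ∀ j, good (Pi.single i 1 + Pi.single j 1) := by
    intro i hi j
    by_contra hg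
    by_cases hj : w (Pi.single j 1) = Pi.single j 1
    · have := R.vanish hN hw hF hF0 _ (hcas _ hg) (Pi.single j 1)
        (by simpa using neg_mem (h1 i hi))
      rw [hF0.coeff_single, HahnSeries.coeff_neg, neg_eq_zero, coeff_res_of (S := cn (A0 b w)) _
        ⟨_, ⟨R.lg.root_single (he j), single_nonneg j, hj⟩, 1, one_pos, (one_smul _ _).symm⟩] at this
      exact he j this
    · have := R.vanish hN hw hF hF0 _ (hcas _ hg) 0
        (by rw [zero_sub]; exact neg_mem (add_mem (h1 i hi) (h1 j hj)))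
      rw [hF0.P0] at this
      exact one_ne_zero this
  have h3 : Am w o ⊆ Set.range fun i : I => (Pi.single i 1 : I → ℤ) := by
    intro ρ hρ
    obtain ⟨h4, h5, h6⟩ := R.of_Am hρ
    by_contra h7
    apply h6
    conv_lhs => rw [← Finset.univ_sum_single ρ]
    conv_rhs => rw [← Finset.univ_sum_single ρ]
    rw [map_sum]
    refine Finset.sum_congr rfl fun i _ => ?_
    by_cases hi : w (Pi.single i 1) = Pi.single i 1
    · have : (Pi.single i (ρ i) : I → ℤ) = ρ i • Pi.single i 1 := by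
        rw [← Pi.single_smul, smul_eq_mul, mul_one]
      rw [this, map_zsmul, hi]
    · rw [(hiso i (fun j _ => h2 i hi j) ρ h4 h5).resolve_left fun e => h7 ⟨i, e.symm⟩]
      simp
  refine Set.infinite_of_injective_forall_mem (s := Am w o) (f := fun k : ℕ => w.symm^[k] (o j₀))
    (fun k l e => R.mk3.symm.eq_of_pm (R.move' j₀) (Or.inl e)) (fun k => ⟨j₀, k, rfl⟩)
    ((Set.finite_range _).subset h3)

end Pool.Agent.Lib.MP_ff61db_al.Pt.S6
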