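import Mathlib

/-! Series on the degree lattice: products, shifts, twists, Laurent polynomials. -/

namespace Pool.Agent.Lib.MP_ff61db_al.Pt

open Polynomial

/-- Series on the degree lattice (product order; every function supported in `0 ≤ m` is one). -/
abbrev HS (I : Type*) := HahnSeries (I → ℤ) ℂ

/-- Laurent polynomials on the degree lattice. -/
abbrev LP (I : Type*) := AddMonoidAlgebra ℂ (I → ℤ)

variable {I : Type*}

/-- Supported in nonnegative degrees. -/
def Pos (A : HS I) : Prop := ∀ m, A.coeff m ≠ 0 → 0 ≤ m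

/-- The polynomial `P` evaluated at the monomial of degree `o`. -/
noncomputable def onRay (o : I → ℤ) (P : ℂ[X]) : HS I :=
  Polynomial.aeval (HahnSeries.single o (1 : ℂ) : HS I) P

/-- The subgroup generated by `N ℤ^I` and the `n • o j` with `n` in the support of `P j`. -/
def Lam {J : Type*} (N : ℕ) (o : J → I → ℤ) (P : J → ℂ[X]) : AddSubgroup (I → ℤ) :=
  AddSubgroup.closure
    ({m | ∃ j n, (P j).coeff n ≠ 0 ∧ m = n • o j} ∪ {m | ∀ i, (N : ℤ) ∣ m i})

namespace Wd

theorem isPWO_nonneg [Finite I] : Set.IsPWO {m : I → ℤ | 0 ≤ m} := by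
  have h1 : Set.IsPWO (Set.univ : Set (I → ℕ)) := Set.isPWO_of_wellQuasiOrderedLE _
  have h2 := h1.image_of_monotone (f := fun (a : I → ℕ) (i : I) => (a i : ℤ))
    (fun a b hab i => Int.ofNat_le.2 (hab i))
  refine h2.mono ?_
  intro m hm
  refine ⟨fun i => (m i).toNat, Set.mem_univ _, ?_⟩
  funext i
  exact Int.toNat_of_nonneg (hm i)

/-- A function supported in nonnegative degrees as a series. -/
def ser [Finite I] (f : (I → ℤ) → ℂ) (hf : ∀ m, f m ≠ 0 → 0 ≤ m) : HS I where
  coeff := f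
  isPWO_support' := isPWO_nonneg.mono (fun m hm => hf m hm)

@[simp] theorem ser_coeff [Finite I] (f : (I → ℤ) → ℂ) (hf : ∀ m, f m ≠ 0 → 0 ≤ m) :
    (ser f hf).coeff = f := rfl

theorem ser_pos [Finite I] (f : (I → ℤ) → ℂ) (hf : ∀ m, f m ≠ 0 → 0 ≤ m) : Pos (ser f hf) := hf

theorem mul_coeff_ne {A B : HS I} {m : I → ℤ} (h : (A * B).coeff m ≠ 0) :
    ∃ a b, A.coeff a ≠ 0 ∧ B.coeff b ≠ 0 ∧ a + b = m := by
  obtain ⟨a, ha, b, hb, hab⟩ := HahnSeries.support_mul_subset (x := A) (y := B) (a := m) h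
  exact ⟨a, b, ha, hb, hab⟩

theorem _root_.Pool.Agent.Lib.MP_ff61db_al.Pt.Pos.coeff_mul [Fintype I] [DecidableEq I] {A B : HS I} (hA : Pos A) (hB : Pos B)
    (m : I → ℤ) :
    (A * B).coeff m = ∑ n ∈ Finset.Icc 0 m, A.coeff n * B.coeff (m - n) := by
  rw [HahnSeries.coeff_mul]
  refine Finset.sum_bij_ne_zero (fun ij _ _ => ij.1) ?_ ?_ ?_ ?_
  · intro ij h _
    obtain ⟨h1, h2, h3⟩ := Finset.mem_antidiagonal.1 h
    refine Finset.mem_Icc.2 ⟨hA _ h1, ?_⟩
    rw [← h3]
    exact le_add_of_nonneg_right (hB _ h2)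
  · intro a h1 _ b h2 _ hab
    obtain ⟨_, _, h3⟩ := Finset.mem_antidiagonal.1 h1
    obtain ⟨_, _, h4⟩ := Finset.mem_antidiagonal.1 h2
    have h5 : a.1 + a.2 = a.1 + b.2 := by rw [h3, ← h4, hab]
    exact Prod.ext hab (add_left_cancel h5)
  · intro n _ hn
    refine ⟨(n, m - n), Finset.mem_antidiagonal.2 ⟨left_ne_zero_of_mul hn,
      right_ne_zero_of_mul hn, by simp⟩, hn, rfl⟩
  · intro ij h _
    obtain ⟨_, _, h3⟩ := Finset.mem_antidiagonal.1 h
    rw [← h3, add_sub_cancel_left]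

theorem _root_.Pool.Agent.Lib.MP_ff61db_al.Pt.Pos.mul {A B : HS I} (hA : Pos A) (hB : Pos B) : Pos (A * B) := by
  intro m hm
  obtain ⟨a, b, ha, hb, rfl⟩ := mul_coeff_ne hm
  exact add_nonneg (hA a ha) (hB b hb)

theorem pos_one : Pos (1 : HS I) := by
  classical
  intro m hm
  rw [HahnSeries.coeff_one] at hm
  by_cases h : m = 0
  · exact h.ge
  · simp [h] at hm

/-- The coefficient of a product at a degree with one decomposition. -/
theorem coeff_mul_unique {A B : HS I} {a b : I → ℤ}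
    (h : ∀ a' b', A.coeff a' ≠ 0 → B.coeff b' ≠ 0 → a' + b' = a + b → a' = a) :
    (A * B).coeff (a + b) = A.coeff a * B.coeff b := by
  rw [HahnSeries.coeff_mul]
  refine Finset.sum_eq_single (a, b) ?_ ?_
  · intro ij hij hne
    obtain ⟨h1, h2, h3⟩ := Finset.mem_antidiagonal.1 hij
    have h4 := h _ _ h1 h2 h3
    rw [h4] at h3
    exact absurd (Prod.ext h4 (add_left_cancel h3)) hne
  · intro hn
    by_contra hc
    exact hn (Finset.mem_antidiagonal.2 ⟨left_ne_zero_of_mul hc, right_ne_zero_of_mul hc, rfl⟩)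

theorem _root_.Pool.Agent.Lib.MP_ff61db_al.Pt.Pos.coeff_mul_zero {A B : HS I} (hA : Pos A) (hB : Pos B) :
    (A * B).coeff 0 = A.coeff 0 * B.coeff 0 := by
  have := coeff_mul_unique (A := A) (B := B) (a := 0) (b := 0) (by
    intro a b ha hb hab
    have h1 := hA a ha
    have h2 := hB b hb
    rw [add_zero] at hab
    refine le_antisymm ?_ h1
    rw [← hab]
    exact le_add_of_nonneg_right h2)
  simpa using this

/-- No zero divisors. -/
theorem hs_mul_ne_zero [Finite I] {A B : HS I} (hA : A ≠ 0) (hB : B ≠ 0) : A * B ≠ 0 := by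
  classical
  obtain ⟨n, ⟨e⟩⟩ := Finite.exists_equiv_fin I
  let _ : LinearOrder I := LinearOrder.lift' e e.injective
  have _ : WellFoundedLT I := Finite.to_wellFoundedLT
  have key : ∀ C : HS I, C ≠ 0 → ∃ c, C.coeff c ≠ 0 ∧
      ∀ c', C.coeff c' ≠ 0 → toLex c ≤ toLex c' := by
    intro C hC
    have h1 := (C.isPWO_support.image_of_monotone (f := @toLex (I → ℤ))
      Pi.toLex_monotone).isWF
    have hne : (toLex '' C.support).Nonempty :=
      (HahnSeries.support_nonempty_iff.2 hC).image _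
    obtain ⟨c, hc, hc2⟩ := h1.min_mem hne
    refine ⟨c, hc, fun c' hc' => ?_⟩
    rw [hc2]
    exact h1.min_le hne ⟨c', hc', rfl⟩
  obtain ⟨a, ha, ha2⟩ := key A hA
  obtain ⟨b, hb, hb2⟩ := key B hB
  intro h0
  have h1 := coeff_mul_unique (A := A) (B := B) (a := a) (b := b) (by
    intro a' b' ha' hb' hab
    have h2 : toLex a' + toLex b' = toLex a + toLex b := congrArg toLex hab
    have h3 := (add_eq_add_iff_eq_and_eq (ha2 a' ha') (hb2 b' hb')).1 h2.symm
    exact (toLex.injective h3.1).symm)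
  rw [h0] at h1
  exact mul_ne_zero ha hb (by simpa using h1.symm)

instance hsNoZeroDivisors [Finite I] : NoZeroDivisors (HS I) where
  eq_zero_or_eq_zero_of_mul_eq_zero {A B} h := by
    by_contra hc
    push Not at hc
    exact hs_mul_ne_zero hc.1 hc.2 h

/-- `A'` is the series `A` read through `w`. -/
def Sh (w : (I → ℤ) ≃+ (I → ℤ)) (A A' : HS I) : Prop := ∀ m, A'.coeff m = A.coeff (w m)

theorem Sh.mul {w : (I → ℤ) ≃+ (I → ℤ)} {A A' B B' : HS I} (hA : Sh w A A') (hB : Sh w B B') :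
    Sh w (A * B) (A' * B') := by
  intro m
  rw [HahnSeries.coeff_mul, HahnSeries.coeff_mul]
  refine Finset.sum_bij (fun ij _ => (w ij.1, w ij.2)) ?_ ?_ ?_ ?_
  · intro ij h
    obtain ⟨h1, h2, h3⟩ := Finset.mem_antidiagonal.1 h
    refine Finset.mem_antidiagonal.2 ⟨?_, ?_, ?_⟩
    · rw [HahnSeries.mem_support, ← hA]; exact h1
    · rw [HahnSeries.mem_support, ← hB]; exact h2
    · rw [← map_add, h3]
  · intro a _ b _ hab
    obtain ⟨h1, h2⟩ := Prod.mk.inj hab
    exact Prod.ext (w.injective h1) (w.injective h2)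
  · intro ij h
    obtain ⟨h1, h2, h3⟩ := Finset.mem_antidiagonal.1 h
    refine ⟨(w.symm ij.1, w.symm ij.2), Finset.mem_antidiagonal.2 ⟨?_, ?_, ?_⟩, by simp⟩
    · rw [HahnSeries.mem_support, hA]; simpa using h1
    · rw [HahnSeries.mem_support, hB]; simpa using h2
    · rw [← map_add, h3]; simp
  · intro ij _
    rw [hA, hB]

theorem Sh.one (w : (I → ℤ) ≃+ (I → ℤ)) : Sh w (1 : HS I) 1 := by
  classical
  intro m
  simp [HahnSeries.coeff_one]

theorem Sh.prod {w : (I → ℤ) ≃+ (I → ℤ)} {ι : Type*} (s : Finset ι) {A A' : ι → HS I}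
    (h : ∀ i ∈ s, Sh w (A i) (A' i)) : Sh w (∏ i ∈ s, A i) (∏ i ∈ s, A' i) := by
  classical
  induction s using Finset.induction_on with
  | empty => simpa using Sh.one w
  | insert a s ha ih =>
    rw [Finset.prod_insert ha, Finset.prod_insert ha]
    exact (h a (Finset.mem_insert_self _ _)).mul
      (ih fun i hi => h i (Finset.mem_insert_of_mem hi))

theorem Sh.sum {w : (I → ℤ) ≃+ (I → ℤ)} {ι : Type*} (s : Finset ι) {A A' : ι → HS I}
    (h : ∀ i ∈ s, Sh w (A i) (A' i)) : Sh w (∑ i ∈ s, A i) (∑ i ∈ s, A' i) := by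
  intro m
  rw [HahnSeries.coeff_sum, HahnSeries.coeff_sum]
  exact Finset.sum_congr rfl fun i hi => h i hi m

theorem Sh.eq_zero {w : (I → ℤ) ≃+ (I → ℤ)} {A' : HS I} (h : Sh w 0 A') : A' = 0 := by
  ext m
  simpa using h m

/-- Twist by a character of the lattice. -/
def twF (χ : AddChar (I → ℤ) ℂ) (A : HS I) : HS I where
  coeff := fun m => χ m * A.coeff m
  isPWO_support' := A.isPWO_support.mono (fun _ hm => right_ne_zero_of_mul hm)

theorem chi_ne (χ : AddChar (I → ℤ) ℂ) (m : I → ℤ) : χ m ≠ 0 := by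
  intro h
  have h1 := χ.map_add_eq_mul m (-m)
  rw [add_neg_cancel, χ.map_zero_eq_one, h, zero_mul] at h1
  exact one_ne_zero h1

theorem twF_support (χ : AddChar (I → ℤ) ℂ) (A : HS I) : (twF χ A).support = A.support := by
  ext m
  simp [HahnSeries.mem_support, twF, chi_ne]

/-- The twist as an algebra map. -/
noncomputable def tw (χ : AddChar (I → ℤ) ℂ) : HS I →ₐ[ℂ] HS I :=
  AlgHom.ofLinearMap
    { toFun := twF χ
      map_add' := fun A B => by ext m; simp [twF, mul_add]
      map_smul' := fun c A => by ext m; simp [twF]; ring }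
    (by
      classical
      ext m
      by_cases h : m = 0
      · simp [twF, h]
      · simp [twF, HahnSeries.coeff_one, h])
    (fun A B => by
      ext m
      change χ m * (A * B).coeff m = (twF χ A * twF χ B).coeff m
      rw [HahnSeries.coeff_mul, HahnSeries.coeff_mul, Finset.mul_sum]
      refine Finset.sum_congr ?_ ?_
      · ext ij
        simp only [Finset.mem_antidiagonal, twF_support]
      · intro ij hij
        obtain ⟨_, _, h3⟩ := Finset.mem_antidiagonal.1 hij
        rw [← h3, χ.map_add_eq_mul]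
        simp only [twF]
        ring)

theorem tw_coeff (χ : AddChar (I → ℤ) ℂ) (A : HS I) (m : I → ℤ) :
    (tw χ A).coeff m = χ m * A.coeff m := rfl

theorem tw_coeff_ne {χ : AddChar (I → ℤ) ℂ} {A : HS I} {m : I → ℤ}
    (h : (tw χ A).coeff m ≠ 0) : A.coeff m ≠ 0 := right_ne_zero_of_mul h

theorem tw_single (χ : AddChar (I → ℤ) ℂ) (o : I → ℤ) (c : ℂ) :
    tw χ (HahnSeries.single o c) = HahnSeries.single o (χ o * c) := by
  classical
  ext m
  rw [tw_coeff]
  by_cases h : m = o
  · subst h; simp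
  · simp [h]

/-- Laurent polynomials as series. -/
noncomputable def emb : LP I →ₐ[ℂ] HS I :=
  AddMonoidAlgebra.lift ℂ (HS I) (I → ℤ)
    { toFun := fun m => HahnSeries.single (Multiplicative.toAdd m) 1
      map_one' := rfl
      map_mul' := fun a b => by simp [HahnSeries.single_mul_single] }

theorem emb_single (m : I → ℤ) (c : ℂ) :
    emb (AddMonoidAlgebra.single m c) = HahnSeries.single m c := by
  classical
  rw [emb, AddMonoidAlgebra.lift_single]
  ext a
  by_cases h : a = m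
  · subst h; simp
  · simp [h]

theorem emb_coeff (p : LP I) (m : I → ℤ) : (emb p).coeff m = p.coeff m := by
  classical
  induction p using AddMonoidAlgebra.induction_linear with
  | zero => simp
  | add p q hp hq => simp [hp, hq]
  | single a c =>
    rw [emb_single]
    by_cases h : m = a
    · subst h; simp
    · simp [h]

theorem emb_ne_zero {p : LP I} (hp : p ≠ 0) : emb p ≠ 0 := by
  intro h
  apply hp
  ext m
  rw [← emb_coeff, h]
  simp

/-- A series with finite support is a Laurent polynomial. -/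
theorem exists_emb (A : HS I) (h : A.support.Finite) : ∃ p : LP I, emb p = A := by
  refine ⟨AddMonoidAlgebra.ofCoeff (Finsupp.ofSupportFinite A.coeff h), ?_⟩
  ext m
  rw [emb_coeff]
  rfl

/-- The shift on Laurent polynomials. -/
noncomputable def sig (w : (I → ℤ) ≃+ (I → ℤ)) : LP I ≃ₐ[ℂ] LP I :=
  AddMonoidAlgebra.domCongr ℂ ℂ w.symm

theorem sig_coeff (w : (I → ℤ) ≃+ (I → ℤ)) (p : LP I) (m : I → ℤ) :
    (sig w p).coeff m = p.coeff (w m) := by
  simp [sig, AddMonoidAlgebra.coeff_domCongr]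

theorem sig_single (w : (I → ℤ) ≃+ (I → ℤ)) (m : I → ℤ) (c : ℂ) :
    sig w (AddMonoidAlgebra.single m c) = AddMonoidAlgebra.single (w.symm m) c := by
  simp [sig, AddMonoidAlgebra.domCongr_single]

theorem sh_emb (w : (I → ℤ) ≃+ (I → ℤ)) (p : LP I) : Sh w (emb p) (emb (sig w p)) := by
  intro m
  rw [emb_coeff, emb_coeff, sig_coeff]

end Wd

end Pool.Agent.Lib.MP_ff61db_al.Pt
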