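import Pool.Agent.Lib.MP_ff61db_al.Pt.S6Ray
import Pool.Agent.Lib.MP_ff61db_al.Pt.WdvA

/-! Positivity of the ray factors, growth, and polynomial factors. -/

namespace Pool.Agent.Lib.MP_ff61db_al.Pt.S6

open Finset Polynomial

variable {I : Type*}

theorem nsmul_inj {ρ : I → ℤ} (h : ρ ≠ 0) {a b : ℕ} (e : a • ρ = b • ρ) : a = b := by
  obtain ⟨i, hi⟩ := Function.ne_iff.1 h
  have : (a : ℤ) * ρ i = b * ρ i := by simpa using congrFun e i
  exact_mod_cast mul_right_cancel₀ hi this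

theorem NatS.one_le_re {f : Ser I} (h : NatS f) {m : I → ℤ} (hm : f.coeff m ≠ 0) :
    1 ≤ (f.coeff m).re := by
  obtain ⟨n, hn⟩ := h m
  rw [hn] at hm ⊢
  rw [Complex.natCast_re]
  exact_mod_cast Nat.pos_of_ne_zero fun e => hm (by rw [e, Nat.cast_zero])

theorem coeff_onRay (ρ : I → ℤ) (P : ℂ[X]) (v : I → ℤ) [DecidableEq (I → ℤ)] :
    (onRay ρ P).coeff v = ∑ n ∈ P.support, if v = n • ρ then P.coeff n else 0 := by
  rw [onRay, Polynomial.aeval_def, Polynomial.eval₂_eq_sum, Polynomial.sum, HahnSeries.coeff_sum]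
  refine Finset.sum_congr rfl fun n _ => ?_
  rw [HahnSeries.single_pow, one_pow, ← HahnSeries.C_eq_algebraMap, HahnSeries.C_mul_eq_smul,
    HahnSeries.coeff_smul, HahnSeries.coeff_single]
  split_ifs <;> simp

theorem exists_onRay {f : Ser I} {ρ : I → ℤ} (hρ : ρ ≠ 0)
    (hf : ∀ v, f.coeff v ≠ 0 → ∃ n : ℕ, v = n • ρ) (hfin : {n : ℕ | f.coeff (n • ρ) ≠ 0}.Finite) :
    ∃ P : ℂ[X], onRay ρ P = f ∧ ∀ n, P.coeff n = f.coeff (n • ρ) := by
  classical
  obtain ⟨P, hP⟩ : ∃ P : ℂ[X], ∀ n, P.coeff n = f.coeff (n • ρ) := by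
    refine ⟨∑ n ∈ hfin.toFinset, monomial n (f.coeff (n • ρ)), fun n => ?_⟩
    rw [Polynomial.finsetSum_coeff]
    simp only [coeff_monomial, Finset.sum_ite_eq', Set.Finite.mem_toFinset, Set.mem_ofPred_eq]
    split_ifs with h
    · rfl
    · exact (of_not_not h).symm
  refine ⟨P, ?_, hP⟩
  ext v
  rw [coeff_onRay]
  by_cases hv : ∃ n : ℕ, v = n • ρ
  · obtain ⟨n, rfl⟩ := hv
    have : ∀ k : ℕ, (n • ρ = k • ρ) ↔ n = k := fun k =>
      ⟨fun e => nsmul_inj hρ e, fun e => e ▸ rfl⟩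
    simp only [this, Finset.sum_ite_eq, mem_support_iff, ← hP]
    split_ifs with h
    · rfl
    · exact (of_not_not h).symm
  · rw [of_not_not fun h => hv (hf v h)]
    exact Finset.sum_eq_zero fun n _ => if_neg fun e => hv ⟨n, e⟩

variable [Fintype I]

/-- The coefficients of degree at most `R` add up to at least `μ`. -/
def Mass (f : Ser I) (R μ : ℝ) : Prop :=
  ∃ s : Finset (I → ℤ), (∀ m ∈ s, dg I m ≤ R) ∧ μ ≤ ∑ m ∈ s, (f.coeff m).re

/-- Polynomial growth with exponent `d`. -/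
def Gr (f : Ser I) (d : ℕ) : Prop := ∃ C : ℝ, ∀ R μ : ℝ, 0 ≤ R → Mass f R μ → μ ≤ C * (R + 1) ^ d

theorem Mass.mono {f : Ser I} {R R' μ : ℝ} (h : Mass f R μ) (hR : R ≤ R') : Mass f R' μ := by
  obtain ⟨s, h1, h2⟩ := h
  exact ⟨s, fun m hm => (h1 m hm).trans hR, h2⟩

theorem mass_zero {f : Ser I} (h : f.coeff 0 = 1) : Mass f 0 1 :=
  ⟨{0}, by simp, by simp [h]⟩

theorem Mass.mul {f g : Ser I} (hf : NatS f) (hg : NatS g) {R R' μ μ' : ℝ} (h : Mass f R μ)
    (h' : Mass g R' μ') (h0 : 0 ≤ μ') : Mass (f * g) (R + R') (μ * μ') := by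
  classical
  obtain ⟨s, h1, h2⟩ := h
  obtain ⟨t, h3, h4⟩ := h'
  choose a ha using hf
  choose c hc using hg
  refine ⟨(s ×ˢ t).image fun p => p.1 + p.2, ?_, ?_⟩
  · intro m hm
    obtain ⟨p, hp, rfl⟩ := mem_image.1 hm
    rw [map_add]
    exact add_le_add (h1 _ (mem_product.1 hp).1) (h3 _ (mem_product.1 hp).2)
  · simp only [ha, hc, Complex.natCast_re] at h2 h4
    have h5 : ∀ m, ((f * g).coeff m).re = ((∑ p ∈ Finset.antidiagonal f.isPWO_support
        g.isPWO_support m, a p.1 * c p.2 : ℕ) : ℝ) := fun m => by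
      rw [HahnSeries.coeff_mul, ← Complex.natCast_re]
      simp [ha, hc]
    have h6 : ∑ p ∈ s ×ˢ t, a p.1 * c p.2 ≤ ∑ m ∈ (s ×ˢ t).image fun p => p.1 + p.2,
        ∑ p ∈ Finset.antidiagonal f.isPWO_support g.isPWO_support m, a p.1 * c p.2 := by
      rw [← Finset.sum_fiberwise_of_maps_to (g := fun p => p.1 + p.2)
        fun p hp => mem_image_of_mem _ hp]
      refine Finset.sum_le_sum fun m _ => Finset.sum_le_sum_of_ne_zero fun p hp h7 => ?_
      rw [mul_ne_zero_iff] at h7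
      rw [Finset.mem_antidiagonal, HahnSeries.mem_support, HahnSeries.mem_support, ha, hc]
      exact ⟨Nat.cast_ne_zero.2 h7.1, Nat.cast_ne_zero.2 h7.2, (mem_filter.1 hp).2⟩
    simp only [h5]
    calc μ * μ' ≤ (∑ m ∈ s, (a m : ℝ)) * ∑ m ∈ t, (c m : ℝ) :=
          mul_le_mul h2 h4 h0 (Finset.sum_nonneg fun _ _ => Nat.cast_nonneg _)
      _ = ((∑ p ∈ s ×ˢ t, a p.1 * c p.2 : ℕ) : ℝ) := by
          rw [Finset.sum_mul_sum, Finset.sum_product]
          push_cast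
          rfl
      _ ≤ _ := by exact_mod_cast h6

theorem Mass.prod {ι : Type*} (s : Finset ι) {f : ι → Ser I} {R μ : ι → ℝ}
    (hf : ∀ i ∈ s, NatS (f i)) (h : ∀ i ∈ s, Mass (f i) (R i) (μ i)) (h0 : ∀ i ∈ s, 0 ≤ μ i) :
    Mass (∏ i ∈ s, f i) (∑ i ∈ s, R i) (∏ i ∈ s, μ i) := by
  classical
  induction s using Finset.induction_on with
  | empty => simpa using mass_zero (f := (1 : Ser I)) (by simp)
  | insert a s ha ih =>
    rw [prod_insert ha, sum_insert ha, prod_insert ha]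
    exact (h a (mem_insert_self _ _)).mul (hf a (mem_insert_self _ _))
      (NatS.prod s fun i hi => hf i (mem_insert_of_mem hi))
      (ih (fun i hi => hf i (mem_insert_of_mem hi)) (fun i hi => h i (mem_insert_of_mem hi))
        fun i hi => h0 i (mem_insert_of_mem hi))
      (Finset.prod_nonneg fun i hi => h0 i (mem_insert_of_mem hi))

theorem mass_ray {f : Ser I} (hf : NatS f) {ρ : I → ℤ} (h0 : 0 ≤ ρ) (h1 : ρ ≠ 0) (T : Finset ℕ)
    {D : ℕ} (hT : ∀ n ∈ T, n ≤ D ∧ f.coeff (n • ρ) ≠ 0) : Mass f (D * nrm ρ) T.card := by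
  classical
  refine ⟨T.image fun n => n • ρ, ?_, ?_⟩
  · intro m hm
    obtain ⟨n, hn, rfl⟩ := mem_image.1 hm
    rw [map_nsmul, nsmul_eq_mul, nrm_eq_dg h0]
    exact mul_le_mul_of_nonneg_right (by exact_mod_cast (hT n hn).1) (dg_pos h0 h1).le
  · rw [Finset.sum_image fun _ _ _ _ e => nsmul_inj h1 e]
    simpa using Finset.card_nsmul_le_sum T _ (1 : ℝ) fun n hn => hf.one_le_re (hT n hn).2

/-- Doubling: independent rays multiply the number of terms. -/
theorem mass_rays {b H : Ser I} (h : IsExp b H)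
    (hnat : ∀ ρ, Root b ρ → 0 ≤ ρ → NatS (E b {ρ})) {α : Type*} (A : Finset α) (ρ : α → I → ℤ)
    (hinj : Set.InjOn ρ A) (hρ : ∀ a ∈ A, Root b (ρ a) ∧ 0 ≤ ρ a) (T : α → Finset ℕ) {D : ℕ}
    (hT : ∀ a ∈ A, ∀ n ∈ T a, n ≤ D ∧ (E b {ρ a}).coeff (n • ρ a) ≠ 0) :
    Mass H (∑ a ∈ A, D * nrm (ρ a)) (∏ a ∈ A, ((T a).card : ℝ)) := by
  classical
  have h1 : ∀ v ∈ A.image ρ, Root b v ∧ 0 ≤ v := fun v hv => by
    obtain ⟨a, ha, rfl⟩ := mem_image.1 hv
    exact hρ a ha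
  have h2 : H = (∏ a ∈ A, E b {ρ a}) * E b ({v | Root b v ∧ 0 ≤ v} \ (A.image ρ : Finset _)) := by
    rw [← Finset.prod_image (f := fun v => E b {v}) hinj,
      ← E_finset h.lg _ fun v hv => (h1 v hv).1.1,
      ← E_union h.lg (fun v hv => (h1 v hv).1.1) (fun v hv => hv.1.1.1) Set.disjoint_sdiff_right,
      Set.union_sdiff_cancel (t := {v | Root b v ∧ 0 ≤ v}) fun v hv => h1 v hv, E_all h]
  have h3 := (Mass.prod A (fun a ha => hnat _ (hρ a ha).1 (hρ a ha).2) (fun a ha =>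
    mass_ray (hnat _ (hρ a ha).1 (hρ a ha).2) (hρ a ha).2 (hρ a ha).1.1.ne_zero (T a) (hT a ha))
    fun _ _ => Nat.cast_nonneg _).mul
    (NatS.prod A fun a ha => hnat _ (hρ a ha).1 (hρ a ha).2)
    (natS_E h.lg (A := {v | Root b v ∧ 0 ≤ v} \ (A.image ρ : Finset _)) (fun v hv => hv.1.1.1) hnat)
    (mass_zero (h.lg.isExp_E _).P0) zero_le_one
  rwa [← h2, add_zero, mul_one] at h3

/-- The part of the logarithm on the face of a cut. -/
theorem isExp_cut {Λ : Type*} [AddCommGroup Λ] [LinearOrder Λ] [IsOrderedAddMonoid Λ]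
    (l : (I → ℤ) →+ Λ) {b K U : Ser I} (h : IsExp b (K * U)) (pK : Pos K) (pU : Pos U)
    (K0 : K.coeff 0 = 1) (U0 : U.coeff 0 = 1) (hK : ∀ a, K.coeff a ≠ 0 → 0 ≤ l a)
    (hU : ∀ a, U.coeff a ≠ 0 → a = 0 ∨ l a < 0) :
    IsExp (res {a | l a = 0} b) (res {a | l a = 0} K) := by
  obtain ⟨c, hc⟩ := exists_log pK K0
  obtain ⟨u, hu⟩ := exists_log pU U0
  let M : AddSubmonoid (I → ℤ) :=
    { carrier := {a | a = 0 ∨ l a < 0}
      zero_mem' := Or.inl rfl
      add_mem' := by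
        rintro a c (rfl | ha) hc
        · rwa [zero_add]
        · rcases hc with rfl | hc
          · rw [add_zero]
            exact Or.inr ha
          · refine Or.inr ?_
            rw [map_add]
            exact add_neg ha hc }
  have : res {a | l a = 0} b = res {a | l a = 0} c := by
    rw [h.unique_log (hc.mul hu)]
    ext m
    by_cases hm : l m = 0
    · rw [coeff_res_of _ hm, coeff_res_of _ hm, HahnSeries.coeff_add, add_eq_left]
      by_contra h1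
      rcases hu.log_mem M hU m h1 with h2 | h2
      · exact h1 (h2 ▸ hu.b0)
      · exact h2.ne hm
    · rw [coeff_res_of_not _ hm, coeff_res_of_not _ hm]
  rw [this]
  exact hc.face l hK

/-- The additive map whose kernel is the line through `ρ`. -/
noncomputable def cutMap (ρ : I → ℤ) : (I → ℤ) →+ Lex (Fin (Fintype.card I) → ℤ) :=
  (lx I).comp
    { toFun := fun m => (∑ i, ρ i) • m - (∑ i, m i) • ρ
      map_zero' := by simp
      map_add' := fun u v => by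
        simp only [Pi.add_apply, Finset.sum_add_distrib]
        module }

theorem cutMap_eq_zero {ρ m : I → ℤ} : cutMap ρ m = 0 ↔ (∑ i, ρ i) • m = (∑ i, m i) • ρ := by
  rw [← sub_eq_zero (a := _ • m), ← map_eq_zero_iff (lx I) lx_injective (x := _ - _)]
  rfl

omit [Fintype I] in
theorem eq_of_pm {u v : I → ℤ} (hu : 0 ≤ u) (hv : 0 ≤ v) (h : u = v ∨ u = -v) : u = v := by
  rcases h with h | h
  · exact h
  · have : v = 0 := le_antisymm (neg_nonneg.1 (h ▸ hu)) hv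
    rw [h, this, neg_zero]

theorem res_cutMap {b : Ser I} (hb : Lg b) {ρ : I → ℤ} (hρ : Prim ρ) (h0 : 0 ≤ ρ) :
    res {a | cutMap ρ a = 0} b = res (cn {ρ}) b := by
  ext m
  by_cases hm : b.coeff m = 0
  · rw [of_not_not fun h => (of_coeff_res (S := {a | cutMap ρ a = 0}) h).2 hm,
      of_not_not fun h => (of_coeff_res (S := cn {ρ}) h).2 hm]
  · by_cases h1 : m ∈ cn {ρ}
    · rw [coeff_res_of _ h1, coeff_res_of]
      obtain ⟨_, rfl, n, _, rfl⟩ := h1
      rw [Set.mem_ofPred_eq, cutMap_eq_zero]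
      simp only [Pi.smul_apply, ← Finset.smul_sum]
      module
    · rw [coeff_res_of_not _ h1, coeff_res_of_not]
      intro h2
      rw [Set.mem_ofPred_eq, cutMap_eq_zero] at h2
      obtain ⟨n, v, hn, hv, rfl⟩ := exists_prim (m := m) fun e => hm (e ▸ hb.zero)
      have h3 : (∑ i, ρ i) ≠ 0 := fun e => (dg_pos h0 hρ.ne_zero).ne' (by
        rw [dg_apply]
        exact_mod_cast e)
      rw [← natCast_zsmul, smul_smul] at h2
      have h4 := hv.eq_or_of_zsmul hρ (mul_ne_zero h3 (Int.natCast_pos.2 hn).ne') h2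
      exact h1 ⟨ρ, rfl, n, hn, by rw [eq_of_pm (nonneg_of_nsmul hn (hb.pos _ hm)) h0 h4]⟩

theorem natS_ray {b K U : Ser I} {ρ : I → ℤ} (hρ : Prim ρ) (h0 : 0 ≤ ρ) (h : IsExp b (K * U))
    (pK : Pos K) (pU : Pos U) (K0 : K.coeff 0 = 1) (U0 : U.coeff 0 = 1) (nK : NatS K)
    (hK : ∀ a, K.coeff a ≠ 0 → 0 ≤ cutMap ρ a)
    (hU : ∀ a, U.coeff a ≠ 0 → a = 0 ∨ cutMap ρ a < 0) : NatS (E b {ρ}) := by
  have h1 := isExp_cut (cutMap ρ) h pK pU K0 U0 hK hU
  rw [res_cutMap h.lg hρ h0] at h1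
  rw [(h.lg.isExp_E {ρ}).unique h1]
  exact nK.res _

end Pool.Agent.Lib.MP_ff61db_al.Pt.S6
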