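import Mathlib

/-! The `l¹` norm and the degree on the lattice `I → ℤ`. -/

namespace Pool.Agent.Lib.MP_ff61db_al.Pt.S6

variable {I : Type*} [Fintype I]

/-- The `l¹` norm. -/
def nrm (v : I → ℤ) : ℝ := ∑ i, |(v i : ℝ)|

/-- The total degree as a real additive map. -/
def dg (I : Type*) [Fintype I] : (I → ℤ) →+ ℝ where
  toFun v := ∑ i, (v i : ℝ)
  map_zero' := by simp
  map_add' u v := by simp [Finset.sum_add_distrib]

theorem dg_apply (v : I → ℤ) : dg I v = ∑ i, (v i : ℝ) := rfl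

/-- Primitive vectors. -/
def Prim (v : I → ℤ) : Prop := ∃ u : (I → ℤ) →+ ℤ, u v = 1

end Pool.Agent.Lib.MP_ff61db_al.Pt.S6
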