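import Pool.Agent.Lib.MP_ff61db_al.Pt.S6Mass

/-! Orbits of root rays under a symmetry, and the doubling bound. -/

namespace Pool.Agent.Lib.MP_ff61db_al.Pt.S6

open Finset

variable {I : Type}

/-- Equal up to sign. -/
def PM (u v : I → ℤ) : Prop := u = v ∨ u = -v

theorem PM.refl (v : I → ℤ) : PM v v := Or.inl rfl

theorem PM.symm {u v : I → ℤ} (h : PM u v) : PM v u :=
  h.imp Eq.symm fun e => by rw [e, neg_neg]

theorem PM.trans {u v z : I → ℤ} (h : PM u v) (h' : PM v z) : PM u z := by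
  rcases h with rfl | rfl <;> rcases h' with rfl | rfl <;> simp [PM]

theorem PM.map (σ : (I → ℤ) ≃+ (I → ℤ)) {u v : I → ℤ} (h : PM u v) : PM (σ u) (σ v) := by
  rcases h with rfl | rfl <;> simp [PM]

theorem PM.of_map {σ : (I → ℤ) ≃+ (I → ℤ)} {u v : I → ℤ} (h : PM (σ u) (σ v)) : PM u v := by
  simpa using h.map σ.symm

theorem PM.fixed {w : (I → ℤ) ≃+ (I → ℤ)} {u v : I → ℤ} (h : PM u v) (hv : w v = v) :
    w u = u := by
  rcases h with rfl | rfl <;> simp [hv]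

/-- Powers of an automorphism. -/
def pw (w : (I → ℤ) ≃+ (I → ℤ)) : ℕ → (I → ℤ) ≃+ (I → ℤ)
  | 0 => AddEquiv.refl _
  | k + 1 => w.trans (pw w k)

theorem pw_apply (w : (I → ℤ) ≃+ (I → ℤ)) (k : ℕ) (v : I → ℤ) : pw w k v = w^[k] v := by
  induction k generalizing v with
  | zero => rfl
  | succ k ih => exact ih (w v)

theorem Sym.pw {w : (I → ℤ) ≃+ (I → ℤ)} {b : Ser I} (h : Sym w b b) (k : ℕ) :
    Sym (pw w k) b b := by
  induction k with
  | zero => exact Sym.refl b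
  | succ k ih => exact h.trans ih

theorem PM.iter (w : (I → ℤ) ≃+ (I → ℤ)) (k : ℕ) {u v : I → ℤ} (h : PM u v) :
    PM (w^[k] u) (w^[k] v) := by
  simpa only [pw_apply] using h.map (pw w k)

theorem PM.of_iter {w : (I → ℤ) ≃+ (I → ℤ)} {k : ℕ} {u v : I → ℤ} (h : PM (w^[k] u) (w^[k] v)) :
    PM u v := by
  rw [← pw_apply, ← pw_apply] at h
  exact h.of_map

theorem iter_symm (w : (I → ℤ) ≃+ (I → ℤ)) (k : ℕ) (v : I → ℤ) : w^[k] (w.symm^[k] v) = v :=
  Function.LeftInverse.iterate (g := w) (f := w.symm) w.apply_symm_apply k v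

theorem symm_iter (w : (I → ℤ) ≃+ (I → ℤ)) (k : ℕ) (v : I → ℤ) : w.symm^[k] (w^[k] v) = v :=
  iter_symm w.symm k v

theorem iter_ne {w : (I → ℤ) ≃+ (I → ℤ)} {v : I → ℤ} (h : w v ≠ v) (k : ℕ) :
    w (w^[k] v) ≠ w^[k] v := fun e => h ((pw w k).injective (by
  rw [pw_apply, pw_apply, ← e, ← Function.iterate_succ_apply, Function.iterate_succ_apply', e]))

theorem iter_congr {w : (I → ℤ) ≃+ (I → ℤ)} {N : ℤ} (hw : ∀ m i, N ∣ w m i - m i) (k : ℕ)
    (m : I → ℤ) (i : I) : N ∣ w^[k] m i - m i := by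
  induction k with
  | zero => simp
  | succ k ih =>
    rw [Function.iterate_succ_apply']
    simpa using (hw (w^[k] m) i).add ih

/-- Periodic vectors are fixed. -/
def Mk (w : (I → ℤ) ≃+ (I → ℤ)) : Prop := ∀ v k, 0 < k → w^[k] v = v → w v = v

theorem Mk.symm {w : (I → ℤ) ≃+ (I → ℤ)} (h : Mk w) : Mk w.symm := fun v k hk e => by
  rw [AddEquiv.symm_apply_eq, h v k hk]
  conv_lhs => rw [← e]
  exact iter_symm w k v

theorem Mk.eq_of_pm {w : (I → ℤ) ≃+ (I → ℤ)} (h : Mk w) {v : I → ℤ} (hv : w v ≠ v) {k l : ℕ}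
    (e : PM (w^[k] v) (w^[l] v)) : k = l := by
  wlog hkl : k ≤ l generalizing k l
  · exact (this e.symm (le_of_not_ge hkl)).symm
  obtain ⟨d, rfl⟩ := Nat.exists_eq_add_of_le hkl
  rw [Function.iterate_add_apply] at e
  by_contra hd
  refine hv (h v (d + d) (by omega) ?_)
  rw [Function.iterate_add_apply]
  rcases e.of_iter.symm with e | e
  · rw [e, e]
  · rw [e, ← pw_apply, map_neg, pw_apply, e, neg_neg]

/-- In one orbit, up to sign. -/
def Orb (w : (I → ℤ) ≃+ (I → ℤ)) (u v : I → ℤ) : Prop := ∃ k l : ℕ, PM (w^[k] u) (w^[l] v)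

theorem PM.orb (w : (I → ℤ) ≃+ (I → ℤ)) {u v : I → ℤ} (h : PM u v) : Orb w u v := ⟨0, 0, h⟩

theorem Orb.symm {w : (I → ℤ) ≃+ (I → ℤ)} {u v : I → ℤ} (h : Orb w u v) : Orb w v u := by
  obtain ⟨k, l, h⟩ := h
  exact ⟨l, k, h.symm⟩

theorem Orb.trans {w : (I → ℤ) ≃+ (I → ℤ)} {u v z : I → ℤ} (h : Orb w u v) (h' : Orb w v z) :
    Orb w u z := by
  obtain ⟨k, l, h⟩ := h
  obtain ⟨k', l', h'⟩ := h'
  refine ⟨k' + k, l + l', ?_⟩
  rw [Function.iterate_add_apply, Function.iterate_add_apply]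
  refine (h.iter w k').trans ?_
  rw [← Function.iterate_add_apply, add_comm, Function.iterate_add_apply]
  exact h'.iter w l

theorem orb_symm_iter (w : (I → ℤ) ≃+ (I → ℤ)) (k : ℕ) (v : I → ℤ) : Orb w (w.symm^[k] v) v :=
  ⟨k, 0, Or.inl (iter_symm w k v)⟩

theorem Orb.cases {w : (I → ℤ) ≃+ (I → ℤ)} {u v : I → ℤ} (h : Orb w u v) :
    (∃ k, PM u (w.symm^[k] v)) ∨ ∃ k, PM u (w^[k] v) := by
  obtain ⟨k, l, h⟩ := h
  rcases le_total l k with hk | hk
  · obtain ⟨d, rfl⟩ := Nat.exists_eq_add_of_le hk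
    rw [Function.iterate_add_apply] at h
    exact Or.inl ⟨d, by simpa only [symm_iter] using h.of_iter.iter w.symm d⟩
  · obtain ⟨d, rfl⟩ := Nat.exists_eq_add_of_le hk
    rw [Function.iterate_add_apply] at h
    exact Or.inr ⟨d, h.of_iter⟩

open Classical in
/-- The representative of `± v` in the positive cone. -/
noncomputable def ps (v : I → ℤ) : I → ℤ := if 0 ≤ v then v else -v

theorem ps_pm (v : I → ℤ) : PM (ps v) v := by
  unfold ps
  split_ifs <;> simp [PM]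

theorem ps_of_nonneg {v : I → ℤ} (h : 0 ≤ v) : ps v = v := if_pos h

theorem Root.ps_nonneg {b : Ser I} (hb : Lg b) {v : I → ℤ} (h : Root b v) : 0 ≤ ps v := by
  unfold ps
  split_ifs with h0
  · exact h0
  · exact neg_nonneg.2 ((h.sign hb).resolve_left h0)

/-- The coefficients of the factor of the ray through `± v`. -/
noncomputable def pc (b : Ser I) (v : I → ℤ) (n : ℕ) : ℂ := (E b {ps v}).coeff (n • ps v)

theorem pc_of_nonneg (b : Ser I) {v : I → ℤ} (h : 0 ≤ v) (n : ℕ) :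
    pc b v n = (E b {v}).coeff (n • v) := by
  rw [pc, ps_of_nonneg h]

variable [Fintype I]

theorem PM.nrm {u v : I → ℤ} (h : PM u v) : nrm u = nrm v := by
  rcases h with rfl | rfl
  · rfl
  · exact nrm_neg v

theorem Root.pm {b : Ser I} {u v : I → ℤ} (h : Root b v) (e : PM u v) : Root b u := by
  rcases e with rfl | rfl
  exacts [h, h.neg]

theorem Root.iter {w : (I → ℤ) ≃+ (I → ℤ)} {b : Ser I} (hs : Sym w b b) {v : I → ℤ}
    (h : Root b v) (k : ℕ) : Root b (w^[k] v) := by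
  simpa only [pw_apply] using h.map (hs.pw k)

theorem pc_map {σ : (I → ℤ) ≃+ (I → ℤ)} {b b' : Ser I} (hb : Lg b) (hb' : Lg b') (hs : Sym σ b b')
    {u v : I → ℤ} (h : Root b v) (e : PM u (σ v)) (n : ℕ) : pc b' u n = pc b v n := by
  have h0 := ((h.map hs).pm e).ps_nonneg hb'
  have h1 : PM (ps u) (σ (ps v)) := ((ps_pm u).trans e).trans ((ps_pm v).map σ).symm
  unfold pc
  rcases h1 with h1 | h1
  · rw [h1] at h0 ⊢
    rw [← map_nsmul, E_single_rel hb hb' hs (h.ps_nonneg hb) h0]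
  · have h2 : ps u = (σ.trans (AddEquiv.neg _)) (ps v) := h1
    rw [h2] at h0 ⊢
    rw [← map_nsmul, E_single_rel hb hb' (hs.trans (Sym.neg b')) (h.ps_nonneg hb) h0]

theorem pc_iter {w : (I → ℤ) ≃+ (I → ℤ)} {b : Ser I} (hb : Lg b) (hs : Sym w b b) {u v : I → ℤ}
    (h : Root b v) {k : ℕ} (e : PM u (w^[k] v)) (n : ℕ) : pc b u n = pc b v n :=
  pc_map hb hb (hs.pw k) h (by rwa [pw_apply]) n

theorem pc_orb {w : (I → ℤ) ≃+ (I → ℤ)} {b : Ser I} (hb : Lg b) (hs : Sym w b b) {u v : I → ℤ}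
    (h : Root b v) (e : Orb w u v) (n : ℕ) : pc b u n = pc b v n := by
  rcases e.cases with ⟨k, e⟩ | ⟨k, e⟩
  · exact pc_iter hb hs.symm h e n
  · exact pc_iter hb hs h e n

theorem pc_zero {b : Ser I} (hb : Lg b) (v : I → ℤ) : pc b v 0 = 1 := by
  rw [pc, zero_smul, (hb.isExp_E _).P0]

theorem Root.exists_pc {b : Ser I} (hb : Lg b) {v : I → ℤ} (h : Root b v) :
    ∃ n, 0 < n ∧ pc b v n ≠ 0 :=
  (h.pm (ps_pm v)).exists_coeff hb (h.ps_nonneg hb)

/-- The data of a loop. -/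
structure Loop (b H : Ser I) (w : (I → ℤ) ≃+ (I → ℤ)) (d : ℕ) : Prop where
  exp : IsExp b H
  nat : ∀ ρ, Root b ρ → 0 ≤ ρ → NatS (E b {ρ})
  gr : Gr H d
  sym : Sym w b b
  mk3 : Mk w
  inv : {ρ | Root b ρ ∧ 0 ≤ ρ ∧ w.symm ρ ≤ 0}.Finite

namespace Loop
variable {b H : Ser I} {w : (I → ℤ) ≃+ (I → ℤ)} {d : ℕ} (L : Loop b H w d)
include L

theorem doubling {J : Type*} (A : Finset J) (o : J → I → ℤ)
    (ho : ∀ j ∈ A, Root b (o j) ∧ w (o j) ≠ o j)
    (hA : ∀ j ∈ A, ∀ j' ∈ A, Orb w (o j) (o j') → j = j') (T : J → Finset ℕ)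
    (hT : ∀ j ∈ A, ∀ n ∈ T j, pc b (o j) n ≠ 0) {c B : ℝ} (hc : 1 ≤ c) (hB : 0 ≤ B)
    (hg : ∀ j ∈ A, ∀ k : ℕ, nrm (w^[k] (o j)) ≤ B * c ^ k) :
    ∏ j ∈ A, ((T j).card : ℝ) ≤ c ^ d := by
  classical
  obtain ⟨C, hC⟩ := L.gr
  obtain ⟨D, hD⟩ : ∃ D : ℕ, ∀ j ∈ A, ∀ n ∈ T j, n ≤ D :=
    ⟨(A.biUnion T).sup id, fun j hj n hn =>
      Finset.le_sup (f := id) (mem_biUnion.2 ⟨j, hj, hn⟩)⟩
  refine le_pow_of_growth _ c (max C 0) (A.card * D * B) d hc (by positivity) fun K => ?_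
  have h1 := mass_rays L.exp L.nat (A ×ˢ range K) (fun p => ps (w^[p.2] (o p.1))) ?_ ?_
    (fun p => T p.1) (D := D) ?_
  · have h2 : ∑ p ∈ A ×ˢ range K, (D : ℝ) * nrm (ps (w^[p.2] (o p.1))) ≤
        K * (A.card * D * B) * c ^ K := by
      refine (Finset.sum_le_card_nsmul _ _ (D * (B * c ^ K)) fun p hp => ?_).trans_eq ?_
      · rw [(ps_pm _).nrm]
        refine mul_le_mul_of_nonneg_left ((hg _ (mem_product.1 hp).1 _).trans ?_) D.cast_nonneg
        exact mul_le_mul_of_nonneg_left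
          (pow_le_pow_right₀ hc (mem_range.1 (mem_product.1 hp).2).le) hB
      · rw [card_product, card_range, nsmul_eq_mul]
        push_cast
        ring
    have h3 := hC _ _ (by positivity) (h1.mono h2)
    rw [Finset.prod_product] at h3
    simp only [prod_const, card_range, Finset.prod_pow] at h3
    exact h3.trans (mul_le_mul_of_nonneg_right (le_max_left _ _) (by positivity))
  · rintro ⟨j, k⟩ hp ⟨j', k'⟩ hp' e
    have hj := (mem_product.1 hp).1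
    have h2 : PM (w^[k] (o j)) (w^[k'] (o j')) :=
      (ps_pm _).symm.trans ((show PM (ps (w^[k] (o j))) _ from Or.inl e).trans (ps_pm _))
    obtain rfl : j = j' := hA j hj j' (mem_product.1 hp').1 ⟨k, k', h2⟩
    rw [L.mk3.eq_of_pm (ho j hj).2 h2]
  · intro p hp
    have h2 := (ho _ (mem_product.1 hp).1).1.iter L.sym p.2
    exact ⟨h2.pm (ps_pm _), h2.ps_nonneg L.exp.lg⟩
  · intro p hp n hn
    have hj := (mem_product.1 hp).1
    refine ⟨hD _ hj n hn, ?_⟩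
    change pc b (w^[p.2] (o p.1)) n ≠ 0
    rw [pc_iter L.exp.lg L.sym (ho _ hj).1 (PM.refl _)]
    exact hT _ hj n hn

theorem two_pow_le {J : Type*} (A : Finset J) (o : J → I → ℤ)
    (ho : ∀ j ∈ A, Root b (o j) ∧ w (o j) ≠ o j)
    (hA : ∀ j ∈ A, ∀ j' ∈ A, Orb w (o j) (o j') → j = j') {c B : ℝ} (hc : 1 ≤ c) (hB : 0 ≤ B)
    (hg : ∀ j ∈ A, ∀ k : ℕ, nrm (w^[k] (o j)) ≤ B * c ^ k) : (2 : ℝ) ^ A.card ≤ c ^ d := by
  classical
  choose! n hn using fun j (hj : j ∈ A) => (ho j hj).1.exists_pc L.exp.lg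
  refine le_trans (le_of_eq ?_) (L.doubling A o ho hA (fun j => {0, n j}) ?_ hc hB hg)
  · rw [← Finset.prod_const]
    refine Finset.prod_congr rfl fun j hj => ?_
    rw [card_pair (hn j hj).1.ne]
    rfl
  · intro j hj k hk
    rcases mem_insert.1 hk with rfl | hk
    · rw [pc_zero L.exp.lg]
      exact one_ne_zero
    · rw [mem_singleton.1 hk]
      exact (hn j hj).2

/-- The factor of a moving ray is a polynomial. -/
theorem finite_pc {v : I → ℤ} (hv : Root b v) (h : w v ≠ v) : {n | pc b v n ≠ 0}.Finite := by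
  obtain ⟨c, hc, hg⟩ := exists_growth w
  by_contra hinf
  obtain ⟨n, hn⟩ := exists_nat_gt (c ^ d)
  obtain ⟨T, hT, hcard⟩ := Set.Infinite.exists_subset_card_eq hinf n
  have := L.doubling (J := Unit) {()} (fun _ => v) (fun _ _ => ⟨hv, h⟩) (fun _ _ _ _ _ => rfl)
    (fun _ => T) (fun _ _ k hk => hT hk) hc (nrm_nonneg v) fun _ _ k => hg v k
  rw [prod_singleton, hcard] at this
  exact hn.not_ge this

/-- A moving ray grows exponentially. -/
theorem not_slow {v : I → ℤ} (hv : Root b v) (h : w v ≠ v) {γ C : ℝ} (hγ : 1 ≤ γ)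
    (h2 : γ ^ d < 2) : ¬ ∀ k : ℕ, nrm (w^[k] v) ≤ C * γ ^ k := fun hg => by
  have hC : 0 ≤ C := by simpa using (nrm_nonneg _).trans (hg 0)
  have := L.two_pow_le (J := Unit) {()} (fun _ => v) (fun _ _ => ⟨hv, h⟩) (fun _ _ _ _ _ => rfl)
    hγ hC fun _ _ => hg
  rw [card_singleton, pow_one] at this
  exact h2.not_ge this

/-- The sign along a backward orbit is eventually constant. -/
theorem exists_back {v : I → ℤ} (hv : Root b v) (h : w v ≠ v) :
    ∃ u, Orb w v u ∧ Root b u ∧ w u ≠ u ∧ ∀ k : ℕ, 0 ≤ w.symm^[k] u := by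
  have h' : w.symm v ≠ v := fun e => h (by rw [← e, w.apply_symm_apply, e])
  have hfin : (⋃ ρ ∈ {ρ | Root b ρ ∧ 0 ≤ ρ ∧ w.symm ρ ≤ 0},
      {k : ℕ | PM ρ (w.symm^[k] v)}).Finite :=
    L.inv.biUnion fun ρ _ => Set.Subsingleton.finite fun k hk l hl =>
      L.mk3.symm.eq_of_pm h' (PM.trans (PM.symm hk) hl)
  obtain ⟨K, hK⟩ := hfin.bddAbove
  have h1 := hv.iter L.sym.symm (K + 1)
  have h2 := h1.pm (ps_pm _)
  refine ⟨ps (w.symm^[K + 1] v), (((ps_pm _).orb w).trans (orb_symm_iter w _ v)).symm, h2,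
    fun e => ?_, fun k => ?_⟩
  · refine iter_ne h' (K + 1) ?_
    rw [AddEquiv.symm_apply_eq, (ps_pm _).symm.fixed e]
  · induction k with
    | zero => exact h1.ps_nonneg L.exp.lg
    | succ k ih =>
      refine ((h2.iter L.sym.symm (k + 1)).sign L.exp.lg).resolve_right fun h3 => ?_
      rw [Function.iterate_succ_apply'] at h3
      have h4 : k + (K + 1) ≤ K := hK (Set.mem_biUnion ⟨h2.iter L.sym.symm k, ih, h3⟩ (by
        rw [Set.mem_ofPred_eq, Function.iterate_add_apply w.symm k (K + 1)]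
        exact (ps_pm _).iter w.symm k))
      omega

/-- Finitely many orbits of moving rays, with good representatives. -/
theorem exists_reps : ∃ (J : Type) (_ : Fintype J) (o : J → I → ℤ),
    (∀ j, Root b (o j) ∧ w (o j) ≠ o j ∧ ∀ k : ℕ, 0 ≤ w.symm^[k] (o j)) ∧
    (∀ j j', Orb w (o j) (o j') → j = j') ∧ ∀ v, Root b v → w v ≠ v → ∃ j, Orb w v (o j) := by
  let s : Setoid {u : I → ℤ // Root b u ∧ w u ≠ u ∧ ∀ k : ℕ, 0 ≤ w.symm^[k] u} :=
    ⟨fun u v => Orb w u.1 v.1, fun u => (PM.refl _).orb w, Orb.symm, Orb.trans⟩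
  have hinj : ∀ j j' : Quotient s, Orb w j.out.1 j'.out.1 → j = j' := fun j j' h =>
    Quotient.out_equiv_out.1 h
  obtain ⟨c, hc, hg⟩ := exists_growth w
  obtain ⟨n, hn⟩ := exists_nat_gt (c ^ d)
  refine ⟨Quotient s, fintypeOfFinsetCardLe n fun A => ?_, fun j => (Quotient.out (s := s) j).1,
    fun j => (Quotient.out (s := s) j).2, hinj, fun v hv h => ?_⟩
  · have := L.two_pow_le A (fun j => j.out.1) (fun j _ => ⟨j.out.2.1, j.out.2.2.1⟩)
      (fun j _ j' _ => hinj j j') (B := ∑ j ∈ A, nrm j.out.1) hc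
      (Finset.sum_nonneg fun j _ => nrm_nonneg _)
      fun j hj k => (hg _ k).trans (mul_le_mul_of_nonneg_right
        (Finset.single_le_sum (f := fun j : Quotient s => nrm j.out.1)
          (fun j _ => nrm_nonneg _) hj) (by positivity))
    have h2 : (2 : ℕ) ^ A.card < n := by exact_mod_cast this.trans_lt hn
    exact (Nat.lt_two_pow_self.trans h2).le
  · obtain ⟨u, h1, h2⟩ := L.exists_back hv h
    exact ⟨Quotient.mk s ⟨u, h2⟩, h1.trans (Orb.symm (Quotient.mk_out (s := s) ⟨u, h2⟩))⟩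

end Loop

end Pool.Agent.Lib.MP_ff61db_al.Pt.S6
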