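import Pool.Agent.Lib.MP_ff61db_al.Pt.S6Exp
import Pool.Agent.Lib.MP_ff61db_al.Pt.S6Lat

/-! The factorisation of a power series along rays. -/

namespace Pool.Agent.Lib.MP_ff61db_al.Pt.S6

open Finset

variable {I : Type*}

/-- A power series without constant term. -/
structure Lg (b : Ser I) : Prop where
  pos : Pos b
  zero : b.coeff 0 = 0

theorem IsExp.lg {b P : Ser I} (h : IsExp b P) : Lg b := ⟨h.posb, h.b0⟩

theorem Lg.res {b : Ser I} (h : Lg b) (S : Set (I → ℤ)) : Lg (res S b) :=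
  ⟨h.pos.res S, of_not_not fun h0 => (of_coeff_res h0).2 h.zero⟩

theorem Lg.neg {b : Ser I} (h : Lg b) : Lg (-b) :=
  ⟨h.pos.neg, by rw [HahnSeries.coeff_neg, h.zero, neg_zero]⟩

/-- The even extension of the coefficients. -/
noncomputable def ev (b : Ser I) (m : I → ℤ) : ℂ := b.coeff m + b.coeff (-m)

theorem ev_neg (b : Ser I) (m : I → ℤ) : ev b (-m) = ev b m := by
  rw [ev, ev, neg_neg, add_comm]

theorem Lg.ev_eq {b : Ser I} (h : Lg b) {m : I → ℤ} (hm : 0 ≤ m) : ev b m = b.coeff m := by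
  have : b.coeff (-m) = 0 := of_not_not fun h0 => h0 (by
    rw [le_antisymm (neg_nonpos.2 hm) (h.pos _ h0), h.zero])
  rw [ev, this, add_zero]

theorem Lg.sign {b : Ser I} (h : Lg b) {m : I → ℤ} (hm : ev b m ≠ 0) : 0 ≤ m ∨ m ≤ 0 := by
  by_cases h1 : b.coeff m = 0
  · rw [ev, h1, zero_add] at hm
    exact Or.inr (neg_nonneg.1 (h.pos _ hm))
  · exact Or.inl (h.pos _ h1)

/-- `σ` carries the even extension of `b` to that of `b'`. -/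
def Sym (σ : (I → ℤ) ≃+ (I → ℤ)) (b b' : Ser I) : Prop := ∀ v, ev b' (σ v) = ev b v

theorem Sym.refl (b : Ser I) : Sym (AddEquiv.refl _) b b := fun _ => rfl

theorem Sym.symm {σ : (I → ℤ) ≃+ (I → ℤ)} {b b' : Ser I} (h : Sym σ b b') : Sym σ.symm b' b :=
  fun v => by rw [← h, AddEquiv.apply_symm_apply]

theorem Sym.trans {σ τ : (I → ℤ) ≃+ (I → ℤ)} {b b' b'' : Ser I} (h : Sym σ b b')
    (h' : Sym τ b' b'') : Sym (σ.trans τ) b b'' := fun v => (h' _).trans (h v)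

theorem Sym.neg (b : Ser I) : Sym (AddEquiv.neg _) b b := fun v => ev_neg b v

theorem nonneg_of_nsmul {n : ℕ} (hn : 0 < n) {v : I → ℤ} (h : 0 ≤ n • v) : 0 ≤ v := fun i => by
  have h1 : (0 : ℤ) ≤ n * v i := by simpa using h i
  exact (mul_nonneg_iff_of_pos_left (Int.natCast_pos.2 hn)).1 h1

/-- The positive multiples of a set of vectors. -/
def cn (A : Set (I → ℤ)) : Set (I → ℤ) := {m | ∃ ρ ∈ A, ∃ n : ℕ, 0 < n ∧ m = n • ρ}

theorem cn_union (A B : Set (I → ℤ)) : cn (A ∪ B) = cn A ∪ cn B := by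
  ext m
  constructor
  · rintro ⟨ρ, h | h, n, hn⟩
    · exact Or.inl ⟨ρ, h, n, hn⟩
    · exact Or.inr ⟨ρ, h, n, hn⟩
  · rintro (⟨ρ, h, n, hn⟩ | ⟨ρ, h, n, hn⟩)
    · exact ⟨ρ, Or.inl h, n, hn⟩
    · exact ⟨ρ, Or.inr h, n, hn⟩

open Classical in
/-- The exponential. -/
noncomputable def Ex (b : Ser I) : Ser I := if h : ∃ P, IsExp b P then h.choose else 1

/-- The part of the exponential that comes from the rays in `A`. -/
noncomputable def E (b : Ser I) (A : Set (I → ℤ)) : Ser I := Ex (res (cn A) b)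

/-- Coefficients are natural numbers. -/
def NatS (f : Ser I) : Prop := ∀ m, ∃ n : ℕ, f.coeff m = n

theorem NatS.mul {f g : Ser I} (hf : NatS f) (hg : NatS g) : NatS (f * g) := fun m => by
  choose a ha using hf
  choose c hc using hg
  refine ⟨∑ p ∈ Finset.antidiagonal f.isPWO_support g.isPWO_support m, a p.1 * c p.2, ?_⟩
  rw [HahnSeries.coeff_mul]
  simp [ha, hc]

theorem NatS.one : NatS (1 : Ser I) := fun m => by
  classical
  rw [HahnSeries.coeff_one]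
  split_ifs
  exacts [⟨1, by simp⟩, ⟨0, by simp⟩]

theorem NatS.prod {ι : Type*} (s : Finset ι) {f : ι → Ser I} (h : ∀ i ∈ s, NatS (f i)) :
    NatS (∏ i ∈ s, f i) :=
  Finset.prod_induction _ _ (fun _ _ => NatS.mul) NatS.one h

theorem NatS.res {f : Ser I} (h : NatS f) (S : Set (I → ℤ)) : NatS (res S f) := fun m => by
  by_cases hm : m ∈ S
  · rw [coeff_res_of _ hm]
    exact h m
  · exact ⟨0, by rw [coeff_res_of_not _ hm, Nat.cast_zero]⟩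

theorem prod_mem {ι : Type*} (s : Finset ι) {f : ι → Ser I} (M : AddSubmonoid (I → ℤ))
    (h : ∀ i ∈ s, ∀ v, (f i).coeff v ≠ 0 → v ∈ M) :
    ∀ m, (∏ i ∈ s, f i).coeff m ≠ 0 → m ∈ M := by
  classical
  refine Finset.prod_induction _ (fun g : Ser I => ∀ m, g.coeff m ≠ 0 → m ∈ M) ?_ ?_ h
  · intro g g' hg hg' m hm
    obtain ⟨a, c, ha, hc, rfl⟩ := exists_of_coeff_mul_ne_zero hm
    exact M.add_mem (hg a ha) (hg' c hc)
  · intro m hm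
    rw [HahnSeries.coeff_one] at hm
    rw [of_not_not fun h0 => hm (if_neg h0)]
    exact M.zero_mem

theorem prod_bound {ι : Type*} (s : Finset ι) {f : ι → Ser I} (φ : (I → ℤ) →+ ℝ) (c : ι → ℝ)
    (h : ∀ i ∈ s, ∀ v, (f i).coeff v ≠ 0 → φ v ≤ c i) :
    ∀ m, (∏ i ∈ s, f i).coeff m ≠ 0 → φ m ≤ ∑ i ∈ s, c i := by
  classical
  induction s using Finset.induction_on with
  | empty =>
    intro m hm
    rw [prod_empty, HahnSeries.coeff_one] at hm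
    rw [of_not_not fun h0 => hm (if_neg h0), map_zero, sum_empty]
  | insert a s ha ih =>
    intro m hm
    rw [prod_insert ha] at hm
    obtain ⟨u, v, hu, hv, rfl⟩ := exists_of_coeff_mul_ne_zero hm
    rw [sum_insert ha, map_add]
    exact add_le_add (h a (mem_insert_self _ _) u hu)
      (ih (fun i hi => h i (mem_insert_of_mem hi)) v hv)

theorem prod_finite {ι : Type*} (s : Finset ι) {f : ι → Ser I}
    (h : ∀ i ∈ s, (f i).support.Finite) : (∏ i ∈ s, f i).support.Finite := by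
  refine Finset.prod_induction _ (fun g : Ser I => g.support.Finite) ?_ ?_ h
  · exact fun g g' hg hg' => (hg.add hg').subset HahnSeries.support_mul_subset
  · rw [HahnSeries.support_one]
    exact Set.finite_singleton _

variable [Fintype I]

theorem Lg.isExp_Ex {b : Ser I} (h : Lg b) : IsExp b (Ex b) := by
  have := exists_exp h.pos h.zero
  rw [Ex, dif_pos this]
  exact this.choose_spec

theorem Lg.isExp_E {b : Ser I} (h : Lg b) (A : Set (I → ℤ)) : IsExp (S6.res (cn A) b) (E b A) :=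
  (h.res _).isExp_Ex

/-- Root rays: primitive vectors on whose line `b` does not vanish. -/
def Root (b : Ser I) (ρ : I → ℤ) : Prop := Prim ρ ∧ ∃ n : ℕ, 0 < n ∧ ev b (n • ρ) ≠ 0

theorem Root.neg {b : Ser I} {ρ : I → ℤ} (h : Root b ρ) : Root b (-ρ) := by
  obtain ⟨h1, n, hn, h2⟩ := h
  exact ⟨h1.neg, n, hn, by rwa [smul_neg, ev_neg]⟩

theorem Root.map {σ : (I → ℤ) ≃+ (I → ℤ)} {b b' : Ser I} (hs : Sym σ b b') {ρ : I → ℤ}
    (h : Root b ρ) : Root b' (σ ρ) := by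
  obtain ⟨h1, n, hn, h2⟩ := h
  exact ⟨h1.map σ, n, hn, by rwa [← map_nsmul, hs]⟩

omit [Fintype I] in
theorem Root.sign {b : Ser I} (hb : Lg b) {ρ : I → ℤ} (h : Root b ρ) : 0 ≤ ρ ∨ ρ ≤ 0 := by
  obtain ⟨_, n, hn, h2⟩ := h
  rcases hb.sign h2 with h3 | h3
  · exact Or.inl (nonneg_of_nsmul hn h3)
  · refine Or.inr (neg_nonneg.1 (nonneg_of_nsmul hn ?_))
    rwa [smul_neg, neg_nonneg]

omit [Fintype I] in
theorem Lg.root_of_coeff {b : Ser I} (hb : Lg b) {ρ : I → ℤ} (hρ : Prim ρ) {n : ℕ} (hn : 0 < n)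
    (h : b.coeff (n • ρ) ≠ 0) : Root b ρ ∧ 0 ≤ ρ :=
  ⟨⟨hρ, n, hn, by rwa [hb.ev_eq (hb.pos _ h)]⟩, nonneg_of_nsmul hn (hb.pos _ h)⟩

theorem disjoint_cn {A B : Set (I → ℤ)} (hA : ∀ ρ ∈ A, Prim ρ) (hB : ∀ ρ ∈ B, Prim ρ)
    (h : Disjoint A B) : Disjoint (cn A) (cn B) := by
  rw [Set.disjoint_left]
  rintro _ ⟨ρ, hρ, n, hn, rfl⟩ ⟨ρ', hρ', n', _, e⟩
  exact Set.disjoint_left.1 h hρ (((hA ρ hρ).eq_of_nsmul (hB ρ' hρ') hn e).2 ▸ hρ')

theorem E_union {b : Ser I} (hb : Lg b) {A B : Set (I → ℤ)} (hA : ∀ ρ ∈ A, Prim ρ)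
    (hB : ∀ ρ ∈ B, Prim ρ) (h : Disjoint A B) : E b (A ∪ B) = E b A * E b B := by
  refine (hb.isExp_E _).unique ?_
  rw [cn_union, res_union (disjoint_cn hA hB h)]
  exact (hb.isExp_E A).mul (hb.isExp_E B)

theorem E_empty {b : Ser I} (hb : Lg b) : E b ∅ = 1 := by
  refine (hb.isExp_E _).unique ?_
  have : res (cn ∅) b = 0 := by
    ext m
    exact coeff_res_of_not _ fun ⟨_, h, _⟩ => h
  rw [this]
  exact IsExp.zero

theorem E_finset {b : Ser I} (hb : Lg b) (S : Finset (I → ℤ)) (hS : ∀ ρ ∈ S, Prim ρ) :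
    E b S = ∏ ρ ∈ S, E b {ρ} := by
  classical
  induction S using Finset.induction_on with
  | empty => rw [coe_empty, E_empty hb, prod_empty]
  | insert a s ha ih =>
    rw [prod_insert ha, coe_insert, Set.insert_eq, E_union hb, ih]
    · exact fun ρ h => hS ρ (mem_insert_of_mem h)
    · rintro _ rfl
      exact hS _ (mem_insert_self _ _)
    · exact fun ρ h => hS ρ (mem_insert_of_mem h)
    · simpa using ha

theorem E_congr {b : Ser I} (hb : Lg b) {A B : Set (I → ℤ)} (hA : ∀ ρ ∈ A, Prim ρ)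
    (hB : ∀ ρ ∈ B, Prim ρ) (h : ∀ ρ, Root b ρ → 0 ≤ ρ → (ρ ∈ A ↔ ρ ∈ B)) : E b A = E b B := by
  have key : ∀ {A B : Set (I → ℤ)}, (∀ ρ ∈ A, Prim ρ) →
      (∀ ρ, Root b ρ → 0 ≤ ρ → ρ ∈ A → ρ ∈ B) → ∀ m, b.coeff m ≠ 0 → m ∈ cn A → m ∈ cn B := by
    rintro A B hA h _ hm ⟨ρ, hρ, n, hn, rfl⟩
    have := hb.root_of_coeff (hA ρ hρ) hn hm
    exact ⟨ρ, h ρ this.1 this.2 hρ, n, hn, rfl⟩
  have : res (cn A) b = res (cn B) b := by
    ext m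
    by_cases hm : b.coeff m = 0
    · rw [of_not_not fun h0 => (of_coeff_res (S := cn A) h0).2 hm,
        of_not_not fun h0 => (of_coeff_res (S := cn B) h0).2 hm]
    · by_cases h1 : m ∈ cn A
      · rw [coeff_res_of _ h1, coeff_res_of _ (key hA (fun ρ h2 h3 => (h ρ h2 h3).1) m hm h1)]
      · rw [coeff_res_of_not _ h1, coeff_res_of_not _
          fun h2 => h1 (key hB (fun ρ h2 h3 => (h ρ h2 h3).2) m hm h2)]
  rw [E, E, this]

theorem E_all {b H : Ser I} (h : IsExp b H) : E b {ρ | Root b ρ ∧ 0 ≤ ρ} = H := by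
  refine (h.lg.isExp_E _).unique ?_
  have : res (cn {ρ | Root b ρ ∧ 0 ≤ ρ}) b = b := by
    ext m
    by_cases hm : b.coeff m = 0
    · rw [hm]
      exact of_not_not fun h0 => (of_coeff_res h0).2 hm
    · obtain ⟨n, ρ, hn, hρ, rfl⟩ := exists_prim (m := m) fun e => hm (e ▸ h.b0)
      exact coeff_res_of _ ⟨ρ, h.lg.root_of_coeff hρ hn hm, n, hn, rfl⟩
  rwa [this]

/-- Every coefficient is a coefficient of a finite product over root rays. -/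
theorem exists_finset_coeff {b : Ser I} (hb : Lg b) {A : Set (I → ℤ)} (hA : ∀ ρ ∈ A, Prim ρ)
    (m : I → ℤ) : ∃ S : Finset (I → ℤ), (∀ ρ ∈ S, ρ ∈ A ∧ Root b ρ ∧ 0 ≤ ρ) ∧
      (E b A).coeff m = (∏ ρ ∈ S, E b {ρ}).coeff m := by
  classical
  obtain ⟨S, hS⟩ : ∃ S : Finset (I → ℤ), S = (Finset.Icc 0 m).filter fun ρ => ρ ∈ A ∧ Root b ρ :=
    ⟨_, rfl⟩
  have h1 : ∀ ρ, ρ ∈ S ↔ (0 ≤ ρ ∧ ρ ≤ m) ∧ ρ ∈ A ∧ Root b ρ := fun ρ => by
    rw [hS, mem_filter, Finset.mem_Icc]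
  have h2 : ∀ ρ ∈ S, Prim ρ := fun ρ h => hA ρ ((h1 ρ).1 h).2.1
  refine ⟨S, fun ρ h => ⟨((h1 ρ).1 h).2.1, ((h1 ρ).1 h).2.2, ((h1 ρ).1 h).1.1⟩, ?_⟩
  have h3 : A = (A \ S) ∪ S := (Set.sdiff_union_of_subset fun ρ h => ((h1 ρ).1 h).2.1).symm
  rw [← E_finset hb S h2, h3, E_union hb (fun ρ h => hA ρ h.1) h2 Set.disjoint_sdiff_left]
  refine (hb.isExp_E _).coeff_mul_trunc (hb.isExp_E _).posP fun a ha ham => ?_
  obtain ⟨⟨ρ, hρ, n, hn, rfl⟩, h4⟩ := of_coeff_res ha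
  have h5 := hb.root_of_coeff (hA ρ hρ.1) hn h4
  refine hρ.2 ((h1 ρ).2 ⟨⟨h5.2, le_trans ?_ ham⟩, hρ.1, h5.1⟩)
  simpa using nsmul_le_nsmul_left h5.2 (Nat.succ_le_of_lt hn)

theorem natS_E {b : Ser I} (hb : Lg b) {A : Set (I → ℤ)} (hA : ∀ ρ ∈ A, Prim ρ)
    (h : ∀ ρ, Root b ρ → 0 ≤ ρ → NatS (E b {ρ})) : NatS (E b A) := fun m => by
  obtain ⟨S, hS, e⟩ := exists_finset_coeff hb hA m
  rw [e]
  exact NatS.prod S (fun ρ hρ => h ρ (hS ρ hρ).2.1 (hS ρ hρ).2.2) m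

theorem E_mem {b : Ser I} (hb : Lg b) {A : Set (I → ℤ)} (hA : ∀ ρ ∈ A, Prim ρ)
    (M : AddSubmonoid (I → ℤ))
    (h : ∀ ρ ∈ A, Root b ρ → 0 ≤ ρ → ∀ v, (E b {ρ}).coeff v ≠ 0 → v ∈ M) (m : I → ℤ)
    (hm : (E b A).coeff m ≠ 0) : m ∈ M := by
  obtain ⟨S, hS, e⟩ := exists_finset_coeff hb hA m
  rw [e] at hm
  exact prod_mem S M (fun ρ hρ => h ρ (hS ρ hρ).1 (hS ρ hρ).2.1 (hS ρ hρ).2.2) m hm

theorem E_bound {b : Ser I} (hb : Lg b) {A : Set (I → ℤ)} (hA : ∀ ρ ∈ A, Prim ρ)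
    (φ : (I → ℤ) →+ ℝ) (c : (I → ℤ) → ℝ) (C : ℝ)
    (h : ∀ ρ ∈ A, ∀ v, (E b {ρ}).coeff v ≠ 0 → φ v ≤ c ρ)
    (hC : ∀ S : Finset (I → ℤ), (∀ ρ ∈ S, ρ ∈ A) → ∑ ρ ∈ S, c ρ ≤ C) (m : I → ℤ)
    (hm : (E b A).coeff m ≠ 0) : φ m ≤ C := by
  obtain ⟨S, hS, e⟩ := exists_finset_coeff hb hA m
  rw [e] at hm
  exact (prod_bound S φ c (fun ρ hρ => h ρ (hS ρ hρ).1) m hm).trans
    (hC S fun ρ hρ => (hS ρ hρ).1)

/-- The factor of one ray lives on that ray. -/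
theorem E_single_supp {b : Ser I} (hb : Lg b) (ρ : I → ℤ) {v : I → ℤ}
    (hv : (E b {ρ}).coeff v ≠ 0) : ∃ n : ℕ, v = n • ρ := by
  have := (hb.isExp_E {ρ}).exp_mem (AddSubmonoid.multiples ρ) (fun a ha => by
    obtain ⟨⟨_, rfl, n, _, rfl⟩, _⟩ := of_coeff_res ha
    exact ⟨n, rfl⟩) v hv
  obtain ⟨n, hn⟩ := this
  exact ⟨n, hn.symm⟩

theorem Root.exists_coeff {b : Ser I} (hb : Lg b) {ρ : I → ℤ} (h : Root b ρ) (h0 : 0 ≤ ρ) :
    ∃ n : ℕ, 0 < n ∧ (E b {ρ}).coeff (n • ρ) ≠ 0 := by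
  by_contra hc
  push Not at hc
  obtain ⟨h1, n, hn, h2⟩ := h
  rw [hb.ev_eq (nsmul_nonneg h0 n), ← coeff_res_of (S := cn {ρ}) b ⟨ρ, rfl, n, hn, rfl⟩] at h2
  have := (hb.isExp_E {ρ}).log_mem ⊥ (fun a ha => by
    obtain ⟨k, rfl⟩ := E_single_supp hb ρ ha
    rcases Nat.eq_zero_or_pos k with rfl | hk
    · simp
    · exact absurd (hc k hk) ha) _ h2
  exact h2 (AddSubmonoid.mem_bot.1 this ▸ (hb.res _).zero)

/-- Transport of the factors along a symmetry that keeps the rays positive. -/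
theorem E_rel {σ : (I → ℤ) ≃+ (I → ℤ)} {b b' : Ser I} (hb : Lg b) (hb' : Lg b') (hs : Sym σ b b')
    {A : Set (I → ℤ)} (hA : ∀ ρ ∈ A, 0 ≤ ρ) (hA' : ∀ ρ ∈ A, 0 ≤ σ ρ) :
    Rel σ (E b A) (E b' (σ '' A)) := by
  refine (hb.isExp_E A).rel_exp (hb'.isExp_E _) fun v => ?_
  by_cases hv : v ∈ cn A
  · obtain ⟨ρ, hρ, n, hn, rfl⟩ := hv
    rw [coeff_res_of (S := cn A) _ ⟨ρ, hρ, n, hn, rfl⟩,
      coeff_res_of (S := cn (σ '' A)) _ ⟨σ ρ, ⟨ρ, hρ, rfl⟩, n, hn, map_nsmul ..⟩, ← hb.ev_eq (nsmul_nonneg (hA ρ hρ) n), ← hs, hb'.ev_eq]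
    rw [map_nsmul]
    exact nsmul_nonneg (hA' ρ hρ) n
  · rw [coeff_res_of_not _ hv, coeff_res_of_not]
    rintro ⟨_, ⟨ρ, hρ, rfl⟩, n, hn, e⟩
    exact hv ⟨ρ, hρ, n, hn, σ.injective (by rw [e, map_nsmul])⟩

theorem E_single_rel {σ : (I → ℤ) ≃+ (I → ℤ)} {b b' : Ser I} (hb : Lg b) (hb' : Lg b')
    (hs : Sym σ b b') {ρ : I → ℤ} (h0 : 0 ≤ ρ) (h1 : 0 ≤ σ ρ) :
    Rel σ (E b {ρ}) (E b' {σ ρ}) := by
  have := E_rel hb hb' hs (A := {ρ}) (by rintro _ rfl; exact h0) (by rintro _ rfl; exact h1)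
  rwa [Set.image_singleton] at this

end Pool.Agent.Lib.MP_ff61db_al.Pt.S6
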