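import Pool.Agent.Lib.MP_ff61db_al.Pt.ThmN

/-! Four letters in one class commute with all letters. -/

namespace Pool.Agent.Lib.MP_ff61db_al.Pt

variable {k : Type} [Field k] {I : Type} [Fintype I] [DecidableEq I]

namespace St

section Orbits
variable {X : Type} (D : RD I X)

/-- Every vector has bounded images along all paths. -/
def Bd (x : X) : Prop := ∀ v : I → ℤ, ∃ M : ℤ, ∀ l j, D.w x l v j ≤ M

/-- Some image of the vector has a large coordinate. -/
def Unb (x : X) (v : I → ℤ) (n : ℤ) : Prop := ∃ l j, n ≤ D.w x l v j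

theorem Bd.r {D : RD I X} {x : X} (h : Bd D x) (i : I) : Bd D (D.r i x) := by
  intro v
  obtain ⟨M, hM⟩ := h (sref (D.m x i) i v)
  refine ⟨M, fun l j => ?_⟩
  have := hM (i :: l) j
  rwa [RD.w, LinearMap.comp_apply, sref_sref] at this

theorem Unb.of_r {D : RD I X} {x : X} {i : I} {v v' : I → ℤ} {n : ℤ}
    (h : Unb D (D.r i x) v' n) (hv : sref (D.m x i) i v = v') : Unb D x v n := by
  obtain ⟨l, j, h⟩ := h
  exact ⟨i :: l, j, by rwa [RD.w, LinearMap.comp_apply, hv]⟩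

theorem Unb.mono {D : RD I X} {x : X} {v : I → ℤ} {n n' : ℤ} (h : Unb D x v n) (hn : n' ≤ n) :
    Unb D x v n' := by
  obtain ⟨l, j, h⟩ := h
  exact ⟨l, j, hn.trans h⟩

theorem Bd.not {D : RD I X} {x : X} (h : Bd D x) {v : I → ℤ} {c : ℤ}
    (hu : ∀ n : ℕ, Unb D x v (c + n)) : False := by
  obtain ⟨M, hM⟩ := h v
  obtain ⟨l, j, h1⟩ := hu ((M - c).toNat + 1)
  have := hM l j
  push_cast at h1
  omega

theorem bd_of {x : X} (h : ∃ M : ℤ, ∀ l i j, |D.w x l (e i) j| ≤ M) : Bd D x := by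
  obtain ⟨M, hM⟩ := h
  intro v
  refine ⟨∑ i, |v i| * M, fun l j => ?_⟩
  have hv : v = ∑ i, v i • e i := by
    funext t
    simp [e, Finset.sum_apply, Pi.single_apply]
  conv_lhs => rw [hv]
  rw [map_sum, Finset.sum_apply]
  refine Finset.sum_le_sum fun i _ => ?_
  rw [map_smul, Pi.smul_apply, smul_eq_mul]
  refine (le_abs_self _).trans ?_
  rw [abs_mul]
  exact mul_le_mul_of_nonneg_left (hM l i j) (abs_nonneg _)

end Orbits

/-- The Cartan entry as a function of two scalars. -/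
noncomputable def mu (a s : kˣ) : ℕ :=
  sInf {m | qint (a : k) (m + 1) * (1 - (a : k) ^ m * (s : k)) = 0}

omit [Fintype I] [DecidableEq I] in
theorem mm_mu (q : I → I → kˣ) (i j : I) : mm q i j = mu (q i i) (q i j * q j i) := by
  simp [mm, mu]

theorem mu_sq {a : kˣ} (ha : a ^ 2 ≠ 1) (ht : ∃ n, 0 < n ∧ qint (a : k) n = 0) :
    1 ≤ mu a (a ^ 2) ∧ a ^ (mu a (a ^ 2) + 2) = 1 := by
  have hne : {m | qint (a : k) (m + 1) * (1 - (a : k) ^ m * ((a ^ 2 : kˣ) : k)) = 0}.Nonempty := by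
    obtain ⟨n, h0, h1⟩ := ht
    refine ⟨n - 1, ?_⟩
    show qint (a : k) (n - 1 + 1) * _ = 0
    rw [Nat.sub_add_cancel h0, h1, zero_mul]
  have hm : qint (a : k) (mu a (a ^ 2) + 1) *
      (1 - (a : k) ^ mu a (a ^ 2) * ((a ^ 2 : kˣ) : k)) = 0 := Nat.sInf_mem hne
  have h1 : 1 ≤ mu a (a ^ 2) := by
    by_contra h0
    have h2 : mu a (a ^ 2) = 0 := by omega
    rw [h2] at hm
    simp only [qint, zero_add, Finset.range_one, Finset.sum_singleton, pow_zero, one_mul,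
      sub_eq_zero] at hm
    exact ha (Units.val_eq_one.1 hm.symm)
  refine ⟨h1, ?_⟩
  rcases mul_eq_zero.1 hm with h2 | h2
  · exfalso
    have h3 : (a : k) ^ (mu a (a ^ 2) + 1) = 1 := by
      have := geom_sum_mul (a : k) (mu a (a ^ 2) + 1)
      rw [show ∑ i ∈ Finset.range (mu a (a ^ 2) + 1), (a : k) ^ i = 0 from h2, zero_mul] at this
      exact sub_eq_zero.1 this.symm
    have h4 : mu a (a ^ 2) ≤ mu a (a ^ 2) - 1 := by
      refine Nat.sInf_le ?_
      show qint (a : k) (mu a (a ^ 2) - 1 + 1) * _ = 0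
      rw [Units.val_pow_eq_pow_val, ← pow_add,
        show mu a (a ^ 2) - 1 + 2 = mu a (a ^ 2) + 1 by omega, h3, sub_self, mul_zero]
    omega
  · apply Units.ext
    rw [Units.val_pow_eq_pow_val, ← pow_add, sub_eq_zero] at h2
    rw [Units.val_pow_eq_pow_val, ← h2, Units.val_one]

section Entries
variable (q : I → I → kˣ) {i j l : I}

theorem rq_jl (hj : j ≠ i) (hl : l ≠ i) : rq i q j l =
    q j l * q j i ^ mm q i l * q i l ^ mm q i j * q i i ^ (mm q i j * mm q i l) := by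
  rw [rq, sref_e_ne _ hj, sref_e_ne _ hl]
  simp only [chi_add_left, chi_add_right, chi_smul_left, chi_smul_right, chi_e_e, zpow_natCast,
    mul_pow, ← pow_mul]
  simp only [mul_assoc, mul_comm, mul_left_comm]

theorem rq_s (hj : j ≠ i) :
    rq i q i j * rq i q j i = (q i j * q j i * (q i i ^ 2) ^ mm q i j)⁻¹ := by
  rw [rq, rq, sref_e_ne _ hj, sref_e_self, ← neg_one_smul ℤ (e i)]
  simp only [chi_add_left, chi_add_right, chi_smul_left, chi_smul_right, chi_e_e, zpow_natCast,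
    zpow_neg, zpow_one, mul_inv, inv_pow, sq, mul_pow]
  simp only [mul_assoc, mul_comm, mul_left_comm]

theorem rq_p (hj : j ≠ i) (hl : l ≠ i) : rq i q j l * rq i q l j =
    q j l * q l j * (q i j * q j i) ^ mm q i l * (q i l * q l i) ^ mm q i j *
      (q i i ^ 2) ^ (mm q i j * mm q i l) := by
  rw [rq_jl q hj hl, rq_jl q hl hj, mul_comm (mm q i l) (mm q i j)]
  simp only [sq, mul_pow]
  simp only [mul_assoc, mul_comm, mul_left_comm]

theorem rq_d (hj : j ≠ i) : rq i q j j =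
    q j j * (q i j * q j i) ^ mm q i j * q i i ^ (mm q i j * mm q i j) := by
  rw [rq_jl q hj hj]
  simp only [mul_pow]
  simp only [mul_comm, mul_left_comm]

end Entries

/-- Three letters in one class. -/
structure Tri (a : kˣ) (q : I → I → kˣ) (u v w : I) : Prop where
  uv : v ≠ u
  uw : w ≠ u
  vw : w ≠ v
  du : q u u = a
  dv : q v v = a
  dw : q w w = a
  puv : q u v * q v u = a ^ 2
  puw : q u w * q w u = a ^ 2
  pvw : q v w * q w v = a ^ 2

theorem Tri.refl {a : kˣ} {q : I → I → kˣ} {u v w : I} (h : Tri a q u v w)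
    (ha : a ^ (mu a (a ^ 2) + 2) = 1) : Tri a (rq u q) v w u := by
  have mv : mm q u v = mu a (a ^ 2) := by rw [mm_mu, h.du, h.puv]
  have mw : mm q u w = mu a (a ^ 2) := by rw [mm_mu, h.du, h.puw]
  generalize mu a (a ^ 2) = m at *
  have e1 : a * (a ^ 2) ^ m * a ^ (m * m) = a := by
    calc _ = a * (a ^ (m + 2)) ^ m := by
          simp only [← pow_mul, mul_assoc, ← pow_add]; congr 2; ring
      _ = a := by rw [ha, one_pow, mul_one]
  have e2 : (a ^ 2 * (a ^ 2) ^ m)⁻¹ = a ^ 2 := by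
    refine inv_eq_of_mul_eq_one_right ?_
    calc _ = (a ^ (m + 2)) ^ 2 := by
          simp only [← pow_mul, ← pow_add]; congr 1; ring
      _ = 1 := by rw [ha, one_pow]
  refine ⟨h.vw, h.uv.symm, h.uw.symm, ?_, ?_, ?_, ?_, ?_, ?_⟩
  · rw [rq_d q h.uv, mv, h.dv, h.puv, h.du, e1]
  · rw [rq_d q h.uw, mw, h.dw, h.puw, h.du, e1]
  · rw [rq_self, h.du]
  · rw [rq_p q h.uv h.uw, mv, mw, h.pvw, h.puv, h.puw, h.du]
    calc _ = a ^ 2 * (a ^ (m + 2)) ^ (2 * m) := by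
          simp only [← pow_mul, ← pow_add]; congr 1; ring
      _ = _ := by rw [ha, one_pow, mul_one]
  · rw [mul_comm, rq_s q h.uv, mv, h.puv, h.du, e2]
  · rw [mul_comm, rq_s q h.uw, mw, h.puw, h.du, e2]

theorem Tri.vec {a : kˣ} {q : I → I → kˣ} {u v w : I} (h : Tri a q u v w) (A B C : ℤ) :
    sref (mm q u) u (A • e u + B • e v + C • e w) =
      B • e v + C • e w + ((mu a (a ^ 2) : ℤ) * (B + C) - A) • e u := by
  have mv : mm q u v = mu a (a ^ 2) := by rw [mm_mu, h.du, h.puv]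
  have mw : mm q u w = mu a (a ^ 2) := by rw [mm_mu, h.du, h.puw]
  simp only [map_add, map_smul, sref_e_self, sref_e_ne _ h.uv, sref_e_ne _ h.uw, mv, mw]
  module

/-- Four letters in one class and one more letter. -/
structure LS (a : kˣ) (σ : Fin 4 → kˣ) (q : I → I → kˣ) (j : I) (y : Fin 4 → I) : Prop where
  inj : Function.Injective y
  ne : ∀ t, y t ≠ j
  dg : ∀ t, q (y t) (y t) = a
  pr : ∀ t t', t ≠ t' → q (y t) (y t') * q (y t') (y t) = a ^ 2
  cen : ∀ t, q (y t) j * q j (y t) = σ t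

/-- The vector with given coordinates on the five letters. -/
def vec (j : I) (y : Fin 4 → I) (X : ℤ) (Y : Fin 4 → ℤ) : I → ℤ := X • e j + ∑ t, Y t • e (y t)

omit [Fintype I] [DecidableEq I] in
theorem LS.tri {a : kˣ} {σ : Fin 4 → kˣ} {q : I → I → kˣ} {j : I} {y : Fin 4 → I}
    (h : LS a σ q j y) : Tri a q (y 0) (y 1) (y 2) :=
  ⟨h.inj.ne (by decide), h.inj.ne (by decide), h.inj.ne (by decide), h.dg _, h.dg _, h.dg _,
    h.pr _ _ (by decide), h.pr _ _ (by decide), h.pr _ _ (by decide)⟩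

theorem LS.leaf {a : kˣ} {σ : Fin 4 → kˣ} {q : I → I → kˣ} {j : I} {y : Fin 4 → I}
    (h : LS a σ q j y) (ha : a ^ 2 = 1) (ht : Tor q) (s : Fin 4) :
    LS a (Function.update σ s (σ s)⁻¹) (rq (y s) q) j y ∧ ∀ X Y,
      sref (mm q (y s)) (y s) (vec j y X Y) =
        vec j y X (Function.update Y s ((mu a (σ s) : ℤ) * X - Y s)) := by
  have m0 : ∀ t, t ≠ s → mm q (y s) (y t) = 0 := fun t hts =>
    (mm_eq_zero q ht _ _).2 (by rw [h.pr s t hts.symm, ha])
  have mj : mm q (y s) j = mu a (σ s) := by rw [mm_mu, h.dg, h.cen]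
  refine ⟨⟨h.inj, h.ne, fun t => ?_, fun t t' htt => ?_, fun t => ?_⟩, fun X Y => ?_⟩
  · by_cases hts : t = s
    · subst hts; rw [rq_self, h.dg]
    · rw [rq_d q (h.inj.ne hts), m0 t hts, h.dg]; simp
  · by_cases hts : t = s
    · subst hts
      rw [rq_s q (h.inj.ne htt.symm), m0 t' htt.symm, h.pr t t' htt, ha]; simp
    · by_cases hts' : t' = s
      · subst hts'
        rw [mul_comm, rq_s q (h.inj.ne hts), m0 t hts, h.pr t' t htt.symm, ha]; simp
      · rw [rq_p q (h.inj.ne hts) (h.inj.ne hts'), m0 t hts, m0 t' hts', h.pr t t' htt]; simp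
  · by_cases hts : t = s
    · subst hts
      rw [rq_s q (h.ne t).symm, h.cen, h.dg, ha]; simp
    · rw [rq_p q (h.inj.ne hts) (h.ne s).symm, m0 t hts, h.cen, h.pr s t (Ne.symm hts), ha,
        Function.update_of_ne hts]
      simp
  · have e1 : ∑ t ∈ Finset.univ.erase s, sref (mm q (y s)) (y s) (Y t • e (y t)) =
        ∑ t ∈ Finset.univ.erase s,
          Function.update Y s ((mu a (σ s) : ℤ) * X - Y s) t • e (y t) := by
      refine Finset.sum_congr rfl fun t hts => ?_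
      have hts' := Finset.ne_of_mem_erase hts
      rw [map_smul, sref_e_ne _ (h.inj.ne hts'), m0 t hts', Function.update_of_ne hts']
      simp
    rw [vec, vec, map_add, map_sum, ← Finset.add_sum_erase _ _ (Finset.mem_univ s),
      ← Finset.add_sum_erase _ _ (Finset.mem_univ s), e1, map_smul, map_smul, sref_e_self,
      sref_e_ne _ (h.ne s).symm, mj, Function.update_self]
    module

theorem LS.centre {a sg : kˣ} {q : I → I → kˣ} {j : I} {y : Fin 4 → I}
    (h : LS a (fun _ => sg) q j y) (hs : sg ≠ 1) (ht : Tor q) (ht' : Tor (rq j q)) :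
    ∃ (a' sg' : kˣ) (c : ℕ), 1 ≤ c ∧ sg' ≠ 1 ∧ LS a' (fun _ => sg') (rq j q) j y ∧ ∀ X Y : ℤ,
      sref (mm q j) j (vec j y X fun _ => Y) = vec j y (4 * c * Y - X) fun _ => Y := by
  have hc : ∀ t, q j (y t) * q (y t) j = sg := fun t => by rw [mul_comm]; exact h.cen t
  have mt : ∀ t, mm q j (y t) = mu (q j j) sg := fun t => by rw [mm_mu, hc]
  have h1 : mu (q j j) sg ≠ 0 := fun h0 =>
    hs (by rw [← hc 0]; exact (mm_eq_zero q ht _ _).1 (by rw [mt, h0]))
  generalize mu (q j j) sg = c at *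
  have hs' : ∀ t, rq j q j (y t) * rq j q (y t) j = (sg * (q j j ^ 2) ^ c)⁻¹ := fun t => by
    rw [rq_s q (h.ne t), hc, mt]
  refine ⟨a * sg ^ c * q j j ^ (c * c), (sg * (q j j ^ 2) ^ c)⁻¹, c, by omega, fun h0 => h1 ?_,
    ⟨h.inj, h.ne, fun t => ?_, fun t t' htt => ?_, fun t => ?_⟩, fun X Y => ?_⟩
  · rw [← mt 0, ← mm_rq q ht (h.ne 0)]
    exact (mm_eq_zero _ ht' _ _).2 (by rw [hs', h0])
  · rw [rq_d q (h.ne t), mt, hc, h.dg]
  · rw [rq_p q (h.ne t) (h.ne t'), mt, mt, hc, hc, h.pr t t' htt]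
    simp only [sq, mul_pow]
    simp only [mul_assoc, mul_comm, mul_left_comm]
  · rw [mul_comm]; exact hs' t
  · simp only [vec, Fin.sum_univ_four, map_add, map_smul, sref_e_self, sref_e_ne _ (h.ne _), mt]
    module

section Main
variable {N : ℕ} (p : ℕ) [Fact p.Prime] [CharP k p] (hN0 : 0 < N)

theorem tri_unb {a : kˣ} (h1 : 1 ≤ mu a (a ^ 2)) (ha : a ^ (mu a (a ^ 2) + 2) = 1) (n : ℕ) :
    ∀ (x : QN k I N) (u v w : I) (A B C : ℤ), Tri a x.1 u v w → 0 ≤ A → A ≤ B → B + 1 ≤ C →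
      Unb (rdN p hN0) x (A • e u + B • e v + C • e w) (C + n) := by
  induction n with
  | zero =>
    intro x u v w A B C h _ _ _
    exact ⟨[], w, by simp [RD.w, e, h.uw, h.vw]⟩
  | succ n ih =>
    intro x u v w A B C h h0 hAB hBC
    have hm : (1 : ℤ) ≤ mu a (a ^ 2) := by exact_mod_cast h1
    have t1 := h.refl ha
    have i1 : B + C ≤ (mu a (a ^ 2) : ℤ) * (B + C) := le_mul_of_one_le_left (by omega) hm
    have i2 : C + ((mu a (a ^ 2) : ℤ) * (B + C) - A) ≤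
        (mu a (a ^ 2) : ℤ) * (C + ((mu a (a ^ 2) : ℤ) * (B + C) - A)) :=
      le_mul_of_one_le_left (by omega) hm
    have := ih ((rdN p hN0).r v ((rdN p hN0).r u x)) w u v C _ _ (t1.refl ha) (by omega)
      (show C ≤ (mu a (a ^ 2) : ℤ) * (B + C) - A by omega)
      (show _ ≤ (mu a (a ^ 2) : ℤ) * (C + ((mu a (a ^ 2) : ℤ) * (B + C) - A)) - B by omega)
    refine ((this.of_r (t1.vec _ _ _)).of_r (h.vec _ _ _)).mono ?_
    push_cast
    omega

theorem tri_sq {a : kˣ} {x : QN k I N} (hb : Bd (rdN p hN0) x) {u v w : I}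
    (h : Tri a x.1 u v w) : a ^ 2 = 1 := by
  by_contra ha
  obtain ⟨h1, h2⟩ := mu_sq ha (by rw [← h.du]; exact tor_of_pow x.1 p hN0 x.2 u)
  exact hb.not fun n => tri_unb p hN0 h1 h2 n x u v w 0 0 1 h le_rfl le_rfl le_rfl

theorem star_unb {j : I} {y : Fin 4 → I} (n : ℕ) :
    ∀ (x : QN k I N) (a sg : kˣ) (X Y : ℤ), Bd (rdN p hN0) x → LS a (fun _ => sg) x.1 j y →
      sg ≠ 1 → 0 ≤ X → X < 2 * Y → Unb (rdN p hN0) x (vec j y X fun _ => Y) (Y + n) := by
  have tor : ∀ x : QN k I N, Tor x.1 := fun x => tor_of_pow x.1 p hN0 x.2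
  induction n with
  | zero =>
    intro x a sg X Y _ h _ _ _
    refine ⟨[], y 0, ?_⟩
    have h1 : y 0 ≠ y 1 := h.inj.ne (by decide)
    have h2 : y 0 ≠ y 2 := h.inj.ne (by decide)
    have h3 : y 0 ≠ y 3 := h.inj.ne (by decide)
    simp [RD.w, vec, Fin.sum_univ_four, e, h.ne 0, h1, h2, h3]
  | succ n ih =>
    intro x a sg X Y hb h hs h0 hXY
    obtain ⟨a', sg', c, hc, hs', l1, v1⟩ := h.centre hs (tor x) (tor ((rdN p hN0).r j x))
    have b1 := hb.r j
    have ha : a' ^ 2 = 1 := tri_sq p hN0 b1 l1.tri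
    have hm : mu a' sg' ≠ 0 := fun h0 => hs' (by
      rw [← l1.cen 0]
      exact (mm_eq_zero (rq j x.1) (tor ((rdN p hN0).r j x)) _ _).1
        (by rw [mm_mu, l1.dg, l1.cen, h0]))
    obtain ⟨l2, v2⟩ := l1.leaf ha (tor ((rdN p hN0).r j x)) 0
    obtain ⟨l3, v3⟩ := l2.leaf ha (tor ((rdN p hN0).r (y 0) ((rdN p hN0).r j x))) 1
    obtain ⟨l4, v4⟩ := l3.leaf ha
      (tor ((rdN p hN0).r (y 1) ((rdN p hN0).r (y 0) ((rdN p hN0).r j x)))) 2
    obtain ⟨l5, v5⟩ := l4.leaf ha (tor ((rdN p hN0).r (y 2)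
      ((rdN p hN0).r (y 1) ((rdN p hN0).r (y 0) ((rdN p hN0).r j x))))) 3
    have hc' : (1 : ℤ) ≤ c := by exact_mod_cast hc
    have hm' : (1 : ℤ) ≤ mu a' sg' := by exact_mod_cast Nat.one_le_iff_ne_zero.2 hm
    have i1 : Y ≤ c * Y := le_mul_of_one_le_left (by omega) hc'
    have i0 : 4 * (c : ℤ) * Y = 4 * (c * Y) := by ring
    have i2 : 4 * c * Y - X ≤ (mu a' sg' : ℤ) * (4 * c * Y - X) :=
      le_mul_of_one_le_left (by omega) hm'
    have l6 : LS a' (fun _ => sg'⁻¹) ((rdN p hN0).r (y 3) ((rdN p hN0).r (y 2) ((rdN p hN0).r (y 1)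
        ((rdN p hN0).r (y 0) ((rdN p hN0).r j x))))).1 j y :=
      ⟨l5.inj, l5.ne, l5.dg, l5.pr, fun t => (l5.cen t).trans (by fin_cases t <;> simp)⟩
    have := ih _ a' sg'⁻¹ (4 * c * Y - X) ((mu a' sg' : ℤ) * (4 * c * Y - X) - Y)
      ((((b1.r (y 0)).r (y 1)).r (y 2)).r (y 3)) l6 (inv_ne_one.2 hs') (by omega) (by omega)
    refine (((((this.of_r ((v5 _ _).trans ?_)).of_r (v4 _ _)).of_r (v3 _ _)).of_r (v2 _ _)).of_r
      (v1 X Y)).mono ?_
    · congr 1
      funext t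
      fin_cases t <;> simp
    · push_cast
      omega

end Main

end St

theorem st {N : ℕ} (p : ℕ) [Fact p.Prime] [CharP k p] (hN0 : 0 < N)
    (q : I → I → kˣ) (h : ∀ i j, q i j ^ N = 1)
    (hfin : {μ | hN q μ ≠ 0}.Finite) (y : Fin 4 ↪ I)
    (hr : ∀ a b j, q (y a) j = q (y b) j) (hc : ∀ a b j, q j (y a) = q j (y b)) (j : I) :
    q (y 0) j * q j (y 0) = 1 := by
  have hb : St.Bd (rdN p hN0) (⟨q, h⟩ : QN k I N) := St.bd_of _ (hN_bounded p hN0 ⟨q, h⟩ hfin)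
  have ha : ∀ s t, q (y s) (y t) = q (y 0) (y 0) := fun s t => (hr s 0 _).trans (hc t 0 _)
  have hp : ∀ s t, q (y s) (y t) * q (y t) (y s) = q (y 0) (y 0) ^ 2 := fun s t => by
    rw [ha s t, ha t s, sq]
  by_cases hj : ∃ t, y t = j
  · obtain ⟨t, rfl⟩ := hj
    rw [hp]
    exact St.tri_sq p hN0 hb (u := y 0) (v := y 1) (w := y 2)
      ⟨y.injective.ne (by decide), y.injective.ne (by decide), y.injective.ne (by decide),
        ha _ _, ha _ _, ha _ _, hp _ _, hp _ _, hp _ _⟩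
  · by_contra hs
    exact hb.not fun n => St.star_unb p hN0 n ⟨q, h⟩ (q (y 0) (y 0)) _ 0 1 hb
      ⟨y.injective, fun t ht => hj ⟨t, ht⟩, fun t => ha t t, fun t t' _ => hp t t',
        fun t => congrArg₂ (· * ·) (hr t 0 j) (hc t 0 j)⟩ hs le_rfl (by norm_num)

end Pool.Agent.Lib.MP_ff61db_al.Pt
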