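import Pool.Agent.Lib.MP_ff61db_al.Pt.QAff

/-! Symmetric braiding: an algebra of polynomial growth generated by primitive elements is
left noetherian (doubling, colour Lie closure, Dickson). -/

namespace Pool.Agent.Lib.MP_ff61db_al.Pt.B9

open Submodule TensorProduct LinearMap

variable {k R : Type} [Field k] [Ring R] [Algebra k R] {I M : Type} [AddCommMonoid M]

/-- `u` acts on coproducts like a primitive element of degree `μ`. -/
def SPrim (G : M → R →ₗ[k] R) (D : R →ₗ[k] R ⊗[k] R) (μ : M) (u : R) : Prop :=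
  ∀ a, D (u * a) = rTensor R (mulLeft k u) (D a) + TensorProduct.map (G μ) (mulLeft k u) (D a)

structure Sy (x : I → R) (e : I → M) (W : M → Submodule k R) (len : M →+ ℤ) (χ : M → M → k)
    (G : M → R →ₗ[k] R) (D : R →ₗ[k] R ⊗[k] R) : Prop where
  xW : ∀ i, x i ∈ W (e i)
  one : (1 : R) ∈ W 0
  mul : ∀ {μ ν a b}, a ∈ W μ → b ∈ W ν → a * b ∈ W (μ + ν)
  len_e : ∀ i, len (e i) = 1
  pr : ∀ μ, ∃ p : R →ₗ[k] R, (∀ a ∈ W μ, p a = a) ∧ ∀ ν, ν ≠ μ → ∀ a ∈ W ν, p a = 0
  chi_l : ∀ μ ν κ, χ (μ + ν) κ = χ μ κ * χ ν κ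
  chi_r : ∀ μ ν κ, χ μ (ν + κ) = χ μ ν * χ μ κ
  sym : ∀ μ ν, χ μ ν * χ ν μ = 1
  G_mul : ∀ μ {ν u}, u ∈ W ν → ∀ a, G μ (u * a) = χ μ ν • (u * G μ a)
  G_add : ∀ μ ν a, G (μ + ν) a = G μ (G ν a)
  G_inj : ∀ μ, Function.Injective (G μ)
  D_one : D 1 = 1 ⊗ₜ 1
  D_x : ∀ i, SPrim G D (e i) (x i)

variable {x : I → R} {e : I → M} {W : M → Submodule k R} {len : M →+ ℤ} {χ : M → M → k}
  {G : M → R →ₗ[k] R} {D : R →ₗ[k] R ⊗[k] R}

theorem Sy.br_prim (h : Sy x e W len χ G D) {μ ν : M} {u v : R} (hu : u ∈ W μ) (hv : v ∈ W ν)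
    (pu : SPrim G D μ u) (pv : SPrim G D ν v) : SPrim G D (μ + ν) (u * v - χ μ ν • (v * u)) := by
  intro a
  rw [sub_mul, smul_mul_assoc, mul_assoc, mul_assoc, map_sub, map_smul, pu, pv, pv, pu]
  generalize D a = t
  induction t with
  | zero => simp
  | add s t hs ht =>
    simp only [map_add, smul_add] at hs ht ⊢
    refine Eq.trans ?_ ((congrArg₂ (· + ·) hs ht).trans ?_) <;> abel
  | tmul a b =>
    have e1 : G ν (G μ a) = G μ (G ν a) := by rw [← h.G_add, add_comm, h.G_add]
    simp only [map_add, rTensor_tmul, map_tmul, mulLeft_apply, h.G_mul _ hu, h.G_mul _ hv, smul_add,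
      e1, h.G_add, sub_mul, smul_mul_assoc, mul_assoc, sub_tmul, tmul_sub, tmul_smul,
      ← smul_tmul', smul_smul, h.sym μ ν, one_smul]
    abel

/-- Contraction of the second factor. -/
noncomputable def ctr (φ : R →ₗ[k] k) : R ⊗[k] R →ₗ[k] R :=
  (TensorProduct.rid k R).toLinearMap ∘ₗ lTensor R φ

@[simp] theorem ctr_tmul (φ : R →ₗ[k] k) (a b : R) : ctr φ (a ⊗ₜ b) = φ b • a := by simp [ctr]

theorem SPrim.ctr {μ : M} {u : R} (h : SPrim G D μ u) (φ : R →ₗ[k] k) (a : R) :
    ctr φ (D (u * a)) = u * ctr φ (D a) + G μ (ctr (φ ∘ₗ mulLeft k u) (D a)) := by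
  rw [h a]
  generalize D a = t
  induction t with
  | zero => simp
  | add s t hs ht => simp only [map_add, mul_add] at hs ht ⊢; rw [add_add_add_comm, hs, ht]; abel
  | tmul a b => simp

theorem ctr_low (hD : D 1 = 1 ⊗ₜ 1) {u : ℕ → R} {d : ℕ → M} (hu : ∀ i, SPrim G D (d i) (u i))
    (l : List ℕ) : ∀ φ : R →ₗ[k] k, (∀ l' : List ℕ, l'.Sublist l → l' ≠ [] → φ (l'.map u).prod = 0) →
      ctr φ (D (l.map u).prod) = φ 1 • (l.map u).prod := by
  induction l with
  | nil => intro φ _; simp [hD]
  | cons i l ih =>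
    intro φ h
    rw [List.map_cons, List.prod_cons, (hu i).ctr, ih φ fun l' h1 => h l' (h1.cons i),
      ih _ fun l' h1 _ => by simpa using h (i :: l') (h1.cons_cons i) (by simp)]
    have : φ (u i) = 0 := by simpa using h [i] (by simp) (by simp)
    simp [this]

theorem ctr_top (hD : D 1 = 1 ⊗ₜ 1) {u : ℕ → R} {d : ℕ → M} (hu : ∀ i, SPrim G D (d i) (u i))
    {φ : R →ₗ[k] k} {i : ℕ} (h1 : φ 1 = 0) (l : List ℕ)
    (h2 : ∀ l' : List ℕ, l'.Sublist l → l' ≠ [] → φ (l'.map u).prod = 0)
    (h3 : ∀ l' : List ℕ, l'.Sublist l → l' ≠ [] → φ (u i * (l'.map u).prod) = 0) :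
    ctr φ (D ((i :: l).map u).prod) = φ (u i) • G (d i) (l.map u).prod := by
  rw [List.map_cons, List.prod_cons, (hu i).ctr, ctr_low hD hu l φ h2, ctr_low hD hu l _ h3]
  simp [h1]

theorem Sy.prod_mem (h : Sy x e W len χ G D) {J : Type} {u : J → R} {d : J → M}
    (hu : ∀ i, u i ∈ W (d i)) (l : List J) : (l.map u).prod ∈ W (l.map d).sum := by
  induction l with
  | nil => simpa using h.one
  | cons i l ih => simpa using h.mul (hu i) ih

/-- The increasing product of the `u i`, `i ∈ T`. -/
def incP (u : ℕ → R) (T : Finset ℕ) : R := ((T.sort (· ≤ ·)).map u).prod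

theorem Sy.doubling [Nontrivial R] (h : Sy x e W len χ G D) {u : ℕ → R} {d : ℕ → M}
    (hW : ∀ i, u i ∈ W (d i)) (hu : ∀ i, SPrim G D (d i) (u i)) (h0 : ∀ i, u i ≠ 0)
    (hd : ∀ i, len (d i) = i + 1) : LinearIndependent k (incP u) := by
  classical
  have hlen : ∀ l : List ℕ, len (l.map d).sum = (l.map fun j : ℕ => (j : ℤ) + 1).sum := by
    intro l
    induction l with
    | nil => simp
    | cons i l ih => simp [ih, hd]
  have hpos : ∀ l : List ℕ, 0 ≤ (l.map fun j : ℕ => (j : ℤ) + 1).sum := fun l =>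
    List.sum_nonneg (by simp only [List.mem_map]; rintro _ ⟨j, -, rfl⟩; omega)
  have key : ∀ n (f : Finset ℕ →₀ k), (∀ T ∈ f.support, T.card ≤ n) →
      Finsupp.linearCombination k (incP u) f = 0 → f = 0 := by
    intro n
    induction n with
    | zero =>
      intro f h1 h2
      have e : f = Finsupp.single ∅ (f ∅) := Finsupp.support_subset_singleton.1 fun T hT => by
        simpa using h1 T hT
      rw [e] at h2 ⊢
      simpa [incP] using h2
    | succ n ih =>
      intro f h1 h2
      by_contra hne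
      have hS : (f.support.biUnion _root_.id).Nonempty := by
        by_contra hS
        refine hne (ih f (fun T hT => ?_) h2)
        have : T = ∅ := Finset.not_nonempty_iff_eq_empty.1 fun ⟨j, hj⟩ =>
          hS ⟨j, Finset.mem_biUnion.2 ⟨T, hT, hj⟩⟩
        simp [this]
      set i := (f.support.biUnion _root_.id).min' hS with hi
      have hmin : ∀ T ∈ f.support, ∀ j ∈ T, i ≤ j := fun T hT j hj =>
        Finset.min'_le _ _ (Finset.mem_biUnion.2 ⟨T, hT, hj⟩)
      obtain ⟨T₀, hT₀, hi₀⟩ := Finset.mem_biUnion.1 (Finset.min'_mem _ hS)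
      obtain ⟨p, p1, p2⟩ := h.pr (d i)
      obtain ⟨ψ, hψ⟩ := Module.Projective.exists_dual_eq_one k (h0 i)
      have kill : ∀ l : List ℕ, (l.map fun j : ℕ => (j : ℤ) + 1).sum ≠ i + 1 →
          (ψ ∘ₗ p) (l.map u).prod = 0 := fun l hl => by
        rw [LinearMap.comp_apply, p2 _ (fun e => hl (by rw [← hlen, e, hd])) _ (h.prod_mem hW l),
          map_zero]
      have big : ∀ l l' : List ℕ, (∀ j ∈ l, i < j) → l'.Sublist l → l' ≠ [] →
          (i : ℤ) + 1 < (l'.map fun j : ℕ => (j : ℤ) + 1).sum := by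
        intro l l' hl hs hn
        obtain ⟨j, l'', rfl⟩ := List.exists_cons_of_ne_nil hn
        have := hl j (hs.subset (by simp))
        have := hpos l''
        simp only [List.map_cons, List.sum_cons]
        omega
      have hφ1 : (ψ ∘ₗ p) 1 = 0 := kill [] (by simp; omega)
      have hev : ∀ T ∈ f.support, ctr (ψ ∘ₗ p) (D (incP u T)) =
          if i ∈ T then G (d i) (incP u (T.erase i)) else 0 := by
        intro T hT
        have hl : ∀ j ∈ (T.erase i).sort (· ≤ ·), i < j := fun j hj => by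
          rw [Finset.mem_sort, Finset.mem_erase] at hj
          exact lt_of_le_of_ne (hmin T hT j hj.2) hj.1.symm
        split_ifs with e
        · have e2 : T.sort (· ≤ ·) = i :: (T.erase i).sort (· ≤ ·) := by
            conv_lhs => rw [← Finset.insert_erase e]
            exact Finset.sort_insert _ (fun j hj => hmin T hT j (Finset.mem_of_mem_erase hj))
              (Finset.notMem_erase i T)
          rw [incP, e2, ctr_top h.D_one hu hφ1 _ (fun l' a b => kill _ (big _ _ hl a b).ne')
            fun l' a b => ?_]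
          · rw [LinearMap.comp_apply, p1 _ (hW i), hψ, one_smul, incP]
          · have := big _ _ hl a b
            exact kill (i :: l') (by simp only [List.map_cons, List.sum_cons]; omega)
        · rw [Finset.erase_eq_of_notMem e] at hl
          rw [incP, ctr_low h.D_one hu _ _ fun l' a b => kill _ (big _ _ hl a b).ne', hφ1, zero_smul]
      let g : Finset ℕ →₀ k := ∑ T ∈ f.support with i ∈ T, Finsupp.single (T.erase i) (f T)
      have hg : g = 0 := by
        refine ih g (fun T hT => ?_) (h.G_inj (d i) ?_)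
        · obtain ⟨T', h3, h4⟩ := Finsupp.mem_support_finsetSum T hT
          rw [Finset.mem_filter] at h3
          have h5 := Finset.mem_singleton.1 (Finsupp.support_single_subset h4)
          have := h1 T' h3.1
          rw [h5, Finset.card_erase_of_mem h3.2]
          omega
        · have h3 := congrArg (fun a => ctr (ψ ∘ₗ p) (D a)) h2
          simp only [Finsupp.linearCombination_apply, Finsupp.sum, map_sum, map_smul,
            map_zero] at h3
          rw [map_zero, ← h3, map_sum, map_sum, Finset.sum_filter]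
          refine Finset.sum_congr rfl fun T hT => ?_
          rw [hev T hT]
          split_ifs <;> simp
      have h3 : g (T₀.erase i) = f T₀ := by
        rw [Finsupp.finsetSum_apply, Finset.sum_eq_single_of_mem T₀
          (Finset.mem_filter.2 ⟨hT₀, hi₀⟩), Finsupp.single_eq_same]
        intro T hT hn
        refine Finsupp.single_eq_of_ne fun e => hn ?_
        rw [← Finset.insert_erase (Finset.mem_filter.1 hT).2, ← e]
        exact Finset.insert_erase hi₀
      rw [hg] at h3
      exact Finsupp.mem_support_iff.1 hT₀ h3.symm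
  exact linearIndependent_iff.2 fun f hf =>
    key (f.support.sup Finset.card) f (fun T hT => Finset.le_sup (f := Finset.card) hT) hf

/-- Degree of a left-normed bracket. -/
def bdg (e : I → M) (l : List I) (i : I) : M := (l.map e).sum + e i

/-- Left-normed colour brackets of the generators. -/
def br (x : I → R) (e : I → M) (χ : M → M → k) : List I → I → R
  | [], i => x i
  | j :: l, i => x j * br x e χ l i - χ (e j) (bdg e l i) • (br x e χ l i * x j)

theorem bdg_cons (j : I) (l : List I) (i : I) : bdg e (j :: l) i = e j + bdg e l i := by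
  simp [bdg, add_assoc]

theorem Sy.br_mem (h : Sy x e W len χ G D) (l : List I) (i : I) :
    br x e χ l i ∈ W (bdg e l i) ∧ SPrim G D (bdg e l i) (br x e χ l i) ∧
      len (bdg e l i) = l.length + 1 ∧ br x e χ l i ∈ Wl k x (l.length + 2) := by
  induction l with
  | nil =>
    simp only [bdg, br, List.map_nil, List.sum_nil, zero_add]
    exact ⟨h.xW i, h.D_x i, by simp [h.len_e], subset_span ⟨[i], by simp, by simp⟩⟩
  | cons j l ih =>
    obtain ⟨h1, h2, h3, h4⟩ := ih
    rw [bdg_cons, br]
    refine ⟨sub_mem (h.mul (h.xW j) h1) (smul_mem _ _ (add_comm (e j) _ ▸ h.mul h1 (h.xW j))),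
      h.br_prim (h.xW j) h1 (h.D_x j) h2, by rw [map_add, h3, h.len_e]; simp; ring,
      sub_mem ?_ (smul_mem _ _ ?_)⟩
    · simpa [add_comm, add_left_comm] using Wl_mul h4 [j] []
    · simpa [add_comm, add_left_comm] using Wl_mul h4 [] [j]

theorem Wl_mul' {a b : R} {m n : ℕ} (ha : a ∈ Wl k x m) (hb : b ∈ Wl k x n) :
    a * b ∈ Wl k x (m + n) := by
  induction ha using span_induction with
  | mem a ha =>
    obtain ⟨l, rfl, hl⟩ := ha
    exact Wl_mono (by omega) (show _ ∈ Wl k x (l.length + n) by simpa using Wl_mul hb l [])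
  | zero => simp
  | add a b _ _ ha hb => rw [add_mul]; exact add_mem ha hb
  | smul c a _ ha => rw [smul_mul_assoc]; exact smul_mem _ _ ha

theorem two_pow_big (K m : ℕ) : ∃ r : ℕ, 1 ≤ r ∧ K * r ^ m < 2 ^ r := by
  have h := (tendsto_pow_const_div_const_pow_of_one_lt m (r := 2) (by norm_num)).const_mul (K : ℝ)
  rw [mul_zero] at h
  obtain ⟨r, h1, h2⟩ := ((h.eventually (gt_mem_nhds one_pos)).and (Filter.eventually_ge_atTop 1)).exists
  refine ⟨r, h2, ?_⟩
  rw [← mul_div_assoc, div_lt_one (by positivity)] at h1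
  exact_mod_cast h1

theorem Sy.br_zero [Finite I] [Nontrivial R] (h : Sy x e W len χ G D)
    (hg : ∃ C d : ℕ, ∀ n, Module.finrank k (Wl k x (n + 1)) ≤ C * (n + 1) ^ d) :
    ∃ m, ∀ l i, l.length = m → br x e χ l i = 0 := by
  by_contra hne
  push Not at hne
  choose l i h1 h2 using hne
  have hi := h.doubling (u := fun m => br x e χ (l m) (i m)) (fun m => (h.br_mem _ _).1)
    (fun m => (h.br_mem _ _).2.1) h2 fun m => by rw [(h.br_mem _ _).2.2.1, h1]
  obtain ⟨C, d, hp⟩ := hg
  obtain ⟨r, h3, h4⟩ := two_pow_big (C * 4 ^ d) (2 * d)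
  have hm : ∀ L : List ℕ, (∀ j ∈ L, j < r) →
      (L.map fun m => br x e χ (l m) (i m)).prod ∈ Wl k x (L.length * (r + 1) + 1) := by
    intro L hL
    induction L with
    | nil => exact subset_span ⟨[], by simp, by simp⟩
    | cons j L ih =>
      have := hL j (by simp)
      refine Wl_mono ?_ (Wl_mul' (h.br_mem (l j) (i j)).2.2.2 (ih fun a ha => hL a (by simp [ha])))
      rw [h1, List.length_cons, add_mul]
      omega
  have : Module.Finite k (Wl k x (r * (r + 1) + 1)) := by
    refine Module.Finite.iff_fg.2 (fg_span (((List.finite_length_lt I (r * (r + 1) + 1)).image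
      fun l => (l.map x).prod).subset ?_))
    rintro _ ⟨l, rfl, hl⟩
    exact ⟨l, hl, rfl⟩
  have hT : ∀ T ∈ (Finset.range r).powerset,
      incP (fun m => br x e χ (l m) (i m)) T ∈ Wl k x (r * (r + 1) + 1) := by
    intro T hT
    have hT' := Finset.mem_powerset.1 hT
    refine Wl_mono ?_ (hm _ fun j hj => Finset.mem_range.1 (hT' ((Finset.mem_sort _).1 hj)))
    rw [Finset.length_sort]
    have := Finset.card_le_card hT'
    rw [Finset.card_range] at this
    exact Nat.succ_le_succ (Nat.mul_le_mul_right _ this)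
  generalize incP (fun m => br x e χ (l m) (i m)) = v at hi hT
  let v' : (Finset.range r).powerset → Wl k x (r * (r + 1) + 1) := fun T => ⟨v T, hT T T.2⟩
  have hv' : LinearIndependent k v' := LinearIndependent.of_comp (Submodule.subtype _)
    (hi.comp (fun T : (Finset.range r).powerset => T.1) Subtype.val_injective)
  have h5 := hv'.fintype_card_le_finrank
  rw [Fintype.card_coe, Finset.card_powerset, Finset.card_range] at h5
  have h6 : r * (r + 1) + 1 ≤ 4 * r ^ 2 := by nlinarith
  have h7 := Nat.mul_le_mul_left C (Nat.pow_le_pow_left h6 d)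
  rw [mul_pow, ← pow_mul, ← mul_assoc] at h7
  have := hp (r * (r + 1))
  omega

/-- Symmetric case: polynomial growth implies left noetherian. -/
theorem Sy.noeth [Finite I] (h : Sy x e W len χ G D) (hs : ∀ a : R, ∃ m, a ∈ Wl k x m)
    (hg : ∃ C d : ℕ, ∀ n, Module.finrank k (Wl k x (n + 1)) ≤ C * (n + 1) ^ d) :
    IsNoetherianRing R := by
  nontriviality R
  obtain ⟨m, hm⟩ := h.br_zero hg
  have hz : ∀ l i, m ≤ l.length → br x e χ l i = 0 := by
    intro l i hl
    induction l with
    | nil => exact hm _ _ (Nat.le_zero.1 hl).symm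
    | cons j l ih =>
      by_cases e1 : m ≤ l.length
      · simp [br, ih e1]
      · exact hm _ _ (by rw [List.length_cons] at hl ⊢; omega)
  let Sp : M → Submodule k R := fun μ => span k {a | ∃ l i, bdg e l i = μ ∧ a = br x e χ l i}
  have step : ∀ j μ, ∀ v ∈ Sp μ, x j * v - χ (e j) μ • (v * x j) ∈ Sp (e j + μ) := by
    intro j μ v hv
    induction hv using span_induction with
    | mem a ha =>
      obtain ⟨l, i, rfl, rfl⟩ := ha
      exact subset_span ⟨j :: l, i, bdg_cons _ _ _, rfl⟩
    | zero => simp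
    | add a b _ _ ha hb =>
      convert add_mem ha hb using 1
      simp only [mul_add, add_mul, smul_add]
      abel
    | smul c a _ ha =>
      convert smul_mem _ c ha using 1
      simp only [mul_smul_comm, smul_mul_assoc, smul_sub, smul_comm c]
  have lie : ∀ l i μ, ∀ v ∈ Sp μ,
      br x e χ l i * v - χ (bdg e l i) μ • (v * br x e χ l i) ∈ Sp (bdg e l i + μ) := by
    intro l i
    induction l with
    | nil => intro μ v hv; simpa [bdg, br] using step i μ v hv
    | cons j l ih =>
      intro μ v hv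
      have h1 := step j _ _ (ih μ v hv)
      have h2 := ih _ _ (step j μ v hv)
      rw [add_left_comm] at h2
      rw [bdg_cons, br, add_assoc]
      convert sub_mem h1 (smul_mem _ (χ (e j) (bdg e l i)) h2) using 1
      have := h.sym (e j) (bdg e l i)
      simp only [h.chi_l, h.chi_r, mul_sub, sub_mul, mul_smul_comm, smul_mul_assoc, smul_sub,
        smul_smul, mul_assoc]
      match_scalars <;> grind
  let ι := {p : List I × I // p.1.length ≤ m}
  have : Finite ι := by
    have := (List.finite_length_le I m).prod (Set.finite_univ (α := I))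
    exact (this.subset fun p hp => ⟨hp, trivial⟩ : {p : List I × I | p.1.length ≤ m}.Finite)
  let y : ι → R := fun p => br x e χ p.1.1 p.1.2
  refine noeth_qaff (k := k) (y := y) (fun p q => ⟨_, left_ne_zero_of_mul_eq_one (h.sym _ _),
    (span_le.2 ?_ : Sp _ ≤ _) (lie p.1.1 p.1.2 _ _ (subset_span ⟨q.1.1, q.1.2, rfl, rfl⟩))⟩)
    fun a => ?_
  · rintro _ ⟨l, i, -, rfl⟩
    by_cases e1 : l.length ≤ m
    · exact subset_span ⟨[⟨(l, i), e1⟩], by simp [y], by simp⟩
    · rw [hz l i (by omega)]; exact zero_mem _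
  · obtain ⟨n, hn⟩ := hs a
    refine ⟨n, span_mono ?_ hn⟩
    rintro _ ⟨l, rfl, hl⟩
    exact ⟨l.map fun i => ⟨([], i), Nat.zero_le _⟩, by simp [y, br, Function.comp_def], by simpa⟩

end Pool.Agent.Lib.MP_ff61db_al.Pt.B9
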