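import Pool.Agent.Lib.MP_ff61db_al.Pt.Defs
import Pool.Agent.Lib.MP_ff61db_al.Pt.Sym
import Pool.Agent.Lib.MP_ff61db_al.Pt.DefsEq

/-! Pre-Nichols algebras with symmetric braiding and polynomial growth are left noetherian. -/

namespace Pool.Agent.Lib.MP_ff61db_al.Pt.B9

open Submodule TensorProduct LinearMap

variable {k : Type} [Field k] {I : Type} [Fintype I] [DecidableEq I] {q : I → I → kˣ}
  {R : Type} [Ring R] [Algebra k R]

theorem chi_l (q : I → I → kˣ) (μ ν κ : I → ℤ) : chi q (μ + ν) κ = chi q μ κ * chi q ν κ := by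
  simp only [chi, Pi.add_apply, add_mul, zpow_add, Finset.prod_mul_distrib]

theorem chi_r (q : I → I → kˣ) (μ ν κ : I → ℤ) : chi q μ (ν + κ) = chi q μ ν * chi q μ κ := by
  simp only [chi, Pi.add_apply, mul_add, zpow_add, Finset.prod_mul_distrib]

theorem chi_sym (hs : ∀ i j, q i j * q j i = 1) (μ ν : I → ℤ) : chi q μ ν * chi q ν μ = 1 := by
  rw [chi, chi, Finset.prod_comm (f := fun i j => q i j ^ (ν i * μ j)), ← Finset.prod_mul_distrib]
  refine Finset.prod_eq_one fun i _ => ?_
  rw [← Finset.prod_mul_distrib]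
  refine Finset.prod_eq_one fun j _ => ?_
  rw [mul_comm (ν j), ← mul_zpow, hs, one_zpow]

theorem deg_app (l l' : List I) : deg (l ++ l') = deg l + deg l' := by simp [deg]

theorem wd_app (x : I → R) (l l' : List I) : wd x (l ++ l') = wd x l * wd x l' := by simp [wd]

theorem ht_deg (l : List I) : ht (deg l) = l.length := by
  induction l with
  | nil => simp [deg, ht]
  | cons i l ih =>
    have : deg (i :: l) = e i + deg l := by simp [deg]
    simp only [ht, this, Pi.add_apply, Finset.sum_add_distrib] at ih ⊢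
    rw [ih]
    simp [e, add_comm]

theorem wd_ext (P : PN k q R) {V : Type} [AddCommGroup V] [Module k V] {f g : R →ₗ[k] V}
    (h : ∀ l, f (wd P.x l) = g (wd P.x l)) : f = g :=
  LinearMap.ext_on P.span (by rintro _ ⟨l, -, rfl⟩; exact h l)

theorem exists_scale (P : PN k q R) (c : (I → ℤ) → k) :
    ∃ T : R →ₗ[k] R, ∀ l, T (wd P.x l) = c (deg l) • wd P.x l := by
  have hsurj : Function.Surjective (lc k P.x) := by
    rw [← LinearMap.range_eq_top, lc, Finsupp.range_linearCombination, ← Set.image_univ]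
    exact P.span
  let S : (List I →₀ k) →ₗ[k] R := Finsupp.linearCombination k fun l => c (deg l) • wd P.x l
  have hker : LinearMap.ker (lc k P.x) ≤ LinearMap.ker S := by
    intro f hf
    rw [LinearMap.mem_ker] at hf ⊢
    have : S f = ∑ μ ∈ f.support.image deg, c μ • P.pr μ (lc k P.x f) := by
      simp only [S, lc, Finsupp.linearCombination_apply, Finsupp.sum, map_sum, map_smul, P.pr_wd,
        Finset.smul_sum]
      rw [Finset.sum_comm]
      refine Finset.sum_congr rfl fun l hl => ?_
      rw [Finset.sum_eq_single_of_mem (deg l) (Finset.mem_image_of_mem _ hl)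
        fun μ _ h => by simp [h.symm], if_pos rfl, smul_comm]
    simp [this, hf]
  refine ⟨(LinearMap.ker (lc k P.x)).liftQ S hker ∘ₗ
    (LinearMap.quotKerEquivOfSurjective _ hsurj).symm.toLinearMap, fun l => ?_⟩
  have : wd P.x l = lc k P.x (Finsupp.single l 1) := by simp [lc]
  rw [LinearMap.comp_apply, this, LinearEquiv.coe_coe,
    LinearMap.quotKerEquivOfSurjective_symm_apply, Submodule.liftQ_apply]
  simp [S, lc]

theorem growth (P : PN k q R) (hg : PG P.hil) :
    ∃ C d : ℕ, ∀ n, Module.finrank k (Wl k P.x (n + 1)) ≤ C * (n + 1) ^ d := by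
  obtain ⟨C, d, h⟩ := hg
  refine ⟨C, d, fun n => ?_⟩
  have hfin : ∀ μ, Module.Finite k (P.piece μ) := fun μ =>
    Module.Finite.iff_fg.2 (fg_span (((List.finite_length_eq I (ht μ).toNat).subset
      fun l hl => by rw [← show deg l = μ from hl, ht_deg]; simp).image _))
  have hsup : ∀ S : Finset (I → ℤ), Module.Finite k (S.sup P.piece : Submodule k R) ∧
      Module.finrank k (S.sup P.piece : Submodule k R) ≤ ∑ μ ∈ S, P.hil μ := by
    intro S
    induction S using Finset.induction_on with
    | empty => exact ⟨by rw [Finset.sup_empty]; infer_instance, by simp⟩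
    | insert μ S hμ ih =>
      obtain ⟨h1, h2⟩ := ih
      rw [Finset.sup_insert, Finset.sum_insert hμ]
      exact ⟨inferInstance, (Submodule.finrank_add_le_finrank_add_finrank _ _).trans
        (Nat.add_le_add_left h2 _)⟩
  let S := (List.finite_length_lt I (n + 1)).toFinset.image deg
  obtain ⟨h1, h2⟩ := hsup S
  refine (Submodule.finrank_mono (span_le.2 ?_)).trans (h2.trans (h n S fun μ hμ => ?_))
  · rintro _ ⟨l, rfl, hl⟩
    exact Finset.le_sup (f := P.piece) (Finset.mem_image_of_mem deg (by simpa using hl))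
      (subset_span ⟨l, rfl, rfl⟩)
  · obtain ⟨l, hl, rfl⟩ := Finset.mem_image.1 hμ
    rw [ht_deg]
    simp only [Set.Finite.mem_toFinset, Set.mem_ofPred_eq] at hl
    omega

theorem noeth_sym (P : PN k q R) (hs : ∀ i j, q i j * q j i = 1) (hg : PG P.hil) :
    IsNoetherianRing R := by
  choose G hG using fun μ => exists_scale P fun ν => ((chi q μ ν : kˣ) : k)
  have h : Sy P.x e P.piece ⟨⟨ht, by simp [ht]⟩, fun μ ν => by simp [ht, Finset.sum_add_distrib]⟩
      (fun μ ν => ((chi q μ ν : kˣ) : k)) G P.D := by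
    refine ⟨fun i => subset_span ⟨[i], by simp [deg], by simp [wd]⟩,
      subset_span ⟨[], by simp [deg], by simp [wd]⟩, ?_, fun i => by simp [ht, e],
      fun μ => ⟨P.pr μ, fun a ha => ?_, fun ν hν a ha => ?_⟩, fun μ ν κ => by simp [chi_l],
      fun μ ν κ => by simp [chi_r], fun μ ν => by rw [← Units.val_mul, chi_sym hs, Units.val_one],
      fun μ ν u hu a => ?_, fun μ ν a => ?_, fun μ => ?_, ?_, fun i a => ?_⟩
    · intro μ ν a b ha hb
      have := mul_mem_mul ha hb
      rw [PN.piece, PN.piece, wsp, wsp, span_mul_span] at this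
      refine span_mono ?_ this
      rintro _ ⟨_, ⟨l, rfl, rfl⟩, _, ⟨l', rfl, rfl⟩, rfl⟩
      exact ⟨l ++ l', deg_app _ _, wd_app _ _ _⟩
    · exact LinearMap.eqOn_span' (f := P.pr μ) (g := LinearMap.id)
        (by rintro _ ⟨l, rfl, rfl⟩; simp [P.pr_wd]) ha
    · exact LinearMap.eqOn_span' (f := P.pr μ) (g := 0)
        (by rintro _ ⟨l, rfl, rfl⟩; simp [P.pr_wd, hν]) ha
    · refine LinearMap.eqOn_span' (f := G μ ∘ₗ mulRight k a)
        (g := ((chi q μ ν : kˣ) : k) • mulRight k (G μ a)) ?_ hu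
      rintro _ ⟨l, rfl, rfl⟩
      refine LinearMap.congr_fun (wd_ext P (f := G μ ∘ₗ mulLeft k (wd P.x l))
        (g := ((chi q μ (deg l) : kˣ) : k) • (mulLeft k (wd P.x l) ∘ₗ G μ)) fun l' => ?_) a
      simp [← wd_app, hG, deg_app, chi_r, smul_smul]
    · exact LinearMap.congr_fun (wd_ext P (f := G (μ + ν)) (g := G μ ∘ₗ G ν) fun l => by
        simp [hG, chi_l, smul_smul, mul_comm]) a
    · obtain ⟨T, hT⟩ := exists_scale P fun ν => ((chi q μ ν)⁻¹ : kˣ)
      exact LinearMap.injective_of_comp_eq_id (G μ) T (wd_ext P fun l => by simp [hG, hT, smul_smul])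
    · simpa [wd, copw, sh] using P.D_wd []
    · refine LinearMap.congr_fun (wd_ext P (f := P.D ∘ₗ mulLeft k (P.x i))
        (g := (rTensor R (mulLeft k (P.x i)) + TensorProduct.map (G (e i)) (mulLeft k (P.x i))) ∘ₗ
          P.D) fun l => ?_) a
      have e1 : ∀ l, P.x i * wd P.x l = wd P.x (i :: l) := fun l => by simp [wd]
      rw [LinearMap.comp_apply, mulLeft_apply, e1, P.D_wd, LinearMap.comp_apply, P.D_wd, copw, copw,
        sh, List.map_append, List.sum_append, LinearMap.add_apply, map_list_sum, map_list_sum]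
      simp only [List.map_map]
      congr 2 <;> refine List.map_congr_left fun p _ => ?_
      · simp [e1]
      · simp [e1, hG, ← smul_tmul', smul_smul, mul_comm]
  refine h.noeth (fun a => ?_) (growth P hg)
  have ha : a ∈ wsp k P.x Set.univ := P.span ▸ mem_top
  induction ha using span_induction with
  | mem a ha =>
    obtain ⟨l, -, rfl⟩ := ha
    exact ⟨l.length + 1, subset_span ⟨l, rfl, Nat.lt_succ_self _⟩⟩
  | zero => exact ⟨0, zero_mem _⟩
  | add a b _ _ ha hb =>
    obtain ⟨m, ha⟩ := ha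
    obtain ⟨n, hb⟩ := hb
    exact ⟨m + n, add_mem (Wl_mono (by omega) ha) (Wl_mono (by omega) hb)⟩
  | smul c a _ ha => exact ha.imp fun _ h => smul_mem _ _ h

end Pool.Agent.Lib.MP_ff61db_al.Pt.B9

namespace Pool.Agent.Lib.MP_ff61db_al.Pt

theorem PN.noeth_of_sym {k : Type} [Field k] {I : Type} [Fintype I] [DecidableEq I]
    {q : I → I → kˣ} {R : Type} [Ring R] [Algebra k R] (P : PN k q R)
    (hs : ∀ i j, q i j * q j i = 1) (hg : PG P.hil) : IsNoetherianRing R := B9.noeth_sym P hs hg

end Pool.Agent.Lib.MP_ff61db_al.Pt
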