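import Pool.Agent.Lib.MP_ff61db_al.Pt.Basic2
import Pool.Agent.Lib.MP_ff61db_al.Pt.Deg
import Pool.Agent.Lib.MP_ff61db_al.Pt.SymPN

/-! A graded subalgebra which is a subcoalgebra with symmetric braiding is noetherian. -/

namespace Pool.Agent.Lib.MP_ff61db_al.Pt

open TensorProduct Submodule

variable {k : Type} [Field k] {I : Type} [Fintype I] [DecidableEq I]

namespace B9

variable {A : Type} [Fintype A] [DecidableEq A]

/-- Tensors of words of total weight `m` and total length at least `s`. -/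
def TT (k : Type) [Field k] {R : Type} [Ring R] [Algebra k R] (y : A → R) (w : A → ℤ) (m : ℤ)
    (s : ℕ) : Submodule k (R ⊗[k] R) :=
  span k {t | ∃ a b : List A, wt w (deg a + deg b) = m ∧ s ≤ a.length + b.length ∧
    t = wd y a ⊗ₜ wd y b}

variable {q : I → I → kˣ} {R : Type} [Ring R] [Algebra k R] (P : PN k q R) {y : A → R}
  {dg : A → I → ℤ}

theorem wd_piece (hy : ∀ a, y a ∈ P.piece (dg a)) (l : List A) :
    wd y l ∈ P.piece (push dg (deg l)) := by
  induction l with
  | nil => simpa using P.one_mem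
  | cons i l ih => rw [wd_cons, deg_cons, map_add, push_e]; exact P.piece_mul (hy i) ih

theorem copw_mem (q' : A → A → kˣ) (w : A → ℤ) (l : List A) :
    copw q' y l ∈ TT k y w (wt w (deg l)) l.length := by
  refine list_sum_mem fun t ht => ?_
  obtain ⟨p, hp, rfl⟩ := List.mem_map.1 ht
  have h1 := sh_deg q' hp
  have h2 := congrArg Pt.ht h1
  rw [ht_add, Pt.ht_deg, Pt.ht_deg, Pt.ht_deg] at h2
  exact smul_mem _ _ (subset_span ⟨_, _, by rw [h1], by omega, rfl⟩)

theorem gen_mem (hy : ∀ a, y a ∈ P.piece (dg a)) (h1 : ∀ a, dg a ≠ 0) {K : Submodule k R}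
    (hK : wsp k y Set.univ = K) (i : A)
    (hD : P.D (y i) ∈ LinearMap.range (TensorProduct.map K.subtype K.subtype)) :
    P.D (y i) - (y i ⊗ₜ 1 + 1 ⊗ₜ y i) ∈
      TT k y (fun a => ht (dg a)) (ht (dg i)) 2 := by
  let S := ((Finset.Icc 0 (dg i)).erase 0).erase (dg i)
  let L : R ⊗[k] R →ₗ[k] R ⊗[k] R := ∑ ν ∈ S, TensorProduct.map (P.pr ν) (P.pr (dg i - ν))
  have hL : ∀ {ν κ : I → ℤ} {b c : R}, b ∈ P.piece ν → c ∈ P.piece κ →
      L (b ⊗ₜ c) = if ν ∈ S ∧ κ = dg i - ν then b ⊗ₜ c else 0 := by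
    intro ν κ b c hb hc
    rw [LinearMap.sum_apply]
    split_ifs with h
    · rw [Finset.sum_eq_single_of_mem ν h.1 fun ν' _ h' => by simp [P.pr_of_ne hb h'.symm]]
      simp [P.mem_piece.1 hb, ← h.2, P.mem_piece.1 hc]
    · refine Finset.sum_eq_zero fun ν' h' => ?_
      by_cases e1 : ν = ν'
      · subst e1
        simp [P.pr_of_ne hc fun e2 => h ⟨h', e2⟩]
      · simp [P.pr_of_ne hb e1]
  have h2 : L (P.D (y i) - y i ⊗ₜ 1 - 1 ⊗ₜ y i) = P.D (y i) - y i ⊗ₜ 1 - 1 ⊗ₜ y i := by
    refine LinearMap.eqOn_span' (f := L) (g := LinearMap.id) ?_ (P.D_red (hy i) (h1 i))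
    rintro _ ⟨ν, b, c, a1, a2, a3, a4, rfl⟩
    rw [hL a3 a4, LinearMap.id_apply]
    split_ifs with h
    · rfl
    by_cases e1 : 0 ≤ ν
    · by_cases e2 : 0 ≤ dg i - ν
      · exact (h ⟨Finset.mem_erase.2 ⟨a2, Finset.mem_erase.2
          ⟨a1, Finset.mem_Icc.2 ⟨e1, sub_nonneg.1 e2⟩⟩⟩, rfl⟩).elim
      · rw [P.piece_bot e2, mem_bot] at a4
        simp [a4]
    · rw [P.piece_bot e1, mem_bot] at a3
      simp [a3]
  rw [← sub_sub, ← h2, map_sub, map_sub, hL (hy i) P.one_mem, hL P.one_mem (hy i),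
    if_neg (by simp [S]), if_neg (by simp [S]), sub_zero, sub_zero]
  obtain ⟨t, ht'⟩ := hD
  rw [← ht']
  clear ht' h2
  subst hK
  induction t with
  | zero => simp
  | add s t hs ht => rw [map_add, map_add]; exact add_mem hs ht
  | tmul b c =>
    obtain ⟨b, hb⟩ := b
    obtain ⟨c, hc⟩ := c
    rw [map_tmul, subtype_apply, subtype_apply]
    induction hb using span_induction with
    | zero => simp
    | add _ _ _ _ h h' => rw [add_tmul, map_add]; exact add_mem h h'
    | smul _ _ _ h => rw [← smul_tmul', map_smul]; exact smul_mem _ _ h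
    | mem b hb =>
      obtain ⟨b, -, rfl⟩ := hb
      induction hc using span_induction with
      | zero => simp
      | add _ _ _ _ h h' => rw [tmul_add, map_add]; exact add_mem h h'
      | smul _ _ _ h => rw [tmul_smul, map_smul]; exact smul_mem _ _ h
      | mem c hc =>
        obtain ⟨c, -, rfl⟩ := hc
        rw [hL (wd_piece P hy b) (wd_piece P hy c)]
        split_ifs with h
        · refine subset_span ⟨b, c, ?_, ?_, rfl⟩
          · rw [← ht_push, map_add, h.2, add_sub_cancel]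
          · obtain ⟨h3, h4⟩ := h
            simp only [S, Finset.mem_erase] at h3
            rcases b with _ | ⟨_, b⟩
            · simp at h3
            rcases c with _ | ⟨_, c⟩
            · exact (h3.1 (sub_eq_zero.1 (by rw [← h4, deg_nil, map_zero])).symm).elim
            · simp only [List.length_cons]; omega
        · exact zero_mem _

theorem word_mem (hy : ∀ a, y a ∈ P.piece (dg a)) {w : A → ℤ}
    (hgen : ∀ i, P.D (y i) - (y i ⊗ₜ 1 + 1 ⊗ₜ y i) ∈ TT k y w (w i) 2) (l : List A) :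
    P.D (wd y l) - copw (fun a b => chi q (dg a) (dg b)) y l ∈
      TT k y w (wt w (deg l)) (l.length + 1) := by
  obtain ⟨bm, h1, h2⟩ := P.exists_bm
  have hbm : ∀ {m m' s s' t t'}, t ∈ TT k y w m s → t' ∈ TT k y w m' s' →
      bm t t' ∈ TT k y w (m + m') (s + s') := by
    intro m m' s s' t t' ht ht'
    refine (?_ : map₂ bm _ _ ≤ _) (apply_mem_map₂ bm ht ht')
    rw [TT, TT, map₂_span_span]
    refine span_le.2 ?_
    rintro _ ⟨_, ⟨a, b, rfl, a2, rfl⟩, _, ⟨c, d, rfl, c2, rfl⟩, rfl⟩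
    beta_reduce
    rw [h1 _ _ _ _ _ _ (wd_piece P hy b) (wd_piece P hy c), ← wd_append, ← wd_append]
    refine smul_mem _ _ (subset_span ⟨_, _, ?_, ?_, rfl⟩)
    · rw [deg_append, deg_append, ← wt_add, add_add_add_comm]
    · simp only [List.length_append]; omega
  induction l with
  | nil => simp [P.D_one, copw, sh]
  | cons i l ih =>
    have e1 : copw (fun a b => chi q (dg a) (dg b)) y (i :: l) =
        bm (y i ⊗ₜ 1 + 1 ⊗ₜ y i) (copw (fun a b => chi q (dg a) (dg b)) y l) := by
      rw [copw, copw, sh, List.map_append, List.sum_append, map_add, LinearMap.add_apply,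
        map_list_sum, map_list_sum]
      simp only [List.map_map]
      congr 2 <;> refine List.map_congr_left fun p _ => ?_
      · simp [h1 _ _ _ _ _ _ P.one_mem (wd_piece P hy p.2.1)]
      · simp [h1 _ _ _ _ _ _ (hy i) (wd_piece P hy p.2.1), chi_push, smul_smul, mul_comm]
    have e2 : y i ⊗ₜ 1 + 1 ⊗ₜ y i ∈ TT k y w (w i) 1 :=
      add_mem (subset_span ⟨[i], [], by simp, by simp, by simp⟩)
        (subset_span ⟨[], [i], by simp, by simp, by simp⟩)
    have e3 : P.D (wd y l) ∈ TT k y w (wt w (deg l)) l.length := by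
      have := add_mem ((span_mono fun _ ⟨a, b, a1, a2, a3⟩ => ⟨a, b, a1, by omega, a3⟩ :
          TT k y w _ (l.length + 1) ≤ TT k y w _ l.length) ih)
        (copw_mem (y := y) (fun a b => chi q (dg a) (dg b)) w l)
      rwa [sub_add_cancel] at this
    have h3 := hbm (hgen i) e3
    have h4 := hbm e2 ih
    rw [show 2 + l.length = l.length + 1 + 1 by omega] at h3
    rw [show 1 + (l.length + 1) = l.length + 1 + 1 by omega] at h4
    rw [wd_cons, h2, e1, deg_cons, wt_add, wt_e, List.length_cons]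
    convert add_mem h3 h4 using 1
    simp only [map_sub, LinearMap.sub_apply]
    abel

theorem wd_len (hy : ∀ a, y a ∈ P.piece (dg a)) {c : ℕ} (hc : ∀ a, ht (dg a) ≤ c) (l : List A) :
    wd y l ∈ wsp k P.x {l' | l'.length ≤ c * l.length} := by
  refine span_mono (Set.image_mono fun l' hl => ?_) (wd_piece P hy l)
  have h1 : ht (push dg (deg l)) ≤ c * l.length := by
    clear hl
    induction l with
    | nil => simp [ht]
    | cons i l ih =>
      have := hc i
      rw [deg_cons, map_add, push_e, ht_add, List.length_cons]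
      push_cast
      linarith
  rw [← show deg l' = _ from hl, Pt.ht_deg] at h1
  exact_mod_cast h1

end B9

open B9 in
theorem PN.sub_noeth {q : I → I → kˣ} {R : Type} [Ring R] [Algebra k R] (P : PN k q R)
    (hg : PG P.hil) (K : Subalgebra k R) {n : ℕ} (y : Fin n → R) (dg : Fin n → I → ℤ)
    (hy : ∀ a, y a ∈ P.piece (dg a)) (h0 : ∀ a, 0 ≤ dg a) (h1 : ∀ a, dg a ≠ 0)
    (hK : wsp k y Set.univ = Subalgebra.toSubmodule K)
    (hD : ∀ a ∈ K, P.D a ∈ LinearMap.range
      (TensorProduct.map (Subalgebra.toSubmodule K).subtype (Subalgebra.toSubmodule K).subtype))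
    (hs : ∀ a b, chi q (dg a) (dg b) * chi q (dg b) (dg a) = 1) : IsNoetherianRing K := by
  nontriviality K
  have hyK : ∀ a, y a ∈ K := fun a => by
    have : wd y [a] ∈ wsp k y Set.univ := subset_span ⟨[a], trivial, rfl⟩
    rw [hK] at this
    simpa using this
  let y' : Fin n → K := fun a => ⟨y a, hyK a⟩
  have hwd : ∀ l, ((wd y' l : K) : R) = wd y l := fun l => by induction l <;> simp [*, y']
  have hsp : ∀ S, (wsp k y' S).map K.val.toLinearMap = wsp k y S := fun S => by
    rw [wsp, map_span, Set.image_image]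
    exact congrArg (fun f => Submodule.span k (f '' S)) (funext hwd)
  have hinj : Function.Injective K.val.toLinearMap := Subtype.val_injective
  have hy' : wsp k y' Set.univ = ⊤ := map_injective_of_injective hinj (by
    rw [hsp, hK, Submodule.map_top]
    ext a
    simp)
  let ι : K ⊗[k] K →ₗ[k] R ⊗[k] R := TensorProduct.map K.val.toLinearMap K.val.toLinearMap
  have hι : Function.Injective ι := TensorProduct.map_injective_of_flat_flat _ _ hinj hinj
  let D' : K →ₗ[k] K ⊗[k] K := (LinearEquiv.ofInjective ι hι).symm.toLinearMap ∘ₗ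
    (P.D ∘ₗ K.val.toLinearMap).codRestrict (LinearMap.range ι) fun a => hD a a.2
  have hD' : ∀ a, ι (D' a) = P.D a := fun a => by simp [D']
  have hw : ∀ a, 0 < ht (dg a) := fun a =>
    Finset.sum_pos' (fun i _ => h0 a i) (by
      obtain ⟨i, hi⟩ := Function.ne_iff.1 (h1 a)
      exact ⟨i, Finset.mem_univ _, lt_of_le_of_ne (h0 a i) hi.symm⟩)
  obtain ⟨R', _, _, P', -, -, h3, -, h4, -⟩ := deg2 (fun a b => chi q (dg a) (dg b)) y' hy'
    (fun a => ht (dg a)) (fun _ => -1) hw D' fun l => by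
      refine (comap_map_eq_of_injective hι _).le (mem_comap.2 ?_)
      have e1 : ι (copw (fun a b => chi q (dg a) (dg b)) y' l) =
          copw (fun a b => chi q (dg a) (dg b)) y l := by
        simp [copw, map_list_sum, ι, hwd, Function.comp_def]
      rw [map_sub, hD', hwd, e1, map_span]
      refine span_mono ?_ (word_mem P hy (fun i => gen_mem P hy h1 hK i (hD _ (hyK i))) l)
      rintro _ ⟨a, b, a1, a2, rfl⟩
      refine ⟨_, ⟨a, b, Or.inr ⟨a1, ?_⟩, rfl⟩, by simp [ι, hwd]⟩
      have e2 : ∀ l : List (Fin n), wt (fun _ => -1) (deg l) = -l.length := fun l => by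
        rw [← Pt.ht_deg]; simp [wt, ht]
      rw [wt_add, e2, e2, e2]
      omega
  refine h4 (P'.noeth_of_sym hs ?_)
  obtain ⟨C, d, hC⟩ := P.finrank_le hg
  obtain ⟨c, hc⟩ : ∃ c : ℕ, ∀ a, ht (dg a) ≤ c := by
    obtain ⟨c, hc⟩ := (Set.finite_range fun a => ht (dg a)).bddAbove
    exact ⟨c.toNat, fun a => (hc ⟨a, rfl⟩).trans (Int.self_le_toNat c)⟩
  refine ⟨C * (c + 1) ^ d, d, fun m S hS => (h3 S).trans ?_⟩
  have : Module.Finite k (wsp k P.x {l | l.length ≤ c * m}) :=
    Module.Finite.iff_fg.2 (fg_span ((List.finite_length_le I _).image _))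
  rw [(equivMapOfInjective _ hinj _).finrank_eq, hsp]
  refine (finrank_mono (span_le.2 ?_)).trans ((hC (c * m)).trans ?_)
  · rintro _ ⟨l, hl, rfl⟩
    have := hS _ hl
    rw [Pt.ht_deg] at this
    exact span_mono (Set.image_mono fun l' h' =>
      le_trans h' (Nat.mul_le_mul_left c (by exact_mod_cast this))) (wd_len P hy hc l)
  · rw [mul_assoc, ← mul_pow]
    exact Nat.mul_le_mul_left _ (Nat.pow_le_pow_left (by nlinarith) _)

end Pool.Agent.Lib.MP_ff61db_al.Pt
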