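import Pool.Agent.Lib.MP_ff61db_al.Pt.Rad
import Pool.Agent.Lib.MP_ff61db_al.Pt.Fg
import Pool.Agent.Lib.MP_ff61db_al.Pt.Sub

/-! The last stage of the tower, and the noetherian property of pre-Nichols algebras. -/

namespace Pool.Agent.Lib.MP_ff61db_al.Pt

open TensorProduct B5

variable {k : Type} [Field k] {I : Type} [Fintype I] [DecidableEq I]

namespace PN
variable {q : I → I → kˣ} {R : Type} [Ring R] [Algebra k R] (P : PN k q R)

theorem hilS_ne_zero {K : Submodule k R} {μ : I → ℤ} {a : R} (hK : a ∈ K) (ha : a ∈ P.piece μ)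
    (h0 : a ≠ 0) : P.hilS K μ ≠ 0 := by
  intro h
  have : FiniteDimensional k (K ⊓ P.piece μ : Submodule k R) :=
    Submodule.finiteDimensional_of_le inf_le_right
  have hb : (K ⊓ P.piece μ : Submodule k R) = ⊥ := Submodule.finrank_eq_zero.1 h
  exact h0 ((Submodule.mem_bot k).1 (hb ▸ (⟨hK, ha⟩ : a ∈ K ⊓ P.piece μ)))

/-- The coinvariants as a subalgebra. -/
noncomputable def coinvAlg {N : Submodule k R} (h : P.RCo N) : Subalgebra k R :=
  (P.coinv N).toSubalgebra (P.one_mem_coinv N) fun _ _ ha hb => P.coinv_mul h ha hb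

theorem alive_of_hil (h : ∀ i, P.hil (e i) ≠ 0) : P.Alive := by
  intro i hi
  refine h i ?_
  have : P.piece (e i) = ⊥ := by
    refine le_bot_iff.1 (Submodule.span_le.2 ?_)
    rintro _ ⟨l, hl, rfl⟩
    have hl' : l = [i] := deg_eq_e.1 hl
    simp [hl', hi]
  unfold hil
  rw [this, finrank_bot]

theorem Alive.hil_ne {P : PN k q R} (h : P.Alive) (i : I) : P.hil (e i) ≠ 0 := by
  have h1 := P.hN_le h (e i)
  rw [hN_e] at h1
  omega

end PN

variable {N : ℕ} {J : Type} [Fintype J] [DecidableEq J] {q₀ : J → J → kˣ}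

theorem Stage.pg_hil (S : Stage k q₀) (hg : PG S.H) : PG S.P.hil := by
  have h1 : S.H = psh S.dg S.P.hil := S.P.chil_eq S.nonneg S.ne
  rw [h1] at hg
  exact hg.of_psh S.nonneg S.ne S.P.hil_cone

theorem Stage.terminal (S : Stage k q₀) (hg : PG S.H) (hfin : {μ | hN S.q μ ≠ 0}.Finite)
    (hrad : ∀ μ, S.P.hilS (S.P.coinv (S.P.JS S.nt)) μ ≠ 0 → Rad q₀ (push S.dg μ)) :
    IsNoetherianRing S.R := by
  classical
  have hco := S.P.JS_rco S.alive S.nt
  have hf : {μ | S.P.hilQ (S.P.JS S.nt) μ ≠ 0}.Finite := by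
    refine hfin.subset fun μ hμ => ?_
    by_cases h : ∀ i, μ i ≠ 0 → i ∈ S.nt
    · have h1 := S.P.JS_hilQ S.alive S.nt μ h
      change hN S.q μ ≠ 0
      exact fun h2 => hμ (h1.trans h2)
    · obtain ⟨i, hi⟩ := not_forall.1 h
      obtain ⟨h1, h2⟩ := Classical.not_imp.1 hi
      exact absurd (S.P.JS_hilQ_zero S.alive S.nt μ h1 h2) hμ
  have hmem := S.P.mem_coinv_JS S.alive S.nt
  have hdl : ∀ j ∈ S.nt, ∀ a ∈ S.P.coinv (S.P.JS S.nt), S.P.dl j a = 0 := by
    intro j hj a ha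
    obtain ⟨T, hT, -⟩ := S.P.exists_sum_pr a
    rw [← hT, map_sum]
    refine Finset.sum_eq_zero fun μ _ => ?_
    by_contra hne
    have h1 := S.P.coinv_graded hco μ a ha
    have h2 : S.P.pr μ a ≠ 0 := fun h => hne (by rw [h, map_zero])
    have h3 := hrad μ (S.P.hilS_ne_zero h1 (S.P.pr_mem μ a) h2)
    have h4 : S.P.dl j (S.P.pr μ a) ∈ S.P.coinv (S.P.JS S.nt) :=
      (hmem _).2 fun i hi => by rw [S.P.del_dl, (hmem _).1 h1 i hi, map_zero]
    have h5 := hrad _ (S.P.hilS_ne_zero h4 (S.P.dl_mem j (S.P.pr_mem μ a)) hne)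
    have h6 := h3.sub h5
    rw [map_sub, sub_sub_cancel, push_e] at h6
    exact hj h6
  obtain ⟨n, y, dg, hy, h0, h1, hy0, hK⟩ := S.P.coinv_fg hco hf
  have hyK : ∀ a, y a ∈ S.P.coinv (S.P.JS S.nt) := fun a => by
    rw [← hK]
    exact Submodule.subset_span ⟨[a], trivial, by simp⟩
  refine S.P.noeth_of_coinv hco hf (S.P.coinvAlg hco) rfl
    (S.P.sub_noeth (S.pg_hil hg) (S.P.coinvAlg hco) y dg hy h0 h1 hK (fun a ha => ?_)
      fun a b => ?_)
  · obtain ⟨s, hs⟩ := S.P.coinv_D (N := S.P.JS S.nt) ha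
    refine mem_range_map _ _ _ (fun φ => (hmem _).2 fun j hj => ?_) fun φ => ?_
    · have h2 : ∀ z, S.P.del j (ctr φ z) = ctr φ ((S.P.del j).rTensor S.R z) := by
        intro z
        induction z with
        | zero => simp
        | add x y hx hy => simp only [map_add, hx, hy]
        | tmul x y => simp
      have h3 : ∀ s, (S.P.dl j).lTensor S.R
          ((S.P.coinv (S.P.JS S.nt)).subtype.lTensor S.R s) = 0 := by
        intro s
        induction s with
        | zero => simp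
        | add x y hx hy => simp only [map_add, hx, hy, add_zero]
        | tmul x y => simp [hdl j hj y y.2]
      rw [h2, S.P.del_D_dl, ← hs, h3, map_zero]
    · rw [← hs]
      clear hs
      induction s with
      | zero => simp
      | add x y hx hy => rw [map_add, map_add]; exact add_mem hx hy
      | tmul x y =>
        rw [LinearMap.lTensor_tmul, ctl_tmul]
        exact Submodule.smul_mem _ _ y.2
  · rw [chi_push, chi_push]
    exact (hrad _ (S.P.hilS_ne_zero (hyK a) (hy a) (hy0 a))).chi _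

theorem Stage.noeth (p : ℕ) [Fact p.Prime] [CharP k p] (hN0 : 0 < N)
    (h : ∀ i j, q₀ i j ^ N = 1) (S : Stage k q₀) (hg : PG S.H) : IsNoetherianRing S.R := by
  have hb : ∀ S' : Stage k q₀, S.Ext S' → S'.nt.ncard ≤ 3 * N ^ Fintype.card J :=
    fun S' h' => Stage.nt_le p hN0 h S' (h'.2.1 ▸ hg)
  have key : ∀ (m : ℕ) (S' : Stage k q₀), S.Ext S' →
      3 * N ^ Fintype.card J - S'.nt.ncard ≤ m → IsNoetherianRing S.R := by
    intro m
    induction m with
    | zero =>
      intro S' h' hm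
      have hg' : PG S'.H := h'.2.1 ▸ hg
      refine h'.2.2 (S'.terminal hg' ?_ fun μ hμ => S'.rad (fun S'' h'' => ?_) hμ)
      · exact hN_finite p hN0 S'.q (fun a b => chi_pow q₀ h _ _)
          ((S'.pg_hil hg').mono (S'.P.hN_le S'.alive))
      · have := hb S'' (h'.trans h'')
        omega
    | succ m ih =>
      intro S' h' hm
      by_cases hmax : ∀ S'', S'.Ext S'' → S''.nt.ncard ≤ S'.nt.ncard
      · have hg' : PG S'.H := h'.2.1 ▸ hg
        refine h'.2.2 (S'.terminal hg' ?_ fun μ hμ => S'.rad hmax hμ)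
        exact hN_finite p hN0 S'.q (fun a b => chi_pow q₀ h _ _)
          ((S'.pg_hil hg').mono (S'.P.hN_le S'.alive))
      · obtain ⟨S'', hS⟩ := not_forall.1 hmax
        obtain ⟨h1, h2⟩ := Classical.not_imp.1 hS
        exact ih S'' (h'.trans h1) (by omega)
  exact key _ S (Stage.Ext.refl S) le_rfl

theorem PN.noeth_tor (p : ℕ) [Fact p.Prime] [CharP k p] (hN0 : 0 < N) {q : I → I → kˣ}
    (h : ∀ i j, q i j ^ N = 1) {R : Type} [Ring R] [Algebra k R] (P : PN k q R) (ha : P.Alive)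
    (hg : PG P.hil) : IsNoetherianRing R := by
  have hq : q = fun a b => chi q (e a) (e b) := by funext a b; rw [chi_e_e]
  have h0 : ∀ i : I, (0 : I → ℤ) ≤ e i := fun i => by simpa using deg_nonneg [i]
  have h1 : ∀ i : I, (e i : I → ℤ) ≠ 0 := fun i hi => by
    have := ht_e i
    rw [hi] at this
    simp [ht] at this
  obtain ⟨P', ha', hg'⟩ : ∃ P' : PN k (fun a b => chi q (e a) (e b)) R, P'.Alive ∧ PG P'.hil := by
    rw [← hq]; exact ⟨P, ha, hg⟩
  refine Stage.noeth p hN0 h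
    { I := I, dg := e, nonneg := h0, ne := h1, orig := fun j => ⟨j, rfl⟩, R := R, P := P',
      alive := ha' } ?_
  have h2 : chil k e P'.x = psh e P'.hil := P'.chil_eq h0 h1
  change PG (chil k e P'.x)
  rw [h2]
  exact hg'.to_psh h0 h1

theorem PN.noeth_left {q : I → I → kˣ} {R : Type} [Ring R] [Algebra k R] (P : PN k q R)
    (hg : PG P.hil) : IsNoetherianRing R := by
  obtain ⟨I', _, _, q', P', ha, hg'⟩ := P.exists_restrict
  obtain ⟨κ, _, p, _, _, N, q'', R', _, _, P'', hN0, hq, hh, hn⟩ := P'.spec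
  exact hn (P''.noeth_tor p hN0 hq (P''.alive_of_hil fun i => hh ▸ ha.hil_ne i) (hh ▸ hg' hg))

theorem PN.noeth {q : I → I → kˣ} {R : Type} [Ring R] [Algebra k R] (P : PN k q R)
    (hg : PG P.hil) : IsNoetherianRing R ∧ IsNoetherianRing Rᵐᵒᵖ := by
  obtain ⟨P', -, h⟩ := P.exists_op
  exact ⟨P.noeth_left hg, P'.noeth_left (h ▸ hg)⟩

end Pool.Agent.Lib.MP_ff61db_al.Pt
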