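import Pool.Agent.Lib.MP_ff61db_al.Pt.Base
import Pool.Agent.Lib.MP_ff61db_al.Pt.Refl
import Pool.Agent.Lib.MP_ff61db_al.Pt.Cas
import Pool.Agent.Lib.MP_ff61db_al.Pt.RDf

/-! The reflection datum of Nichols algebras at roots of unity in positive characteristic. -/

namespace Pool.Agent.Lib.MP_ff61db_al.Pt

variable {k : Type} [Field k] {I : Type} [Fintype I] [DecidableEq I]

/-- Braiding matrices with entries of exponent `N`. -/
def QN (k : Type) [Field k] (I : Type) (N : ℕ) : Type := {q : I → I → kˣ // ∀ i j, q i j ^ N = 1}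

omit [DecidableEq I] in
theorem QN.finite {N : ℕ} (hN0 : 0 < N) : Finite (QN k I N) := by
  have : NeZero N := ⟨hN0.ne'⟩
  let f : QN k I N → I → I → rootsOfUnity N k := fun q i j => ⟨q.1 i j, q.2 i j⟩
  refine Finite.of_injective f fun q q' h => Subtype.ext ?_
  funext i j
  exact congrArg Subtype.val (congrFun (congrFun h i) j)

/-- The reflection datum. -/
noncomputable def rdN (p : ℕ) [Fact p.Prime] [CharP k p] {N : ℕ} (hN0 : 0 < N) :
    RD I (QN k I N) where
  r i q := ⟨rq i q.1, rq_pow q.1 q.2 i⟩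
  m q := mm q.1
  h q := hh q.1
  H q := hN q.1
  two_le q := two_le_hh q.1 (tor_of_pow q.1 p hN0 q.2)
  r_r q i := Subtype.ext (rq_rq q.1 (tor_of_pow q.1 p hN0 q.2) i)
  m_r q _ _ hj := mm_rq q.1 (tor_of_pow q.1 p hN0 q.2) hj
  h_r q := hh_rq q.1
  refl q := refl_hN q.1 (tor_of_pow q.1 p hN0 q.2)

theorem hN_cut (q : I → I → kˣ) : HNcut (hN q) := by
  obtain ⟨B⟩ := exists_NP q
  rw [← B.nich.hil_eq]
  exact B.P.hn_cut

theorem hN_finite {N : ℕ} (p : ℕ) [Fact p.Prime] [CharP k p] (hN0 : 0 < N)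
    (q : I → I → kˣ) (h : ∀ i j, q i j ^ N = 1) (hg : PG (hN q)) :
    {μ | hN q μ ≠ 0}.Finite := by
  have := QN.finite (k := k) (I := I) hN0
  refine (rdN p hN0).finite ⟨q, h⟩ hN0 (fun μ => theta q μ = 1) (fun μ ν => ?_)
    (fun F hF hc μ hμ => casimir q F hF hc μ hμ) (fun i j hj hgd => ?_) (hN_cut q) hg
  · rw [theta_per q h]
  · rw [theta_e_add_e q hj.symm] at hgd
    exact (mm_eq_zero q (tor_of_pow q p hN0 h) i j).2 hgd

/-- The roots along all paths of reflections are bounded. -/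
theorem hN_bounded {N : ℕ} (p : ℕ) [Fact p.Prime] [CharP k p] (hN0 : 0 < N) (q : QN k I N)
    (hfin : {μ | hN q.1 μ ≠ 0}.Finite) :
    ∃ M : ℤ, ∀ l i j, |(rdN p hN0).w q l (e i) j| ≤ M := by
  have := QN.finite (k := k) (I := I) hN0
  exact (rdN p hN0).bounded q hfin

end Pool.Agent.Lib.MP_ff61db_al.Pt
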