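import Pool.Agent.Lib.MP_ff61db_al.Pt.WdvA

/-! Lemma W: a relation between series in a growth window gives a polynomial relation. -/

namespace Pool.Agent.Lib.MP_ff61db_al.Pt.Wd

variable {I : Type*} [Fintype I] [DecidableEq I]

/-- The part of a series on a set of degrees. -/
noncomputable def cut (S : Set (I → ℤ)) (A : HS I) : HS I where
  coeff := S.indicator A.coeff
  isPWO_support' := A.isPWO_support.mono (fun m hm => by
    intro h
    apply hm
    by_cases hS : m ∈ S
    · rw [Set.indicator_of_mem hS]; exact h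
    · exact Set.indicator_of_notMem hS _)

omit [Fintype I] [DecidableEq I] in
theorem cut_coeff_ne {S : Set (I → ℤ)} {A : HS I} {m : I → ℤ} (h : (cut S A).coeff m ≠ 0) :
    m ∈ S ∧ A.coeff m ≠ 0 := by
  by_cases hS : m ∈ S
  · exact ⟨hS, by simpa [cut, hS] using h⟩
  · simp [cut, hS] at h

omit [Fintype I] [DecidableEq I] in
theorem cut_coeff_of_mem {S : Set (I → ℤ)} (A : HS I) {m : I → ℤ} (h : m ∈ S) :
    (cut S A).coeff m = A.coeff m := by simp [cut, h]

omit [Fintype I] [DecidableEq I] in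
theorem cut_add_compl (S : Set (I → ℤ)) (A : HS I) : cut S A + cut Sᶜ A = A := by
  ext m
  by_cases hS : m ∈ S <;> simp [cut, hS]

theorem abs_x_le (x : (I → ℤ) →+ ℝ) (R : ℕ) (m : I → ℤ) (h0 : 0 ≤ m) (h1 : ∀ i, m i ≤ R) :
    |x m| ≤ (∑ i, |x (Pi.single i 1)|) * R := by
  have e : m = ∑ i, m i • (Pi.single i 1 : I → ℤ) := by
    funext j
    simp [Finset.sum_apply, Pi.single_apply]
  conv_lhs => rw [e, map_sum]
  refine (Finset.abs_sum_le_sum_abs _ _).trans ?_
  rw [Finset.sum_mul]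
  refine Finset.sum_le_sum fun i _ => ?_
  rw [map_zsmul, zsmul_eq_mul, abs_mul, mul_comm]
  refine mul_le_mul_of_nonneg_left ?_ (abs_nonneg _)
  rw [abs_of_nonneg (by exact_mod_cast h0 i)]
  exact_mod_cast h1 i

/-- Lattice points of a box in a thin layer. -/
theorem layer_card (x : (I → ℤ) →+ ℝ) (i0 : I) (K : ℕ) (hK : 0 < K) (D : ℝ)
    (hD : D ≤ K * |x (Pi.single i0 1)|) (T : ℕ) (X : ℝ) (s : Finset (I → ℤ))
    (hs : ∀ m ∈ s, 0 ≤ m ∧ (∀ i, m i ≤ T) ∧ X - D < x m ∧ x m ≤ X) :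
    s.card ≤ K * (T + 1) ^ (Fintype.card I - 1) := by
  have hcard : (Fintype.piFinset fun i => if i = i0 then Finset.Ico (0 : ℤ) K
      else Finset.Icc (0 : ℤ) T).card = K * (T + 1) ^ (Fintype.card I - 1) := by
    rw [Fintype.card_piFinset, ← Finset.mul_prod_erase _ _ (Finset.mem_univ i0), if_pos rfl,
      Finset.prod_congr rfl (g := fun _ => T + 1), Finset.prod_const,
      Finset.card_erase_of_mem (Finset.mem_univ _), Finset.card_univ]
    · simp
    · intro i hi
      rw [if_neg (Finset.ne_of_mem_erase hi)]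
      simp
  rw [← hcard]
  have hK' : (0 : ℤ) < K := by exact_mod_cast hK
  refine Finset.card_le_card_of_injOn (fun m => Function.update m i0 (m i0 % K)) ?_ ?_
  · intro m hm
    obtain ⟨h0, h1, _⟩ := hs m hm
    rw [Finset.mem_coe, Fintype.mem_piFinset]
    intro i
    by_cases hi : i = i0
    · subst hi
      simp only [Function.update_self, if_true, Finset.mem_Ico]
      exact ⟨Int.emod_nonneg _ hK'.ne', Int.emod_lt_of_pos _ hK'⟩
    · simp only [Function.update_of_ne hi, if_neg hi, Finset.mem_Icc]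
      exact ⟨h0 i, h1 i⟩
  · intro m hm m' hm' he
    obtain ⟨_, _, h2, h3⟩ := hs m hm
    obtain ⟨_, _, h2', h3'⟩ := hs m' hm'
    have h4 : m i0 % K = m' i0 % K := by simpa using congrFun he i0
    obtain ⟨c, hc⟩ : (K : ℤ) ∣ m i0 - m' i0 := (Int.emod_eq_emod_iff_emod_sub_eq_zero.1 h4 |>
      Int.dvd_of_emod_eq_zero)
    have h5 : m - m' = ((K : ℤ) * c) • (Pi.single i0 1 : I → ℤ) := by
      funext i
      by_cases hi : i = i0
      · subst hi; simp [hc]
      · have := congrFun he i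
        simp only [Function.update_of_ne hi] at this
        simp [hi, this]
    by_cases hc0 : c = 0
    · rw [hc0, mul_zero, zero_smul] at h5
      exact sub_eq_zero.1 h5
    · exfalso
      have h6 : x m - x m' = (K : ℝ) * c * x (Pi.single i0 1) := by
        rw [← map_sub, h5, map_zsmul, zsmul_eq_mul]
        push_cast
        ring
      have h7 : |x m - x m'| < D := abs_sub_lt_iff.2 ⟨by linarith, by linarith⟩
      have h8 : (1 : ℝ) ≤ |(c : ℝ)| := by
        rw [← Int.cast_abs]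
        exact_mod_cast Int.one_le_abs hc0
      rw [h6, abs_mul, abs_mul, abs_of_nonneg (Nat.cast_nonneg K)] at h7
      have h9 : (K : ℝ) * 1 * |x (Pi.single i0 1)| ≤ K * |(c : ℝ)| * |x (Pi.single i0 1)| := by
        gcongr
      linarith

/-- Lemma W. -/
theorem lemW {Ω : Type*} [Fintype Ω] (a b : Ω → HS I) (hrel : ∑ o, a o * b o = 0)
    (hpos : ∀ o, Pos (a o)) (h0 : ∀ o, (a o).coeff 0 = 1)
    (x : (I → ℤ) →+ ℝ) (hx : x ≠ 0) (A B C : ℝ) (hB : 0 ≤ B)
    (ha : ∀ o m, (a o).coeff m ≠ 0 → ((∑ i, m i : ℤ) : ℝ) ≤ A + B * x m)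
    (hb : ∀ o m, (b o).coeff m ≠ 0 → |x m| ≤ C) :
    ∃ p : Ω → LP I, (∀ o, p o ≠ 0) ∧ ∑ o, emb (p o) * b o = 0 := by
  classical
  obtain ⟨i0, hi0⟩ : ∃ i0, x (Pi.single i0 1) ≠ 0 := by
    by_contra h
    push Not at h
    apply hx
    ext i
    simpa using h i
  set L : ℝ := ∑ i, |x (Pi.single i 1)| with hL
  have hL0 : 0 ≤ L := Finset.sum_nonneg fun _ _ => abs_nonneg _
  have hpos0 : 0 < |x (Pi.single i0 1)| := abs_pos.2 hi0
  obtain ⟨K, hK, hKD⟩ : ∃ K : ℕ, 0 < K ∧ 2 * |C| ≤ K * |x (Pi.single i0 1)| := by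
    obtain ⟨K, hK⟩ := exists_nat_ge (2 * |C| / |x (Pi.single i0 1)|)
    refine ⟨K + 1, K.succ_pos, ?_⟩
    rw [div_le_iff₀ hpos0] at hK
    push_cast
    nlinarith
  set n := Fintype.card I with hn
  have hn0 : 0 < n := Fintype.card_pos_iff.2 ⟨i0⟩
  obtain ⟨κ, hκ⟩ := exists_nat_ge ((n : ℝ) + |A| + B * (2 * L + 2 * |C|))
  set R : ℕ := Fintype.card Ω * K * (κ + 1) ^ (n - 1) + 1 with hR
  have hR1 : 1 ≤ R := Nat.le_add_left _ _
  have hR1' : (1 : ℝ) ≤ R := by exact_mod_cast hR1
  set T : ℕ := κ * R with hT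
  set X : ℝ := L * R + 2 * |C| with hX
  set box : Finset (I → ℤ) := Fintype.piFinset fun _ => Finset.Ico (0 : ℤ) R with hbox
  set lay : Finset (I → ℤ) := (Fintype.piFinset fun _ => Finset.Icc (0 : ℤ) T).filter
    fun m => X - 2 * |C| < x m ∧ x m ≤ X with hlay
  have hbc : box.card = R ^ n := by simp [hbox, Fintype.card_piFinset, hn]
  have hlc : lay.card ≤ K * (T + 1) ^ (n - 1) := by
    refine layer_card x i0 K hK (2 * |C|) hKD T X lay ?_
    intro m hm
    simp only [hlay, Finset.mem_filter, Fintype.mem_piFinset, Finset.mem_Icc] at hm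
    exact ⟨fun i => (hm.1 i).1, fun i => (hm.1 i).2, hm.2⟩
  have hlt : Fintype.card Ω * lay.card < box.card := by
    have h1 : (T + 1) ^ (n - 1) ≤ ((κ + 1) * R) ^ (n - 1) :=
      Nat.pow_le_pow_left (by rw [hT]; nlinarith) _
    have h2 : R ^ n = R * R ^ (n - 1) := by
      rw [← pow_succ']
      congr 1
      omega
    have h3 : 0 < R ^ (n - 1) := Nat.pow_pos hR1
    calc Fintype.card Ω * lay.card ≤ Fintype.card Ω * (K * ((κ + 1) * R) ^ (n - 1)) :=
          Nat.mul_le_mul_left _ (hlc.trans (Nat.mul_le_mul_left _ h1))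
      _ = (Fintype.card Ω * K * (κ + 1) ^ (n - 1)) * R ^ (n - 1) := by rw [mul_pow]; ring
      _ < R * R ^ (n - 1) := Nat.mul_lt_mul_of_pos_right (Nat.lt_succ_self _) h3
      _ = box.card := by rw [hbc, h2]
  let f : (box → ℂ) →ₗ[ℂ] (Ω × lay → ℂ) :=
    { toFun := fun c q => ∑ v : box, c v * (a q.1).coeff (q.2 - v)
      map_add' := fun c c' => by funext q; simp [add_mul, Finset.sum_add_distrib]
      map_smul' := fun r c => by funext q; simp [Finset.mul_sum, mul_assoc] }
  obtain ⟨c, hc, hc0⟩ : ∃ c ∈ LinearMap.ker f, c ≠ 0 := by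
    refine (Submodule.ne_bot_iff _).1 (LinearMap.ker_ne_bot_of_finrank_lt ?_)
    simpa using hlt
  set cs : HS I := ∑ v : box, HahnSeries.single (v : I → ℤ) (c v) with hcs
  have hcoef : ∀ (Z : HS I) (m : I → ℤ),
      (cs * Z).coeff m = ∑ v : box, c v * Z.coeff (m - v) := by
    intro Z m
    rw [hcs, Finset.sum_mul, HahnSeries.coeff_sum]
    exact Finset.sum_congr rfl fun v _ => HahnSeries.coeff_single_mul
  have hboxm : ∀ v : box, 0 ≤ (v : I → ℤ) ∧ ∀ i, (v : I → ℤ) i ≤ R := by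
    rintro ⟨v, hv⟩
    simp only [hbox, Fintype.mem_piFinset, Finset.mem_Ico] at hv
    exact ⟨fun i => (hv i).1, fun i => (hv i).2.le⟩
  have hsupp : ∀ o m, (cs * a o).coeff m ≠ 0 → x m ≤ X → ∀ i, 0 ≤ m i ∧ m i ≤ T := by
    intro o m hm hxm
    rw [hcoef] at hm
    obtain ⟨v, _, hv⟩ := Finset.exists_ne_zero_of_sum_ne_zero hm
    have h1 := right_ne_zero_of_mul hv
    have h2 := hpos o _ h1
    have h3 := ha o _ h1
    obtain ⟨h4, h5⟩ := hboxm v
    have h6 := abs_x_le x R v h4 h5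
    have h7 : 0 ≤ m := h4.trans (sub_nonneg.1 h2)
    have h8 : ((∑ i, m i : ℤ) : ℝ) ≤ T := by
      have e1 : (∑ i, m i : ℤ) = ∑ i, (m - v) i + ∑ i, (v : I → ℤ) i := by
        simp
      have e2 : (∑ i, (v : I → ℤ) i : ℤ) ≤ n * R := by
        simpa [hn] using Finset.sum_le_card_nsmul Finset.univ _ _ fun i _ => h5 i
      have e2' : ((∑ i, (v : I → ℤ) i : ℤ) : ℝ) ≤ n * R := by exact_mod_cast e2
      have e3 : x (m - v) ≤ (2 * L + 2 * |C|) * R := by
        rw [map_sub]
        have := (abs_le.1 h6).1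
        have := abs_nonneg C
        nlinarith
      have e4 : B * x (m - v) ≤ B * ((2 * L + 2 * |C|) * R) := mul_le_mul_of_nonneg_left e3 hB
      have e5 : A ≤ |A| * R := by
        have := le_abs_self A
        have := abs_nonneg A
        nlinarith
      have e6 : ((n : ℝ) + |A| + B * (2 * L + 2 * |C|)) * R ≤ κ * R :=
        mul_le_mul_of_nonneg_right hκ (Nat.cast_nonneg _)
      rw [e1, Int.cast_add, hT, Nat.cast_mul]
      nlinarith
    intro i
    refine ⟨h7 i, ?_⟩
    have h9 : m i ≤ ∑ i, m i := Finset.single_le_sum (fun j _ => h7 j) (Finset.mem_univ i)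
    have h10 : (∑ i, m i : ℤ) ≤ T := by exact_mod_cast h8
    exact h9.trans h10
  have hgap : ∀ o m, (cs * a o).coeff m ≠ 0 → x m ≤ X - 2 * |C| ∨ X < x m := by
    intro o m hm
    by_contra hcon
    push Not at hcon
    have hml : m ∈ lay := by
      simp only [hlay, Finset.mem_filter, Fintype.mem_piFinset, Finset.mem_Icc]
      exact ⟨hsupp o m hm hcon.2, hcon⟩
    have := congrFun (LinearMap.mem_ker.1 hc) (o, ⟨m, hml⟩)
    exact hm ((hcoef _ _).trans this)
  set S : Set (I → ℤ) := {m | x m ≤ X - 2 * |C|} with hS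
  have hfin : ∀ o, (cut S (cs * a o)).support.Finite := by
    intro o
    refine (Finset.finite_toSet (Fintype.piFinset fun _ : I => Finset.Icc (0 : ℤ) T)).subset ?_
    intro m hm
    obtain ⟨h1, h2⟩ := cut_coeff_ne hm
    have h3 : x m ≤ X - 2 * |C| := h1
    have := abs_nonneg C
    have h4 : x m ≤ X := by linarith
    rw [Finset.mem_coe, Fintype.mem_piFinset]
    exact fun i => Finset.mem_Icc.2 (hsupp o m h2 h4 i)
  choose p hp using fun o => exists_emb _ (hfin o)
  refine ⟨p, ?_, ?_⟩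
  · obtain ⟨v0, hv0, hmin⟩ := Finset.exists_minimal (s := Finset.univ.filter fun v : box => c v ≠ 0)
      (by
        by_contra h
        rw [Finset.not_nonempty_iff_eq_empty, Finset.filter_eq_empty_iff] at h
        exact hc0 (funext fun v => by simpa using h (Finset.mem_univ v))) |>.imp
      fun v h => (⟨h.1, h.2⟩ : _ ∧ _)
    have hv0' : c v0 ≠ 0 := by simpa using hv0
    intro o h
    have h1 : (cut S (cs * a o)).coeff v0 = 0 := by rw [← hp, h]; simp
    have h2 : (v0 : I → ℤ) ∈ S := by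
      have := (abs_le.1 (abs_x_le x R v0 (hboxm v0).1 (hboxm v0).2)).2
      change x v0 ≤ X - 2 * |C|
      linarith
    rw [cut_coeff_of_mem _ h2, hcoef, Finset.sum_eq_single v0] at h1
    · rw [sub_self, h0, mul_one] at h1
      exact hv0' h1
    · intro v _ hne
      by_contra hz
      have h3' : (v : I → ℤ) ≤ v0 := sub_nonneg.1 (hpos o _ (right_ne_zero_of_mul hz))
      have h3 : v ≤ v0 := h3'
      exact hne (le_antisymm h3 (hmin (by simpa using left_ne_zero_of_mul hz) h3))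
    · simp
  · have h1 : ∑ o, cut S (cs * a o) * b o + ∑ o, cut Sᶜ (cs * a o) * b o = 0 := by
      rw [← Finset.sum_add_distrib]
      simp only [← add_mul, cut_add_compl, mul_assoc, ← Finset.mul_sum, hrel, mul_zero]
    simp only [hp]
    ext m
    by_contra hm
    have h2 : (∑ o, cut Sᶜ (cs * a o) * b o).coeff m ≠ 0 := by
      intro h
      have := congrArg (fun Z : HS I => Z.coeff m) h1
      simp only [HahnSeries.coeff_add, h, add_zero] at this
      exact hm this
    rw [HahnSeries.coeff_sum] at h2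
    rw [HahnSeries.coeff_sum] at hm
    obtain ⟨o, _, ho⟩ := Finset.exists_ne_zero_of_sum_ne_zero hm
    obtain ⟨o', _, ho'⟩ := Finset.exists_ne_zero_of_sum_ne_zero h2
    obtain ⟨u, v, hu, hv, huv⟩ := mul_coeff_ne ho
    obtain ⟨u', v', hu', hv', huv'⟩ := mul_coeff_ne ho'
    have e1 : x u ≤ X - 2 * |C| := (cut_coeff_ne hu).1
    have e2 : X < x u' := (hgap o' u' (cut_coeff_ne hu').2).resolve_left (cut_coeff_ne hu').1
    have e3 := (abs_le.1 (hb o v hv)).2
    have e4 := (abs_le.1 (hb o' v' hv')).1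
    have e5 : x u + x v = x u' + x v' := by rw [← map_add, ← map_add, huv, huv']
    have := le_abs_self C
    linarith

end Pool.Agent.Lib.MP_ff61db_al.Pt.Wd
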