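import Pool.Agent.Lib.MP_ff61db_al.Pt.ZGen

/-! A grouplike element of finite order prime to the characteristic which commutes with the
nontrivial skew primitive elements commutes with the link component of the unit. -/

set_option autoImplicit false

namespace Pool.Agent.Lib.MP_ff61db_al.Pt

open TensorProduct Submodule WithConv

variable {k H : Type} [Field k] [Ring H] [HopfAlgebra k H]

section Comap

variable {τ : H →ₗ[k] H}
  (hτ : ∀ x, Coalgebra.comul (R := k) (τ x) = TensorProduct.map τ τ (Coalgebra.comul x))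

include hτ

theorem comp_mul (θ ψ : Du k H) : toConv ((θ * ψ).ofConv ∘ₗ τ) =
    toConv (θ.ofConv ∘ₗ τ) * toConv (ψ.ofConv ∘ₗ τ) :=
  WithConv.ext (LinearMap.ext fun x => by
    change (θ * ψ).ofConv (τ x) = _
    rw [du_mul, du_mul, hτ, pair_map])

theorem Uw_map {K K' : Submodule k H} (h : ∀ y ∈ K, τ y ∈ K') (a : ℕ) {x : H} (hx : x ∈ Uw K a) :
    τ x ∈ Uw K' a := by
  have : ∀ a, ∀ θ ∈ Jp K' a, toConv (θ.ofConv ∘ₗ τ) ∈ Jp K a := fun a => by
    induction a with
    | zero => exact fun _ _ => trivial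
    | succ a ih =>
      rintro _ ⟨θ, h1, φ, h2, rfl⟩
      exact ⟨_, ih θ h1, toConv (φ.ofConv ∘ₗ τ), fun y hy => h2 _ (h y hy), comp_mul hτ θ φ⟩
  exact mem_Uw.2 fun θ hθ => mem_Uw.1 hx _ (this a θ hθ)

theorem Uw_step {K : Submodule k H} (hK : Cl K) (h : ∀ y ∈ Uw K 2, τ y = y) (a : ℕ) {x : H}
    (hx : x ∈ Uw K (a + 1)) : τ x - x ∈ Uw K a := by
  have top : Cl (⊤ : Submodule k H) := ⟨fun _ _ _ => trivial, fun _ _ _ => trivial⟩
  have d2 : ∀ φ : Du k H, ∀ y ∈ Uw K 2, (toConv (φ.ofConv ∘ₗ τ) - φ).ofConv y = 0 :=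
    fun φ y hy => by change φ.ofConv (τ y) - φ.ofConv y = 0; rw [h y hy, sub_self]
  suffices ∀ θ ∈ Jp K a, ∀ y ∈ Uw K (a + 1), (toConv (θ.ofConv ∘ₗ τ) - θ).ofConv y = 0 from
    mem_Uw.2 fun θ hθ => by rw [map_sub]; exact this θ hθ x hx
  clear hx
  induction a with
  | zero => exact fun θ _ y hy => d2 θ y (Uw_mono hK (by omega) hy)
  | succ a ih =>
    rintro _ ⟨θ, h1, φ, h2, rfl⟩ y hy
    have e : toConv ((θ * φ).ofConv ∘ₗ τ) - θ * φ =
        (toConv (θ.ofConv ∘ₗ τ) - θ) * toConv (φ.ofConv ∘ₗ τ) +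
          θ * (toConv (φ.ofConv ∘ₗ τ) - φ) := by
      rw [comp_mul hτ, sub_mul, mul_sub]; abel
    rw [e, ofConv_add, LinearMap.add_apply, Uw_pair hK top (a := a + 1) (b := 1)
      (ψ := toConv (φ.ofConv ∘ₗ τ)) (fun z hz => ih θ h1 z hz.1) (fun z hz => by
        change φ.ofConv (τ z) = 0
        rw [h z (Uw_mono hK (by omega) hz.1)]
        exact h2 z (Uw_one_le hz.1)) ⟨hy, trivial⟩,
      Uw_pair hK top (a := a) (b := 2) (fun z hz => mem_Uw.1 hz.1 θ h1) (fun z hz => d2 φ z hz.1)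
        ⟨hy, trivial⟩, add_zero]

end Comap

theorem fix_of_step {V : Type} [AddCommGroup V] [Module k V] {τ : Module.End k V} {m : ℕ}
    (hm : (m : k) ≠ 0) (h1 : τ ^ m = 1) {x : V} (h : τ (τ x - x) = τ x - x) : τ x = x := by
  have : ∀ n : ℕ, (τ ^ n) x = x + (n : k) • (τ x - x) := fun n => by
    induction n with
    | zero => simp
    | succ n ih =>
      rw [pow_succ', Module.End.mul_apply, ih, map_add, map_smul, h, Nat.cast_succ, add_smul]
      simp only [one_smul]
      abel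
  have := this m
  rw [h1, Module.End.one_apply, left_eq_add, smul_eq_zero_iff_right hm] at this
  exact sub_eq_zero.1 this

/-- Multiplication by grouplike elements on both sides. -/
noncomputable def tw (a b : GroupLike k H) : H →ₗ[k] H :=
  LinearMap.mulRight k (b : H) ∘ₗ LinearMap.mulLeft k (a : H)

theorem tw_apply (a b : GroupLike k H) (x : H) : tw a b x = a * x * b := rfl

theorem tw_comul (a b : GroupLike k H) (x : H) : Coalgebra.comul (R := k) (tw a b x) =
    TensorProduct.map (tw a b) (tw a b) (Coalgebra.comul x) := by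
  rw [tw_apply, Bialgebra.comul_mul, Bialgebra.comul_mul, gl_comul, gl_comul]
  induction (Coalgebra.comul x : H ⊗[k] H) with
  | zero => simp
  | tmul u v => simp [tw_apply]
  | add s t hs ht => rw [mul_add, add_mul, map_add, hs, ht]

theorem tw_pow (z : GroupLike k H) (m : ℕ) :
    (tw z z⁻¹ : Module.End k H) ^ m = tw (z ^ m) (z ^ m)⁻¹ := by
  induction m with
  | zero => ext x; simp [tw_apply]
  | succ m ih =>
    ext x
    rw [pow_succ, Module.End.mul_apply, ih, pow_succ, mul_inv_rev]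
    simp only [tw_apply, gl_mul, mul_assoc]

variable (k H) in
/-- The grouplike elements which commute with all nontrivial skew primitive elements. -/
def Cen (z : GroupLike k H) : Prop :=
  ∀ (g : GroupLike k H) (v : H), Coalgebra.comul (R := k) v = v ⊗ₜ 1 + (g : H) ⊗ₜ v →
    v ∉ span k {(1 : H), (g : H)} → (z : H) * v = v * z

theorem Cen.comm {z : GroupLike k H} (h : Cen k H z) {g : GroupLike k H}
    (hg : g ∈ Subgroup.closure (skewSupp k H)) : z * g = g * z := by
  induction hg using Subgroup.closure_induction with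
  | one => simp
  | mul a b _ _ ha hb => rw [← mul_assoc, ha, mul_assoc, hb, mul_assoc]
  | inv a _ ha => exact (Commute.inv_right ha).eq
  | mem g hg =>
    obtain ⟨v, h1, h2⟩ := hg
    have h3 := congrArg (Coalgebra.comul (R := k)) (h g v h1 h2)
    rw [Bialgebra.comul_mul, Bialgebra.comul_mul, h1, gl_comul, mul_add, add_mul] at h3
    simp only [Algebra.TensorProduct.tmul_mul_tmul, h g v h1 h2, mul_one, one_mul,
      add_right_inj, ← gl_mul] at h3
    by_contra e
    obtain ⟨f, f1, f0⟩ := exists_coord (z * g)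
    have h4 := congrArg ((TensorProduct.lid k H).toLinearMap ∘ₗ f.rTensor H) h3
    simp only [LinearMap.comp_apply, LinearMap.rTensor_tmul, f1, f0 _ (Ne.symm e)] at h4
    refine h2 ?_
    have h5 : v * z = 0 := by simpa using h4
    rw [← mul_one v, ← gl_mul_inv z, ← mul_assoc, h5, zero_mul]
    exact zero_mem _

theorem Cen.conj {z : GroupLike k H} (h : Cen k H z) (γ : GroupLike k H) :
    Cen k H (γ⁻¹ * z * γ) := fun g v h1 h2 => by
  have i1 := gl_mul_inv γ
  have i2 := gl_inv_mul γ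
  have h3 := h (γ * g * γ⁻¹) (tw γ γ⁻¹ v) (by
    rw [tw_comul, h1, map_add, map_tmul, map_tmul, tw_apply γ γ⁻¹ 1, mul_one, i1]; rfl) fun e => h2 (by
      obtain ⟨a, b, e⟩ := mem_span_pair.1 e
      have := congrArg (tw γ⁻¹ γ) e
      simp only [map_add, map_smul, tw_apply, gl_mul, mul_assoc, i2, mul_one, one_mul,
        ← mul_assoc (γ⁻¹ : GroupLike k H).1 γ.1] at this
      exact mem_span_pair.2 ⟨a, b, this⟩)
  have := congrArg (tw γ⁻¹ γ) h3
  simpa only [tw_apply, gl_mul, mul_assoc, i2, mul_one, one_mul,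
    ← mul_assoc (γ⁻¹ : GroupLike k H).1 γ.1] using this

theorem Cen.pow {z : GroupLike k H} (h : Cen k H z) (n : ℕ) : Cen k H (z ^ n) :=
  fun g v h1 h2 => (Commute.pow_left (h g v h1 h2) n).eq

variable (k H) in
/-- The span of the group generated by the degrees of the skew primitive elements. -/
def KΓ : Submodule k H :=
  span k (GroupLike.val '' (Subgroup.closure (skewSupp k H) : Set (GroupLike k H)))

theorem Cen.fix (hpt : coradical k H = span k {g : H | IsGroupLikeElem k g}) {z : GroupLike k H}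
    (h : Cen k H z) {m : ℕ} (hm : (m : k) ≠ 0) (hz : z ^ m = 1) (a : ℕ) {x : H}
    (hx : x ∈ Uw (KΓ k H) a) : tw z z⁻¹ x = x := by
  classical
  have hK : Cl (KΓ k H) := cl_span_gl _
  have hp : (tw z z⁻¹ : Module.End k H) ^ m = 1 := by
    rw [tw_pow, hz]; ext y; simp [tw_apply]
  have f0 : ∀ g ∈ Subgroup.closure (skewSupp k H), tw z z⁻¹ g = g := fun g hg => by
    rw [tw_apply, ← gl_mul, h.comm hg, ← gl_mul, mul_inv_cancel_right]
  have f1 : ∀ y ∈ KΓ k H, tw z z⁻¹ y = y := fun y hy =>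
    (span_le (p := LinearMap.eqLocus (tw z z⁻¹) LinearMap.id)).2
      (by rintro _ ⟨g, hg, rfl⟩; exact f0 g hg) hy
  have f2 : ∀ y ∈ Uw (KΓ k H) 2, tw z z⁻¹ y = y := fun y hy => by
    obtain ⟨Z, N, -, hy'⟩ := exists_ZS hpt (span k {y}) (fg_span_singleton y)
    have out : ∀ g, g ∉ Subgroup.closure (skewSupp k H) → ∀ u ∈ KΓ k H, (Z.e g).ofConv u = 0 :=
      fun g hg u hu => (span_le (p := LinearMap.ker (Z.e g).ofConv)).2 (by
        rintro _ ⟨c, hc, rfl⟩; exact Z.e0 g c fun e => hg (e ▸ hc)) hu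
    let Y : ZS k H :=
      { C := Z.C ⊓ Uw (KΓ k H) 2
        T := Z.T.filter (· ∈ Subgroup.closure (skewSupp k H))
        e := Z.e
        cl := Z.cl.inf (Uw_cl hK 2)
        mem := fun g hg => ⟨Z.mem g (Finset.mem_filter.1 hg).1, Uw_mono hK (by omega)
          (le_Uw_one hK (subset_span ⟨g, (Finset.mem_filter.1 hg).2, rfl⟩))⟩
        inf := fun u hu => by
          obtain ⟨c, rfl⟩ := (mem_span_image_finset_iff_exists_fun' k).1 (Z.inf ⟨hu.1, hu.2.1⟩)
          refine sum_mem fun g hg => ?_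
          by_cases e : g ∈ Subgroup.closure (skewSupp k H)
          · exact smul_mem _ _ (subset_span ⟨g, Finset.mem_filter.2 ⟨hg, e⟩, rfl⟩)
          · have := mem_Uw.1 hu.2.2 _ ⟨_, ⟨1, trivial, _, out g e, rfl⟩, _, out g e, rfl⟩
            rw [map_sum, Finset.sum_eq_single_of_mem g hg fun b _ hb => by
              rw [map_smul, du_gl, Z.e0 g b hb, mul_zero, smul_zero], map_smul, one_mul, du_gl,
              Z.e1, mul_one, smul_eq_mul, mul_one] at this
            rw [this, zero_smul]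
            exact zero_mem _
        e1 := Z.e1
        e0 := Z.e0 }
    have u1 : ∀ u ∈ Y.U 1, tw z z⁻¹ u = u := fun u hu => f1 u (span_mono (Set.image_mono
      fun g hg => (Finset.mem_filter.1 hg).2) (Y.U_one hu))
    have hy2 : y ∈ Y.U 2 := ⟨Uw_map (τ := LinearMap.id) (by simp)
      (span_mono (Set.image_subset_range _ _)) 2 hy, (hy' (mem_span_singleton_self y)).2, hy⟩
    rw [← sub_add_cancel y (∑ a ∈ Y.T, ∑ b ∈ Y.T, Y.w a b y), map_add, u1 _ (Y.sub_sum_mem hy2),
      map_sum]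
    refine congrArg _ (Finset.sum_congr rfl fun a ha => ?_)
    rw [map_sum]
    refine Finset.sum_congr rfl fun b hb => fix_of_step hm hp ?_
    have ha' := (Finset.mem_filter.1 ha).2
    have hb' := (Finset.mem_filter.1 hb).2
    have h1 := Y.comul_w ha hb le_rfl hy2 (Y := LinearMap.eqLocus
      (TensorProduct.map (tw z z⁻¹) (tw z z⁻¹)) LinearMap.id) fun s s' h1 h2 _ u hu v hv => by
        obtain rfl : s = 0 := by omega
        obtain rfl : s' = 0 := by omega
        rw [LinearMap.mem_eqLocus, map_tmul, u1 u hu, u1 v hv]; rfl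
    rw [LinearMap.mem_eqLocus, map_sub, map_add, map_tmul, map_tmul, f0 a ha', f0 b hb',
      ← tw_comul, LinearMap.id_apply] at h1
    generalize Y.w a b y = w at h1
    have h2 : Coalgebra.comul (R := k) (tw 1 b⁻¹ (tw z z⁻¹ w - w)) =
        tw 1 b⁻¹ (tw z z⁻¹ w - w) ⊗ₜ 1 + (a * b⁻¹ : GroupLike k H).1 ⊗ₜ
          tw 1 b⁻¹ (tw z z⁻¹ w - w) := by
      have : Coalgebra.comul (R := k) (tw z z⁻¹ w - w) =
          (tw z z⁻¹ w - w) ⊗ₜ b.1 + a.1 ⊗ₜ (tw z z⁻¹ w - w) := by
        rw [map_sub, sub_tmul, tmul_sub, sub_eq_iff_eq_add.1 h1]; abel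
      rw [tw_comul, this, map_add, map_tmul, map_tmul]
      simp [tw_apply]
    generalize tw z z⁻¹ w - w = v at h2
    have h3 : tw z z⁻¹ (tw 1 b⁻¹ v) = tw 1 b⁻¹ v := by
      by_cases e : tw 1 b⁻¹ v ∈ span k {(1 : H), (a * b⁻¹ : GroupLike k H).1}
      · refine f1 _ (span_mono ?_ e)
        rintro _ (rfl | rfl)
        exacts [⟨1, one_mem _, rfl⟩, ⟨_, mul_mem ha' (inv_mem hb'), rfl⟩]
      · rw [tw_apply z, h _ _ h2 e, mul_assoc, gl_mul_inv, mul_one]
    have h4 := congrArg (· * b.1) h3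
    have h5 : (b⁻¹ : GroupLike k H).1 * ((z⁻¹ : GroupLike k H).1 * b.1) =
        (z⁻¹ : GroupLike k H).1 := by
      rw [← gl_mul, ← gl_mul, (Commute.inv_left (h.comm hb')).eq, inv_mul_cancel_left]
    simpa only [tw_apply, mul_assoc, h5, gl_inv_mul, GroupLike.val_one, one_mul, mul_one] using h4
  induction a generalizing x with
  | zero => rw [Uw_zero, mem_bot] at hx; rw [hx, map_zero]
  | succ a ih => exact fix_of_step hm hp (ih (Uw_step (tw_comul z z⁻¹) hK f2 a hx))

namespace ZS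

variable (Z : ZS k H)

theorem split {N : ℕ} (hN : Z.C ≤ Uw (KG k H) (N + 1)) (a b : GroupLike k H) {c : ℕ}
    {v : H} (hv : v ∈ Z.U (c + 1)) :
    ∃ x, x * (b⁻¹ : GroupLike k H).1 ∈ Uw (KΓ k H) (N + 1) ∧ Z.w a b v - x ∈ Z.U c := by
  classical
  let A : GroupLike k H → Prop := fun g => g * b⁻¹ ∈ Subgroup.closure (skewSupp k H)
  let ev : GroupLike k H → Du k H →+* k := fun g =>
    { toFun := fun θ => θ.ofConv g
      map_one' := g.2.counit_eq_one
      map_mul' := fun _ _ => du_gl _ _ g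
      map_zero' := rfl
      map_add' := fun _ _ => rfl }
  have ee : ∀ s : Finset (GroupLike k H), ∀ g, ev g (∑ a ∈ s, Z.e a) = if g ∈ s then 1 else 0 :=
    fun s g => by
      rw [map_sum, ← Finset.sum_ite_eq s g fun _ => (1 : k)]
      refine Finset.sum_congr rfl fun a _ => ?_
      split_ifs with e
      exacts [e ▸ Z.e1 g, Z.e0 a g e]
  have k1 : ∀ {φ : Du k H}, (∀ g ∈ Z.T, ev g φ = 0) → Z.Kl 1 φ := kl_one
  obtain ⟨e0, he0⟩ : ∃ e0, e0 = ∑ a ∈ Z.T.filter A, Z.e a := ⟨_, rfl⟩
  obtain ⟨ε, hε⟩ : ∃ ε, ε = 1 - (1 - e0 ^ (N + 1)) ^ (N + 1) := ⟨_, rfl⟩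
  have v0 : ∀ g ∈ Z.T, ev g e0 = if A g then 1 else 0 := fun g hg => by simp [he0, ee, hg]
  have v1 : ∀ g ∈ Z.T, ev g ε = if A g then 1 else 0 := fun g hg => by
    simp only [hε, map_sub, map_pow, map_one, v0 g hg]
    split_ifs <;> simp
  have idem : Z.Kl (N + 1) (ε * (1 - ε)) := by
    have p : ∀ n, Z.Kl n ((e0 * (1 - e0)) ^ n) := fun n => by
      induction n with
      | zero => exact kl_zero _
      | succ n ih =>
        rw [pow_succ]
        exact ih.mul (k1 fun g hg => by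
          simp only [map_mul, map_sub, map_one, v0 g hg]; split_ifs <;> simp) le_rfl
    have h1 := geom_sum_mul_neg (1 - e0 ^ (N + 1)) (N + 1)
    have c1 : Commute e0 (1 - e0) := (Commute.one_right _).sub_right rfl
    have c2 : Commute (1 - e0) (∑ i ∈ Finset.range (N + 1), e0 ^ i) :=
      Commute.sum_right _ _ _ fun i _ => c1.symm.pow_right i
    rw [sub_sub_cancel] at h1
    rw [hε, sub_sub_cancel, ← h1, ← mul_neg_geom_sum e0, c2.mul_pow, ← mul_assoc,
      mul_assoc _ (e0 ^ _), ← c1.mul_pow]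
    exact ((p _).left _).right _
  have blk : ∀ c ≤ N + 1, ∀ θ, Z.Kl c ((1 - ε) * θ * ε) := fun c => by
    induction c with
    | zero => exact fun _ _ => kl_zero _
    | succ c ih =>
      intro hc θ u hu
      rcases Nat.eq_zero_or_pos c with rfl | h0
      · exact k1 (fun g hg => by
          simp only [map_mul, map_sub, map_one, v1 g hg]; split_ifs <;> simp) u hu
      have h1 : ract (1 - ε) (lact ε u) ∈ Z.U c := mem_of_du fun ψ hψ => by
        have a1 : Z.Kl 1 (1 - ε - ∑ a ∈ Z.T.filter (¬A ·), Z.e a) := k1 fun g hg => by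
          simp only [map_sub, map_one, v1 g hg, ee, Finset.mem_filter, hg, true_and]
          split_ifs <;> simp
        have a2 : Z.Kl 1 (ε - e0) := k1 fun g hg => by rw [map_sub, v0 g hg, v1 g hg, sub_self]
        have a3 := (a1.mul (Kl.right hψ ε) (c := c + 1) (by omega)) u hu
        have a4 := ((Kl.left hψ (∑ a ∈ Z.T.filter (¬A ·), Z.e a)).mul a2 le_rfl) u hu
        have a5 : ((∑ a ∈ Z.T.filter (¬A ·), Z.e a) * ψ * e0).ofConv u = 0 := by
          simp only [he0, Finset.sum_mul, Finset.mul_sum, ofConv_sum, LinearMap.sum_apply]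
          refine Finset.sum_eq_zero fun b' hb' => Finset.sum_eq_zero fun a' ha' => ?_
          rw [Finset.mem_filter] at ha' hb'
          rw [← du_w]
          exact hψ _ (Z.link h0 a' ha'.1 b' hb'.1 (fun e => ha'.2 (by
            simpa [A, mul_assoc] using mul_mem e hb'.2)) u hu)
        rw [sub_mul, ← mul_assoc, ← mul_assoc] at a3
        rw [mul_sub] at a4
        simp only [ofConv_sub, LinearMap.sub_apply] at a3 a4
        rw [du_ract, du_lact]
        linear_combination a3 + a4 + a5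
      have h2 := ih (by omega) θ _ h1
      have h3 := ((idem.right (θ * ε * ε)).mono hc) u hu
      have h4 := ((idem.left ((1 - ε) * θ)).mono hc) u hu
      rw [du_ract, du_lact] at h2
      have e : (1 - ε) * θ * ε = (1 - ε) * ((1 - ε) * θ * ε) * ε + ε * (1 - ε) * (θ * ε * ε) +
          (1 - ε) * θ * (ε * (1 - ε)) := by
        simp only [sub_mul, mul_sub, one_mul, mul_one, mul_assoc]; abel
      rw [e, ofConv_add, ofConv_add, LinearMap.add_apply, LinearMap.add_apply, h2, h3, h4,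
        add_zero, add_zero]
  let K : Submodule k H := span k (GroupLike.val '' {g | A g})
  have jp : ∀ c ≤ N + 1, ∀ θ ∈ Jp K c, Z.Kl c (θ * ε) := fun c => by
    induction c with
    | zero => exact fun _ _ _ => kl_zero _
    | succ c ih =>
      rintro hc _ ⟨θ, h1, φ, h2, rfl⟩ u hu
      have a1 := (ih (by omega) θ h1).mul (k1 (φ := φ * ε) fun g hg => by
        rw [map_mul, v1 g hg]
        split_ifs with e
        exacts [(mul_one _).trans (h2 _ (subset_span ⟨g, e, rfl⟩)), mul_zero _]) le_rfl u hu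
      have a2 := (blk _ hc φ).left θ u hu
      have e : θ * φ * ε = θ * ε * (φ * ε) + θ * ((1 - ε) * φ * ε) := by
        simp only [sub_mul, mul_sub, one_mul, mul_assoc]; abel
      rw [e, ofConv_add, LinearMap.add_apply, a1, a2, add_zero]
  have hw := (Z.w_mem a b hv).2
  refine ⟨lact ε (Z.w a b v), ?_, mem_of_du fun θ hθ => ?_⟩
  · have := Uw_map (tw_comul 1 b⁻¹) (K := K) (K' := KΓ k H) (fun y hy =>
      (span_le (p := (KΓ k H).comap (tw 1 b⁻¹))).2 (by
        rintro _ ⟨g, hg, rfl⟩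
        exact subset_span ⟨_, hg, by simp [tw_apply]⟩) hy) (N + 1)
      (x := lact ε (Z.w a b v)) (mem_Uw.2 fun θ hθ => by
        rw [du_lact]; exact jp _ le_rfl θ hθ _ ⟨hN hw, hw⟩)
    simpa [tw_apply] using this
  · have := ((Kl.left hθ (Z.e a)).mul (k1 (φ := (1 - ε) * Z.e b) fun g hg => by
      rw [map_mul, map_sub, map_one, v1 g hg]
      by_cases e : g = b
      · simp [e, A]
      · exact mul_eq_zero_of_right _ (Z.e0 b g e)) le_rfl) v hv
    rw [sub_mul, mul_sub, one_mul, ← mul_assoc, mul_assoc (Z.e a) θ ε] at this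
    rw [map_sub, du_lact, du_w, du_w]
    exact this

end ZS

end Pool.Agent.Lib.MP_ff61db_al.Pt
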