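import Pool.Agent.Lib.MP_ff61db_al.Pt.ZDefs

/-! Words and tensors of words. -/

namespace Pool.Agent.Lib.MP_ff61db_al.Pt

open TensorProduct Submodule

section
variable {I : Type}

theorem zwd_nil {R : Type} [Monoid R] (x : I → R) : wd x [] = 1 := rfl

theorem zwd_cons {R : Type} [Monoid R] (x : I → R) (i : I) (l : List I) :
    wd x (i :: l) = x i * wd x l := by simp [wd]

theorem zwd_one {R : Type} [Monoid R] (x : I → R) (i : I) : wd x [i] = x i := by simp [wd]

theorem zwd_append {R : Type} [Monoid R] (x : I → R) (l l' : List I) :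
    wd x (l ++ l') = wd x l * wd x l' := by simp [wd]

theorem zwl_nil {Λ : Type} [AddCommMonoid Λ] (w : I → Λ) : wl w [] = 0 := rfl

theorem zwl_cons {Λ : Type} [AddCommMonoid Λ] (w : I → Λ) (i : I) (l : List I) :
    wl w (i :: l) = w i + wl w l := by simp [wl]

theorem zwl_one {Λ : Type} [AddCommMonoid Λ] (w : I → Λ) (i : I) : wl w [i] = w i := by simp [wl]

theorem zwl_append {Λ : Type} [AddCommMonoid Λ] (w : I → Λ) (l l' : List I) :
    wl w (l ++ l') = wl w l + wl w l' := by simp [wl]

variable {k : Type} [Field k] {R : Type} [Ring R] [Algebra k R]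

theorem wd_mem_wsp {x : I → R} {S : Set (List I)} {l : List I} (h : l ∈ S) :
    wd x l ∈ wsp k x S := subset_span ⟨l, h, rfl⟩

theorem zwsp_mono {x : I → R} {S S' : Set (List I)} (h : S ⊆ S') : wsp k x S ≤ wsp k x S' :=
  span_mono (Set.image_mono h)

theorem wsp_mul {x : I → R} {S T U : Set (List I)} (h : ∀ a ∈ S, ∀ b ∈ T, a ++ b ∈ U) {u v : R}
    (hu : u ∈ wsp k x S) (hv : v ∈ wsp k x T) : u * v ∈ wsp k x U := by
  induction hu using span_induction with
  | zero => simp
  | add u v _ _ hu hv => rw [add_mul]; exact add_mem hu hv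
  | smul c u _ hu => rw [smul_mul_assoc]; exact smul_mem _ _ hu
  | mem u hu =>
    obtain ⟨a, ha, rfl⟩ := hu
    induction hv using span_induction with
    | zero => simp
    | add u v _ _ hu hv => rw [mul_add]; exact add_mem hu hv
    | smul c u _ hu => rw [mul_smul_comm]; exact smul_mem _ _ hu
    | mem u hu =>
      obtain ⟨b, hb, rfl⟩ := hu
      rw [← zwd_append]
      exact wd_mem_wsp (h a ha b hb)

theorem mem_tsp {x : I → R} {L : List I → List I → Prop} {a b : List I} (h : L a b) :
    wd x a ⊗ₜ[k] wd x b ∈ tsp k x L := subset_span ⟨a, b, h, rfl⟩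

theorem tsp_mono {x : I → R} {L L' : List I → List I → Prop} (h : ∀ a b, L a b → L' a b) :
    tsp k x L ≤ tsp k x L' := span_mono fun _ ⟨a, b, h1, h2⟩ => ⟨a, b, h a b h1, h2⟩

theorem tsp_mul {x : I → R} {L L' L'' : List I → List I → Prop}
    (h : ∀ a b a' b', L a b → L' a' b' → L'' (a ++ a') (b ++ b')) {s t : R ⊗[k] R}
    (hs : s ∈ tsp k x L) (ht : t ∈ tsp k x L') : s * t ∈ tsp k x L'' := by
  induction hs using span_induction with
  | zero => simp
  | add u v _ _ hu hv => rw [add_mul]; exact add_mem hu hv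
  | smul c u _ hu => rw [smul_mul_assoc]; exact smul_mem _ _ hu
  | mem u hu =>
    obtain ⟨a, b, h1, rfl⟩ := hu
    induction ht using span_induction with
    | zero => simp
    | add u v _ _ hu hv => rw [mul_add]; exact add_mem hu hv
    | smul c u _ hu => rw [mul_smul_comm]; exact smul_mem _ _ hu
    | mem u hu =>
      obtain ⟨a', b', h2, rfl⟩ := hu
      rw [Algebra.TensorProduct.tmul_mul_tmul, ← zwd_append, ← zwd_append]
      exact mem_tsp (h _ _ _ _ h1 h2)

theorem tmul_mem_tsp {x : I → R} {S T : Set (List I)} {L : List I → List I → Prop}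
    (h : ∀ a ∈ S, ∀ b ∈ T, L a b) {u v : R} (hu : u ∈ wsp k x S) (hv : v ∈ wsp k x T) :
    u ⊗ₜ[k] v ∈ tsp k x L := by
  induction hu using span_induction with
  | zero => simp
  | add u v _ _ hu hv => rw [add_tmul]; exact add_mem hu hv
  | smul c u _ hu => rw [← smul_tmul']; exact smul_mem _ _ hu
  | mem u hu =>
    obtain ⟨a, ha, rfl⟩ := hu
    induction hv using span_induction with
    | zero => simp
    | add u v _ _ hu hv => rw [tmul_add]; exact add_mem hu hv
    | smul c u _ hu => rw [tmul_smul]; exact smul_mem _ _ hu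
    | mem u hu =>
      obtain ⟨b, hb, rfl⟩ := hu
      exact mem_tsp (h a ha b hb)

/-- A linear map with prescribed values on a family that respects its relations. -/
theorem exists_lin' {α V W : Type} [AddCommGroup V] [Module k V] [AddCommGroup W] [Module k W]
    (v : α → V) (w : α → W) (h : ∀ c : α →₀ k, Finsupp.linearCombination k v c = 0 →
      Finsupp.linearCombination k w c = 0) : ∃ f : V →ₗ[k] W, ∀ a, f (v a) = w a := by
  let L := Finsupp.linearCombination k v
  let f₀ : LinearMap.range L →ₗ[k] W :=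
    ((LinearMap.ker L).liftQ (Finsupp.linearCombination k w) fun c hc => h c hc) ∘ₗ
      L.quotKerEquivRange.symm.toLinearMap
  obtain ⟨f, hf⟩ := LinearMap.exists_extend f₀
  refine ⟨f, fun a => ?_⟩
  have e : v a = L (Finsupp.single a 1) := by simp [L]
  have h1 := LinearMap.congr_fun hf ⟨L (Finsupp.single a 1), LinearMap.mem_range_self _ _⟩
  rw [e]
  refine h1.trans ?_
  simp only [f₀, LinearMap.comp_apply, LinearEquiv.coe_coe,
    LinearMap.quotKerEquivRange_symm_apply_image]
  simp

theorem zexists_pow {V : Submodule k R} (hV : Growth V) (hgen : Algebra.adjoin k (V : Set R) = ⊤)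
    (a : R) : ∃ n, a ∈ V ^ n := by
  have ha : a ∈ Algebra.adjoin k (V : Set R) := hgen ▸ Algebra.mem_top
  induction ha using Algebra.adjoin_induction with
  | mem x hx => exact ⟨1, by rwa [pow_one]⟩
  | algebraMap r => exact ⟨0, by rw [pow_zero]; exact algebraMap_mem r⟩
  | add x y _ _ hx hy =>
    obtain ⟨a, ha⟩ := hx
    obtain ⟨b, hb⟩ := hy
    exact ⟨a + b, add_mem (hV.mono (by omega) ha) (hV.mono (by omega) hb)⟩
  | mul x y _ _ hx hy =>
    obtain ⟨a, ha⟩ := hx
    obtain ⟨b, hb⟩ := hy
    exact ⟨a + b, mul_mem_pow ha hb⟩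

theorem zexists_pow_fin {V : Submodule k R} (hV : Growth V)
    (hgen : Algebra.adjoin k (V : Set R) = ⊤) {ι : Type} [Finite ι] (v : ι → R) :
    ∃ n, ∀ i, v i ∈ V ^ n := by
  choose c hc using zexists_pow hV hgen
  obtain ⟨n, hn⟩ := (Set.finite_range fun i => c (v i)).bddAbove
  exact ⟨n, fun i => hV.mono (hn ⟨i, rfl⟩) (hc _)⟩

end

end Pool.Agent.Lib.MP_ff61db_al.Pt
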