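import Pool.Agent.Lib.MP_ff61db_al.Pt.YA
import Pool.Agent.Lib.MP_ff61db_al.Pt.ZW

/-! Generators that commute, up to terms of smaller weight, with the centraliser of the link
component of the unit. -/

set_option autoImplicit false

namespace Pool.Agent.Lib.MP_ff61db_al.Pt

open TensorProduct Submodule

theorem exists_FD' (k H : Type) [Field k] [Ring H] [HopfAlgebra k H] (h : FGK k H)
    (hpt : coradical k H = span k {g : H | IsGroupLikeElem k g}) :
    ∃ (G : Subgroup (GroupLike k H)) (_ : Group.FG G) (X : Type) (_ : Finite X) (D : FD k G X H),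
      (∀ i, (D.g i).1 ∈ Subgroup.closure (skewSupp k H)) ∧
      ∀ z : G, (∀ a, ∀ y ∈ Uw (KΓ k H) a, tw z.1 z.1⁻¹ y = y) → ∀ i,
        D.φ z * D.x i * D.φ z⁻¹ - D.x i ∈ wsp k (Sum.elim (fun g => D.φ g) D.x)
          {l | wl (Sum.elim (fun _ => 0) D.n) l < D.n i} := by
  obtain ⟨V, hV, hgen⟩ := h
  obtain ⟨Z, N, hC, hVU⟩ := exists_ZS hpt V hV.fg
  have : Module.Finite k Z.C := Module.Finite.iff_fg.2 hC
  have hfg : ∀ c, (Z.U (c + 1)).FG := fun c =>
    Module.Finite.iff_fg.1 (Submodule.finiteDimensional_of_le (S₂ := Z.C) inf_le_right)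
  choose s hs using hfg
  let G := Subgroup.closure (Z.T : Set (GroupLike k H))
  let ι : Z.T → G := fun a => ⟨a.1, Subgroup.subset_closure a.2⟩
  let X : Type := {q : ((c : Fin N) × s (c + 1)) × Z.T × Z.T //
    q.2.1.1 * q.2.2.1⁻¹ ∈ Subgroup.closure (skewSupp k H)}
  let φ : G →* H := (GroupLike.valMonoidHom k H).comp G.subtype
  let x : X → H := fun q => Z.w q.1.2.1 q.1.2.2 q.1.1.2 * φ (ι q.1.2.2)⁻¹
  let n : X → ℕ := fun q => 2 * q.1.1.1 + 1
  let W : ℕ → Submodule k H := fun m =>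
    wsp k (Sum.elim (fun g => φ g) x) {l | wl (Sum.elim (fun _ => 0) n) l ≤ m}
  have Wm : Monotone W := fun a b hab => span_mono (Set.image_mono fun _ h => le_trans h hab)
  have Wφ : ∀ m (g : G), ∀ y ∈ W m, y * φ g ∈ W m := fun m g y hy => by
    simpa [wd] using wsp_mul_wd [Sum.inl g] (S' := {l | wl (Sum.elim (fun _ => 0) n) l ≤ m})
      (fun a ha => by simpa [wl] using ha) hy
  have UW : ∀ c ≤ N, Z.U (c + 1) ≤ W (2 * c - 1) := by
    intro c
    induction c with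
    | zero =>
      refine fun _ => Z.U_one.trans (span_le.2 ?_)
      rintro _ ⟨g, hg, rfl⟩
      exact subset_span ⟨[Sum.inl (ι ⟨g, hg⟩)], by simp [wl], by simp [wd]; rfl⟩
    | succ c ih =>
      intro hc
      have ih := (ih (by omega)).trans (Wm (by omega : 2 * c - 1 ≤ 2 * (c + 1) - 1))
      rw [← hs, span_le]
      intro v hv
      have hv' : v ∈ Z.U (c + 1 + 1) := hs (c + 1) ▸ subset_span hv
      rw [← sub_add_cancel v (∑ a ∈ Z.T, ∑ b ∈ Z.T, Z.w a b v)]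
      refine add_mem (ih (Z.sub_sum_mem hv')) (sum_mem fun a ha => sum_mem fun b hb => ?_)
      by_cases e : a * b⁻¹ ∈ Subgroup.closure (skewSupp k H)
      · let q : X := ⟨(⟨⟨c, hc⟩, v, hv⟩, ⟨a, ha⟩, ⟨b, hb⟩), e⟩
        have h1 : x q ∈ W (2 * (c + 1) - 1) :=
          subset_span ⟨[Sum.inr q], by simp [wl, n, q]; omega, by simp [wd]⟩
        have h2 := Wφ _ (ι ⟨b, hb⟩) _ h1
        rwa [mul_assoc, ← map_mul, inv_mul_cancel, map_one, mul_one] at h2
      · exact ih (Z.link (by omega) a ha b hb e v hv')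
  have hK : coradical k H = KG k H := by
    rw [hpt, KG]
    congr 1
    ext g
    exact ⟨fun h => ⟨⟨g, h⟩, rfl⟩, fun ⟨a, h⟩ => h ▸ a.2⟩
  obtain ⟨M, hM⟩ := Uw_top coradical_cl Z.cl hC fun D h1 h2 h3 => coradical_meets h1
    (Module.Finite.iff_fg.1 (Submodule.finiteDimensional_of_le h2)) h3
  rw [hK] at hM
  refine ⟨G, inferInstance, X, inferInstance,
    { φ := φ
      ind := (linearIndep_groupLikeVal (R := k) (A := H)).comp _ Subtype.val_injective
      x := x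
      n := n
      pos := fun _ => Nat.succ_pos _
      g := fun q => ι q.1.2.1 * (ι q.1.2.2)⁻¹
      span := wsp_univ_top hgen ((hVU.trans (UW N le_rfl)).trans
        (span_mono (Set.image_mono (Set.subset_univ _))))
      Δ := Bialgebra.comulAlgHom k H
      Δφ := fun g => gl_comul g.1
      Δx := ?_ }, fun q => q.2, ?_⟩
  swap
  · rintro z hz ⟨⟨⟨c, v, hv⟩, a, b⟩, e⟩
    obtain ⟨y, h1, h2⟩ := Z.split (hM.trans (Uw_mono cl_KG (Nat.le_succ M))) a b
      (hs (c + 1) ▸ subset_span hv : v ∈ Z.U (c + 1 + 1))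
    have h3 := Wφ _ (ι b)⁻¹ _ (UW c (by omega) h2)
    have h4 : φ z * _ ∈ W (2 * c - 1) := wsp_mul (S := {[Sum.inl z]})
      (by rintro _ rfl l hl; simpa [wl] using hl)
      (subset_span ⟨[Sum.inl z], rfl, zwd_one _ _⟩) (Wφ _ z⁻¹ _ h3)
    have h5 : φ z * (y * φ (ι b)⁻¹) * φ z⁻¹ = y * φ (ι b)⁻¹ := hz _ _ h1
    have h6 := sub_mem h4 h3
    rw [sub_mul, sub_mul, mul_sub, ← mul_assoc, ← mul_assoc (φ z) (y * _), h5,
      sub_sub_sub_cancel_right] at h6
    exact zwsp_mono (fun l hl => by simp only [Set.mem_ofPred_eq, n] at hl ⊢; omega) h6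
  rintro ⟨⟨⟨c, v, hv⟩, a, b⟩, e⟩
  have hv' : v ∈ Z.U (c + 1 + 1) := hs (c + 1) ▸ subset_span hv
  have h1 := Z.comul_w a.2 b.2 (by omega) hv'
    (Y := (tsp k (Sum.elim (fun g => φ g) x) fun a b => wl (Sum.elim (fun _ => 0) n) a +
      wl (Sum.elim (fun _ => 0) n) b < 2 * c + 1).comap
      (LinearMap.mulRight k (φ (ι b)⁻¹ ⊗ₜ[k] φ (ι b)⁻¹))) fun s s' h1 h2 h3 y hy y' hy' => by
    rw [mem_comap, LinearMap.mulRight_apply, Algebra.TensorProduct.tmul_mul_tmul]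
    refine gen_tmul_mem_tsp (fun l hl l' hl' => ?_) (Wφ _ _ _ (UW s (by omega) hy))
      (Wφ _ _ _ (UW s' (by omega) hy'))
    simp only [Set.mem_ofPred_eq] at hl hl'
    omega
  have h2 : (b.1 : H) * φ (ι b)⁻¹ = 1 := gl_mul_inv b.1
  rw [mem_comap, LinearMap.mulRight_apply, sub_mul, add_mul, Algebra.TensorProduct.tmul_mul_tmul,
    Algebra.TensorProduct.tmul_mul_tmul, h2] at h1
  simp only [x, map_mul]
  rw [show Bialgebra.comulAlgHom k H (φ (ι b)⁻¹) = φ (ι b)⁻¹ ⊗ₜ φ (ι b)⁻¹ from gl_comul (ι b)⁻¹.1]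
  exact h1

end Pool.Agent.Lib.MP_ff61db_al.Pt
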