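import Pool.Agent.Lib.MP_ff61db_al.Pt.ZQ
import Pool.Agent.Lib.MP_ff61db_al.Pt.ZGro
import Pool.Agent.Lib.MP_ff61db_al.Pt.Skew
import Pool.Agent.Lib.MP_ff61db_al.Pt.BC

/-! Passage to the quotient by a normal subgroup that commutes with the generators. -/

set_option autoImplicit false

namespace Pool.Agent.Lib.MP_ff61db_al.Pt

open TensorProduct Submodule

variable {k : Type} [Field k] {G : Type} [Group G] {X S : Type} [Ring S] [Algebra k S]

theorem ex_desc {A B M : Type} [AddCommGroup A] [Module k A] [AddCommGroup B] [Module k B]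
    [AddCommGroup M] [Module k M] (π : A →ₗ[k] B) (hπ : Function.Surjective π) (f : A →ₗ[k] M)
    (h : ∀ s, π s = 0 → f s = 0) : ∃ f' : B →ₗ[k] M, ∀ s, f' (π s) = f s := by
  obtain ⟨σ, hσ⟩ := π.exists_rightInverse_of_surjective (LinearMap.range_eq_top.2 hπ)
  refine ⟨f ∘ₗ σ, fun s => ?_⟩
  have := h (σ (π s) - s) (by rw [map_sub, sub_eq_zero]; exact LinearMap.congr_fun hσ _)
  rwa [map_sub, sub_eq_zero] at this

theorem FGK.map {S' : Type} [Ring S'] [Algebra k S'] (h : FGK k S) (π : S →ₐ[k] S')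
    (hπ : Function.Surjective π) : FGK k S' := by
  obtain ⟨V, ⟨h1, h2, C, d, h3⟩, h4⟩ := h
  refine ⟨V.map π.toLinearMap, ⟨h1.map _, ⟨1, h2, map_one π⟩, C, d, fun n => ?_⟩, ?_⟩
  · have := Module.Finite.iff_fg.2 (h1.pow n)
    rw [← Submodule.map_pow]
    exact (finrank_map_le _ _).trans (h3 n)
  · have := AlgHom.map_adjoin π (V : Set S)
    rw [h4, Algebra.map_top, (AlgHom.range_eq_top π).2 hπ] at this
    exact this.symm

namespace GD

variable (D : GD k G X S)

theorem hom_ext {M : Type} [AddCommGroup M] [Module k M] {f g : S →ₗ[k] M}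
    (h : ∀ l, f (wd (Sum.elim (fun g => D.φ g) D.y) l) = g (wd (Sum.elim (fun g => D.φ g) D.y) l)) :
    f = g :=
  LinearMap.ext_on D.span (by rintro _ ⟨l, -, rfl⟩; exact h l)

/-- The subalgebra generated by the conjugates of the generators. -/
def R : Subalgebra k S := Algebra.adjoin k {v | ∃ γ i, v = D.c γ i}

theorem c_mem (γ : G) (i : X) : D.c γ i ∈ D.R := Algebra.subset_adjoin ⟨γ, i, rfl⟩

theorem R_conj (g : G) {r : S} (h : r ∈ D.R) : D.φ g * r * D.φ g⁻¹ ∈ D.R := by
  have inv : D.φ g⁻¹ * D.φ g = 1 := by rw [← map_mul, inv_mul_cancel, map_one]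
  induction h using Algebra.adjoin_induction with
  | mem v hv => obtain ⟨γ, i, rfl⟩ := hv; rw [c_conj]; exact D.c_mem _ _
  | algebraMap a =>
    rw [← Algebra.commutes, mul_assoc, ← map_mul, mul_inv_cancel, map_one, mul_one]
    exact Subalgebra.algebraMap_mem _ a
  | add a b _ _ ha hb => rw [mul_add, add_mul]; exact add_mem ha hb
  | mul a b _ _ ha hb =>
    have := mul_mem ha hb
    rwa [mul_assoc, ← mul_assoc (D.φ g⁻¹), ← mul_assoc (D.φ g⁻¹), inv, one_mul, ← mul_assoc,
      mul_assoc (D.φ g)] at this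

theorem nf (l : List (G ⊕ X)) :
    ∃ r ∈ D.R, ∃ g, wd (Sum.elim (fun g => D.φ g) D.y) l = r * D.φ g := by
  induction l with
  | nil => exact ⟨1, one_mem _, 1, by simp⟩
  | cons a l ih =>
    obtain ⟨r, hr, g, h⟩ := ih
    rw [zwd_cons, h]
    rcases a with a | i
    · refine ⟨_, D.R_conj a hr, a * g, ?_⟩
      rw [mul_assoc _ (D.φ a⁻¹), ← map_mul, inv_mul_cancel_left, mul_assoc]
      rfl
    · exact ⟨_, mul_mem (D.c_mem 1 i) hr, g, by simp [c, mul_assoc]⟩

theorem ind_R {p : S → Prop} (h : ∀ r ∈ D.R, ∀ g, p (r * D.φ g))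
    (ha : ∀ a b, p a → p b → p (a + b)) (s : S) : p s := by
  have hs : s ∈ wsp k (Sum.elim (fun g => D.φ g) D.y) Set.univ := D.span ▸ mem_top
  suffices ∀ c : k, p (c • s) by simpa using this 1
  induction hs using span_induction with
  | mem v hv =>
    obtain ⟨l, -, rfl⟩ := hv
    obtain ⟨r, hr, g, e⟩ := D.nf l
    exact fun c => by rw [e, ← smul_mul_assoc]; exact h _ (D.R.smul_mem hr c) g
  | zero => simpa using h 0 (zero_mem _) 1
  | add a b _ _ h1 h2 => exact fun c => by rw [smul_add]; exact ha _ _ (h1 c) (h2 c)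
  | smul a v _ h1 => exact fun c => by rw [smul_smul]; exact h1 _

theorem pr_φ (m : ℕ) (s : S) (g : G) : D.pr m (s * D.φ g) = D.pr m s * D.φ g :=
  LinearMap.congr_fun (D.hom_ext (f := D.pr m ∘ₗ LinearMap.mulRight k (D.φ g))
    (g := LinearMap.mulRight k (D.φ g) ∘ₗ D.pr m) fun l => by
      have := D.pr_wd m (l ++ [.inl g])
      rw [zwd_append, zwd_one, zwl_append, zwl_one] at this
      simp only [LinearMap.comp_apply, LinearMap.mulRight_apply, D.pr_wd]
      split_ifs with e <;> simpa [e] using this) s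

theorem exists_E (w : G → k) : ∃ E : S →ₗ[k] S, ∀ r ∈ D.R, ∀ g, E (r * D.φ g) = w g • r := by
  obtain ⟨ν₀, h0⟩ := D.coord fun g => w g • D.φ g⁻¹
  let ν : S →ₗ[k] S := ν₀ ∘ₗ D.pr 0
  have p0 : ∀ g, D.pr 0 (D.φ g) = D.φ g := fun g => by
    have := D.pr_wd 0 [.inl g]
    rwa [if_pos (by simp [wl]), zwd_one] at this
  have n1 : ∀ γ i t, ν (D.c γ i * t) = 0 := fun γ i t => by
    have : ν ∘ₗ LinearMap.mulLeft k (D.c γ i) = 0 := D.hom_ext fun l => by
      have := D.pr_wd 0 (.inl γ :: .inr i :: .inl γ⁻¹ :: l)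
      have hi := D.pos i
      rw [if_neg (by simp only [zwl_cons, Sum.elim_inr]; omega)] at this
      simp only [zwd_cons, Sum.elim_inl, Sum.elim_inr] at this
      simp [ν, GD.c, mul_assoc, this]
    exact LinearMap.congr_fun this t
  let Ψ : S ⊗[k] S →ₗ[k] S := LinearMap.mul' k S ∘ₗ ν.lTensor S
  have q1 : ∀ (a : S) (T : S ⊗[k] S), Ψ (a ⊗ₜ 1 * T) = a * Ψ T := by
    intro a T
    induction T with
    | zero => simp
    | tmul u v => simp [Ψ, mul_assoc]
    | add s t hs ht => rw [mul_add, map_add, map_add, hs, ht, mul_add]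
  have q2 : ∀ (a b : S) (T : S ⊗[k] S), (∀ t, ν (b * t) = 0) → Ψ (a ⊗ₜ b * T) = 0 := by
    intro a b T h
    induction T with
    | zero => simp
    | tmul u v => simp [Ψ, h]
    | add s t hs ht => rw [mul_add, map_add, hs, ht, add_zero]
  have q3 : ∀ r ∈ D.R, ∀ t, Ψ (D.Δ (r * t)) = r * Ψ (D.Δ t) := fun r hr => by
    induction hr using Algebra.adjoin_induction with
    | mem v hv =>
      obtain ⟨γ, i, rfl⟩ := hv
      intro t
      rw [map_mul, D.c_cop, add_mul, map_add, q1, q2 _ _ _ (n1 γ i), add_zero]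
    | algebraMap a => intro t; rw [← Algebra.smul_def, ← Algebra.smul_def, map_smul, map_smul]
    | add a b _ _ ha hb => intro t; rw [add_mul, map_add, map_add, ha, hb, add_mul]
    | mul a b _ _ ha hb => intro t; rw [mul_assoc, ha, hb, mul_assoc]
  refine ⟨Ψ ∘ₗ D.Δ.toLinearMap, fun r hr g => ?_⟩
  change Ψ (D.Δ _) = _
  rw [q3 r hr, D.Δφ]
  simp [Ψ, ν, p0, h0, ← map_mul]

theorem quot [Group.FG G] (h : FGK k S) (Z : Subgroup G) [hn : Z.Normal]
    (hZ : ∀ z ∈ Z, ∀ i, D.φ z * D.y i = D.y i * D.φ z) :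
    ∃ (S' : Type) (_ : Ring S') (_ : Algebra k S') (E : GD k (G ⧸ Z) X S'),
      (∀ i, E.g i = QuotientGroup.mk (D.g i)) ∧ FGK k S' ∧
      (IsNoetherianRing S' → IsNoetherianRing S) ∧
      (IsNoetherianRing S'ᵐᵒᵖ → IsNoetherianRing Sᵐᵒᵖ) := by
  classical
  have hc : ∀ z ∈ Z, ∀ r ∈ D.R, D.φ z * r = r * D.φ z := fun z hz r hr => by
    refine Algebra.commute_of_mem_adjoin_of_forall_mem_commute hr ?_
    rintro _ ⟨γ, i, rfl⟩
    have := congrArg (fun t => D.φ γ * t * D.φ γ⁻¹) (hZ _ (hn.conj_mem' z hz γ) i)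
    have inv : ∀ t, D.φ γ * (D.φ γ⁻¹ * t) = t := fun t => by
      rw [← mul_assoc, ← map_mul, mul_inv_cancel, map_one, one_mul]
    have inv' : D.φ γ * D.φ γ⁻¹ = 1 := by simpa using inv 1
    simpa only [c, commute_iff_eq, mul_assoc, map_mul, inv, inv', mul_one] using this
  let I : Ideal S := Ideal.span {s | ∃ z ∈ Z, s = D.φ z - 1}
  have kill : ∀ {M : Type} [AddCommGroup M] (f : S →+ M), (∀ s, ∀ z ∈ Z, f (s * D.φ z) = f s) →
      ∀ s ∈ I, f s = 0 := fun f hf s hs => by
    suffices ∀ c, f (c * s) = 0 by simpa using this 1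
    induction hs using span_induction with
    | mem v hv =>
      obtain ⟨z, hz, rfl⟩ := hv
      intro c
      rw [mul_sub, mul_one, map_sub, hf c z hz, sub_self]
    | zero => simp
    | add a b _ _ h1 h2 => intro c; rw [mul_add, map_add, h1, h2, add_zero]
    | smul a v _ h1 => intro c; rw [smul_eq_mul, ← mul_assoc, h1]
  have : I.IsTwoSided := ⟨fun {a} b ha => by
    rw [← Submodule.Quotient.mk_eq_zero]
    refine kill (I.mkQ.toAddMonoidHom.comp (AddMonoidHom.mulRight b)) (fun s z hz => ?_) a ha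
    change I.mkQ (s * D.φ z * b) = I.mkQ (s * b)
    induction b using D.ind_R with
    | ha a b h1 h2 => rw [mul_add, mul_add, map_add, map_add, h1, h2]
    | h r hr g =>
      refine (Submodule.Quotient.eq I).2 ?_
      have : s * D.φ z * (r * D.φ g) - s * (r * D.φ g) =
          s * r * D.φ g * (D.φ (g⁻¹ * z * g) - 1) := by
        rw [mul_sub, mul_one, mul_assoc _ (D.φ g), ← map_mul, ← mul_assoc g, mul_inv_cancel_left,
          map_mul, mul_assoc s r, ← mul_assoc r, ← hc z hz r hr]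
        simp only [mul_assoc]
      rw [this]
      exact I.mul_mem_left _ (Ideal.subset_span ⟨_, hn.conj_mem' z hz g, rfl⟩)⟩
  let π : S →ₐ[k] S ⧸ I := Ideal.Quotient.mkₐ k I
  have hπ : Function.Surjective π := Ideal.Quotient.mkₐ_surjective k I
  have πz : ∀ z ∈ Z, π (D.φ z) = 1 := fun z hz =>
    (Ideal.Quotient.eq.2 (Ideal.subset_span ⟨z, hz, rfl⟩) : π (D.φ z) = π 1).trans (map_one π)
  have desc : ∀ {M : Type} [AddCommGroup M] [Module k M] (f : S →ₗ[k] M),
      (∀ s, ∀ z ∈ Z, f (s * D.φ z) = f s) → ∃ f' : (S ⧸ I) →ₗ[k] M, ∀ s, f' (π s) = f s :=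
    fun f hf => ex_desc π.toLinearMap hπ f fun s hs =>
      kill f.toAddMonoidHom hf s (Ideal.Quotient.eq_zero_iff_mem.1 hs)
  have exE : ∀ c : G ⧸ Z, ∃ E : (S ⧸ I) →ₗ[k] S, ∀ r ∈ D.R, ∀ g,
      E (π (r * D.φ g)) = if (g : G ⧸ Z) = c then r else 0 := fun c => by
    obtain ⟨E, hE⟩ := D.exists_E fun g => if (g : G ⧸ Z) = c then 1 else 0
    obtain ⟨E', hE'⟩ := desc E fun s z hz => by
      induction s using D.ind_R with
      | ha a b h1 h2 => rw [add_mul, map_add, map_add, h1, h2]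
      | h r hr g => rw [mul_assoc, ← map_mul, hE r hr, hE r hr, QuotientGroup.mk_mul_of_mem g hz]
    exact ⟨E', fun r hr g => by rw [hE', hE r hr]; split_ifs <;> simp⟩
  choose E hE using exE
  let φ : G ⧸ Z →* S ⧸ I := QuotientGroup.lift Z (π.toRingHom.toMonoidHom.comp D.φ) πz
  have wdq : ∀ l, wd (Sum.elim (fun g => φ g) fun i => π (D.y i)) l =
      π (wd (Sum.elim (fun g => D.φ g) D.y) (l.map (Sum.map Quotient.out id))) := fun l => by
    induction l with
    | nil => simp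
    | cons a l ih =>
      rw [List.map_cons, zwd_cons, zwd_cons, map_mul, ih]
      rcases a with a | i
      · conv_lhs => rw [← QuotientGroup.out_eq' a]
        rfl
      · rfl
  have wdq' : ∀ l, π (wd (Sum.elim (fun g => D.φ g) D.y) l) = wd (Sum.elim (fun g => φ g)
      fun i => π (D.y i)) (l.map (Sum.map QuotientGroup.mk id)) := fun l => by
    induction l with
    | nil => simp
    | cons a l ih => rw [List.map_cons, zwd_cons, zwd_cons, map_mul, ih]; rcases a <;> rfl
  have wlq : ∀ l : List ((G ⧸ Z) ⊕ X), wl (Sum.elim (fun _ => 0) D.n)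
      (l.map (Sum.map (Quotient.out : G ⧸ Z → G) id)) = wl (Sum.elim (fun _ => 0) D.n) l :=
    fun l => by
      induction l with
      | nil => rfl
      | cons a l ih => rw [List.map_cons, zwl_cons, zwl_cons, ih]; rcases a <;> rfl
  choose pr hpr using fun m => desc (π.toLinearMap ∘ₗ D.pr m) fun s z hz => by
    simp [D.pr_φ, πz z hz]
  let Δ : (S ⧸ I) →ₐ[k] (S ⧸ I) ⊗[k] (S ⧸ I) := Ideal.Quotient.liftₐ I
    ((Algebra.TensorProduct.map π π).comp D.Δ) (kill
      ((Algebra.TensorProduct.map π π).comp D.Δ).toRingHom.toAddMonoidHom fun s z hz => by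
        simp [D.Δφ, πz z hz, ← Algebra.TensorProduct.one_def])
  have hΔ : ∀ s, Δ (π s) = Algebra.TensorProduct.map π π (D.Δ s) := fun s => rfl
  have h1 : (1 : S) ≠ 0 := by simpa using D.ind.ne_zero 1
  have ER : ∀ t, E 1 t ∈ D.R := fun t => by
    obtain ⟨s, rfl⟩ := hπ t
    induction s using D.ind_R with
    | ha a b h1 h2 => rw [map_add, map_add]; exact add_mem h1 h2
    | h r hr g => rw [hE _ r hr]; split_ifs; exacts [hr, zero_mem _]
  let f : D.R.toSubring →+* S ⧸ I := π.toRingHom.comp D.R.toSubring.subtype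
  let r : (S ⧸ I) →+ D.R.toSubring := (E 1).toAddMonoidHom.codRestrict _ ER
  have r1 : ∀ u, r (f u) = u := fun u => Subtype.ext
    (show E 1 (π u.1) = u.1 by simpa using hE 1 u.1 u.2 1)
  have r2 : ∀ t, ∀ v ∈ D.R, E 1 (t * π v) = E 1 t * v ∧ E 1 (π v * t) = v * E 1 t :=
    fun t v hv => by
      obtain ⟨s, rfl⟩ := hπ t
      induction s using D.ind_R with
      | ha a b h1 h2 => simp only [map_add, add_mul, mul_add, h1, h2, and_self]
      | h u hu g =>
        have e : u * D.φ g * v = u * (D.φ g * v * D.φ g⁻¹) * D.φ g := by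
          simp [mul_assoc, ← map_mul]
        rw [← map_mul, ← map_mul, ← mul_assoc, e, hE _ _ (mul_mem hu (D.R_conj g hv)),
          hE _ _ (mul_mem hv hu), hE _ _ hu]
        split_ifs with e'
        · rw [hc g ((QuotientGroup.eq_one_iff g).1 e') v hv]
          simp [mul_assoc, ← map_mul]
        · simp
  have sk := skew_noeth D.R.toSubring D.φ.toHomUnits
    (fun g r hr => by simpa [← map_inv] using D.R_conj g hr)
    (eq_top_iff.2 fun s _ => D.ind_R (p := fun s => s ∈ AddSubgroup.closure _)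
      (fun r hr g => AddSubgroup.subset_closure (by exact ⟨r, hr, g, rfl⟩)) (fun _ _ => add_mem) s)
    (vnil_of_fgk D.φ D.ind h)
  refine ⟨S ⧸ I, inferInstance, inferInstance,
    { φ := φ, ind := ?_, y := fun i => π (D.y i), n := D.n, pos := D.pos
      g := fun i => D.g i, span := ?_, pr := pr, pr_wd := fun m l => ?_, Δ := Δ
      Δφ := fun g => ?_, Δy := fun i => ?_ }, fun _ => rfl, h.map π hπ,
    fun n => sk.1 (BC.noeth_down f r r1 (fun c v => Subtype.ext (r2 c v.1 v.2).1) n),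
    fun n => sk.2 (BC.noeth_down f.op (AddMonoidHom.mulOp r) (fun u => congrArg _ (r1 _))
      (fun c v => congrArg MulOpposite.op (Subtype.ext (r2 c.unop v.unop.1 v.unop.2).2)) n)⟩
  · rw [linearIndependent_iff']
    intro s c hs g hg
    have h2 : ∀ a : G ⧸ Z, E g (φ a) = if a = g then 1 else 0 := fun a => by
      obtain ⟨a, rfl⟩ := QuotientGroup.mk_surjective a
      exact (congrArg (fun t => E g (π t)) (one_mul _).symm).trans (hE g 1 (one_mem _) a)
    have := congrArg (E g) hs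
    simpa [h2, hg, h1] using this
  · refine eq_top_iff.2 fun t _ => ?_
    obtain ⟨s, rfl⟩ := hπ t
    refine mem_comap.1 ((span_le.2 ?_ : wsp k (Sum.elim (fun g => D.φ g) D.y) Set.univ ≤
      comap π.toLinearMap (wsp k (Sum.elim (fun g => φ g) fun i => π (D.y i)) Set.univ))
        (D.span.ge (mem_top (x := s))))
    rintro _ ⟨l, -, rfl⟩
    exact mem_comap.2 ((wdq' l).symm ▸ wd_mem_wsp trivial)
  · rw [wdq, hpr, LinearMap.comp_apply, D.pr_wd, wlq]
    split_ifs <;> simp
  · obtain ⟨g, rfl⟩ := QuotientGroup.mk_surjective g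
    exact (hΔ (D.φ g)).trans (by rw [D.Δφ]; rfl)
  · rw [hΔ, D.Δy, map_add, Algebra.TensorProduct.map_tmul, map_one]
    rfl

end GD

end Pool.Agent.Lib.MP_ff61db_al.Pt
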