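import Pool.Agent.Lib.MP_ff61db_al.Pt.YMain

/-! The theorem over an arbitrary field. -/

set_option autoImplicit false

namespace Pool.Agent.Lib.MP_ff61db_al.Pt

open Submodule TensorProduct BC

section
variable {k : Type} [Field k] {K : Type} [Field K] [Algebra k K] {H : Type} [Ring H]
  [HopfAlgebra k H]

theorem ct_mul (l : K →ₗ[k] k) (a b : H) (t : K ⊗[k] H) :
    ct l ((1 : K) ⊗ₜ[k] a * t * (1 : K) ⊗ₜ[k] b) = a * ct l t * b := by
  induction t with
  | zero => simp
  | add s t hs ht => simp only [mul_add, add_mul, map_add, hs, ht]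
  | tmul c x => simp [ct_tmul]

theorem γ_inj : Function.Injective (γ K H : GroupLike k H → _) := fun _ _ e => GroupLike.ext
  (Algebra.TensorProduct.includeRight_injective (algebraMap k K).injective (congrArg (·.1) e))

theorem Cen.bc (hpt : coradical k H = span k {g : H | IsGroupLikeElem k g}) {z : GroupLike k H}
    (h : Cen k H z) : Cen K (K ⊗[k] H) (γ K H z) := fun g v h1 h2 => by
  obtain ⟨g, hg, rfl⟩ := skew_down hpt (⟨v, h1, h2⟩ : g ∈ skewSupp K (K ⊗[k] H))
  have h3 : (Coalgebra.comul (R := k) (A := H)).baseChange K v =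
      ((mk k H H).flip 1 + mk k H H g.1).baseChange K v := by
    apply (AlgebraTensorModule.distribBaseChange k K H H).injective
    rw [← comul_bc, h1]
    clear h1 h2
    induction v with
    | zero => simp
    | add s t hs ht => rw [map_add, map_add, ← hs, ← ht, add_tmul, tmul_add]; abel
    | tmul a y => simpa [Algebra.TensorProduct.one_def, γ] using mv a g.1 y
  have h4 : Commute z.1 g.1 := congrArg GroupLike.val (h.comm (Subgroup.subset_closure hg))
  have := mem_bc (W := ⊥) (t := (γ K H z).1 * v * 1 - 1 * v * (γ K H z).1) fun l => by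
    change ct l (1 ⊗ₜ _ * _ * 1 ⊗ₜ _ - 1 ⊗ₜ _ * _ * 1 ⊗ₜ _) = 0
    rw [map_sub, ct_mul, ct_mul, mul_one, one_mul, sub_eq_zero]
    by_cases h5 : ct l v ∈ span k {(1 : H), g.1}
    · obtain ⟨a, b, e⟩ := mem_span_pair.1 h5
      exact e ▸ ((Commute.one_right _).smul_right a).add_right (h4.smul_right b)
    · exact h g _ ((ct_bc l _ v).symm.trans ((congrArg (ct l) h3).trans (ct_bc l _ v))) h5
  rwa [baseChange_bot, mem_bot, mul_one, one_mul, sub_eq_zero] at this

theorem FGK.bc (h : FGK k H) : FGK K (K ⊗[k] H) := by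
  obtain ⟨V, ⟨v1, v2, C, d, v4⟩, v3⟩ := h
  have fin : ∀ W : Submodule k H, W.FG → Module.Finite K (W.baseChange K) := fun W h =>
    have := Module.Finite.iff_fg.2 h
    Module.Finite.range _
  refine ⟨V.baseChange K, ⟨Module.Finite.iff_fg.1 (fin V v1), tmul_mem_baseChange_of_mem 1 v2,
    C, d, fun n => ?_⟩, adj_bc v3⟩
  have := Module.Finite.iff_fg.2 (v1.pow n)
  have := fin _ (v1.pow n)
  exact (finrank_mono (pow_bc V n)).trans (((LinearMap.finrank_range_le _).trans_eq
    Module.finrank_baseChange).trans (v4 n))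

theorem noeth_bc (h : IsNoetherianRing (K ⊗[k] H) ∧ IsNoetherianRing (K ⊗[k] H)ᵐᵒᵖ) :
    IsNoetherianRing H ∧ IsNoetherianRing Hᵐᵒᵖ := by
  obtain ⟨l, hl⟩ := Module.Projective.exists_dual_eq_one k (one_ne_zero : (1 : K) ≠ 0)
  have h1 : ∀ u : H, ct l ((1 : K) ⊗ₜ[k] u) = u := fun u => by rw [ct_tmul, hl, one_smul]
  let f : H →+* K ⊗[k] H := (Algebra.TensorProduct.includeRight : H →ₐ[k] K ⊗[k] H)
  refine ⟨noeth_down f (ct l).toAddMonoidHom h1 (fun c v => ?_) h.1,
    noeth_down f.op (AddMonoidHom.mulOp (ct l).toAddMonoidHom) (fun u => congrArg _ (h1 _))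
      (fun c v => congrArg MulOpposite.op
        (?_ : ct l (f v.unop * c.unop) = v.unop * ct l c.unop)) h.2⟩
  · simpa [f, ← Algebra.TensorProduct.one_def] using ct_mul l 1 v c
  · simpa [f, ← Algebra.TensorProduct.one_def] using ct_mul l v.unop 1 c.unop

end

theorem main3 (k H : Type) [Field k] [Ring H] [HopfAlgebra k H] (hgk : FGK k H)
    (hpt : coradical k H = span k {g : H | IsGroupLikeElem k g}) (p : ℕ)
    (hp : p = ringExpChar k ∨
      (p.Prime ∧ ringChar k = 0 ∧ Finite (Subgroup.closure (skewSupp k H))))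
    (hyp : ∀ u ∈ ⁅Subgroup.closure (skewSupp k H), Subgroup.closure (skewSupp k H)⁆,
      IsOfFinOrder u → ∃ n : ℕ, Cen k H (u ^ p ^ n)) :
    IsNoetherianRing H ∧ IsNoetherianRing Hᵐᵒᵖ := by
  let K := AlgebraicClosure k
  have h2 : Subgroup.closure (skewSupp K (K ⊗[k] H)) ≤
      (Subgroup.closure (skewSupp k H)).map (γ K H) := by
    rw [MonoidHom.map_closure]; exact Subgroup.closure_mono (skew_down hpt)
  refine noeth_bc (main2 K _ hgk.bc (pt_bc hpt) p (hp.imp (fun e => ?_) fun e => ?_)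
    fun u hu ho => ?_)
  · have := ringExpChar.expChar k
    have := expChar_of_injective_algebraMap (algebraMap k K).injective (ringExpChar k)
    rw [e, ringExpChar.eq K (ringExpChar k)]
  · have := e.2.2
    have : Finite ((Subgroup.closure (skewSupp k H)).map (γ (k := k) K H)) :=
      (Set.toFinite (Subgroup.closure (skewSupp k H) : Set (GroupLike k H))).image (γ K H)
    exact ⟨e.1, (Algebra.ringChar_eq k K).symm.trans e.2.1,
      Finite.of_injective _ (Subgroup.inclusion_injective h2)⟩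
  · have h3 := Subgroup.commutator_mono h2 h2 hu
    rw [← Subgroup.map_commutator] at h3
    obtain ⟨g, hg, rfl⟩ := h3
    exact (hyp g hg ((γ_inj (k := k) (K := K) (H := H)).isOfFinOrder_iff.1 ho)).imp
      fun n hn => map_pow (γ K H) g _ ▸ hn.bc hpt

end Pool.Agent.Lib.MP_ff61db_al.Pt
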