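import Pool.Agent.Lib.MP_ff61db_al.Pt.YEnd

/-! Characteristic zero, degrees of finite order modulo the centre. -/

set_option autoImplicit false

namespace Pool.Agent.Lib.MP_ff61db_al.Pt

open Submodule TensorProduct BC

theorem fin_of_torsion {G : Type} [Group G] [Group.FG G] [Finite (commutator G)]
    (h : ∀ g : G, IsOfFinOrder g) : Finite G := by
  have hs : Function.Surjective (Abelianization.of (G := G)) := QuotientGroup.mk_surjective
  have := Group.fg_of_surjective hs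
  have : Finite (G ⧸ commutator G) :=
    CommGroup.finite_of_fg_isMulTorsion (Abelianization G) fun a => by
      obtain ⟨g, rfl⟩ := hs a
      exact Abelianization.of.isOfFinOrder (h g)
  exact Finite.of_subgroup_quotient (commutator G)

theorem GD.redc {k : Type} [Field k] {G : Type} [Group G] {X S : Type} [Ring S] [Algebra k S]
    [Group.FG G] [Finite X] (D : GD k G X S) (h : FGK k S) (p : ℕ) (N : Subgroup G)
    [hN : N.Normal] (hg : ∀ i, D.g i ∈ N)
    (hp : ∀ u ∈ ⁅N, N⁆, IsOfFinOrder u → ∃ n : ℕ, ∀ γ i,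
      D.φ (γ * u ^ p ^ n * γ⁻¹) * D.y i * D.φ (γ * u ^ p ^ n * γ⁻¹)⁻¹ = D.y i) :
    ∃ (G' : Type) (_ : Group G') (_ : Group.FG G') (S' : Type) (_ : Ring S') (_ : Algebra k S')
      (E : GD k G' X S') (N' : Subgroup G') (_ : N'.Normal), (∀ i, E.g i ∈ N') ∧ PComm p N' ∧
      ((∀ u ∈ N, ∃ m : ℕ, 0 < m ∧ ∀ γ i,
        D.φ (γ * u ^ m * γ⁻¹) * D.y i * D.φ (γ * u ^ m * γ⁻¹)⁻¹ = D.y i) → Finite N') ∧
      FGK k S' ∧ (IsNoetherianRing S' → IsNoetherianRing S) ∧
      (IsNoetherianRing S'ᵐᵒᵖ → IsNoetherianRing Sᵐᵒᵖ) := by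
  classical
  set T : Set G := {d | ∃ γ i, D.c γ i ≠ 0 ∧ d = γ * D.g i * γ⁻¹} with hT
  have Tconj : ∀ δ, ∀ d ∈ T, δ * d * δ⁻¹ ∈ T := by
    rintro δ _ ⟨γ, i, h1, rfl⟩
    refine ⟨δ * γ, i, fun e => h1 ?_, by group⟩
    have := D.c_conj δ⁻¹ (δ * γ) i
    rwa [e, mul_zero, zero_mul, inv_mul_cancel_left, eq_comm] at this
  set Γ := Subgroup.closure T with hΓ
  have Γn : Γ.Normal := ⟨fun a ha δ => by
    induction ha using Subgroup.closure_induction with
    | mem a ha => exact Subgroup.subset_closure (Tconj δ a ha)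
    | one => simp
    | mul a b _ _ ha hb => simpa [mul_assoc] using mul_mem ha hb
    | inv a _ ha => simpa [mul_assoc] using inv_mem ha⟩
  have : Finite (commutator Γ) := finite_commutator (D.finite_deg h) Tconj
  have : Finite (⁅Γ, Γ⁆ : Subgroup G) := Subgroup.map_subtype_commutator Γ ▸ Finite.of_surjective _
    (Γ.subtype.subgroupMap_surjective (commutator Γ))
  have ΓN : Γ ≤ N := (Subgroup.closure_le _).2 (by
    rintro _ ⟨γ, i, -, rfl⟩; exact hN.conj_mem _ (hg i) γ)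
  let C : Subgroup G :=
    { carrier := {z | ∀ i, D.φ z * D.y i * D.φ z⁻¹ = D.y i}
      one_mem' := fun i => by simp
      mul_mem' := fun {a b} ha hb i => (D.c_conj a b i).symm.trans (by rw [GD.c, hb, ha])
      inv_mem' := fun {a} ha i => by
        have := D.c_conj a⁻¹ a i
        rwa [GD.c, ha, inv_mul_cancel, GD.c, inv_one, map_one, one_mul, mul_one] at this }
  let D' : GD k G X S :=
    { D with
      g := fun i => if D.y i = 0 then 1 else D.g i
      Δy := fun i => by split_ifs with e; exacts [by simp [e], D.Δy i] }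
  obtain ⟨S', _, _, E, e1, e2⟩ := D'.quot h C.normalCore fun z hz i => by
    have := congrArg (· * D.φ z) (C.normalCore_le hz i)
    simpa only [mul_assoc, D.inv_mul, mul_one] using this
  refine ⟨_, inferInstance, inferInstance, S', inferInstance, inferInstance, E,
    Γ.map (QuotientGroup.mk' _), Γn.map _ (QuotientGroup.mk'_surjective _), fun i => ?_,
    fun u hu _ => ?_, fun hf => ?_, e2⟩
  · refine ⟨_, ?_, (e1 i).symm⟩
    change (if D.y i = 0 then 1 else D.g i) ∈ Γ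
    split_ifs with e
    exacts [one_mem _, Subgroup.subset_closure ⟨1, i, by simpa [GD.c] using e, by simp⟩]
  · rw [← Subgroup.map_commutator] at hu
    obtain ⟨u, hu, rfl⟩ := hu
    obtain ⟨n, hn⟩ := hp u (Subgroup.commutator_mono ΓN ΓN hu)
      ((⁅Γ, Γ⁆ : Subgroup G).subtype.isOfFinOrder
        (isOfFinOrder_of_finite (⟨u, hu⟩ : (⁅Γ, Γ⁆ : Subgroup G))))
    exact ⟨n, by rw [← map_pow]; exact (QuotientGroup.eq_one_iff _).2 hn⟩
  · have e : Γ.map (QuotientGroup.mk' C.normalCore) =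
        Subgroup.closure (QuotientGroup.mk' C.normalCore '' T) := MonoidHom.map_closure _ _
    have h1 : (QuotientGroup.mk' C.normalCore '' T).Finite := (D.finite_deg h).image _
    have := finite_commutator h1 (by
      rintro γ _ ⟨d, hd, rfl⟩
      obtain ⟨γ, rfl⟩ := QuotientGroup.mk'_surjective _ γ
      exact ⟨_, Tconj γ d hd, by rw [map_mul, map_mul, map_inv]⟩)
    have := h1.to_subtype
    rw [e]
    refine fin_of_torsion fun g => ?_
    obtain ⟨u, hu, e'⟩ := e.ge g.2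
    obtain ⟨m, hm, hc⟩ := hf u (ΓN hu)
    refine isOfFinOrder_iff_pow_eq_one.2 ⟨m, hm, Subtype.ext ?_⟩
    rw [SubgroupClass.coe_pow, ← e', ← map_pow]
    exact (QuotientGroup.eq_one_iff _).2 hc

theorem main2c (k H : Type) [Field k] [IsAlgClosed k] [Ring H] [HopfAlgebra k H]
    (hgk : FGK k H) (hpt : coradical k H = span k {g : H | IsGroupLikeElem k g}) (p : ℕ)
    (h1 : p.Prime) (h2 : ringChar k = 0)
    (h3 : ∀ g ∈ Subgroup.closure (skewSupp k H), ∃ m : ℕ, 0 < m ∧
      ∀ x : H, (g ^ m).1 * x = x * (g ^ m).1)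
    (hyp : ∀ u ∈ ⁅Subgroup.closure (skewSupp k H), Subgroup.closure (skewSupp k H)⁆,
      IsOfFinOrder u → ∃ n : ℕ, Cen k H (u ^ p ^ n)) :
    IsNoetherianRing H ∧ IsNoetherianRing Hᵐᵒᵖ := by
  obtain ⟨G, _, X, _, D, hg, hc⟩ := exists_FD' k H hgk hpt
  obtain ⟨S, _, _, E, e1, e2, e3, e4, e5⟩ := D.exists_GD' hgk
  have := (normal_skew (k := k) (H := H)).comap G.subtype
  have : Fact p.Prime := ⟨h1⟩
  have : CharP k 0 := h2 ▸ ringChar.charP k
  have : CharZero k := CharP.charP_to_charZero k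
  obtain ⟨G', _, _, S', _, _, E', N, _, f1, f2, f3, f4, f5, f6⟩ :=
    E.redc e2 p ((Subgroup.closure (skewSupp k H)).comap G.subtype) (fun i => e1 ▸ hg i)
      fun u hu ho => by
        have ho' := G.subtype.isOfFinOrder ho
        obtain ⟨n, hn⟩ := hyp u.1 (Subgroup.commutator_mono (Subgroup.map_comap_le _ _)
          (Subgroup.map_comap_le _ _)
          (Subgroup.map_commutator _ _ G.subtype ▸ Subgroup.mem_map_of_mem _ hu)) ho'
        refine ⟨n, fun γ i => e5 _ i (hc _ (fun b y => ?_) i)⟩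
        have h3 := hn.conj γ.1⁻¹
        rw [inv_inv] at h3
        refine h3.fix hpt (m := orderOf u.1) (Nat.cast_ne_zero.2 ho'.orderOf_pos.ne') ?_ b
        rw [conj_pow, ← pow_mul, mul_comm _ (orderOf u.1), pow_mul, pow_orderOf_eq_one]
        simp
  have := f3 fun u hu => by
    obtain ⟨m, hm, hz⟩ := h3 u.1 hu
    refine ⟨m, hm, fun γ i => e5 _ i (hc _ (fun b y _ => ?_) i)⟩
    have e : (γ * u ^ m * γ⁻¹ : G).1 = u.1 ^ m := by
      have h4 : γ.1 * u.1 ^ m = u.1 ^ m * γ.1 := GroupLike.ext (hz γ.1.1).symm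
      change γ.1 * u.1 ^ m * γ.1⁻¹ = _
      rw [h4, mul_inv_cancel_right]
    rw [e, tw_apply, hz, mul_assoc, gl_mul_inv, mul_one]
  have key := E'.noeth_fin p f4 N f1 f2
  exact ⟨e3 (f5 key.1), e4 (f6 key.2)⟩

theorem main3c (k H : Type) [Field k] [Ring H] [HopfAlgebra k H] (hgk : FGK k H)
    (hpt : coradical k H = span k {g : H | IsGroupLikeElem k g}) (p : ℕ)
    (h1 : p.Prime) (h0 : ringChar k = 0)
    (h3 : ∀ g ∈ Subgroup.closure (skewSupp k H), ∃ m : ℕ, 0 < m ∧
      ∀ x : H, (g ^ m).1 * x = x * (g ^ m).1)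
    (hyp : ∀ u ∈ ⁅Subgroup.closure (skewSupp k H), Subgroup.closure (skewSupp k H)⁆,
      IsOfFinOrder u → ∃ n : ℕ, Cen k H (u ^ p ^ n)) :
    IsNoetherianRing H ∧ IsNoetherianRing Hᵐᵒᵖ := by
  let K := AlgebraicClosure k
  have h2 : Subgroup.closure (skewSupp K (K ⊗[k] H)) ≤
      (Subgroup.closure (skewSupp k H)).map (γ K H) := by
    rw [MonoidHom.map_closure]; exact Subgroup.closure_mono (skew_down hpt)
  refine noeth_bc (main2c K _ hgk.bc (pt_bc hpt) p h1 ((Algebra.ringChar_eq k K).symm.trans h0)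
    (fun g hg => ?_) fun u hu ho => ?_)
  · obtain ⟨g, hg', rfl⟩ := h2 hg
    obtain ⟨m, hm, hz⟩ := h3 g hg'
    refine ⟨m, hm, fun t => ?_⟩
    rw [← map_pow]
    change (1 : K) ⊗ₜ[k] (g ^ m).1 * t = t * (1 : K) ⊗ₜ[k] (g ^ m).1
    induction t with
    | zero => simp
    | add s t hs ht => rw [mul_add, add_mul, hs, ht]
    | tmul c x =>
      rw [Algebra.TensorProduct.tmul_mul_tmul, Algebra.TensorProduct.tmul_mul_tmul, hz, one_mul,
        mul_one]
  · have h3 := Subgroup.commutator_mono h2 h2 hu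
    rw [← Subgroup.map_commutator] at h3
    obtain ⟨g, hg, rfl⟩ := h3
    exact (hyp g hg ((γ_inj (k := k) (K := K) (H := H)).isOfFinOrder_iff.1 ho)).imp
      fun n hn => map_pow (γ K H) g _ ▸ hn.bc hpt

end Pool.Agent.Lib.MP_ff61db_al.Pt
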