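import Pool.Agent.Lib.MP_ff61db_al.Pt.Main
import Pool.Agent.Lib.MP_ff61db_al.Pt.YB
import Pool.Agent.Lib.MP_ff61db_al.Pt.YC

/-! Pointed Hopf algebras of polynomial growth are noetherian under a condition on the action of
the group generated by the degrees of the skew primitive elements. -/

set_option autoImplicit false

namespace Pool.Agent.Lib.MP_ff61db_al.Pt

theorem GD.red {k : Type} [Field k] {G : Type} [Group G] {X S : Type} [Ring S] [Algebra k S]
    [Group.FG G] [Finite X] (D : GD k G X S) (h : FGK k S) (p : ℕ) (N : Subgroup G)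
    [hN : N.Normal] (hg : ∀ i, D.g i ∈ N)
    (hp : ∀ u ∈ ⁅N, N⁆, IsOfFinOrder u → ∃ n : ℕ, ∀ γ i,
      D.φ (γ * u ^ p ^ n * γ⁻¹) * D.y i * D.φ (γ * u ^ p ^ n * γ⁻¹)⁻¹ = D.y i) :
    ∃ (G' : Type) (_ : Group G') (_ : Group.FG G') (S' : Type) (_ : Ring S') (_ : Algebra k S')
      (E : GD k G' X S') (N' : Subgroup G') (_ : N'.Normal), (∀ i, E.g i ∈ N') ∧ PComm p N' ∧
      (Finite N → Finite N') ∧ FGK k S' ∧ (IsNoetherianRing S' → IsNoetherianRing S) ∧
      (IsNoetherianRing S'ᵐᵒᵖ → IsNoetherianRing Sᵐᵒᵖ) := by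
  classical
  set T : Set G := {d | ∃ γ i, D.c γ i ≠ 0 ∧ d = γ * D.g i * γ⁻¹} with hT
  have Tconj : ∀ δ, ∀ d ∈ T, δ * d * δ⁻¹ ∈ T := by
    rintro δ _ ⟨γ, i, h1, rfl⟩
    refine ⟨δ * γ, i, fun e => h1 ?_, by group⟩
    have := D.c_conj δ⁻¹ (δ * γ) i
    rwa [e, mul_zero, zero_mul, inv_mul_cancel_left, eq_comm] at this
  set Γ := Subgroup.closure T with hΓ
  have Γn : Γ.Normal := ⟨fun a ha δ => by
    induction ha using Subgroup.closure_induction with
    | mem a ha => exact Subgroup.subset_closure (Tconj δ a ha)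
    | one => simp
    | mul a b _ _ ha hb => simpa [mul_assoc] using mul_mem ha hb
    | inv a _ ha => simpa [mul_assoc] using inv_mem ha⟩
  have : Finite (commutator Γ) := finite_commutator (D.finite_deg h) Tconj
  have : Finite (⁅Γ, Γ⁆ : Subgroup G) := Subgroup.map_subtype_commutator Γ ▸ Finite.of_surjective _
    (Γ.subtype.subgroupMap_surjective (commutator Γ))
  have ΓN : Γ ≤ N := (Subgroup.closure_le _).2 (by
    rintro _ ⟨γ, i, -, rfl⟩; exact hN.conj_mem _ (hg i) γ)
  let C : Subgroup G :=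
    { carrier := {z | ∀ i, D.φ z * D.y i * D.φ z⁻¹ = D.y i}
      one_mem' := fun i => by simp
      mul_mem' := fun {a b} ha hb i => (D.c_conj a b i).symm.trans (by rw [GD.c, hb, ha])
      inv_mem' := fun {a} ha i => by
        have := D.c_conj a⁻¹ a i
        rwa [GD.c, ha, inv_mul_cancel, GD.c, inv_one, map_one, one_mul, mul_one] at this }
  let D' : GD k G X S :=
    { D with
      g := fun i => if D.y i = 0 then 1 else D.g i
      Δy := fun i => by split_ifs with e; exacts [by simp [e], D.Δy i] }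
  obtain ⟨S', _, _, E, e1, e2⟩ := D'.quot h C.normalCore fun z hz i => by
    have := congrArg (· * D.φ z) (C.normalCore_le hz i)
    simpa only [mul_assoc, D.inv_mul, mul_one] using this
  refine ⟨_, inferInstance, inferInstance, S', inferInstance, inferInstance, E,
    Γ.map (QuotientGroup.mk' _), Γn.map _ (QuotientGroup.mk'_surjective _), fun i => ?_,
    fun u hu _ => ?_, fun _ => ?_, e2⟩
  · refine ⟨_, ?_, (e1 i).symm⟩
    change (if D.y i = 0 then 1 else D.g i) ∈ Γ
    split_ifs with e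
    exacts [one_mem _, Subgroup.subset_closure ⟨1, i, by simpa [GD.c] using e, by simp⟩]
  · rw [← Subgroup.map_commutator] at hu
    obtain ⟨u, hu, rfl⟩ := hu
    obtain ⟨n, hn⟩ := hp u (Subgroup.commutator_mono ΓN ΓN hu)
      ((⁅Γ, Γ⁆ : Subgroup G).subtype.isOfFinOrder
        (isOfFinOrder_of_finite (⟨u, hu⟩ : (⁅Γ, Γ⁆ : Subgroup G))))
    exact ⟨n, by rw [← map_pow]; exact (QuotientGroup.eq_one_iff _).2 hn⟩
  · have : Finite Γ := Finite.of_injective _ (Subgroup.inclusion_injective ΓN)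
    exact Finite.of_surjective _ ((QuotientGroup.mk' _).subgroupMap_surjective Γ)

theorem main2 (k H : Type) [Field k] [IsAlgClosed k] [Ring H] [HopfAlgebra k H]
    (hgk : FGK k H)
    (hpt : coradical k H = Submodule.span k {g : H | IsGroupLikeElem k g}) (p : ℕ)
    (hp : p = ringExpChar k ∨
      (p.Prime ∧ ringChar k = 0 ∧ Finite (Subgroup.closure (skewSupp k H))))
    (hyp : ∀ u ∈ ⁅Subgroup.closure (skewSupp k H), Subgroup.closure (skewSupp k H)⁆,
      IsOfFinOrder u → ∃ n : ℕ, Cen k H (u ^ p ^ n)) :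
    IsNoetherianRing H ∧ IsNoetherianRing Hᵐᵒᵖ := by
  obtain ⟨G, _, X, _, D, hg, hc⟩ := exists_FD' k H hgk hpt
  obtain ⟨S, _, _, E, e1, e2, e3, e4, e5⟩ := D.exists_GD' hgk
  have := (normal_skew (k := k) (H := H)).comap G.subtype
  have ord : ∀ u : GroupLike k H, IsOfFinOrder u →
      ∃ a m : ℕ, (m : k) ≠ 0 ∧ (u ^ m) ^ p ^ a = 1 := fun u hu => by
    have h0 := hu.orderOf_pos.ne'
    rcases CharP.char_is_prime_or_zero k (ringChar k) with h1 | h1
    · obtain rfl : p = ringChar k := by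
        rcases hp with rfl | ⟨-, h2, -⟩
        · exact (ringExpChar.eq k _ (h := ExpChar.prime h1))
        · exact absurd h2 h1.ne_zero
      obtain ⟨a, m, h2, h3⟩ := Nat.exists_eq_pow_mul_and_not_dvd h0 _ h1.ne_one
      exact ⟨a, m, fun e => h2 ((ringChar.spec k m).1 e), by
        rw [← pow_mul, mul_comm, ← h3, pow_orderOf_eq_one]⟩
    · exact ⟨0, orderOf u, fun e => h0 (by simpa [h1] using (ringChar.spec k _).1 e), by simp⟩
  obtain ⟨G', _, _, S', _, _, E', N, _, f1, f2, f3, f4, f5, f6⟩ :=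
    E.red e2 p ((Subgroup.closure (skewSupp k H)).comap G.subtype) (fun i => e1 ▸ hg i)
      fun u hu ho => by
        have ho' := G.subtype.isOfFinOrder ho
        obtain ⟨n, hn⟩ := hyp u.1 (Subgroup.commutator_mono (Subgroup.map_comap_le _ _)
          (Subgroup.map_comap_le _ _)
          (Subgroup.map_commutator _ _ G.subtype ▸ Subgroup.mem_map_of_mem _ hu)) ho'
        obtain ⟨a, m, h1, h2⟩ := ord _ ho'
        refine ⟨n + a, fun γ i => e5 _ i (hc _ (fun b y => ?_) i)⟩
        have h3 := (hn.pow (p ^ a)).conj γ.1⁻¹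
        rw [inv_inv, ← pow_mul, ← pow_add] at h3
        refine h3.fix hpt h1 ?_ b
        rw [conj_pow, ← pow_mul, add_comm, pow_add, mul_comm _ m, ← mul_assoc, pow_mul, pow_mul]
        exact by rw [show (u.1 ^ m) ^ p ^ a = 1 from h2]; simp
  have key : IsNoetherianRing S' ∧ IsNoetherianRing S'ᵐᵒᵖ := by
    rcases hp with rfl | ⟨h1, h2, h3⟩
    · have := ringExpChar.expChar k
      exact E'.noeth (ringExpChar k) f4 N f1 f2
    · have : Fact p.Prime := ⟨h1⟩
      have : CharP k 0 := h2 ▸ ringChar.charP k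
      have : CharZero k := CharP.charP_to_charZero k
      have := f3 (Finite.of_injective (β := Subgroup.closure (skewSupp k H))
        (fun a => ⟨a.1.1, a.2⟩) fun a b e => Subtype.ext (Subtype.ext (congrArg (·.1) e)))
      exact E'.noeth_fin p f4 N f1 f2
  exact ⟨e3 (f5 key.1), e4 (f6 key.2)⟩

end Pool.Agent.Lib.MP_ff61db_al.Pt
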