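import Pool.Agent.Lib.MP_ff61db_al.Pt.ZLD
import Pool.Agent.Lib.MP_ff61db_al.Pt.Num
import Pool.Agent.Lib.MP_ff61db_al.Pt.C1

/-! The coproduct of a word in adapted letters, up to lower terms. -/

namespace Pool.Agent.Lib.MP_ff61db_al.Pt

open TensorProduct Submodule

variable {k : Type} [Field k] {G : Type} [Group G] {X S : Type} [Ring S] [Algebra k S]
  {D : GD k G X S} {I : Type} [Fintype I] [DecidableEq I]

namespace ZCop

/-- Smaller or equal for the pair of weights. -/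
def Le (w₁ w₂ : I → ℤ) (μ ν : I → ℤ) : Prop :=
  Low w₁ w₂ μ ν ∨ (wt w₁ μ = wt w₁ ν ∧ wt w₂ μ = wt w₂ ν)

section
variable {w₁ w₂ μ ν μ' ν' : I → ℤ}

omit [DecidableEq I] in
theorem Le.refl (μ : I → ℤ) : Le w₁ w₂ μ μ := Or.inr ⟨rfl, rfl⟩

theorem low_le (h : Low w₁ w₂ μ ν) (h' : Le w₁ w₂ μ' ν') : Low w₁ w₂ (μ + μ') (ν + ν') := by
  simp only [Low, Le, wt_add] at *; omega

theorem le_low (h : Le w₁ w₂ μ ν) (h' : Low w₁ w₂ μ' ν') : Low w₁ w₂ (μ + μ') (ν + ν') := by
  simp only [Low, Le, wt_add] at *; omega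

end

variable (L : LD D I)

theorem le_of_low {a : List I} {u : S} {c : k}
    (h : u - c • wd L.x a ∈ wsp k L.x {l | Low L.w₁ L.w₂ (deg l) (deg a)}) :
    u ∈ wsp k L.x {l | Le L.w₁ L.w₂ (deg l) (deg a)} := by
  have h1 : u = (u - c • wd L.x a) + c • wd L.x a := by abel
  rw [h1]
  exact add_mem (zwsp_mono (fun l hl => Or.inl hl) h) (smul_mem _ _ (wd_mem_wsp (Le.refl _)))

theorem conj_wd {γ : G} (hγ : γ ∈ L.Γ) (a : List I) :
    D.φ γ * wd L.x a * D.φ γ⁻¹ - (((a.map fun i => L.χ i γ).prod : kˣ) : k) • wd L.x a ∈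
      wsp k L.x {l | Low L.w₁ L.w₂ (deg l) (deg a)} := by
  induction a with
  | nil => simp [← map_mul]
  | cons i a ih =>
    have e1 : D.φ γ⁻¹ * D.φ γ = 1 := by rw [← map_mul, inv_mul_cancel, map_one]
    have e2 : D.φ γ * wd L.x (i :: a) * D.φ γ⁻¹ -
        ((((i :: a).map fun i => L.χ i γ).prod : kˣ) : k) • wd L.x (i :: a) =
        (D.φ γ * L.x i * D.φ γ⁻¹ - (L.χ i γ : k) • L.x i) * (D.φ γ * wd L.x a * D.φ γ⁻¹) +
        (L.χ i γ : k) • (wd L.x [i] * (D.φ γ * wd L.x a * D.φ γ⁻¹ -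
          (((a.map fun i => L.χ i γ).prod : kˣ) : k) • wd L.x a)) := by
      have e3 : D.φ γ * L.x i * D.φ γ⁻¹ * (D.φ γ * wd L.x a * D.φ γ⁻¹) =
          D.φ γ * (L.x i * wd L.x a) * D.φ γ⁻¹ := by
        calc _ = D.φ γ * L.x i * (D.φ γ⁻¹ * D.φ γ) * wd L.x a * D.φ γ⁻¹ := by
              simp only [mul_assoc]
          _ = _ := by rw [e1, mul_one]; simp only [mul_assoc]
      rw [zwd_one, zwd_cons, sub_mul, e3, List.map_cons, List.prod_cons, Units.val_mul, mul_sub,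
        smul_sub, smul_mul_assoc, mul_smul_comm, smul_smul]
      abel
    rw [e2]
    refine add_mem (wsp_mul ?_ (L.conj γ hγ i) (le_of_low L ih)) (smul_mem _ _
      (wsp_mul (S := {[i]}) ?_ (wd_mem_wsp rfl) ih))
    · intro u hu v hv
      show Low _ _ (deg (u ++ v)) (deg (i :: a))
      rw [deg_append, deg_cons]; exact low_le hu hv
    · rintro u rfl v hv
      show Low _ _ (deg ([i] ++ v)) (deg (i :: a))
      rw [List.singleton_append, deg_cons, deg_cons]; exact le_low (Le.refl _) hv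

/-- Tensors of words with a grouplike factor. -/
def U (P : (I → ℤ) → Prop) : Submodule k (S ⊗[k] S) :=
  span k {t : S ⊗[k] S | ∃ a b, ∃ γ ∈ L.Γ, P (deg a + deg b) ∧
    t = (wd L.x a * D.φ γ) ⊗ₜ wd L.x b}

theorem mem_U {P : (I → ℤ) → Prop} {a b : List I} {γ : G} (hγ : γ ∈ L.Γ)
    (h : P (deg a + deg b)) : (wd L.x a * D.φ γ) ⊗ₜ[k] wd L.x b ∈ U L P :=
  subset_span ⟨a, b, γ, hγ, h, rfl⟩

theorem U_mono {P P' : (I → ℤ) → Prop} (h : ∀ μ, P μ → P' μ) : U L P ≤ U L P' :=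
  span_mono fun _ ⟨a, b, γ, h1, h2, h3⟩ => ⟨a, b, γ, h1, h _ h2, h3⟩

theorem mem_U' {P : (I → ℤ) → Prop} {T : Set (List I)} {a b : List I} {γ : G} (hγ : γ ∈ L.Γ)
    (h : ∀ l ∈ T, P (deg a + deg l + deg b)) {u : S} (hu : u ∈ wsp k L.x T) :
    (wd L.x a * u * D.φ γ) ⊗ₜ[k] wd L.x b ∈ U L P := by
  induction hu using span_induction with
  | zero => simp
  | add u v _ _ hu hv => rw [mul_add, add_mul, add_tmul]; exact add_mem hu hv
  | smul c u _ hu => rw [mul_smul_comm, smul_mul_assoc, ← smul_tmul']; exact smul_mem _ _ hu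
  | mem u hu =>
    obtain ⟨l, hl, rfl⟩ := hu
    rw [← zwd_append]
    exact mem_U L hγ (by rw [deg_append]; exact h l hl)

theorem U_mul {P P' P'' : (I → ℤ) → Prop}
    (h : ∀ μ μ' ν, P μ → P' μ' → Le L.w₁ L.w₂ ν μ' → P'' (μ + ν)) {s t : S ⊗[k] S}
    (hs : s ∈ U L P) (ht : t ∈ U L P') : s * t ∈ U L P'' := by
  induction hs using span_induction with
  | zero => simp
  | add u v _ _ hu hv => rw [add_mul]; exact add_mem hu hv
  | smul c u _ hu => rw [smul_mul_assoc]; exact smul_mem _ _ hu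
  | mem u hu =>
    obtain ⟨a, b, γ, hγ, h1, rfl⟩ := hu
    induction ht using span_induction with
    | zero => simp
    | add u v _ _ hu hv => rw [mul_add]; exact add_mem hu hv
    | smul c u _ hu => rw [mul_smul_comm]; exact smul_mem _ _ hu
    | mem u hu =>
      obtain ⟨a', b', γ', hγ', h2, rfl⟩ := hu
      have e1 : wd L.x a * D.φ γ * (wd L.x a' * D.φ γ') =
          wd L.x a * (D.φ γ * wd L.x a' * D.φ γ⁻¹) * D.φ (γ * γ') := by
        have : D.φ γ⁻¹ * D.φ (γ * γ') = D.φ γ' := by rw [← map_mul, inv_mul_cancel_left]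
        simp only [mul_assoc, this]
      rw [Algebra.TensorProduct.tmul_mul_tmul, ← zwd_append, e1]
      refine mem_U' L (L.Γ.mul_mem hγ hγ') (fun l hl => ?_) (le_of_low L (conj_wd L hγ a'))
      have e2 : deg a + deg l + deg (b ++ b') = deg a + deg b + (deg l + deg b') := by
        rw [deg_append]; abel
      rw [e2]
      refine h _ _ _ h1 h2 ?_
      have hl' : Le L.w₁ L.w₂ (deg l) (deg a') := hl
      simp only [Low, Le, wt_add] at *; omega

theorem s_prod_mem (b : List I) : (b.map L.s).prod ∈ L.Γ :=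
  L.Γ.list_prod_mem fun g hg => by
    obtain ⟨i, -, rfl⟩ := List.mem_map.1 hg
    exact L.s_mem i

/-- A main term of the coproduct. -/
noncomputable def tm (p : kˣ × List I × List I) : S ⊗[k] S :=
  (p.1 : k) • ((wd L.x p.2.1 * D.φ (p.2.2.map L.s).prod) ⊗ₜ[k] wd L.x p.2.2)

/-- The main part of the coproduct of a word. -/
noncomputable def mn (l : List I) : S ⊗[k] S :=
  ((sh (fun a b => L.χ b (L.s a)) l).map (tm L)).sum

theorem sum_sub_mem {α M : Type} [AddCommGroup M] [Module k M] (N : Submodule k M) (l : List α)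
    (f g : α → M) (h : ∀ p ∈ l, f p - g p ∈ N) : (l.map f).sum - (l.map g).sum ∈ N := by
  induction l with
  | nil => simp
  | cons p l ih =>
    rw [List.map_cons, List.map_cons, List.sum_cons, List.sum_cons, add_sub_add_comm]
    exact add_mem (h p List.mem_cons_self) (ih fun p hp => h p (List.mem_cons_of_mem _ hp))

theorem mn_mem (l : List I) : mn L l ∈ U L fun μ => Le L.w₁ L.w₂ μ (deg l) := by
  refine list_sum_mem fun t ht => ?_
  obtain ⟨p, hp, rfl⟩ := List.mem_map.1 ht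
  exact smul_mem _ _ (mem_U L (s_prod_mem L _) (by rw [sh_deg _ hp]; exact Le.refl _))

theorem mn_cons (i : I) (l : List I) :
    (L.x i ⊗ₜ 1 + D.φ (L.s i) ⊗ₜ L.x i) * mn L l - mn L (i :: l) ∈
      U L fun μ => Low L.w₁ L.w₂ μ (deg (i :: l)) := by
  simp only [mn, sh, List.map_append, List.sum_append, List.map_map, add_mul]
  rw [add_sub_add_comm, ← List.sum_map_mul_left, ← List.sum_map_mul_left]
  refine add_mem (sum_sub_mem _ _ _ _ fun p _ => ?_) (sum_sub_mem _ _ _ _ fun p hp => ?_)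
  · simp [tm, mul_assoc]
  · have e1 : D.φ (L.s i) * (wd L.x p.2.1 * D.φ (p.2.2.map L.s).prod) =
        D.φ (L.s i) * wd L.x p.2.1 * D.φ (L.s i)⁻¹ * D.φ ((i :: p.2.2).map L.s).prod := by
      have : D.φ (L.s i)⁻¹ * D.φ ((i :: p.2.2).map L.s).prod = D.φ (p.2.2.map L.s).prod := by
        rw [← map_mul, List.map_cons, List.prod_cons, inv_mul_cancel_left]
      simp only [mul_assoc, this]
    have h1 := mem_U' L (P := fun μ => Low L.w₁ L.w₂ μ (deg (i :: l))) (a := []) (b := i :: p.2.2)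
      (s_prod_mem L (i :: p.2.2)) (fun u hu => by
        have hu' : Low L.w₁ L.w₂ (deg u) (deg p.2.1) := hu
        have h2 := sh_deg _ hp
        rw [deg_cons, deg_cons, ← h2, deg_nil, zero_add]
        simp only [Low, wt_add] at *; omega) (conj_wd L (L.s_mem i) p.2.1)
    have h2 := smul_mem _ (p.1 : k) h1
    convert h2 using 1
    simp only [tm, Function.comp, mul_smul_comm, Algebra.TensorProduct.tmul_mul_tmul, e1,
      C1.chi_e_deg, zwd_nil, one_mul, sub_mul, sub_tmul, smul_sub, zwd_cons, Units.val_mul,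
      smul_mul_assoc, ← smul_tmul', smul_smul, mul_comm (p.1 : k)]

theorem cop_mn (l : List I) :
    D.Δ (wd L.x l) - mn L l ∈ U L fun μ => Low L.w₁ L.w₂ μ (deg l) := by
  induction l with
  | nil => simp [mn, sh, tm, Algebra.TensorProduct.one_def]
  | cons i l ih =>
    have h1 : D.Δ (L.x i) - (L.x i ⊗ₜ 1 + D.φ (L.s i) ⊗ₜ L.x i) ∈
        U L fun μ => Low L.w₁ L.w₂ μ (e i) := L.cop i
    have h2 : D.Δ (wd L.x l) ∈ U L fun μ => Le L.w₁ L.w₂ μ (deg l) := by
      have e1 : D.Δ (wd L.x l) = (D.Δ (wd L.x l) - mn L l) + mn L l := by abel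
      rw [e1]
      exact add_mem (U_mono L (fun _ h => Or.inl h) ih) (mn_mem L l)
    have h3 : L.x i ⊗ₜ[k] (1 : S) + D.φ (L.s i) ⊗ₜ L.x i ∈
        U L fun μ => Le L.w₁ L.w₂ μ (e i) := by
      refine add_mem ?_ ?_
      · have := mem_U L (P := fun μ => Le L.w₁ L.w₂ μ (e i)) (a := [i]) (b := []) L.Γ.one_mem
          (by simpa using Le.refl _)
        simpa using this
      · have := mem_U L (P := fun μ => Le L.w₁ L.w₂ μ (e i)) (a := []) (b := [i]) (L.s_mem i)
          (by simpa using Le.refl _)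
        simpa using this
    have e2 : D.Δ (wd L.x (i :: l)) - mn L (i :: l) =
        (D.Δ (L.x i) - (L.x i ⊗ₜ 1 + D.φ (L.s i) ⊗ₜ L.x i)) * D.Δ (wd L.x l) +
        (L.x i ⊗ₜ 1 + D.φ (L.s i) ⊗ₜ L.x i) * (D.Δ (wd L.x l) - mn L l) +
        ((L.x i ⊗ₜ 1 + D.φ (L.s i) ⊗ₜ L.x i) * mn L l - mn L (i :: l)) := by
      rw [zwd_cons, map_mul, sub_mul, mul_sub]; abel
    rw [e2]
    refine add_mem (add_mem (U_mul L ?_ h1 h2) (U_mul L ?_ h3 ih)) (mn_cons L i l)
    · intro μ μ' ν a1 a2 a3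
      rw [deg_cons]
      simp only [Low, Le, wt_add] at *; omega
    · intro μ μ' ν a1 a2 a3
      rw [deg_cons]
      simp only [Low, Le, wt_add] at *; omega

theorem Q_U {μ : I → ℤ} {t : S ⊗[k] S} (ht : t ∈ U L fun ν => Low L.w₁ L.w₂ ν μ) :
    L.Q.rTensor S t ∈ tsp k L.x fun a b => Low L.w₁ L.w₂ (deg a + deg b) μ := by
  induction ht using span_induction with
  | zero => simp
  | add u v _ _ hu hv => rw [map_add]; exact add_mem hu hv
  | smul c u _ hu => rw [map_smul]; exact smul_mem _ _ hu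
  | mem u hu =>
    obtain ⟨a, b, γ, hγ, h1, rfl⟩ := hu
    rw [LinearMap.rTensor_tmul]
    have h2 := L.Q_wd a γ hγ
    rw [← one_smul k (wd L.x a), smul_mul_assoc, one_smul] at h2
    refine tmul_mem_tsp (T := {b}) ?_ (le_of_low L (c := 1) (by simpa using h2)) (wd_mem_wsp rfl)
    rintro u hu v rfl
    have hu' : Le L.w₁ L.w₂ (deg u) (deg a) := hu
    simp only [Low, Le, wt_add] at *; omega

end ZCop

theorem LD.cop_wd (L : LD D I) (l : List I) :
    L.Q.rTensor S (D.Δ (wd L.x l)) - copw (fun a b => L.χ b (L.s a)) L.x l ∈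
      tsp k L.x fun a b => Low L.w₁ L.w₂ (deg a + deg b) (deg l) := by
  have e1 : L.Q.rTensor S (D.Δ (wd L.x l)) - copw (fun a b => L.χ b (L.s a)) L.x l =
      L.Q.rTensor S (D.Δ (wd L.x l) - ZCop.mn L l) +
        (L.Q.rTensor S (ZCop.mn L l) - copw (fun a b => L.χ b (L.s a)) L.x l) := by
    rw [map_sub]; abel
  rw [e1]
  refine add_mem (ZCop.Q_U L (ZCop.cop_mn L l)) ?_
  rw [ZCop.mn, map_list_sum, List.map_map, copw]
  refine ZCop.sum_sub_mem _ _ _ _ fun p hp => ?_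
  simp only [Function.comp, ZCop.tm, map_smul, LinearMap.rTensor_tmul, ← smul_sub, ← sub_tmul]
  refine smul_mem _ _ (tmul_mem_tsp (T := {p.2.2}) ?_
    (L.Q_wd p.2.1 _ (ZCop.s_prod_mem L _)) (wd_mem_wsp rfl))
  rintro u hu v rfl
  rw [← sh_deg _ hp]
  exact ZCop.low_le hu (ZCop.Le.refl _)

end Pool.Agent.Lib.MP_ff61db_al.Pt
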