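import Pool.Agent.Lib.MP_ff61db_al.Pt.ZGenA

/-! Generators of a pointed Hopf algebra that are skew primitive up to terms of smaller weight. -/

namespace Pool.Agent.Lib.MP_ff61db_al.Pt

open TensorProduct Submodule

section Words

variable {k : Type} [Field k] {I R : Type} [Ring R] [Algebra k R] {z : I → R}

theorem wsp_mul_wd {S S' : Set (List I)} (l : List I) (h : ∀ a ∈ S, a ++ l ∈ S') {x : R}
    (hx : x ∈ wsp k z S) : x * wd z l ∈ wsp k z S' := by
  induction hx using span_induction with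
  | zero => simp
  | add u v _ _ hu hv => rw [add_mul]; exact add_mem hu hv
  | smul c u _ hu => rw [smul_mul_assoc]; exact smul_mem _ _ hu
  | mem u hu =>
    obtain ⟨a, ha, rfl⟩ := hu
    exact subset_span ⟨a ++ l, h a ha, by simp [wd]⟩

theorem gen_tmul_mem_tsp {S S' : Set (List I)} {L : List I → List I → Prop}
    (h : ∀ a ∈ S, ∀ b ∈ S', L a b) {x y : R} (hx : x ∈ wsp k z S) (hy : y ∈ wsp k z S') :
    x ⊗ₜ y ∈ tsp k z L := by
  induction hx using span_induction with
  | zero => simp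
  | add u v _ _ hu hv => rw [add_tmul]; exact add_mem hu hv
  | smul c u _ hu => rw [← smul_tmul']; exact smul_mem _ _ hu
  | mem u hu =>
    obtain ⟨a, ha, rfl⟩ := hu
    induction hy using span_induction with
    | zero => simp
    | add u v _ _ hu hv => rw [tmul_add]; exact add_mem hu hv
    | smul c u _ hu => rw [tmul_smul]; exact smul_mem _ _ hu
    | mem u hu =>
      obtain ⟨b, hb, rfl⟩ := hu
      exact subset_span ⟨a, b, h a ha b hb, rfl⟩

theorem wsp_univ_top {V : Submodule k R} (hV : Algebra.adjoin k (V : Set R) = ⊤)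
    (h : V ≤ wsp k z Set.univ) : wsp k z Set.univ = ⊤ := by
  refine eq_top_iff.2 fun a _ => ?_
  have ha : a ∈ Algebra.adjoin k (V : Set R) := hV ▸ Algebra.mem_top
  induction ha using Algebra.adjoin_induction with
  | mem x hx => exact h hx
  | algebraMap r =>
    rw [Algebra.algebraMap_eq_smul_one]
    exact smul_mem _ _ (subset_span ⟨[], trivial, rfl⟩)
  | add x y _ _ hx hy => exact add_mem (hx trivial) (hy trivial)
  | mul x y _ _ hx hy =>
    replace hx := hx trivial
    replace hy := hy trivial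
    clear * - hx hy
    induction hy using span_induction with
    | zero => simp
    | add u v _ _ hu hv => rw [mul_add]; exact add_mem hu hv
    | smul c u _ hu => rw [mul_smul_comm]; exact smul_mem _ _ hu
    | mem u hu =>
      obtain ⟨b, -, rfl⟩ := hu
      exact wsp_mul_wd b (fun _ _ => Set.mem_univ _) hx

end Words

variable {k H : Type} [Field k] [Ring H] [HopfAlgebra k H]

theorem exists_ZS (hpt : coradical k H = span k {g : H | IsGroupLikeElem k g}) (V : Submodule k H)
    (hV : V.FG) : ∃ (Z : ZS k H) (N : ℕ), Z.C.FG ∧ V ≤ Z.U (N + 1) := by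
  classical
  have hK : coradical k H = KG k H := by
    rw [hpt, KG]
    congr 1
    ext g
    exact ⟨fun h => ⟨⟨g, h⟩, rfl⟩, fun ⟨a, h⟩ => h ▸ a.2⟩
  obtain ⟨C, c1, c2, c3, -⟩ := exists_fd V hV
  have : Module.Finite k C := Module.Finite.iff_fg.2 c1
  obtain ⟨n, hn⟩ := Uw_top coradical_cl c2 c1 fun D h1 h2 h3 => coradical_meets h1
    (Module.Finite.iff_fg.1 (Submodule.finiteDimensional_of_le h2)) h3
  rw [hK] at hn
  obtain ⟨s, hs⟩ : (KG k H ⊓ C).FG :=
    Module.Finite.iff_fg.1 (Submodule.finiteDimensional_of_le inf_le_right)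
  have h1 : ∀ y ∈ KG k H, ∃ T : Finset (GroupLike k H),
      y ∈ span k (GroupLike.val '' (T : Set (GroupLike k H))) := by
    intro y hy
    obtain ⟨c, rfl⟩ := Finsupp.mem_span_range_iff_exists_finsupp.1 hy
    exact ⟨c.support, sum_mem fun g hg => smul_mem _ _ (subset_span ⟨g, hg, rfl⟩)⟩
  choose! T hT using h1
  choose e e1 e0 using exists_coord (k := k) (H := H)
  let Y := span k (GroupLike.val '' (s.biUnion T : Set (GroupLike k H)))
  have hY : Y ≤ KG k H := span_mono (Set.image_subset_range _ _)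
  have hc : Cl (C ⊔ Y) := by
    rw [← sSup_pair]
    refine Cl.sSup ?_
    rintro _ (rfl | rfl)
    exacts [c2, cl_span_gl _]
  refine ⟨⟨C ⊔ Y, s.biUnion T, fun a => WithConv.toConv (e a), hc,
    fun g hg => mem_sup_right (subset_span ⟨g, hg, rfl⟩), ?_, e1, e0⟩, n,
    c1.sup (fg_span ((Finset.finite_toSet _).image _)),
    le_inf (c3.trans (hn.trans (Uw_mono cl_KG (Nat.le_succ n)))) (c3.trans le_sup_left)⟩
  rw [inf_comm, sup_comm, sup_inf_assoc_of_le _ hY, inf_comm, ← hs]
  refine sup_le le_rfl (span_le.2 fun y hy => ?_)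
  refine span_mono (Set.image_mono ?_) (hT y (hs ▸ subset_span hy : y ∈ KG k H ⊓ C).1)
  exact Finset.coe_subset.2 (Finset.subset_biUnion_of_mem T hy)

theorem normal_skew : (Subgroup.closure (skewSupp k H)).Normal := by
  refine ⟨fun n hn g => ?_⟩
  induction hn using Subgroup.closure_induction with
  | mem x hx => exact Subgroup.subset_closure (skewSupp_conj g hx)
  | one => simp
  | mul x y _ _ hx hy => simpa [mul_assoc] using mul_mem hx hy
  | inv x _ hx => simpa [mul_assoc] using inv_mem hx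

theorem PComm.comap {G G' : Type} [Group G] [Group G'] {p : ℕ} {N : Subgroup G'} (h : PComm p N)
    (f : G →* G') (hf : Function.Injective f) : PComm p (N.comap f) := by
  intro u hu ho
  have h1 : f u ∈ ⁅N, N⁆ := by
    refine Subgroup.commutator_mono (N.map_comap_le f) (N.map_comap_le f) ?_
    rw [← Subgroup.map_commutator]
    exact Subgroup.mem_map_of_mem f hu
  obtain ⟨r, hr⟩ := h _ h1 (f.isOfFinOrder ho)
  exact ⟨r, hf (by rw [map_pow, hr, map_one])⟩

theorem exists_FD (k H : Type) [Field k] [Ring H] [HopfAlgebra k H] (h : FGK k H)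
    (hpt : coradical k H = span k {g : H | IsGroupLikeElem k g}) {p : ℕ}
    (hyp : PComm p (Subgroup.closure (skewSupp k H))) :
    ∃ (G : Type) (_ : Group G) (_ : Group.FG G) (X : Type) (_ : Finite X) (D : FD k G X H)
      (N : Subgroup G), N.Normal ∧ (∀ i, D.g i ∈ N) ∧ PComm p N ∧
        (Finite (Subgroup.closure (skewSupp k H)) → Finite N) := by
  obtain ⟨V, hV, hgen⟩ := h
  obtain ⟨Z, N, hC, hVU⟩ := exists_ZS hpt V hV.fg
  have : Module.Finite k Z.C := Module.Finite.iff_fg.2 hC
  have hfg : ∀ c, (Z.U (c + 1)).FG := fun c =>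
    Module.Finite.iff_fg.1 (Submodule.finiteDimensional_of_le (S₂ := Z.C) inf_le_right)
  choose s hs using hfg
  let G := Subgroup.closure (Z.T : Set (GroupLike k H))
  let ι : Z.T → G := fun a => ⟨a.1, Subgroup.subset_closure a.2⟩
  let X : Type := {q : ((c : Fin N) × s (c + 1)) × Z.T × Z.T //
    q.2.1.1 * q.2.2.1⁻¹ ∈ Subgroup.closure (skewSupp k H)}
  let φ : G →* H := (GroupLike.valMonoidHom k H).comp G.subtype
  let x : X → H := fun q => Z.w q.1.2.1 q.1.2.2 q.1.1.2 * φ (ι q.1.2.2)⁻¹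
  let n : X → ℕ := fun q => 2 * q.1.1.1 + 1
  let W : ℕ → Submodule k H := fun m =>
    wsp k (Sum.elim (fun g => φ g) x) {l | wl (Sum.elim (fun _ => 0) n) l ≤ m}
  have Wm : Monotone W := fun a b hab => span_mono (Set.image_mono fun _ h => le_trans h hab)
  have Wφ : ∀ m (g : G), ∀ y ∈ W m, y * φ g ∈ W m := fun m g y hy => by
    simpa [wd] using wsp_mul_wd [Sum.inl g] (S' := {l | wl (Sum.elim (fun _ => 0) n) l ≤ m})
      (fun a ha => by simpa [wl] using ha) hy
  have UW : ∀ c ≤ N, Z.U (c + 1) ≤ W (2 * c - 1) := by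
    intro c
    induction c with
    | zero =>
      refine fun _ => Z.U_one.trans (span_le.2 ?_)
      rintro _ ⟨g, hg, rfl⟩
      exact subset_span ⟨[Sum.inl (ι ⟨g, hg⟩)], by simp [wl], by simp [wd]; rfl⟩
    | succ c ih =>
      intro hc
      have ih := (ih (by omega)).trans (Wm (by omega : 2 * c - 1 ≤ 2 * (c + 1) - 1))
      rw [← hs, span_le]
      intro v hv
      have hv' : v ∈ Z.U (c + 1 + 1) := hs (c + 1) ▸ subset_span hv
      rw [← sub_add_cancel v (∑ a ∈ Z.T, ∑ b ∈ Z.T, Z.w a b v)]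
      refine add_mem (ih (Z.sub_sum_mem hv')) (sum_mem fun a ha => sum_mem fun b hb => ?_)
      by_cases e : a * b⁻¹ ∈ Subgroup.closure (skewSupp k H)
      · let q : X := ⟨(⟨⟨c, hc⟩, v, hv⟩, ⟨a, ha⟩, ⟨b, hb⟩), e⟩
        have h1 : x q ∈ W (2 * (c + 1) - 1) :=
          subset_span ⟨[Sum.inr q], by simp [wl, n, q]; omega, by simp [wd]⟩
        have h2 := Wφ _ (ι ⟨b, hb⟩) _ h1
        rwa [mul_assoc, ← map_mul, inv_mul_cancel, map_one, mul_one] at h2
      · exact ih (Z.link (by omega) a ha b hb e v hv')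
  refine ⟨G, inferInstance, inferInstance, X, inferInstance,
    { φ := φ
      ind := (linearIndep_groupLikeVal (R := k) (A := H)).comp _ Subtype.val_injective
      x := x
      n := n
      pos := fun _ => Nat.succ_pos _
      g := fun q => ι q.1.2.1 * (ι q.1.2.2)⁻¹
      span := wsp_univ_top hgen ((hVU.trans (UW N le_rfl)).trans
        (span_mono (Set.image_mono (Set.subset_univ _))))
      Δ := Bialgebra.comulAlgHom k H
      Δφ := fun g => gl_comul g.1
      Δx := ?_ }, (Subgroup.closure (skewSupp k H)).comap G.subtype, normal_skew.comap _,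
    fun q => q.2, hyp.comap _ Subtype.val_injective, fun _ => Finite.of_injective
      (fun u => (⟨u.1.1, u.2⟩ : Subgroup.closure (skewSupp k H)))
      fun _ _ e => Subtype.ext (Subtype.ext (Subtype.mk.inj e))⟩
  rintro ⟨⟨⟨c, v, hv⟩, a, b⟩, e⟩
  have hv' : v ∈ Z.U (c + 1 + 1) := hs (c + 1) ▸ subset_span hv
  have h1 := Z.comul_w a.2 b.2 (by omega) hv'
    (Y := (tsp k (Sum.elim (fun g => φ g) x) fun a b => wl (Sum.elim (fun _ => 0) n) a +
      wl (Sum.elim (fun _ => 0) n) b < 2 * c + 1).comap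
      (LinearMap.mulRight k (φ (ι b)⁻¹ ⊗ₜ[k] φ (ι b)⁻¹))) fun s s' h1 h2 h3 y hy y' hy' => by
    rw [mem_comap, LinearMap.mulRight_apply, Algebra.TensorProduct.tmul_mul_tmul]
    refine gen_tmul_mem_tsp (fun l hl l' hl' => ?_) (Wφ _ _ _ (UW s (by omega) hy))
      (Wφ _ _ _ (UW s' (by omega) hy'))
    simp only [Set.mem_ofPred_eq] at hl hl'
    omega
  have h2 : (b.1 : H) * φ (ι b)⁻¹ = 1 := gl_mul_inv b.1
  rw [mem_comap, LinearMap.mulRight_apply, sub_mul, add_mul, Algebra.TensorProduct.tmul_mul_tmul,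
    Algebra.TensorProduct.tmul_mul_tmul, h2] at h1
  simp only [x, map_mul]
  rw [show Bialgebra.comulAlgHom k H (φ (ι b)⁻¹) = φ (ι b)⁻¹ ⊗ₜ φ (ι b)⁻¹ from gl_comul (ι b)⁻¹.1]
  exact h1

end Pool.Agent.Lib.MP_ff61db_al.Pt
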