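import Pool.Agent.Lib.MP_ff61db_al.Pt.ZLink

/-! The coradical filtration of a finite-dimensional subcoalgebra of a pointed Hopf algebra,
cut into components by pairs of grouplike elements. -/

namespace Pool.Agent.Lib.MP_ff61db_al.Pt

open TensorProduct Submodule WithConv

variable {k H : Type} [Field k] [Ring H] [HopfAlgebra k H]

theorem du_gl (ψ θ : Du k H) (c : GroupLike k H) :
    (ψ * θ).ofConv c = ψ.ofConv c * θ.ofConv c := by
  rw [du_mul, gl_comul, pair_tmul]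

theorem cl_span_gl (S : Set (GroupLike k H)) : Cl (span k (GroupLike.val '' S)) := by
  refine ⟨fun φ => (span_le.2 ?_ :
      span k (GroupLike.val '' S) ≤ comap (lact φ) (span k (GroupLike.val '' S))),
    fun φ => (span_le.2 ?_ :
      span k (GroupLike.val '' S) ≤ comap (ract φ) (span k (GroupLike.val '' S)))⟩
  · rintro _ ⟨g, hg, rfl⟩
    have : lact φ (g : H) = φ.ofConv g • (g : H) := eq_of_du (k := k) fun θ => by
      rw [du_lact, du_gl, map_smul, smul_eq_mul, mul_comm]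
    rw [SetLike.mem_coe, mem_comap, this]
    exact smul_mem _ _ (subset_span ⟨g, hg, rfl⟩)
  · rintro _ ⟨g, hg, rfl⟩
    have : ract φ (g : H) = φ.ofConv g • (g : H) := eq_of_du (k := k) fun θ => by
      rw [du_ract, du_gl, map_smul, smul_eq_mul]
    rw [SetLike.mem_coe, mem_comap, this]
    exact smul_mem _ _ (subset_span ⟨g, hg, rfl⟩)

variable (k H) in
/-- The span of the grouplike elements. -/
def KG : Submodule k H := span k (Set.range (GroupLike.val : GroupLike k H → H))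

theorem cl_KG : Cl (KG k H) := by
  rw [KG, ← Set.image_univ]
  exact cl_span_gl _

theorem mem_of_filt {U : ℕ → Submodule k H} (hU : Monotone U) (h0 : U 0 = ⊥) {N : ℕ}
    {t : H ⊗[k] H} (ht : ∀ p : H →ₗ[k] H, (∀ y ∈ U N, p y = y) → TensorProduct.map p p t = t)
    {Z : Submodule k (H ⊗[k] H)} (R : ℕ → ℕ → Prop)
    (h1 : ∀ s s', R s s' → ∀ x ∈ U (s + 1), ∀ y ∈ U (s' + 1), x ⊗ₜ y ∈ Z)
    (h2 : ∀ s s', ¬ R s s' → ∀ φ ψ : H →ₗ[k] k, (∀ y ∈ U s, φ y = 0) → (∀ y ∈ U s', ψ y = 0) →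
      pair φ ψ t = 0) : t ∈ Z := by
  choose P p1 p2 using fun a => exists_proj (U a)
  have z : P 0 = 0 := LinearMap.ext fun y => by
    have := p1 0 y
    rwa [h0, mem_bot] at this
  have hsum := Finset.sum_range_sub P N
  rw [z, sub_zero] at hsum
  rw [← ht (P N) (p2 N), ← hsum, map_sum_sum]
  refine sum_mem fun a _ => sum_mem fun b _ => ?_
  have hq : ∀ a y, (P (a + 1) - P a) y ∈ U (a + 1) := fun a y =>
    sub_mem (p1 _ y) (hU (Nat.le_succ a) (p1 a y))
  by_cases hab : R a b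
  · clear ht h2
    induction t with
    | zero => simp
    | add s t hs ht => rw [map_add]; exact add_mem hs ht
    | tmul u v => rw [map_tmul]; exact h1 a b hab _ (hq a u) _ (hq b v)
  · have hk : ∀ (φ : H →ₗ[k] k) a, ∀ y ∈ U a, φ.comp (P (a + 1) - P a) y = 0 := by
      intro φ a y hy
      simp [p2 a y hy, p2 (a + 1) y (hU (Nat.le_succ a) hy)]
    rw [tensor_zero (t := TensorProduct.map _ _ _) fun φ ψ => ?_]
    · exact zero_mem _
    rw [pair_map]
    exact h2 a b hab _ _ (hk φ a) (hk ψ b)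

variable (k H) in
/-- A subcoalgebra, its grouplike elements, and dual functionals. -/
structure ZS where
  C : Submodule k H
  T : Finset (GroupLike k H)
  e : GroupLike k H → Du k H
  cl : Cl C
  mem : ∀ g ∈ T, (g : H) ∈ C
  inf : KG k H ⊓ C ≤ span k (GroupLike.val '' (T : Set (GroupLike k H)))
  e1 : ∀ a : GroupLike k H, (e a).ofConv a = 1
  e0 : ∀ a c : GroupLike k H, c ≠ a → (e a).ofConv c = 0

namespace ZS

variable (Z : ZS k H)

/-- The coradical filtration of the subcoalgebra. -/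
def U (a : ℕ) : Submodule k H := Uw (KG k H) a ⊓ Z.C

/-- The functional vanishes on a step of the filtration. -/
def Kl (a : ℕ) (φ : Du k H) : Prop := ∀ y ∈ Z.U a, φ.ofConv y = 0

theorem U_mono : Monotone Z.U := fun _ _ h => inf_le_inf_right _ (Uw_mono cl_KG h)

theorem U_zero : Z.U 0 = ⊥ := by rw [U, Uw_zero, bot_inf_eq]

theorem U_cl (a : ℕ) : Cl (Z.U a) := (Uw_cl cl_KG a).inf Z.cl

theorem U_one : Z.U 1 ≤ span k (GroupLike.val '' (Z.T : Set (GroupLike k H))) :=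
  (inf_le_inf_right _ Uw_one_le).trans Z.inf

theorem gl_mem {g : GroupLike k H} (hg : g ∈ Z.T) {a : ℕ} (ha : 1 ≤ a) : (g : H) ∈ Z.U a :=
  Z.U_mono ha ⟨le_Uw_one cl_KG (subset_span ⟨g, rfl⟩), Z.mem g hg⟩

variable {Z}

theorem Kl.mul {a b c : ℕ} {φ ψ : Du k H} (h1 : Z.Kl a φ) (h2 : Z.Kl b ψ) (h : c ≤ a + b) :
    Z.Kl c (φ * ψ) := fun _ hy => Uw_pair cl_KG Z.cl h1 h2 (Z.U_mono h hy)

theorem kl_zero (φ : Du k H) : Z.Kl 0 φ := fun y hy => by
  rw [Z.U_zero, mem_bot] at hy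
  rw [hy, map_zero]

theorem Kl.left {a : ℕ} {φ : Du k H} (h : Z.Kl a φ) (ψ : Du k H) : Z.Kl a (ψ * φ) :=
  (kl_zero ψ).mul h (by omega)

theorem Kl.right {a : ℕ} {φ : Du k H} (h : Z.Kl a φ) (ψ : Du k H) : Z.Kl a (φ * ψ) :=
  h.mul (kl_zero ψ) (by omega)

theorem Kl.mono {a b : ℕ} {φ : Du k H} (h : Z.Kl b φ) (hab : a ≤ b) : Z.Kl a φ :=
  fun y hy => h y (Z.U_mono hab hy)

theorem kl_one {φ : Du k H} (h : ∀ g ∈ Z.T, φ.ofConv g = 0) : Z.Kl 1 φ := fun _ hy =>
  (span_le.2 (by rintro _ ⟨g, hg, rfl⟩; exact h g hg) :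
    span k (GroupLike.val '' (Z.T : Set (GroupLike k H))) ≤ LinearMap.ker φ.ofConv) (Z.U_one hy)

theorem kl_Jp {a : ℕ} {θ : Du k H} (h : θ ∈ Jp (KG k H) a) : Z.Kl a θ :=
  fun _ hy => mem_Uw.1 hy.1 θ h

variable (Z)

theorem kl_E : Z.Kl 1 (1 - ∑ a ∈ Z.T, Z.e a) := by
  refine kl_one fun g hg => ?_
  have : (∑ a ∈ Z.T, Z.e a).ofConv g = ∑ a ∈ Z.T, (Z.e a).ofConv g := by
    rw [ofConv_sum, LinearMap.sum_apply]
  change (1 : Du k H).ofConv g - (∑ a ∈ Z.T, Z.e a).ofConv g = 0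
  rw [this, du_one, g.2.counit_eq_one, Finset.sum_eq_single g (fun a _ h => Z.e0 a g h.symm)
    (fun h => (h hg).elim), Z.e1, sub_self]

/-- The component of an element for a pair of grouplike elements. -/
noncomputable def w (a b : GroupLike k H) : H →ₗ[k] H := ract (Z.e a) ∘ₗ lact (Z.e b)

theorem du_w (θ : Du k H) (a b : GroupLike k H) (v : H) :
    θ.ofConv (Z.w a b v) = (Z.e a * θ * Z.e b).ofConv v := by
  rw [w, LinearMap.comp_apply, du_ract, du_lact]

theorem w_mem (a b : GroupLike k H) {c : ℕ} {v : H} (hv : v ∈ Z.U c) : Z.w a b v ∈ Z.U c :=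
  (Z.U_cl c).r _ _ ((Z.U_cl c).l _ _ hv)

theorem sub_sum_mem {c : ℕ} {v : H} (hv : v ∈ Z.U (c + 1)) :
    v - ∑ a ∈ Z.T, ∑ b ∈ Z.T, Z.w a b v ∈ Z.U c := by
  refine mem_of_du fun θ hθ => ?_
  have h1 := (Z.kl_E.mul hθ (c := c + 1) (by omega)) v hv
  have h2 := ((Kl.left hθ (∑ a ∈ Z.T, Z.e a)).mul Z.kl_E (c := c + 1) le_rfl) v hv
  have h3 : (∑ a ∈ Z.T, Z.e a) * θ * (∑ a ∈ Z.T, Z.e a) =
      ∑ a ∈ Z.T, ∑ b ∈ Z.T, Z.e a * θ * Z.e b := by
    simp only [Finset.sum_mul, Finset.mul_sum]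
    exact Finset.sum_comm
  rw [sub_mul, one_mul] at h1
  rw [mul_sub, mul_one, h3] at h2
  simp only [ofConv_sub, ofConv_sum, LinearMap.sub_apply, LinearMap.sum_apply] at h1 h2
  simp only [map_sub, map_sum, du_w]
  linear_combination h1 + h2

theorem comul_w {a b : GroupLike k H} (ha : a ∈ Z.T) (hb : b ∈ Z.T) {c : ℕ} (hc : 1 ≤ c) {v : H}
    (hv : v ∈ Z.U (c + 1)) {Y : Submodule k (H ⊗[k] H)}
    (hY : ∀ s s', s < c → s' < c → s + s' ≤ c → ∀ x ∈ Z.U (s + 1), ∀ y ∈ Z.U (s' + 1),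
      x ⊗ₜ y ∈ Y) :
    Coalgebra.comul (Z.w a b v) - (Z.w a b v ⊗ₜ (b : H) + (a : H) ⊗ₜ Z.w a b v) ∈ Y := by
  have hw := Z.w_mem a b hv
  refine mem_of_filt Z.U_mono Z.U_zero (N := c + 1) (fun p hp => ?_)
    (fun s s' => s < c ∧ s' < c ∧ s + s' ≤ c) (fun s s' h => hY s s' h.1 h.2.1 h.2.2)
    fun s s' h φ ψ h1 h2 => ?_
  · rw [map_sub, map_add, (Z.U_cl _).map_comul hp hw, map_tmul, map_tmul, hp _ hw,
      hp _ (Z.gl_mem ha (by omega)), hp _ (Z.gl_mem hb (by omega))]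
  replace h1 : Z.Kl s (toConv φ) := h1
  replace h2 : Z.Kl s' (toConv ψ) := h2
  have e1 := Z.du_w (toConv φ * toConv ψ) a b v
  have e2 := Z.du_w (toConv φ) a b v
  have e3 := Z.du_w (toConv ψ) a b v
  rw [du_mul] at e1
  change pair φ ψ _ = _ at e1
  change φ _ = _ at e2
  change ψ _ = _ at e3
  rw [map_sub, map_add, pair_tmul, pair_tmul, e1, e2, e3]
  by_cases s1 : c ≤ s
  · have h3 : Z.Kl 1 (toConv ψ * Z.e b - ψ b • Z.e b) := kl_one fun g _ => by
      change (toConv ψ * Z.e b).ofConv g - ψ b • (Z.e b).ofConv g = 0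
      rw [du_gl, smul_eq_mul]
      by_cases hg : g = b
      · rw [hg, sub_self]
      · rw [Z.e0 b g hg, mul_zero, mul_zero, sub_self]
    have h4 := (h1.left (Z.e a)).mul h3 (c := c + 1) (by omega) v hv
    have h5 : φ a = 0 := h1 _ (Z.gl_mem ha (by omega))
    rw [mul_sub, mul_smul_comm, ← mul_assoc, mul_assoc (Z.e a)] at h4
    rw [ofConv_sub, ofConv_smul, LinearMap.sub_apply, LinearMap.smul_apply, smul_eq_mul] at h4
    rw [h5]
    linear_combination h4
  by_cases s2 : c ≤ s'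
  · have h3 : Z.Kl 1 (Z.e a * toConv φ - φ a • Z.e a) := kl_one fun g _ => by
      change (Z.e a * toConv φ).ofConv g - φ a • (Z.e a).ofConv g = 0
      rw [du_gl, smul_eq_mul]
      by_cases hg : g = a
      · rw [hg, mul_comm, sub_self]
      · rw [Z.e0 a g hg, mul_zero, zero_mul, sub_self]
    have h4 := h3.mul (h2.right (Z.e b)) (c := c + 1) (by omega) v hv
    have h5 : ψ b = 0 := h2 _ (Z.gl_mem hb (by omega))
    rw [sub_mul, smul_mul_assoc, ← mul_assoc, ← mul_assoc, mul_assoc (Z.e a)] at h4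
    rw [ofConv_sub, ofConv_smul, LinearMap.sub_apply, LinearMap.smul_apply, smul_eq_mul] at h4
    rw [h5]
    linear_combination h4
  have h4 := ((h1.mul h2 (c := c + 1) (by omega)).left (Z.e a)).right (Z.e b) v hv
  have h5 : φ a = 0 := h1 _ (Z.gl_mem ha (by omega))
  have h6 : ψ b = 0 := h2 _ (Z.gl_mem hb (by omega))
  rw [h4, h5, h6]
  simp

theorem link_two {a b : GroupLike k H} (ha : a ∈ Z.T) (hb : b ∈ Z.T)
    (h : a * b⁻¹ ∉ Subgroup.closure (skewSupp k H)) {v : H} (hv : v ∈ Z.U 2) :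
    Z.w a b v ∈ Z.U 1 := by
  refine ⟨le_Uw_one cl_KG ?_, (Z.w_mem a b hv).2⟩
  by_contra hn
  refine h (Subgroup.subset_closure (skew_of_mod a b _ hn (Z.comul_w ha hb le_rfl hv ?_)))
  intro s s' h1 h2 _ x hx y hy
  obtain rfl : s = 0 := by omega
  obtain rfl : s' = 0 := by omega
  replace hx := Z.U_one hx
  replace hy := Z.U_one hy
  induction hx using span_induction with
  | zero => simp
  | add u v _ _ hu hv => rw [add_tmul]; exact add_mem hu hv
  | smul c u _ hu => rw [← smul_tmul']; exact smul_mem _ _ hu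
  | mem u hu =>
    obtain ⟨g, -, rfl⟩ := hu
    induction hy using span_induction with
    | zero => simp
    | add u v _ _ hu hv => rw [tmul_add]; exact add_mem hu hv
    | smul c u _ hu => rw [tmul_smul]; exact smul_mem _ _ hu
    | mem u hu =>
      obtain ⟨g', -, rfl⟩ := hu
      exact subset_span ⟨g, g', rfl⟩

theorem link {c : ℕ} (hc : 1 ≤ c) : ∀ a ∈ Z.T, ∀ b ∈ Z.T,
    a * b⁻¹ ∉ Subgroup.closure (skewSupp k H) → ∀ v ∈ Z.U (c + 1), Z.w a b v ∈ Z.U c := by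
  induction c, hc using Nat.le_induction with
  | base => exact fun a ha b hb h v hv => Z.link_two ha hb h hv
  | succ c hc ih =>
    intro a ha b hb h v hv
    refine ⟨mem_Uw.2 ?_, (Z.w_mem a b hv).2⟩
    rintro _ ⟨θ, h1, φ, h2, rfl⟩
    have k1 : Z.Kl c θ := kl_Jp h1
    have k2 : Z.Kl 1 φ := kl_one fun g _ => h2 _ (subset_span ⟨g, rfl⟩)
    have h3 := (((k1.left (Z.e a)).mul Z.kl_E le_rfl).mul (k2.right (Z.e b)) le_rfl) v hv
    have h4 : ∀ g ∈ Z.T, (Z.e a * θ * Z.e g * (φ * Z.e b)).ofConv v = 0 := by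
      intro g hg
      by_cases e : a * g⁻¹ ∈ Subgroup.closure (skewSupp k H)
      · have e' : g * b⁻¹ ∉ Subgroup.closure (skewSupp k H) := fun e' => h (by
          simpa [mul_assoc] using mul_mem e e')
        have k3 : Z.Kl 2 (Z.e g * φ * Z.e b) := fun y hy => by
          rw [← du_w]; exact k2 _ (Z.link_two hg hb e' hy)
        have := (k1.left (Z.e a)).mul k3 le_rfl v hv
        simpa only [mul_assoc] using this
      · have k3 : Z.Kl (c + 1) (Z.e a * θ * Z.e g) := fun y hy => by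
          rw [← du_w]; exact k1 _ (ih a ha g hg e y hy)
        exact k3.mul (k2.right (Z.e b)) le_rfl v hv
    rw [mul_sub, mul_one, sub_mul, Finset.mul_sum, Finset.sum_mul] at h3
    simp only [ofConv_sub, ofConv_sum, LinearMap.sub_apply, LinearMap.sum_apply] at h3
    rw [Finset.sum_eq_zero h4, sub_zero] at h3
    rw [du_w]
    simpa only [mul_assoc] using h3

end ZS

end Pool.Agent.Lib.MP_ff61db_al.Pt
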