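import Pool.Agent.Lib.MP_ff61db_al.Pt.ZW

/-! Letters on which the group acts by triangular matrices. -/

namespace Pool.Agent.Lib.MP_ff61db_al.Pt

open TensorProduct Submodule

/-- Letters adapted to a degeneration to diagonal type. -/
structure LD {k : Type} [Field k] {G : Type} [Group G] {X S : Type} [Ring S] [Algebra k S]
    (D : GD k G X S) (I : Type) [Fintype I] [DecidableEq I] where
  Γ : Subgroup G
  x : I → S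
  s : I → G
  χ : I → G → kˣ
  w₁ : I → ℤ
  w₂ : I → ℤ
  s_mem : ∀ i, s i ∈ Γ
  conj : ∀ γ ∈ Γ, ∀ i, D.φ γ * x i * D.φ γ⁻¹ - (χ i γ : k) • x i ∈
    wsp k x {l | Low w₁ w₂ (deg l) (e i)}
  cop : ∀ i, D.Δ (x i) - (x i ⊗ₜ 1 + D.φ (s i) ⊗ₜ x i) ∈ span k
    {t : S ⊗[k] S | ∃ a b, ∃ γ ∈ Γ, Low w₁ w₂ (deg a + deg b) (e i) ∧
      t = (wd x a * D.φ γ) ⊗ₜ wd x b}
  Q : S →ₗ[k] S
  Q_wd : ∀ a, ∀ γ ∈ Γ, Q (wd x a * D.φ γ) - wd x a ∈ wsp k x {l | Low w₁ w₂ (deg l) (deg a)}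
  fin : ∀ n : ℤ, {l | wt w₁ (deg l) ≤ n ∧ wd x l ≠ 0}.Finite
  norm : ∀ g i, D.φ g * x i * D.φ g⁻¹ ∈ wsp k x Set.univ
  gen : ∀ j, D.y j ∈ wsp k x Set.univ

end Pool.Agent.Lib.MP_ff61db_al.Pt
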