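import Pool.Agent.Lib.MP_ff61db_al.Pt.ZDefs

/-! Skew primitive elements modulo the group algebra. -/

namespace Pool.Agent.Lib.MP_ff61db_al.Pt

open TensorProduct Submodule WithConv

section ZLink
variable {k H : Type} [Field k] [Ring H] [HopfAlgebra k H]

theorem gl_comul (g : GroupLike k H) :
    Coalgebra.comul (R := k) (g : H) = (g : H) ⊗ₜ[k] (g : H) := g.2.comul_eq_tmul_self

theorem gl_mul (g h : GroupLike k H) : ((g * h : GroupLike k H) : H) = (g : H) * (h : H) := rfl

theorem gl_mul_inv (g : GroupLike k H) : (g : H) * ((g⁻¹ : GroupLike k H) : H) = 1 := by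
  rw [← gl_mul, mul_inv_cancel]; rfl

theorem gl_inv_mul (g : GroupLike k H) : ((g⁻¹ : GroupLike k H) : H) * (g : H) = 1 := by
  rw [← gl_mul, inv_mul_cancel]; rfl

/-- A functional that picks out one grouplike element. -/
theorem exists_coord (a : GroupLike k H) :
    ∃ φ : H →ₗ[k] k, φ a = 1 ∧ ∀ c : GroupLike k H, c ≠ a → φ c = 0 := by
  have h1 : (a : H) ∉ span k ((GroupLike.val : GroupLike k H → H) '' {c | c ≠ a}) :=
    (linearIndep_groupLikeVal (R := k) (A := H)).notMem_span_image (by simp)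
  obtain ⟨f, h2, h3⟩ := Submodule.exists_dual_map_eq_bot_of_notMem h1 inferInstance
  refine ⟨(f a)⁻¹ • f, by simp [inv_mul_cancel₀ h2], fun c hc => ?_⟩
  have h4 : f c = 0 := (mem_bot k).1 (h3 ▸ mem_map_of_mem (subset_span ⟨c, hc, rfl⟩))
  simp [h4]

/-- An element that is skew primitive modulo the group algebra can be corrected. -/
theorem skew_of_mod (a b : GroupLike k H) (v : H)
    (hv : v ∉ span k (Set.range (GroupLike.val : GroupLike k H → H)))
    (h : Coalgebra.comul v - (v ⊗ₜ[k] (b : H) + (a : H) ⊗ₜ[k] v) ∈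
      span k {t : H ⊗[k] H | ∃ c d : GroupLike k H, t = (c : H) ⊗ₜ[k] (d : H)}) :
    a * b⁻¹ ∈ skewSupp k H := by
  obtain ⟨φ, h1, h0⟩ := exists_coord a
  let Φ : Du k H := toConv φ
  have hg : ∀ (ψ θ : Du k H) (c : GroupLike k H),
      (ψ * θ).ofConv c = ψ.ofConv c * θ.ofConv c := fun ψ θ c => by
    rw [du_mul, gl_comul, pair_tmul]
  let u : H := ract Φ v - φ v • (b : H)
  have hu : ∀ ψ : Du k H, ψ.ofConv u = (Φ * ψ).ofConv v - φ v * ψ.ofConv b := fun ψ => by
    simp only [u, map_sub, map_smul, du_ract, smul_eq_mul]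
  have hK : u - v ∈ span k (Set.range (GroupLike.val : GroupLike k H → H)) := by
    have h2 : ∀ t ∈ span k {t : H ⊗[k] H | ∃ c d : GroupLike k H, t = (c : H) ⊗ₜ[k] (d : H)},
        TensorProduct.lid k H (φ.rTensor H t) ∈
          span k (Set.range (GroupLike.val : GroupLike k H → H)) := by
      intro t ht
      induction ht using span_induction with
      | mem t ht =>
        obtain ⟨c, d, rfl⟩ := ht
        rw [LinearMap.rTensor_tmul, lid_tmul]
        exact smul_mem _ _ (subset_span ⟨d, rfl⟩)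
      | zero => simp
      | add s t _ _ hs ht => simpa only [map_add] using add_mem hs ht
      | smul c t _ ht => simpa only [map_smul] using smul_mem _ c ht
    have h3 := h2 _ h
    simp only [map_sub, map_add, LinearMap.rTensor_tmul, lid_tmul, h1, one_smul] at h3
    rwa [← sub_sub] at h3
  have hD : Coalgebra.comul (R := k) u = u ⊗ₜ[k] (b : H) + (a : H) ⊗ₜ[k] u := by
    rw [← sub_eq_zero]
    refine tensor_zero fun ψ θ => ?_
    have h2 : ∀ t ∈ span k {t : H ⊗[k] H | ∃ c d : GroupLike k H, t = (c : H) ⊗ₜ[k] (d : H)},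
        pair (Φ * toConv ψ).ofConv θ t = ψ a * pair φ θ t := by
      intro t ht
      induction ht using span_induction with
      | mem t ht =>
        obtain ⟨c, d, rfl⟩ := ht
        rw [pair_tmul, pair_tmul, hg]
        change φ c * ψ c * θ d = _
        by_cases hc : c = a
        · rw [hc]; ring
        · rw [h0 c hc]; ring
      | zero => simp
      | add s t _ _ hs ht => simp only [map_add, hs, ht, mul_add]
      | smul c t _ ht => simp only [map_smul, ht, smul_eq_mul]; ring
    have h3 := h2 _ h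
    have h4 := hu (toConv ψ * toConv θ)
    have h5 := hu (toConv ψ)
    have h6 := hu (toConv θ)
    have h7 := du_mul (Φ * toConv ψ) (toConv θ) v
    have h8 := du_mul Φ (toConv θ) v
    have h9 := hg Φ (toConv ψ) a
    rw [← mul_assoc, hg, du_mul] at h4
    simp only [map_sub, map_add, pair_tmul] at h3 ⊢
    rw [h9] at h3
    change pair ψ θ _ = _ - φ v * (ψ b * θ b) at h4
    change ψ u = _ - φ v * ψ b at h5
    change θ u = _ - φ v * θ b at h6
    change _ = pair _ θ _ at h7
    change _ = pair φ θ _ at h8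
    change _ - (_ + φ a * ψ a * θ v) = _ at h3
    rw [h1] at h3
    rw [h4, h5, h6, h7, h8]
    linear_combination h3
  refine ⟨u * ((b⁻¹ : GroupLike k H) : H), ?_, fun hm => hv ?_⟩
  · rw [Bialgebra.comul_mul, hD, gl_comul, add_mul, Algebra.TensorProduct.tmul_mul_tmul,
      Algebra.TensorProduct.tmul_mul_tmul, gl_mul_inv, gl_mul]
  · obtain ⟨c, d, hcd⟩ := mem_span_pair.1 hm
    have h2 : u = c • (b : H) + d • (a : H) := by
      have h3 := congrArg (· * (b : H)) hcd
      simp only [add_mul, smul_mul_assoc, one_mul, gl_mul, mul_assoc, gl_inv_mul, mul_one] at h3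
      exact h3.symm
    have h3 : u ∈ span k (Set.range (GroupLike.val : GroupLike k H → H)) :=
      h2 ▸ add_mem (smul_mem _ _ (subset_span ⟨b, rfl⟩)) (smul_mem _ _ (subset_span ⟨a, rfl⟩))
    simpa using sub_mem h3 hK

theorem skewSupp_conj (γ : GroupLike k H) {g : GroupLike k H} (hg : g ∈ skewSupp k H) :
    γ * g * γ⁻¹ ∈ skewSupp k H := by
  obtain ⟨v, h1, h2⟩ := hg
  refine ⟨(γ : H) * v * ((γ⁻¹ : GroupLike k H) : H), ?_, fun hm => h2 ?_⟩
  · rw [Bialgebra.comul_mul, Bialgebra.comul_mul, h1, gl_comul, gl_comul, mul_add, add_mul]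
    simp only [Algebra.TensorProduct.tmul_mul_tmul, mul_one, gl_mul_inv, gl_mul]
  · obtain ⟨c, d, hcd⟩ := mem_span_pair.1 hm
    refine mem_span_pair.2 ⟨c, d, ?_⟩
    have h3 := congrArg (fun y => ((γ⁻¹ : GroupLike k H) : H) * y * (γ : H)) hcd
    simp only [mul_add, add_mul, smul_mul_assoc, mul_smul_comm, mul_one, gl_mul, mul_assoc,
      gl_inv_mul] at h3
    simpa only [← mul_assoc, gl_inv_mul, one_mul] using h3

end ZLink

end Pool.Agent.Lib.MP_ff61db_al.Pt
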