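import Pool.Agent.Lib.MP_ff61db_al.Pt.ZLD
import Pool.Agent.Lib.MP_ff61db_al.Pt.Num
import Pool.Agent.Lib.MP_ff61db_al.Pt.ZDbl

/-! The projection killing the group, finiteness of degrees and of nonzero words. -/

namespace Pool.Agent.Lib.MP_ff61db_al.Pt

open TensorProduct Submodule

variable {k : Type} [Field k] {G : Type} [Group G] {X S : Type} [Ring S] [Algebra k S]

/-- The conjugates of the generators. -/
def GD.c (D : GD k G X S) (γ : G) (i : X) : S := D.φ γ * D.y i * D.φ γ⁻¹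

theorem GD.c_conj (D : GD k G X S) (δ γ : G) (i : X) :
    D.φ δ * D.c γ i * D.φ δ⁻¹ = D.c (δ * γ) i := by
  simp only [GD.c, mul_inv_rev, map_mul, mul_assoc]

theorem GD.c_cop (D : GD k G X S) (γ : G) (i : X) :
    D.Δ (D.c γ i) = D.c γ i ⊗ₜ 1 + D.φ (γ * D.g i * γ⁻¹) ⊗ₜ D.c γ i := by
  have h : D.φ γ * D.φ γ⁻¹ = 1 := by rw [← map_mul, mul_inv_cancel, map_one]
  simp only [GD.c, map_mul, D.Δφ, D.Δy, mul_add, add_mul, Algebra.TensorProduct.tmul_mul_tmul,
    mul_one, h]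

theorem GD.coord (D : GD k G X S) (w : G → S) : ∃ f : S →ₗ[k] S, ∀ g, f (D.φ g) = w g :=
  exists_lin' _ _ fun c hc => by rw [linearIndependent_iff.1 D.ind c hc, map_zero]

theorem GD.wd_zero (D : GD k G X S) : ∀ l : List (G ⊕ X), wl (Sum.elim (fun _ => 0) D.n) l = 0 →
    ∃ g, wd (Sum.elim (fun g => D.φ g) D.y) l = D.φ g
  | [], _ => ⟨1, by rw [zwd_nil, map_one]⟩
  | .inl a :: l, h => by
    obtain ⟨g, hg⟩ := D.wd_zero l (by simpa [zwl_cons] using h)
    exact ⟨a * g, by rw [zwd_cons, hg, map_mul]; rfl⟩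
  | .inr i :: l, h => by
    have := D.pos i
    simp only [zwl_cons, Sum.elim_inr] at h
    omega

theorem GD.exists_Q (D : GD k G X S) (P : Subgroup G) [hP : P.Normal] :
    ∃ Q : S →ₗ[k] S, (∀ γ i t, Q (D.c γ i * t) = D.c γ i * Q t) ∧
      (∀ u ∈ P, ∀ t, Q (D.φ u * t) = D.φ u * Q t) ∧ ∀ γ, ∃ u ∈ P, Q (D.φ γ) = D.φ u := by
  obtain ⟨ν₀, h0⟩ := D.coord fun g => D.φ (QuotientGroup.mk g : G ⧸ P).out⁻¹
  let ν : S →ₗ[k] S := ν₀ ∘ₗ D.pr 0
  have ext : ∀ {f g : S →ₗ[k] S}, (∀ l, f (wd (Sum.elim (fun g => D.φ g) D.y) l) =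
      g (wd (Sum.elim (fun g => D.φ g) D.y) l)) → f = g := fun {f g} h =>
    LinearMap.ext_on D.span (by rintro _ ⟨l, -, rfl⟩; exact h l)
  have p0 : ∀ g, D.pr 0 (D.φ g) = D.φ g := fun g => by
    have := D.pr_wd 0 [.inl g]
    rwa [if_pos (by simp [wl]), zwd_one] at this
  have n1 : ∀ γ i t, ν (D.c γ i * t) = 0 := fun γ i t => by
    have : ν ∘ₗ LinearMap.mulLeft k (D.c γ i) = 0 := ext fun l => by
      have := D.pr_wd 0 (.inl γ :: .inr i :: .inl γ⁻¹ :: l)
      have hi := D.pos i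
      rw [if_neg (by simp only [zwl_cons, Sum.elim_inr]; omega)] at this
      simp only [zwd_cons, Sum.elim_inl, Sum.elim_inr] at this
      simp [ν, GD.c, mul_assoc, this]
    exact LinearMap.congr_fun this t
  have n2 : ∀ u ∈ P, ∀ t, ν (D.φ u * t) = ν t := fun u hu t => by
    have : ν ∘ₗ LinearMap.mulLeft k (D.φ u) = ν := ext fun l => by
      change ν₀ (D.pr 0 (D.φ u * _)) = ν₀ (D.pr 0 _)
      by_cases e : wl (Sum.elim (fun _ => 0) D.n) l = 0
      · obtain ⟨g, hg⟩ := D.wd_zero l e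
        have : (QuotientGroup.mk (u * g) : G ⧸ P) = QuotientGroup.mk g := by
          rw [QuotientGroup.eq]
          simpa [mul_assoc] using hP.conj_mem _ (inv_mem hu) g⁻¹
        rw [hg, ← map_mul, p0, p0, h0, h0, this]
      · have := D.pr_wd 0 (.inl u :: l)
        rw [if_neg (by simpa [zwl_cons] using e), zwd_cons, Sum.elim_inl] at this
        rw [this, D.pr_wd, if_neg e]
    exact LinearMap.congr_fun this t
  let Ψ : S ⊗[k] S →ₗ[k] S := LinearMap.mul' k S ∘ₗ ν.lTensor S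
  have q1 : ∀ (a b : S) (T : S ⊗[k] S), (∀ t, ν (b * t) = ν t) → Ψ (a ⊗ₜ b * T) = a * Ψ T := by
    intro a b T h
    induction T with
    | zero => simp
    | tmul u v => simp [Ψ, h, mul_assoc]
    | add s t hs ht => rw [mul_add, map_add, map_add, hs, ht, mul_add]
  have q2 : ∀ (a b : S) (T : S ⊗[k] S), (∀ t, ν (b * t) = 0) → Ψ (a ⊗ₜ b * T) = 0 := by
    intro a b T h
    induction T with
    | zero => simp
    | tmul u v => simp [Ψ, h]
    | add s t hs ht => rw [mul_add, map_add, hs, ht, add_zero]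
  refine ⟨Ψ ∘ₗ D.Δ.toLinearMap, fun γ i t => ?_, fun u hu t => ?_, fun γ =>
    ⟨γ * (QuotientGroup.mk γ : G ⧸ P).out⁻¹, ?_, ?_⟩⟩
  · change Ψ (D.Δ _) = _ * Ψ (D.Δ _)
    rw [map_mul, D.c_cop, add_mul, map_add, q1 _ _ _ (by simp), q2 _ _ _ (n1 γ i), add_zero]
  · change Ψ (D.Δ _) = _ * Ψ (D.Δ _)
    rw [map_mul, D.Δφ, q1 _ _ _ (n2 u hu)]
  · have := QuotientGroup.eq.1 (QuotientGroup.out_eq' (QuotientGroup.mk γ : G ⧸ P))
    simpa [mul_assoc] using hP.conj_mem _ this (QuotientGroup.mk γ : G ⧸ P).out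
  · change Ψ (D.Δ _) = _
    rw [D.Δφ, map_mul]
    simp [Ψ, ν, p0, h0]

theorem GD.finite_deg [Group.FG G] [Finite X] (D : GD k G X S) (h : FGK k S) :
    {d | ∃ γ i, D.c γ i ≠ 0 ∧ d = γ * D.g i * γ⁻¹}.Finite := by
  classical
  have : ∀ i, {d | ∃ γ, D.c γ i ≠ 0 ∧ d = γ * D.g i * γ⁻¹}.Finite := by
    intro i
    let T := {d | ∃ γ, D.c γ i ≠ 0 ∧ d = γ * D.g i * γ⁻¹}
    choose γ h1 h2 using fun d : T => d.2
    have hi : LinearIndependent k fun d : T => D.c (γ d) i := by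
      rw [linearIndependent_iff']
      intro s g hg d hd
      obtain ⟨f, hf⟩ := D.coord fun g => if g = d.1 then 1 else 0
      have h3 : ∑ d ∈ s, g d • D.φ d.1 ⊗ₜ[k] D.c (γ d) i = 0 := by
        have h4 : D.Δ (∑ d ∈ s, g d • D.c (γ d) i) = (∑ d ∈ s, g d • D.c (γ d) i) ⊗ₜ 1 +
            ∑ d ∈ s, g d • D.φ d.1 ⊗ₜ[k] D.c (γ d) i := by
          rw [map_sum, sum_tmul, ← Finset.sum_add_distrib]
          exact Finset.sum_congr rfl fun d _ => by
            rw [map_smul, D.c_cop, smul_add, ← h2, smul_tmul']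
        rwa [hg, map_zero, zero_tmul, zero_add, eq_comm] at h4
      have h4 := congrArg (LinearMap.mul' k S ∘ₗ f.rTensor S) h3
      rw [map_sum, map_zero, Finset.sum_eq_single_of_mem d hd] at h4
      · simpa [hf, h1] using h4
      · intro d' _ hne
        simp [hf, Subtype.coe_injective.ne hne]
    have := Module.Finite.iff_fg.2 (D.conj_fg h i)
    have h5 : LinearIndependent k fun d : T => (⟨D.c (γ d) i, subset_span ⟨γ d, rfl⟩⟩ :
        Submodule.span k (Set.range fun γ : G => D.φ γ * D.y i * D.φ γ⁻¹)) :=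
      LinearIndependent.of_comp (Submodule.subtype _) hi
    exact Set.finite_coe_iff.1 h5.finite
  refine (Set.finite_iUnion this).subset ?_
  rintro d ⟨γ, i, h1, h2⟩
  exact Set.mem_iUnion.2 ⟨i, γ, h1, h2⟩

theorem finite_words {I : Type} [Fintype I] [DecidableEq I] (x : I → S) (w : I → ℤ)
    {J : Submodule k S} {M : ℕ} (hJ : J ^ M = ⊥) (h : ∀ i, (w i = 0 ∧ x i ∈ J) ∨ 1 ≤ w i) (n : ℤ) :
    {l | wt w (deg l) ≤ n ∧ wd x l ≠ 0}.Finite := by
  have big : ∀ j, ∀ u ∈ J ^ j, u ≠ 0 → j < M := fun j u hu hne => by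
    by_contra e
    obtain ⟨j, rfl⟩ := Nat.exists_eq_add_of_le (not_lt.1 e)
    rw [pow_add, hJ, bot_mul, mem_bot] at hu
    exact hne hu
  have key : ∀ (l : List I) (j : ℕ), ∀ u ∈ J ^ j, u * wd x l ≠ 0 →
      (j : ℤ) + l.length < M + (M + 1) * wl w l := by
    intro l
    induction l with
    | nil =>
      intro j u hu hne
      have := big j u hu (by simpa [zwd_nil] using hne)
      simpa [zwl_nil] using this
    | cons a l ih =>
      intro j u hu hne
      rw [zwd_cons, ← mul_assoc] at hne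
      rw [zwl_cons, List.length_cons]
      rcases h a with ⟨h1, h2⟩ | h1
      · have := ih (j + 1) _ (by rw [pow_succ]; exact mul_mem_mul hu h2) hne
        rw [h1]
        push_cast at this ⊢
        linarith
      · have h2 := ih 0 1 (by rw [pow_zero]; exact Submodule.one_le.1 le_rfl)
          (by rw [one_mul]; exact right_ne_zero_of_mul hne)
        have h3 : (j : ℤ) < M := by
          exact_mod_cast big j u hu (left_ne_zero_of_mul (left_ne_zero_of_mul hne))
        push_cast at h2 ⊢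
        nlinarith
  refine (List.finite_length_le I (M + (M + 1) * n).toNat).subset fun l hl => ?_
  have h1 := key l 0 1 (by rw [pow_zero]; exact Submodule.one_le.1 le_rfl) (by simpa using hl.2)
  have h2 := hl.1
  rw [wt_deg] at h2
  have h3 : ((M : ℤ) + 1) * wl w l ≤ (M + 1) * n := mul_le_mul_of_nonneg_left h2 (by positivity)
  change l.length ≤ _
  omega

end Pool.Agent.Lib.MP_ff61db_al.Pt
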