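import Pool.Agent.Lib.MP_ff61db_al.Pt.Sp

/-! Specialisation of an algebra whose words have normal forms. -/

namespace Pool.Agent.Lib.MP_ff61db_al.Pt.B7

open Submodule Module TensorProduct IsLocalRing MulOpposite

variable {k X A H S : Type} [Field k] {O : ValuationSubring k} [Ring H] [Algebra k H] [Ring S]
  [Algebra (ResidueField O) S]

theorem isAlgClosed_residue [IsAlgClosed k] (O : ValuationSubring k) :
    IsAlgClosed (ResidueField O) := by
  refine IsAlgClosed.of_exists_root _ fun f hf hi => ?_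
  obtain ⟨g, h1, h2, h3⟩ := Polynomial.lifts_and_degree_eq_and_monic
    ((Polynomial.mem_lifts f).2 (Polynomial.map_surjective _ (residue_surjective (R := O)) f)) hf
  obtain ⟨x, hx⟩ := IsAlgClosed.exists_aeval_eq_zero k g (h2 ▸ (Polynomial.degree_pos_of_irreducible
    hi).ne')
  obtain ⟨x, rfl⟩ := (IsIntegrallyClosed.isIntegral_iff (R := O) (K := k)).1 ⟨g, h3, hx⟩
  rw [Polynomial.aeval_algebraMap_apply, Polynomial.coe_aeval_eq_eval,
    map_eq_zero_iff _ (IsFractionRing.injective O k)] at hx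
  refine ⟨residue O x, ?_⟩
  rw [← h1, Polynomial.eval_map, Polynomial.eval₂_at_apply, hx, map_zero]

theorem exists_place_p (k : Type) [Field k] [CharZero k] (p : ℕ) [hp : Fact p.Prime] :
    ∃ O : ValuationSubring k, CharP (ResidueField O) p := by
  obtain ⟨O, h1, h2⟩ := Ideal.image_subset_nonunits_valuationSubring
    (A := (Int.castRingHom k).range) (Ideal.span {(p : (Int.castRingHom k).range)}) (by
      rw [Ne, Ideal.span_singleton_eq_top, isUnit_iff_exists_inv]
      rintro ⟨⟨_, m, rfl⟩, h⟩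
      have h3 : ((p * m : ℤ) : k) = (1 : ℤ) := by simpa using congrArg Subtype.val h
      have h4 := Int.eq_one_of_mul_eq_one_right (Int.natCast_nonneg p) (Int.cast_injective h3)
      exact hp.1.ne_one (by exact_mod_cast h4))
  refine ⟨O, (CharP.charP_iff_prime_eq_zero hp.1).2 ?_⟩
  rw [← map_natCast (residue O), residue_eq_zero_iff]
  exact O.coe_mem_nonunits_iff.1 (h2 ⟨p, Ideal.mem_span_singleton_self _, rfl⟩)

theorem redR_sub {v w : X →₀ k} {v' w'} (h : redR O v v') (h' : redR O w w') :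
    redR O (v - w) (v' - w') := by
  refine ⟨fun x => sub_mem (h.1 x) (h'.1 x), fun x => ?_⟩
  rw [Finsupp.sub_apply, Finsupp.sub_apply, h.2, h'.2, sub_eq_iff_eq_add,
    ← red_add (sub_mem (h.1 x) (h'.1 x)) (h'.1 x), sub_add_cancel]

theorem redR_zero : redR O (0 : X →₀ k) 0 := ⟨fun _ => O.zero_mem, fun _ => red_zero.symm⟩

theorem sp_map' {Y : Type} {F : (X →₀ k) →ₗ[k] (Y →₀ k)}
    {F' : (X →₀ ResidueField O) →ₗ[ResidueField O] (Y →₀ ResidueField O)}
    (hF : ∀ x, redR O (F (Finsupp.single x 1)) (F' (Finsupp.single x 1)))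
    {N : Submodule k (X →₀ k)} {N' : Submodule k (Y →₀ k)} (hN : ∀ c ∈ N, F c ∈ N') :
    ∀ c ∈ sp (ResidueField O) (redR O) N, F' c ∈ sp (ResidueField O) (redR O) N' :=
  fun _ hc => (span_le (p := (sp _ (redR O) N').comap F')).2
    (fun _ h => h.elim fun v h => mem_sp (hN v h.1) (redR_map hF h.2)) hc

theorem wd_eq_of_eq {z : A → H} {y : A → S}
    (hy : ∀ c ∈ sp (ResidueField O) (redR O) (LinearMap.ker (lc k z)), lc _ y c = 0)
    {l l' : List A} (h : wd z l = wd z l') : wd y l = wd y l' := by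
  have := hy _ (mem_sp (v := Finsupp.single l 1 - Finsupp.single l' 1) (by simp [lc_single, h])
    (redR_sub (redR_one l) (redR_one l')))
  simpa [lc_single, sub_eq_zero] using this

/-- Normal forms of words, finitely many in each weight. -/
structure NF (z : A → H) (ω : A → ℕ) (ν : List A → List A) : Prop where
  val : ∀ l, wd z (ν l) = wd z l
  wt : ∀ l, wl ω (ν l) = wl ω l
  idem : ∀ l, ν (ν l) = ν l
  fin : ∀ m, {l | ν l = l ∧ wl ω l ≤ m}.Finite

/-- Truncation followed by the normal form. -/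
noncomputable def nfP (F : Type) [Field F] (ω : A → ℕ) (ν : List A → List A) (m : ℕ) :
    (List A →₀ F) →ₗ[F] (List A →₀ F) :=
  (Finsupp.lmapDomain F F ν).comp (pt F {l | wl ω l ≤ m})

variable {z : A → H} {ω : A → ℕ} {ν : List A → List A}

theorem nfP_single (F : Type) [Field F] (m : ℕ) (l : List A) :
    nfP F ω ν m (Finsupp.single l 1) = if wl ω l ≤ m then Finsupp.single (ν l) 1 else 0 := by
  by_cases h : wl ω l ≤ m <;> simp [nfP, pt_single, h]

theorem redR_nfP (m : ℕ) (l : List A) : redR O (nfP k ω ν m (Finsupp.single l 1))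
    (nfP (ResidueField O) ω ν m (Finsupp.single l 1)) := by
  rw [nfP_single, nfP_single]
  split_ifs
  exacts [redR_one _, redR_zero]

theorem NF.lc_nf (h : NF z ω ν) (c : List A →₀ k) :
    lc k z (Finsupp.lmapDomain k k ν c) = lc k z c :=
  lin_congr ((lc k z).comp (Finsupp.lmapDomain k k ν)) (lc k z) c fun l _ => by
    simp [lc_single, h.val]

theorem NF.nfP_span (h : NF z ω ν) (F : Type) [Field F] (m : ℕ) (c : List A →₀ F) :
    nfP F ω ν m c ∈ span F (sb F (List A) '' (h.fin m).toFinset) := by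
  rw [← Submodule.Quotient.mk_eq_zero]
  refine lin_congr ((Submodule.mkQ _).comp (nfP F ω ν m)) 0 c fun l _ => ?_
  refine (Submodule.Quotient.mk_eq_zero _).2 ?_
  rw [nfP_single]
  split_ifs with e
  · exact subset_span ⟨ν l, by simpa [h.idem, h.wt] using e, rfl⟩
  · exact zero_mem _

theorem NF.nfP_self (h : NF z ω ν) (F : Type) [Field F] (m : ℕ) {c : List A →₀ F}
    (hc : c ∈ span F (sb F (List A) '' (h.fin m).toFinset)) : nfP F ω ν m c = c :=
  lin_congr _ LinearMap.id c fun l hl => by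
    have := (mem_span_sb _ _).1 hc l hl
    simp only [Set.Finite.coe_toFinset, Set.mem_ofPred_eq] at this
    rw [nfP_single, if_pos this.2, this.1]
    rfl

theorem NF.nfP_mem (h : NF z ω ν) {N : Submodule k (List A →₀ k)} (hN : Grd (wl ω) N)
    (hW : LinearMap.ker (lc k z) ≤ N) (m : ℕ) : ∀ c ∈ N, nfP k ω ν m c ∈ N := fun c hc => by
  have h1 : pt k {l | wl ω l ≤ m} c ∈ N := hN.pt_mem (fun l l' e hl => e.symm.trans_le hl) hc
  rw [← sub_add_cancel (nfP k ω ν m c) (pt k {l | wl ω l ≤ m} c)]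
  exact add_mem (hW (by simp [nfP, ← h.lc_nf (pt k _ c)])) h1

theorem NF.sp_inf (h : NF z ω ν) {N : Submodule k (List A →₀ k)} (hN : Grd (wl ω) N)
    (hW : LinearMap.ker (lc k z) ≤ N) (m : ℕ) :
    sp (ResidueField O) (redR O) N ⊓ span _ (sb _ (List A) '' (h.fin m).toFinset) =
      sp (ResidueField O) (redR O) (N ⊓ span k (sb k (List A) '' (h.fin m).toFinset)) := by
  refine le_antisymm (fun v hv => ?_)
    (le_inf (sp_mono inf_le_left) ((sp_mono inf_le_right).trans (spec_red.sp_le_span _)))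
  rw [← h.nfP_self _ m hv.2]
  exact sp_map' (redR_nfP m) (fun c hc => mem_inf.2 ⟨h.nfP_mem hN hW m c hc, h.nfP_span k m c⟩)
    v hv.1

theorem NF.le_of_sp_le (h : NF z ω ν) {N N' : Submodule k (List A →₀ k)} (hN : Grd (wl ω) N)
    (hN' : Grd (wl ω) N') (hW : LinearMap.ker (lc k z) ≤ N) (h1 : N ≤ N')
    (h2 : sp (ResidueField O) (redR O) N' ≤ sp (ResidueField O) (redR O) N) : N' ≤ N := by
  intro c hc
  let m := c.support.sup (wl ω)
  have e1 := (spec_red (O := O).main (h.fin m).toFinset (W := N ⊓ _) inf_le_right).1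
  have e2 := (spec_red (O := O).main (h.fin m).toFinset (W := N' ⊓ _) inf_le_right).1
  rw [← h.sp_inf hN' (hW.trans h1), le_antisymm h2 (sp_mono h1), h.sp_inf hN hW, e1] at e2
  have : FiniteDimensional k (span k (sb k (List A) '' (h.fin m).toFinset)) :=
    FiniteDimensional.span_of_finite k ((Finset.finite_toSet _).image _)
  have : FiniteDimensional k (N' ⊓ span k (sb k (List A) '' (h.fin m).toFinset) : Submodule k _) :=
    Submodule.finiteDimensional_of_le inf_le_right
  have e3 := Submodule.eq_of_le_of_finrank_eq (inf_le_inf_right _ h1) e2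
  have h3 : nfP k ω ν m c ∈ N' ⊓ span k (sb k (List A) '' (h.fin m).toFinset) :=
    ⟨h.nfP_mem hN' (hW.trans h1) m c hc, h.nfP_span k m c⟩
  rw [← e3] at h3
  rw [← sub_add_cancel c (nfP k ω ν m c)]
  refine add_mem (hW ?_) h3.1
  rw [LinearMap.mem_ker, map_sub, nfP, LinearMap.comp_apply, h.lc_nf, pt_eq_self, sub_self]
  exact fun l hl => Finset.le_sup (f := wl ω) (Finsupp.mem_support_iff.2 hl)

theorem NF.wsp_eq (h : NF z ω ν) (m : ℕ) {F T : Type} [Field F] [Ring T] [Algebra F T] {y : A → T}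
    (hy : ∀ l, wd y (ν l) = wd y l) : wsp F y {l | wl ω l ≤ m} = wsp F y (h.fin m).toFinset := by
  refine le_antisymm (span_le.2 ?_) (span_mono (Set.image_mono fun l hl => ?_))
  · rintro _ ⟨l, hl, rfl⟩
    exact subset_span ⟨ν l, by simpa [h.idem, h.wt] using hl, hy l⟩
  · exact ((Set.Finite.mem_toFinset _).1 hl).2

theorem NF.rank_eq (h : NF z ω ν) (hz : Grd (wl ω) (LinearMap.ker (lc k z))) {y : A → S}
    (hy : LinearMap.ker (lc _ y) = sp (ResidueField O) (redR O) (LinearMap.ker (lc k z))) (m : ℕ) :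
    finrank (ResidueField O) (wsp (ResidueField O) y {l | wl ω l ≤ m}) =
      finrank k (wsp k z {l | wl ω l ≤ m}) := by
  rw [h.wsp_eq m h.val, h.wsp_eq m fun l => wd_eq_of_eq (fun _ hc => hy.ge hc) (h.val l)]
  have e1 := rank_wsp (k := k) z (h.fin m).toFinset
  have e2 := rank_wsp (k := ResidueField O) y (h.fin m).toFinset
  rw [hy, h.sp_inf hz le_rfl, (spec_red.main _ inf_le_right).1] at e2
  omega

theorem NF.lift (h : NF z ω ν) (hz : Grd (wl ω) (LinearMap.ker (lc k z)))
    {ψ : Dual (ResidueField O) (List A →₀ ResidueField O)}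
    (hψ : ∀ c ∈ sp (ResidueField O) (redR O) (LinearMap.ker (lc k z)), ψ c = 0) (m : ℕ) :
    ∃ ψ' ∈ spD (redQ O) (LinearMap.ker (lc k z)),
      ∀ l, wl ω l ≤ m → ψ' (Finsupp.single l 1) = ψ (Finsupp.single l 1) := by
  have h1 := (spec_red (O := O).main (h.fin m).toFinset (W := LinearMap.ker (lc k z) ⊓ _)
    inf_le_right).2 ψ fun c hc => hψ c (sp_mono inf_le_left hc)
  have h2 := Submodule.mem_map_of_mem (f := (nfP (ResidueField O) ω ν m).dualMap) h1
  rw [Submodule.map_span] at h2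
  refine ⟨_, span_mono ?_ h2, fun l hl => ?_⟩
  · rintro _ ⟨φ', ⟨φ, h3, -, h4⟩, rfl⟩
    refine ⟨φ.comp (nfP k ω ν m), fun c hc => h3 _ ⟨h.nfP_mem hz le_rfl m c hc, h.nfP_span k m c⟩,
      fun l => ?_, fun l => ?_⟩
    · exact (red_pair (redR_nfP (ω := ω) (ν := ν) m l) h4).1
    · exact (red_pair (redR_nfP (ω := ω) (ν := ν) m l) h4).2
  · rw [LinearMap.dualMap_apply, LinearMap.comp_apply, proj_eq_self (h.nfP_span _ m _), nfP_single,
      if_pos hl, ← sub_eq_zero, ← map_sub]
    exact hψ _ (mem_sp (v := Finsupp.single (ν l) 1 - Finsupp.single l 1)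
      (by simp [lc_single, h.val]) (redR_sub (redR_one _) (redR_one l)))

theorem NF.tensor (h : NF z ω ν) (hz : Grd (wl ω) (LinearMap.ker (lc k z))) {y : A → S}
    (hy : ∀ c ∈ sp (ResidueField O) (redR O) (LinearMap.ker (lc k z)), lc _ y c = 0)
    {t : List A × List A →₀ k} {t'} (ht : redR O t t')
    (h0 : Finsupp.linearCombination k (wd2 k z) t = 0) :
    Finsupp.linearCombination (ResidueField O) (wd2 (ResidueField O) y) t' = 0 := by
  refine C0.sep_dual _ fun φ ψ => ?_
  let n := t'.support.sup fun p => wl ω p.1 + wl ω p.2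
  let B : Dual _ _ →ₗ[ResidueField O] Dual _ _ →ₗ[ResidueField O] ResidueField O :=
    LinearMap.mk₂ _ (fun φ ψ : Dual (ResidueField O) (List A →₀ ResidueField O) =>
      ∑ p ∈ t'.support, t' p * (φ (Finsupp.single p.1 1) * ψ (Finsupp.single p.2 1)))
      (fun _ _ _ => by simp [add_mul, mul_add, Finset.sum_add_distrib])
      (fun _ _ _ => by simp [Finset.mul_sum, mul_assoc, mul_left_comm])
      (fun _ _ _ => by simp [mul_add, Finset.sum_add_distrib])
      (fun _ _ _ => by simp [Finset.mul_sum, mul_left_comm])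
  have hB : ∀ φ' ∈ spD (redQ O) (LinearMap.ker (lc k z)),
      ∀ ψ' ∈ spD (redQ O) (LinearMap.ker (lc k z)), B φ' ψ' = 0 := by
    intro φ' h1 ψ' h2
    refine (span_le (p := LinearMap.ker (B.flip ψ'))).2 (fun φ' h => ?_) h1
    obtain ⟨φ₀, h3, h4⟩ := h
    refine (span_le (p := LinearMap.ker (B φ'))).2 (fun ψ' h => ?_) h2
    obtain ⟨ψ₀, h5, h6⟩ := h
    obtain ⟨f, hf⟩ := exists_factor (lc k z) φ₀ h3
    obtain ⟨g, hg⟩ := exists_factor (lc k z) ψ₀ h5
    have e : ∀ p : List A × List A, (C0.pr2 f g).comp (Finsupp.linearCombination k (wd2 k z))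
        (Finsupp.single p 1) = φ₀ (Finsupp.single p.1 1) * ψ₀ (Finsupp.single p.2 1) := fun p => by
      simp [wd2, ← hf, ← hg, lc_single]
    have := (red_pair (φ := (C0.pr2 f g).comp (Finsupp.linearCombination k (wd2 k z)))
      (φ' := Finsupp.linearCombination _ fun p : List A × List A =>
        φ' (Finsupp.single p.1 1) * ψ' (Finsupp.single p.2 1)) ht
      ⟨fun p => e p ▸ mul_mem (h4.1 _) (h6.1 _), fun p => by
        rw [e, red_mul (h4.1 _) (h6.1 _), ← h4.2, ← h6.2, Finsupp.linearCombination_single,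
          one_smul]⟩).2
    rw [LinearMap.comp_apply, h0, map_zero, red_zero] at this
    exact this
  obtain ⟨φ', h1, h2⟩ := h.lift hz (ψ := φ.comp (lc _ y)) (fun c hc => by simp [hy c hc]) n
  obtain ⟨ψ', h3, h4⟩ := h.lift hz (ψ := ψ.comp (lc _ y)) (fun c hc => by simp [hy c hc]) n
  refine Eq.trans ?_ (hB _ h1 _ h3)
  refine (lin_eq_sum ((C0.pr2 φ ψ).comp (Finsupp.linearCombination _ (wd2 _ y))) t'
    subset_rfl).trans (Finset.sum_congr rfl fun p hp => ?_)
  have h5 : wl ω p.1 + wl ω p.2 ≤ n :=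
    Finset.le_sup (f := fun p : List A × List A => wl ω p.1 + wl ω p.2) hp
  rw [h2 p.1 (by omega), h4 p.2 (by omega)]
  simp [wd2, lc_single]

theorem NF.noeth (h : NF z ω ν) (hs : wsp k z Set.univ = ⊤)
    (hz : Grd (wl ω) (LinearMap.ker (lc k z))) {y : A → S}
    (hs' : wsp (ResidueField O) y Set.univ = ⊤)
    (hy : LinearMap.ker (lc _ y) ≤ sp (ResidueField O) (redR O) (LinearMap.ker (lc k z)))
    [IsNoetherianRing S] : IsNoetherianRing H := by
  have hW : LinearMap.ker (lc k z) ≤ InL z ω ⊥ := fun c hc => mem_InL.2 fun μ => by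
    rw [LinearMap.mem_ker.1 (hz μ c hc)]
    exact zero_mem _
  refine noeth_of_noChain (ω := ω) (.of _ (InvImage.wf _ Nat.lt_wfRel.wf)) hs
    fun f hf hP => noChain_of_noeth y hs' (fun n => sp _ (redR O) (f n))
      (strictMono_nat_of_lt_succ fun n => ?_) fun n => ⟨(hP n).1.sp, hy.trans (sp_mono
        (hW.trans (hP n).2.2))⟩
  have h6 := hf (Nat.lt_succ_self n)
  exact lt_of_le_of_ne (sp_mono h6.le) fun e' => h6.not_ge (h.le_of_sp_le
    (hP n).2.1 (hP (n + 1)).2.1 (hW.trans (hP n).2.2) h6.le e'.ge)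

theorem rev_rev {F : Type} [Field F] (c : List A →₀ F) : rev F A (rev F A c) = c :=
  lin_congr ((rev F A).comp (rev F A)) LinearMap.id c fun l _ => by simp [rev]

theorem NF.noeth_op (h : NF z ω ν) (hs : wsp k z Set.univ = ⊤)
    (hz : Grd (wl ω) (LinearMap.ker (lc k z))) {y : A → S}
    (hs' : wsp (ResidueField O) y Set.univ = ⊤)
    (hy : LinearMap.ker (lc _ y) ≤ sp (ResidueField O) (redR O) (LinearMap.ker (lc k z)))
    [IsNoetherianRing Sᵐᵒᵖ] : IsNoetherianRing Hᵐᵒᵖ := by
  have h' : NF (fun a => op (z a)) ω fun l => (ν l.reverse).reverse :=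
    ⟨fun l => by rw [wd_op, h.val, ← wd_op, List.reverse_reverse],
      fun l => by rw [wl_reverse, h.wt, wl_reverse], fun l => by simp [h.idem],
      fun m => ((h.fin m).image List.reverse).subset fun l hl => ⟨l.reverse,
        ⟨List.reverse_eq_iff.1 hl.1, (wl_reverse ω l).trans_le hl.2⟩, l.reverse_reverse⟩⟩
  refine h'.noeth (O := O) (y := fun a => op (y a)) (wsp_op hs) (fun μ c hc => ?_) (wsp_op hs')
    fun c hc => ?_
  · rw [LinearMap.mem_ker, lc_op, op_eq_zero_iff] at hc ⊢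
    rw [rev_pt]
    exact hz μ _ hc
  · rw [LinearMap.mem_ker, lc_op, op_eq_zero_iff] at hc
    rw [← rev_rev c]
    refine sp_map' (F := rev k A) (fun l => by simpa [rev] using redR_one _) (fun c hc => ?_) _
      (hy hc)
    rw [LinearMap.mem_ker, lc_op, rev_rev, LinearMap.mem_ker.1 hc, op_zero]

end Pool.Agent.Lib.MP_ff61db_al.Pt.B7
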